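import Pool.Agent.Lib.MP_dd84fd_nt.JX.Defs
import Pool.Agent.Lib.MP_dd84fd_nt.E2.Close
import Pool.Agent.Lib.MP_dd84fd_nt.E2.MinorP
import Pool.Agent.Lib.MP_dd84fd_nt.LS.Point

/-!
# JX-JF1: the family of the primes

`wP X n` = indicator of the primes `≥ z = zI X`, density `gP X n = 1 / log n`; the model is `f2`.
(W1), closeness on the major arcs, the main term.
-/

set_option autoImplicit false

namespace Pool.MP_dd84fd_nt.JX

open Finset Pool.MP_67663b_nt.Odd Pool.MP_dd84fd_nt.En Pool.MP_dd84fd_nt.E2 Pool.MP_dd84fd_nt.LS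
open Pool.MP_dd84fd_nt.L2G (nrm)
open Pool.MP_dd84fd_nt.GX Pool.MP_dd84fd_nt.HX Pool.MP_dd84fd_nt.IX
open Pool.MP_dd84fd_nt.PL (rr)

theorem fI_gP (X w n : ℕ) : fI gP X w n = f2 w n := by
  unfold fI gP f2
  ring

theorem wP_nonneg (X n : ℕ) : 0 ≤ wP X n := by
  unfold wP
  split_ifs <;> norm_num

theorem wP_le_one (X n : ℕ) : wP X n ≤ 1 := by
  unfold wP
  split_ifs <;> norm_num

private lemma gP_two (X n : ℕ) (hn : 2 ≤ n) : 0 ≤ gP X n ∧ gP X n ≤ 2 := by
  unfold gP
  have h1 : (2 : ℝ) ≤ n := by exact_mod_cast hn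
  have h2 : Real.log 2 ≤ Real.log n := Real.log_le_log (by norm_num) h1
  have h3 := Real.log_two_gt_d9
  refine ⟨by positivity, ?_⟩
  rw [div_le_iff₀ (by linarith)]
  linarith

theorem gP_abs (X n : ℕ) : 0 ≤ gP X n ∧ gP X n ≤ 2 := by
  rcases Nat.lt_or_ge n 2 with h | h
  · have h1 : Real.log (n : ℝ) = 0 := by
      interval_cases n <;> simp
    unfold gP
    rw [h1]
    norm_num
  · exact gP_two X n h

private lemma gP_bv (X N : ℕ) (hN : 2 ≤ N) :
    ∑ n ∈ Ico 1 N, |gP X (n + 1) - gP X n| ≤ 4 - gP X N := by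
  induction N, hN using Nat.le_induction with
  | base =>
    rw [show Ico 1 2 = {1} from rfl, sum_singleton]
    have h1 : gP X 1 = 0 := by unfold gP; simp
    have h2 := gP_two X 2 le_rfl
    rw [show (1 + 1 : ℕ) = 2 from rfl, h1, sub_zero, abs_of_nonneg h2.1]
    linarith [h2.2]
  | succ m hm ih =>
    rw [sum_Ico_succ_top (by omega)]
    have h1 : gP X (m + 1) ≤ gP X m := by
      unfold gP
      have h2 : (2 : ℝ) ≤ m := by exact_mod_cast hm
      have h3 : 0 < Real.log (m : ℝ) := Real.log_pos (by linarith)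
      apply one_div_le_one_div_of_le h3
      apply Real.log_le_log (by linarith)
      push_cast
      linarith
    rw [abs_of_nonpos (by linarith)]
    linarith

theorem w1P : W1 2 1 wP gP := by
  obtain ⟨X1, hX1⟩ := MP_log_large 4
  refine ⟨max X1 2, fun X hX => ?_⟩
  have h1 := hX1 X ((le_max_left _ _).trans hX)
  have h2 : 2 ≤ X := (le_max_right _ _).trans hX
  refine ⟨fun n => ⟨?_, ?_⟩, ?_⟩
  · unfold wP rg
    by_cases h : n.Prime ∧ zI X ≤ n
    · rw [if_pos h]
      have h3 : Rgh (zI X) n := by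
        refine ⟨h.1.ne_zero, fun p hp => ?_⟩
        rw [Nat.Prime.primeFactors h.1, mem_singleton] at hp
        rw [hp]
        exact h.2
      rw [if_pos h3]
      norm_num
    · rw [if_neg h, abs_zero]
      split_ifs <;> norm_num
  · have h3 := gP_abs X n
    rw [abs_of_nonneg h3.1]
    exact_mod_cast h3.2
  · have h3 := gP_bv X X h2
    have h4 := (gP_abs X X).1
    rw [pow_one]
    linarith

private lemma z_le (X : ℕ) (hX : 1 ≤ X) : (zI X : ℝ) ≤ 2 * (X : ℝ) ^ (1 / 10 : ℝ) := by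
  have h1 : (1 : ℝ) ≤ (X : ℝ) ^ (1 / 10 : ℝ) :=
    Real.one_le_rpow (by exact_mod_cast hX) (by norm_num)
  have h2 : (zI X : ℝ) < (X : ℝ) ^ (1 / 10 : ℝ) + 1 := Nat.ceil_lt_add_one (by positivity)
  linarith

private lemma z_ev (c : ℝ) (A : ℕ) : ∃ X0 : ℕ, ∀ X : ℕ, X0 ≤ X →
    c * (zI X : ℝ) ≤ X / (Real.log X) ^ A := by
  obtain ⟨X1, hX1⟩ := MP_log_pow (2 * |c|) A (ε := 1 / 2) (by norm_num)
  obtain ⟨X2, hX2⟩ := MP_log_large 1
  refine ⟨max X1 (max X2 1), fun X hX => ?_⟩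
  simp only [max_le_iff] at hX
  obtain ⟨hXa, hXb, hXc⟩ := hX
  have h1 := hX1 X hXa
  have h2 := hX2 X hXb
  have hXR : (1 : ℝ) ≤ X := by exact_mod_cast hXc
  have hX0 : (0 : ℝ) < X := by linarith
  have h3 : 0 < (Real.log X) ^ A := by positivity
  rw [le_div_iff₀ h3]
  have h4 := z_le X hXc
  have h5 : (X : ℝ) ^ (1 / 10 : ℝ) ≤ (X : ℝ) ^ (1 / 2 : ℝ) :=
    Real.rpow_le_rpow_of_exponent_le hXR (by norm_num)
  have h6 : (X : ℝ) ^ (1 / 2 : ℝ) * (X : ℝ) ^ (1 / 2 : ℝ) = X := by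
    rw [← Real.rpow_add hX0]
    norm_num
  have h7 : 0 < (X : ℝ) ^ (1 / 2 : ℝ) := by positivity
  calc c * (zI X : ℝ) * (Real.log X) ^ A ≤ |c| * (2 * (X : ℝ) ^ (1 / 2 : ℝ)) * (Real.log X) ^ A := by
        refine mul_le_mul_of_nonneg_right ?_ h3.le
        exact mul_le_mul (le_abs_self c) (by linarith) (Nat.cast_nonneg _) (abs_nonneg _)
    _ = (2 * |c| * (Real.log X) ^ A) * (X : ℝ) ^ (1 / 2 : ℝ) := by ring
    _ ≤ (X : ℝ) ^ (1 / 2 : ℝ) * (X : ℝ) ^ (1 / 2 : ℝ) := mul_le_mul_of_nonneg_right h1 h7.le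
    _ = X := h6

private lemma WP_eq (w X : ℕ) (θ : ℝ) : WI wP gP (-1) w X θ = P1 X θ - F2 w X θ -
    ∑ n ∈ (Icc 1 X).filter (fun n => n.Prime ∧ n < zI X), ee ((n : ℝ) * θ) := by
  unfold WI P1 F2
  rw [sum_filter, sum_filter, ← sum_sub_distrib, ← sum_sub_distrib]
  refine sum_congr rfl fun n _ => ?_
  rw [fI_gP]
  unfold wP
  by_cases h1 : n.Prime
  · by_cases h2 : zI X ≤ n
    · rw [if_pos ⟨h1, h2⟩, if_pos h1, if_neg (by omega)]
      push_cast
      ring
    · rw [if_neg (by tauto), if_pos h1, if_pos ⟨h1, by omega⟩]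
      push_cast
      ring
  · rw [if_neg (by tauto), if_neg h1, if_neg (by tauto)]
    push_cast
    ring

private lemma ee_norm (x : ℝ) : ‖ee x‖ = 1 := by
  unfold ee
  rw [Complex.norm_exp]
  simp

/-- closeness on the major arcs -/
theorem majP : MajI wP gP := by
  intro A B
  refine ⟨max B 1, fun D' hD' => ?_⟩
  obtain ⟨X1, hX1⟩ := close (A + 1) (max B 1) D' (le_max_right _ _) hD'
  obtain ⟨X2, hX2⟩ := z_ev 1 (A + 1)
  obtain ⟨X3, hX3⟩ := MP_log_large 2
  refine ⟨max X1 (max X2 (max X3 1)), fun X hX θ hθ => ?_⟩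
  simp only [max_le_iff] at hX
  obtain ⟨hXa, hXb, hXc, hXd⟩ := hX
  have hL := hX3 X hXc
  have hXR : (1 : ℝ) ≤ X := by exact_mod_cast hXd
  have hθ' : Ht ((Real.log X) ^ (max B 1)) X θ := by
    obtain ⟨q, a, hq, hg, hle⟩ := hθ
    exact ⟨q, a, hq, hg, hle.trans (pow_le_pow_right₀ (by linarith) (le_max_left _ _))⟩
  have h1 := hX1 X hXa θ hθ'
  have h2 := hX2 X hXb
  rw [WP_eq]
  have h3 : ‖∑ n ∈ (Icc 1 X).filter (fun n => n.Prime ∧ n < zI X), ee ((n : ℝ) * θ)‖ ≤ zI X := by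
    refine (norm_sum_le _ _).trans ?_
    rw [sum_congr rfl (fun n _ => ee_norm _), sum_const, nsmul_eq_mul, mul_one]
    have h4 : (Icc 1 X).filter (fun n => n.Prime ∧ n < zI X) ⊆ range (zI X) := by
      intro n hn
      rw [mem_filter] at hn
      exact mem_range.2 hn.2.2
    have h5 := card_le_card h4
    rw [card_range] at h5
    exact_mod_cast h5
  refine (norm_sub_le _ _).trans ?_
  have h4 : (X : ℝ) / (Real.log X) ^ (A + 1) + X / (Real.log X) ^ (A + 1) ≤ X / (Real.log X) ^ A := by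
    rw [← add_div, div_le_div_iff₀ (by positivity) (by positivity), pow_succ]
    have h5 : (X + X : ℝ) * Real.log X ^ A = X * (Real.log X ^ A * 2) := by ring
    rw [h5]
    refine mul_le_mul_of_nonneg_left ?_ (by linarith)
    exact mul_le_mul_of_nonneg_left hL (by positivity)
  linarith

/-- `g n` as a convolution -/
theorem g_eq (n : ℕ) : (g n : ℝ) = ∑ m ∈ Icc 1 (n - 1),
    (if m.Prime then (1 : ℝ) else 0) * (if (n - m).Prime then (1 : ℝ) else 0) := by
  unfold g
  rw [card_filter, Nat.cast_sum]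
  symm
  refine sum_subset_zero_on_sdiff ?_ ?_ ?_
  · intro m hm
    rw [mem_Icc] at hm
    rw [mem_range]
    omega
  · intro m hm
    rw [mem_sdiff, mem_range, mem_Icc] at hm
    obtain ⟨hm1, hm2⟩ := hm
    have : ¬ (m.Prime ∧ (n - m).Prime) := by
      rintro ⟨h1, h2⟩
      have := h1.pos
      have := h2.pos
      omega
    rw [if_neg this]
    simp
  · intro m _
    by_cases h1 : m.Prime
    · by_cases h2 : (n - m).Prime
      · simp [h1, h2]
      · simp [h1, h2]
    · simp [h1]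

/-- the small primes are negligible -/
theorem g_cvv (X n : ℕ) : |(g n : ℝ) - cvv (wP X) (wP X) n| ≤ 2 * zI X := by
  rw [g_eq]
  unfold cvv
  rw [← sum_sub_distrib]
  refine (abs_sum_le_sum_abs _ _).trans ?_
  have h1 : ∀ m ∈ Icc 1 (n - 1), |(if m.Prime then (1 : ℝ) else 0) *
      (if (n - m).Prime then (1 : ℝ) else 0) - wP X m * wP X (n - m)| ≤
      (if m < zI X then (1 : ℝ) else 0) + (if n - m < zI X then (1 : ℝ) else 0) := by
    intro m _
    unfold wP
    by_cases h1 : m < zI X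
    · rw [if_pos h1, if_neg (fun h => by omega : ¬ (m.Prime ∧ zI X ≤ m))]
      split_ifs <;> norm_num
    · by_cases h2 : n - m < zI X
      · rw [if_pos h2, if_neg (fun h => by omega : ¬ ((n - m).Prime ∧ zI X ≤ n - m))]
        split_ifs <;> norm_num
      · have e1 : zI X ≤ m := by omega
        have e2 : zI X ≤ n - m := by omega
        simp only [e1, e2, and_true, sub_self, abs_zero, if_false, h1, h2, add_zero, le_refl]
  refine (sum_le_sum h1).trans ?_
  rw [sum_add_distrib]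
  have h2 : ∑ m ∈ Icc 1 (n - 1), (if m < zI X then (1 : ℝ) else 0) ≤ zI X := by
    rw [← sum_filter, sum_const, nsmul_eq_mul, mul_one]
    have h4 : (Icc 1 (n - 1)).filter (fun m => m < zI X) ⊆ range (zI X) := by
      intro m hm
      rw [mem_filter] at hm
      exact mem_range.2 hm.2
    have h5 := card_le_card h4
    rw [card_range] at h5
    exact_mod_cast h5
  have h3 : ∑ m ∈ Icc 1 (n - 1), (if n - m < zI X then (1 : ℝ) else 0) ≤ zI X := by
    rw [← sum_filter, sum_const, nsmul_eq_mul, mul_one]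
    have h4 : ((Icc 1 (n - 1)).filter (fun m => n - m < zI X)).card ≤ (range (zI X)).card := by
      refine card_le_card_of_injOn (fun m => n - m) ?_ ?_
      · intro m hm
        rw [mem_coe, mem_filter] at hm
        rw [mem_coe, mem_range]
        exact hm.2
      · intro m hm m' hm' h
        rw [mem_coe, mem_filter, mem_Icc] at hm hm'
        have : n - m = n - m' := h
        omega
    rw [card_range] at h4
    exact_mod_cast h4
  linarith

theorem cvv_fI (X w n : ℕ) : cvv (fI gP X w) (fI gP X w) n = conv2 w n := by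
  unfold cvv conv2
  refine sum_congr rfl fun m _ => ?_
  rw [fI_gP, fI_gP]

/-- the main term -/
theorem mainP (A D' : ℕ) (hD : A + 5 ≤ D') : ∃ X0 : ℕ, ∀ X : ℕ, X0 ≤ X → ∀ n : ℕ, Even n →
    0 < n → n ≤ X → |(g n : ℝ) - SS n * JJ n| ≤
      |cvv (wP X) (wP X) n - cvv (fI gP X (wX D' X)) (fI gP X (wX D' X)) n| +
        X / (2 * (Real.log X) ^ A) := by
  obtain ⟨X1, hX1⟩ := point_close A D' hD
  obtain ⟨X2, hX2⟩ := z_ev 8 A
  refine ⟨max X1 X2, fun X hX n hev hn0 hnX => ?_⟩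
  have h1 := hX1 X ((le_max_left _ _).trans hX) n hev hn0 hnX
  have h2 := hX2 X ((le_max_right _ _).trans hX)
  have h3 := g_cvv X n
  rw [cvv_fI]
  have h4 : (X : ℝ) / (2 * (Real.log X) ^ A) = X / (4 * (Real.log X) ^ A) +
      X / (Real.log X) ^ A / 4 := by
    rcases eq_or_ne ((Real.log X) ^ A) 0 with h | h
    · rw [h]; simp
    · field_simp
      ring
  have h5 : (g n : ℝ) - SS n * JJ n = ((g n : ℝ) - cvv (wP X) (wP X) n) +
      (cvv (wP X) (wP X) n - conv2 (wX D' X) n) + (conv2 (wX D' X) n - SS n * JJ n) := by ring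
  rw [h4, h5]
  refine (abs_add_three _ _ _).trans ?_
  linarith

end Pool.MP_dd84fd_nt.JX
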