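import Pool.Agent.Lib.MP_dd84fd_nt.JX.PlTwo
import Pool.Agent.Lib.MP_dd84fd_nt.HX.PlLam

/-!
# PL_J-Lam: a function independent of `a` against type II

Adapt `IXP.lam_two_i` (`IX/PlLam.lean`) to `StdJ`, `BlkJ`: the sizes (`16 ≤ X`, `1 ≤ log X`, `0 < b`, `N ≤ X`, `b ≤ X`, `N b M ≤ X`,
`q ≤ X`) come from `j2_std` of `JX/PlTwo.lean`; `M ≥ X^τ/2 ≥ 1`.  Only the last numerical step (`lt_num`, powers of `y = X^(1/16)`) changes:
with `Z = ∑ Z_q ≤ S' (8N + X/(M b)) X / M`, `S' = 12 L² S`, `U1 = ∑ κ²/q ≤ D4 Y`, `U2 = ∑ κ² h/q ≤ X^(τ/4)` (`κ² h ≤ τ(h)³ ≤ X^(τ/8)`: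
`ltK_sq` and `IXP.i2_ev`/`j2_tau`; `∑ 1/q ≤ 1 + log X`):
`lt_cs`: `∑ κ/√q √Z_q (M + √(2M(1+b)) √h) ≤ √Z (M √U1 + √(2M(1+b)) √U2)` and
`b √Z M √U1 ≤ 3 √S' (1+b) X √U1`  (`b² Z M² ≤ S' X (8 N b M b + X b) ≤ 9 S' X² b`),
`b √Z √(2M(1+b)) √U2 ≤ √(2 S' (1+b)) √(b) X √9 / √M · X^(τ/8) ≤ 5 √S' (1+b) X · X^(-3τ/8) · 2` (`b² Z M ≤ 9 S' X² b/M`, `M ≥ X^τ/2`).
`X^(-3τ/8) ≤ X^(-τ/10)`.  The constant `C` must not depend on `th, e, τ` (`X0` may).
-/

set_option autoImplicit false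

namespace Pool.MP_dd84fd_nt.JXP

open Finset Pool.MP_67663b_nt.Odd Pool.MP_dd84fd_nt.PL Pool.MP_dd84fd_nt.HX Pool.MP_dd84fd_nt.HXP
open Pool.MP_dd84fd_nt.JX (Adm)

theorem lamj_num (g X b N M S U1 U2 V Y D4 : ℝ) (hg : 1 ≤ g) (hX : 0 < X) (hb : 0 < b)
    (hN : 0 ≤ N) (hM1 : g ^ 8 / 2 ≤ M) (hNM : N * b * M ≤ X) (hS : 0 ≤ S) (hY : 0 ≤ Y)
    (hV0 : 0 ≤ V) (hV : V ≤ (8 * N + X / (M * b)) * (S * X / M)) (hU10 : 0 ≤ U1)
    (hU1 : U1 ≤ D4 * Y) (hU20 : 0 ≤ U2) (hU2 : U2 ≤ g ^ 2) (hD4 : 1 ≤ D4) :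
    b * ((M * Real.sqrt U1 + Real.sqrt (2 * M * (1 + b)) * Real.sqrt U2) * Real.sqrt V) ≤
      (3 * D4 + 6) * (1 + b) * Real.sqrt S * X * (Real.sqrt Y + 1 / g) := by
  have hg0 : 0 < g := by linarith
  have hM : 0 < M := lt_of_lt_of_le (by positivity) hM1
  have hV1 : b ^ 2 * M ^ 2 * V ≤ 9 * S * X ^ 2 * b := by
    calc b ^ 2 * M ^ 2 * V ≤ b ^ 2 * M ^ 2 * ((8 * N + X / (M * b)) * (S * X / M)) :=
          mul_le_mul_of_nonneg_left hV (by positivity)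
      _ = S * X * b * (8 * (N * b * M) + X) := by
          field_simp
      _ ≤ S * X * b * (8 * X + X) := by
          refine mul_le_mul_of_nonneg_left (by linarith) (by positivity)
      _ = 9 * S * X ^ 2 * b := by ring
  have hV2 : b ^ 2 * M * V * g ^ 8 ≤ 18 * S * X ^ 2 * b := by
    have h1 : b ^ 2 * M * V * (g ^ 8 / 2) ≤ 9 * S * X ^ 2 * b := by
      calc b ^ 2 * M * V * (g ^ 8 / 2) ≤ b ^ 2 * M * V * M :=
            mul_le_mul_of_nonneg_left hM1 (by positivity)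
        _ = b ^ 2 * M ^ 2 * V := by ring
        _ ≤ _ := hV1
    linarith
  -- first term
  have t1 : b * (M * Real.sqrt U1 * Real.sqrt V) ≤
      3 * D4 * (1 + b) * Real.sqrt S * X * Real.sqrt Y := by
    have e1 : b * (M * Real.sqrt U1 * Real.sqrt V) = Real.sqrt (b ^ 2 * M ^ 2 * V * U1) := by
      rw [Real.sqrt_mul (by positivity), Real.sqrt_mul (by positivity),
        Real.sqrt_mul (by positivity), Real.sqrt_sq hb.le, Real.sqrt_sq hM.le]
      ring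
    rw [e1]
    have h2 : b ^ 2 * M ^ 2 * V * U1 ≤ (3 * D4 * (1 + b) * X) ^ 2 * (S * Y) := by
      calc b ^ 2 * M ^ 2 * V * U1 ≤ (9 * S * X ^ 2 * b) * (D4 * Y) :=
            mul_le_mul hV1 hU1 hU10 (by positivity)
        _ = (9 * X ^ 2 * (S * Y)) * (b * D4) := by ring
        _ ≤ (9 * X ^ 2 * (S * Y)) * ((1 + b) ^ 2 * D4 ^ 2) := by
            refine mul_le_mul_of_nonneg_left (mul_le_mul (by nlinarith) (by nlinarith)
              (by linarith) (by positivity)) (by positivity)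
        _ = _ := by ring
    calc Real.sqrt (b ^ 2 * M ^ 2 * V * U1) ≤ Real.sqrt ((3 * D4 * (1 + b) * X) ^ 2 * (S * Y)) :=
          Real.sqrt_le_sqrt h2
      _ = 3 * D4 * (1 + b) * X * (Real.sqrt S * Real.sqrt Y) := by
          rw [Real.sqrt_mul (by positivity), Real.sqrt_sq (by positivity), Real.sqrt_mul hS]
      _ = _ := by ring
  -- second term
  have t2 : b * (Real.sqrt (2 * M * (1 + b)) * Real.sqrt U2 * Real.sqrt V) ≤
      6 * (1 + b) * Real.sqrt S * X * (1 / g) := by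
    have e0 : ∀ R : ℝ, 0 ≤ R → b * (Real.sqrt R * Real.sqrt U2 * Real.sqrt V) =
        Real.sqrt (b ^ 2 * R * U2 * V) := by
      intro R hR
      rw [Real.sqrt_mul (by positivity), Real.sqrt_mul (by positivity),
        Real.sqrt_mul (by positivity), Real.sqrt_sq hb.le]
      ring
    rw [e0 _ (by positivity)]
    have hg6 : g ^ 2 ≤ g ^ 6 := pow_le_pow_right₀ hg (by norm_num)
    have h2 : b ^ 2 * (2 * M * (1 + b)) * U2 * V ≤ (6 * (1 + b) * X * (1 / g)) ^ 2 * S := by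
      have h3 : b ^ 2 * (2 * M * (1 + b)) * U2 * V ≤
          2 * (1 + b) * (b ^ 2 * M * V) * g ^ 6 := by
        calc b ^ 2 * (2 * M * (1 + b)) * U2 * V = 2 * (1 + b) * (b ^ 2 * M * V) * U2 := by ring
          _ ≤ 2 * (1 + b) * (b ^ 2 * M * V) * g ^ 6 :=
            mul_le_mul_of_nonneg_left (hU2.trans hg6) (by positivity)
      have h4 : 2 * (1 + b) * (b ^ 2 * M * V) * g ^ 6 * g ^ 2 ≤ 36 * (1 + b) ^ 2 * X ^ 2 * S := by
        calc 2 * (1 + b) * (b ^ 2 * M * V) * g ^ 6 * g ^ 2 =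
              2 * (1 + b) * (b ^ 2 * M * V * g ^ 8) := by ring
          _ ≤ 2 * (1 + b) * (18 * S * X ^ 2 * b) :=
              mul_le_mul_of_nonneg_left hV2 (by positivity)
          _ = 36 * (1 + b) * X ^ 2 * S * b := by ring
          _ ≤ 36 * (1 + b) * X ^ 2 * S * (1 + b) :=
              mul_le_mul_of_nonneg_left (by linarith) (by positivity)
          _ = _ := by ring
      have h5 : (6 * (1 + b) * X * (1 / g)) ^ 2 * S = 36 * (1 + b) ^ 2 * X ^ 2 * S / g ^ 2 := by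
        field_simp
        ring
      rw [h5, le_div_iff₀ (by positivity)]
      exact (mul_le_mul_of_nonneg_right h3 (by positivity)).trans h4
    calc Real.sqrt (b ^ 2 * (2 * M * (1 + b)) * U2 * V) ≤
          Real.sqrt ((6 * (1 + b) * X * (1 / g)) ^ 2 * S) := Real.sqrt_le_sqrt h2
      _ = 6 * (1 + b) * X * (1 / g) * Real.sqrt S := by
          rw [Real.sqrt_mul (by positivity), Real.sqrt_sq (by positivity)]
      _ = _ := by ring
  have hs : 0 ≤ Real.sqrt S := Real.sqrt_nonneg _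
  have hY' : 0 ≤ Real.sqrt Y := Real.sqrt_nonneg _
  have hg' : 0 < 1 / g := by positivity
  have r1 : 0 ≤ (1 + b) * Real.sqrt S * X * Real.sqrt Y := by positivity
  have r2 : 0 ≤ (1 + b) * Real.sqrt S * X * (1 / g) := by positivity
  have r3 : 0 ≤ D4 * ((1 + b) * Real.sqrt S * X * (1 / g)) := mul_nonneg (by linarith) r2
  calc b * ((M * Real.sqrt U1 + Real.sqrt (2 * M * (1 + b)) * Real.sqrt U2) * Real.sqrt V) =
        b * (M * Real.sqrt U1 * Real.sqrt V) +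
          b * (Real.sqrt (2 * M * (1 + b)) * Real.sqrt U2 * Real.sqrt V) := by ring
    _ ≤ 3 * D4 * (1 + b) * Real.sqrt S * X * Real.sqrt Y +
        6 * (1 + b) * Real.sqrt S * X * (1 / g) := add_le_add t1 t2
    _ ≤ _ := by nlinarith

theorem lamj_harm (X : ℕ) (QQ : Finset ℕ) (hQ : ∀ q ∈ QQ, 1 ≤ q ∧ q ≤ X) :
    ∑ q ∈ QQ, 1 / (q : ℝ) ≤ 1 + Real.log X := by
  have h1 : ∑ q ∈ QQ, 1 / (q : ℝ) ≤ ∑ q ∈ Icc 1 X, 1 / (q : ℝ) := by
    refine Finset.sum_le_sum_of_subset_of_nonneg (fun q hq => ?_) fun q _ _ => by positivity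
    exact Finset.mem_Icc.2 (hQ q hq)
  refine h1.trans ?_
  have := harmonic_le_one_add_log X
  rw [harmonic_eq_sum_Icc] at this
  push_cast at this
  simpa [one_div] using this

theorem lam_two_j : ∃ C : ℝ, 0 < C ∧ ∀ (th e τ : ℝ) (A1 : ℕ), Adm th e τ → ∃ X0 : ℕ,
    ∀ X : ℕ, X0 ≤ X → ∀ (n : ℕ) (b N σ : ℝ) (QQ : Finset ℕ) (bq : ℕ → ℝ),
    StdJ X n th e A1 b N σ QQ bq →
    ∀ (lam : ℕ → ℝ → ℂ) (Λ0 : ℝ), (∀ q, Continuous (lam q)) → 0 ≤ Λ0 → Λ0 ≤ X →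
    (∀ q ∈ QQ, ∀ x, ‖lam q x‖ ≤ Λ0 * X / q) →
    ∀ (M Am S : ℝ) (K : ℕ) (MM : Finset ℕ) (a c : ℕ → ℂ),
    0 ≤ Am → Am ≤ X → 0 ≤ S → S ≤ X → BlkJ X th e τ M K MM a c Am S →
    ∑ q ∈ QQ, ‖Bq X (bq q) σ n q (fun _ x => lam q x) (f2f MM a (tp K (cq q c)) σ q)‖ ≤
      C * (Real.log X) ^ 2 * Λ0 * Am * Real.sqrt S * (1 + b) * X *
        (Real.sqrt (∑ q ∈ QQ, 1 / ((q : ℝ) * (hq q n : ℝ) ^ (1 / 4 : ℝ))) +
          (X : ℝ) ^ (-(τ / 10))) + 1 := by
  obtain ⟨C, hC, h1⟩ := lt_one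
  obtain ⟨D4, hD4, h4⟩ := lt_D4
  refine ⟨200 * C * (3 * D4 + 6), by positivity, ?_⟩
  intro th e τ A1 hpar
  obtain ⟨X0, hX0⟩ := j2_std th e τ A1 hpar
  obtain ⟨hp1, hp2, hp3, hp4, hp5⟩ := hpar
  have hτ0 : 0 < τ := by linarith
  obtain ⟨X1, hX1e⟩ := j2_tau 3 (τ / 8) (by positivity)
  obtain ⟨X2, hX2e⟩ := j2_log 1 2 (τ / 8) (by positivity)
  obtain ⟨X3, hX3e⟩ := j2_rpow (128 * C) 1 (by norm_num)
  obtain ⟨X4, hX4e⟩ := j2_rpow 2 τ hτ0
  refine ⟨max (max X0 X1) (max X2 (max X3 X4)), ?_⟩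
  intro X hX n b N σ QQ bq hstd lam Λ0 hlam hΛ0 hΛX hlb M Am S K MM a c hAm hAmX hS hSX hblk
  obtain ⟨hX16, hL1, hb0, hNX, hbX, -, hNbM', hqq'⟩ :=
    hX0 X ((le_max_left _ _).trans ((le_max_left _ _).trans hX)) n b N σ QQ bq hstd
  have g1 := hX1e X ((le_max_right _ _).trans ((le_max_left _ _).trans hX))
  have g2 := hX2e X ((le_max_left _ _).trans ((le_max_right _ _).trans hX))
  have g3 := hX3e X ((le_max_left _ _).trans ((le_max_right _ _).trans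
    ((le_max_right _ _).trans hX)))
  have g4 := hX4e X ((le_max_right _ _).trans ((le_max_right _ _).trans
    ((le_max_right _ _).trans hX)))
  rw [Real.rpow_one] at g3
  rw [pow_one] at g2
  obtain ⟨h2n, hnX, hσ, hbA, hN1, hNb, hFam, -, hbq⟩ := hstd
  obtain ⟨hM1, hM2, hK, hMM, ha, hc⟩ := hblk
  have hX16' : (16 : ℝ) ≤ X := by exact_mod_cast hX16
  have hXp : (0 : ℝ) < X := by linarith
  have hX1 : 1 ≤ X := by omega
  have hX1' : (1 : ℝ) ≤ X := by linarith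
  have hn1 : 1 ≤ n := by omega
  -- powers
  obtain ⟨g, hg⟩ : ∃ g : ℝ, g = (X : ℝ) ^ (τ / 8) := ⟨_, rfl⟩
  have hg1 : 1 ≤ g := by rw [hg]; exact Real.one_le_rpow hX1' (by positivity)
  have hg0 : 0 < g := by linarith
  have hg8 : g ^ 8 = (X : ℝ) ^ τ := by
    rw [hg, ← Real.rpow_natCast, ← Real.rpow_mul hXp.le]
    congr 1
    push_cast
    ring
  have em : 1 / g ≤ (X : ℝ) ^ (-(τ / 10)) := by
    rw [hg, one_div, ← Real.rpow_neg hXp.le]
    exact Real.rpow_le_rpow_of_exponent_le hX1' (by linarith)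
  have hMy : g ^ 8 / 2 ≤ M := by
    rw [hg8]
    exact hM1
  have hM12 : 1 ≤ M := by
    refine le_trans ?_ hM1
    linarith
  have hM0 : 0 < M := by linarith
  have hMX' : M ≤ X := by
    calc M ≤ (X : ℝ) ^ (th - 3 * e) := hM2
      _ ≤ (X : ℝ) ^ (1 : ℝ) := Real.rpow_le_rpow_of_exponent_le hX1' (by linarith)
      _ = X := Real.rpow_one _
  have hMX : M ≤ 2 * X := by linarith
  have hNbM : N * b * M ≤ X := hNbM' M hM2 hM0.le
  have hqq : ∀ q ∈ QQ, 1 ≤ q ∧ q ≤ X := fun q hqm => ⟨(hqq' q hqm).1, (hqq' q hqm).2.1⟩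
  -- bound of the inner polynomial
  have hcq : ∀ q k : ℕ, ‖cq q c k‖ ≤ ‖c k‖ := by
    intro q k
    unfold cq
    split_ifs
    · exact le_rfl
    · rw [norm_zero]
      exact norm_nonneg _
  have hBs : ∀ (q : ℕ) (x : ℝ), ‖tp K (cq q c) x‖ ≤ 2 * (X : ℝ) ^ 2 := by
    intro q x
    unfold tp
    refine (norm_sum_le _ _).trans ?_
    have h2 : ∀ k ∈ Icc 1 K, ‖cq q c k * ee ((k : ℝ) * x)‖ ≤ 1 + ‖c k‖ ^ 2 := by
      intro k _
      have h3 : ‖ee ((k : ℝ) * x)‖ = 1 := by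
        unfold ee
        rw [Complex.norm_exp]
        simp
      rw [norm_mul, h3, mul_one]
      refine (hcq q k).trans ?_
      nlinarith [sq_nonneg (‖c k‖ - 1), norm_nonneg (c k)]
    refine (Finset.sum_le_sum h2).trans ?_
    rw [Finset.sum_add_distrib]
    have h5 : ∑ _k ∈ Icc 1 K, (1 : ℝ) ≤ X := by
      simp only [Finset.sum_const, Nat.card_Icc, nsmul_eq_mul, mul_one]
      have : K + 1 - 1 = K := by omega
      rw [this]
      exact_mod_cast hK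
    have h6 : S * X / M ≤ X ^ 2 := by
      rw [div_le_iff₀ (by linarith)]
      nlinarith
    nlinarith [hc.trans h6]
  -- the masses
  obtain ⟨Z, hZ⟩ : ∃ Z : ℕ → ℝ, Z = fun q => ∑ r ∈ rr q, ∫ t in (0 : ℝ)..1,
    ‖tp K (cq q c) ((r : ℝ) / q + σ * (M * (bq q / X)) * Real.exp (2 * Int.fract t))‖ ^ 2 :=
      ⟨_, rfl⟩
  have hZ0 : ∀ q ∈ QQ, 0 ≤ Z q := by
    intro q _
    rw [hZ]
    refine Finset.sum_nonneg fun r _ => ?_
    refine intervalIntegral.integral_nonneg (by norm_num) fun t _ => by positivity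
  obtain ⟨S', hS'⟩ : ∃ S' : ℝ, S' = 12 * (Real.log X) ^ 2 * S := ⟨_, rfl⟩
  have hS'0 : 0 ≤ S' := by rw [hS']; positivity
  have hsS' : Real.sqrt S' ≤ 4 * Real.log X * Real.sqrt S := by
    rw [hS', Real.sqrt_mul (by positivity)]
    refine mul_le_mul_of_nonneg_right ?_ (Real.sqrt_nonneg _)
    rw [Real.sqrt_le_left (by linarith)]
    nlinarith [sq_nonneg (Real.log X)]
  have hNlog : 3 * (1 + Real.log N) ^ 2 ≤ 12 * (Real.log X) ^ 2 := by
    have h2 : Real.log N ≤ Real.log X := Real.log_le_log (by linarith) hNX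
    have h3 : 0 ≤ Real.log N := Real.log_nonneg hN1
    nlinarith
  have hZs : ∑ q ∈ QQ, Z q ≤ (8 * N + X / (M * b)) * (S' * X / M) := by
    have h2 := bmass_c X hX1 b N σ M hb0 hN1 (by linarith) hσ QQ hFam bq hbq K c
    rw [hZ]
    refine h2.trans ?_
    rw [hS']
    have h3 : 0 ≤ 8 * N + X / (M * b) := by positivity
    calc 3 * (1 + Real.log N) ^ 2 * (8 * N + X / (M * b)) * ∑ k ∈ Icc 1 K, ‖c k‖ ^ 2
        ≤ 12 * (Real.log X) ^ 2 * (8 * N + X / (M * b)) * (S * X / M) :=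
          mul_le_mul (mul_le_mul_of_nonneg_right hNlog h3) hc
            (Finset.sum_nonneg fun k _ => by positivity) (by positivity)
      _ = (8 * N + X / (M * b)) * (12 * (Real.log X) ^ 2 * S * X / M) := by ring
  -- the bound for one modulus
  have hper : ∀ q ∈ QQ, ‖Bq X (bq q) σ n q (fun _ x => lam q x)
      (f2f MM a (tp K (cq q c)) σ q)‖ ≤
      50 * C * Real.log X * Λ0 * Am * (b * (ltK (hq q n) / Real.sqrt q * Real.sqrt (Z q) *
        (M + Real.sqrt (2 * M * (1 + b)) * Real.sqrt (hq q n)))) + 128 * C / (X : ℝ) ^ 3 := by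
    intro q hqm
    obtain ⟨hq1, hqX⟩ := hqq q hqm
    have hq1' : (1 : ℝ) ≤ q := by exact_mod_cast hq1
    have hqX' : (q : ℝ) ≤ X := by exact_mod_cast hqX
    have : NeZero q := ⟨by omega⟩
    have hβ := hbq q hqm
    have h2 := h1 X n q (bq q) σ hX1 hnX (by linarith) hσ hn1 (lam q) (Λ0 * X / q) (hlam q)
      (hlb q hqm) M Am K MM a (cq q c) hM12 hAm hMM ha (2 * (X : ℝ) ^ 2) (8 * (X : ℝ) ^ 4)
      (X ^ 24) (hBs q)
      (by
        rw [div_le_iff₀ (by linarith)]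
        have h3 : Λ0 * X ≤ X * X := mul_le_mul_of_nonneg_right hΛX hXp.le
        have h5 : (X : ℝ) * X ≤ 8 * X ^ 4 := by nlinarith [pow_le_pow_left₀ (by norm_num) hX1' 2]
        have h6 : 8 * (X : ℝ) ^ 4 ≤ 8 * (X : ℝ) ^ 4 * q := by nlinarith [pow_pos hXp 4]
        linarith)
      (by
        calc 2 * M * Am * (2 * (X : ℝ) ^ 2) ≤ 2 * (2 * X) * X * (2 * (X : ℝ) ^ 2) := by
              refine mul_le_mul_of_nonneg_right (mul_le_mul (by linarith) hAmX hAm (by linarith))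
                (by positivity)
          _ = 8 * (X : ℝ) ^ 4 := by ring)
      (Nat.one_le_pow _ _ hX1)
      (by
        have h3 : bq q ≤ 2 * X := by linarith [hβ.2]
        have h5 : (16 : ℝ) * X ≤ X ^ 24 := by
          calc (16 : ℝ) * X ≤ X * X := by nlinarith
            _ = X ^ 2 := by ring
            _ ≤ X ^ 24 := pow_le_pow_right₀ hX1' (by norm_num)
        push_cast
        linarith)
    refine h2.trans ?_
    have hlogJ : Real.log ((X ^ 24 : ℕ) : ℝ) = 24 * Real.log X := by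
      push_cast
      rw [Real.log_pow]
      norm_num
    rw [hlogJ]
    have h3 := lt_per C X b (bq q) Λ0 q (Nat.totient q) (ltK (hq q n)) (Z q) Am M (hq q n)
      (Real.log X) (8 * (X : ℝ) ^ 4) ((X ^ 24 : ℕ) : ℝ) hC hX1' hb0 hβ.1 hβ.2 hbX hΛ0 hq1' hqX'
      (Nat.cast_nonneg _) (by exact_mod_cast Nat.totient_le q) (ltK_nonneg _) hAm (by linarith)
      (Nat.cast_nonneg _) hL1 rfl (by push_cast; ring)
    rw [hZ] at h3 ⊢
    exact h3
  have hh1 : ∀ q ∈ QQ, 1 ≤ hq q n ∧ hq q n ≤ X := by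
    intro q hqm
    obtain ⟨hq1, hqX⟩ := hqq q hqm
    unfold hq
    exact ⟨Nat.div_pos (Nat.le_of_dvd hq1 (Nat.gcd_dvd_left q n))
      (Nat.gcd_pos_of_pos_left _ hq1), (Nat.div_le_self _ _).trans hqX⟩
  refine (Finset.sum_le_sum hper).trans ?_
  rw [Finset.sum_add_distrib]
  have htail : ∑ _q ∈ QQ, 128 * C / (X : ℝ) ^ 3 ≤ 1 := by
    rw [Finset.sum_const, nsmul_eq_mul]
    have hcard : (QQ.card : ℝ) ≤ X := by
      have : QQ.card ≤ X := by
        calc QQ.card ≤ (Icc 1 X).card := Finset.card_le_card fun q hqm => Finset.mem_Icc.2 (hqq q hqm)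
          _ = X := by simp
      exact_mod_cast this
    calc (QQ.card : ℝ) * (128 * C / (X : ℝ) ^ 3) ≤ X * (128 * C / (X : ℝ) ^ 3) :=
          mul_le_mul_of_nonneg_right hcard (by positivity)
      _ = 128 * C / X ^ 2 := by field_simp
      _ ≤ 1 := by
          rw [div_le_one (by positivity)]
          nlinarith
  refine add_le_add ?_ htail
  rw [← Finset.mul_sum, ← Finset.mul_sum]
  have hcs := lt_cs QQ (fun q => ltK (hq q n)) (fun q => (hq q n : ℝ)) Z M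
    (Real.sqrt (2 * M * (1 + b))) (fun q _ => Nat.cast_nonneg _) hZ0 (by linarith)
    (Real.sqrt_nonneg _)
  have hU1 : ∑ q ∈ QQ, ltK (hq q n) ^ 2 / q ≤
      D4 * ∑ q ∈ QQ, 1 / ((q : ℝ) * (hq q n : ℝ) ^ (1 / 4 : ℝ)) := by
    rw [Finset.mul_sum]
    refine Finset.sum_le_sum fun q hqm => ?_
    have hq0 : (0 : ℝ) < q := by exact_mod_cast (hqq q hqm).1
    calc ltK (hq q n) ^ 2 / q ≤ D4 * (1 / (hq q n : ℝ) ^ (1 / 4 : ℝ)) / q :=
          div_le_div_of_nonneg_right (h4 _ (hh1 q hqm).1) hq0.le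
      _ = D4 * (1 / ((q : ℝ) * (hq q n : ℝ) ^ (1 / 4 : ℝ))) := by
          rw [mul_div_assoc, div_div, mul_comm ((hq q n : ℝ) ^ (1 / 4 : ℝ))]
  have hU2 : ∑ q ∈ QQ, ltK (hq q n) ^ 2 * (hq q n : ℝ) / q ≤ g ^ 2 := by
    have h5 : ∀ q ∈ QQ, ltK (hq q n) ^ 2 * (hq q n : ℝ) / q ≤ g * (1 / (q : ℝ)) := by
      intro q hqm
      have hq0 : (0 : ℝ) < q := by exact_mod_cast (hqq q hqm).1
      have hh0 : (0 : ℝ) < hq q n := by exact_mod_cast (hh1 q hqm).1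
      rw [mul_one_div]
      refine div_le_div_of_nonneg_right ?_ hq0.le
      have h6 := ltK_sq (hq q n) (hh1 q hqm).1
      rw [le_div_iff₀ hh0] at h6
      refine h6.trans ?_
      rw [hg]
      refine g1 (hq q n) (hh1 q hqm).1 ?_
      have h7 : (hq q n : ℝ) ≤ X := by exact_mod_cast (hh1 q hqm).2
      have h8 : (2 * X : ℝ) ≤ (2 * X) ^ 3 := le_self_pow₀ (by linarith) (by norm_num)
      linarith
    calc ∑ q ∈ QQ, ltK (hq q n) ^ 2 * (hq q n : ℝ) / q ≤ ∑ q ∈ QQ, g * (1 / (q : ℝ)) :=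
          Finset.sum_le_sum h5
      _ = g * ∑ q ∈ QQ, 1 / (q : ℝ) := by rw [Finset.mul_sum]
      _ ≤ g * g := by
          refine mul_le_mul_of_nonneg_left ?_ hg0.le
          rw [← hg] at g2
          have := lamj_harm X QQ hqq
          linarith
      _ = g ^ 2 := by ring
  have hY0 : 0 ≤ ∑ q ∈ QQ, 1 / ((q : ℝ) * (hq q n : ℝ) ^ (1 / 4 : ℝ)) :=
    Finset.sum_nonneg fun q _ => by positivity
  have hnum := lamj_num g X b N M S' (∑ q ∈ QQ, ltK (hq q n) ^ 2 / q)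
    (∑ q ∈ QQ, ltK (hq q n) ^ 2 * (hq q n : ℝ) / q) (∑ q ∈ QQ, Z q)
    (∑ q ∈ QQ, 1 / ((q : ℝ) * (hq q n : ℝ) ^ (1 / 4 : ℝ))) D4 hg1 hXp hb0 (by linarith)
    hMy hNbM hS'0 hY0 (Finset.sum_nonneg hZ0) hZs
    (Finset.sum_nonneg fun q _ => by positivity) hU1 (Finset.sum_nonneg fun q _ => by positivity)
    hU2 hD4
  have hfin := (mul_le_mul_of_nonneg_left hcs hb0.le).trans hnum
  have hc0 : 0 ≤ 50 * C * Real.log X * Λ0 * Am := by
    have : 0 ≤ Real.log X := by linarith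
    positivity
  refine (mul_le_mul_of_nonneg_left hfin hc0).trans ?_
  set Y := ∑ q ∈ QQ, 1 / ((q : ℝ) * (hq q n : ℝ) ^ (1 / 4 : ℝ)) with hYd
  have hL0 : 0 ≤ Real.log X := by linarith
  have hD0 : 0 ≤ D4 := by linarith
  calc 50 * C * Real.log X * Λ0 * Am * ((3 * D4 + 6) * (1 + b) * Real.sqrt S' * X *
        (Real.sqrt Y + 1 / g)) ≤
      50 * C * Real.log X * Λ0 * Am * ((3 * D4 + 6) * (1 + b) *
        (4 * Real.log X * Real.sqrt S) * X * (Real.sqrt Y + (X : ℝ) ^ (-(τ / 10)))) := by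
        refine mul_le_mul_of_nonneg_left ?_ hc0
        refine mul_le_mul (mul_le_mul_of_nonneg_right (mul_le_mul_of_nonneg_left hsS'
          (by positivity)) hXp.le) (by linarith) (by positivity) (by positivity)
    _ = _ := by ring

end Pool.MP_dd84fd_nt.JXP
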