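import Pool.Agent.Lib.MP_dd84fd_nt.PL.MV

/-!
# PL_J-LvPow: the number of large values in a coset

`A(ξ, j) = ∑_{m ∈ MM} a_m (ξχ)(m) e(j μ_m)`, `μ_m = log(m/M)/2`, `ξ` mod `h`, `|j - j0| ≤ T`.
`1[V < |A|] ≤ |A|^(2k) / V^(2k) = |A^k|² / V^(2k)`.  `Finset.sum_pow'`:
`A^k = ∑_{p ∈ Fintype.piFinset (fun _ : Fin k => MM)} ∏_i ... = ∑_{n ∈ NN} b_n (ξχ)(n) e(j log(n/M^k)/2)`,
`NN` = image of the products, `b_n = ∑_{p : ∏ p = n} ∏ a_{p_i}`; characters and `x ↦ e(j log(x)/2)` are multiplicative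
(`log(∏ m_i / M^k) = ∑ log(m_i/M)`), `M^k < n ≤ (2M)^k` (`k ≥ 1`), `|b_n| ≤ A0^k #{p : ∏ p = n} ≤ A0^k τ(n)^k ≤ A0^k D`
(`p ↦ p` injects into `piFinset (fun _ => n.divisors)`, `Fintype.card_piFinset_const`).
Split `NN` in the `k` dyadic parts `2^i M^k < n ≤ 2^(i+1) M^k`, `i < k`; `|∑_{i<k} x_i|² ≤ k ∑ |x_i|²`; in the part `i`
`e(j log(n/M^k)/2) = e(j log(n/(2^i M^k))/2) e(j i log 2/2)`, the second factor has norm 1 and does not depend on `n`;
`mv_coset` with `M := 2^i M^k`, `A0 := A0^k D`: `≤ C0 (A0^k D)² 2^i M^k (φ(h) T + 2^i M^k) ≤ C0 4^k (A0^k D)² M^k (φ(h)T + M^k)`.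
Total `C = C0 k² 4^k`.
-/

set_option autoImplicit false

namespace Pool.MP_dd84fd_nt.JXP

open Finset Pool.MP_67663b_nt.Odd Pool.MP_dd84fd_nt.PL

private theorem ee_sum {ι : Type*} (s : Finset ι) (x : ι → ℝ) :
    ee (∑ i ∈ s, x i) = ∏ i ∈ s, ee (x i) := by
  classical
  induction s using Finset.induction_on with
  | empty => simp [ee_zero]
  | insert i s hi ih => rw [Finset.sum_insert hi, Finset.prod_insert hi, ee_add, ih]

/-- the coefficients of the k-th power -/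
private noncomputable def bb (k : ℕ) (MM : Finset ℕ) (a : ℕ → ℂ) (n : ℕ) : ℂ :=
  ∑ p ∈ (Fintype.piFinset (fun _ : Fin k => MM)).filter (fun p => ∏ i, p i = n), ∏ i, a (p i)

/-- the products -/
private noncomputable def NP (k : ℕ) (MM : Finset ℕ) : Finset ℕ :=
  (Fintype.piFinset (fun _ : Fin k => MM)).image (fun p => ∏ i, p i)

private theorem pow_expand (k q : ℕ) (M : ℝ) (hM : 1 ≤ M) (MM : Finset ℕ) (a : ℕ → ℂ)
    (hMM : ∀ m ∈ MM, M < (m : ℝ)) (ψ : DirichletCharacter ℂ q) (t : ℝ) :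
    (∑ m ∈ MM, a m * ψ (m : ZMod q) * ee (t * (Real.log (m / M) / 2))) ^ k =
      ∑ n ∈ NP k MM, bb k MM a n * ψ (n : ZMod q) * ee (t * (Real.log (n / M ^ k) / 2)) := by
  classical
  have hM0 : (0 : ℝ) < M := by linarith
  have h1 : (∑ m ∈ MM, a m * ψ (m : ZMod q) * ee (t * (Real.log (m / M) / 2))) ^ k =
      ∏ _i : Fin k, ∑ m ∈ MM, a m * ψ (m : ZMod q) * ee (t * (Real.log (m / M) / 2)) := by
    rw [Finset.prod_const, Finset.card_univ, Fintype.card_fin]
  rw [h1, Finset.prod_univ_sum]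
  have h2 : ∀ p ∈ Fintype.piFinset (fun _ : Fin k => MM),
      ∏ i, (a (p i) * ψ ((p i : ℕ) : ZMod q) * ee (t * (Real.log ((p i : ℕ) / M) / 2))) =
      (∏ i, a (p i)) * ψ (((∏ i, p i : ℕ)) : ZMod q) *
        ee (t * (Real.log (((∏ i, p i : ℕ) : ℝ) / M ^ k) / 2)) := by
    intro p hp
    rw [Fintype.mem_piFinset] at hp
    rw [Finset.prod_mul_distrib, Finset.prod_mul_distrib]
    congr 1
    · congr 1
      rw [Nat.cast_prod, map_prod]
    · rw [← ee_sum]
      congr 1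
      rw [← Finset.mul_sum, ← Finset.sum_div]
      congr 2
      have e1 : (((∏ i, p i : ℕ) : ℝ) / M ^ k) = ∏ i : Fin k, ((p i : ℝ) / M) := by
        rw [Finset.prod_div_distrib, Finset.prod_const, Finset.card_univ, Fintype.card_fin,
          Nat.cast_prod]
      rw [e1, Real.log_prod]
      intro i _
      have := hMM _ (hp i)
      have h3 : (0 : ℝ) < p i := by linarith
      positivity
  rw [Finset.sum_congr rfl h2]
  have h3 : ∀ p ∈ Fintype.piFinset (fun _ : Fin k => MM), (∏ i, p i) ∈ NP k MM := by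
    intro p hp
    exact Finset.mem_image_of_mem _ hp
  rw [← Finset.sum_fiberwise_of_maps_to h3]
  refine Finset.sum_congr rfl fun n _ => ?_
  unfold bb
  rw [Finset.sum_mul, Finset.sum_mul]
  refine Finset.sum_congr rfl fun p hp => ?_
  rw [(Finset.mem_filter.1 hp).2]

private theorem bb_le (k : ℕ) (A0 : ℝ) (hA0 : 0 ≤ A0) (MM : Finset ℕ) (a : ℕ → ℂ)
    (ha : ∀ m ∈ MM, ‖a m‖ ≤ A0) (n : ℕ) (hn : n ≠ 0) :
    ‖bb k MM a n‖ ≤ A0 ^ k * (n.divisors.card : ℝ) ^ k := by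
  classical
  unfold bb
  have h1 : ∀ p ∈ (Fintype.piFinset (fun _ : Fin k => MM)).filter (fun p => ∏ i, p i = n),
      ‖∏ i, a (p i)‖ ≤ A0 ^ k := by
    intro p hp
    have hp1 := (Fintype.mem_piFinset.1 (Finset.mem_filter.1 hp).1)
    rw [norm_prod]
    calc ∏ i : Fin k, ‖a (p i)‖ ≤ ∏ _i : Fin k, A0 :=
          Finset.prod_le_prod (fun i _ => norm_nonneg _) (fun i _ => ha _ (hp1 i))
      _ = A0 ^ k := by rw [Finset.prod_const, Finset.card_univ, Fintype.card_fin]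
  refine (norm_sum_le _ _).trans ((Finset.sum_le_sum h1).trans ?_)
  rw [Finset.sum_const, nsmul_eq_mul, mul_comm]
  refine mul_le_mul_of_nonneg_left ?_ (by positivity)
  have h2 : (Fintype.piFinset (fun _ : Fin k => MM)).filter (fun p => ∏ i, p i = n) ⊆
      Fintype.piFinset (fun _ : Fin k => n.divisors) := by
    intro p hp
    rw [Fintype.mem_piFinset]
    intro i
    rw [Nat.mem_divisors]
    refine ⟨?_, hn⟩
    rw [← (Finset.mem_filter.1 hp).2]
    exact Finset.dvd_prod_of_mem _ (Finset.mem_univ i)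
  have h3 := Finset.card_le_card h2
  rw [Fintype.card_piFinset_const] at h3
  exact_mod_cast h3

private theorem dyad (S : Finset ℕ) (F : ℕ → ℂ) (M : ℝ) (hM : 0 < M) (K : ℕ) :
    ∑ n ∈ S.filter (fun n : ℕ => M < (n : ℝ) ∧ (n : ℝ) ≤ 2 ^ K * M), F n =
      ∑ i ∈ range K, ∑ n ∈ S.filter (fun n : ℕ => 2 ^ i * M < (n : ℝ) ∧ (n : ℝ) ≤ 2 * (2 ^ i * M)),
        F n := by
  induction K with
  | zero =>
    simp only [pow_zero, one_mul, range_zero, Finset.sum_empty]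
    rw [Finset.filter_false_of_mem, Finset.sum_empty]
    rintro n - ⟨h1, h2⟩
    linarith
  | succ K ih =>
    rw [Finset.sum_range_succ, ← ih]
    rw [Finset.sum_filter, Finset.sum_filter, Finset.sum_filter, ← Finset.sum_add_distrib]
    refine Finset.sum_congr rfl fun n _ => ?_
    have h2 : M ≤ 2 ^ K * M := by
      have : (1 : ℝ) ≤ 2 ^ K := one_le_pow₀ (by norm_num)
      nlinarith
    have h3 : (2 : ℝ) ^ (K + 1) * M = 2 * (2 ^ K * M) := by ring
    rw [h3]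
    by_cases c1 : M < (n : ℝ)
    · by_cases c2 : (n : ℝ) ≤ 2 ^ K * M
      · rw [if_pos ⟨c1, by linarith⟩, if_pos ⟨c1, c2⟩, if_neg (fun h => absurd h.1 (by linarith)),
          add_zero]
      · rw [if_neg (fun h => c2 h.2) (c := M < (n : ℝ) ∧ (n : ℝ) ≤ 2 ^ K * M), zero_add]
        push Not at c2
        by_cases c3 : (n : ℝ) ≤ 2 * (2 ^ K * M)
        · rw [if_pos ⟨c1, c3⟩, if_pos ⟨c2, c3⟩]
        · rw [if_neg (fun h => c3 h.2), if_neg (fun h => c3 h.2)]
    · rw [if_neg (fun h => c1 h.1), if_neg (fun h => c1 h.1), if_neg (fun h => c1 (by linarith [h.1])),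
        add_zero]

theorem lv_coset (k : ℕ) (hk : 1 ≤ k) : ∃ C : ℝ, 0 < C ∧ ∀ (q h : ℕ) [NeZero q] [NeZero h]
    (hd : h ∣ q) (M A0 V D : ℝ) (MM : Finset ℕ) (a : ℕ → ℂ) (χ : DirichletCharacter ℂ q) (j0 : ℤ)
    (T : ℕ), 1 ≤ M → 1 ≤ T → 0 ≤ A0 → 0 < V → 1 ≤ D →
    (∀ m ∈ MM, M < (m : ℝ) ∧ (m : ℝ) ≤ 2 * M) → (∀ m ∈ MM, ‖a m‖ ≤ A0) →
    (∀ n : ℕ, 1 ≤ n → (n : ℝ) ≤ (2 * M) ^ k → (n.divisors.card : ℝ) ^ k ≤ D) →
    ∑ ξ : DirichletCharacter ℂ h, ∑ j ∈ Icc (j0 - T) (j0 + T),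
      (if V < ‖∑ m ∈ MM, a m * (DirichletCharacter.changeLevel hd ξ * χ) m *
        ee ((j : ℝ) * (Real.log (m / M) / 2))‖ then (1 : ℝ) else 0) ≤
      C * (A0 / V) ^ (2 * k) * D ^ 2 * M ^ k * (Nat.totient h * T + M ^ k) := by
  classical
  obtain ⟨C0, hC0, hmv⟩ := mv_coset
  refine ⟨C0 * k ^ 2 * 4 ^ k, by positivity, ?_⟩
  intro q h _ _ hd M A0 V D MM a χ j0 T hM hT hA0 hV hD hMM ha hdiv
  have hM0 : (0 : ℝ) < M := by linarith
  have hMk : (1 : ℝ) ≤ M ^ k := one_le_pow₀ hM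
  have hMk0 : (0 : ℝ) < M ^ k := by linarith
  set NN := NP k MM with hNN
  set b := bb k MM a with hb
  have hNNb : ∀ n ∈ NN, M ^ k < (n : ℝ) ∧ (n : ℝ) ≤ 2 ^ k * M ^ k := by
    intro n hn
    rw [hNN, NP, Finset.mem_image] at hn
    obtain ⟨p, hp, rfl⟩ := hn
    rw [Fintype.mem_piFinset] at hp
    have hne : (Finset.univ : Finset (Fin k)).Nonempty := ⟨⟨0, hk⟩, Finset.mem_univ _⟩
    have e1 : M ^ k = ∏ _i : Fin k, M := by
      rw [Finset.prod_const, Finset.card_univ, Fintype.card_fin]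
    have e2 : (2 : ℝ) ^ k * M ^ k = ∏ _i : Fin k, (2 * M) := by
      rw [Finset.prod_const, Finset.card_univ, Fintype.card_fin, mul_pow]
    constructor
    · rw [e1, Nat.cast_prod]
      exact Finset.prod_lt_prod_of_nonempty (fun i _ => hM0) (fun i _ => (hMM _ (hp i)).1) hne
    · rw [e2, Nat.cast_prod]
      exact Finset.prod_le_prod (fun i _ => Nat.cast_nonneg _) (fun i _ => (hMM _ (hp i)).2)
  have hbn : ∀ n ∈ NN, ‖b n‖ ≤ A0 ^ k * D := by
    intro n hn
    obtain ⟨h1, h2⟩ := hNNb n hn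
    have hn1 : (1 : ℝ) < n := by linarith
    have hn2 : 1 < n := by exact_mod_cast hn1
    refine (bb_le k A0 hA0 MM a ha n (by omega)).trans ?_
    refine mul_le_mul_of_nonneg_left ?_ (by positivity)
    refine hdiv n (by omega) ?_
    rw [mul_pow]
    exact h2
  -- pointwise bound
  set NI : ℕ → Finset ℕ := fun i => NN.filter (fun n : ℕ => 2 ^ i * M ^ k < (n : ℝ) ∧
    (n : ℝ) ≤ 2 * (2 ^ i * M ^ k)) with hNI
  have hpt : ∀ (ψ : DirichletCharacter ℂ q) (t : ℝ),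
      (if V < ‖∑ m ∈ MM, a m * ψ m * ee (t * (Real.log (m / M) / 2))‖ then (1 : ℝ) else 0) ≤
      (1 / V ^ (2 * k)) * (k * ∑ i ∈ range k, ‖∑ n ∈ NI i, b n * ψ n *
        ee (t * (Real.log (n / (2 ^ i * M ^ k)) / 2))‖ ^ 2) := by
    intro ψ t
    have h1 := pow_expand k q M hM MM a (fun m hm => (hMM m hm).1) ψ t
    have h2 : ∑ n ∈ NN, b n * ψ (n : ZMod q) * ee (t * (Real.log (n / M ^ k) / 2)) =
        ∑ i ∈ range k, ∑ n ∈ NI i, b n * ψ (n : ZMod q) * ee (t * (Real.log (n / M ^ k) / 2)) := by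
      rw [← dyad NN _ (M ^ k) hMk0 k]
      congr 1
      exact (Finset.filter_true_of_mem hNNb).symm
    have h3 : ∀ i ∈ range k, ‖∑ n ∈ NI i, b n * ψ (n : ZMod q) *
        ee (t * (Real.log (n / M ^ k) / 2))‖ = ‖∑ n ∈ NI i, b n * ψ n *
        ee (t * (Real.log (n / (2 ^ i * M ^ k)) / 2))‖ := by
      intro i _
      have h4 : ∑ n ∈ NI i, b n * ψ (n : ZMod q) * ee (t * (Real.log (n / M ^ k) / 2)) =
          (∑ n ∈ NI i, b n * ψ n * ee (t * (Real.log (n / (2 ^ i * M ^ k)) / 2))) *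
            ee (t * (Real.log (2 ^ i) / 2)) := by
        rw [Finset.sum_mul]
        refine Finset.sum_congr rfl fun n hn => ?_
        have h5 := (Finset.mem_filter.1 hn).2.1
        have h6 : (0 : ℝ) < n := lt_trans (by positivity) h5
        rw [mul_assoc (b n * ψ (n : ZMod q)), ← ee_add]
        congr 2
        have h7 : Real.log (n / M ^ k) = Real.log (n / (2 ^ i * M ^ k)) + Real.log (2 ^ i) := by
          rw [← Real.log_mul (by positivity) (by positivity)]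
          congr 1
          field_simp
        rw [h7]
        ring
      rw [h4, norm_mul, norm_ee, mul_one]
    set A := ∑ m ∈ MM, a m * ψ m * ee (t * (Real.log (m / M) / 2)) with hA
    have h5 : ‖A‖ ^ (2 * k) ≤ k * ∑ i ∈ range k, ‖∑ n ∈ NI i, b n * ψ n *
        ee (t * (Real.log (n / (2 ^ i * M ^ k)) / 2))‖ ^ 2 := by
      have e1 : ‖A‖ ^ (2 * k) = ‖A ^ k‖ ^ 2 := by
        rw [norm_pow, ← pow_mul, mul_comm]
      rw [e1, h1, ← hNN, ← hb, h2]
      have e2 := norm_sum_le (range k) (fun i => ∑ n ∈ NI i, b n * ψ (n : ZMod q) *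
        ee (t * (Real.log (n / M ^ k) / 2)))
      have e3 := pow_le_pow_left₀ (norm_nonneg _) e2 2
      refine e3.trans ?_
      have e4 := sq_sum_le_card_mul_sum_sq (s := range k) (f := fun i => ‖∑ n ∈ NI i,
        b n * ψ (n : ZMod q) * ee (t * (Real.log (n / M ^ k) / 2))‖)
      rw [card_range] at e4
      refine e4.trans (le_of_eq ?_)
      congr 1
      refine Finset.sum_congr rfl fun i hi => ?_
      rw [h3 i hi]
    have h6 : (if V < ‖A‖ then (1 : ℝ) else 0) ≤ (1 / V ^ (2 * k)) * ‖A‖ ^ (2 * k) := by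
      split_ifs with hc
      · rw [one_div, inv_mul_eq_div, one_le_div (by positivity)]
        exact pow_le_pow_left₀ hV.le hc.le _
      · positivity
    refine h6.trans ?_
    exact mul_le_mul_of_nonneg_left h5 (by positivity)
  calc ∑ ξ : DirichletCharacter ℂ h, ∑ j ∈ Icc (j0 - T) (j0 + T),
      (if V < ‖∑ m ∈ MM, a m * (DirichletCharacter.changeLevel hd ξ * χ) m *
        ee ((j : ℝ) * (Real.log (m / M) / 2))‖ then (1 : ℝ) else 0) 
      ≤ ∑ ξ : DirichletCharacter ℂ h, ∑ j ∈ Icc (j0 - T) (j0 + T),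
        (1 / V ^ (2 * k)) * (k * ∑ i ∈ range k, ‖∑ n ∈ NI i, b n *
          (DirichletCharacter.changeLevel hd ξ * χ) n *
        ee ((j : ℝ) * (Real.log (n / (2 ^ i * M ^ k)) / 2))‖ ^ 2) :=
        Finset.sum_le_sum fun ξ _ => Finset.sum_le_sum fun j _ => hpt _ _
    _ = (1 / V ^ (2 * k)) * (k * ∑ i ∈ range k, ∑ ξ : DirichletCharacter ℂ h,
        ∑ j ∈ Icc (j0 - T) (j0 + T), ‖∑ n ∈ NI i, b n *
          (DirichletCharacter.changeLevel hd ξ * χ) n *
        ee ((j : ℝ) * (Real.log (n / (2 ^ i * M ^ k)) / 2))‖ ^ 2) := by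
        simp only [← Finset.mul_sum]
        congr 2
        rw [Finset.sum_comm]
        simp_rw [Finset.sum_comm (s := range k)]
        rw [Finset.sum_comm]
    _ ≤ (1 / V ^ (2 * k)) * (k * ∑ i ∈ range k, C0 * (A0 ^ k * D) ^ 2 * (4 ^ k * M ^ k) *
          (Nat.totient h * T + M ^ k)) := by
        refine mul_le_mul_of_nonneg_left ?_ (by positivity)
        refine mul_le_mul_of_nonneg_left ?_ (by positivity)
        refine Finset.sum_le_sum fun i hi => ?_
        have hik : i < k := mem_range.1 hi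
        have h2i : (1 : ℝ) ≤ 2 ^ i := one_le_pow₀ (by norm_num)
        have h2k : (2 : ℝ) ^ i ≤ 2 ^ k := pow_le_pow_right₀ (by norm_num) hik.le
        have hb1 : (1 : ℝ) ≤ 2 ^ i * M ^ k := one_le_mul_of_one_le_of_one_le h2i hMk
        refine (hmv q h hd (2 ^ i * M ^ k) (A0 ^ k * D) (NI i) b χ j0 T hb1 hT (by positivity)
          (fun n hn => (Finset.mem_filter.1 hn).2)
          (fun n hn => hbn n (Finset.mem_filter.1 hn).1)).trans ?_
        have e4 : (4 : ℝ) ^ k = 2 ^ k * 2 ^ k := by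
          rw [← mul_pow]; norm_num
        have e5 : (2 : ℝ) ^ i * M ^ k * (Nat.totient h * T + 2 ^ i * M ^ k) ≤
            4 ^ k * M ^ k * (Nat.totient h * T + M ^ k) := by
          rw [e4]
          have hx : (0 : ℝ) ≤ Nat.totient h * T := by positivity
          have e6 : (Nat.totient h * T + 2 ^ i * M ^ k : ℝ) ≤ 2 ^ k * (Nat.totient h * T + M ^ k) := by
            have h1k : (1 : ℝ) ≤ 2 ^ k := one_le_pow₀ (by norm_num)
            nlinarith
          calc (2 : ℝ) ^ i * M ^ k * (Nat.totient h * T + 2 ^ i * M ^ k) ≤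
              2 ^ k * M ^ k * (2 ^ k * (Nat.totient h * T + M ^ k)) := by
                refine mul_le_mul ?_ e6 (by positivity) (by positivity)
                exact mul_le_mul_of_nonneg_right h2k hMk0.le
            _ = _ := by ring
        calc C0 * (A0 ^ k * D) ^ 2 * (2 ^ i * M ^ k) * (Nat.totient h * T + 2 ^ i * M ^ k)
            = C0 * (A0 ^ k * D) ^ 2 * (2 ^ i * M ^ k * (Nat.totient h * T + 2 ^ i * M ^ k)) := by ring
          _ ≤ C0 * (A0 ^ k * D) ^ 2 * (4 ^ k * M ^ k * (Nat.totient h * T + M ^ k)) :=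
              mul_le_mul_of_nonneg_left e5 (by positivity)
          _ = _ := by ring
    _ = C0 * k ^ 2 * 4 ^ k * (A0 / V) ^ (2 * k) * D ^ 2 * M ^ k * (Nat.totient h * T + M ^ k) := by
        rw [Finset.sum_const, card_range, nsmul_eq_mul, div_pow, mul_pow (A0 ^ k) D 2, ← pow_mul,
          mul_comm k 2]
        ring

end Pool.MP_dd84fd_nt.JXP
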