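import Pool.Agent.Lib.MP_dd84fd_nt.PL.GFour

/-!
# PL_J-LvProj: finite trigonometric polynomials on `(ℤ/q)^* × ℝ/ℤ`

`fq (pj ..)`: `∫_0^1 e((j-k)t) dt = 1[j = k]`, `∑_x χ(x) χ'⁻¹(x) = φ(q) 1[χ = χ']`
(`DirichletCharacter.sum_...`/`MulChar.sum_eq_zero_of_ne_one`, `sum_one_eq_card_units`).
`pj_split`: for a finite set `Λ` and `f` measurable and bounded, `fL = pj q Λ (fq f)`, `f - fL` has the coefficients
`fq f` outside `Λ` and `0` in `Λ`; then `fq_parseval` for `f - fL` (bounded by `Bd + #Λ Bd`).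
-/

set_option autoImplicit false

namespace Pool.MP_dd84fd_nt.JXP

open Finset Pool.MP_67663b_nt.Odd Pool.MP_dd84fd_nt.PL

private theorem lp_norm (x : ℝ) : ‖ee x‖ = 1 := by
  unfold ee
  rw [show (2 * (Real.pi : ℂ) * (x : ℂ) * Complex.I) = ((2 * Real.pi * x : ℝ) : ℂ) * Complex.I by
    push_cast; ring]
  exact Complex.norm_exp_ofReal_mul_I _

private theorem lp_cont : Continuous ee := by
  unfold ee
  fun_prop

private theorem lp_int (m : ℤ) :
    ∫ t in (0 : ℝ)..1, ee ((m : ℝ) * t) = if m = 0 then 1 else 0 := by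
  split_ifs with h
  · subst h
    simp [ee]
  · have hm : (2 * (Real.pi : ℂ) * (m : ℂ) * Complex.I) ≠ 0 := by
      have h1 : (m : ℂ) ≠ 0 := by exact_mod_cast h
      have h2 : (Real.pi : ℂ) ≠ 0 := by exact_mod_cast Real.pi_ne_zero
      simp [h1, h2, Complex.I_ne_zero]
    have h3 : (fun t : ℝ => ee ((m : ℝ) * t)) =
        fun t : ℝ => Complex.exp ((2 * (Real.pi : ℂ) * (m : ℂ) * Complex.I) * (t : ℂ)) := by
      funext t
      unfold ee
      congr 1
      push_cast
      ring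
    rw [h3, integral_exp_mul_complex hm]
    have h4 : Complex.exp ((2 * (Real.pi : ℂ) * (m : ℂ) * Complex.I) * ((1 : ℝ) : ℂ)) = 1 := by
      rw [show (2 * (Real.pi : ℂ) * (m : ℂ) * Complex.I) * ((1 : ℝ) : ℂ) =
        (m : ℂ) * (2 * (Real.pi : ℂ) * Complex.I) by push_cast; ring]
      exact Complex.exp_int_mul_two_pi_mul_I m
    rw [h4]
    simp

private theorem lp_ii (f : ℝ → ℂ) (B : ℝ) (hm : Measurable f) (hB : ∀ t, ‖f t‖ ≤ B) (j : ℤ) :
    IntervalIntegrable (fun t : ℝ => f t * ee ((j : ℝ) * t)) MeasureTheory.volume 0 1 := by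
  rw [intervalIntegrable_iff]
  refine MeasureTheory.Measure.integrableOn_of_bounded (M := B) (by simp) ?_ ?_
  · exact (hm.mul (lp_cont.measurable.comp (measurable_const.mul measurable_id))).aestronglyMeasurable
  · refine Filter.Eventually.of_forall fun t => ?_
    rw [norm_mul, lp_norm, mul_one]
    exact hB t

/-- finite trigonometric polynomial on `(ℤ/q)^* × ℝ/ℤ` with the coefficients `F` on `Λ` -/
noncomputable def pj (q : ℕ) [NeZero q] (Λ : Finset (DirichletCharacter ℂ q × ℤ))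
    (F : DirichletCharacter ℂ q × ℤ → ℂ) (y : ZMod q) (t : ℝ) : ℂ :=
  ∑ p ∈ Λ, F p * p.1⁻¹ y * ee (-((p.2 : ℝ) * t))

theorem pj_meas (q : ℕ) [NeZero q] (Λ : Finset (DirichletCharacter ℂ q × ℤ))
    (F : DirichletCharacter ℂ q × ℤ → ℂ) (y : ZMod q) : Measurable (pj q Λ F y) := by
  have h : pj q Λ F y = fun t => ∑ p ∈ Λ, F p * p.1⁻¹ y * ee (-((p.2 : ℝ) * t)) := rfl
  rw [h]
  refine Finset.measurable_fun_sum Λ fun p _ => ?_
  exact measurable_const.mul
    (lp_cont.measurable.comp (measurable_const.mul measurable_id).neg)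

theorem pj_bound (q : ℕ) [NeZero q] (Λ : Finset (DirichletCharacter ℂ q × ℤ))
    (F : DirichletCharacter ℂ q × ℤ → ℂ) (y : ZMod q) (t : ℝ) :
    ‖pj q Λ F y t‖ ≤ ∑ p ∈ Λ, ‖F p‖ := by
  unfold pj
  refine (norm_sum_le _ _).trans (Finset.sum_le_sum fun p _ => ?_)
  rw [norm_mul, norm_mul, lp_norm, mul_one]
  exact mul_le_of_le_one_right (norm_nonneg _) (DirichletCharacter.norm_le_one _ _)

private theorem lp_orth (q : ℕ) [NeZero q] (χ χ' : DirichletCharacter ℂ q) :
    ∑ x : ZMod q, χ x * χ'⁻¹ x = if χ = χ' then (Nat.totient q : ℂ) else 0 := by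
  have h1 : ∀ x : ZMod q, χ x * χ'⁻¹ x = (χ * χ'⁻¹) x := fun x => (MulChar.mul_apply _ _ _).symm
  rw [Finset.sum_congr rfl fun x _ => h1 x]
  split_ifs with h
  · subst h
    rw [mul_inv_cancel, MulChar.sum_one_eq_card_units, ZMod.card_units_eq_totient]
  · refine MulChar.sum_eq_zero_of_ne_one ?_
    intro h2
    exact h (mul_inv_eq_one.1 h2)

private theorem lp_fc (q : ℕ) [NeZero q] (Λ : Finset (DirichletCharacter ℂ q × ℤ))
    (F : DirichletCharacter ℂ q × ℤ → ℂ) (x : ZMod q) (j : ℤ) :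
    fc (pj q Λ F x) j = ∑ p ∈ Λ, F p * p.1⁻¹ x * (if j = p.2 then 1 else 0) := by
  unfold fc
  have h1 : (fun t : ℝ => pj q Λ F x t * ee ((j : ℝ) * t)) =
      fun t : ℝ => ∑ p ∈ Λ, F p * p.1⁻¹ x * ee (((j - p.2 : ℤ) : ℝ) * t) := by
    funext t
    unfold pj
    rw [Finset.sum_mul]
    refine Finset.sum_congr rfl fun p _ => ?_
    rw [mul_assoc, ← ee_add]
    congr 2
    push_cast
    ring
  rw [h1, intervalIntegral.integral_finsetSum]
  · refine Finset.sum_congr rfl fun p _ => ?_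
    rw [intervalIntegral.integral_const_mul, lp_int]
    simp only [sub_eq_zero]
  · intro p _
    refine Continuous.intervalIntegrable ?_ _ _
    exact continuous_const.mul (lp_cont.comp (continuous_const.mul continuous_id))

open Classical in
theorem fq_pj (q : ℕ) [NeZero q] (Λ : Finset (DirichletCharacter ℂ q × ℤ))
    (F : DirichletCharacter ℂ q × ℤ → ℂ) (χ : DirichletCharacter ℂ q) (j : ℤ) :
    fq q (pj q Λ F) χ j = if (χ, j) ∈ Λ then F (χ, j) else 0 := by
  have hφ : (Nat.totient q : ℂ) ≠ 0 := by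
    exact_mod_cast (Nat.totient_pos.2 (Nat.pos_of_ne_zero (NeZero.ne q))).ne'
  unfold fq
  have h1 : ∑ x : ZMod q, χ x * fc (pj q Λ F x) j =
      ∑ p ∈ Λ, if (χ, j) = p then F p * (Nat.totient q : ℂ) else 0 := by
    have h2 : ∀ x : ZMod q, χ x * fc (pj q Λ F x) j =
        ∑ p ∈ Λ, (F p * (if j = p.2 then 1 else 0)) * (χ x * p.1⁻¹ x) := by
      intro x
      rw [lp_fc, Finset.mul_sum]
      exact Finset.sum_congr rfl fun p _ => by ring
    rw [Finset.sum_congr rfl fun x _ => h2 x, Finset.sum_comm]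
    refine Finset.sum_congr rfl fun p _ => ?_
    rw [← Finset.mul_sum, lp_orth]
    obtain ⟨χ', k⟩ := p
    by_cases h3 : χ = χ' <;> by_cases h4 : j = k <;> simp [h3, h4]
  rw [h1, Finset.sum_ite_eq Λ (χ, j)]
  split_ifs with h
  · field_simp
  · rw [mul_zero]

theorem fq_norm_le (q : ℕ) [NeZero q] (f : ZMod q → ℝ → ℂ) (B : ℝ) (hB : ∀ x t, ‖f x t‖ ≤ B)
    (χ : DirichletCharacter ℂ q) (j : ℤ) : ‖fq q f χ j‖ ≤ B := by
  have hφ : (0 : ℝ) < Nat.totient q := by
    exact_mod_cast Nat.totient_pos.2 (Nat.pos_of_ne_zero (NeZero.ne q))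
  have hB0 : 0 ≤ B := (norm_nonneg _).trans (hB 0 0)
  have h1 : ‖∑ x : ZMod q, χ x * fc (f x) j‖ ≤ (Nat.totient q : ℝ) * B := by
    refine (norm_sum_le _ _).trans ?_
    have h2 : ∀ x : ZMod q, ‖χ x * fc (f x) j‖ ≤ ‖(1 : DirichletCharacter ℂ q) x‖ * B := by
      intro x
      by_cases hx : IsUnit x
      · rw [norm_mul, MulChar.one_apply hx, norm_one]
        exact mul_le_mul (DirichletCharacter.norm_le_one _ _) (fc_norm_le (f x) B (hB x) j)
          (norm_nonneg _) zero_le_one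
      · rw [MulChar.map_nonunit χ hx, zero_mul, norm_zero]
        positivity
    refine (Finset.sum_le_sum fun x _ => h2 x).trans ?_
    rw [← Finset.sum_mul]
    refine mul_le_mul_of_nonneg_right ?_ hB0
    have h3 : ∀ x : ZMod q, ‖(1 : DirichletCharacter ℂ q) x‖ = ((1 : MulChar (ZMod q) ℝ) x) := by
      intro x
      by_cases hx : IsUnit x
      · rw [MulChar.one_apply hx, MulChar.one_apply hx, norm_one]
      · rw [MulChar.map_nonunit _ hx, MulChar.map_nonunit _ hx, norm_zero]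
    rw [Finset.sum_congr rfl fun x _ => h3 x, MulChar.sum_one_eq_card_units,
      ZMod.card_units_eq_totient]
  unfold fq
  rw [norm_mul, norm_div, norm_one, Complex.norm_natCast]
  calc 1 / (Nat.totient q : ℝ) * ‖∑ x : ZMod q, χ x * fc (f x) j‖
      ≤ 1 / (Nat.totient q : ℝ) * ((Nat.totient q : ℝ) * B) :=
        mul_le_mul_of_nonneg_left h1 (by positivity)
    _ = B := by field_simp

open Classical in
theorem fq_sub_pj (q : ℕ) [NeZero q] (f : ZMod q → ℝ → ℂ) (B : ℝ) (hm : ∀ x, Measurable (f x))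
    (hB : ∀ x t, ‖f x t‖ ≤ B) (Λ : Finset (DirichletCharacter ℂ q × ℤ))
    (χ : DirichletCharacter ℂ q) (j : ℤ) :
    fq q (fun y t => f y t - pj q Λ (fun p => fq q f p.1 p.2) y t) χ j =
      if (χ, j) ∈ Λ then 0 else fq q f χ j := by
  have h1 : fq q (fun y t => f y t - pj q Λ (fun p => fq q f p.1 p.2) y t) χ j =
      fq q f χ j - fq q (pj q Λ (fun p => fq q f p.1 p.2)) χ j := by
    unfold fq
    rw [← mul_sub, ← Finset.sum_sub_distrib]
    congr 1
    refine Finset.sum_congr rfl fun x _ => ?_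
    rw [← mul_sub]
    congr 1
    unfold fc
    rw [← intervalIntegral.integral_sub (lp_ii (f x) B (hm x) (hB x) j)
      (lp_ii _ _ (pj_meas q Λ _ x) (pj_bound q Λ _ x) j)]
    refine intervalIntegral.integral_congr fun t _ => ?_
    simp only [sub_mul]
  rw [h1, fq_pj]
  split_ifs <;> simp

end Pool.MP_dd84fd_nt.JXP
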