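import Pool.Agent.Lib.MP_dd84fd_nt.PL.OneQ
import Pool.Agent.Lib.MP_dd84fd_nt.JX.LvProj

/-!
# PL_J-LvSplit: the bilinear inequality for one modulus with large values

`Λ_i = {(χ,j) : |j| ≤ J0, V_i < α_i(χ,j)}` (finite: `univ ×ˢ Icc (-J0) J0`, filtered), `fL = pj q Λ1 (fq f)`, `fS = f - fL`, same for
`g`; `f g = fL gL + fS g + fL gS`.
(1) `fL gL`: `one_q` with `Bd := q (2 J0 + 1) Bd` (`pj_bound`, `fq_norm_le`, `#Λ ≤ φ(q)(2J0+1) ≤ q(2J0+1)`), `α_i := R_i 1[V_i < α_i]`,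
`β_i`, `a_i := R_i² a_i`, `b_i := R_i² b_i`: `√(R1² (..) R2² (..)) = R1 R2 √(..)`.
(2) `fS g`: `|..| ≤ 4 ∑_y ∫_0^1 |fS||g| ≤ 4 (∑_y ∫ |fS|²)^(1/2) (∑_y ∫ |g|²)^(1/2)` over the units `y`, and by `fq_parseval`
`∑_y ∫ |fS|² = φ(q) ∑' |fq fS|² ≤ φ(q) (V1² S1 + R1² W² 2 q/J0)`: outside `Λ1` either `α1 ≤ V1` or `|j| > J0`, where
`|fq f|² ≤ R1² W²/j²`, `∑_χ ∑_{|j|>J0} 1/j² ≤ 2 φ(q)/J0`; `∑_y ∫ |g|² ≤ φ(q) R2² S2`.
(3) `fL gS` the same way, `∑' |fq fL|² ≤ R1² S1`.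
-/

set_option autoImplicit false

namespace Pool.MP_dd84fd_nt.JXP

open Finset Pool.MP_67663b_nt.Odd Pool.MP_dd84fd_nt.PL

private theorem lvs_ii (u : ℝ → ℝ) (hm : Measurable u) (B : ℝ) (hB : ∀ t, |u t| ≤ B) (a b : ℝ) :
    IntervalIntegrable u MeasureTheory.volume a b := by
  refine IntervalIntegrable.mono_fun (intervalIntegrable_const (c := B)) hm.aestronglyMeasurable ?_
  refine Filter.Eventually.of_forall fun t => ?_
  show ‖u t‖ ≤ ‖B‖
  rw [Real.norm_eq_abs, Real.norm_eq_abs]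
  exact (hB t).trans (le_abs_self B)

/-- Cauchy-Schwarz -/
private theorem lvs_cauchy {ι : Type*} (s : Finset ι) (u v : ι → ℝ → ℝ) (B : ℝ)
    (hu : ∀ i, Measurable (u i)) (hv : ∀ i, Measurable (v i)) (hub : ∀ i t, |u i t| ≤ B)
    (hvb : ∀ i t, |v i t| ≤ B) :
    ∑ i ∈ s, ∫ t in (0 : ℝ)..1, u i t * v i t ≤
      Real.sqrt (∑ i ∈ s, ∫ t in (0 : ℝ)..1, u i t ^ 2) *
        Real.sqrt (∑ i ∈ s, ∫ t in (0 : ℝ)..1, v i t ^ 2) := by
  have h01 : (0 : ℝ) ≤ 1 := zero_le_one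
  have iuu : ∀ i, IntervalIntegrable (fun t => u i t ^ 2) MeasureTheory.volume 0 1 := fun i =>
    lvs_ii _ ((hu i).pow_const 2) (B ^ 2) (fun t => by
      rw [abs_pow]; exact pow_le_pow_left₀ (abs_nonneg _) (hub i t) 2) _ _
  have ivv : ∀ i, IntervalIntegrable (fun t => v i t ^ 2) MeasureTheory.volume 0 1 := fun i =>
    lvs_ii _ ((hv i).pow_const 2) (B ^ 2) (fun t => by
      rw [abs_pow]; exact pow_le_pow_left₀ (abs_nonneg _) (hvb i t) 2) _ _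
  have iuv : ∀ i, IntervalIntegrable (fun t => u i t * v i t) MeasureTheory.volume 0 1 := fun i =>
    lvs_ii _ ((hu i).mul (hv i)) (B * B) (fun t => by
      show |u i t * v i t| ≤ B * B
      rw [abs_mul]
      exact mul_le_mul (hub i t) (hvb i t) (abs_nonneg _) ((abs_nonneg _).trans (hub i t))) _ _
  set X := ∑ i ∈ s, ∫ t in (0 : ℝ)..1, u i t ^ 2 with hX
  set Y := ∑ i ∈ s, ∫ t in (0 : ℝ)..1, v i t ^ 2 with hY
  set I := ∑ i ∈ s, ∫ t in (0 : ℝ)..1, u i t * v i t with hI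
  have hX0 : 0 ≤ X :=
    sum_nonneg fun i _ => intervalIntegral.integral_nonneg h01 fun t _ => sq_nonneg _
  have key : ∀ r : ℝ, 0 ≤ X * (r * r) + (-2 * I) * r + Y := by
    intro r
    have h1 : X * (r * r) + (-2 * I) * r + Y =
        ∑ i ∈ s, ∫ t in (0 : ℝ)..1, (r * u i t - v i t) ^ 2 := by
      have h2 : ∀ i, ∫ t in (0 : ℝ)..1, (r * u i t - v i t) ^ 2 =
          (∫ t in (0 : ℝ)..1, u i t ^ 2) * (r * r) + (-2 * r) * (∫ t in (0 : ℝ)..1, u i t * v i t) +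
            ∫ t in (0 : ℝ)..1, v i t ^ 2 := by
        intro i
        have h3 : ∀ t, (r * u i t - v i t) ^ 2 =
            (r * r) * u i t ^ 2 + (-2 * r) * (u i t * v i t) + v i t ^ 2 := fun t => by ring
        simp_rw [h3]
        rw [intervalIntegral.integral_add (((iuu i).const_mul _).add ((iuv i).const_mul _)) (ivv i),
          intervalIntegral.integral_add ((iuu i).const_mul _) ((iuv i).const_mul _),
          intervalIntegral.integral_const_mul, intervalIntegral.integral_const_mul]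
        ring
      simp_rw [h2]
      rw [sum_add_distrib, sum_add_distrib, ← sum_mul, ← mul_sum, ← hX, ← hY, ← hI]
      ring
    rw [h1]
    exact sum_nonneg fun i _ => intervalIntegral.integral_nonneg h01 fun t _ => sq_nonneg _
  have h4 := discrim_le_zero key
  unfold discrim at h4
  rw [← Real.sqrt_mul hX0]
  refine Real.le_sqrt_of_sq_le ?_
  nlinarith

private theorem lvs_card (q : ℕ) [NeZero q] :
    ((univ.filter (fun x : ZMod q => IsUnit x)).card : ℝ) = Nat.totient q := by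
  rw [← ZMod.card_units_eq_totient]
  congr 1
  rw [← Finset.card_univ, ← Finset.card_map ⟨((↑) : (ZMod q)ˣ → ZMod q), Units.val_injective⟩]
  congr 1
  ext x
  simp only [Finset.mem_filter, Finset.mem_univ, true_and, Finset.mem_map,
    Function.Embedding.coeFn_mk]
  rfl

/-- the small parts -/
private theorem lvs_cs (q n : ℕ) [NeZero q] (F G : ZMod q → ℝ → ℂ) (B : ℝ)
    (hmF : ∀ x, Measurable (F x)) (hmG : ∀ x, Measurable (G x)) (hF : ∀ x t, ‖F x t‖ ≤ B)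
    (hG : ∀ x t, ‖G x t‖ ≤ B) (A D : ℝ)
    (hA : ∑' p : DirichletCharacter ℂ q × ℤ, ‖fq q F p.1 p.2‖ ^ 2 ≤ A)
    (hD : ∑' p : DirichletCharacter ℂ q × ℤ, ‖fq q G p.1 p.2‖ ^ 2 ≤ D) (ρ : ℝ) :
    ‖∑ y ∈ univ.filter (fun y : ZMod q => IsUnit y),
        (∫ t in (0 : ℝ)..(Real.log 2 / 2), F y t * G y t * ((2 * Real.exp (2 * t) : ℝ) : ℂ) *
          ee (ρ * Real.exp (2 * t))) * ee (-((n : ℝ) * ((y.val : ℝ) / q)))‖ ≤
      4 * Nat.totient q * (Real.sqrt A * Real.sqrt D) := by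
  have hφ : (0 : ℝ) < Nat.totient q := by
    exact_mod_cast Nat.totient_pos.2 (Nat.pos_of_ne_zero (NeZero.ne q))
  have hl0 : 0 < Real.log 2 := Real.log_pos (by norm_num)
  have hl1 : Real.log 2 / 2 ≤ 1 := by have := Real.log_two_lt_d9; linarith
  have hii : ∀ y (a b : ℝ), IntervalIntegrable (fun t => ‖F y t‖ * ‖G y t‖) MeasureTheory.volume a b := by
    intro y a b
    refine lvs_ii _ ((hmF y).norm.mul (hmG y).norm) (B * B) (fun t => ?_) _ _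
    show |‖F y t‖ * ‖G y t‖| ≤ B * B
    rw [abs_mul, abs_norm, abs_norm]
    exact mul_le_mul (hF y t) (hG y t) (norm_nonneg _) ((norm_nonneg _).trans (hF y t))
  have hterm : ∀ y : ZMod q, ‖(∫ t in (0 : ℝ)..(Real.log 2 / 2), F y t * G y t *
      ((2 * Real.exp (2 * t) : ℝ) : ℂ) * ee (ρ * Real.exp (2 * t))) *
        ee (-((n : ℝ) * ((y.val : ℝ) / q)))‖ ≤ 4 * ∫ t in (0 : ℝ)..1, ‖F y t‖ * ‖G y t‖ := by
    intro y
    rw [norm_mul, norm_ee, mul_one, ← intervalIntegral.integral_const_mul]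
    refine (intervalIntegral.norm_integral_le_of_norm_le (g := fun t => 4 * (‖F y t‖ * ‖G y t‖))
      (by positivity) ?_ ((hii y _ _).const_mul 4)).trans ?_
    · refine Filter.Eventually.of_forall fun t ht => ?_
      rw [norm_mul, norm_ee, mul_one, norm_mul, norm_mul, Complex.norm_real, Real.norm_eq_abs]
      have he : |2 * Real.exp (2 * t)| ≤ 4 := by
        rw [abs_of_pos (by positivity)]
        have h1 : Real.exp (2 * t) ≤ Real.exp (Real.log 2) := Real.exp_le_exp.2 (by linarith [ht.2])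
        rw [Real.exp_log (by norm_num)] at h1
        linarith
      rw [mul_comm]
      exact mul_le_mul_of_nonneg_right he (by positivity)
    · refine intervalIntegral.integral_mono_interval le_rfl (by positivity) hl1 ?_
        ((hii y _ _).const_mul 4)
      exact Filter.Eventually.of_forall fun t => by
        show (0 : ℝ) ≤ 4 * (‖F y t‖ * ‖G y t‖)
        positivity
  refine (norm_sum_le _ _).trans ((sum_le_sum fun y _ => hterm y).trans ?_)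
  rw [← mul_sum]
  have hC := lvs_cauchy (univ.filter (fun y : ZMod q => IsUnit y)) (fun y t => ‖F y t‖)
    (fun y t => ‖G y t‖) B (fun y => (hmF y).norm) (fun y => (hmG y).norm)
    (fun y t => by rw [abs_norm]; exact hF y t) (fun y t => by rw [abs_norm]; exact hG y t)
  have hP := (fq_parseval q F B hmF hF).tsum_eq
  have hQ := (fq_parseval q G B hmG hG).tsum_eq
  rw [hP] at hA
  rw [hQ] at hD
  rw [one_div, inv_mul_le_iff₀ hφ] at hA hD
  have h1 := Real.sqrt_le_sqrt hA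
  have h2 := Real.sqrt_le_sqrt hD
  rw [Real.sqrt_mul hφ.le] at h1 h2
  have h3 : Real.sqrt (Nat.totient q : ℝ) * Real.sqrt (Nat.totient q : ℝ) = Nat.totient q :=
    Real.mul_self_sqrt hφ.le
  have h4 := mul_le_mul h1 h2 (Real.sqrt_nonneg _) (by positivity)
  have h5 : Real.sqrt (Nat.totient q : ℝ) * Real.sqrt A * (Real.sqrt (Nat.totient q : ℝ) * Real.sqrt D) =
      Nat.totient q * (Real.sqrt A * Real.sqrt D) := by
    calc _ = (Real.sqrt (Nat.totient q : ℝ) * Real.sqrt (Nat.totient q : ℝ)) *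
        (Real.sqrt A * Real.sqrt D) := by ring
      _ = _ := by rw [h3]
  rw [h5] at h4
  linarith [hC.trans h4]

/-- the tail of `∑ 1/j²` -/
private noncomputable def lvsT (J0 : ℕ) (j : ℤ) : ℝ := if (J0 : ℤ) < |j| then 1 / (j : ℝ) ^ 2 else 0

private theorem lvsT_nonneg (J0 : ℕ) (j : ℤ) : 0 ≤ lvsT J0 j := by
  unfold lvsT
  split_ifs <;> positivity

private theorem lvsT_sum (J0 : ℕ) (hJ0 : 1 ≤ J0) (s : Finset ℤ) : ∑ j ∈ s, lvsT J0 j ≤ 2 / J0 := by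
  classical
  obtain ⟨M, hM⟩ : ∃ M : ℕ, J0 ≤ M ∧ ∀ j ∈ s, |j| ≤ M := by
    refine ⟨J0 + ∑ j ∈ s, j.natAbs, by omega, fun j hj => ?_⟩
    have h1 : j.natAbs ≤ ∑ j ∈ s, j.natAbs :=
      single_le_sum (f := fun j : ℤ => j.natAbs) (fun _ _ => Nat.zero_le _) hj
    have h2 : |j| = (j.natAbs : ℤ) := Int.abs_eq_natAbs j
    rw [h2]
    exact_mod_cast (show j.natAbs ≤ J0 + ∑ j ∈ s, j.natAbs by omega)
  have hsub : s.filter (fun j => (J0 : ℤ) < |j|) ⊆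
      (Ioc J0 M).image (fun m : ℕ => (m : ℤ)) ∪ (Ioc J0 M).image (fun m : ℕ => -(m : ℤ)) := by
    intro j hj
    rw [mem_filter] at hj
    have h1 := hM.2 j hj.1
    rw [mem_union, mem_image, mem_image]
    have h2 : |j| = (j.natAbs : ℤ) := Int.abs_eq_natAbs j
    rcases le_total 0 j with h | h
    · left
      refine ⟨j.natAbs, ?_, ?_⟩
      · rw [mem_Ioc]; omega
      · omega
    · right
      refine ⟨j.natAbs, ?_, ?_⟩
      · rw [mem_Ioc]; omega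
      · omega
  have h1 : ∑ j ∈ s, lvsT J0 j = ∑ j ∈ s.filter (fun j => (J0 : ℤ) < |j|), 1 / (j : ℝ) ^ 2 := by
    rw [sum_filter]
    rfl
  rw [h1]
  refine (sum_le_sum_of_subset_of_nonneg hsub fun j _ _ => by positivity).trans ?_
  have h2 : ∑ i ∈ Ioc J0 M, ((i : ℝ) ^ 2)⁻¹ ≤ (J0 : ℝ)⁻¹ - (M : ℝ)⁻¹ :=
    sum_Ioc_inv_sq_le_sub (by omega) hM.1
  have hM0 : 0 ≤ (M : ℝ)⁻¹ := by positivity
  have h3 : ∀ (f : ℕ → ℤ), (∀ m, (f m : ℝ) ^ 2 = (m : ℝ) ^ 2) → Function.Injective f →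
      ∑ j ∈ (Ioc J0 M).image f, 1 / (j : ℝ) ^ 2 ≤ (J0 : ℝ)⁻¹ := by
    intro f hf hinj
    rw [sum_image (fun a _ b _ h => hinj h)]
    calc ∑ x ∈ Ioc J0 M, 1 / ((f x : ℤ) : ℝ) ^ 2 = ∑ i ∈ Ioc J0 M, ((i : ℝ) ^ 2)⁻¹ := by
          refine sum_congr rfl fun i _ => ?_
          rw [hf, one_div]
      _ ≤ _ := by linarith
  have h4 := h3 (fun m : ℕ => (m : ℤ)) (fun m => by push_cast; rfl) (fun a b h => by
    have : (a : ℤ) = b := h
    exact_mod_cast this)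
  have h5 := h3 (fun m : ℕ => -(m : ℤ)) (fun m => by push_cast; ring) (fun a b h => by
    have : (a : ℤ) = b := by simpa using h
    exact_mod_cast this)
  have h6 : ∑ j ∈ (Ioc J0 M).image (fun m : ℕ => (m : ℤ)) ∪ (Ioc J0 M).image (fun m : ℕ => -(m : ℤ)),
      1 / (j : ℝ) ^ 2 ≤ ∑ j ∈ (Ioc J0 M).image (fun m : ℕ => (m : ℤ)), 1 / (j : ℝ) ^ 2 +
        ∑ j ∈ (Ioc J0 M).image (fun m : ℕ => -(m : ℤ)), 1 / (j : ℝ) ^ 2 := by
    rw [← sum_union_inter]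
    exact le_add_of_nonneg_right (sum_nonneg fun j _ => by positivity)
  calc _ ≤ _ := h6
    _ ≤ (J0 : ℝ)⁻¹ + (J0 : ℝ)⁻¹ := add_le_add h4 h5
    _ = 2 / J0 := by rw [div_eq_mul_inv]; ring

private theorem lvs_cardχ (q : ℕ) [NeZero q] :
    (Fintype.card (DirichletCharacter ℂ q) : ℝ) ≤ q := by
  have h : Fintype.card (DirichletCharacter ℂ q) = q.totient := by
    rw [← Nat.card_eq_fintype_card]
    exact DirichletCharacter.card_eq_totient_of_hasEnoughRootsOfUnity ℂ q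
  rw [h]
  exact_mod_cast Nat.totient_le q

private theorem lvs_tail (q J0 : ℕ) [NeZero q] (hJ0 : 1 ≤ J0) :
    (Summable fun p : DirichletCharacter ℂ q × ℤ => lvsT J0 p.2) ∧
      ∑' p : DirichletCharacter ℂ q × ℤ, lvsT J0 p.2 ≤ 2 * (q / J0) := by
  classical
  have h : ∀ s : Finset (DirichletCharacter ℂ q × ℤ), ∑ p ∈ s, lvsT J0 p.2 ≤ 2 * (q / J0) := by
    intro s
    have hsub : s ⊆ (univ : Finset (DirichletCharacter ℂ q)) ×ˢ s.image Prod.snd := by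
      intro p hp
      rw [mem_product]
      exact ⟨mem_univ _, mem_image_of_mem _ hp⟩
    refine (sum_le_sum_of_subset_of_nonneg hsub fun p _ _ => lvsT_nonneg _ _).trans ?_
    rw [sum_product]
    calc ∑ χ : DirichletCharacter ℂ q, ∑ j ∈ s.image Prod.snd, lvsT J0 j
        ≤ ∑ χ : DirichletCharacter ℂ q, (2 / J0 : ℝ) :=
          sum_le_sum fun _ _ => lvsT_sum J0 hJ0 _
      _ = Fintype.card (DirichletCharacter ℂ q) * (2 / J0) := by
          rw [sum_const, card_univ, nsmul_eq_mul]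
      _ ≤ q * (2 / J0) := mul_le_mul_of_nonneg_right (lvs_cardχ q) (by positivity)
      _ = 2 * (q / J0) := by ring
  have hs := summable_of_sum_le (fun p : DirichletCharacter ℂ q × ℤ => lvsT_nonneg J0 p.2) h
  exact ⟨hs, hs.tsum_le_of_sum_le h⟩

open Classical in
/-- the large part -/
private theorem lvs_part (q J0 : ℕ) [NeZero q] (hJ0 : 1 ≤ J0) (f : ZMod q → ℝ → ℂ) (Bd : ℝ)
    (hBd : 0 ≤ Bd) (hm : ∀ x, Measurable (f x)) (hf : ∀ x t, ‖f x t‖ ≤ Bd)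
    (α β : DirichletCharacter ℂ q × ℤ → ℝ) (hα : ∀ p, 0 ≤ α p) (hβ : ∀ p, 0 ≤ β p)
    (hx : ∀ p, ‖fq q f p.1 p.2‖ ≤ α p * β p)
    (R V : ℝ) (hV : 0 ≤ V) (hVR : V ≤ R) (hαR : ∀ p, α p ≤ R) (S : ℝ)
    (hs : Summable fun p => β p ^ 2) (hS : ∑' p, β p ^ 2 ≤ S) (W : ℝ) (hW : 0 ≤ W)
    (hβW : ∀ p : DirichletCharacter ℂ q × ℤ, p.2 ≠ 0 → β p ≤ W / |(p.2 : ℝ)|) :
    ∃ fL : ZMod q → ℝ → ℂ, (∀ x, Measurable (fL x)) ∧
      (∀ x t, ‖fL x t‖ ≤ q * (2 * J0 + 1) * Bd) ∧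
      (∀ p : DirichletCharacter ℂ q × ℤ, ‖fq q fL p.1 p.2‖ ≤ (if V < α p then R else 0) * β p) ∧
      (∑' p : DirichletCharacter ℂ q × ℤ, ‖fq q (fun y t => f y t - fL y t) p.1 p.2‖ ^ 2 ≤
        V ^ 2 * S + R ^ 2 * W ^ 2 * (2 * (q / J0))) ∧
      (∑' p : DirichletCharacter ℂ q × ℤ, ‖fq q fL p.1 p.2‖ ^ 2 ≤ R ^ 2 * S) ∧
      (∑' p : DirichletCharacter ℂ q × ℤ, ‖fq q f p.1 p.2‖ ^ 2 ≤ R ^ 2 * S) := by
  have hR : 0 ≤ R := hV.trans hVR
  set Λ : Finset (DirichletCharacter ℂ q × ℤ) :=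
    ((univ : Finset (DirichletCharacter ℂ q)) ×ˢ Icc (-(J0 : ℤ)) J0).filter
      (fun p => V < α p) with hΛ
  have hmem : ∀ p, p ∈ Λ ↔ ((-(J0 : ℤ) ≤ p.2 ∧ p.2 ≤ J0) ∧ V < α p) := by
    intro p
    rw [hΛ, mem_filter, mem_product, mem_Icc]
    simp
  have hcard : (Λ.card : ℝ) ≤ q * (2 * J0 + 1) := by
    have h1 : Λ.card ≤ Fintype.card (DirichletCharacter ℂ q) * (2 * J0 + 1) := by
      refine (card_filter_le _ _).trans ?_
      rw [card_product, card_univ, Int.card_Icc]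
      refine Nat.mul_le_mul_left _ ?_
      omega
    have h2 : (Λ.card : ℝ) ≤ Fintype.card (DirichletCharacter ℂ q) * (2 * J0 + 1) := by
      exact_mod_cast h1
    exact h2.trans (mul_le_mul_of_nonneg_right (lvs_cardχ q) (by positivity))
  have hxR : ∀ p, ‖fq q f p.1 p.2‖ ≤ R * β p := fun p =>
    (hx p).trans (mul_le_mul_of_nonneg_right (hαR p) (hβ p))
  have hfL : ∀ p : DirichletCharacter ℂ q × ℤ,
      ‖fq q (pj q Λ (fun p => fq q f p.1 p.2)) p.1 p.2‖ ≤ (if V < α p then R else 0) * β p := by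
    intro p
    rw [fq_pj]
    by_cases hp : p ∈ Λ
    · rw [if_pos hp, if_pos ((hmem p).1 hp).2]
      exact hxR p
    · rw [if_neg hp, norm_zero]
      split_ifs
      · exact mul_nonneg hR (hβ p)
      · rw [zero_mul]
  have hsum : ∀ F : ZMod q → ℝ → ℂ, (∀ p : DirichletCharacter ℂ q × ℤ, ‖fq q F p.1 p.2‖ ≤ R * β p) →
      ∑' p : DirichletCharacter ℂ q × ℤ, ‖fq q F p.1 p.2‖ ^ 2 ≤ R ^ 2 * S := by
    intro F hF
    have h1 : ∀ p : DirichletCharacter ℂ q × ℤ, ‖fq q F p.1 p.2‖ ^ 2 ≤ R ^ 2 * β p ^ 2 := by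
      intro p
      rw [← mul_pow]
      exact pow_le_pow_left₀ (norm_nonneg _) (hF p) 2
    have h2 : Summable fun p => R ^ 2 * β p ^ 2 := hs.mul_left _
    have h3 : Summable fun p : DirichletCharacter ℂ q × ℤ => ‖fq q F p.1 p.2‖ ^ 2 :=
      Summable.of_nonneg_of_le (fun p => by positivity) h1 h2
    refine (h3.tsum_le_tsum h1 h2).trans ?_
    rw [tsum_mul_left]
    exact mul_le_mul_of_nonneg_left hS (by positivity)
  refine ⟨pj q Λ (fun p => fq q f p.1 p.2), fun x => pj_meas q Λ _ x, fun x t => ?_, hfL, ?_, ?_, ?_⟩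
  · refine (pj_bound q Λ _ x t).trans ?_
    calc ∑ p ∈ Λ, ‖fq q f p.1 p.2‖ ≤ ∑ p ∈ Λ, Bd :=
          sum_le_sum fun p _ => fq_norm_le q f Bd hf p.1 p.2
      _ = Λ.card * Bd := by rw [sum_const, nsmul_eq_mul]
      _ ≤ _ := mul_le_mul_of_nonneg_right hcard hBd
  · obtain ⟨ht1, ht2⟩ := lvs_tail q J0 hJ0
    have h1 : ∀ p : DirichletCharacter ℂ q × ℤ,
        ‖fq q (fun y t => f y t - pj q Λ (fun p => fq q f p.1 p.2) y t) p.1 p.2‖ ^ 2 ≤
          V ^ 2 * β p ^ 2 + R ^ 2 * W ^ 2 * lvsT J0 p.2 := by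
      intro p
      have hb := hβ p
      have hT := lvsT_nonneg J0 p.2
      rw [fq_sub_pj q f Bd hm hf]
      by_cases hp : p ∈ Λ
      · rw [if_pos hp, norm_zero]
        have h5 : 0 ≤ V ^ 2 * β p ^ 2 + R ^ 2 * W ^ 2 * lvsT J0 p.2 := by positivity
        calc (0 : ℝ) ^ 2 = 0 := by norm_num
          _ ≤ _ := h5
      · rw [if_neg hp]
        rw [hmem] at hp
        by_cases hV2 : V < α p
        · have hj : (J0 : ℤ) < |p.2| := by
            by_contra hcon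
            push Not at hcon
            exact hp ⟨abs_le.1 hcon, hV2⟩
          have hj0 : p.2 ≠ 0 := by
            intro h0
            rw [h0, abs_zero] at hj
            omega
          have h2 : ‖fq q f p.1 p.2‖ ≤ R * (W / |(p.2 : ℝ)|) :=
            (hxR p).trans (mul_le_mul_of_nonneg_left (hβW p hj0) hR)
          have h3 := pow_le_pow_left₀ (norm_nonneg _) h2 2
          have h4 : (R * (W / |(p.2 : ℝ)|)) ^ 2 = R ^ 2 * W ^ 2 * lvsT J0 p.2 := by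
            unfold lvsT
            rw [if_pos hj, mul_pow, div_pow, sq_abs]
            ring
          rw [h4] at h3
          have h5 : 0 ≤ V ^ 2 * β p ^ 2 := by positivity
          linarith
        · push Not at hV2
          have h2 : ‖fq q f p.1 p.2‖ ≤ V * β p :=
            (hx p).trans (mul_le_mul_of_nonneg_right hV2 hb)
          have h3 := pow_le_pow_left₀ (norm_nonneg _) h2 2
          rw [mul_pow] at h3
          have h5 : 0 ≤ R ^ 2 * W ^ 2 * lvsT J0 p.2 := by positivity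
          linarith
    have h2 : Summable fun p : DirichletCharacter ℂ q × ℤ =>
        V ^ 2 * β p ^ 2 + R ^ 2 * W ^ 2 * lvsT J0 p.2 := (hs.mul_left _).add (ht1.mul_left _)
    have h3 := Summable.of_nonneg_of_le (fun p : DirichletCharacter ℂ q × ℤ =>
      sq_nonneg ‖fq q (fun y t => f y t - pj q Λ (fun p => fq q f p.1 p.2) y t) p.1 p.2‖) h1 h2
    refine (h3.tsum_le_tsum h1 h2).trans ?_
    rw [(hs.mul_left _).tsum_add (ht1.mul_left _), tsum_mul_left, tsum_mul_left]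
    exact add_le_add (mul_le_mul_of_nonneg_left hS (by positivity))
      (mul_le_mul_of_nonneg_left ht2 (by positivity))
  · refine hsum _ fun p => (hfL p).trans ?_
    refine mul_le_mul_of_nonneg_right ?_ (hβ p)
    split_ifs
    · exact le_rfl
    · exact hR
  · exact hsum _ hxR

private theorem lvs_int (F G : ℝ → ℂ) (B ρ c d : ℝ) (hmF : Measurable F) (hmG : Measurable G)
    (hF : ∀ t, ‖F t‖ ≤ B) (hG : ∀ t, ‖G t‖ ≤ B) :
    IntervalIntegrable (fun t => F t * G t * ((2 * Real.exp (2 * t) : ℝ) : ℂ) *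
      ee (ρ * Real.exp (2 * t))) MeasureTheory.volume c d := by
  have hc : Continuous fun t : ℝ => ((2 * Real.exp (2 * t) : ℝ) : ℂ) *
      ee (ρ * Real.exp (2 * t)) := by
    refine Continuous.mul (by fun_prop) (ee_cont.comp (by fun_prop))
  have h1 : IntervalIntegrable (fun t : ℝ => ((2 * Real.exp (2 * t) : ℝ) : ℂ) *
      ee (ρ * Real.exp (2 * t))) MeasureTheory.volume c d := hc.intervalIntegrable c d
  have h2 : ∀ t, F t * G t * ((2 * Real.exp (2 * t) : ℝ) : ℂ) * ee (ρ * Real.exp (2 * t)) =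
      F t * G t * (((2 * Real.exp (2 * t) : ℝ) : ℂ) * ee (ρ * Real.exp (2 * t))) := fun t => by ring
  simp_rw [h2]
  refine IntervalIntegrable.mono_fun (h1.norm.const_mul (B * B)) ?_ ?_
  · exact ((hmF.mul hmG).mul hc.measurable).aestronglyMeasurable
  · refine Filter.Eventually.of_forall fun t => ?_
    dsimp only
    rw [norm_mul, norm_mul]
    refine le_trans ?_ (le_abs_self _)
    exact mul_le_mul_of_nonneg_right (mul_le_mul (hF t) (hG t) (norm_nonneg _)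
      ((norm_nonneg _).trans (hF t))) (norm_nonneg _)

theorem lv_split : ∃ C : ℝ, 0 < C ∧ ∀ (q h n : ℕ) [NeZero q] [NeZero h] (_ : h = hq q n)
    (hd : h ∣ q) (f g : ZMod q → ℝ → ℂ) (Bd : ℝ), 0 ≤ Bd → (∀ x, Measurable (f x)) →
    (∀ x, Measurable (g x)) → (∀ x t, ‖f x t‖ ≤ Bd) → (∀ x t, ‖g x t‖ ≤ Bd) →
    ∀ (α1 β1 α2 β2 : DirichletCharacter ℂ q × ℤ → ℝ),
    (∀ p, 0 ≤ α1 p) → (∀ p, 0 ≤ β1 p) → (∀ p, 0 ≤ α2 p) → (∀ p, 0 ≤ β2 p) →
    (∀ p, ‖fq q f p.1 p.2‖ ≤ α1 p * β1 p) → (∀ p, ‖fq q g p.1 p.2‖ ≤ α2 p * β2 p) →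
    ∀ (R1 V1 R2 V2 : ℝ), 0 ≤ V1 → V1 ≤ R1 → 0 ≤ V2 → V2 ≤ R2 → (∀ p, α1 p ≤ R1) →
    (∀ p, α2 p ≤ R2) → ∀ (a1 b1 a2 b2 S1 S2 : ℝ), 0 ≤ a1 → 0 ≤ b1 → 0 ≤ a2 → 0 ≤ b2 →
    (∀ T : ℕ, 1 ≤ T → ∀ (χ : DirichletCharacter ℂ q) (k : ℤ),
      ∑ ξ : DirichletCharacter ℂ h, ∑ j ∈ Icc (k - T) (k + T),
        (if V1 < α1 (DirichletCharacter.changeLevel hd ξ * χ, j) then (1 : ℝ) else 0) ≤
          a1 * T + b1) →
    (∀ T : ℕ, 1 ≤ T → ∀ (χ : DirichletCharacter ℂ q) (k : ℤ),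
      ∑ ξ : DirichletCharacter ℂ h, ∑ j ∈ Icc (k - T) (k + T),
        (if V2 < α2 (DirichletCharacter.changeLevel hd ξ * χ, j) then (1 : ℝ) else 0) ≤
          a2 * T + b2) →
    (Summable fun p => β1 p ^ 2) → ∑' p, β1 p ^ 2 ≤ S1 →
    (Summable fun p => β2 p ^ 2) → ∑' p, β2 p ^ 2 ≤ S2 →
    ∀ W : ℝ, 0 ≤ W → (∀ p : DirichletCharacter ℂ q × ℤ, p.2 ≠ 0 → β1 p ≤ W / |(p.2 : ℝ)|) →
    (∀ p : DirichletCharacter ℂ q × ℤ, p.2 ≠ 0 → β2 p ≤ W / |(p.2 : ℝ)|) →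
    ∀ (ρ : ℝ) (J0 J : ℕ), 1 ≤ J0 → 1 ≤ J → 8 * |ρ| ≤ J →
    ‖∑ y ∈ univ.filter (fun y : ZMod q => IsUnit y),
        (∫ t in (0 : ℝ)..(Real.log 2 / 2), f y t * g y t * ((2 * Real.exp (2 * t) : ℝ) : ℂ) *
          ee (ρ * Real.exp (2 * t))) * ee (-((n : ℝ) * ((y.val : ℝ) / q)))‖ ≤
      C * (1 + Real.log J) * (Real.sqrt ((h : ℝ) * h.divisors.card) / Nat.totient h) *
        Nat.totient q * Real.sqrt (S1 * S2) * (R1 * R2) *
        Real.sqrt ((a1 * (1 + |ρ|) + b1) * (a2 * (1 + |ρ|) + b2)) / Real.sqrt (1 + |ρ|) +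
      C * Nat.totient q * (V1 * R2 + V2 * R1) * Real.sqrt (S1 * S2) +
      C * Nat.totient q * (R1 * R2 * W * Real.sqrt (q / J0)) * (Real.sqrt S1 + Real.sqrt S2) +
      C * Nat.totient q * (q * (2 * J0 + 1) * Bd) ^ 2 / Real.sqrt J := by
  obtain ⟨C1, hC1, h1q⟩ := one_q
  refine ⟨C1 + 8, by positivity, ?_⟩
  intro q h n _ _ hh hd f g Bd hBd hmf hmg hf hg α1 β1 α2 β2 hα1 hβ1 hα2 hβ2 hx1 hx2 R1 V1 R2 V2
    hV1 hVR1 hV2 hVR2 hR1 hR2 a1 b1 a2 b2 S1 S2 ha1 hb1 ha2 hb2 hw1 hw2 hs1 hS1 hs2 hS2 W hW hβW1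
    hβW2 ρ J0 J hJ0 hJ h8J
  have hφ : (0 : ℝ) < Nat.totient q := by
    exact_mod_cast Nat.totient_pos.2 (Nat.pos_of_ne_zero (NeZero.ne q))
  have hS10 : 0 ≤ S1 := (tsum_nonneg fun g => sq_nonneg (β1 g)).trans hS1
  have hS20 : 0 ≤ S2 := (tsum_nonneg fun g => sq_nonneg (β2 g)).trans hS2
  have hR10 : 0 ≤ R1 := hV1.trans hVR1
  have hR20 : 0 ≤ R2 := hV2.trans hVR2
  have hr : 0 ≤ |ρ| := abs_nonneg ρ
  have hlogJ : 0 ≤ Real.log J := Real.log_natCast_nonneg J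
  obtain ⟨fL, hmL1, hbL1, hfL1, hSS1, hSL1, hS1'⟩ := lvs_part q J0 hJ0 f Bd hBd hmf hf α1 β1 hα1
    hβ1 hx1 R1 V1 hV1 hVR1 hR1 S1 hs1 hS1 W hW hβW1
  obtain ⟨gL, hmL2, hbL2, hfL2, hSS2, hSL2, hS2'⟩ := lvs_part q J0 hJ0 g Bd hBd hmg hg α2 β2 hα2
    hβ2 hx2 R2 V2 hV2 hVR2 hR2 S2 hs2 hS2 W hW hβW2
  set B' : ℝ := q * (2 * J0 + 1) * Bd with hB'
  have hB'0 : 0 ≤ B' := by rw [hB']; positivity
  have hBB : Bd ≤ B' := by
    have h1 : (1 : ℝ) ≤ q := by exact_mod_cast Nat.one_le_iff_ne_zero.2 (NeZero.ne q)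
    have h2 : (1 : ℝ) ≤ 2 * J0 + 1 := by
      have : (0 : ℝ) ≤ J0 := Nat.cast_nonneg _
      linarith
    have h3 : (1 : ℝ) ≤ q * (2 * J0 + 1) := one_le_mul_of_one_le_of_one_le h1 h2
    rw [hB']
    nlinarith
  have hBfS : ∀ x t, ‖f x t - fL x t‖ ≤ 2 * B' := fun x t =>
    (norm_sub_le _ _).trans (by linarith [hf x t, hbL1 x t])
  have hBgS : ∀ x t, ‖g x t - gL x t‖ ≤ 2 * B' := fun x t =>
    (norm_sub_le _ _).trans (by linarith [hg x t, hbL2 x t])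
  have hBfL : ∀ x t, ‖fL x t‖ ≤ 2 * B' := fun x t => (hbL1 x t).trans (by linarith)
  have hBgL : ∀ x t, ‖gL x t‖ ≤ 2 * B' := fun x t => (hbL2 x t).trans (by linarith)
  have hBg : ∀ x t, ‖g x t‖ ≤ 2 * B' := fun x t => (hg x t).trans (by linarith)
  have hmfS : ∀ x, Measurable (fun t => f x t - fL x t) := fun x => (hmf x).sub (hmL1 x)
  have hmgS : ∀ x, Measurable (fun t => g x t - gL x t) := fun x => (hmg x).sub (hmL2 x)
  -- the three parts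
  have hsplit : ∑ y ∈ univ.filter (fun y : ZMod q => IsUnit y),
        (∫ t in (0 : ℝ)..(Real.log 2 / 2), f y t * g y t * ((2 * Real.exp (2 * t) : ℝ) : ℂ) *
          ee (ρ * Real.exp (2 * t))) * ee (-((n : ℝ) * ((y.val : ℝ) / q))) =
      (∑ y ∈ univ.filter (fun y : ZMod q => IsUnit y),
        (∫ t in (0 : ℝ)..(Real.log 2 / 2), fL y t * gL y t * ((2 * Real.exp (2 * t) : ℝ) : ℂ) *
          ee (ρ * Real.exp (2 * t))) * ee (-((n : ℝ) * ((y.val : ℝ) / q)))) +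
      (∑ y ∈ univ.filter (fun y : ZMod q => IsUnit y),
        (∫ t in (0 : ℝ)..(Real.log 2 / 2), (f y t - fL y t) * g y t *
          ((2 * Real.exp (2 * t) : ℝ) : ℂ) *
          ee (ρ * Real.exp (2 * t))) * ee (-((n : ℝ) * ((y.val : ℝ) / q)))) +
      (∑ y ∈ univ.filter (fun y : ZMod q => IsUnit y),
        (∫ t in (0 : ℝ)..(Real.log 2 / 2), fL y t * (g y t - gL y t) *
          ((2 * Real.exp (2 * t) : ℝ) : ℂ) *
          ee (ρ * Real.exp (2 * t))) * ee (-((n : ℝ) * ((y.val : ℝ) / q)))) := by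
    rw [← sum_add_distrib, ← sum_add_distrib]
    refine sum_congr rfl fun y _ => ?_
    rw [← add_mul, ← add_mul]
    congr 1
    rw [← intervalIntegral.integral_add (lvs_int (fL y) (gL y) (2 * B') ρ _ _ (hmL1 y) (hmL2 y)
        (hBfL y) (hBgL y)) (lvs_int (fun t => f y t - fL y t) (g y) (2 * B') ρ _ _ (hmfS y) (hmg y)
        (hBfS y) (hBg y)),
      ← intervalIntegral.integral_add ((lvs_int (fL y) (gL y) (2 * B') ρ _ _ (hmL1 y) (hmL2 y)
        (hBfL y) (hBgL y)).add (lvs_int (fun t => f y t - fL y t) (g y) (2 * B') ρ _ _ (hmfS y)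
        (hmg y) (hBfS y) (hBg y))) (lvs_int (fL y) (fun t => g y t - gL y t) (2 * B') ρ _ _
        (hmL1 y) (hmgS y) (hBfL y) (hBgS y))]
    refine intervalIntegral.integral_congr fun t _ => ?_
    ring
  rw [hsplit]
  -- part 1
  have hwin : ∀ (V R : ℝ) (α : DirichletCharacter ℂ q × ℤ → ℝ) (a b : ℝ),
      (∀ T : ℕ, 1 ≤ T → ∀ (χ : DirichletCharacter ℂ q) (k : ℤ),
        ∑ ξ : DirichletCharacter ℂ h, ∑ j ∈ Icc (k - T) (k + T),
          (if V < α (DirichletCharacter.changeLevel hd ξ * χ, j) then (1 : ℝ) else 0) ≤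
            a * T + b) →
      ∀ T : ℕ, 1 ≤ T → ∀ (χ : DirichletCharacter ℂ q) (k : ℤ),
        ∑ ξ : DirichletCharacter ℂ h, ∑ j ∈ Icc (k - T) (k + T),
          (fun p : DirichletCharacter ℂ q × ℤ => if V < α p then R else 0)
            (DirichletCharacter.changeLevel hd ξ * χ, j) ^ 2 ≤ (R ^ 2 * a) * T + R ^ 2 * b := by
    intro V R α a b hw T hT χ k
    have h1 := mul_le_mul_of_nonneg_left (hw T hT χ k) (sq_nonneg R)
    rw [mul_sum] at h1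
    calc _ = ∑ ξ : DirichletCharacter ℂ h, R ^ 2 * ∑ j ∈ Icc (k - T) (k + T),
          (if V < α (DirichletCharacter.changeLevel hd ξ * χ, j) then (1 : ℝ) else 0) := by
          refine sum_congr rfl fun ξ _ => ?_
          rw [mul_sum]
          refine sum_congr rfl fun j _ => ?_
          dsimp only
          split_ifs <;> ring
      _ ≤ R ^ 2 * (a * T + b) := h1
      _ = _ := by ring
  have hp1 := h1q q h n hh hd fL gL B' hB'0 hmL1 hmL2 hbL1 hbL2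
    (fun p => if V1 < α1 p then R1 else 0) β1 (fun p => if V2 < α2 p then R2 else 0) β2
    (fun p => by split_ifs <;> [exact hR10; exact le_rfl]) hβ1
    (fun p => by split_ifs <;> [exact hR20; exact le_rfl]) hβ2 hfL1 hfL2
    (R1 ^ 2 * a1) (R1 ^ 2 * b1) (R2 ^ 2 * a2) (R2 ^ 2 * b2) S1 S2 (by positivity) (by positivity)
    (by positivity) (by positivity) (hwin V1 R1 α1 a1 b1 hw1) (hwin V2 R2 α2 a2 b2 hw2)
    hs1 hS1 hs2 hS2 ρ J hJ h8J
  have hsq : Real.sqrt ((R1 ^ 2 * a1 * (1 + |ρ|) + R1 ^ 2 * b1) *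
      (R2 ^ 2 * a2 * (1 + |ρ|) + R2 ^ 2 * b2)) =
      R1 * R2 * Real.sqrt ((a1 * (1 + |ρ|) + b1) * (a2 * (1 + |ρ|) + b2)) := by
    rw [show (R1 ^ 2 * a1 * (1 + |ρ|) + R1 ^ 2 * b1) * (R2 ^ 2 * a2 * (1 + |ρ|) + R2 ^ 2 * b2) =
      (R1 * R2) ^ 2 * ((a1 * (1 + |ρ|) + b1) * (a2 * (1 + |ρ|) + b2)) by ring,
      Real.sqrt_mul (sq_nonneg _), Real.sqrt_sq (by positivity)]
  rw [hsq] at hp1
  -- part 2 and 3
  have hp2 := lvs_cs q n (fun y t => f y t - fL y t) g (2 * B') hmfS hmg hBfS hBg _ _ hSS1 hS2' ρ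
  have hp3 := lvs_cs q n fL (fun y t => g y t - gL y t) (2 * B') hmL1 hmgS hBfL hBgS _ _ hSL1 hSS2 ρ
  have hqJ : (0 : ℝ) ≤ q / J0 := by positivity
  have hsqA : ∀ (V R S : ℝ), 0 ≤ V → 0 ≤ R → 0 ≤ S →
      Real.sqrt (V ^ 2 * S + R ^ 2 * W ^ 2 * (2 * (q / J0))) ≤
        V * Real.sqrt S + 2 * (R * W * Real.sqrt (q / J0)) := by
    intro V R S hV hR hS
    refine Real.sqrt_le_iff.2 ⟨by positivity, ?_⟩
    have h1 : Real.sqrt S ^ 2 = S := Real.sq_sqrt hS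
    have h2 : Real.sqrt ((q : ℝ) / J0) ^ 2 = q / J0 := Real.sq_sqrt hqJ
    have h3 : (V * Real.sqrt S + 2 * (R * W * Real.sqrt (q / J0))) ^ 2 =
        V ^ 2 * S + 4 * (R ^ 2 * W ^ 2 * (q / J0)) +
          4 * (V * Real.sqrt S * (R * W * Real.sqrt (q / J0))) := by
      calc _ = V ^ 2 * Real.sqrt S ^ 2 + 4 * (R ^ 2 * W ^ 2 * Real.sqrt ((q : ℝ) / J0) ^ 2) +
          4 * (V * Real.sqrt S * (R * W * Real.sqrt (q / J0))) := by ring
        _ = _ := by rw [h1, h2]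
    rw [h3]
    have h4 : 0 ≤ V * Real.sqrt S * (R * W * Real.sqrt (q / J0)) := by positivity
    have h5 : 0 ≤ R ^ 2 * W ^ 2 * ((q : ℝ) / J0) := by positivity
    nlinarith
  have hsqD : ∀ (R S : ℝ), 0 ≤ R → Real.sqrt (R ^ 2 * S) = R * Real.sqrt S := by
    intro R S hR
    rw [Real.sqrt_mul (sq_nonneg _), Real.sqrt_sq hR]
  rw [hsqD R2 S2 hR20] at hp2
  rw [hsqD R1 S1 hR10] at hp3
  have hss : Real.sqrt (S1 * S2) = Real.sqrt S1 * Real.sqrt S2 := Real.sqrt_mul hS10 _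
  set s1 := Real.sqrt S1 with hs1d
  set s2 := Real.sqrt S2 with hs2d
  set z := Real.sqrt ((q : ℝ) / J0) with hz
  have hs1n : 0 ≤ s1 := Real.sqrt_nonneg _
  have hs2n : 0 ≤ s2 := Real.sqrt_nonneg _
  have hzn : 0 ≤ z := Real.sqrt_nonneg _
  have hp2' : 4 * (Nat.totient q : ℝ) *
      (Real.sqrt (V1 ^ 2 * S1 + R1 ^ 2 * W ^ 2 * (2 * (q / J0))) * (R2 * s2)) ≤
      4 * Nat.totient q * ((V1 * s1 + 2 * (R1 * W * z)) * (R2 * s2)) :=
    mul_le_mul_of_nonneg_left (mul_le_mul_of_nonneg_right (hsqA V1 R1 S1 hV1 hR10 hS10)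
      (by positivity)) (by positivity)
  have hp3' : 4 * (Nat.totient q : ℝ) *
      (R1 * s1 * Real.sqrt (V2 ^ 2 * S2 + R2 ^ 2 * W ^ 2 * (2 * (q / J0)))) ≤
      4 * Nat.totient q * (R1 * s1 * (V2 * s2 + 2 * (R2 * W * z))) :=
    mul_le_mul_of_nonneg_left (mul_le_mul_of_nonneg_left (hsqA V2 R2 S2 hV2 hR20 hS20)
      (by positivity)) (by positivity)
  refine (norm_add₃_le).trans ((add_le_add (add_le_add hp1 (hp2.trans hp2'))
    (hp3.trans hp3')).trans ?_)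
  rw [hss]
  set κ : ℝ := Real.sqrt ((h : ℝ) * h.divisors.card) / Nat.totient h with hκ
  have hκ0 : 0 ≤ κ := by rw [hκ]; positivity
  set Q : ℝ := Real.sqrt ((a1 * (1 + |ρ|) + b1) * (a2 * (1 + |ρ|) + b2)) with hQ
  have hQ0 : 0 ≤ Q := Real.sqrt_nonneg _
  have e1 : 0 ≤ (1 + Real.log J) * κ * Nat.totient q * (s1 * s2) * (R1 * R2) * Q /
      Real.sqrt (1 + |ρ|) := by positivity
  have e2 : 0 ≤ (Nat.totient q : ℝ) * (V1 * R2 + V2 * R1) * (s1 * s2) := by positivity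
  have e3 : 0 ≤ (Nat.totient q : ℝ) * (R1 * R2 * W * z) * (s1 + s2) := by positivity
  have e4 : 0 ≤ (Nat.totient q : ℝ) * B' ^ 2 / Real.sqrt J := by positivity
  have g1 : C1 * (1 + Real.log J) * κ * Nat.totient q * (s1 * s2) * (R1 * R2 * Q) /
      Real.sqrt (1 + |ρ|) = C1 * ((1 + Real.log J) * κ * Nat.totient q * (s1 * s2) * (R1 * R2) * Q /
      Real.sqrt (1 + |ρ|)) := by ring
  have g2 : C1 * Nat.totient q * B' ^ 2 / Real.sqrt J =
      C1 * (Nat.totient q * B' ^ 2 / Real.sqrt J) := by ring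
  have g3 : 4 * (Nat.totient q : ℝ) * ((V1 * s1 + 2 * (R1 * W * z)) * (R2 * s2)) +
      4 * Nat.totient q * (R1 * s1 * (V2 * s2 + 2 * (R2 * W * z))) =
      4 * (Nat.totient q * (V1 * R2 + V2 * R1) * (s1 * s2)) +
      8 * (Nat.totient q * (R1 * R2 * W * z) * (s1 + s2)) := by ring
  have g4 : (C1 + 8) * (1 + Real.log J) * κ * Nat.totient q * (s1 * s2) * (R1 * R2) * Q /
      Real.sqrt (1 + |ρ|) = (C1 + 8) * ((1 + Real.log J) * κ * Nat.totient q * (s1 * s2) *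
      (R1 * R2) * Q / Real.sqrt (1 + |ρ|)) := by ring
  have g5 : (C1 + 8) * Nat.totient q * (V1 * R2 + V2 * R1) * (s1 * s2) =
      (C1 + 8) * (Nat.totient q * (V1 * R2 + V2 * R1) * (s1 * s2)) := by ring
  have g6 : (C1 + 8) * Nat.totient q * (R1 * R2 * W * z) * (s1 + s2) =
      (C1 + 8) * (Nat.totient q * (R1 * R2 * W * z) * (s1 + s2)) := by ring
  have g7 : (C1 + 8) * Nat.totient q * B' ^ 2 / Real.sqrt J =
      (C1 + 8) * (Nat.totient q * B' ^ 2 / Real.sqrt J) := by ring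
  rw [g1, g2, g4, g5, g6, g7]
  have f2 := mul_nonneg hC1.le e2
  have f3 := mul_nonneg hC1.le e3
  linarith

end Pool.MP_dd84fd_nt.JXP
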