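import Pool.Agent.Lib.MP_dd84fd_nt.PL.Struct

/-!
# PL_J-LvStr: the coefficients of `cvf`, explicitly

Copy `fq_cvf`, `al_conj`, `card_MM` (private) of `PL/Struct.lean`.
-/

set_option autoImplicit false

namespace Pool.MP_dd84fd_nt.JXP

open Finset Pool.MP_67663b_nt.Odd Pool.MP_dd84fd_nt.PL

/-- the multiplier -/
noncomputable def alm (q : ℕ) (MM : Finset ℕ) (c : ℕ → ℂ) (M : ℝ)
    (p : DirichletCharacter ℂ q × ℤ) : ℂ :=
  ∑ m ∈ MM.filter (fun m => Nat.Coprime m q),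
    (starRingEnd ℂ) (c m) * p.1 (m : ZMod q) * ee ((p.2 : ℝ) * (Real.log (m / M) / 2))

private theorem se_norm (x : ℝ) : ‖ee x‖ = 1 := by
  unfold ee
  rw [show (2 * (Real.pi : ℂ) * (x : ℂ) * Complex.I) = ((2 * Real.pi * x : ℝ) : ℂ) * Complex.I by
    push_cast; ring]
  exact Complex.norm_exp_ofReal_mul_I _

private theorem se_add (x y : ℝ) : ee (x + y) = ee x * ee y := by
  unfold ee
  rw [← Complex.exp_add]
  congr 1
  push_cast
  ring

private theorem se_conj (x : ℝ) : (starRingEnd ℂ) (ee x) = ee (-x) := by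
  unfold ee
  rw [← Complex.exp_conj]
  congr 1
  rw [map_mul, map_mul, map_mul, Complex.conj_I, Complex.conj_ofReal, Complex.conj_ofReal,
    Complex.conj_ofNat]
  push_cast
  ring

private theorem se_int (j : ℤ) : ee (j : ℝ) = 1 := by
  unfold ee
  rw [show (2 * (Real.pi : ℂ) * ((j : ℝ) : ℂ) * Complex.I) = (j : ℂ) * (2 * Real.pi * Complex.I) by
    push_cast; ring]
  exact Complex.exp_int_mul_two_pi_mul_I j

private theorem Bt_meas (q : ℕ) (B : ℝ → ℂ) (r : ℝ) (hB : Continuous B) (y : ZMod q) :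
    Measurable (Bt q B r y) := by
  unfold Bt
  refine hB.measurable.comp ?_
  refine measurable_const.add (measurable_const.mul ?_)
  exact Real.measurable_exp.comp (measurable_const.mul measurable_fract)

private theorem Bt_per (q : ℕ) (B : ℝ → ℂ) (r : ℝ) (y : ZMod q) (t : ℝ) :
    Bt q B r y (t + 1) = Bt q B r y t := by
  unfold Bt
  rw [Int.fract_add_one]

private theorem fc_shift (q : ℕ) (B : ℝ → ℂ) (r : ℝ) (y : ZMod q) (μ : ℝ) (j : ℤ) :
    fc (fun t => Bt q B r y (t + μ)) j = ee (-((j : ℝ) * μ)) * fc (Bt q B r y) j := by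
  unfold fc
  set g : ℝ → ℂ := fun t => Bt q B r y t * ee ((j : ℝ) * t) with hg
  have hper : Function.Periodic g 1 := by
    intro t
    simp only [hg]
    rw [Bt_per, mul_add, se_add, mul_one, se_int, mul_one]
  have h1 : ∀ t : ℝ, Bt q B r y (t + μ) * ee ((j : ℝ) * t) = ee (-((j : ℝ) * μ)) * g (t + μ) := by
    intro t
    simp only [hg]
    rw [show ee ((j : ℝ) * t) = ee (-((j : ℝ) * μ)) * ee ((j : ℝ) * (t + μ)) by
      rw [← se_add]; congr 1; ring]
    ring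
  simp only [h1]
  rw [intervalIntegral.integral_const_mul, intervalIntegral.integral_comp_add_right g μ]
  congr 1
  have h2 := hper.intervalIntegral_add_eq μ 0
  rw [zero_add] at h2
  rw [zero_add, add_comm 1 μ, h2]

private theorem char_inv_conj (q : ℕ) [NeZero q] (ψ : DirichletCharacter ℂ q) (m : ℕ) :
    (starRingEnd ℂ) (ψ⁻¹ (m : ZMod q)) = ψ (m : ZMod q) := by
  by_cases hu : IsUnit ((m : ℕ) : ZMod q)
  · obtain ⟨u, hu⟩ := hu
    rw [← hu]
    have h1 : ‖ψ⁻¹ (u : ZMod q)‖ = 1 := DirichletCharacter.unit_norm_eq_one ψ⁻¹ u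
    rw [← Complex.inv_eq_conj h1]
    have h2 : ψ⁻¹ (u : ZMod q) * ψ (u : ZMod q) = 1 := by
      rw [← MulChar.mul_apply, inv_mul_cancel, MulChar.one_apply_coe]
    exact inv_eq_of_mul_eq_one_right h2
  · rw [MulChar.map_nonunit _ hu, MulChar.map_nonunit _ hu, map_zero]

/-- the multiplier -/
private noncomputable def al (q : ℕ) (MM : Finset ℕ) (c : ℕ → ℂ) (M : ℝ)
    (p : DirichletCharacter ℂ q × ℤ) : ℂ :=
  ∑ m ∈ MM.filter (fun m => Nat.Coprime m q),
    c m * p.1⁻¹ (m : ZMod q) * ee (-((p.2 : ℝ) * (Real.log (m / M) / 2)))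

private theorem fq_cvf (q : ℕ) [NeZero q] (MM : Finset ℕ) (c : ℕ → ℂ) (M r : ℝ) (B : ℝ → ℂ)
    (hB : Continuous B) (Bs : ℝ) (hBs : ∀ x, ‖B x‖ ≤ Bs)
    (χ : DirichletCharacter ℂ q) (j : ℤ) :
    fq q (cvf q MM c M r B) χ j = al q MM c M (χ, j) * fq q (Bt q B r) χ j := by
  have hint : ∀ (y : ZMod q) (μ : ℝ), IntervalIntegrable
      (fun t => Bt q B r y (t + μ) * ee ((j : ℝ) * t)) MeasureTheory.volume 0 1 := by
    intro y μ
    have hc : Continuous ee := by unfold ee; fun_prop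
    rw [intervalIntegrable_iff, Set.uIoc_of_le zero_le_one]
    refine MeasureTheory.Measure.integrableOn_of_bounded (M := Bs) (by simp) ?_ ?_
    · refine Measurable.aestronglyMeasurable ?_
      exact ((Bt_meas q B r hB y).comp (measurable_id.add_const μ)).mul
        (hc.measurable.comp (measurable_const.mul measurable_id))
    · refine Filter.Eventually.of_forall fun t => ?_
      rw [norm_mul, se_norm, mul_one]
      exact hBs _
  have h1 : ∀ x : ZMod q, fc (cvf q MM c M r B x) j =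
      ∑ m ∈ MM.filter (fun m => Nat.Coprime m q),
        c m * (ee (-((j : ℝ) * (Real.log (m / M) / 2))) * fc (Bt q B r ((m : ZMod q) * x)) j) := by
    intro x
    rw [Finset.sum_congr rfl fun m _ => by rw [← fc_shift]]
    unfold fc cvf
    simp only [Finset.sum_mul]
    rw [intervalIntegral.integral_finsetSum]
    · refine Finset.sum_congr rfl fun m _ => ?_
      rw [← intervalIntegral.integral_const_mul]
      refine intervalIntegral.integral_congr fun t _ => ?_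
      show c m * Bt q B r ((m : ZMod q) * x) (t + Real.log (m / M) / 2) * ee ((j : ℝ) * t) =
        c m * (Bt q B r ((m : ZMod q) * x) (t + Real.log (m / M) / 2) * ee ((j : ℝ) * t))
      ring
    · intro m _
      have := (hint ((m : ZMod q) * x) (Real.log (m / M) / 2)).const_mul (c m)
      refine this.congr fun t _ => ?_
      show c m * (Bt q B r ((m : ZMod q) * x) (t + Real.log (m / M) / 2) * ee ((j : ℝ) * t)) =
        c m * Bt q B r ((m : ZMod q) * x) (t + Real.log (m / M) / 2) * ee ((j : ℝ) * t)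
      ring
  unfold fq al
  simp only [h1]
  rw [mul_left_comm]
  congr 1
  rw [Finset.sum_mul]
  simp only [Finset.mul_sum]
  rw [Finset.sum_comm]
  refine Finset.sum_congr rfl fun m hm => ?_
  have hcop : Nat.Coprime m q := (Finset.mem_filter.1 hm).2
  have hu : IsUnit ((m : ℕ) : ZMod q) := (ZMod.isUnit_iff_coprime m q).2 hcop
  obtain ⟨u, hu'⟩ := hu
  have h2 : ∀ x : ZMod q, χ x = χ⁻¹ (m : ZMod q) * χ ((m : ZMod q) * x) := by
    intro x
    rw [map_mul, ← mul_assoc, ← hu', ← MulChar.mul_apply, inv_mul_cancel, MulChar.one_apply_coe,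
      one_mul]
  have h3 : ∑ x : ZMod q, χ ((m : ZMod q) * x) * fc (Bt q B r ((m : ZMod q) * x)) j =
      ∑ x : ZMod q, χ x * fc (Bt q B r x) j := by
    rw [← hu']
    exact (Units.mulLeft_bijective u).sum_comp (fun x => χ x * fc (Bt q B r x) j)
  have h4 : ∀ x : ZMod q, χ x * (c m * (ee (-((j : ℝ) * (Real.log (m / M) / 2))) *
      fc (Bt q B r ((m : ZMod q) * x)) j)) =
      (c m * χ⁻¹ (m : ZMod q) * ee (-((j : ℝ) * (Real.log (m / M) / 2)))) *
        (χ ((m : ZMod q) * x) * fc (Bt q B r ((m : ZMod q) * x)) j) := by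
    intro x
    rw [h2 x]
    ring
  rw [Finset.sum_congr rfl fun x _ => h4 x, ← Finset.mul_sum, h3, Finset.mul_sum]

private theorem al_conj (q : ℕ) [NeZero q] (MM : Finset ℕ) (c : ℕ → ℂ) (M : ℝ)
    (ψ : DirichletCharacter ℂ q) (j : ℤ) :
    ‖al q MM c M (ψ, j)‖ = ‖∑ m ∈ MM.filter (fun m => Nat.Coprime m q),
      (starRingEnd ℂ) (c m) * ψ (m : ZMod q) * ee ((j : ℝ) * (Real.log (m / M) / 2))‖ := by
  have h1 : (starRingEnd ℂ) (al q MM c M (ψ, j)) = ∑ m ∈ MM.filter (fun m => Nat.Coprime m q),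
      (starRingEnd ℂ) (c m) * ψ (m : ZMod q) * ee ((j : ℝ) * (Real.log (m / M) / 2)) := by
    unfold al
    rw [map_sum]
    refine Finset.sum_congr rfl fun m _ => ?_
    rw [map_mul, map_mul, se_conj, neg_neg, char_inv_conj]
  rw [← h1, RCLike.norm_conj]

private theorem card_MM (q : ℕ) (M : ℝ) (MM : Finset ℕ) (hM : 1 ≤ M)
    (hMM : ∀ m ∈ MM, M < (m : ℝ) ∧ (m : ℝ) ≤ 2 * M) :
    ((MM.filter (fun m => Nat.Coprime m q)).card : ℝ) ≤ 2 * M := by
  have h1 : MM.filter (fun m => Nat.Coprime m q) ⊆ Ioc ⌊M⌋₊ ⌊2 * M⌋₊ := by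
    intro m hm
    obtain ⟨h2, h3⟩ := hMM m (Finset.mem_filter.1 hm).1
    rw [Finset.mem_Ioc]
    exact ⟨(Nat.floor_lt (by linarith)).2 h2, Nat.le_floor h3⟩
  have h2 := Finset.card_le_card h1
  rw [Nat.card_Ioc] at h2
  have h3 : (((⌊2 * M⌋₊ - ⌊M⌋₊ : ℕ)) : ℝ) ≤ 2 * M := by
    have h4 : ⌊M⌋₊ ≤ ⌊2 * M⌋₊ := Nat.floor_le_floor (by linarith)
    rw [Nat.cast_sub h4]
    have h5 := Nat.floor_le (show (0 : ℝ) ≤ 2 * M by linarith)
    have h6 : (0 : ℝ) ≤ (⌊M⌋₊ : ℝ) := Nat.cast_nonneg _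
    linarith
  exact le_trans (by exact_mod_cast h2) h3

theorem fq_cvf_norm (q : ℕ) [NeZero q] (MM : Finset ℕ) (c : ℕ → ℂ) (M r : ℝ) (B : ℝ → ℂ)
    (hB : Continuous B) (Bs : ℝ) (hBs : ∀ x, ‖B x‖ ≤ Bs) (p : DirichletCharacter ℂ q × ℤ) :
    ‖fq q (cvf q MM c M r B) p.1 p.2‖ = ‖alm q MM c M p‖ * ‖fq q (Bt q B r) p.1 p.2‖ := by
  rw [fq_cvf q MM c M r B hB Bs hBs, norm_mul, al_conj]
  rfl

theorem alm_le (q : ℕ) [NeZero q] (MM : Finset ℕ) (c : ℕ → ℂ) (M A0 : ℝ) (hM : 1 ≤ M)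
    (hA0 : 0 ≤ A0) (hMM : ∀ m ∈ MM, M < (m : ℝ) ∧ (m : ℝ) ≤ 2 * M) (hc : ∀ m ∈ MM, ‖c m‖ ≤ A0)
    (p : DirichletCharacter ℂ q × ℤ) : ‖alm q MM c M p‖ ≤ 2 * A0 * M := by
  unfold alm
  calc ‖∑ m ∈ MM.filter (fun m => Nat.Coprime m q),
        (starRingEnd ℂ) (c m) * p.1 (m : ZMod q) * ee ((p.2 : ℝ) * (Real.log (m / M) / 2))‖
      ≤ ∑ m ∈ MM.filter (fun m => Nat.Coprime m q), A0 := by
        refine (norm_sum_le _ _).trans (Finset.sum_le_sum fun m hm => ?_)
        rw [norm_mul, norm_mul, se_norm, mul_one, RCLike.norm_conj]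
        have h1 : ‖p.1 (m : ZMod q)‖ ≤ 1 := DirichletCharacter.norm_le_one _ _
        have h2 := hc m (Finset.mem_filter.1 hm).1
        calc ‖c m‖ * ‖p.1 (m : ZMod q)‖ ≤ A0 * 1 :=
              mul_le_mul h2 h1 (norm_nonneg _) hA0
          _ = A0 := mul_one _
    _ = ((MM.filter (fun m => Nat.Coprime m q)).card : ℝ) * A0 := by
        rw [Finset.sum_const, nsmul_eq_mul]
    _ ≤ (2 * M) * A0 := mul_le_mul_of_nonneg_right (card_MM q M MM hM hMM) hA0
    _ = 2 * A0 * M := by ring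

end Pool.MP_dd84fd_nt.JXP
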