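import Pool.Agent.Lib.MP_dd84fd_nt.PL.Struct

/-!
# PL_J-LvTail: decay of the Fourier coefficients of `Bt`

`fc (Bt q B r y) j = ∫_0^1 g(t) e(jt) dt`, `g(t) = B(y/q + r e^{2t})` (`Int.fract t = t` for `0 ≤ t < 1`), `g' = B'(..) 2 r e^{2t}`,
`∫_0^1 |g'| ≤ |r| Bs' (e² - 1) ≤ 7 |r| Bs'`.  Integration by parts with `e(jt) = (e(jt)/(2πij))'`
(`intervalIntegral.integral_mul_deriv_eq_deriv_mul`): `|fc| ≤ (2 Bs + 7 |r| Bs')/(2π|j|) ≤ (Bs + 3 |r| Bs')/|j|`;
`fq` is an average of `φ(q)` such coefficients (`χ y = 0` for non-units).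
`tp K c`: derivative `∑ c_k (2πik) e(kx)`, bounded by `2πK Bs ≤ 7 K Bs`.
-/

set_option autoImplicit false

namespace Pool.MP_dd84fd_nt.JXP

open Finset Pool.MP_67663b_nt.Odd Pool.MP_dd84fd_nt.PL

private theorem se_norm (x : ℝ) : ‖ee x‖ = 1 := by
  unfold ee
  rw [show (2 * (Real.pi : ℂ) * (x : ℂ) * Complex.I) = ((2 * Real.pi * x : ℝ) : ℂ) * Complex.I by
    push_cast; ring]
  exact Complex.norm_exp_ofReal_mul_I _

private theorem ee_deriv (a x : ℝ) :
    HasDerivAt (fun t : ℝ => ee (a * t)) (2 * (Real.pi : ℂ) * (a : ℂ) * Complex.I * ee (a * x)) x := by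
  unfold ee
  have h1 : HasDerivAt (fun t : ℝ => (2 * (Real.pi : ℂ) * ((a * t : ℝ) : ℂ) * Complex.I))
      (2 * (Real.pi : ℂ) * (a : ℂ) * Complex.I) x := by
    have h0 : HasDerivAt (fun t : ℝ => ((a * t : ℝ) : ℂ)) ((a : ℝ) : ℂ) x := by
      have := ((hasDerivAt_id x).const_mul a).ofReal_comp
      simpa using this
    exact (h0.const_mul (2 * (Real.pi : ℂ))).mul_const Complex.I
  have h2 := h1.cexp
  convert h2 using 1
  ring

private theorem ee_cont (a : ℝ) : Continuous fun t : ℝ => ee (a * t) :=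
  continuous_iff_continuousAt.2 fun x => (ee_deriv a x).continuousAt

/-- decay of one Fourier coefficient -/
private theorem fc_tail (q : ℕ) [NeZero q] (B B' : ℝ → ℂ) (hB : ∀ x, HasDerivAt B (B' x) x)
    (hB' : Continuous B') (Bs Bs' r : ℝ) (h1 : ∀ x, ‖B x‖ ≤ Bs) (h2 : ∀ x, ‖B' x‖ ≤ Bs')
    (y : ZMod q) (j : ℤ) (hj : j ≠ 0) :
    ‖fc (Bt q B r y) j‖ ≤ (Bs + 3 * |r| * Bs') / |(j : ℝ)| := by
  have hBs : 0 ≤ Bs := le_trans (norm_nonneg _) (h1 0)
  have hBs' : 0 ≤ Bs' := le_trans (norm_nonneg _) (h2 0)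
  have hjr : (j : ℝ) ≠ 0 := by exact_mod_cast hj
  have hja : 0 < |(j : ℝ)| := abs_pos.2 hjr
  have hpi : (3.14 : ℝ) < Real.pi := Real.pi_gt_d2
  set s : ℝ := (y.val : ℝ) / q with hs
  set g : ℝ → ℂ := fun t => B (s + r * Real.exp (2 * t)) with hg
  set g' : ℝ → ℂ := fun t => ((r * (Real.exp (2 * t) * 2) : ℝ) : ℂ) * B' (s + r * Real.exp (2 * t))
    with hg'
  have hin : ∀ t : ℝ, HasDerivAt (fun t : ℝ => s + r * Real.exp (2 * t))
      (r * (Real.exp (2 * t) * 2)) t := by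
    intro t
    have ha : HasDerivAt (fun t : ℝ => 2 * t) 2 t := by
      simpa using (hasDerivAt_id t).const_mul (2 : ℝ)
    have hb := (ha.exp.const_mul r).const_add s
    exact hb
  have hgd : ∀ t : ℝ, HasDerivAt g (g' t) t := by
    intro t
    have h := (hB (s + r * Real.exp (2 * t))).scomp t (hin t)
    simp only [hg, hg']
    rw [← Complex.real_smul]
    exact h
  have hg'c : Continuous g' := by
    simp only [hg']
    have hc1 : Continuous fun t : ℝ => Real.exp (2 * t) :=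
      Real.continuous_exp.comp (continuous_const.mul continuous_id)
    refine Continuous.mul ?_ ?_
    · exact Complex.continuous_ofReal.comp (continuous_const.mul (hc1.mul continuous_const))
    · exact hB'.comp (continuous_const.add (continuous_const.mul hc1))
  set d : ℂ := 2 * (Real.pi : ℂ) * (j : ℂ) * Complex.I with hd
  have hdn : ‖d‖ = 2 * Real.pi * |(j : ℝ)| := by
    rw [hd, norm_mul, norm_mul, norm_mul, Complex.norm_I, mul_one, Complex.norm_real,
      Real.norm_eq_abs, abs_of_pos Real.pi_pos, Complex.norm_ofNat, Complex.norm_intCast]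
  have hdpos : 0 < ‖d‖ := by rw [hdn]; positivity
  have hd0 : d ≠ 0 := norm_pos_iff.1 hdpos
  set v : ℝ → ℂ := fun t => ee ((j : ℝ) * t) / d with hv
  have hvd : ∀ t : ℝ, HasDerivAt v (ee ((j : ℝ) * t)) t := by
    intro t
    have h := (ee_deriv (j : ℝ) t).div_const d
    have h3 : 2 * (Real.pi : ℂ) * ((j : ℝ) : ℂ) * Complex.I * ee ((j : ℝ) * t) / d =
        ee ((j : ℝ) * t) := by
      rw [div_eq_iff hd0, hd]
      push_cast
      ring
    rw [h3] at h
    exact h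
  have hvn : ∀ t : ℝ, ‖v t‖ = 1 / ‖d‖ := by
    intro t
    simp only [hv]
    rw [norm_div, se_norm]
  -- the coefficient as an integral of `g`
  have hfc : fc (Bt q B r y) j = ∫ t in (0 : ℝ)..1, g t * ee ((j : ℝ) * t) := by
    unfold fc
    refine intervalIntegral.integral_congr_ae ?_
    have hne : ∀ᵐ t : ℝ, t ≠ 1 := by
      rw [MeasureTheory.ae_iff]
      simp
    filter_upwards [hne] with t ht htm
    rw [Set.uIoc_of_le zero_le_one] at htm
    have hfr : Int.fract t = t := Int.fract_eq_self.2 ⟨htm.1.le, lt_of_le_of_ne htm.2 ht⟩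
    unfold Bt
    rw [hfr]
  have hparts : ∫ t in (0 : ℝ)..1, g t * ee ((j : ℝ) * t) =
      g 1 * v 1 - g 0 * v 0 - ∫ t in (0 : ℝ)..1, g' t * v t := by
    refine intervalIntegral.integral_mul_deriv_eq_deriv_mul (fun t _ => hgd t) (fun t _ => hvd t)
      (hg'c.intervalIntegrable 0 1) ((ee_cont (j : ℝ)).intervalIntegrable 0 1)
  have hint : ‖∫ t in (0 : ℝ)..1, g' t * v t‖ ≤ (|r| * 15 * Bs' / ‖d‖) * |(1 : ℝ) - 0| := by
    refine intervalIntegral.norm_integral_le_of_norm_le_const fun t ht => ?_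
    rw [Set.uIoc_of_le zero_le_one] at ht
    rw [norm_mul, hvn]
    simp only [hg']
    rw [norm_mul, Complex.norm_real, Real.norm_eq_abs, abs_mul]
    have he : Real.exp (2 * t) ≤ 7.5 := by
      have h3 : Real.exp (2 * t) ≤ Real.exp 2 := Real.exp_le_exp.2 (by linarith [ht.2])
      have h4 : Real.exp 2 = Real.exp 1 * Real.exp 1 := by rw [← Real.exp_add]; norm_num
      have h5 := Real.exp_one_lt_d9
      have h6 : 0 < Real.exp 1 := Real.exp_pos 1
      nlinarith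
    have he2 : |Real.exp (2 * t) * 2| ≤ 15 := by
      rw [abs_of_pos (by positivity)]
      linarith
    have h7 : |r| * |Real.exp (2 * t) * 2| * ‖B' (s + r * Real.exp (2 * t))‖ ≤ |r| * 15 * Bs' := by
      refine mul_le_mul (mul_le_mul_of_nonneg_left he2 (abs_nonneg r)) (h2 _) (norm_nonneg _) ?_
      positivity
    calc |r| * |Real.exp (2 * t) * 2| * ‖B' (s + r * Real.exp (2 * t))‖ * (1 / ‖d‖)
        ≤ (|r| * 15 * Bs') * (1 / ‖d‖) := mul_le_mul_of_nonneg_right h7 (by positivity)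
      _ = |r| * 15 * Bs' / ‖d‖ := by ring
  have hn1 : ‖g 1 * v 1‖ ≤ Bs / ‖d‖ := by
    rw [norm_mul, hvn]
    have : ‖g 1‖ ≤ Bs := h1 _
    calc ‖g 1‖ * (1 / ‖d‖) ≤ Bs * (1 / ‖d‖) := mul_le_mul_of_nonneg_right this (by positivity)
      _ = Bs / ‖d‖ := by ring
  have hn0 : ‖g 0 * v 0‖ ≤ Bs / ‖d‖ := by
    rw [norm_mul, hvn]
    have : ‖g 0‖ ≤ Bs := h1 _
    calc ‖g 0‖ * (1 / ‖d‖) ≤ Bs * (1 / ‖d‖) := mul_le_mul_of_nonneg_right this (by positivity)
      _ = Bs / ‖d‖ := by ring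
  rw [hfc, hparts]
  have hsum : ‖g 1 * v 1 - g 0 * v 0 - ∫ t in (0 : ℝ)..1, g' t * v t‖ ≤
      Bs / ‖d‖ + Bs / ‖d‖ + (|r| * 15 * Bs' / ‖d‖) * |(1 : ℝ) - 0| :=
    (norm_sub_le _ _).trans (add_le_add ((norm_sub_le _ _).trans (add_le_add hn1 hn0)) hint)
  refine hsum.trans ?_
  rw [sub_zero, abs_one, mul_one, ← add_div, ← add_div, hdn, div_le_div_iff₀ (by positivity) hja]
  have hr0 : 0 ≤ |r| * Bs' := mul_nonneg (abs_nonneg r) hBs'
  have h8 : Bs + Bs + |r| * 15 * Bs' ≤ (Bs + 3 * |r| * Bs') * (2 * Real.pi) := by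
    nlinarith [mul_nonneg hBs (sub_nonneg.2 hpi.le), mul_nonneg hr0 (sub_nonneg.2 hpi.le)]
  calc (Bs + Bs + |r| * 15 * Bs') * |(j : ℝ)|
      ≤ ((Bs + 3 * |r| * Bs') * (2 * Real.pi)) * |(j : ℝ)| :=
        mul_le_mul_of_nonneg_right h8 hja.le
    _ = (Bs + 3 * |r| * Bs') * (2 * Real.pi * |(j : ℝ)|) := by ring

theorem fq_Bt_tail (q : ℕ) [NeZero q] (B B' : ℝ → ℂ) (hB : ∀ x, HasDerivAt B (B' x) x)
    (hB' : Continuous B') (Bs Bs' r : ℝ) (h1 : ∀ x, ‖B x‖ ≤ Bs) (h2 : ∀ x, ‖B' x‖ ≤ Bs')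
    (χ : DirichletCharacter ℂ q) (j : ℤ) (hj : j ≠ 0) :
    ‖fq q (Bt q B r) χ j‖ ≤ (Bs + 3 * |r| * Bs') / |(j : ℝ)| := by
  classical
  have hBs : 0 ≤ Bs := le_trans (norm_nonneg _) (h1 0)
  have hBs' : 0 ≤ Bs' := le_trans (norm_nonneg _) (h2 0)
  set C : ℝ := (Bs + 3 * |r| * Bs') / |(j : ℝ)| with hC
  have hC0 : 0 ≤ C := by rw [hC]; positivity
  have hφ : (0 : ℝ) < Nat.totient q := by
    exact_mod_cast Nat.totient_pos.2 (Nat.pos_of_ne_zero (NeZero.ne q))
  unfold fq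
  rw [norm_mul, norm_div, norm_one, Complex.norm_natCast]
  have hsum : ‖∑ x : ZMod q, χ x * fc (Bt q B r x) j‖ ≤ (Nat.totient q : ℝ) * C := by
    have hcard : ((univ.filter (fun x : ZMod q => IsUnit x)).card : ℝ) = Nat.totient q := by
      have h3 : (univ.filter (fun x : ZMod q => IsUnit x)).card = Nat.totient q := by
        rw [← ZMod.card_units_eq_totient q, ← Finset.card_univ,
          ← Finset.card_image_of_injective (univ : Finset (ZMod q)ˣ) Units.val_injective]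
        congr 1
        ext x
        simp only [Finset.mem_filter, Finset.mem_univ, true_and, Finset.mem_image]
        exact Iff.rfl
      exact_mod_cast h3
    have h4 : ‖∑ x : ZMod q, χ x * fc (Bt q B r x) j‖ ≤
        ∑ x : ZMod q, if IsUnit x then C else 0 := by
      refine (norm_sum_le _ _).trans (Finset.sum_le_sum fun x _ => ?_)
      split_ifs with hx
      · rw [norm_mul]
        have h5 : ‖χ x‖ ≤ 1 := DirichletCharacter.norm_le_one χ x
        have h6 := fc_tail q B B' hB hB' Bs Bs' r h1 h2 x j hj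
        calc ‖χ x‖ * ‖fc (Bt q B r x) j‖ ≤ 1 * C :=
              mul_le_mul h5 h6 (norm_nonneg _) zero_le_one
          _ = C := one_mul C
      · rw [MulChar.map_nonunit _ hx, zero_mul, norm_zero]
    rw [← Finset.sum_filter, Finset.sum_const, nsmul_eq_mul, hcard] at h4
    exact h4
  calc 1 / (Nat.totient q : ℝ) * ‖∑ x : ZMod q, χ x * fc (Bt q B r x) j‖
      ≤ 1 / (Nat.totient q : ℝ) * ((Nat.totient q : ℝ) * C) :=
        mul_le_mul_of_nonneg_left hsum (by positivity)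
    _ = C := by field_simp

theorem fq_tp_tail (q : ℕ) [NeZero q] (K : ℕ) (c : ℕ → ℂ) (Bs r : ℝ)
    (hc : ∑ k ∈ Icc 1 K, ‖c k‖ ≤ Bs) (χ : DirichletCharacter ℂ q) (j : ℤ) (hj : j ≠ 0) :
    ‖fq q (Bt q (tp K c) r) χ j‖ ≤ Bs * (1 + 21 * |r| * K) / |(j : ℝ)| := by
  set T' : ℝ → ℂ := fun x =>
    ∑ k ∈ Icc 1 K, c k * (2 * (Real.pi : ℂ) * ((k : ℝ) : ℂ) * Complex.I * ee ((k : ℝ) * x)) with hT'
  have hd : ∀ x, HasDerivAt (tp K c) (T' x) x := by
    intro x
    have h := HasDerivAt.fun_sum (u := Icc 1 K) (A := fun k (t : ℝ) => c k * ee ((k : ℝ) * t))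
      (A' := fun k => c k * (2 * (Real.pi : ℂ) * ((k : ℝ) : ℂ) * Complex.I * ee ((k : ℝ) * x)))
      (x := x) (fun k _ => (ee_deriv (k : ℝ) x).const_mul (c k))
    exact h
  have hcont : Continuous T' := by
    simp only [hT']
    refine continuous_finsetSum _ fun k _ => ?_
    exact continuous_const.mul (continuous_const.mul (ee_cont (k : ℝ)))
  have hb1 : ∀ x, ‖tp K c x‖ ≤ Bs := by
    intro x
    unfold tp
    refine (norm_sum_le _ _).trans (le_trans (Finset.sum_le_sum fun k _ => ?_) hc)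
    rw [norm_mul, se_norm, mul_one]
  have hb2 : ∀ x, ‖T' x‖ ≤ 7 * K * Bs := by
    intro x
    simp only [hT']
    have h3 : ∑ k ∈ Icc 1 K, ‖c k‖ * (7 * (K : ℝ)) ≤ 7 * K * Bs := by
      rw [← Finset.sum_mul]
      have h7 : (0 : ℝ) ≤ 7 * (K : ℝ) := by positivity
      nlinarith [mul_le_mul_of_nonneg_right hc h7]
    refine (norm_sum_le _ _).trans (le_trans (Finset.sum_le_sum fun k hk => ?_) h3)
    rw [norm_mul]
    refine mul_le_mul_of_nonneg_left ?_ (norm_nonneg _)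
    rw [norm_mul, norm_mul, norm_mul, norm_mul, Complex.norm_I, se_norm, mul_one, mul_one,
      Complex.norm_real, Complex.norm_real, Real.norm_eq_abs, abs_of_pos Real.pi_pos,
      Real.norm_eq_abs, Nat.abs_cast, Complex.norm_ofNat]
    have hkK : (k : ℝ) ≤ K := by exact_mod_cast (Finset.mem_Icc.1 hk).2
    have hk0 : (0 : ℝ) ≤ k := by positivity
    have hpi : Real.pi < 3.15 := Real.pi_lt_d2
    have hpp := Real.pi_pos
    nlinarith
  have h := fq_Bt_tail q (tp K c) T' hd hcont Bs (7 * K * Bs) r hb1 hb2 χ j hj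
  refine h.trans (le_of_eq ?_)
  congr 1
  ring

end Pool.MP_dd84fd_nt.JXP
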