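import Pool.Agent.Lib.MP_dd84fd_nt.HX.PlTwo
import Pool.Agent.Lib.MP_dd84fd_nt.JX.LvPow
import Pool.Agent.Lib.MP_dd84fd_nt.JX.LvTail
import Pool.Agent.Lib.MP_dd84fd_nt.JX.LvStr
import Pool.Agent.Lib.MP_dd84fd_nt.JX.LvSplit

/-!
# PL_J-LvOne: type II against type II for one modulus, with large values

`lv_split` for `cvf`: `α_i = |alm_i| ≤ R_i = 2 Am M_i`, `V_i = v Am M_i`, `β_i = |fq (Bt ..)|`, `lv_coset`:
`(Am/V_i)^(2k) M_i^(2k) = v^(-2k)`; `J0 = X^40`, `J = X^200`, `W = 100 X^4`, `Bd = 4X^4`.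
-/

set_option autoImplicit false

namespace Pool.MP_dd84fd_nt.JXP

open Finset Pool.MP_67663b_nt.Odd Pool.MP_dd84fd_nt.PL Pool.MP_dd84fd_nt.HXP

/-- numerical part of the large values bound -/
theorem lo_ab (C v D M Am ρ φ h β : ℝ) (k : ℕ) (hC : 0 < C) (hv : 0 < v) (hM : 1 ≤ M)
    (hAm : 0 < Am) (hρ : |ρ| ≤ β) (hφ0 : 0 ≤ φ) (hφ : φ ≤ h) (hβ : 0 < β)
    (hh : h * (1 + β) ≤ M ^ k) :
    (C * (Am / (v * Am * M)) ^ (2 * k) * D ^ 2 * M ^ k * φ) * (1 + |ρ|) +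
      C * (Am / (v * Am * M)) ^ (2 * k) * D ^ 2 * M ^ k * M ^ k ≤ 2 * C * (D ^ 2 / v ^ (2 * k)) := by
  have hM0 : 0 < M := by linarith
  have e1 : (Am / (v * Am * M)) ^ (2 * k) = 1 / (v ^ (2 * k) * (M ^ k * M ^ k)) := by
    have : Am / (v * Am * M) = 1 / (v * M) := by field_simp
    rw [this, div_pow, one_pow, mul_pow, ← pow_add]
    congr 3
    ring
  have hMk : 0 < M ^ k := by positivity
  have hvk : 0 < v ^ (2 * k) := by positivity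
  rw [e1]
  have e2 : (C * (1 / (v ^ (2 * k) * (M ^ k * M ^ k))) * D ^ 2 * M ^ k * φ) * (1 + |ρ|) +
      C * (1 / (v ^ (2 * k) * (M ^ k * M ^ k))) * D ^ 2 * M ^ k * M ^ k =
      C * (D ^ 2 / v ^ (2 * k)) * (φ * (1 + |ρ|) / M ^ k + 1) := by
    field_simp
  rw [e2]
  have h3 : φ * (1 + |ρ|) / M ^ k ≤ 1 := by
    rw [div_le_one hMk]
    refine le_trans ?_ hh
    exact mul_le_mul hφ (by linarith) (by positivity) (hφ0.trans hφ)
  calc C * (D ^ 2 / v ^ (2 * k)) * (φ * (1 + |ρ|) / M ^ k + 1) ≤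
      C * (D ^ 2 / v ^ (2 * k)) * 2 := by
        refine mul_le_mul_of_nonneg_left (by linarith) (by positivity)
    _ = _ := by ring

/-- numerical part: the main terms -/
theorem lo_main (C0 C1 L κ φ S1 S2 z Am M1 M2 P1 P2 G s1 s2 v : ℝ) (hC0 : 0 < C0) (hC1 : 0 < C1)
    (hL : 1 ≤ L) (hκ : 0 ≤ κ) (hz : φ * Real.sqrt (S1 * S2) = z) (hz0 : 0 ≤ z)
    (hM1 : 0 < M1) (hM2 : 0 < M2) (hP10 : 0 ≤ P1) (hP20 : 0 ≤ P2) (hG : 0 ≤ G)
    (hP1 : P1 ≤ 2 * C1 * G) (hP2 : P2 ≤ 2 * C1 * G) (hs : 0 < s1) (hs2 : 0 < s2)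
    (hss : s2 ≤ 2 * s1) (hv : 0 ≤ v) :
    C0 * (1 + 200 * L) * κ * φ * Real.sqrt (S1 * S2) * (2 * Am * M1 * (2 * Am * M2)) *
      Real.sqrt (P1 * P2) / s1 +
      C0 * φ * (v * Am * M1 * (2 * Am * M2) + v * Am * M2 * (2 * Am * M1)) * Real.sqrt (S1 * S2) ≤
    C0 * (4000 + 3300 * C1) * L * (Am ^ 2 * (M1 * M2)) * z * (κ / s2 * G + v) := by
  have hA : 0 ≤ Am ^ 2 * (M1 * M2) := by positivity
  have hsq : Real.sqrt (P1 * P2) ≤ 2 * C1 * G := by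
    rw [Real.sqrt_le_left (by positivity), sq]
    exact mul_le_mul hP1 hP2 hP20 (by positivity)
  have h1 : Real.sqrt (P1 * P2) / s1 ≤ 4 * C1 * (G / s2) := by
    have h3 : 1 / s1 ≤ 2 / s2 := by
      rw [div_le_div_iff₀ hs hs2]
      linarith
    calc Real.sqrt (P1 * P2) / s1 = Real.sqrt (P1 * P2) * (1 / s1) := by ring
      _ ≤ (2 * C1 * G) * (2 / s2) := mul_le_mul hsq h3 (by positivity) (by positivity)
      _ = _ := by ring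
  have e1 : C0 * (1 + 200 * L) * κ * φ * Real.sqrt (S1 * S2) * (2 * Am * M1 * (2 * Am * M2)) *
      Real.sqrt (P1 * P2) / s1 =
      4 * C0 * (1 + 200 * L) * κ * z * (Am ^ 2 * (M1 * M2)) * (Real.sqrt (P1 * P2) / s1) := by
    rw [← hz]
    ring
  have e2 : C0 * φ * (v * Am * M1 * (2 * Am * M2) + v * Am * M2 * (2 * Am * M1)) *
      Real.sqrt (S1 * S2) = 4 * C0 * v * z * (Am ^ 2 * (M1 * M2)) := by
    rw [← hz]
    ring
  have hGs : 0 ≤ G / s2 := by positivity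
  rw [e1, e2]
  have p1 : 4 * C0 * (1 + 200 * L) * κ * z * (Am ^ 2 * (M1 * M2)) * (Real.sqrt (P1 * P2) / s1) ≤
      C0 * (4000 + 3300 * C1) * L * (Am ^ 2 * (M1 * M2)) * z * (κ / s2 * G) := by
    have hnn : 0 ≤ C0 * κ * z * (Am ^ 2 * (M1 * M2)) := by positivity
    calc 4 * C0 * (1 + 200 * L) * κ * z * (Am ^ 2 * (M1 * M2)) * (Real.sqrt (P1 * P2) / s1) ≤
        4 * C0 * (201 * L) * κ * z * (Am ^ 2 * (M1 * M2)) * (4 * C1 * (G / s2)) := by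
          refine mul_le_mul ?_ h1 (by positivity) (by positivity)
          refine mul_le_mul_of_nonneg_right (mul_le_mul_of_nonneg_right
            (mul_le_mul_of_nonneg_right (mul_le_mul_of_nonneg_left (by linarith)
              (by positivity)) hκ) hz0) hA
      _ = (3216 * C1) * ((C0 * κ * z * (Am ^ 2 * (M1 * M2))) * L * (G / s2)) := by ring
      _ ≤ (4000 + 3300 * C1) * ((C0 * κ * z * (Am ^ 2 * (M1 * M2))) * L * (G / s2)) := by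
          refine mul_le_mul_of_nonneg_right (by linarith) ?_
          have : 0 ≤ L := by linarith
          positivity
      _ = _ := by ring
  have p2 : 4 * C0 * v * z * (Am ^ 2 * (M1 * M2)) ≤
      C0 * (4000 + 3300 * C1) * L * (Am ^ 2 * (M1 * M2)) * z * v := by
    have hnn : 0 ≤ C0 * v * z * (Am ^ 2 * (M1 * M2)) := by positivity
    have h4 : 4 ≤ (4000 + 3300 * C1) * L := by nlinarith
    calc 4 * C0 * v * z * (Am ^ 2 * (M1 * M2)) = 4 * (C0 * v * z * (Am ^ 2 * (M1 * M2))) := by ring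
      _ ≤ ((4000 + 3300 * C1) * L) * (C0 * v * z * (Am ^ 2 * (M1 * M2))) :=
          mul_le_mul_of_nonneg_right h4 hnn
      _ = _ := by ring
  calc _ ≤ C0 * (4000 + 3300 * C1) * L * (Am ^ 2 * (M1 * M2)) * z * (κ / s2 * G) +
      C0 * (4000 + 3300 * C1) * L * (Am ^ 2 * (M1 * M2)) * z * v := add_le_add p1 p2
    _ = _ := by ring

/-- numerical part: the tails -/
theorem lo_tail (C0 C1 X φ q Am M1 M2 s1 s2 J0 J : ℝ) (hC0 : 0 < C0) (hC1 : 0 < C1) (hX : 1 ≤ X)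
    (hφ0 : 0 ≤ φ) (hφ : φ ≤ X) (hq0 : 0 ≤ q) (hq : q ≤ X) (hAm : 0 < Am) (hAmX : Am ≤ X)
    (hM1 : 0 < M1) (hM1X : M1 ≤ X) (hM2 : 0 < M2) (hM2X : M2 ≤ X)
    (hs1 : s1 ≤ 2 * X ^ 2) (hs2 : s2 ≤ 2 * X ^ 2) (hs10 : 0 ≤ s1) (hs20 : 0 ≤ s2)
    (hJ0 : J0 = X ^ 40) (hJ : J = X ^ 200) :
    C0 * φ * (2 * Am * M1 * (2 * Am * M2) * (100 * X ^ 4) * Real.sqrt (q / J0)) * (s1 + s2) +
      C0 * φ * (q * (2 * J0 + 1) * (4 * X ^ 4)) ^ 2 / Real.sqrt J ≤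
    2 * (C0 * (4000 + 3300 * C1) / (4 * X ^ 3)) := by
  have hX0 : 0 < X := by linarith
  have eJ : Real.sqrt J = X ^ 100 := by
    rw [hJ, show X ^ 200 = (X ^ 100) ^ 2 by ring, Real.sqrt_sq (by positivity)]
  have eJ0 : Real.sqrt (q / J0) ≤ X / X ^ 20 := by
    rw [Real.sqrt_le_left (by positivity), hJ0, div_pow]
    have e : (X ^ 20) ^ 2 = X ^ 40 := by ring
    rw [e]
    refine div_le_div_of_nonneg_right ?_ (by positivity)
    nlinarith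
  have hp : ∀ a b : ℕ, a ≤ b → X ^ a ≤ X ^ b := fun a b h => pow_le_pow_right₀ hX h
  have t3 : C0 * φ * (2 * Am * M1 * (2 * Am * M2) * (100 * X ^ 4) * Real.sqrt (q / J0)) * (s1 + s2) ≤
      C0 * 1600 / X ^ 3 := by
    calc C0 * φ * (2 * Am * M1 * (2 * Am * M2) * (100 * X ^ 4) * Real.sqrt (q / J0)) * (s1 + s2) ≤
        C0 * X * (2 * X * X * (2 * X * X) * (100 * X ^ 4) * (X / X ^ 20)) * (2 * X ^ 2 + 2 * X ^ 2) := by
          gcongr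
      _ = C0 * 1600 * (X ^ 12 / X ^ 20) := by ring
      _ ≤ C0 * 1600 * (1 / X ^ 3) := by
          refine mul_le_mul_of_nonneg_left ?_ (by positivity)
          rw [div_le_div_iff₀ (by positivity) (by positivity), one_mul, ← pow_add]
          exact hp _ _ (by norm_num)
      _ = _ := by ring
  have t4 : C0 * φ * (q * (2 * J0 + 1) * (4 * X ^ 4)) ^ 2 / Real.sqrt J ≤ C0 * 144 / X ^ 3 := by
    rw [eJ, hJ0]
    have h40 : 2 * X ^ 40 + 1 ≤ 3 * X ^ 40 := by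
      have := one_le_pow₀ (n := 40) hX
      linarith
    calc C0 * φ * (q * (2 * X ^ 40 + 1) * (4 * X ^ 4)) ^ 2 / X ^ 100 ≤
        C0 * X * (X * (3 * X ^ 40) * (4 * X ^ 4)) ^ 2 / X ^ 100 := by
          gcongr
      _ = C0 * 144 * (X ^ 91 / X ^ 100) := by ring
      _ ≤ C0 * 144 * (1 / X ^ 3) := by
          refine mul_le_mul_of_nonneg_left ?_ (by positivity)
          rw [div_le_div_iff₀ (by positivity) (by positivity), one_mul, ← pow_add]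
          exact hp _ _ (by norm_num)
      _ = _ := by ring
  have h3 : 0 < X ^ 3 := by positivity
  calc _ ≤ C0 * 1600 / X ^ 3 + C0 * 144 / X ^ 3 := add_le_add t3 t4
    _ ≤ C0 * (4000 + 3300 * C1) / (2 * X ^ 3) := by
        rw [← add_div, div_le_div_iff₀ h3 (by positivity)]
        have : 0 ≤ C0 * C1 * X ^ 3 := by positivity
        nlinarith
    _ = _ := by
        field_simp
        ring

theorem lv_one (k : ℕ) (hk : 1 ≤ k) : ∃ C : ℝ, 0 < C ∧ ∀ (X n q : ℕ) [NeZero q] (β σ : ℝ),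
    16 ≤ X → n ≤ X → X < 2 * n → 0 < β → β ≤ 2 * X → q ≤ X → (σ = 1 ∨ σ = -1) →
    ∀ (M1 M2 Am : ℝ) (K1 K2 : ℕ) (MM1 MM2 : Finset ℕ) (a1 a2 c1 c2 : ℕ → ℂ),
    1 ≤ M1 → 1 ≤ M2 → M1 ≤ X → M2 ≤ X → K1 ≤ X → K2 ≤ X → 0 < Am → Am ≤ X →
    (∀ m ∈ MM1, M1 < (m : ℝ) ∧ (m : ℝ) ≤ 2 * M1) → (∀ m ∈ MM2, M2 < (m : ℝ) ∧ (m : ℝ) ≤ 2 * M2) →
    (∀ m ∈ MM1, ‖a1 m‖ ≤ Am) → (∀ m ∈ MM2, ‖a2 m‖ ≤ Am) →
    ∑ k ∈ Icc 1 K1, ‖c1 k‖ ≤ 2 * (X : ℝ) ^ 2 → ∑ k ∈ Icc 1 K2, ‖c2 k‖ ≤ 2 * (X : ℝ) ^ 2 →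
    ∀ (v D : ℝ), 0 < v → v ≤ 1 → 1 ≤ D →
    (∀ m : ℕ, 1 ≤ m → (m : ℝ) ≤ (2 * M1) ^ k → (m.divisors.card : ℝ) ^ k ≤ D) →
    (∀ m : ℕ, 1 ≤ m → (m : ℝ) ≤ (2 * M2) ^ k → (m.divisors.card : ℝ) ^ k ≤ D) →
    (hq q n : ℝ) * (1 + β) ≤ M1 ^ k → (hq q n : ℝ) * (1 + β) ≤ M2 ^ k →
    ‖Bq X β σ n q (f2f MM1 a1 (tp K1 c1) σ q) (f2f MM2 a2 (tp K2 c2) σ q)‖ ≤
      C * Real.log X * (β / X) * Am ^ 2 * (M1 * M2) *
        (Real.sqrt (∑ r ∈ rr q, ∫ t in (0 : ℝ)..1,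
            ‖tp K1 c1 ((r : ℝ) / q + σ * (M1 * (β / X)) * Real.exp (2 * Int.fract t))‖ ^ 2) *
          Real.sqrt (∑ r ∈ rr q, ∫ t in (0 : ℝ)..1,
            ‖tp K2 c2 ((r : ℝ) / q + σ * (M2 * (β / X)) * Real.exp (2 * Int.fract t))‖ ^ 2)) *
        (ltK (hq q n) / Real.sqrt (1 + β) * (D ^ 2 / v ^ (2 * k)) + v) + C / (X : ℝ) ^ 3 := by
  obtain ⟨C0, hC0, h0⟩ := lv_split
  obtain ⟨C1, hC1, h1⟩ := lv_coset k hk
  refine ⟨C0 * (4000 + 3300 * C1), by positivity, ?_⟩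
  intro X n q _ β σ hX16 hn hnX hβ hβX hqX hσ M1 M2 Am K1 K2 MM1 MM2 a1 a2 c1 c2 hM1 hM2 hM1X hM2X
    hK1 hK2 hAm hAmX hMM1 hMM2 ha1 ha2 hc1 hc2 v D hv hv1 hD hD1 hD2 hhM1 hhM2
  have hX16' : (16 : ℝ) ≤ X := by exact_mod_cast hX16
  have hX : 1 ≤ X := by omega
  have hX0 : (0 : ℝ) < X := by linarith
  have hX1' : (1 : ℝ) ≤ X := by linarith
  have hL1 : 1 ≤ Real.log X := by
    rw [Real.le_log_iff_exp_le hX0]
    linarith [Real.exp_one_lt_d9]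
  have hq1 : 1 ≤ q := Nat.pos_of_ne_zero (NeZero.ne q)
  have hqR : (1 : ℝ) ≤ q := by exact_mod_cast hq1
  have hqXR : (q : ℝ) ≤ X := by exact_mod_cast hqX
  have hd : hq q n ∣ q := Nat.div_dvd_of_dvd (Nat.gcd_dvd_left q n)
  have hh1 : 1 ≤ hq q n := by
    unfold hq
    exact Nat.div_pos (Nat.le_of_dvd hq1 (Nat.gcd_dvd_left q n)) (Nat.gcd_pos_of_pos_left _ hq1)
  have : NeZero (hq q n) := ⟨by omega⟩
  have hM10 : 0 < M1 := by linarith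
  have hM20 : 0 < M2 := by linarith
  -- the inner polynomials
  have hBs : ∀ (K : ℕ) (c : ℕ → ℂ), ∑ k ∈ Icc 1 K, ‖c k‖ ≤ 2 * (X : ℝ) ^ 2 →
      ∀ x, ‖tp K c x‖ ≤ 2 * (X : ℝ) ^ 2 := by
    intro K c hc x
    unfold tp
    refine (norm_sum_le _ _).trans (le_trans (Finset.sum_le_sum fun k _ => ?_) hc)
    rw [norm_mul]
    have h3 : ‖ee ((k : ℝ) * x)‖ = 1 := by
      unfold ee
      rw [Complex.norm_exp]
      simp
    rw [h3, mul_one]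
  have hBs1 := hBs K1 c1 hc1
  have hBs2 := hBs K2 c2 hc2
  obtain ⟨r1, hr1⟩ : ∃ r : ℝ, r = σ * (M1 * (β / X)) := ⟨_, rfl⟩
  obtain ⟨r2, hr2⟩ : ∃ r : ℝ, r = σ * (M2 * (β / X)) := ⟨_, rfl⟩
  have hσ1 : |σ| = 1 := by
    rcases hσ with h | h <;> rw [h] <;> simp
  have hrabs : ∀ M : ℝ, 0 < M → M ≤ X → |σ * (M * (β / X))| ≤ 2 * X := by
    intro M hM hMX
    rw [abs_mul, hσ1, one_mul, abs_of_nonneg (by positivity)]
    calc M * (β / X) ≤ X * (β / X) := mul_le_mul_of_nonneg_right hMX (by positivity)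
      _ = β := by field_simp
      _ ≤ 2 * X := hβX
  -- coefficients
  have hW : ∀ (M : ℝ) (K : ℕ) (c : ℕ → ℂ), 0 < M → M ≤ X → K ≤ X →
      ∑ k ∈ Icc 1 K, ‖c k‖ ≤ 2 * (X : ℝ) ^ 2 →
      ∀ p : DirichletCharacter ℂ q × ℤ, p.2 ≠ 0 →
      ‖fq q (Bt q (tp K c) (σ * (M * (β / X)))) p.1 p.2‖ ≤ 100 * (X : ℝ) ^ 4 / |(p.2 : ℝ)| := by
    intro M K c hM hMX hK hc p hp
    refine (fq_tp_tail q K c (2 * (X : ℝ) ^ 2) (σ * (M * (β / X))) hc p.1 p.2 hp).trans ?_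
    have hj : 0 < |(p.2 : ℝ)| := by
      rw [abs_pos]
      exact_mod_cast hp
    refine div_le_div_of_nonneg_right ?_ hj.le
    have hKR : (K : ℝ) ≤ X := by exact_mod_cast hK
    have h5 : 21 * |σ * (M * (β / X))| * K ≤ 21 * (2 * X) * X := by
      have := hrabs M hM hMX
      gcongr
    calc 2 * (X : ℝ) ^ 2 * (1 + 21 * |σ * (M * (β / X))| * K) ≤
        2 * (X : ℝ) ^ 2 * (1 + 21 * (2 * X) * X) := by gcongr
      _ = 2 * (X : ℝ) ^ 2 + 84 * X ^ 4 := by ring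
      _ ≤ 2 * (X : ℝ) ^ 4 + 84 * X ^ 4 := by
          have : (X : ℝ) ^ 2 ≤ X ^ 4 := pow_le_pow_right₀ hX1' (by norm_num)
          linarith
      _ ≤ 100 * (X : ℝ) ^ 4 := by nlinarith [pow_pos hX0 4]
  -- counting
  have hcount : ∀ (M : ℝ) (MM : Finset ℕ) (a : ℕ → ℂ), 1 ≤ M →
      (∀ m ∈ MM, M < (m : ℝ) ∧ (m : ℝ) ≤ 2 * M) → (∀ m ∈ MM, ‖a m‖ ≤ Am) →
      (∀ m : ℕ, 1 ≤ m → (m : ℝ) ≤ (2 * M) ^ k → (m.divisors.card : ℝ) ^ k ≤ D) →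
      ∀ T : ℕ, 1 ≤ T → ∀ (χ : DirichletCharacter ℂ q) (j0 : ℤ),
      ∑ ξ : DirichletCharacter ℂ (hq q n), ∑ j ∈ Icc (j0 - T) (j0 + T),
        (if v * Am * M < ‖alm q MM a M (DirichletCharacter.changeLevel hd ξ * χ, j)‖ then
          (1 : ℝ) else 0) ≤
        (C1 * (Am / (v * Am * M)) ^ (2 * k) * D ^ 2 * M ^ k * Nat.totient (hq q n)) * T +
          C1 * (Am / (v * Am * M)) ^ (2 * k) * D ^ 2 * M ^ k * M ^ k := by
    intro M MM a hM hMM ha hDM T hT χ j0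
    have h2 := h1 q (hq q n) hd M Am (v * Am * M) D (MM.filter (fun m => Nat.Coprime m q))
      (fun m => (starRingEnd ℂ) (a m)) χ j0 T hM hT hAm.le (by positivity) hD
      (fun m hm => hMM m (Finset.mem_filter.1 hm).1)
      (fun m hm => by rw [RCLike.norm_conj]; exact ha m (Finset.mem_filter.1 hm).1) hDM
    unfold alm
    exact h2.trans (le_of_eq (by ring))
  -- rewrite Bq
  have e1 := Bq_eq X hX β σ hβ n q (f2f MM1 a1 (tp K1 c1) σ q) (f2f MM2 a2 (tp K2 c2) σ q)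
    (cvf q MM1 a1 M1 r1 (tp K1 c1)) (cvf q MM2 a2 M2 r2 (tp K2 c2))
    (fun a' => h2_f2f_cont MM1 a1 K1 c1 σ q a')
    (fun a' => h2_f2f_cont MM2 a2 K2 c2 σ q a')
    (by
      intro a' _ t ht ht'
      rw [hr1]
      exact cvf_eq q MM1 a1 M1 (β / X) σ (tp K1 c1) (by linarith) hMM1 (h2_tp_per K1 c1) a' t ht ht')
    (by
      intro a' _ t ht ht'
      rw [hr2]
      exact cvf_eq q MM2 a2 M2 (β / X) σ (tp K2 c2) (by linarith) hMM2 (h2_tp_per K2 c2) a' t ht ht')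
  rw [e1, norm_mul, Complex.norm_real, Real.norm_of_nonneg (by positivity)]
  set ρ : ℝ := -((n : ℝ) * σ * β / X) with hρ
  have hρe : |ρ| = n * β / X := by
    rw [hρ, abs_neg, abs_div, abs_mul, abs_mul, abs_of_pos hX0, abs_of_pos hβ,
      abs_of_nonneg (Nat.cast_nonneg n), hσ1, mul_one]
  have hρa : |ρ| ≤ β := by
    rw [hρe, div_le_iff₀ hX0]
    have : (n : ℝ) ≤ X := by exact_mod_cast hn
    nlinarith
  have hρb : β ≤ 2 * |ρ| := by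
    rw [hρe, ← mul_div_assoc, le_div_iff₀ hX0]
    have : (X : ℝ) ≤ 2 * n := by exact_mod_cast hnX.le
    nlinarith
  obtain ⟨C3, hC3, hstr⟩ := cvf_struct
  obtain ⟨hgm1, hgb1, -⟩ :=
    hstr q (hq q n) hd M1 Am r1 MM1 a1 (tp K1 c1) _ hM1 hAm.le hMM1 ha1 (h2_tp_cont K1 c1) hBs1
  obtain ⟨hgm2, hgb2, -⟩ :=
    hstr q (hq q n) hd M2 Am r2 MM2 a2 (tp K2 c2) _ hM2 hAm.le hMM2 ha2 (h2_tp_cont K2 c2) hBs2
  have hBd : ∀ M : ℝ, 0 < M → M ≤ X → 2 * M * Am * (2 * (X : ℝ) ^ 2) ≤ 4 * (X : ℝ) ^ 4 := by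
    intro M hM hMX
    calc 2 * M * Am * (2 * (X : ℝ) ^ 2) ≤ 2 * X * X * (2 * (X : ℝ) ^ 2) := by gcongr
      _ = 4 * (X : ℝ) ^ 4 := by ring
  have hpar : ∀ (K : ℕ) (c : ℕ → ℂ) (r : ℝ), ∑ k ∈ Icc 1 K, ‖c k‖ ≤ 2 * (X : ℝ) ^ 2 →
      HasSum (fun p : DirichletCharacter ℂ q × ℤ => ‖fq q (Bt q (tp K c) r) p.1 p.2‖ ^ 2)
      ((1 / (Nat.totient q : ℝ)) * ∑ r' ∈ rr q, ∫ t in (0 : ℝ)..1,
        ‖tp K c ((r' : ℝ) / q + r * Real.exp (2 * Int.fract t))‖ ^ 2) := by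
    intro K c r hc
    have hm : ∀ y : ZMod q, Measurable (Bt q (tp K c) r y) := by
      intro y
      unfold Bt
      refine (h2_tp_cont K c).measurable.comp ?_
      refine measurable_const.add (measurable_const.mul ?_)
      exact Real.measurable_exp.comp (measurable_const.mul measurable_fract)
    have h3 := fq_parseval q (Bt q (tp K c) r) (2 * (X : ℝ) ^ 2) hm (fun y t => hBs K c hc _)
    have h4 : ∑ y ∈ univ.filter (fun y : ZMod q => IsUnit y),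
        ∫ t in (0 : ℝ)..1, ‖Bt q (tp K c) r y t‖ ^ 2 = ∑ r' ∈ rr q, ∫ t in (0 : ℝ)..1,
        ‖tp K c ((r' : ℝ) / q + r * Real.exp (2 * Int.fract t))‖ ^ 2 := by
      rw [← sum_units q (fun r' : ℕ => ∫ t in (0 : ℝ)..1,
        ‖tp K c ((r' : ℝ) / q + r * Real.exp (2 * Int.fract t))‖ ^ 2)]
      rfl
    rwa [h4] at h3
  obtain ⟨Z1, hZ1⟩ : ∃ Z : ℝ, Z = ∑ r' ∈ rr q, ∫ t in (0 : ℝ)..1,
    ‖tp K1 c1 ((r' : ℝ) / q + r1 * Real.exp (2 * Int.fract t))‖ ^ 2 := ⟨_, rfl⟩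
  obtain ⟨Z2, hZ2⟩ : ∃ Z : ℝ, Z = ∑ r' ∈ rr q, ∫ t in (0 : ℝ)..1,
    ‖tp K2 c2 ((r' : ℝ) / q + r2 * Real.exp (2 * Int.fract t))‖ ^ 2 := ⟨_, rfl⟩
  have hp1 := hpar K1 c1 r1 hc1
  have hp2 := hpar K2 c2 r2 hc2
  rw [← hZ1] at hp1
  rw [← hZ2] at hp2
  have hφ : (0 : ℝ) < Nat.totient q := by exact_mod_cast Nat.totient_pos.2 hq1
  have hφq : (Nat.totient q : ℝ) ≤ q := by exact_mod_cast Nat.totient_le q
  have hφX : (Nat.totient q : ℝ) ≤ X := hφq.trans hqXR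
  have hcardrr : ((rr q).card : ℝ) ≤ Nat.totient q := by
    have h3 : ∑ y ∈ univ.filter (fun y : ZMod q => IsUnit y), (1 : ℝ) = ∑ r' ∈ rr q, (1 : ℝ) := by
      rw [← sum_units q (fun _ : ℕ => (1 : ℝ))]
    rw [Finset.sum_const, Finset.sum_const, nsmul_eq_mul, nsmul_eq_mul, mul_one, mul_one] at h3
    rw [← h3]
    have h4 : (univ.filter (fun y : ZMod q => IsUnit y)).card = Nat.totient q := by
      rw [← ZMod.card_units_eq_totient, ← Finset.card_univ,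
        ← Finset.card_map ⟨((↑) : (ZMod q)ˣ → ZMod q), Units.val_injective⟩]
      congr 1
      ext x
      simp only [Finset.mem_filter, Finset.mem_univ, true_and, Finset.mem_map,
        Function.Embedding.coeFn_mk]
      rfl
    rw [h4]
  have hZle : ∀ (K : ℕ) (c : ℕ → ℂ) (r : ℝ), ∑ k ∈ Icc 1 K, ‖c k‖ ≤ 2 * (X : ℝ) ^ 2 →
      ∑ r' ∈ rr q, ∫ t in (0 : ℝ)..1,
        ‖tp K c ((r' : ℝ) / q + r * Real.exp (2 * Int.fract t))‖ ^ 2 ≤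
        Nat.totient q * (2 * (X : ℝ) ^ 2) ^ 2 := by
    intro K c r hc
    calc ∑ r' ∈ rr q, ∫ t in (0 : ℝ)..1,
        ‖tp K c ((r' : ℝ) / q + r * Real.exp (2 * Int.fract t))‖ ^ 2 ≤
        ∑ _r' ∈ rr q, (2 * (X : ℝ) ^ 2) ^ 2 := by
          refine Finset.sum_le_sum fun r' _ => ?_
          have h3 := intervalIntegral.norm_integral_le_of_norm_le_const (a := (0 : ℝ)) (b := 1)
            (C := (2 * (X : ℝ) ^ 2) ^ 2)
            (f := fun t => ‖tp K c ((r' : ℝ) / q + r * Real.exp (2 * Int.fract t))‖ ^ 2)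
            (fun t _ => by
              rw [Real.norm_of_nonneg (by positivity)]
              exact pow_le_pow_left₀ (norm_nonneg _) (hBs K c hc _) 2)
          rw [sub_zero, abs_one, mul_one] at h3
          exact (le_abs_self _).trans h3
      _ = (rr q).card * (2 * (X : ℝ) ^ 2) ^ 2 := by rw [Finset.sum_const, nsmul_eq_mul]
      _ ≤ _ := mul_le_mul_of_nonneg_right hcardrr (by positivity)
  have hZ1le := hZle K1 c1 r1 hc1
  have hZ2le := hZle K2 c2 r2 hc2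
  rw [← hZ1] at hZ1le
  rw [← hZ2] at hZ2le
  have hZ10 : 0 ≤ Z1 := by
    rw [hZ1]
    refine Finset.sum_nonneg fun r' _ => ?_
    refine intervalIntegral.integral_nonneg (by norm_num) fun t _ => by positivity
  have hZ20 : 0 ≤ Z2 := by
    rw [hZ2]
    refine Finset.sum_nonneg fun r' _ => ?_
    refine intervalIntegral.integral_nonneg (by norm_num) fun t _ => by positivity
  obtain ⟨S1, hS1⟩ : ∃ S : ℝ, S = 1 / (Nat.totient q : ℝ) * Z1 := ⟨_, rfl⟩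
  obtain ⟨S2, hS2⟩ : ∃ S : ℝ, S = 1 / (Nat.totient q : ℝ) * Z2 := ⟨_, rfl⟩
  rw [← hS1] at hp1
  rw [← hS2] at hp2
  have hS10 : 0 ≤ S1 := by rw [hS1]; positivity
  have hS20 : 0 ≤ S2 := by rw [hS2]; positivity
  have hSle : ∀ Z : ℝ, Z ≤ Nat.totient q * (2 * (X : ℝ) ^ 2) ^ 2 →
      1 / (Nat.totient q : ℝ) * Z ≤ (2 * (X : ℝ) ^ 2) ^ 2 := by
    intro Z hZ
    rw [one_div, inv_mul_le_iff₀ hφ]
    exact hZ
  have hsS1 : Real.sqrt S1 ≤ 2 * (X : ℝ) ^ 2 := by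
    rw [hS1]
    exact (Real.sqrt_le_sqrt (hSle Z1 hZ1le)).trans (le_of_eq (Real.sqrt_sq (by positivity)))
  have hsS2 : Real.sqrt S2 ≤ 2 * (X : ℝ) ^ 2 := by
    rw [hS2]
    exact (Real.sqrt_le_sqrt (hSle Z2 hZ2le)).trans (le_of_eq (Real.sqrt_sq (by positivity)))
  have hvA1 : 0 ≤ v * Am * M1 := by positivity
  have hvA2 : 0 ≤ v * Am * M2 := by positivity
  have hJ16 : 8 * |ρ| ≤ ((X ^ 200 : ℕ) : ℝ) := by
    push_cast
    calc 8 * |ρ| ≤ 16 * X := by linarith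
      _ ≤ X * X := by nlinarith
      _ = (X : ℝ) ^ 2 := by ring
      _ ≤ (X : ℝ) ^ 200 := pow_le_pow_right₀ hX1' (by norm_num)
  have h2 := h0 q (hq q n) n rfl hd (cvf q MM1 a1 M1 r1 (tp K1 c1)) (cvf q MM2 a2 M2 r2 (tp K2 c2))
    (4 * (X : ℝ) ^ 4) (by positivity) hgm1 hgm2 (fun y t => (hgb1 y t).trans (hBd M1 hM10 hM1X))
    (fun y t => (hgb2 y t).trans (hBd M2 hM20 hM2X))
    (fun p => ‖alm q MM1 a1 M1 p‖) (fun p => ‖fq q (Bt q (tp K1 c1) r1) p.1 p.2‖)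
    (fun p => ‖alm q MM2 a2 M2 p‖) (fun p => ‖fq q (Bt q (tp K2 c2) r2) p.1 p.2‖)
    (fun p => norm_nonneg _) (fun p => norm_nonneg _) (fun p => norm_nonneg _)
    (fun p => norm_nonneg _)
    (fun p => (fq_cvf_norm q MM1 a1 M1 r1 (tp K1 c1) (h2_tp_cont K1 c1) _ hBs1 p).le)
    (fun p => (fq_cvf_norm q MM2 a2 M2 r2 (tp K2 c2) (h2_tp_cont K2 c2) _ hBs2 p).le)
    (2 * Am * M1) (v * Am * M1) (2 * Am * M2) (v * Am * M2) hvA1
    (by nlinarith [mul_pos hAm hM10]) hvA2 (by nlinarith [mul_pos hAm hM20])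
    (fun p => alm_le q MM1 a1 M1 Am hM1 hAm.le hMM1 ha1 p)
    (fun p => alm_le q MM2 a2 M2 Am hM2 hAm.le hMM2 ha2 p)
    (C1 * (Am / (v * Am * M1)) ^ (2 * k) * D ^ 2 * M1 ^ k * Nat.totient (hq q n))
    (C1 * (Am / (v * Am * M1)) ^ (2 * k) * D ^ 2 * M1 ^ k * M1 ^ k)
    (C1 * (Am / (v * Am * M2)) ^ (2 * k) * D ^ 2 * M2 ^ k * Nat.totient (hq q n))
    (C1 * (Am / (v * Am * M2)) ^ (2 * k) * D ^ 2 * M2 ^ k * M2 ^ k) S1 S2
    (by positivity) (by positivity) (by positivity) (by positivity)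
    (fun T hT χ j0 => hcount M1 MM1 a1 hM1 hMM1 ha1 hD1 T hT χ j0)
    (fun T hT χ j0 => hcount M2 MM2 a2 hM2 hMM2 ha2 hD2 T hT χ j0)
    hp1.summable hp1.tsum_eq.le hp2.summable hp2.tsum_eq.le
    (100 * (X : ℝ) ^ 4) (by positivity)
    (fun p hp => by rw [hr1]; exact hW M1 K1 c1 hM10 hM1X hK1 hc1 p hp)
    (fun p hp => by rw [hr2]; exact hW M2 K2 c2 hM20 hM2X hK2 hc2 p hp)
    ρ (X ^ 40) (X ^ 200) (Nat.one_le_pow _ _ hX) (Nat.one_le_pow _ _ hX) hJ16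
  refine (mul_le_mul_of_nonneg_left h2 (by positivity)).trans ?_
  rw [← hr1, ← hr2, ← hZ1, ← hZ2]
  clear h2 hcount hW e1
  have hφh : (0 : ℝ) < Nat.totient (hq q n) := by exact_mod_cast Nat.totient_pos.2 hh1
  have hφh' : (Nat.totient (hq q n) : ℝ) ≤ hq q n := by exact_mod_cast Nat.totient_le _
  have hab1 := lo_ab C1 v D M1 Am ρ (Nat.totient (hq q n)) (hq q n) β k hC1 hv hM1 hAm hρa hφh.le
    hφh' hβ hhM1
  have hab2 := lo_ab C1 v D M2 Am ρ (Nat.totient (hq q n)) (hq q n) β k hC1 hv hM2 hAm hρa hφh.le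
    hφh' hβ hhM2
  have e2 : (Nat.totient q : ℝ) * Real.sqrt (S1 * S2) = Real.sqrt Z1 * Real.sqrt Z2 := by
    have e3 : S1 * S2 = (1 / (Nat.totient q : ℝ)) ^ 2 * (Z1 * Z2) := by
      rw [hS1, hS2]
      ring
    rw [e3, Real.sqrt_mul (by positivity), Real.sqrt_sq (by positivity), Real.sqrt_mul hZ10]
    field_simp
  have hlogJ : Real.log ((X ^ 200 : ℕ) : ℝ) = 200 * Real.log X := by
    push_cast
    rw [Real.log_pow]
    norm_num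
  have hss : Real.sqrt (1 + β) ≤ 2 * Real.sqrt (1 + |ρ|) := by
    rw [Real.sqrt_le_left (by positivity), mul_pow, Real.sq_sqrt (by positivity)]
    linarith [abs_nonneg ρ]
  have m1 := lo_main C0 C1 (Real.log X) (ltK (hq q n)) (Nat.totient q) S1 S2
    (Real.sqrt Z1 * Real.sqrt Z2) Am M1 M2 _ _ (D ^ 2 / v ^ (2 * k)) (Real.sqrt (1 + |ρ|))
    (Real.sqrt (1 + β)) v hC0 hC1 hL1 (ltK_nonneg _) e2 (by positivity) hM10 hM20
    (by positivity) (by positivity) (by positivity)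
    (hab1.trans (le_of_eq (by ring))) (hab2.trans (le_of_eq (by ring)))
    (Real.sqrt_pos.2 (by positivity)) (Real.sqrt_pos.2 (by positivity)) hss hv.le
  have m2 := lo_tail C0 C1 X (Nat.totient q) q Am M1 M2 (Real.sqrt S1) (Real.sqrt S2)
    ((X ^ 40 : ℕ) : ℝ) ((X ^ 200 : ℕ) : ℝ) hC0 hC1 hX1' hφ.le hφX (by linarith) hqXR hAm hAmX hM10
    hM1X hM20 hM2X hsS1 hsS2 (Real.sqrt_nonneg _) (Real.sqrt_nonneg _) (by push_cast; rfl)
    (by push_cast; rfl)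
  rw [hlogJ]
  have hβX2 : β / X ≤ 2 := by
    rw [div_le_iff₀ hX0]
    exact hβX
  have hβX0 : 0 ≤ β / X := by positivity
  have hltK : Real.sqrt ((hq q n : ℝ) * (hq q n).divisors.card) / Nat.totient (hq q n) =
      ltK (hq q n) := rfl
  rw [hltK]
  refine le_trans (le_of_eq ?_) ((add_le_add (mul_le_mul_of_nonneg_left m1 hβX0)
    ((mul_le_mul_of_nonneg_left m2 hβX0).trans (mul_le_mul_of_nonneg_right hβX2
      (by positivity)))).trans (le_of_eq ?_))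
  · ring
  · field_simp
    ring

end Pool.MP_dd84fd_nt.JXP
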