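import Pool.Agent.Lib.MP_dd84fd_nt.JX.Defs
import Pool.Agent.Lib.MP_dd84fd_nt.IY.PrB

/-!
# Theorem J: the decomposition of the primes (helper33)

`DecP` from `IY.dec_wP` with the window `(X^(1/10), X^(th-3e)]`; for `100 e ≤ th - 1/3` the type I
level `ZJ` is `2 X^(1-th+3e)`.
-/

set_option autoImplicit false

namespace Pool.MP_dd84fd_nt.JX

open Finset Pool.MP_67663b_nt.Odd Pool.MP_dd84fd_nt.En Pool.MP_dd84fd_nt.E2 Pool.MP_dd84fd_nt.LS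
open Pool.MP_dd84fd_nt.L2G (nrm)
open Pool.MP_dd84fd_nt.GX Pool.MP_dd84fd_nt.HX Pool.MP_dd84fd_nt.IX
open Pool.MP_dd84fd_nt.PL (rr)

theorem decP : DecP := by
  intro B
  obtain ⟨C, hC⟩ := IY.dec_wP B
  refine ⟨C, fun th e τ hA hth => ?_⟩
  obtain ⟨a1, a2, a3, a4, a5⟩ := hA
  have hb1 : 1 / 3 < th - 3 * e := by linarith
  have hb2 : th - 3 * e < 1 / 2 := by linarith
  obtain ⟨X1, hX1⟩ := hC (1 / 10) (th - 3 * e) (by norm_num) (by linarith) (by linarith) hb1 hb2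
  refine ⟨max X1 1, fun X hX => ?_⟩
  simp only [max_le_iff] at hX
  obtain ⟨b1, b3⟩ := hX
  obtain ⟨I, γ, al, M, K, a, c, err, p1, p2, p3, p4, p5, p6, p7, p8, p9⟩ := hX1 X b1
  have hXr : (1 : ℝ) ≤ X := by exact_mod_cast b3
  have h1 : (X : ℝ) ^ τ ≤ (X : ℝ) ^ (1 / 10 : ℝ) := Real.rpow_le_rpow_of_exponent_le hXr a4
  have hZ : ZJ th e X = 2 * (X : ℝ) ^ (1 - (th - 3 * e)) := by
    unfold ZJ lv
    rw [min_eq_left (by linarith), show 1 - th + 3 * e = 1 - (th - 3 * e) by ring]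
  refine ⟨I, γ, al, M, K, a, c, err, p1, p2, p3, ?_, p5, ?_, p7, p8, p9⟩
  · intro i l hl
    rw [hZ] at hl
    exact p4 i l hl
  · intro i
    obtain ⟨q1, q2, q3⟩ := p6 i
    exact ⟨by linarith, q2, q3⟩

end Pool.MP_dd84fd_nt.JX
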