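import Pool.Agent.Lib.MP_dd84fd_nt.JX.Defs
import Pool.Agent.Lib.MP_dd84fd_nt.GX.Den

/-!
# JX-HtMass: the mean square of `X / ht` on the arcs around the fractions with denominator `q`

`α = a/q + x`, `D = qd X α`, `c = round(D α)`, `v = a D - c q`, `H = ht X α`.
If `v = 0` then `q ∣ D` and `H ≥ max(q, X q |x|)`. If `v ≠ 0` then `|v| ≤ q H (1+r)/X`.
So `(X/H)² ≤ (2X²/q²)/(1+(Xx)²) + Σ_{D ≤ √X} Σ_c [v ≠ 0] 2X²/(T² + X²(Dα - c)²)`, `T = X|v|/(q(1+r))`.
The integral of the term `(D,c)` is at most `2π q (1+r)/(|v| D)`, and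
`Σ_{a < q} Σ_c [v ≠ 0] 1/|v| ≤ 2(1 + log W)`: every `v` has at most `g = gcd(q,D)` preimages `(a,c)`, none
unless `g ∣ v`.
-/

set_option autoImplicit false

namespace Pool.MP_dd84fd_nt.JX

open Finset Pool.MP_67663b_nt.Odd Pool.MP_dd84fd_nt.En Pool.MP_dd84fd_nt.E2 Pool.MP_dd84fd_nt.LS
open Pool.MP_dd84fd_nt.L2G (nrm)
open Pool.MP_dd84fd_nt.GX
open Pool.MP_dd84fd_nt.PL (rr)

open Classical in
private theorem sol_le (q q' : ℕ) (hq : 1 ≤ q) (v : ℤ) :
    ((range q).filter (fun a : ℕ => ∃ b : ℤ, (a : ℤ) * q' - b * q = v)).card ≤ Nat.gcd q q' := by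
  set S := (range q).filter (fun a : ℕ => ∃ b : ℤ, (a : ℤ) * q' - b * q = v) with hS
  set g : ℕ := Nat.gcd q q' with hg
  have hg0 : 0 < g := Nat.gcd_pos_of_pos_left _ (by omega)
  obtain ⟨t, ht⟩ : g ∣ q := Nat.gcd_dvd_left q q'
  obtain ⟨t', ht'⟩ : g ∣ q' := Nat.gcd_dvd_right q q'
  have ht0 : 0 < t := by
    rcases Nat.eq_zero_or_pos t with h | h
    · rw [h, mul_zero] at ht; omega
    · exact h
  have hcop : Nat.Coprime t t' := by
    have h1 := Nat.coprime_div_gcd_div_gcd (m := q) (n := q') hg0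
    rw [← hg] at h1
    have e1 : q / g = t := by
      conv_lhs => rw [ht]
      exact Nat.mul_div_cancel_left t hg0
    have e2 : q' / g = t' := by
      conv_lhs => rw [ht']
      exact Nat.mul_div_cancel_left t' hg0
    rwa [e1, e2] at h1
  rw [← card_range g]
  refine card_le_card_of_injOn (fun a => a / t) ?_ ?_
  · intro a ha
    rw [mem_coe, hS, mem_filter, mem_range] at ha
    rw [mem_coe, mem_range]
    refine Nat.div_lt_of_lt_mul ?_
    rw [mul_comm]
    rw [← ht]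
    exact ha.1
  · intro a ha a' ha' h
    rw [mem_coe, hS, mem_filter, mem_range] at ha ha'
    obtain ⟨-, b, hb⟩ := ha
    obtain ⟨-, b', hb'⟩ := ha'
    simp only at h
    have h1 : ((a : ℤ) - a') * q' = (b - b') * q := by linear_combination hb - hb'
    have h2 : ((a : ℤ) - a') * t' = (b - b') * t := by
      have e1 : (q : ℤ) = g * t := by exact_mod_cast ht
      have e2 : (q' : ℤ) = g * t' := by exact_mod_cast ht'
      rw [e1, e2] at h1
      have hgz : (g : ℤ) ≠ 0 := by exact_mod_cast hg0.ne'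
      apply mul_left_cancel₀ hgz
      linear_combination h1
    have h3 : (t : ℤ) ∣ (a : ℤ) - a' := by
      have h4 : (t : ℤ) ∣ ((a : ℤ) - a') * t' := ⟨b - b', by rw [h2]; ring⟩
      exact IsCoprime.dvd_of_dvd_mul_right (Nat.isCoprime_iff_coprime.2 hcop) h4
    have h5 : (a' : ℤ) ≡ a [ZMOD t] := Int.modEq_iff_dvd.2 h3
    have h6 : a' % t = a % t := by
      have := h5
      rw [Int.natCast_modEq_iff] at this
      exact this
    rw [← Nat.div_add_mod a t, ← Nat.div_add_mod a' t, h, h6]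

private theorem harm (J W : ℕ) (hJ : J ≤ W) (_hW : 1 ≤ W) :
    ∑ w ∈ Icc 1 J, 1 / (w : ℝ) ≤ 1 + Real.log W := by
  have h := harmonic_le_one_add_log W
  rw [harmonic_eq_sum_Icc] at h
  push_cast at h
  calc ∑ w ∈ Icc 1 J, 1 / (w : ℝ) ≤ ∑ w ∈ Icc 1 W, 1 / (w : ℝ) := by
        refine sum_le_sum_of_subset_of_nonneg (Icc_subset_Icc le_rfl hJ) fun w _ _ => by positivity
    _ = ∑ w ∈ Icc 1 W, ((w : ℝ))⁻¹ := sum_congr rfl fun w _ => one_div _
    _ ≤ _ := h

/-- the sum of `1/|v|` over the non vanishing `v = a D - c q` -/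
theorem inv_sum (q D Y W : ℕ) (hq : 1 ≤ q) (hD : 1 ≤ D) (hW : q * D + Y * q ≤ W) :
    ∑ a ∈ range q, ∑ c ∈ Icc (-(Y : ℤ)) Y, (if (a : ℤ) * D - c * q = 0 then (0 : ℝ) else
      1 / |(((a : ℤ) * D - c * q : ℤ) : ℝ)|) ≤ 2 * (1 + Real.log W) := by
  classical
  set g : ℕ := Nat.gcd q D with hg
  have hg0 : 0 < g := Nat.gcd_pos_of_pos_left _ (by omega)
  have hgR : (0 : ℝ) < g := by exact_mod_cast hg0
  have hW1 : 1 ≤ W := le_trans (by nlinarith) hW
  set vf : ℕ × ℤ → ℤ := fun p => (p.1 : ℤ) * D - p.2 * q with hvf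
  set P : Finset (ℕ × ℤ) := ((range q) ×ˢ (Icc (-(Y : ℤ)) Y)).filter (fun p => vf p ≠ 0) with hP
  have e1 : ∑ a ∈ range q, ∑ c ∈ Icc (-(Y : ℤ)) Y, (if (a : ℤ) * D - c * q = 0 then (0 : ℝ) else
      1 / |(((a : ℤ) * D - c * q : ℤ) : ℝ)|) = ∑ p ∈ P, 1 / |((vf p : ℤ) : ℝ)| := by
    rw [hP, sum_filter, sum_product]
    refine sum_congr rfl fun a _ => sum_congr rfl fun c _ => ?_
    simp only [hvf, ne_eq, ite_not]
  rw [e1]
  set T : Finset ℤ := (Icc (-(W : ℤ)) W).erase 0 with hT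
  have hmem : ∀ p ∈ P, ∃ j ∈ T, vf p = g * j := by
    intro p hp
    rw [hP, mem_filter, mem_product, mem_range, mem_Icc] at hp
    obtain ⟨⟨h1, h2, h3⟩, h4⟩ := hp
    have h5 : (g : ℤ) ∣ vf p := by
      have e1 : (g : ℤ) ∣ (q : ℤ) := by exact_mod_cast (Nat.gcd_dvd_left q D)
      have e2 : (g : ℤ) ∣ (D : ℤ) := by exact_mod_cast (Nat.gcd_dvd_right q D)
      exact dvd_sub (Dvd.dvd.mul_left e2 _) (Dvd.dvd.mul_left e1 _)
    obtain ⟨j, hj⟩ := h5
    refine ⟨j, ?_, hj⟩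
    rw [hT, mem_erase, mem_Icc]
    have hj0 : j ≠ 0 := by
      rintro rfl
      exact h4 (by rw [hj, mul_zero])
    have h6 : |vf p| ≤ W := by
      have hW' : ((q * D + Y * q : ℕ) : ℤ) ≤ W := by exact_mod_cast hW
      push_cast at hW'
      have h7 : |vf p| ≤ |(p.1 : ℤ) * D| + |p.2 * q| := abs_sub _ _
      have h8 : |(p.1 : ℤ) * D| ≤ q * D := by
        rw [abs_of_nonneg (by positivity)]
        exact mul_le_mul_of_nonneg_right (by exact_mod_cast h1.le) (by positivity)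
      have h9 : |p.2 * (q : ℤ)| ≤ Y * q := by
        rw [abs_mul, abs_of_nonneg (show (0 : ℤ) ≤ (q : ℤ) by positivity)]
        exact mul_le_mul_of_nonneg_right (abs_le.2 ⟨by linarith, h3⟩) (by positivity)
      linarith
    have h7 : |j| ≤ W := by
      rw [hj, abs_mul, abs_of_pos (by exact_mod_cast hg0 : (0 : ℤ) < g)] at h6
      have h8 : (1 : ℤ) ≤ g := by exact_mod_cast hg0
      nlinarith [abs_nonneg j]
    refine ⟨hj0, ?_, ?_⟩
    · linarith [(abs_le.1 h7).1]
    · exact (abs_le.1 h7).2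
  -- fibres
  have hfib : ∀ j ∈ T, ((P.filter (fun p => vf p = g * j)).card : ℝ) ≤ g := by
    intro j _
    have h1 : (P.filter (fun p => vf p = g * j)).card ≤
        ((range q).filter (fun a : ℕ => ∃ b : ℤ, (a : ℤ) * D - b * q = g * j)).card := by
      refine card_le_card_of_injOn Prod.fst ?_ ?_
      · intro p hp
        rw [mem_coe, mem_filter, hP, mem_filter, mem_product] at hp
        rw [mem_coe, mem_filter]
        exact ⟨hp.1.1.1, p.2, hp.2⟩
      · intro p hp p' hp' h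
        rw [mem_coe, mem_filter] at hp hp'
        have h2 := hp.2
        have h3 := hp'.2
        simp only [hvf] at h2 h3
        have h4 : (p.2 - p'.2) * (q : ℤ) = 0 := by
          rw [h] at h2
          linear_combination h3 - h2
        have h5 : p.2 = p'.2 := by
          rcases mul_eq_zero.1 h4 with h6 | h6
          · linarith
          · exfalso
            have : (q : ℤ) ≠ 0 := by exact_mod_cast (by omega : q ≠ 0)
            exact this h6
        exact Prod.ext h h5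
    exact_mod_cast h1.trans (sol_le q D hq (g * j))
  calc ∑ p ∈ P, 1 / |((vf p : ℤ) : ℝ)|
      ≤ ∑ p ∈ P, ∑ j ∈ T, (if vf p = g * j then 1 / ((g : ℝ) * |(j : ℝ)|) else 0) := by
        refine sum_le_sum fun p hp => ?_
        obtain ⟨j, hj, hv⟩ := hmem p hp
        refine le_trans (le_of_eq ?_) (single_le_sum (f := fun j : ℤ =>
          if vf p = g * j then 1 / ((g : ℝ) * |(j : ℝ)|) else 0) (fun i _ => ?_) hj)
        · rw [if_pos hv, hv]
          push_cast
          rw [abs_mul, abs_of_pos hgR]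
        · split_ifs <;> positivity
    _ = ∑ j ∈ T, ((P.filter (fun p => vf p = g * j)).card : ℝ) * (1 / ((g : ℝ) * |(j : ℝ)|)) := by
        rw [sum_comm]
        refine sum_congr rfl fun j _ => ?_
        rw [← sum_filter, sum_const, nsmul_eq_mul]
    _ ≤ ∑ j ∈ T, 1 / |(j : ℝ)| := by
        refine sum_le_sum fun j hj => ?_
        have hj0 : j ≠ 0 := by
          rw [hT, mem_erase] at hj
          exact hj.1
        have hjR : 0 < |(j : ℝ)| := abs_pos.2 (by exact_mod_cast hj0)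
        calc ((P.filter (fun p => vf p = g * j)).card : ℝ) * (1 / ((g : ℝ) * |(j : ℝ)|))
            ≤ g * (1 / ((g : ℝ) * |(j : ℝ)|)) := mul_le_mul_of_nonneg_right (hfib j hj) (by positivity)
          _ = 1 / |(j : ℝ)| := by field_simp
    _ ≤ ∑ w ∈ Icc 1 W, (1 / (w : ℝ) + 1 / (w : ℝ)) := by
        have hsub : T ⊆ (Icc 1 W).image (fun w : ℕ => (w : ℤ)) ∪
            (Icc 1 W).image (fun w : ℕ => -(w : ℤ)) := by
          intro j hj
          rw [hT, mem_erase, mem_Icc] at hj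
          rw [mem_union, mem_image, mem_image]
          rcases lt_or_gt_of_ne hj.1 with h | h
          · right
            exact ⟨j.natAbs, by rw [mem_Icc]; omega, by omega⟩
          · left
            exact ⟨j.natAbs, by rw [mem_Icc]; omega, by omega⟩
        calc ∑ j ∈ T, 1 / |(j : ℝ)| ≤ ∑ j ∈ (Icc 1 W).image (fun w : ℕ => (w : ℤ)) ∪
              (Icc 1 W).image (fun w : ℕ => -(w : ℤ)), 1 / |(j : ℝ)| :=
              sum_le_sum_of_subset_of_nonneg hsub fun _ _ _ => by positivity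
          _ ≤ ∑ j ∈ (Icc 1 W).image (fun w : ℕ => (w : ℤ)), 1 / |(j : ℝ)| +
              ∑ j ∈ (Icc 1 W).image (fun w : ℕ => -(w : ℤ)), 1 / |(j : ℝ)| := by
              rw [← sum_union_inter]
              have : 0 ≤ ∑ j ∈ (Icc 1 W).image (fun w : ℕ => (w : ℤ)) ∩
                (Icc 1 W).image (fun w : ℕ => -(w : ℤ)), 1 / |(j : ℝ)| :=
                sum_nonneg fun _ _ => by positivity
              linarith
          _ = ∑ w ∈ Icc 1 W, (1 / (w : ℝ) + 1 / (w : ℝ)) := by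
              rw [sum_image (fun a _ b _ h => by simpa using h),
                sum_image (fun a _ b _ h => by simpa using h), ← sum_add_distrib]
              refine sum_congr rfl fun w _ => ?_
              push_cast
              rw [abs_neg, Nat.abs_cast]
    _ = 2 * ∑ w ∈ Icc 1 W, 1 / (w : ℝ) := by
        rw [mul_sum]
        exact sum_congr rfl fun w _ => by ring
    _ ≤ 2 * (1 + Real.log W) := by
        have := harm W W le_rfl hW1
        linarith

/-- the integral of a Poisson kernel -/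
private theorem pois (T β γ s t : ℝ) (hT : 0 < T) (hβ : 0 < β) (_hst : s ≤ t) :
    ∫ x in s..t, 1 / (T ^ 2 + (β * x + γ) ^ 2) ≤ Real.pi / (T * β) := by
  have e1 : ∀ x : ℝ, 1 / (T ^ 2 + (β * x + γ) ^ 2) =
      (1 / T ^ 2) * (1 / (1 + ((β / T) * x + γ / T) ^ 2)) := by
    intro x
    have : (0 : ℝ) < T ^ 2 + (β * x + γ) ^ 2 := by positivity
    have h2 : (0 : ℝ) < 1 + ((β / T) * x + γ / T) ^ 2 := by positivity
    field_simp
  simp_rw [e1]
  rw [intervalIntegral.integral_const_mul]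
  have hc : (β / T) ≠ 0 := by positivity
  have e2 := intervalIntegral.integral_comp_mul_add (a := s) (b := t)
    (fun u : ℝ => 1 / (1 + u ^ 2)) hc (γ / T)
  rw [e2, integral_one_div_one_add_sq, smul_eq_mul]
  have h3 := Real.arctan_lt_pi_div_two (β / T * t + γ / T)
  have h4 := Real.neg_pi_div_two_lt_arctan (β / T * s + γ / T)
  calc 1 / T ^ 2 * ((β / T)⁻¹ * (Real.arctan (β / T * t + γ / T) - Real.arctan (β / T * s + γ / T)))
      ≤ 1 / T ^ 2 * ((β / T)⁻¹ * Real.pi) := by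
        refine mul_le_mul_of_nonneg_left (mul_le_mul_of_nonneg_left (by linarith) (by positivity))
          (by positivity)
    _ = Real.pi / (T * β) := by
        field_simp

/-- the term of the pair `(D, c)` -/
noncomputable def kt (X q : ℕ) (r : ℝ) (D : ℕ) (c : ℤ) (a : ℕ) (x : ℝ) : ℝ :=
  if (a : ℤ) * D - c * q = 0 then 0 else
    2 * (X : ℝ) ^ 2 * (1 / ((X * |(((a : ℤ) * D - c * q : ℤ) : ℝ)| / (q * (1 + r))) ^ 2 +
      ((X * D : ℝ) * x + X * ((D : ℝ) * (a / q) - c)) ^ 2))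

theorem kt_nonneg (X q : ℕ) (r : ℝ) (D : ℕ) (c : ℤ) (a : ℕ) (x : ℝ) :
    0 ≤ kt X q r D c a x := by
  unfold kt
  split_ifs
  · exact le_rfl
  · positivity

theorem kt_cont (X q : ℕ) (hX : 1 ≤ X) (hq : 1 ≤ q) (r : ℝ) (hr : 0 ≤ r) (D : ℕ) (c : ℤ)
    (a : ℕ) : Continuous (kt X q r D c a) := by
  have hX0 : (0 : ℝ) < X := by exact_mod_cast hX
  have hq0 : (0 : ℝ) < q := by exact_mod_cast hq
  unfold kt
  split_ifs with h
  · exact continuous_const
  · refine continuous_const.mul (continuous_const.div (by fun_prop) fun x => ?_)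
    have h1 : 0 < |(((a : ℤ) * D - c * q : ℤ) : ℝ)| := abs_pos.2 (by exact_mod_cast h)
    have h2 : (0 : ℝ) < X * |(((a : ℤ) * D - c * q : ℤ) : ℝ)| / (q * (1 + r)) := by positivity
    positivity

theorem kt_int (X q : ℕ) (hX : 1 ≤ X) (hq : 1 ≤ q) (r : ℝ) (hr : 0 ≤ r) (D : ℕ)
    (hD : 1 ≤ D) (c : ℤ) (a : ℕ) (s t : ℝ) (hst : s ≤ t) :
    ∫ x in s..t, kt X q r D c a x ≤ 2 * Real.pi * (q * (1 + r)) / D *
      (if (a : ℤ) * D - c * q = 0 then (0 : ℝ) else 1 / |(((a : ℤ) * D - c * q : ℤ) : ℝ)|) := by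
  have hX0 : (0 : ℝ) < X := by exact_mod_cast hX
  have hq0 : (0 : ℝ) < q := by exact_mod_cast hq
  have hD0 : (0 : ℝ) < D := by exact_mod_cast hD
  unfold kt
  split_ifs with h
  · simp
  · have h1 : 0 < |(((a : ℤ) * D - c * q : ℤ) : ℝ)| := abs_pos.2 (by exact_mod_cast h)
    set v : ℝ := |(((a : ℤ) * D - c * q : ℤ) : ℝ)| with hv
    have h2 : (0 : ℝ) < X * v / (q * (1 + r)) := by positivity
    rw [intervalIntegral.integral_const_mul]
    have h3 := pois (X * v / (q * (1 + r))) ((X : ℝ) * D) (X * ((D : ℝ) * (a / q) - c)) s t h2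
      (by positivity) hst
    calc _ ≤ 2 * (X : ℝ) ^ 2 * (Real.pi / (X * v / (q * (1 + r)) * (X * D))) :=
          mul_le_mul_of_nonneg_left h3 (by positivity)
      _ = 2 * Real.pi * (q * (1 + r)) / D * (1 / v) := by
          field_simp

/-- the pointwise bound -/
theorem ht_pw (X q : ℕ) (hX : 2 ≤ X) (hq : 1 ≤ q) (_hqX : q ≤ X) (r : ℝ) (hr : 0 ≤ r)
    (hrX : r ≤ X) (a : ℕ) (ha : a ∈ rr q) (x : ℝ) (hx : |x| ≤ r / X) :
    ((X : ℝ) / ht X ((a : ℝ) / q + x)) ^ 2 ≤
      2 * (X : ℝ) ^ 2 / (q : ℝ) ^ 2 * (1 / (1 + (X * x) ^ 2)) +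
        ∑ D ∈ Icc 1 (Nat.sqrt X), ∑ c ∈ Icc (-((4 * X : ℕ) : ℤ)) ((4 * X : ℕ) : ℤ),
          kt X q r D c a x := by
  have hX1 : 1 ≤ X := by omega
  have hX0 : (0 : ℝ) < X := by exact_mod_cast hX1
  have hX1' : (1 : ℝ) ≤ X := by exact_mod_cast hX1
  have hq0 : (0 : ℝ) < q := by exact_mod_cast hq
  have haR : a < q ∧ Nat.Coprime a q := by
    unfold rr at ha
    rw [mem_filter, mem_range] at ha
    exact ha
  set α : ℝ := (a : ℝ) / q + x with hα
  obtain ⟨h1, h2, -, -⟩ := qd_spec X hX1 α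
  obtain ⟨h3, h4, h5, h6⟩ := ht_spec X hX1 α
  set D := qd X α with hD
  set H := ht X α with hH
  set c : ℤ := round ((D : ℝ) * α) with hc
  have hH0 : 0 < H := by linarith
  have hD0 : (0 : ℝ) < D := by exact_mod_cast h1
  have hn : nrm ((D : ℝ) * α) = |(D : ℝ) * α - c| := rfl
  rw [hn] at h6
  have hsum0 : 0 ≤ ∑ D ∈ Icc 1 (Nat.sqrt X), ∑ c ∈ Icc (-((4 * X : ℕ) : ℤ)) ((4 * X : ℕ) : ℤ),
          kt X q r D c a x := sum_nonneg fun _ _ => sum_nonneg fun _ _ => kt_nonneg _ _ _ _ _ _ _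
  have hmain0 : 0 ≤ 2 * (X : ℝ) ^ 2 / (q : ℝ) ^ 2 * (1 / (1 + (X * x) ^ 2)) := by positivity
  by_cases hv : (a : ℤ) * D - c * q = 0
  · -- the denominator is a multiple of q
    have h7 : (q : ℤ) ∣ D := by
      have h8 : (q : ℤ) ∣ (a : ℤ) * D := ⟨c, by linear_combination hv⟩
      have h9 : IsCoprime (q : ℤ) (a : ℤ) := Nat.isCoprime_iff_coprime.2 haR.2.symm
      exact h9.dvd_of_dvd_mul_left h8
    have h8 : q ≤ D := Nat.le_of_dvd h1 (by exact_mod_cast h7)
    have h8' : (q : ℝ) ≤ D := by exact_mod_cast h8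
    have hqH : (q : ℝ) ≤ H := h8'.trans h5
    have h9 : (D : ℝ) * α - c = D * x := by
      have h10 : (a : ℝ) * D = c * q := by
        have : (a : ℤ) * D = c * q := by linear_combination hv
        exact_mod_cast this
      rw [hα]
      field_simp
      linear_combination h10
    rw [h9, abs_mul, abs_of_pos hD0] at h6
    have h10 : (X : ℝ) * ((q : ℝ) * |x|) ≤ H := by
      refine le_trans ?_ h6
      exact mul_le_mul_of_nonneg_left (mul_le_mul_of_nonneg_right h8' (abs_nonneg x)) hX0.le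
    have h11 : ((q : ℝ) ^ 2 * (1 + (X * x) ^ 2)) ≤ 2 * H ^ 2 := by
      have e1 : ((q : ℝ) ^ 2 * (1 + (X * x) ^ 2)) = (q : ℝ) ^ 2 + ((X : ℝ) * ((q : ℝ) * |x|)) ^ 2 := by
        rw [mul_pow (X : ℝ) ((q : ℝ) * |x|), mul_pow (q : ℝ), sq_abs]; ring
      rw [e1]
      have e2 : (q : ℝ) ^ 2 ≤ H ^ 2 := pow_le_pow_left₀ hq0.le hqH 2
      have e3 : ((X : ℝ) * ((q : ℝ) * |x|)) ^ 2 ≤ H ^ 2 := pow_le_pow_left₀ (by positivity) h10 2
      linarith
    have h12 : ((X : ℝ) / H) ^ 2 ≤ 2 * (X : ℝ) ^ 2 / (q : ℝ) ^ 2 * (1 / (1 + (X * x) ^ 2)) := by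
      rw [div_pow, div_mul_div_comm, mul_one, div_le_div_iff₀ (by positivity) (by positivity)]
      nlinarith [mul_le_mul_of_nonneg_left h11 (sq_nonneg (X : ℝ))]
    linarith
  · -- other denominators
    have hvR : (0 : ℝ) < |(((a : ℤ) * D - c * q : ℤ) : ℝ)| := abs_pos.2 (by exact_mod_cast hv)
    set v : ℝ := |(((a : ℤ) * D - c * q : ℤ) : ℝ)| with hvdef
    have h7 : v ≤ q * H * (1 + r) / X := by
      have e1 : (((a : ℤ) * D - c * q : ℤ) : ℝ) = q * ((D : ℝ) * α - c) - q * (D * x) := by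
        rw [hα]
        push_cast
        field_simp
        ring
      rw [hvdef, e1]
      have h8 : |(D : ℝ) * α - c| ≤ H / X := by
        rw [le_div_iff₀ hX0, mul_comm]
        exact h6
      calc |q * ((D : ℝ) * α - c) - q * (D * x)| ≤ |q * ((D : ℝ) * α - c)| + |q * (D * x)| :=
            abs_sub _ _
        _ = q * |(D : ℝ) * α - c| + q * (D * |x|) := by
            rw [abs_mul, abs_mul, abs_mul, abs_of_pos hq0, abs_of_pos hD0]
        _ ≤ q * (H / X) + q * (H * (r / X)) := by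
            refine add_le_add (mul_le_mul_of_nonneg_left h8 hq0.le)
              (mul_le_mul_of_nonneg_left (mul_le_mul h5 hx (abs_nonneg x) hH0.le) hq0.le)
        _ = _ := by ring
    have h8 : X * v / (q * (1 + r)) ≤ H := by
      rw [div_le_iff₀ (by positivity)]
      rw [le_div_iff₀ hX0] at h7
      linarith
    have h9 : |(X * D : ℝ) * x + X * ((D : ℝ) * (a / q) - c)| ≤ H := by
      have e1 : (X * D : ℝ) * x + X * ((D : ℝ) * (a / q) - c) = X * ((D : ℝ) * α - c) := by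
        rw [hα]; ring
      rw [e1, abs_mul, abs_of_pos hX0]
      exact h6
    have h10 : ((X : ℝ) / H) ^ 2 ≤ kt X q r D c a x := by
      unfold kt
      rw [if_neg hv, ← hvdef]
      have hT0 : (0 : ℝ) < X * v / (q * (1 + r)) := by positivity
      have e2 : (X * v / (q * (1 + r))) ^ 2 +
          ((X * D : ℝ) * x + X * ((D : ℝ) * (a / q) - c)) ^ 2 ≤ 2 * H ^ 2 := by
        have e3 : (X * v / (q * (1 + r))) ^ 2 ≤ H ^ 2 := pow_le_pow_left₀ hT0.le h8 2
        have e4 : ((X * D : ℝ) * x + X * ((D : ℝ) * (a / q) - c)) ^ 2 ≤ H ^ 2 := by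
          rw [← sq_abs]
          exact pow_le_pow_left₀ (abs_nonneg _) h9 2
        linarith
      rw [div_pow, mul_one_div, div_le_div_iff₀ (by positivity) (by positivity)]
      nlinarith [mul_le_mul_of_nonneg_left e2 (sq_nonneg (X : ℝ))]
    have h11 : D ∈ Icc 1 (Nat.sqrt X) := mem_Icc.2 ⟨h1, h2⟩
    have h12 : c ∈ Icc (-((4 * X : ℕ) : ℤ)) ((4 * X : ℕ) : ℤ) := by
      have hDX : (D : ℝ) ≤ X := by
        have : D ≤ X := h2.trans (Nat.sqrt_le_self X)
        exact_mod_cast this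
      have hr1 : r / X ≤ 1 := by
        rw [div_le_one hX0]; exact hrX
      have hα2 : |α| ≤ 2 := by
        rw [hα]
        have e1 : (a : ℝ) / q ≤ 1 := by
          rw [div_le_one hq0]
          exact_mod_cast haR.1.le
        have e2 : 0 ≤ (a : ℝ) / q := by positivity
        calc |(a : ℝ) / q + x| ≤ |(a : ℝ) / q| + |x| := abs_add_le _ _
          _ ≤ 1 + 1 := add_le_add (by rw [abs_of_nonneg e2]; exact e1) (hx.trans hr1)
          _ = 2 := by norm_num
      have hcb : |(c : ℝ)| ≤ 2 * X + 1 := by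
        have e1 : |(c : ℝ) - (D : ℝ) * α| ≤ 1 / 2 := by
          rw [abs_sub_comm]
          exact abs_sub_round _
        have e2 : |(D : ℝ) * α| ≤ X * 2 := by
          rw [abs_mul, abs_of_pos hD0]
          exact mul_le_mul hDX hα2 (abs_nonneg _) hX0.le
        have e3 : |(c : ℝ)| ≤ |(c : ℝ) - (D : ℝ) * α| + |(D : ℝ) * α| := by
          have := abs_add_le ((c : ℝ) - (D : ℝ) * α) ((D : ℝ) * α)
          simpa using this
        linarith
      have hX2 : (2 : ℝ) ≤ X := by exact_mod_cast hX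
      have e5 : |(c : ℝ)| ≤ 4 * X := by linarith
      have e6 := abs_le.1 e5
      rw [mem_Icc]
      push_cast
      constructor
      · have : (-(4 * (X : ℤ)) : ℝ) ≤ (c : ℝ) := by push_cast; linarith [e6.1]
        exact_mod_cast this
      · have : (c : ℝ) ≤ ((4 * (X : ℤ) : ℤ) : ℝ) := by push_cast; linarith [e6.2]
        exact_mod_cast this
    have h13 : kt X q r D c a x ≤ ∑ D ∈ Icc 1 (Nat.sqrt X),
        ∑ c ∈ Icc (-((4 * X : ℕ) : ℤ)) ((4 * X : ℕ) : ℤ), kt X q r D c a x := by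
      refine le_trans ?_ (single_le_sum (f := fun D =>
        ∑ c ∈ Icc (-((4 * X : ℕ) : ℤ)) ((4 * X : ℕ) : ℤ), kt X q r D c a x)
        (fun i _ => sum_nonneg fun _ _ => kt_nonneg _ _ _ _ _ _ _) h11)
      exact single_le_sum (f := fun c => kt X q r D c a x) (fun i _ => kt_nonneg _ _ _ _ _ _ _) h12
    linarith

/-- the mean square of `X / ht` on the arcs `a/q + [s, t]` -/
theorem ht_mass (X q : ℕ) (hX : 2 ≤ X) (hq : 1 ≤ q) (hqX : q ≤ X) (r : ℝ) (hr : 0 ≤ r)
    (hrX : r ≤ X) (s t : ℝ) (hs : -(r / X) ≤ s) (hst : s ≤ t) (ht' : t ≤ r / X)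
    (F : ℕ → ℝ → ℝ) (hF : ∀ a, Continuous (F a))
    (h : ∀ a ∈ rr q, ∀ x, s ≤ x → x ≤ t → F a x ≤ ((X : ℝ) / ht X ((a : ℝ) / q + x)) ^ 2) :
    ∑ a ∈ rr q, ∫ x in s..t, F a x ≤
      2 * (X : ℝ) ^ 2 / q * (∫ x in s..t, 1 / (1 + ((X : ℝ) * x) ^ 2)) +
        80 * (q * (1 + r)) * (1 + Real.log X) ^ 2 := by
  have hX1 : 1 ≤ X := by omega
  have hX0 : (0 : ℝ) < X := by exact_mod_cast hX1
  have hX1' : (1 : ℝ) ≤ X := by exact_mod_cast hX1
  have hq0 : (0 : ℝ) < q := by exact_mod_cast hq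
  have hL0 : 0 ≤ Real.log X := Real.log_nonneg hX1'
  have hcm : Continuous (fun x : ℝ => 1 / (1 + ((X : ℝ) * x) ^ 2)) := by
    refine continuous_const.div (by fun_prop) fun x => by positivity
  set J : ℝ := ∫ x in s..t, 1 / (1 + ((X : ℝ) * x) ^ 2) with hJ
  have hJ0 : 0 ≤ J := intervalIntegral.integral_nonneg hst fun x _ => by positivity
  set Y : ℕ := 4 * X with hY
  set iv : ℕ → ℤ → ℕ → ℝ := fun D c a => if (a : ℤ) * D - c * q = 0 then (0 : ℝ) else
    1 / |(((a : ℤ) * D - c * q : ℤ) : ℝ)| with hiv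
  have hiv0 : ∀ D c a, 0 ≤ iv D c a := by
    intro D c a
    simp only [hiv]
    split_ifs <;> positivity
  have h1 : ∀ a ∈ rr q, ∫ x in s..t, F a x ≤ 2 * (X : ℝ) ^ 2 / (q : ℝ) ^ 2 * J +
      ∑ D ∈ Icc 1 (Nat.sqrt X), ∑ c ∈ Icc (-(Y : ℤ)) (Y : ℤ),
        2 * Real.pi * (q * (1 + r)) / D * iv D c a := by
    intro a ha
    have hc2 : Continuous (fun x => 2 * (X : ℝ) ^ 2 / (q : ℝ) ^ 2 * (1 / (1 + ((X : ℝ) * x) ^ 2)) +
        ∑ D ∈ Icc 1 (Nat.sqrt X), ∑ c ∈ Icc (-(Y : ℤ)) (Y : ℤ), kt X q r D c a x) :=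
      (continuous_const.mul hcm).add (continuous_finsetSum _ fun D _ =>
        continuous_finsetSum _ fun c _ => kt_cont X q hX1 hq r hr D c a)
    calc ∫ x in s..t, F a x ≤ ∫ x in s..t,
        (2 * (X : ℝ) ^ 2 / (q : ℝ) ^ 2 * (1 / (1 + ((X : ℝ) * x) ^ 2)) +
        ∑ D ∈ Icc 1 (Nat.sqrt X), ∑ c ∈ Icc (-(Y : ℤ)) (Y : ℤ), kt X q r D c a x) := by
          refine intervalIntegral.integral_mono_on hst ((hF a).intervalIntegrable _ _)
            (hc2.intervalIntegrable _ _) fun x hx => ?_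
          refine (h a ha x hx.1 hx.2).trans ?_
          exact ht_pw X q hX hq hqX r hr hrX a ha x (abs_le.2 ⟨hs.trans hx.1, hx.2.trans ht'⟩)
      _ = 2 * (X : ℝ) ^ 2 / (q : ℝ) ^ 2 * J + ∑ D ∈ Icc 1 (Nat.sqrt X),
          ∑ c ∈ Icc (-(Y : ℤ)) (Y : ℤ), ∫ x in s..t, kt X q r D c a x := by
          rw [intervalIntegral.integral_add, intervalIntegral.integral_const_mul,
            intervalIntegral.integral_finsetSum]
          · congr 1
            refine sum_congr rfl fun D _ => ?_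
            rw [intervalIntegral.integral_finsetSum]
            exact fun c _ => (kt_cont X q hX1 hq r hr D c a).intervalIntegrable _ _
          · exact fun D _ => (continuous_finsetSum _ fun c _ =>
              kt_cont X q hX1 hq r hr D c a).intervalIntegrable _ _
          · exact (continuous_const.mul hcm).intervalIntegrable _ _
          · exact (continuous_finsetSum _ fun D _ => continuous_finsetSum _ fun c _ =>
              kt_cont X q hX1 hq r hr D c a).intervalIntegrable _ _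
      _ ≤ _ := by
          refine add_le_add le_rfl (sum_le_sum fun D hD => sum_le_sum fun c _ => ?_)
          exact kt_int X q hX1 hq r hr D (mem_Icc.1 hD).1 c a s t hst
  have hsub : rr q ⊆ range q := by
    unfold rr
    exact filter_subset _ _
  have hcard : ((rr q).card : ℝ) ≤ q := by
    have := card_le_card hsub
    rw [card_range] at this
    exact_mod_cast this
  have hpi : Real.pi < 3.15 := Real.pi_lt_d2
  have h2 : ∑ a ∈ rr q, ∑ D ∈ Icc 1 (Nat.sqrt X), ∑ c ∈ Icc (-(Y : ℤ)) (Y : ℤ),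
      2 * Real.pi * (q * (1 + r)) / D * iv D c a ≤ 80 * (q * (1 + r)) * (1 + Real.log X) ^ 2 := by
    rw [sum_comm]
    have h3 : ∀ D ∈ Icc 1 (Nat.sqrt X), ∑ a ∈ rr q, ∑ c ∈ Icc (-(Y : ℤ)) (Y : ℤ),
        2 * Real.pi * (q * (1 + r)) / D * iv D c a ≤
        2 * Real.pi * (q * (1 + r)) * (2 * (1 + (2 + 2 * Real.log X))) * (1 / D) := by
      intro D hD
      obtain ⟨hD1, hD2⟩ := mem_Icc.1 hD
      have hD0 : (0 : ℝ) < D := by exact_mod_cast hD1
      have hDX : D ≤ X := hD2.trans (Nat.sqrt_le_self X)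
      have h4 := inv_sum q D Y (5 * X * X) hq hD1 (by
        rw [hY]
        have e1 : q * D ≤ X * X := Nat.mul_le_mul hqX hDX
        have e2 : 4 * X * q ≤ 4 * X * X := Nat.mul_le_mul_left _ hqX
        nlinarith)
      have h5 : Real.log ((5 * X * X : ℕ) : ℝ) ≤ 2 + 2 * Real.log X := by
        push_cast
        rw [Real.log_mul (by positivity) (by positivity), Real.log_mul (by norm_num) (by positivity)]
        have e1 : Real.log 5 ≤ 2 := by
          rw [Real.log_le_iff_le_exp (by norm_num)]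
          have e2 := Real.exp_one_gt_d9
          have e3 : Real.exp 2 = Real.exp 1 * Real.exp 1 := by rw [← Real.exp_add]; norm_num
          rw [e3]
          nlinarith
        linarith
      calc ∑ a ∈ rr q, ∑ c ∈ Icc (-(Y : ℤ)) (Y : ℤ), 2 * Real.pi * (q * (1 + r)) / D * iv D c a
          = 2 * Real.pi * (q * (1 + r)) / D * ∑ a ∈ rr q, ∑ c ∈ Icc (-(Y : ℤ)) (Y : ℤ), iv D c a := by
            rw [mul_sum]
            exact sum_congr rfl fun a _ => by rw [mul_sum]
        _ ≤ 2 * Real.pi * (q * (1 + r)) / D * ∑ a ∈ range q, ∑ c ∈ Icc (-(Y : ℤ)) (Y : ℤ),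
            iv D c a := by
            refine mul_le_mul_of_nonneg_left (sum_le_sum_of_subset_of_nonneg hsub
              fun a _ _ => sum_nonneg fun c _ => hiv0 D c a) (by positivity)
        _ ≤ 2 * Real.pi * (q * (1 + r)) / D * (2 * (1 + (2 + 2 * Real.log X))) := by
            refine mul_le_mul_of_nonneg_left (h4.trans ?_) (by positivity)
            linarith
        _ = _ := by ring
    refine (sum_le_sum h3).trans ?_
    rw [← mul_sum]
    have h6 := harm (Nat.sqrt X) X (Nat.sqrt_le_self X) hX1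
    have hK : 0 ≤ 2 * Real.pi * (q * (1 + r)) * (2 * (1 + (2 + 2 * Real.log X))) := by positivity
    refine (mul_le_mul_of_nonneg_left h6 hK).trans ?_
    have h7 : 0 ≤ (q * (1 + r) : ℝ) := by positivity
    have h8 : 2 * Real.pi * (2 * (1 + (2 + 2 * Real.log X))) * (1 + Real.log X) ≤
        80 * (1 + Real.log X) ^ 2 := by
      have h9 : 2 * Real.pi * (2 * (1 + (2 + 2 * Real.log X))) ≤ 80 * (1 + Real.log X) := by
        nlinarith
      calc _ ≤ 80 * (1 + Real.log X) * (1 + Real.log X) :=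
            mul_le_mul_of_nonneg_right h9 (by linarith)
        _ = _ := by ring
    calc 2 * Real.pi * (q * (1 + r)) * (2 * (1 + (2 + 2 * Real.log X))) * (1 + Real.log X)
        = (q * (1 + r)) * (2 * Real.pi * (2 * (1 + (2 + 2 * Real.log X))) * (1 + Real.log X)) := by
          ring
      _ ≤ (q * (1 + r)) * (80 * (1 + Real.log X) ^ 2) := mul_le_mul_of_nonneg_left h8 h7
      _ = _ := by ring
  calc ∑ a ∈ rr q, ∫ x in s..t, F a x ≤ ∑ a ∈ rr q, (2 * (X : ℝ) ^ 2 / (q : ℝ) ^ 2 * J +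
      ∑ D ∈ Icc 1 (Nat.sqrt X), ∑ c ∈ Icc (-(Y : ℤ)) (Y : ℤ),
        2 * Real.pi * (q * (1 + r)) / D * iv D c a) := sum_le_sum h1
    _ = (rr q).card * (2 * (X : ℝ) ^ 2 / (q : ℝ) ^ 2 * J) + ∑ a ∈ rr q, ∑ D ∈ Icc 1 (Nat.sqrt X),
        ∑ c ∈ Icc (-(Y : ℤ)) (Y : ℤ), 2 * Real.pi * (q * (1 + r)) / D * iv D c a := by
        rw [sum_add_distrib, sum_const, nsmul_eq_mul]
    _ ≤ q * (2 * (X : ℝ) ^ 2 / (q : ℝ) ^ 2 * J) + 80 * (q * (1 + r)) * (1 + Real.log X) ^ 2 :=
        add_le_add (mul_le_mul_of_nonneg_right hcard (by positivity)) h2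
    _ = _ := by
        congr 1
        field_simp

/-- the version for functions bounded by `B (X/ht + R)` -/
theorem ht_mass_ti (X q : ℕ) (hX : 2 ≤ X) (hq : 1 ≤ q) (hqX : q ≤ X) (r : ℝ) (hr : 0 ≤ r)
    (hrX : r ≤ X) (s t : ℝ) (hs : -(r / X) ≤ s) (hst : s ≤ t) (ht' : t ≤ r / X)
    (T : ℕ → ℝ → ℂ) (hT : ∀ a, Continuous (T a)) (B R : ℝ) (hB : 0 < B) (_hR : 0 ≤ R)
    (h : ∀ a ∈ rr q, ∀ x, s ≤ x → x ≤ t → ‖T a x‖ ≤ B * ((X : ℝ) / ht X ((a : ℝ) / q + x) + R)) :
    ∑ a ∈ rr q, ∫ x in s..t, ‖T a x‖ ^ 2 ≤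
      2 * B ^ 2 * (2 * (X : ℝ) ^ 2 / q * (∫ x in s..t, 1 / (1 + ((X : ℝ) * x) ^ 2)) +
        80 * (q * (1 + r)) * (1 + Real.log X) ^ 2) + 2 * B ^ 2 * R ^ 2 * (q * (t - s)) := by
  have hX1 : 1 ≤ X := by omega
  have hX0 : (0 : ℝ) < X := by exact_mod_cast hX1
  set F : ℕ → ℝ → ℝ := fun a x => (max 0 (‖T a x‖ / B - R)) ^ 2 with hFd
  have hFc : ∀ a, Continuous (F a) := by
    intro a
    have : Continuous (fun x => ‖T a x‖ / B - R) := ((hT a).norm.div_const B).sub continuous_const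
    exact (continuous_const.max this).pow 2
  have h1 := ht_mass X q hX hq hqX r hr hrX s t hs hst ht' F hFc (by
    intro a ha x hx1 hx2
    have h2 := h a ha x hx1 hx2
    obtain ⟨h3, -, -, -⟩ := ht_spec X hX1 ((a : ℝ) / q + x)
    have h4 : 0 ≤ (X : ℝ) / ht X ((a : ℝ) / q + x) := by positivity
    simp only [hFd]
    refine pow_le_pow_left₀ (le_max_left _ _) (max_le h4 ?_) 2
    rw [sub_le_iff_le_add, div_le_iff₀ hB]
    linarith [mul_comm B ((X : ℝ) / ht X ((a : ℝ) / q + x) + R)])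
  have h2 : ∀ a x, ‖T a x‖ ^ 2 ≤ 2 * B ^ 2 * F a x + 2 * B ^ 2 * R ^ 2 := by
    intro a x
    have h3 : ‖T a x‖ / B ≤ max 0 (‖T a x‖ / B - R) + R := by
      have := le_max_right 0 (‖T a x‖ / B - R)
      linarith
    have h4 : (‖T a x‖ / B) ^ 2 ≤ (max 0 (‖T a x‖ / B - R) + R) ^ 2 :=
      pow_le_pow_left₀ (by positivity) h3 2
    have h5 : (max 0 (‖T a x‖ / B - R) + R) ^ 2 ≤ 2 * F a x + 2 * R ^ 2 := by
      simp only [hFd]
      nlinarith [sq_nonneg (max 0 (‖T a x‖ / B - R) - R)]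
    have h6 : ‖T a x‖ ^ 2 = B ^ 2 * (‖T a x‖ / B) ^ 2 := by
      field_simp
    rw [h6]
    nlinarith [mul_le_mul_of_nonneg_left (h4.trans h5) (sq_nonneg B)]
  have hsub : rr q ⊆ range q := by
    unfold rr
    exact filter_subset _ _
  have hcard : ((rr q).card : ℝ) ≤ q := by
    have := card_le_card hsub
    rw [card_range] at this
    exact_mod_cast this
  calc ∑ a ∈ rr q, ∫ x in s..t, ‖T a x‖ ^ 2
      ≤ ∑ a ∈ rr q, (2 * B ^ 2 * (∫ x in s..t, F a x) + 2 * B ^ 2 * R ^ 2 * (t - s)) := by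
        refine sum_le_sum fun a _ => ?_
        have h3 : ∫ x in s..t, (2 * B ^ 2 * F a x + 2 * B ^ 2 * R ^ 2) =
            2 * B ^ 2 * (∫ x in s..t, F a x) + 2 * B ^ 2 * R ^ 2 * (t - s) := by
          have hi1 : IntervalIntegrable (fun x => 2 * B ^ 2 * F a x) MeasureTheory.volume s t :=
            (continuous_const.mul (hFc a)).intervalIntegrable _ _
          have hi2 : IntervalIntegrable (fun _ : ℝ => 2 * B ^ 2 * R ^ 2) MeasureTheory.volume s t :=
            continuous_const.intervalIntegrable _ _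
          rw [intervalIntegral.integral_add hi1 hi2, intervalIntegral.integral_const_mul,
            intervalIntegral.integral_const, smul_eq_mul]
          ring
        rw [← h3]
        exact intervalIntegral.integral_mono_on hst (((hT a).norm.pow 2).intervalIntegrable _ _)
          (((continuous_const.mul (hFc a)).add continuous_const).intervalIntegrable _ _)
          fun x _ => h2 a x
    _ = 2 * B ^ 2 * (∑ a ∈ rr q, ∫ x in s..t, F a x) +
        (rr q).card * (2 * B ^ 2 * R ^ 2 * (t - s)) := by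
        rw [sum_add_distrib, sum_const, nsmul_eq_mul, mul_sum]
    _ ≤ _ := by
        have h3 : 0 ≤ 2 * B ^ 2 * R ^ 2 * (t - s) := by
          have : 0 ≤ t - s := by linarith
          positivity
        have h4 : ((rr q).card : ℝ) * (2 * B ^ 2 * R ^ 2 * (t - s)) ≤
            q * (2 * B ^ 2 * R ^ 2 * (t - s)) := mul_le_mul_of_nonneg_right hcard h3
        have h5 := mul_le_mul_of_nonneg_left h1 (show 0 ≤ 2 * B ^ 2 by positivity)
        have h6 : (q : ℝ) * (2 * B ^ 2 * R ^ 2 * (t - s)) = 2 * B ^ 2 * R ^ 2 * (q * (t - s)) := by ring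
        linarith

/-- the integral of `1/(1+(Xx)²)` -/
theorem ht_main (X : ℕ) (hX : 1 ≤ X) (s t : ℝ) (hst : s ≤ t) :
    ∫ x in s..t, 1 / (1 + ((X : ℝ) * x) ^ 2) ≤ Real.pi / X := by
  have hX0 : (0 : ℝ) < X := by exact_mod_cast hX
  have h := pois 1 X 0 s t one_pos hX0 hst
  simpa using h

/-- the integral of `1/(1+(Xx)²)` over `[b/X, 2b/X]` or its mirror image -/
theorem ht_main_band (X : ℕ) (hX : 1 ≤ X) (b : ℝ) (hb : 0 ≤ b) (s t : ℝ) (hst : s ≤ t)
    (hb1 : t - s ≤ b / X) (hb2 : ∀ x, s ≤ x → x ≤ t → b / X ≤ |x|) :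
    ∫ x in s..t, 1 / (1 + ((X : ℝ) * x) ^ 2) ≤ 2 / (X * (1 + b)) := by
  have hX0 : (0 : ℝ) < X := by exact_mod_cast hX
  have hcm : Continuous (fun x : ℝ => 1 / (1 + ((X : ℝ) * x) ^ 2)) := by
    refine continuous_const.div (by fun_prop) fun x => by positivity
  calc ∫ x in s..t, 1 / (1 + ((X : ℝ) * x) ^ 2) ≤ ∫ _x in s..t, 1 / (1 + b ^ 2) := by
        refine intervalIntegral.integral_mono_on hst (hcm.intervalIntegrable _ _)
          (continuous_const.intervalIntegrable _ _) fun x hx => ?_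
        have h1 := hb2 x hx.1 hx.2
        have h2 : b ≤ X * |x| := by
          rw [div_le_iff₀ hX0] at h1
          linarith
        refine one_div_le_one_div_of_le (by positivity) ?_
        have h3 : b ^ 2 ≤ (X * |x|) ^ 2 := pow_le_pow_left₀ hb h2 2
        rw [mul_pow, sq_abs] at h3
        rw [mul_pow]
        linarith
    _ = (t - s) * (1 / (1 + b ^ 2)) := by rw [intervalIntegral.integral_const, smul_eq_mul]
    _ ≤ (b / X) * (1 / (1 + b ^ 2)) := mul_le_mul_of_nonneg_right hb1 (by positivity)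
    _ ≤ 2 / (X * (1 + b)) := by
        rw [div_mul_div_comm, mul_one, div_le_div_iff₀ (by positivity) (by positivity)]
        nlinarith [sq_nonneg (b - 1), mul_nonneg hX0.le hb, mul_nonneg hX0.le (sq_nonneg (b - 1)),
          mul_nonneg hX0.le (sq_nonneg b)]

/-- the integral of `1/(1+(Xx)²)` over `[u, v]` -/
theorem ht_main_u (X : ℕ) (hX : 1 ≤ X) (u v : ℝ) (hu : 0 ≤ u) (huv : u ≤ v) :
    ∫ x in u..v, 1 / (1 + ((X : ℝ) * x) ^ 2) ≤ 2 / (X * (1 + X * u)) := by
  have hX0 : (0 : ℝ) < X := by exact_mod_cast hX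
  have hcm : Continuous (fun x : ℝ => 1 / (1 + ((X : ℝ) * x) ^ 2)) := by
    refine continuous_const.div (by fun_prop) fun x => by positivity
  have hpos : ∀ x ∈ Set.uIcc u v, 0 < 1 + (X : ℝ) * x := by
    intro x hx
    rw [Set.uIcc_of_le huv] at hx
    have : 0 ≤ (X : ℝ) * x := mul_nonneg hX0.le (hu.trans hx.1)
    linarith
  have hgi : IntervalIntegrable (fun x : ℝ => 2 / (1 + (X : ℝ) * x) ^ 2) MeasureTheory.volume u v := by
    refine ContinuousOn.intervalIntegrable ?_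
    refine continuousOn_const.div (by fun_prop) fun x hx => ?_
    exact (pow_pos (hpos x hx) 2).ne'
  have h1 : ∫ x in u..v, 2 / (1 + (X : ℝ) * x) ^ 2 =
      -2 / (X * (1 + X * v)) - -2 / (X * (1 + X * u)) := by
    refine intervalIntegral.integral_eq_sub_of_hasDerivAt
      (f := fun x : ℝ => -2 / ((X : ℝ) * (1 + X * x))) (fun x hx => ?_) hgi
    have hp := hpos x hx
    have h2 : HasDerivAt (fun x : ℝ => (X : ℝ) * (1 + X * x)) ((X : ℝ) * X) x := by
      have h3 : HasDerivAt (fun x : ℝ => 1 + (X : ℝ) * x) X x := by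
        simpa using ((hasDerivAt_id x).const_mul (X : ℝ)).const_add 1
      simpa using h3.const_mul (X : ℝ)
    have h4 := (hasDerivAt_const x (-2 : ℝ)).div h2 (by positivity)
    refine h4.congr_deriv ?_
    field_simp
    ring
  calc ∫ x in u..v, 1 / (1 + ((X : ℝ) * x) ^ 2) ≤ ∫ x in u..v, 2 / (1 + (X : ℝ) * x) ^ 2 := by
        refine intervalIntegral.integral_mono_on huv (hcm.intervalIntegrable _ _) hgi fun x hx => ?_
        have hp : 0 < 1 + (X : ℝ) * x := hpos x (by rw [Set.uIcc_of_le huv]; exact hx)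
        rw [div_le_div_iff₀ (by positivity) (by positivity)]
        nlinarith [sq_nonneg (1 - (X : ℝ) * x)]
    _ = -2 / (X * (1 + X * v)) - -2 / (X * (1 + X * u)) := h1
    _ ≤ 2 / (X * (1 + X * u)) := by
        have hv : 0 ≤ v := hu.trans huv
        have h5 : 0 ≤ 2 / ((X : ℝ) * (1 + X * v)) := by positivity
        have h6 : -2 / ((X : ℝ) * (1 + X * v)) = -(2 / ((X : ℝ) * (1 + X * v))) := by ring
        have h7 : -2 / ((X : ℝ) * (1 + X * u)) = -(2 / ((X : ℝ) * (1 + X * u))) := by ring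
        rw [h6, h7]
        linarith

end Pool.MP_dd84fd_nt.JX

namespace Pool.MP_dd84fd_nt.JXP

open Finset Pool.MP_dd84fd_nt.GX Pool.MP_dd84fd_nt.JX
open Pool.MP_dd84fd_nt.PL (rr)

/-- the mean square of a function bounded by `c1 + c2 X/ht` on half arcs -/
theorem ht_mass (X q : ℕ) (σ u v : ℝ) (hX : 2 ≤ X) (hq : 1 ≤ q) (hqX : q ≤ X)
    (hσ : σ = 1 ∨ σ = -1) (hu : 0 ≤ u) (huv : u ≤ v) (hv : v ≤ 1) (F : ℕ → ℝ → ℂ)
    (hF : ∀ a, Continuous (F a)) (c1 c2 : ℝ) (hc1 : 0 ≤ c1) (hc2 : 0 ≤ c2)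
    (h : ∀ a ∈ rr q, ∀ x : ℝ, u ≤ x → x ≤ v →
      ‖F a x‖ ≤ c1 + c2 * ((X : ℝ) / ht X ((a : ℝ) / q + σ * x))) :
    ∑ a ∈ rr q, ∫ x in u..v, ‖F a x‖ ^ 2 ≤ 2 * c1 ^ 2 * q * (v - u) +
      160 * c2 ^ 2 * (1 + Real.log X) ^ 2 * ((X : ℝ) / (q * (1 + X * u)) + q * (1 + X * v)) := by
  have hX1 : 1 ≤ X := by omega
  have hX0 : (0 : ℝ) < X := by exact_mod_cast hX1
  have hX1' : (1 : ℝ) ≤ X := by exact_mod_cast hX1
  have hq0 : (0 : ℝ) < q := by exact_mod_cast hq
  have hL0 : 0 ≤ Real.log X := Real.log_nonneg hX1'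
  have hv0 : 0 ≤ v := hu.trans huv
  rcases eq_or_lt_of_le hc2 with h0 | h0
  · -- no height term
    have hsub : rr q ⊆ range q := by
      unfold rr
      exact filter_subset _ _
    have hcard : ((rr q).card : ℝ) ≤ q := by
      have := card_le_card hsub
      rw [card_range] at this
      exact_mod_cast this
    have h1 : ∀ a ∈ rr q, ∫ x in u..v, ‖F a x‖ ^ 2 ≤ c1 ^ 2 * (v - u) := by
      intro a ha
      have h2 : ∫ _x in u..v, c1 ^ 2 = c1 ^ 2 * (v - u) := by
        rw [intervalIntegral.integral_const, smul_eq_mul]; ring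
      rw [← h2]
      refine intervalIntegral.integral_mono_on huv (((hF a).norm.pow 2).intervalIntegrable _ _)
        (continuous_const.intervalIntegrable _ _) fun x hx => ?_
      have h3 := h a ha x hx.1 hx.2
      rw [← h0, zero_mul, add_zero] at h3
      exact pow_le_pow_left₀ (norm_nonneg _) h3 2
    calc ∑ a ∈ rr q, ∫ x in u..v, ‖F a x‖ ^ 2 ≤ ∑ _a ∈ rr q, c1 ^ 2 * (v - u) := sum_le_sum h1
      _ = (rr q).card * (c1 ^ 2 * (v - u)) := by rw [sum_const, nsmul_eq_mul]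
      _ ≤ q * (c1 ^ 2 * (v - u)) :=
          mul_le_mul_of_nonneg_right hcard (mul_nonneg (sq_nonneg _) (by linarith))
      _ ≤ 2 * c1 ^ 2 * q * (v - u) := by
          have : 0 ≤ q * (c1 ^ 2 * (v - u)) :=
            mul_nonneg hq0.le (mul_nonneg (sq_nonneg _) (by linarith))
          nlinarith
      _ ≤ _ := by
          have : 0 ≤ 160 * c2 ^ 2 * (1 + Real.log X) ^ 2 *
            ((X : ℝ) / (q * (1 + X * u)) + q * (1 + X * v)) := by positivity
          linarith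
  · -- the general case
    have hmain : ∀ (s t : ℝ), -v ≤ s → s ≤ t → t ≤ v → t - s = v - u →
        (∫ x in s..t, 1 / (1 + ((X : ℝ) * x) ^ 2)) ≤ 2 / (X * (1 + X * u)) →
        ∀ T : ℕ → ℝ → ℂ, (∀ a, Continuous (T a)) →
        (∀ a ∈ rr q, ∀ x, s ≤ x → x ≤ t →
          ‖T a x‖ ≤ c2 * ((X : ℝ) / ht X ((a : ℝ) / q + x) + c1 / c2)) →
        ∑ a ∈ rr q, ∫ x in s..t, ‖T a x‖ ^ 2 ≤ 2 * c1 ^ 2 * q * (v - u) +
          160 * c2 ^ 2 * (1 + Real.log X) ^ 2 *
            ((X : ℝ) / (q * (1 + X * u)) + q * (1 + X * v)) := by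
      intro s t hs hst ht' hlen hint T hT hTb
      have hr : (X : ℝ) * v / X = v := by field_simp
      have h1 := ht_mass_ti X q hX hq hqX (X * v) (by positivity) (by nlinarith) s t
        (by rw [hr]; exact hs) hst (by rw [hr]; exact ht') T hT c2 (c1 / c2) h0 (by positivity) hTb
      refine h1.trans ?_
      have h2 : 2 * c2 ^ 2 * (c1 / c2) ^ 2 * (q * (t - s)) = 2 * c1 ^ 2 * q * (v - u) := by
        rw [hlen]
        field_simp
      rw [h2]
      have h3 : 2 * (X : ℝ) ^ 2 / q * (∫ x in s..t, 1 / (1 + ((X : ℝ) * x) ^ 2)) ≤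
          4 * ((X : ℝ) / (q * (1 + X * u))) := by
        refine (mul_le_mul_of_nonneg_left hint (by positivity)).trans (le_of_eq ?_)
        field_simp
        ring
      have h4 : (1 : ℝ) ≤ (1 + Real.log X) ^ 2 := one_le_pow₀ (by linarith)
      have h5 : 0 ≤ (X : ℝ) / (q * (1 + X * u)) := by positivity
      have h6 : 4 * ((X : ℝ) / (q * (1 + X * u))) ≤
          80 * (1 + Real.log X) ^ 2 * ((X : ℝ) / (q * (1 + X * u))) := by nlinarith
      have h7 : 2 * c2 ^ 2 * (2 * (X : ℝ) ^ 2 / q * (∫ x in s..t, 1 / (1 + ((X : ℝ) * x) ^ 2)) +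
          80 * (q * (1 + X * v)) * (1 + Real.log X) ^ 2) ≤
          2 * c2 ^ 2 * (80 * (1 + Real.log X) ^ 2 * ((X : ℝ) / (q * (1 + X * u))) +
            80 * (q * (1 + X * v)) * (1 + Real.log X) ^ 2) := by
        refine mul_le_mul_of_nonneg_left ?_ (by positivity)
        linarith
      nlinarith
    have hb : ∀ a ∈ rr q, ∀ x : ℝ, u ≤ x → x ≤ v →
        ‖F a x‖ ≤ c2 * ((X : ℝ) / ht X ((a : ℝ) / q + σ * x) + c1 / c2) := by
      intro a ha x hx1 hx2
      refine (h a ha x hx1 hx2).trans (le_of_eq ?_)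
      field_simp
      ring
    rcases hσ with rfl | rfl
    · refine hmain u v (by linarith) huv le_rfl rfl (ht_main_u X hX1 u v hu huv) F hF ?_
      intro a ha x hx1 hx2
      simpa using hb a ha x hx1 hx2
    · have e1 : ∀ a, ∫ x in u..v, ‖F a x‖ ^ 2 = ∫ x in (-v)..(-u), ‖F a (-x)‖ ^ 2 := by
        intro a
        rw [intervalIntegral.integral_comp_neg (fun x => ‖F a x‖ ^ 2), neg_neg, neg_neg]
      simp_rw [e1]
      refine hmain (-v) (-u) le_rfl (by linarith) (by linarith) (by ring) ?_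
        (fun a x => F a (-x)) (fun a => (hF a).comp continuous_neg) ?_
      · have e2 : ∫ x in (-v)..(-u), 1 / (1 + ((X : ℝ) * x) ^ 2) =
            ∫ x in u..v, 1 / (1 + ((X : ℝ) * x) ^ 2) := by
          rw [← intervalIntegral.integral_comp_neg (fun x : ℝ => 1 / (1 + ((X : ℝ) * x) ^ 2))]
          simp
        rw [e2]
        exact ht_main_u X hX1 u v hu huv
      · intro a ha x hx1 hx2
        have h2 := hb a ha (-x) (by linarith) (by linarith)
        simpa using h2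

end Pool.MP_dd84fd_nt.JXP
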