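import Pool.Agent.Lib.MP_dd84fd_nt.IX.KsDefs

/-!
# Goldbach exceptions: Theorems J (exponent 1/3, asymptotic) and K (smaller exponents): interface

Paper: /team-store/J98_paper.md (helper98).  `th` is the exponent of the exceptional set,
`1/5 < th ≤ 1/2`; `X^τ/2` is the lower end of the type II window, `e` is small, `1000 e ≤ τ ≤ 1/10`.
The type I level is `ZJ th e X = 2 X^(lv th e)`, `lv th e = min (1 - th + 3e) ((1 + th)/2 - 20e)`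
(for `th ≥ 1/3 + 20 e` this is `1 - th + 3e`).
The definitions of Theorem I (`IX/Defs.lean`) which do not contain a hypothesis on `th` are reused:
`dl th e = (1/2 - th)/3 + e`, `y3 (dl th e) X = X^(1-th+3e)` (`= H0`), `y2 (dl th e) X = yB th e X =
X^(th-3e)`, `zI X = ⌈X^(1/10)⌉`, `fI`, `uI`, `WI`, `FFI`, `PhI`, `W1`, `MajI`, `SSI`, `wSI`, `CentreI`,
`Apd (dl th e)`, `NoAPH G (dl th e)`, `inAP`, `xx`, `FF`, `KE`, `VBH`.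
New: the type II window is `[X^τ/2, yB]` (`DecJ`); no bound for the second function is needed; both
functions are structured (`Str`, no error term).
-/

set_option autoImplicit false

namespace Pool.MP_dd84fd_nt.JX

open Finset Pool.MP_67663b_nt.Odd Pool.MP_dd84fd_nt.En Pool.MP_dd84fd_nt.E2 Pool.MP_dd84fd_nt.LS
open Pool.MP_dd84fd_nt.L2G (nrm)
open Pool.MP_dd84fd_nt.GX Pool.MP_dd84fd_nt.HX Pool.MP_dd84fd_nt.IX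
open Pool.MP_dd84fd_nt.PL (rr)

/-- admissible parameters -/
def Adm (th e τ : ℝ) : Prop := 1 / 8 < th ∧ th ≤ 1 / 2 ∧ 0 < e ∧ τ ≤ 1 / 10 ∧ 1000 * e ≤ τ

/-- the exponent of the type I level -/
noncomputable def lv (th e : ℝ) : ℝ := min (1 - th + 3 * e) ((1 + th) / 2 - 20 * e)

/-- the type I level `2 X^lv` -/
noncomputable def ZJ (th e : ℝ) (X : ℕ) : ℝ := 2 * (X : ℝ) ^ (lv th e)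

/-- the decomposition of `ww` into type I sums of level `ZJ` with weights of bounded variation and
type II blocks with small variable `m`, `X^τ/2 ≤ M_i < m ≤ yB` -/
def DecJ (B C2 : ℕ) (th e τ : ℝ) (ww : ℕ → ℕ → ℝ) : Prop := ∃ X0 : ℕ, ∀ X : ℕ, X0 ≤ X →
  ∃ (I : ℕ) (γ α : ℕ → ℕ → ℝ) (M K : ℕ → ℕ) (a c : ℕ → ℕ → ℝ) (err : ℕ → ℝ),
    (I : ℝ) ≤ (Real.log X) ^ C2 ∧
    (∀ i, (∀ n, |γ i n| ≤ (Real.log X) ^ C2) ∧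
      ∑ n ∈ Ico 1 X, |γ i (n + 1) - γ i n| ≤ (Real.log X) ^ C2) ∧
    (∀ i l, |α i l| ≤ (Real.log X) ^ C2) ∧ (∀ i (l : ℕ), ZJ th e X < l → α i l = 0) ∧
    (∀ i n, |a i n| ≤ (Real.log X) ^ C2 ∧ |c i n| ≤ (Real.log X) ^ C2) ∧
    (∀ i, (X : ℝ) ^ τ / 2 ≤ M i ∧ (M i : ℝ) ≤ yB th e X ∧ K i * M i ≤ X) ∧
    (∀ i m, a i m ≠ 0 → M i < m ∧ m ≤ 2 * M i ∧ (m : ℝ) ≤ yB th e X ∧ m * K i ≤ X) ∧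
    (∀ n ∈ Icc 1 X, ww X n = ∑ i ∈ range I, γ i n * ∑ l ∈ n.divisors, α i l +
      ∑ i ∈ range I, ∑ m ∈ n.divisors, (if n / m ≤ K i then a i m * c i (n / m) else 0) +
      err n) ∧
    ∑ n ∈ Icc 1 X, err n ^ 2 ≤ X / (Real.log X) ^ B

/-- structured functions: type I sums of level `ZJ` and type II blocks, no error -/
def Str (C : ℕ) (th e τ : ℝ) (X : ℕ) (u : ℕ → ℝ) : Prop :=
  ∃ (I : ℕ) (γ α : ℕ → ℕ → ℝ) (M K : ℕ → ℕ) (a c : ℕ → ℕ → ℝ),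
    (I : ℝ) ≤ (Real.log X) ^ C ∧
    (∀ i, (∀ n, |γ i n| ≤ (Real.log X) ^ C) ∧
      ∑ n ∈ Ico 1 X, |γ i (n + 1) - γ i n| ≤ (Real.log X) ^ C) ∧
    (∀ i l, |α i l| ≤ (Real.log X) ^ C) ∧ (∀ i (l : ℕ), ZJ th e X < l → α i l = 0) ∧
    (∀ i n, |a i n| ≤ (Real.log X) ^ C ∧ |c i n| ≤ (Real.log X) ^ C) ∧
    (∀ i, (X : ℝ) ^ τ / 2 ≤ M i ∧ (M i : ℝ) ≤ yB th e X ∧ K i * M i ≤ X) ∧
    (∀ i m, a i m ≠ 0 → M i < m ∧ m ≤ 2 * M i ∧ (m : ℝ) ≤ yB th e X ∧ m * K i ≤ X) ∧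
    (∀ n ∈ Icc 1 X, u n = ∑ i ∈ range I, γ i n * ∑ l ∈ n.divisors, α i l +
      ∑ i ∈ range I, ∑ m ∈ n.divisors, (if n / m ≤ K i then a i m * c i (n / m) else 0))

/-- `(1/G) Σ_j ω(j) û(j) v̂(j) e(-n j / G)` -/
noncomputable def PhJ (G : ℕ) [NeZero G] (X : ℕ) (u v : ℕ → ℝ) (ω : ZMod G → ℂ) (n : ℕ) : ℂ :=
  (1 / (G : ℂ)) * ∑ j : ZMod G, ω j * tr G X u j * tr G X v j *
    ZMod.stdAddChar (-((n : ZMod G) * j))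

/-! ### Sections of the proof of GEN_J -/

/-- `ww + s gg f1` is structured up to a small error -/
def StrWJ : Prop := ∀ A : ℕ, ∃ B : ℕ, ∀ K0 C1 C2 : ℕ, ∃ C : ℕ, ∀ th e τ : ℝ, Adm th e τ →
  ∀ ww gg : ℕ → ℕ → ℝ, W1 K0 C1 ww gg → DecJ B C2 th e τ ww → ∀ D' : ℕ, 1 ≤ D' →
  ∃ X0 : ℕ, ∀ X : ℕ, X0 ≤ X → ∀ s : ℝ, |s| ≤ 1 → ∃ u err : ℕ → ℝ, Str C th e τ X u ∧
    (∀ n ∈ Icc 1 X, ww X n + s * fI gg X (wX D' X) n = u n + err n) ∧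
    ∑ n ∈ Icc 1 X, err n ^ 2 ≤ X / (Real.log X) ^ A

/-- the structure theorem -/
def StJ : Prop := ∀ (C : ℕ) (th e τ η : ℝ), Adm th e τ → 0 < η → η ≤ e → ∃ X0 : ℕ,
  ∀ X : ℕ, X0 ≤ X → ∀ (G : ℕ) [NeZero G], X ^ 5 ≤ G → ∀ u v : ℕ → ℝ, Str C th e τ X u →
    Str C th e τ X v → ∀ ω : ZMod G → ℂ, (∀ j, ‖ω j‖ ≤ 1) → ∀ E : Finset ℕ, E ⊆ Icc 1 X →
    (X : ℝ) ^ (th - e) ≤ E.card → ∀ ph : ℕ → ℂ, (∀ n, ‖ph n‖ ≤ 1) →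
    NoAPH G (dl th e) X ω E ((X : ℝ) ^ (-η)) →
    ‖∑ n ∈ E, ph n * PhJ G X u v ω n‖ ≤ (X : ℝ) ^ (1 - η / 100) * E.card

/-- the tree theorem -/
def TreeJ : Prop := ∀ (A C : ℕ) (th e τ : ℝ), Adm th e τ → ∃ X0 : ℕ, ∀ X : ℕ, X0 ≤ X →
  ∀ (G : ℕ) [NeZero G], X ^ 5 ≤ G → ∀ u v : ℕ → ℝ, Str C th e τ X u → Str C th e τ X v →
    ∀ Bx : Finset ℕ, Bx ⊆ Icc 1 X →
    (∀ n ∈ Bx, ∀ (Λ : ℕ) (bb : ℝ), 1 ≤ Λ → 1 ≤ bb → (Λ : ℝ) * bb ≤ 2 * (X : ℝ) ^ (1 - th + e) →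
      (X : ℝ) / (Real.log X) ^ A < ‖PhJ G X u v (wSI G th e X Λ bb) n‖) →
    (Bx.card : ℝ) ≤ (X : ℝ) ^ (th - e / 4)

/-- the pointwise lemma -/
def PlJ : Prop := ∀ A : ℕ, ∃ B : ℕ, ∀ K0 C1 C2 : ℕ, ∃ K1 K2 : ℕ, ∀ th e τ : ℝ, Adm th e τ →
  ∀ ww gg : ℕ → ℕ → ℝ, W1 K0 C1 ww gg → DecJ B C2 th e τ ww → ∀ D' A0 : ℕ, 1 ≤ D' →
  ∃ X0 : ℕ, ∀ X : ℕ, X0 ≤ X → ∀ n : ℕ, X < 2 * n → n ≤ X →
    ∀ (QQ : Finset ℕ) (N b : ℝ) (bq : ℕ → ℝ), (∀ q ∈ QQ, 1 ≤ q ∧ b ≤ bq q ∧ bq q ≤ 2 * b) →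
    (∀ q ∈ QQ, ∀ q' ∈ QQ, (Nat.lcm q q' : ℝ) ≤ N) → (QQ.card : ℝ) ≤ (X : ℝ) ^ (e / 2) →
    1 / (Real.log X) ^ A0 ≤ b → N * b ≤ (X : ℝ) ^ (1 - th + 3 / 2 * e) →
    ((Real.log X) ^ K2 < b ∨ ∀ q ∈ QQ, (Real.log X) ^ K1 * (Nat.gcd q n : ℝ) < q) →
    ∑ q ∈ QQ, ‖∑ a ∈ rr q,
      ((∫ x in (bq q / X)..(2 * bq q / X), FFI ww gg (wX D' X) X n ((a : ℝ) / q + x)) +
      ∫ x in (bq q / X)..(2 * bq q / X), FFI ww gg (wX D' X) X n ((a : ℝ) / q - x))‖ ≤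
      X / (Real.log X) ^ A

/-- greedy -/
def GreedyJ : Prop := ∀ A : ℕ, ∃ B : ℕ, ∀ K0 C1 C2 K1 K2 : ℕ, ∃ C : ℕ, ∀ (K : ℕ) (th e τ : ℝ),
  Adm th e τ → ∀ ww gg : ℕ → ℕ → ℝ, W1 K0 C1 ww gg → DecJ B C2 th e τ ww → MajI ww gg →
  ∃ D0 : ℕ, ∀ D' : ℕ, D0 ≤ D' → ∃ X0 : ℕ, ∀ X : ℕ, X0 ≤ X → ∃ D : Finset ℕ,
    (D.card : ℝ) ≤ (Real.log X) ^ C ∧
    (∀ d ∈ D, (Real.log X) ^ K ≤ (d : ℝ) ∧ (d : ℝ) ≤ (X : ℝ) ^ (1 - th + 3 * e)) ∧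
    ∀ n ∈ Icc 1 X, (∀ d ∈ D, ¬ d ∣ n) → ∀ (QQ : Finset ℕ) (N : ℝ),
      (∀ q ∈ QQ, 1 ≤ q ∧ (q : ℝ) ≤ (Real.log X) ^ K1 * (Nat.gcd q n : ℝ)) →
      (∀ q ∈ QQ, ∀ q' ∈ QQ, (Nat.lcm q q' : ℝ) ≤ N) → N ≤ (X : ℝ) ^ (1 - th + 3 / 2 * e) →
      ∑ q ∈ QQ, ∑ a ∈ rr q, ∫ x in (-(2 * (Real.log X) ^ K2) / X)..(2 * (Real.log X) ^ K2 / X),
        ‖WI ww gg (-1) (wX D' X) X ((a : ℝ) / q + x)‖ *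
          ‖WI ww gg 1 (wX D' X) X ((a : ℝ) / q + x)‖ ≤
        X / (Real.log X) ^ A

/-- GEN_J -/
def GenJ : Prop := ∀ A : ℕ, ∃ B : ℕ, ∀ K0 C1 C2 : ℕ, ∃ C : ℕ, ∀ th e τ : ℝ, Adm th e τ →
  ∀ ww gg : ℕ → ℕ → ℝ, W1 K0 C1 ww gg → DecJ B C2 th e τ ww → MajI ww gg → ∀ K : ℕ,
  ∃ D0 : ℕ, ∀ D' : ℕ, D0 ≤ D' → ∃ X0 : ℕ, ∀ X : ℕ, X0 ≤ X → ∃ D Ex : Finset ℕ,
    (D.card : ℝ) ≤ (Real.log X) ^ C ∧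
    (∀ d ∈ D, (Real.log X) ^ K ≤ (d : ℝ) ∧ (d : ℝ) ≤ (X : ℝ) ^ (1 - th + 3 * e)) ∧
    (Ex.card : ℝ) ≤ (X : ℝ) ^ (th - e / 4) ∧
    ∀ n : ℕ, X < 2 * n → n ≤ X → Even n → n ∉ Ex → (∀ d ∈ D, ¬ d ∣ n) →
      |cvv (ww X) (ww X) n - cvv (fI gg X (wX D' X)) (fI gg X (wX D' X)) n| ≤
        X / (Real.log X) ^ A

/-! ### Theorem J: the family of the primes -/

/-- the primes `≥ zI X` -/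
noncomputable def wP (X n : ℕ) : ℝ := if n.Prime ∧ zI X ≤ n then 1 else 0

/-- the density of the primes relative to `f1` -/
noncomputable def gP (_X n : ℕ) : ℝ := 1 / Real.log n

/-- the primes are type I sums and type II blocks -/
def DecP : Prop := ∀ B : ℕ, ∃ C2 : ℕ, ∀ th e τ : ℝ, Adm th e τ → 100 * e ≤ th - 1 / 3 →
  DecJ B C2 th e τ wP

open Classical in
/-- Theorem J -/
def FinJ : Prop := ∀ A : ℕ, ∃ C : ℕ, ∀ θ ε : ℝ, 1 / 3 < θ → θ < 1 / 2 → 0 < ε → ∀ K : ℕ,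
  ∃ X0 : ℕ, ∀ X : ℕ, X0 ≤ X → ∃ D : Finset ℕ, (D.card : ℝ) ≤ (Real.log X) ^ C ∧
    (∀ d ∈ D, (Real.log X) ^ K ≤ (d : ℝ) ∧ (d : ℝ) ≤ (X : ℝ) ^ (1 - θ + ε)) ∧
    (((Icc 1 X).filter (fun n : ℕ => Even n ∧
      (∀ d ∈ D, (d : ℝ) ≤ (n : ℝ) ^ (1 - θ + ε) → ¬ d ∣ n) ∧ Exc A n)).card : ℝ) ≤ (X : ℝ) ^ θ

end Pool.MP_dd84fd_nt.JX
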