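import Pool.Agent.Lib.MP_dd84fd_nt.HX.PlDefs
import Pool.Agent.Lib.MP_dd84fd_nt.JX.Defs

/-!
# Theorem J, PL_J: definitions

As `IX/PlDefs.lean`; blocks with `X^τ/2 ≤ M ≤ X^(θ-3e)`, `#QQ ≤ X^(e/2)`, all `θ > 1/5`.
`cA`: case A of the type I part, `16 D q (1+b) ≤ X`.
-/

set_option autoImplicit false

namespace Pool.MP_dd84fd_nt.JXP

open Finset Pool.MP_67663b_nt.Odd Pool.MP_dd84fd_nt.PL Pool.MP_dd84fd_nt.HX Pool.MP_dd84fd_nt.HXP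
open Pool.MP_dd84fd_nt.IX (WI)

/-- a type II block: `m ∈ MM ⊆ (M, 2M]`, `|a_m| ≤ Am`, `∑_{k ≤ K} |c_k|² ≤ S X / M` -/
def BlkJ (X : ℕ) (th e τ M : ℝ) (K : ℕ) (MM : Finset ℕ) (a c : ℕ → ℂ) (Am S : ℝ) : Prop :=
  (X : ℝ) ^ τ / 2 ≤ M ∧ M ≤ (X : ℝ) ^ (th - 3 * e) ∧ K ≤ X ∧
    (∀ m ∈ MM, M < (m : ℝ) ∧ (m : ℝ) ≤ 2 * M) ∧ (∀ m ∈ MM, ‖a m‖ ≤ Am) ∧
    ∑ k ∈ Icc 1 K, ‖c k‖ ^ 2 ≤ S * X / M

/-- the standing hypotheses of PL_J on `X, n, b, N, σ, QQ, bq` -/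
def StdJ (X n : ℕ) (th e : ℝ) (A1 : ℕ) (b N σ : ℝ) (QQ : Finset ℕ) (bq : ℕ → ℝ) : Prop :=
  X < 2 * n ∧ n ≤ X ∧ (σ = 1 ∨ σ = -1) ∧ (Real.log X) ^ (-(A1 : ℝ)) ≤ b ∧ 1 ≤ N ∧
    N * b ≤ (X : ℝ) ^ (1 - th + 3 / 2 * e) ∧ Fam QQ N ∧ (QQ.card : ℝ) ≤ (X : ℝ) ^ (e / 2) ∧
    ∀ q ∈ QQ, b ≤ bq q ∧ bq q ≤ 2 * b

/-- case A of the type I part -/
def cA (X D : ℕ) (b : ℝ) (q : ℕ) : Prop := 16 * (D : ℝ) * q * (1 + b) ≤ X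

/-- `WI` on the half arcs -/
noncomputable def WJa (ww gg : ℕ → ℕ → ℝ) (s σ : ℝ) (w X q a : ℕ) (x : ℝ) : ℂ :=
  WI ww gg s w X ((a : ℝ) / q + σ * x)

/-- the type I part on the arcs: the term `g = q` is left out in case A -/
noncomputable def T1j (X D : ℕ) (b : ℝ) (γ : ℕ → ℕ → ℝ) (σ : ℝ) (q a : ℕ) (x : ℝ) : ℂ :=
  open Classical in
  ∑ g ∈ q.divisors.filter (fun g => cA X D b q → g ≠ q),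
    ((ArithmeticFunction.moebius g : ℤ) : ℂ) *
      ∑ l ∈ (Icc 1 D).filter (fun l => Nat.Coprime l q),
        iw X (l * g) (γ l) ((a : ℝ) / q + σ * x)

/-- the model on the arcs: the multiples of `q` are left out in case A -/
noncomputable def T2j (X D : ℕ) (b : ℝ) (γ : ℕ → ℕ → ℝ) (σ : ℝ) (q a : ℕ) (x : ℝ) : ℂ :=
  open Classical in
  ∑ d ∈ (Icc 1 (V0 X)).filter (fun d => cA X D b q → ¬ q ∣ d),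
    iw X d (γ d) ((a : ℝ) / q + σ * x)

end Pool.MP_dd84fd_nt.JXP
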