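import Pool.Agent.Lib.MP_dd84fd_nt.IX.PlTIl
import Pool.Agent.Lib.MP_dd84fd_nt.JX.PlDefs
import Pool.Agent.Lib.MP_dd84fd_nt.GX.Den2

/-!
# PL_J-HtPt: type I sums at an arbitrary point, in terms of its height

Adapt `ti_large`, `pltil_core` of `IX/PlTIl.lean` (shorter here).  `H := ht X α` (`1 ≤ H ≤ √X`, `GX.ht_spec`).
`iw_le` (see `IX/PlTIl.lean`): each term is `≤ 2 R mn(X/(lg), lgα)`; terms with `l > Y := X/g` vanish; so the sum is
`≤ 2R ∑_{l ≤ min(D, X/g)} mn(Y/l, lβ)`, `β = gα`.  If `Y < 2` there is at most one term, `≤ Y < 2 ≤ 2 X/H`.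
If `Y ≥ 2`: `h0 := H/(8g)`, `P := Y/h0 = 8X/H ≥ 8`.  Dirichlet (`Real.exists_rat_abs_sub_le_and_den_le`, as in `pltil_core`): reduced `a''/r`,
`1 ≤ r ≤ P`, `|rβ - a''| ≤ 1/P`, so `|β - a''/r| ≤ 1/r²`.  Claim `r ≥ h0`: otherwise `d := rg < H/8 < √X/4` and
`nrm (d α) ≤ |rβ - a''| ≤ 1/P = H/(8X) < 1/(4√X)`, and then `max d (X nrm(dα)) ≥ H` (`near_frac` in `GX/Den.lean`),
contradiction to `max (rg) (X nrm(rgα)) ≤ H/8`.
`En.sum_mn'` (`X := Y`, `N := min(D, X/g)`): `C (Y/r + D + r) log(2rY) ≤ C (Y/h0 + D + P) log (16 X²) ≤ C (16X/H + D)(1 + log X)·..`.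
-/

set_option autoImplicit false

namespace Pool.MP_dd84fd_nt.JXP

open Finset Pool.MP_67663b_nt.Odd Pool.MP_dd84fd_nt.PL Pool.MP_dd84fd_nt.HX Pool.MP_dd84fd_nt.HXP
open Pool.MP_dd84fd_nt.GX (ht)

private theorem htpt_mn (M x : ℝ) : L2G.mn M x = En.mn M x := by
  unfold L2G.mn En.mn L2G.nrm
  have h : 2 * |x - round x| * M = 2 * M * |x - round x| := by ring
  rw [h]

private theorem htpt_core : ∃ C : ℝ, 0 < C ∧ ∀ (X g D : ℕ) (α : ℝ), 1 ≤ X → 1 ≤ g →
    ∑ l ∈ Icc 1 (min D (X / g)), En.mn (((X : ℝ) / g) / l) ((l : ℝ) * ((g : ℝ) * α)) ≤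
      C * ((D : ℝ) + X / ht X α) * (1 + Real.log X) := by
  obtain ⟨C0, hC0, hsum⟩ := En.sum_mn'
  refine ⟨240 * C0 + 2, by positivity, ?_⟩
  intro X g D α hX hg1
  obtain ⟨g1, g2, g3, g4⟩ := GX.ht_spec X hX α
  set H : ℝ := ht X α with hH
  have hH0 : 0 < H := by linarith
  have hgR : (0 : ℝ) < g := by exact_mod_cast hg1
  have hg1R : (1 : ℝ) ≤ g := by exact_mod_cast hg1
  have hX1 : (1 : ℝ) ≤ X := by exact_mod_cast hX
  have hX0 : (0 : ℝ) < X := by linarith
  have hs0 : 0 < Real.sqrt X := Real.sqrt_pos.2 hX0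
  have hss : Real.sqrt X * Real.sqrt X = X := Real.mul_self_sqrt hX0.le
  have hs1 : 1 ≤ Real.sqrt X := by
    rw [Real.one_le_sqrt]
    exact hX1
  have hsX : Real.sqrt X ≤ X := by nlinarith
  have hHX : H ≤ X := g2.trans hsX
  have hXH1 : 1 ≤ (X : ℝ) / H := by
    rw [le_div_iff₀ hH0]
    linarith
  have hXHX : (X : ℝ) / H ≤ X := div_le_self hX0.le g1
  have hlogX : 0 ≤ Real.log X := Real.log_nonneg hX1
  have hD0 : (0 : ℝ) ≤ D := Nat.cast_nonneg D
  set Y : ℝ := (X : ℝ) / g with hY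
  have hY0 : 0 < Y := by positivity
  have hYX : Y ≤ X := by
    rw [hY]
    exact div_le_self hX0.le hg1R
  have hNY : ((min D (X / g) : ℕ) : ℝ) ≤ Y := by
    have h1 : ((min D (X / g) : ℕ) : ℝ) ≤ ((X / g : ℕ) : ℝ) := by
      exact_mod_cast min_le_right D (X / g)
    exact h1.trans Nat.cast_div_le
  have hND : ((min D (X / g) : ℕ) : ℝ) ≤ D := by exact_mod_cast min_le_left D (X / g)
  rcases lt_or_ge Y 2 with hY2 | hY2
  · -- at most one term
    have hN1 : min D (X / g) ≤ 1 := by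
      have h1 : ((min D (X / g) : ℕ) : ℝ) < 2 := lt_of_le_of_lt hNY hY2
      have h2 : min D (X / g) < 2 := by exact_mod_cast h1
      omega
    have h1 : ∑ l ∈ Icc 1 (min D (X / g)), En.mn (Y / l) ((l : ℝ) * ((g : ℝ) * α)) ≤
        ∑ l ∈ Icc 1 1, En.mn (Y / (l : ℕ)) (((l : ℕ) : ℝ) * ((g : ℝ) * α)) := by
      apply Finset.sum_le_sum_of_subset_of_nonneg
      · exact Finset.Icc_subset_Icc_right hN1
      · intro l _ _
        exact En.mn_nonneg (by positivity) _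
    refine h1.trans ?_
    rw [Finset.Icc_self, Finset.sum_singleton]
    have h2 := En.mn_le (Y / ((1 : ℕ) : ℝ)) (((1 : ℕ) : ℝ) * ((g : ℝ) * α))
    have h3 : Y / ((1 : ℕ) : ℝ) < 2 := by
      rw [Nat.cast_one, div_one]
      exact hY2
    have h4 : (2 : ℝ) ≤ (240 * C0 + 2) * ((D : ℝ) + X / H) * (1 + Real.log X) := by
      have a1 : (2 : ℝ) * 1 ≤ (240 * C0 + 2) * ((D : ℝ) + X / H) := by
        apply mul_le_mul (by linarith) (by linarith) (by norm_num) (by positivity)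
      have a2 : (2 : ℝ) * 1 * 1 ≤ (240 * C0 + 2) * ((D : ℝ) + X / H) * (1 + Real.log X) := by
        apply mul_le_mul a1 (by linarith) (by norm_num) (by positivity)
      linarith
    linarith
  -- main case
  set h0 : ℝ := H / (8 * g) with hh0
  have hh0pos : 0 < h0 := by positivity
  set P : ℝ := Y / h0 with hP
  have hPe : P = 8 * (X / H) := by
    rw [hP, hY, hh0]
    field_simp
  have hP8 : 8 ≤ P := by
    rw [hPe]
    linarith
  have hP0 : 0 < P := by linarith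
  have hPX : P ≤ 8 * X := by
    rw [hPe]
    linarith
  set β : ℝ := (g : ℝ) * α with hβ
  set n : ℕ := ⌊P⌋₊ with hn
  have hn0 : 0 < n := by
    rw [hn, Nat.floor_pos]
    linarith
  have hnP : (n : ℝ) ≤ P := Nat.floor_le hP0.le
  have hPn : P ≤ n + 1 := (Nat.lt_floor_add_one P).le
  obtain ⟨t, ht1, htd⟩ := Real.exists_rat_abs_sub_le_and_den_le β hn0
  set r : ℕ := t.den with hrdef
  have hr1 : 1 ≤ r := t.pos
  have hrR : (0 : ℝ) < r := by exact_mod_cast hr1
  have hr1R : (1 : ℝ) ≤ r := by exact_mod_cast hr1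
  have hrn : (r : ℝ) ≤ n := by exact_mod_cast htd
  have htR : (t : ℝ) = (t.num : ℝ) / r := Rat.cast_def t
  have hgcd : Int.gcd t.num (r : ℤ) = 1 := by
    have := t.reduced
    rw [Nat.Coprime] at this
    simpa [Int.gcd] using this
  have hrβ : (r : ℝ) * |β - t| ≤ 1 / P := by
    have h1 : |β - t| ≤ 1 / (P * r) := by
      refine ht1.trans ?_
      apply one_div_le_one_div_of_le (by positivity)
      exact mul_le_mul_of_nonneg_right hPn hrR.le
    calc (r : ℝ) * |β - t| ≤ r * (1 / (P * r)) := by gcongr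
      _ = 1 / P := by field_simp
  have hPinv : 1 / P = H / (8 * X) := by
    rw [hPe]
    field_simp
  have hclaim : h0 ≤ r := by
    by_contra hcon
    rw [not_le] at hcon
    have hdH : (((r * g : ℕ)) : ℝ) < H / 8 := by
      push_cast
      have h1 : (r : ℝ) * g < h0 * g := mul_lt_mul_of_pos_right hcon hgR
      have h2 : h0 * g = H / 8 := by
        rw [hh0]
        field_simp
      linarith
    have hnr : L2G.nrm (((r * g : ℕ) : ℝ) * α) ≤ H / (8 * X) := by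
      have e1 : L2G.nrm (((r * g : ℕ) : ℝ) * α) ≤ |((r * g : ℕ) : ℝ) * α - t.num| := round_le _ _
      have e2 : ((r * g : ℕ) : ℝ) * α - t.num = r * (β - t) := by
        rw [htR, hβ]
        push_cast
        field_simp
      have e3 : |((r * g : ℕ) : ℝ) * α - t.num| = r * |β - t| := by
        rw [e2, abs_mul, abs_of_pos hrR]
      rw [← hPinv]
      linarith
    have hk1 : ((r * g : ℕ) : ℝ) < Real.sqrt X / 4 := by linarith
    have hk2 : L2G.nrm (((r * g : ℕ) : ℝ) * α) < 1 / (4 * Real.sqrt X) := by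
      refine lt_of_le_of_lt hnr ?_
      rw [div_lt_div_iff₀ (by positivity) (by positivity)]
      nlinarith
    obtain ⟨hdv, hmx⟩ := GX.near_frac X hX α (r * g) (Nat.mul_pos hr1 hg1) hk1 hk2
    have hle : max (((r * g : ℕ)) : ℝ) ((X : ℝ) * L2G.nrm (((r * g : ℕ) : ℝ) * α)) ≤ H / 8 := by
      apply max_le hdH.le
      calc (X : ℝ) * L2G.nrm (((r * g : ℕ) : ℝ) * α) ≤ X * (H / (8 * X)) := by gcongr
        _ = H / 8 := by field_simp
    have hqpos : (0 : ℝ) < GX.qd X α := by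
      have := (GX.qd_spec X hX α).1
      exact_mod_cast this
    have hqle : ((GX.qd X α : ℕ) : ℝ) ≤ ((r * g : ℕ) : ℝ) := by
      exact_mod_cast Nat.le_of_dvd (Nat.mul_pos hr1 hg1) hdv
    have hone : 1 ≤ ((r * g : ℕ) : ℝ) / (GX.qd X α : ℝ) := by
      rw [le_div_iff₀ hqpos]
      linarith
    rw [hmx] at hle
    have : H ≤ ((r * g : ℕ) : ℝ) / (GX.qd X α : ℝ) * ht X α := by
      rw [← hH]
      nlinarith
    linarith
  have hβt : |β - (t.num : ℝ) / r| ≤ 1 / (r : ℝ) ^ 2 := by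
    rw [← htR]
    refine ht1.trans ?_
    apply one_div_le_one_div_of_le (by positivity)
    have : (r : ℝ) ≤ n + 1 := by linarith
    nlinarith
  have hmain := hsum β r t.num hr1 hgcd hβt Y (min D (X / g)) hNY hY2
  refine hmain.trans ?_
  have hYr : Y / r ≤ P := by
    rw [hP]
    exact div_le_div_of_nonneg_left hY0.le hh0pos hclaim
  have hrP : (r : ℝ) ≤ P := hrn.trans hnP
  have hlog : Real.log (2 * r * Y) ≤ 15 * (1 + Real.log X) := by
    have h1 : 2 * (r : ℝ) * Y ≤ 16 * (X : ℝ) ^ 2 := by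
      calc 2 * (r : ℝ) * Y ≤ 2 * (8 * X) * X := by
            gcongr
            exact hrP.trans hPX
        _ = 16 * (X : ℝ) ^ 2 := by ring
    have h2 : Real.log (2 * r * Y) ≤ Real.log (16 * (X : ℝ) ^ 2) :=
      Real.log_le_log (by positivity) h1
    have h3 : Real.log (16 * (X : ℝ) ^ 2) = Real.log 16 + 2 * Real.log X := by
      rw [Real.log_mul (by norm_num) (by positivity), Real.log_pow]
      norm_num
    have h4 : Real.log 16 ≤ 16 - 1 := Real.log_le_sub_one_of_pos (by norm_num)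
    linarith
  have hlog0 : 0 ≤ Real.log (2 * r * Y) := by
    apply Real.log_nonneg
    nlinarith
  have hS0 : 0 ≤ (D : ℝ) + X / H := by positivity
  calc C0 * (Y / r + ((min D (X / g) : ℕ) : ℝ) + r) * Real.log (2 * r * Y) ≤
        C0 * (16 * ((D : ℝ) + X / H)) * Real.log (2 * r * Y) := by
        have h1 : Y / r + ((min D (X / g) : ℕ) : ℝ) + r ≤ 16 * ((D : ℝ) + X / H) := by
          linarith
        gcongr
    _ ≤ C0 * (16 * ((D : ℝ) + X / H)) * (15 * (1 + Real.log X)) := by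
        gcongr
    _ = 240 * C0 * ((D : ℝ) + X / H) * (1 + Real.log X) := by ring
    _ ≤ (240 * C0 + 2) * ((D : ℝ) + X / H) * (1 + Real.log X) := by
        gcongr
        linarith

theorem ti_ht : ∃ C : ℝ, 0 < C ∧ ∀ (X D g : ℕ) (S : Finset ℕ) (γ : ℕ → ℕ → ℝ) (R α : ℝ),
    1 ≤ X → 1 ≤ g → (∀ l ∈ S, 1 ≤ l ∧ l ≤ D) → 0 ≤ R → (∀ l ∈ S, BVw X R (γ l)) →
    ‖∑ l ∈ S, iw X (l * g) (γ l) α‖ ≤
      C * R * ((D : ℝ) + X / ht X α) * (1 + Real.log X) := by
  obtain ⟨C0, hC0, hcore⟩ := htpt_core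
  refine ⟨2 * C0, by positivity, ?_⟩
  intro X D g S γ R α hX hg1 hS hR hγ
  have h := hcore X g D α hX hg1
  set F : ℕ → ℝ := fun l => En.mn (((X : ℝ) / g) / l) ((l : ℝ) * ((g : ℝ) * α)) with hF
  have hF0 : ∀ l : ℕ, 0 ≤ F l := fun l => En.mn_nonneg (by positivity) _
  have hterm : ∀ l ∈ S, ‖iw X (l * g) (γ l) α‖ ≤ if l ≤ X / g then 2 * R * F l else 0 := by
    intro l hl
    obtain ⟨hl1, hlD⟩ := hS l hl
    split_ifs with hlg
    · have h1 := iw_le X (l * g) (γ l) R α (Nat.mul_pos hl1 hg1) hR (hγ l hl)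
      rw [htpt_mn] at h1
      have e1 : (X : ℝ) / ((l * g : ℕ) : ℝ) = ((X : ℝ) / g) / l := by
        push_cast
        rw [div_div, mul_comm]
      have e2 : ((l * g : ℕ) : ℝ) * α = (l : ℝ) * ((g : ℝ) * α) := by
        push_cast
        ring
      rw [e1, e2] at h1
      exact h1
    · have h2 : X / (l * g) = 0 := by
        rw [Nat.mul_comm, ← Nat.div_div_eq_div_mul]
        exact Nat.div_eq_of_lt (by omega)
      unfold iw
      rw [h2]
      simp
  calc ‖∑ l ∈ S, iw X (l * g) (γ l) α‖ ≤ ∑ l ∈ S, ‖iw X (l * g) (γ l) α‖ := norm_sum_le _ _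
    _ ≤ ∑ l ∈ S, (if l ≤ X / g then 2 * R * F l else 0) := Finset.sum_le_sum hterm
    _ = ∑ l ∈ S.filter (fun l => l ≤ X / g), 2 * R * F l := (Finset.sum_filter _ _).symm
    _ ≤ ∑ l ∈ Icc 1 (min D (X / g)), 2 * R * F l := by
        apply Finset.sum_le_sum_of_subset_of_nonneg
        · intro l hl
          rw [Finset.mem_filter] at hl
          rw [Finset.mem_Icc]
          exact ⟨(hS l hl.1).1, le_min (hS l hl.1).2 hl.2⟩
        · intro l _ _
          have := hF0 l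
          positivity
    _ = 2 * R * ∑ l ∈ Icc 1 (min D (X / g)), F l := by rw [Finset.mul_sum]
    _ ≤ 2 * R * (C0 * ((D : ℝ) + X / ht X α) * (1 + Real.log X)) := by
        gcongr
    _ = 2 * C0 * R * ((D : ℝ) + X / ht X α) * (1 + Real.log X) := by ring

end Pool.MP_dd84fd_nt.JXP
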