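import Pool.Agent.Lib.MP_dd84fd_nt.HX.PlTIN
import Pool.Agent.Lib.MP_dd84fd_nt.IX.PlT2
import Pool.Agent.Lib.MP_dd84fd_nt.JX.HtPt
import Pool.Agent.Lib.MP_dd84fd_nt.JX.HtMass

/-!
# PL_J-T2: the model on the arcs, and the `L²` norm of the functions `lam`

Adapt `t2i_N2`, `lami_N2` of `IX/PlT2.lean` (copy the private lemmas).
`t2j_N2`: one modulus at a time, `∑_{a ∈ rr q} ∫_{b_q/X}^{2b_q/X} ‖T2j‖² ≤ X^(1-6e)`, `N2 ≤ #QQ X^(1-6e)`.
Case A, `16 D q (1+b) ≤ X` (`q ≤ X/(16D) ≤ D` as `D² ≥ X`): `ti_rest` with `g = 1`, level `V0 X ≤ X^(1/4) ≤ D` (`4 V0 q x ≤ 4 D q · 4b/X ≤ 1`),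
pointwise `≤ C L^C0 (V0 + q)(1+L) ≤ X^(e/5) · 2D`: as in `PlT1`: `q (b_q/X) X^(2e/5) 16 X^(2lv) ≤ X^(1-6e)`.
Case B: `ti_ht` with `g = 1`, level `V0 X ≤ D`: pointwise `≤ C L^C0 (1+L)(D + X/ht) ≤ X^(e/5) D + X^(e/5) X/ht`, `ht_mass` as in `PlT1`.
`lamj_N2`: as `lami_N2` with the condition `cA`: it implies `16 D q b ≤ X`.
-/

set_option autoImplicit false

namespace Pool.MP_dd84fd_nt.JXP

open Finset Pool.MP_67663b_nt.Odd Pool.MP_dd84fd_nt.PL Pool.MP_dd84fd_nt.HX Pool.MP_dd84fd_nt.HXP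
open Pool.MP_dd84fd_nt.JX (Adm ZJ lv)
open Pool.MP_dd84fd_nt.GX (ht)

private theorem t2_log (K : ℕ) (A η : ℝ) (hη : 0 < η) : ∃ X0 : ℕ, ∀ X : ℕ, X0 ≤ X →
    A * (Real.log X) ^ K ≤ (X : ℝ) ^ η := by
  have h1 := (isLittleO_log_rpow_rpow_atTop (K : ℝ) hη).bound
    (show (0 : ℝ) < 1 / (|A| + 1) by positivity)
  obtain ⟨x0, hx0⟩ := Filter.eventually_atTop.1 h1
  refine ⟨max ⌈x0⌉₊ 1, fun X hX => ?_⟩
  have hX1 : 1 ≤ X := (le_max_right _ _).trans hX
  have hX2 : x0 ≤ X := (Nat.le_ceil x0).trans (by exact_mod_cast (le_max_left _ _).trans hX)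
  have h2 := hx0 X hX2
  have hL : 0 ≤ Real.log X := Real.log_natCast_nonneg X
  have hXp : (0 : ℝ) ≤ (X : ℝ) ^ η := Real.rpow_nonneg (Nat.cast_nonneg X) _
  rw [Real.rpow_natCast, Real.norm_eq_abs, Real.norm_eq_abs, abs_of_nonneg (pow_nonneg hL K),
    abs_of_nonneg hXp] at h2
  calc A * (Real.log X) ^ K ≤ |A| * (Real.log X) ^ K :=
        mul_le_mul_of_nonneg_right (le_abs_self A) (pow_nonneg hL K)
    _ ≤ |A| * (1 / (|A| + 1) * (X : ℝ) ^ η) := mul_le_mul_of_nonneg_left h2 (abs_nonneg A)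
    _ = (|A| / (|A| + 1)) * (X : ℝ) ^ η := by ring
    _ ≤ 1 * (X : ℝ) ^ η := by
        apply mul_le_mul_of_nonneg_right _ hXp
        rw [div_le_one (by positivity)]
        linarith
    _ = (X : ℝ) ^ η := one_mul _

private theorem t2_big (T : ℝ) : ∃ X0 : ℕ, ∀ X : ℕ, X0 ≤ X → T ≤ Real.log X := by
  refine ⟨⌈Real.exp T⌉₊, fun X hX => ?_⟩
  have h1 : Real.exp T ≤ X := (Nat.le_ceil _).trans (by exact_mod_cast hX)
  rw [Real.le_log_iff_exp_le ((Real.exp_pos T).trans_le h1)]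
  exact h1

private theorem t2_V0 (X : ℕ) (hX : 1 ≤ X) : (V0 X : ℝ) ≤ (X : ℝ) ^ (1 / 4 : ℝ) := by
  have hX0 : (0 : ℝ) < X := by exact_mod_cast hX
  have h3 : (V0 X : ℝ) ≤ Real.sqrt (Nat.sqrt X) := Real.nat_sqrt_le_real_sqrt
  have h4 : Real.sqrt (Nat.sqrt X) ≤ Real.sqrt (Real.sqrt X) :=
    Real.sqrt_le_sqrt Real.nat_sqrt_le_real_sqrt
  have h5 : Real.sqrt (Real.sqrt X) = (X : ℝ) ^ (1 / 4 : ℝ) := by
    rw [Real.sqrt_eq_rpow, Real.sqrt_eq_rpow, ← Real.rpow_mul hX0.le]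
    norm_num
  exact (h3.trans h4).trans h5.le

private theorem t2_harm (QQ : Finset ℕ) (N : ℝ) (hN : Fam QQ N) (hN1 : 1 ≤ N) :
    ∑ q ∈ QQ, 1 / (q : ℝ) ≤ 1 + Real.log N := by
  have hsub : QQ ⊆ Icc 1 ⌊N⌋₊ := by
    intro q hq
    rw [mem_Icc]
    refine ⟨hN.1 q hq, Nat.le_floor ?_⟩
    have := hN.2 q hq q hq
    rwa [Nat.lcm_self] at this
  have h1 : ∑ q ∈ QQ, 1 / (q : ℝ) ≤ ∑ q ∈ Icc 1 ⌊N⌋₊, 1 / (q : ℝ) :=
    sum_le_sum_of_subset_of_nonneg hsub fun _ _ _ => by positivity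
  have h2 := harmonic_le_one_add_log ⌊N⌋₊
  rw [harmonic_eq_sum_Icc] at h2
  push_cast at h2
  have h3 : ∑ q ∈ Icc 1 ⌊N⌋₊, 1 / (q : ℝ) = ∑ q ∈ Icc 1 ⌊N⌋₊, ((q : ℝ))⁻¹ :=
    sum_congr rfl fun _ _ => one_div _
  have h4 : Real.log ⌊N⌋₊ ≤ Real.log N := by
    apply Real.log_le_log
    · have : 1 ≤ ⌊N⌋₊ := Nat.le_floor (by exact_mod_cast hN1)
      exact_mod_cast this
    · exact Nat.floor_le (by linarith)
  rw [← h3] at h2
  linarith

/-- facts for large `X` -/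
private theorem t2_facts (th e τ : ℝ) (A1 : ℕ) (hp : Adm th e τ) : ∃ X0 : ℕ, ∀ X : ℕ,
    X0 ≤ X → ∀ (n : ℕ) (b N σ : ℝ) (QQ : Finset ℕ) (bq : ℕ → ℝ), StdJ X n th e A1 b N σ QQ bq →
    2 ≤ X ∧ 2 ≤ Real.log X ∧ 0 < b ∧ N * b ≤ (X : ℝ) ^ (1 - th + 3 / 2 * e) ∧ N ≤ X ∧
    N ≤ (X : ℝ) ^ (1 - th + 8 / 5 * e) ∧ 4 * b ≤ X ∧
    (∀ q ∈ QQ, 1 ≤ q ∧ q ≤ X ∧ (q : ℝ) ≤ N) := by
  obtain ⟨ht1, ht2, he0, hτ, het⟩ := hp
  obtain ⟨X1, hX1⟩ := t2_log A1 1 (e / 10) (by linarith)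
  obtain ⟨X2, hX2⟩ := t2_big 2
  obtain ⟨X3, hX3⟩ := t2_log 0 4 (1 / 10) (by norm_num)
  refine ⟨max (max X1 X2) (max X3 2), ?_⟩
  intro X hX n b N σ QQ bq hstd
  have g1 := hX1 X ((le_max_left _ _).trans ((le_max_left _ _).trans hX))
  have g2 := hX2 X ((le_max_right _ _).trans ((le_max_left _ _).trans hX))
  have g3 := hX3 X ((le_max_left _ _).trans ((le_max_right _ _).trans hX))
  have hX2' : 2 ≤ X := (le_max_right _ _).trans ((le_max_right _ _).trans hX)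
  have hX1' : 1 ≤ X := by omega
  have hX0 : (0 : ℝ) < X := by exact_mod_cast hX1'
  have hX1R : (1 : ℝ) ≤ X := by exact_mod_cast hX1'
  obtain ⟨-, -, hσ, hbL, hN1, hNb, hfam, -, hbq⟩ := hstd
  obtain ⟨L, hL⟩ : ∃ L : ℝ, L = Real.log X := ⟨_, rfl⟩
  rw [← hL] at g1 g2 hbL
  rw [pow_zero, mul_one] at g3
  rw [one_mul] at g1
  have hL0 : 0 < L := by linarith
  have hb0 : 0 < b := lt_of_lt_of_le (Real.rpow_pos_of_pos hL0 _) hbL
  have hNle : N ≤ (X : ℝ) ^ (1 - th + 8 / 5 * e) := by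
    have h1 : 1 ≤ b * L ^ A1 := by
      have h2 : L ^ (-(A1 : ℝ)) * L ^ A1 = 1 := by
        rw [← Real.rpow_natCast, ← Real.rpow_add hL0]
        simp
      calc 1 = L ^ (-(A1 : ℝ)) * L ^ A1 := h2.symm
        _ ≤ b * L ^ A1 := mul_le_mul_of_nonneg_right hbL (by positivity)
    calc N = N * 1 := (mul_one N).symm
      _ ≤ N * (b * L ^ A1) := mul_le_mul_of_nonneg_left h1 (by linarith)
      _ = (N * b) * L ^ A1 := by ring
      _ ≤ (X : ℝ) ^ (1 - th + 3 / 2 * e) * (X : ℝ) ^ (e / 10) := by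
          apply mul_le_mul hNb g1 (by positivity) (by positivity)
      _ = (X : ℝ) ^ (1 - th + 8 / 5 * e) := by
          rw [← Real.rpow_add hX0]
          congr 1
          ring
  have hNX : N ≤ X := by
    have h1 : (X : ℝ) ^ (1 - th + 8 / 5 * e) ≤ (X : ℝ) ^ (1 : ℝ) :=
      Real.rpow_le_rpow_of_exponent_le hX1R (by linarith)
    rw [Real.rpow_one] at h1
    exact hNle.trans h1
  have hqq' : ∀ q ∈ QQ, 1 ≤ q ∧ (q : ℝ) ≤ N := by
    intro q hqq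
    have h1 := hfam.2 q hqq q hqq
    rw [Nat.lcm_self] at h1
    exact ⟨hfam.1 q hqq, h1⟩
  have h4b : 4 * b ≤ X := by
    have h1 : b ≤ N * b := by nlinarith
    calc 4 * b ≤ (X : ℝ) ^ (1 / 10 : ℝ) * (X : ℝ) ^ (1 - th + 3 / 2 * e) :=
          mul_le_mul g3 (h1.trans hNb) hb0.le (by positivity)
      _ = (X : ℝ) ^ (1 / 10 + (1 - th + 3 / 2 * e)) := by rw [← Real.rpow_add hX0]
      _ ≤ (X : ℝ) ^ (1 : ℝ) := Real.rpow_le_rpow_of_exponent_le hX1R (by linarith)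
      _ = X := Real.rpow_one _
  refine ⟨hX2', by rw [← hL]; exact g2, hb0, hNb, hNX, hNle, h4b, ?_⟩
  intro q hqq
  obtain ⟨hq1, h1⟩ := hqq' q hqq
  exact ⟨hq1, by exact_mod_cast h1.trans hNX, h1⟩

theorem t2j_cont (X D : ℕ) (b : ℝ) (γ : ℕ → ℕ → ℝ) (σ : ℝ) (q a : ℕ) :
    Continuous (T2j X D b γ σ q a) := by
  unfold T2j
  exact continuous_finsetSum _ fun l _ => (iw_cont X l (γ l)).comp (by fun_prop)

/-- the pointwise bound -/
private theorem t2_pt (C0 : ℕ) (e : ℝ) (he : 0 < e) : ∃ X0 : ℕ, ∀ X : ℕ, X0 ≤ X →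
    ∀ (D : ℕ) (b bq : ℝ) (q a : ℕ) (γ : ℕ → ℕ → ℝ) (σ x : ℝ), 1 ≤ q → q ≤ X →
    Nat.Coprime a q → (σ = 1 ∨ σ = -1) → 0 < b → b ≤ bq → bq ≤ 2 * b →
    bq / X ≤ x → x ≤ 2 * bq / X → (X : ℝ) ^ (1 / 2 : ℝ) ≤ D →
    (∀ l, BVw X ((Real.log X) ^ C0) (γ l)) →
    ‖T2j X D b γ σ q a x‖ ≤ (X : ℝ) ^ (e / 5) * D +
      (open Classical in if cA X D b q then 0 else (X : ℝ) ^ (e / 5)) *
        (X / ht X ((a : ℝ) / q + σ * x)) := by
  classical
  obtain ⟨C, hC, hti⟩ := ti_rest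
  obtain ⟨C', hC', hth⟩ := ti_ht
  obtain ⟨X1, hX1⟩ := t2_log (C0 + 1) (4 * C) (e / 5) (by linarith)
  obtain ⟨X2, hX2⟩ := t2_log (C0 + 1) (2 * C') (e / 5) (by linarith)
  obtain ⟨X3, hX3⟩ := t2_big 2
  refine ⟨max (max X1 X2) (max X3 2), ?_⟩
  intro X hX D b bq q a γ σ x hq1 hqX hcop hσ hb0 hbb1 hbb2 hx1 hx2 hXD hγ
  have g1 := hX1 X ((le_max_left _ _).trans ((le_max_left _ _).trans hX))
  have g2 := hX2 X ((le_max_right _ _).trans ((le_max_left _ _).trans hX))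
  have g3 := hX3 X ((le_max_left _ _).trans ((le_max_right _ _).trans hX))
  have hX2' : 2 ≤ X := (le_max_right _ _).trans ((le_max_right _ _).trans hX)
  have hX1' : 1 ≤ X := by omega
  have hX0 : (0 : ℝ) < X := by exact_mod_cast hX1'
  have hX1R : (1 : ℝ) ≤ X := by exact_mod_cast hX1'
  have hqR : (1 : ℝ) ≤ q := by exact_mod_cast hq1
  have hL0 : 0 < Real.log X := by linarith
  have hR0 : 0 ≤ (Real.log X) ^ C0 := by positivity
  have hV := t2_V0 X hX1'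
  have hVD : (V0 X : ℝ) ≤ D := by
    have h1 : (X : ℝ) ^ (1 / 4 : ℝ) ≤ (X : ℝ) ^ (1 / 2 : ℝ) :=
      Real.rpow_le_rpow_of_exponent_le hX1R (by norm_num)
    linarith
  have hD0 : (0 : ℝ) ≤ D := Nat.cast_nonneg D
  have hx0 : 0 ≤ x := le_trans (div_nonneg (hb0.le.trans hbb1) hX0.le) hx1
  have hx4 : x ≤ 4 * b / X := by
    refine hx2.trans (div_le_div_of_nonneg_right ?_ hX0.le)
    linarith
  by_cases hc : cA X D b q
  · have hc' : 16 * (D : ℝ) * q * (1 + b) ≤ X := hc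
    have hqD : (q : ℝ) ≤ D := by
      have h1 : (X : ℝ) ≤ (D : ℝ) * D := by
        have h2 : (X : ℝ) ^ (1 / 2 : ℝ) * (X : ℝ) ^ (1 / 2 : ℝ) = X := by
          rw [← Real.rpow_add hX0]
          norm_num
        calc (X : ℝ) = (X : ℝ) ^ (1 / 2 : ℝ) * (X : ℝ) ^ (1 / 2 : ℝ) := h2.symm
          _ ≤ (D : ℝ) * D := mul_le_mul hXD hXD (by positivity) hD0
      have hDpos : (0 : ℝ) < D := lt_of_lt_of_le (Real.rpow_pos_of_pos hX0 _) hXD
      have h3 : (D : ℝ) * q ≤ D * D := by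
        have h4 : 0 ≤ (D : ℝ) * q := by positivity
        have h5 : 0 ≤ (D : ℝ) * q * b := by positivity
        nlinarith
      exact le_of_mul_le_mul_left h3 hDpos
    have hDx : 4 * (V0 X : ℝ) * q * x ≤ 1 := by
      calc 4 * (V0 X : ℝ) * q * x ≤ 4 * (D : ℝ) * q * (4 * b / X) := by gcongr
        _ = (16 * (D : ℝ) * q * b) / X := by ring
        _ ≤ 1 := by
            rw [div_le_one hX0]
            have h4 : 0 ≤ (D : ℝ) * q := by positivity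
            nlinarith
    have hlogq : Real.log q ≤ Real.log X :=
      Real.log_le_log (by linarith) (by exact_mod_cast hqX)
    have h2 := hti X q a 1 (V0 X) ((Icc 1 (V0 X)).filter (fun d => cA X D b q → ¬ q ∣ d)) γ
      ((Real.log X) ^ C0) x σ hq1 hcop (one_dvd q) (by
        intro l hl
        rw [mem_filter, mem_Icc] at hl
        rw [Nat.div_one]
        exact ⟨hl.1.1, hl.1.2, hl.2 hc⟩) hσ hx0 hDx hR0 (fun l _ => hγ l)
    simp only [mul_one] at h2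
    have h5 : 1 + Real.log q ≤ 2 * Real.log X := by linarith
    have h6 : 0 ≤ 1 + Real.log q := by
      have := Real.log_natCast_nonneg q
      linarith
    have h7 : ‖T2j X D b γ σ q a x‖ ≤ (X : ℝ) ^ (e / 5) * D := by
      unfold T2j
      refine h2.trans ?_
      calc C * (Real.log X) ^ C0 * ((V0 X : ℝ) + q) * (1 + Real.log q)
          ≤ C * (Real.log X) ^ C0 * (2 * D) * (2 * Real.log X) := by
            gcongr
            linarith
        _ = (4 * C * (Real.log X) ^ (C0 + 1)) * D := by ring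
        _ ≤ (X : ℝ) ^ (e / 5) * D := by gcongr
    rw [if_pos hc, zero_mul, add_zero]
    exact h7
  · have h2 := hth X (V0 X) 1 ((Icc 1 (V0 X)).filter (fun d => cA X D b q → ¬ q ∣ d)) γ
      ((Real.log X) ^ C0) ((a : ℝ) / q + σ * x) hX1' le_rfl (by
        intro l hl
        rw [mem_filter, mem_Icc] at hl
        exact hl.1) hR0 (fun l _ => hγ l)
    simp only [mul_one] at h2
    rw [if_neg hc]
    unfold T2j
    refine h2.trans ?_
    obtain ⟨H, hH⟩ : ∃ H : ℝ, H = (X : ℝ) / ht X ((a : ℝ) / q + σ * x) := ⟨_, rfl⟩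
    have hH0 : 0 ≤ H := by
      rw [hH]
      refine div_nonneg hX0.le ?_
      linarith [(Pool.MP_dd84fd_nt.GX.ht_spec X hX1' ((a : ℝ) / q + σ * x)).1]
    rw [← hH]
    have h5 : 1 + Real.log X ≤ 2 * Real.log X := by linarith
    calc C' * (Real.log X) ^ C0 * ((V0 X : ℝ) + H) * (1 + Real.log X)
        ≤ C' * (Real.log X) ^ C0 * (D + H) * (2 * Real.log X) := by gcongr
      _ = (2 * C' * (Real.log X) ^ (C0 + 1)) * (D + H) := by ring
      _ ≤ (X : ℝ) ^ (e / 5) * (D + H) := by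
          apply mul_le_mul_of_nonneg_right g2
          linarith
      _ = (X : ℝ) ^ (e / 5) * D + (X : ℝ) ^ (e / 5) * H := by ring

theorem t2j_N2 (th e τ : ℝ) (A1 C0 : ℕ) (hp : Adm th e τ) : ∃ X0 : ℕ, ∀ X : ℕ, X0 ≤ X →
    ∀ (n : ℕ) (b N σ : ℝ) (QQ : Finset ℕ) (bq : ℕ → ℝ), StdJ X n th e A1 b N σ QQ bq →
    ∀ (D : ℕ) (γ : ℕ → ℕ → ℝ), (D : ℝ) ≤ ZJ th e X → (X : ℝ) ^ (1 / 2 : ℝ) ≤ D →
    (∀ l, BVw X ((Real.log X) ^ C0) (γ l)) →
    N2 X bq QQ (T2j X D b γ σ) ≤ (X : ℝ) ^ (1 - 5 * e) := by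
  classical
  obtain ⟨ht1, ht2, he0, hτ, het⟩ := id hp
  obtain ⟨X1, hX1⟩ := t2_facts th e τ A1 hp
  obtain ⟨X2, hX2⟩ := t2_pt C0 e he0
  obtain ⟨X3, hX3⟩ := t2_log 0 32 e he0
  obtain ⟨X4, hX4⟩ := t2_log 2 51200 e he0
  refine ⟨max (max X1 X2) (max X3 X4), ?_⟩
  intro X hX n b N σ QQ bq hstd D γ hDZ hXD hγ
  obtain ⟨hX2', hL2, hb0, hNb, hNX, hNe, h4b, hq⟩ :=
    hX1 X ((le_max_left _ _).trans ((le_max_left _ _).trans hX)) n b N σ QQ bq hstd
  have gpt := hX2 X ((le_max_right _ _).trans ((le_max_left _ _).trans hX))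
  have g3 := hX3 X ((le_max_left _ _).trans ((le_max_right _ _).trans hX))
  have g4 := hX4 X ((le_max_right _ _).trans ((le_max_right _ _).trans hX))
  rw [pow_zero, mul_one] at g3
  have hX1' : 1 ≤ X := by omega
  have hX0 : (0 : ℝ) < X := by exact_mod_cast hX1'
  have hX1R : (1 : ℝ) ≤ X := by exact_mod_cast hX1'
  obtain ⟨-, -, hσ, -, hN1, -, hfam, hcard, hbq⟩ := hstd
  obtain ⟨L, hL⟩ : ∃ L : ℝ, L = Real.log X := ⟨_, rfl⟩
  rw [← hL] at hL2 g4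
  have hlv1 : lv th e ≤ 1 - th + 3 * e := min_le_left _ _
  have hlv2 : lv th e ≤ (1 + th) / 2 - 20 * e := min_le_right _ _
  have hD2 : (D : ℝ) ≤ 2 * (X : ℝ) ^ (lv th e) := hDZ
  have hD0 : (0 : ℝ) ≤ D := Nat.cast_nonneg D
  -- one modulus
  have hone : ∀ q ∈ QQ, ∑ a ∈ rr q, ∫ x in (bq q / X)..(2 * bq q / X),
      ‖T2j X D b γ σ q a x‖ ^ 2 ≤ (X : ℝ) ^ (1 - 6 * e) := by
    intro q hqq
    obtain ⟨hq1, hqX, hqN⟩ := hq q hqq
    obtain ⟨hbb1, hbb2⟩ := hbq q hqq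
    have hq0 : (0 : ℝ) < q := by exact_mod_cast hq1
    have hbq0 : 0 < bq q := hb0.trans_le hbb1
    obtain ⟨c2, hc2⟩ : ∃ c2 : ℝ, c2 = if cA X D b q then 0 else (X : ℝ) ^ (e / 5) := ⟨_, rfl⟩
    have hc20 : 0 ≤ c2 := by
      rw [hc2]
      split_ifs
      · exact le_rfl
      · positivity
    have hmass := ht_mass X q σ (bq q / X) (2 * bq q / X) hX2' hq1 hqX hσ (by positivity)
      (by
        apply div_le_div_of_nonneg_right _ hX0.le
        linarith)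
      (by
        rw [div_le_one hX0]
        linarith) (T2j X D b γ σ q) (t2j_cont X D b γ σ q)
      ((X : ℝ) ^ (e / 5) * D) c2 (by positivity) hc20 (by
        intro a ha x hx1 hx2
        have hcop : Nat.Coprime a q := by
          unfold rr at ha
          exact (mem_filter.1 ha).2
        have h := gpt D b (bq q) q a γ σ x hq1 hqX hcop hσ hb0 hbb1 hbb2 hx1 hx2 hXD hγ
        rw [hc2]
        exact h)
    refine hmass.trans ?_
    -- the first term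
    have hT1 : 2 * ((X : ℝ) ^ (e / 5) * D) ^ 2 * q * (2 * bq q / X - bq q / X) ≤
        (X : ℝ) ^ (1 - 6 * e) / 2 := by
      have h1 : 2 * bq q / X - bq q / X = bq q / X := by ring
      have h2 : (D : ℝ) ^ 2 ≤ 4 * (X : ℝ) ^ (1 + th - 40 * e) := by
        calc (D : ℝ) ^ 2 ≤ (2 * (X : ℝ) ^ (lv th e)) ^ 2 := pow_le_pow_left₀ hD0 hD2 2
          _ = 4 * ((X : ℝ) ^ (lv th e) * (X : ℝ) ^ (lv th e)) := by ring
          _ = 4 * (X : ℝ) ^ (lv th e + lv th e) := by rw [← Real.rpow_add hX0]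
          _ ≤ 4 * (X : ℝ) ^ (1 + th - 40 * e) := by
              apply mul_le_mul_of_nonneg_left _ (by norm_num)
              exact Real.rpow_le_rpow_of_exponent_le hX1R (by linarith)
      have h3 : (q : ℝ) * bq q ≤ 2 * (X : ℝ) ^ (1 - th + 3 / 2 * e) := by
        calc (q : ℝ) * bq q ≤ N * (2 * b) := mul_le_mul hqN hbb2 hbq0.le (by linarith)
          _ = 2 * (N * b) := by ring
          _ ≤ 2 * (X : ℝ) ^ (1 - th + 3 / 2 * e) := by linarith
      calc 2 * ((X : ℝ) ^ (e / 5) * D) ^ 2 * q * (2 * bq q / X - bq q / X)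
          = 2 * ((X : ℝ) ^ (e / 5) * (X : ℝ) ^ (e / 5)) * ((D : ℝ) ^ 2 * (q * bq q)) *
              (X : ℝ)⁻¹ := by
            rw [h1]
            ring
        _ ≤ 2 * ((X : ℝ) ^ (e / 5) * (X : ℝ) ^ (e / 5)) *
              ((4 * (X : ℝ) ^ (1 + th - 40 * e)) * (2 * (X : ℝ) ^ (1 - th + 3 / 2 * e))) *
              (X : ℝ)⁻¹ := by
            gcongr
        _ = 32 * ((X : ℝ) ^ (e / 5) * (X : ℝ) ^ (e / 5) * (X : ℝ) ^ (1 + th - 40 * e) *
              (X : ℝ) ^ (1 - th + 3 / 2 * e) * (X : ℝ) ^ (-1 : ℝ)) / 2 := by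
            rw [Real.rpow_neg_one]
            ring
        _ ≤ (X : ℝ) ^ e * ((X : ℝ) ^ (e / 5) * (X : ℝ) ^ (e / 5) * (X : ℝ) ^ (1 + th - 40 * e) *
              (X : ℝ) ^ (1 - th + 3 / 2 * e) * (X : ℝ) ^ (-1 : ℝ)) / 2 := by
            gcongr
        _ = (X : ℝ) ^ (e + (e / 5 + e / 5 + (1 + th - 40 * e) + (1 - th + 3 / 2 * e) + (-1))) /
              2 := by
            rw [Real.rpow_add hX0 e, Real.rpow_add hX0 _ (-1),
              Real.rpow_add hX0 _ (1 - th + 3 / 2 * e), Real.rpow_add hX0 _ (1 + th - 40 * e),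
              Real.rpow_add hX0 (e / 5)]
        _ ≤ (X : ℝ) ^ (1 - 6 * e) / 2 := by
            apply div_le_div_of_nonneg_right _ (by norm_num)
            exact Real.rpow_le_rpow_of_exponent_le hX1R (by linarith)
    -- the second term
    have hT2 : 160 * c2 ^ 2 * (1 + Real.log X) ^ 2 * ((X : ℝ) / (q * (1 + X * (bq q / X))) +
        q * (1 + X * (2 * bq q / X))) ≤ (X : ℝ) ^ (1 - 6 * e) / 2 := by
      have e1 : (X : ℝ) * (bq q / X) = bq q := by field_simp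
      have e2 : (X : ℝ) * (2 * bq q / X) = 2 * bq q := by field_simp
      rw [e1, e2]
      by_cases hc : cA X D b q
      · rw [if_pos hc] at hc2
        rw [hc2]
        have : 0 ≤ (X : ℝ) ^ (1 - 6 * e) := by positivity
        simp only [ne_eq, OfNat.ofNat_ne_zero, not_false_eq_true, zero_pow, mul_zero, zero_mul]
        linarith
      · rw [if_neg hc] at hc2
        have hc' : (X : ℝ) < 16 * (D : ℝ) * q * (1 + b) := lt_of_not_ge hc
        have h1 : (X : ℝ) / (q * (1 + bq q)) ≤ 32 * (X : ℝ) ^ (1 - th + 3 * e) := by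
          rw [div_le_iff₀ (by positivity)]
          have h2 : (D : ℝ) ≤ 2 * (X : ℝ) ^ (1 - th + 3 * e) := by
            refine hD2.trans ?_
            apply mul_le_mul_of_nonneg_left _ (by norm_num)
            exact Real.rpow_le_rpow_of_exponent_le hX1R hlv1
          calc (X : ℝ) ≤ 16 * (D : ℝ) * q * (1 + b) := hc'.le
            _ ≤ 16 * (2 * (X : ℝ) ^ (1 - th + 3 * e)) * q * (1 + bq q) := by gcongr
            _ = 32 * (X : ℝ) ^ (1 - th + 3 * e) * (q * (1 + bq q)) := by ring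
        have h3 : (q : ℝ) * (1 + 2 * bq q) ≤ 5 * (X : ℝ) ^ (1 - th + 3 * e) := by
          have h4 : N ≤ (X : ℝ) ^ (1 - th + 3 * e) :=
            hNe.trans (Real.rpow_le_rpow_of_exponent_le hX1R (by linarith))
          have h5 : N * b ≤ (X : ℝ) ^ (1 - th + 3 * e) :=
            hNb.trans (Real.rpow_le_rpow_of_exponent_le hX1R (by linarith))
          calc (q : ℝ) * (1 + 2 * bq q) ≤ N * (1 + 2 * (2 * b)) := by gcongr
            _ = N + 4 * (N * b) := by ring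
            _ ≤ 5 * (X : ℝ) ^ (1 - th + 3 * e) := by linarith
        have h6 : (X : ℝ) / (q * (1 + bq q)) + q * (1 + 2 * bq q) ≤
            40 * (X : ℝ) ^ (1 - th + 3 * e) := by
          have : 0 ≤ (X : ℝ) ^ (1 - th + 3 * e) := by positivity
          linarith
        have h7 : (1 + Real.log X) ^ 2 ≤ 4 * L ^ 2 := by
          rw [← hL]
          nlinarith
        calc 160 * c2 ^ 2 * (1 + Real.log X) ^ 2 * ((X : ℝ) / (q * (1 + bq q)) +
              q * (1 + 2 * bq q))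
            ≤ 160 * c2 ^ 2 * (4 * L ^ 2) * (40 * (X : ℝ) ^ (1 - th + 3 * e)) := by
              gcongr
          _ = (51200 * L ^ 2) * ((X : ℝ) ^ (e / 5) * (X : ℝ) ^ (e / 5) *
                (X : ℝ) ^ (1 - th + 3 * e)) / 2 := by
              rw [hc2]
              ring
          _ ≤ (X : ℝ) ^ e * ((X : ℝ) ^ (e / 5) * (X : ℝ) ^ (e / 5) *
                (X : ℝ) ^ (1 - th + 3 * e)) / 2 := by
              gcongr
          _ = (X : ℝ) ^ (e + (e / 5 + e / 5 + (1 - th + 3 * e))) / 2 := by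
              rw [Real.rpow_add hX0 e, Real.rpow_add hX0 _ (1 - th + 3 * e),
                Real.rpow_add hX0 (e / 5)]
          _ ≤ (X : ℝ) ^ (1 - 6 * e) / 2 := by
              apply div_le_div_of_nonneg_right _ (by norm_num)
              exact Real.rpow_le_rpow_of_exponent_le hX1R (by linarith)
    linarith
  -- all moduli
  unfold N2
  calc ∑ q ∈ QQ, ∑ a ∈ rr q, ∫ x in (bq q / X)..(2 * bq q / X), ‖T2j X D b γ σ q a x‖ ^ 2
      ≤ ∑ _q ∈ QQ, (X : ℝ) ^ (1 - 6 * e) := sum_le_sum hone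
    _ = QQ.card * (X : ℝ) ^ (1 - 6 * e) := by rw [sum_const, nsmul_eq_mul]
    _ ≤ (X : ℝ) ^ (e / 2) * (X : ℝ) ^ (1 - 6 * e) :=
        mul_le_mul_of_nonneg_right hcard (by positivity)
    _ = (X : ℝ) ^ (e / 2 + (1 - 6 * e)) := by rw [← Real.rpow_add hX0]
    _ ≤ (X : ℝ) ^ (1 - 5 * e) := Real.rpow_le_rpow_of_exponent_le hX1R (by linarith)

theorem lamj_N2 (th e τ : ℝ) (A1 C0 : ℕ) (hp : Adm th e τ) : ∃ X0 : ℕ, ∀ X : ℕ, X0 ≤ X →
    ∀ (n : ℕ) (b N σ : ℝ) (QQ : Finset ℕ) (bq : ℕ → ℝ), StdJ X n th e A1 b N σ QQ bq →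
    ∀ (D : ℕ) (S : ℕ → Finset ℕ) (γ : ℕ → ℕ → ℕ → ℝ), D ≤ X → (∀ q, ∀ l ∈ S q, 1 ≤ l ∧ l ≤ D) →
    (∀ q l, BVw X ((Real.log X) ^ C0) (γ q l)) →
    N2 X bq QQ (fun q _ x => open Classical in
      if cA X D b q then ∑ l ∈ S q, iw X (l * q) (γ q l) (σ * x) else 0) ≤
      X * (Real.log X) ^ (2 * C0 + 6) / b := by
  classical
  obtain ⟨X1, hX1⟩ := t2_facts th e τ A1 hp
  refine ⟨X1, ?_⟩
  intro X hX n b N σ QQ bq hstd D S γ hDX hS hγ
  obtain ⟨hX2', hL2, hb0, hNb, hNX, hNe, h4b, hq⟩ := hX1 X hX n b N σ QQ bq hstd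
  have hX1' : 1 ≤ X := by omega
  have hX0 : (0 : ℝ) < X := by exact_mod_cast hX1'
  have hX1R : (1 : ℝ) ≤ X := by exact_mod_cast hX1'
  obtain ⟨-, -, hσ, -, hN1, -, hfam, -, hbq⟩ := hstd
  obtain ⟨L, hL⟩ : ∃ L : ℝ, L = Real.log X := ⟨_, rfl⟩
  have hL0 : 0 < L := by linarith
  have hbq0 : ∀ q ∈ QQ, 0 < bq q := fun q hqq => hb0.trans_le (hbq q hqq).1
  have h0 := N2_sup X hX1' bq QQ hbq0 (fun q _ x => open Classical in
      if cA X D b q then ∑ l ∈ S q, iw X (l * q) (γ q l) (σ * x) else 0)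
    (by
      intro q a
      by_cases hc : cA X D b q
      · simp only [if_pos hc]
        exact continuous_finsetSum _ fun l _ => (iw_cont X (l * q) (γ q l)).comp (by fun_prop)
      · simp only [if_neg hc]
        exact continuous_const)
    (fun q => L ^ C0 * (1 + L) * X / (q * bq q)) (by
      intro q hqq a ha x hx1 hx2
      obtain ⟨hq1, hqX, -⟩ := hq q hqq
      have hq0 : (0 : ℝ) < q := by exact_mod_cast hq1
      have hb1 := hbq0 q hqq
      have hx0 : 0 < x := lt_of_lt_of_le (div_pos hb1 hX0) hx1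
      by_cases hc : cA X D b q
      · simp only [if_pos hc]
        have hcc : 16 * (D : ℝ) * q * (1 + b) ≤ X := hc
        have hx4' : x ≤ 4 * b / X := by
          refine hx2.trans (div_le_div_of_nonneg_right ?_ hX0.le)
          linarith [(hbq q hqq).2]
        have h1 := lam_iw_large X q D (S q) (γ q) ((Real.log X) ^ C0) x σ hX1' hq1 hDX
          (hS q) (by rw [← hL]; positivity) (fun l _ => hγ q l) hσ hx0 (by
            calc 4 * (D : ℝ) * q * x ≤ 4 * (D : ℝ) * q * (4 * b / X) := by gcongr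
              _ = (16 * (D : ℝ) * q * b) / X := by ring
              _ ≤ 1 := by
                  rw [div_le_one hX0]
                  have h4 : 0 ≤ (D : ℝ) * q := by positivity
                  nlinarith)
        refine h1.trans ?_
        rw [← hL]
        have h2 : (q : ℝ) * (bq q / X) ≤ q * x := mul_le_mul_of_nonneg_left hx1 hq0.le
        calc L ^ C0 * (1 + L) / (q * x) ≤ L ^ C0 * (1 + L) / (q * (bq q / X)) := by gcongr
          _ = L ^ C0 * (1 + L) * X / (q * bq q) := by field_simp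
      · simp only [if_neg hc]
        rw [norm_zero]
        positivity)
  refine h0.trans ?_
  rw [← hL]
  have hterm : ∀ q ∈ QQ, (Nat.totient q : ℝ) * (bq q / X) *
      (L ^ C0 * (1 + L) * X / (q * bq q)) ^ 2 ≤
        (L ^ C0 * (1 + L)) ^ 2 * (X / b) * (1 / (q : ℝ)) := by
    intro q hqq
    obtain ⟨hq1, hqX, -⟩ := hq q hqq
    have hq0 : (0 : ℝ) < q := by exact_mod_cast hq1
    have hb1 := hbq0 q hqq
    have ht : (Nat.totient q : ℝ) ≤ q := by exact_mod_cast Nat.totient_le q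
    have e1 : (Nat.totient q : ℝ) * (bq q / X) * (L ^ C0 * (1 + L) * X / (q * bq q)) ^ 2 =
        (L ^ C0 * (1 + L)) ^ 2 * (X / bq q) * ((Nat.totient q : ℝ) / q ^ 2) := by
      field_simp
    rw [e1]
    have e2 : (Nat.totient q : ℝ) / q ^ 2 ≤ 1 / q := by
      rw [div_le_div_iff₀ (by positivity) hq0]
      nlinarith
    have e3 : (X : ℝ) / bq q ≤ X / b := by
      have := (hbq q hqq).1
      gcongr
    gcongr
  refine (sum_le_sum hterm).trans ?_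
  rw [← mul_sum]
  have hharm := t2_harm QQ N hfam hN1
  have hlogN : Real.log N ≤ L := by
    rw [hL]
    exact Real.log_le_log (by linarith) hNX
  rw [← hL] at hL2
  have h5 : ∑ q ∈ QQ, 1 / (q : ℝ) ≤ 2 * L := by linarith
  calc (L ^ C0 * (1 + L)) ^ 2 * (X / b) * ∑ q ∈ QQ, 1 / (q : ℝ)
      ≤ (L ^ C0 * (2 * L)) ^ 2 * (X / b) * (2 * L) := by
        have : 1 + L ≤ 2 * L := by linarith
        gcongr
    _ = (X / b) * (8 * L ^ (2 * C0 + 3)) := by ring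
    _ ≤ (X / b) * (L ^ 3 * L ^ (2 * C0 + 3)) := by
        have : (8 : ℝ) ≤ L ^ 3 := by
          calc (8 : ℝ) = 2 ^ 3 := by norm_num
            _ ≤ L ^ 3 := pow_le_pow_left₀ (by norm_num) hL2 3
        gcongr
    _ = X * L ^ (2 * C0 + 6) / b := by ring

end Pool.MP_dd84fd_nt.JXP
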