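import Pool.Agent.Lib.MP_dd84fd_nt.JX.GDefs
import Pool.Agent.Lib.MP_dd84fd_nt.IX.GrSup

/-!
# JX-GStrW (0.7 h): `ww + s gg f1` is structured

Adapt the first half of `sup_i` (`IX/GrSup.lean`): `model_coef D'` gives `v, e1` with `f1 = ∑_{d ∣ n} v d + e1` on `Icc 1 X` (`v = 0` above `X^(1/4)`, `|v| ≤ log X`, `∑ e1² ≤ X^(1-η)`); `B = A + 2`; `err = err_DecJ + s gg e1`, `∑ err² ≤ X/L^A` exactly as in `sup_i` (`f1`-`f6` there).
`u = ww - err_DecJ + s gg ∑ v`: the type I list is `γ' i = γ i`, `α' i = α i` for `i < I`, `γ' i = s gg X`, `α' i = v` for `i = I` (extend by `if i < I then .. else ..`), `I' = I + 1`; `v l = 0` for `l > X^(1/4)`, and `X^(1/4) ≤ ZJ` (`lv ≥ 1/4`: `1 - th + 3e ≥ 1/2`, `(1+th)/2 - 20e ≥ 1/2`). The type II list: `i < I` as given, and for `i ≥ I` the empty block `M' = M 0`, `K' = K 0`, `a' = 0`, `c' = 0` (the clauses of `DecJ` hold for all `i`, so `M 0, K 0` are fine).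
`C = C1 + C2 + 2` (or so): `|s gg| ≤ K0 ≤ L`, its variation `≤ L^C1`, `I + 1 ≤ L^(C2+1)` for large `X`; all the bounds `L^C2` are `≤ L^C`.
-/

set_option autoImplicit false

namespace Pool.MP_dd84fd_nt.JX

open Finset Pool.MP_67663b_nt.Odd Pool.MP_dd84fd_nt.En Pool.MP_dd84fd_nt.E2 Pool.MP_dd84fd_nt.LS
open Pool.MP_dd84fd_nt.L2G (nrm)
open Pool.MP_dd84fd_nt.GX Pool.MP_dd84fd_nt.HX Pool.MP_dd84fd_nt.IX
open Pool.MP_dd84fd_nt.PL (rr Fam)

/-- numerical facts -/
private theorem strW_num (A K0 : ℕ) (η : ℝ) (hη : 0 < η) : ∃ X0 : ℕ,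
    ∀ X : ℕ, X0 ≤ X → 1 ≤ X ∧ 2 ≤ Real.log X ∧
      (4 * (K0 : ℝ) ^ 2) * (Real.log X) ^ A ≤ (X : ℝ) ^ η ∧ (K0 : ℝ) ≤ Real.log X := by
  obtain ⟨X1, h1⟩ := MP_log_large 2
  obtain ⟨X2, h2⟩ := MP_log_pow (4 * (K0 : ℝ) ^ 2) A hη
  obtain ⟨X3, h3⟩ := MP_log_large (K0 : ℝ)
  refine ⟨max (max X1 X2) (max X3 1), fun X hX => ?_⟩
  simp only [max_le_iff] at hX
  obtain ⟨⟨g1, g2⟩, g3, g4⟩ := hX
  exact ⟨g4, h1 X g1, h2 X g2, h3 X g3⟩

theorem strWJ : StrWJ := by
  intro A
  refine ⟨A + 2, fun K0 C1 C2 => ⟨C1 + C2 + 1, fun th e τ hadm ww gg hW hD D' hD' => ?_⟩⟩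
  obtain ⟨η, hη, X1, hX1⟩ := model_coef D' hD'
  obtain ⟨X4, hX4⟩ := strW_num A K0 η hη
  obtain ⟨X5, hX5⟩ := hW
  obtain ⟨X6, hX6⟩ := hD
  obtain ⟨a1, a2, a3, a4, a5⟩ := hadm
  refine ⟨max (max X1 X4) (max X5 X6), fun X hX s hs => ?_⟩
  simp only [max_le_iff] at hX
  obtain ⟨⟨g1, g4⟩, g5, g6⟩ := hX
  obtain ⟨m1, m2, m3, m4⟩ := hX4 X g4
  obtain ⟨v, e1, v1, v2, v3, v4⟩ := hX1 X g1
  obtain ⟨w1, w2⟩ := hX5 X g5
  obtain ⟨I, γ, α, M, K, a, c, err, c1, c2, c3, c4, c5, c6, c7, c8, c9⟩ := hX6 X g6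
  have hXp : (1 : ℝ) ≤ X := by exact_mod_cast m1
  have hX0 : (0 : ℝ) < X := by linarith
  set L := Real.log (X : ℝ) with hL
  have hL0 : 0 < L := by linarith
  have hL1 : 1 ≤ L := by linarith
  have hsga : ∀ n, |s * gg X n| ≤ K0 := by
    intro n
    rw [abs_mul]
    calc |s| * |gg X n| ≤ 1 * K0 := mul_le_mul hs (w1 n).2 (abs_nonneg _) zero_le_one
      _ = K0 := one_mul _
  have hsg : ∀ n, (s * gg X n) ^ 2 ≤ (K0 : ℝ) ^ 2 := by
    intro n
    rw [← sq_abs]
    exact pow_le_pow_left₀ (abs_nonneg _) (hsga n) 2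
  have hp2 : L ^ C2 ≤ L ^ (C1 + C2 + 1) := pow_le_pow_right₀ hL1 (by omega)
  have hp1 : L ^ C1 ≤ L ^ (C1 + C2 + 1) := pow_le_pow_right₀ hL1 (by omega)
  have hp0 : L ≤ L ^ (C1 + C2 + 1) := by
    calc L = L ^ 1 := (pow_one L).symm
      _ ≤ L ^ (C1 + C2 + 1) := pow_le_pow_right₀ hL1 (by omega)
  refine ⟨fun n => ∑ i ∈ range I, γ i n * ∑ l ∈ n.divisors, α i l +
      ∑ i ∈ range I, ∑ m ∈ n.divisors, (if n / m ≤ K i then a i m * c i (n / m) else 0) +
      s * gg X n * ∑ l ∈ n.divisors, v l, fun n => err n + s * gg X n * e1 n, ?_, ?_, ?_⟩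
  · refine ⟨I + 1, fun i => if i < I then γ i else fun n => s * gg X n,
      fun i => if i < I then α i else v, M, K, fun i => if i < I then a i else fun _ => 0, c,
      ?_, ?_, ?_, ?_, ?_, ?_, ?_, ?_⟩
    · push_cast
      have h1 : (1 : ℝ) ≤ L ^ C2 := one_le_pow₀ hL1
      calc (I : ℝ) + 1 ≤ L ^ C2 + L ^ C2 := add_le_add c1 h1
        _ = L ^ C2 * 2 := by ring
        _ ≤ L ^ C2 * L := mul_le_mul_of_nonneg_left m2 (by positivity)
        _ = L ^ (C2 + 1) := (pow_succ L C2).symm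
        _ ≤ L ^ (C1 + C2 + 1) := pow_le_pow_right₀ hL1 (by omega)
    · intro i
      by_cases hi : i < I
      · simp only [if_pos hi]
        exact ⟨fun n => ((c2 i).1 n).trans hp2, (c2 i).2.trans hp2⟩
      · simp only [if_neg hi]
        refine ⟨fun n => (hsga n).trans (m4.trans hp0), ?_⟩
        refine le_trans ?_ (w2.trans hp1)
        apply sum_le_sum
        intro n _
        rw [← mul_sub, abs_mul]
        calc |s| * |gg X (n + 1) - gg X n| ≤ 1 * |gg X (n + 1) - gg X n| :=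
              mul_le_mul_of_nonneg_right hs (abs_nonneg _)
          _ = _ := one_mul _
    · intro i l
      by_cases hi : i < I
      · simp only [if_pos hi]
        exact (c3 i l).trans hp2
      · simp only [if_neg hi]
        exact (v1 l).trans hp0
    · intro i l hl
      by_cases hi : i < I
      · simp only [if_pos hi]
        exact c4 i l hl
      · simp only [if_neg hi]
        apply v2 l
        refine lt_of_le_of_lt ?_ hl
        unfold ZJ
        have h1 : (1 / 4 : ℝ) ≤ lv th e := by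
          unfold lv
          apply le_min
          · linarith
          · linarith
        have h2 : (X : ℝ) ^ (1 / 4 : ℝ) ≤ (X : ℝ) ^ (lv th e) :=
          Real.rpow_le_rpow_of_exponent_le hXp h1
        have h3 : 0 < (X : ℝ) ^ (1 / 4 : ℝ) := by positivity
        linarith
    · intro i n
      refine ⟨?_, ((c5 i n).2).trans hp2⟩
      by_cases hi : i < I
      · simp only [if_pos hi]
        exact ((c5 i n).1).trans hp2
      · simp only [if_neg hi]
        rw [abs_zero]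
        positivity
    · exact c6
    · intro i m
      by_cases hi : i < I
      · simp only [if_pos hi]
        exact c7 i m
      · simp only [if_neg hi]
        intro h
        exact absurd rfl h
    · intro n hn
      rw [sum_range_succ, sum_range_succ]
      have h1 : ∑ i ∈ range I, (if i < I then γ i else fun n => s * gg X n) n *
          ∑ l ∈ n.divisors, (if i < I then α i else v) l =
          ∑ i ∈ range I, γ i n * ∑ l ∈ n.divisors, α i l := by
        refine sum_congr rfl fun i hi => ?_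
        rw [if_pos (mem_range.1 hi), if_pos (mem_range.1 hi)]
      have h2 : ∑ i ∈ range I, ∑ m ∈ n.divisors,
          (if n / m ≤ K i then (if i < I then a i else fun _ => 0) m * c i (n / m) else 0) =
          ∑ i ∈ range I, ∑ m ∈ n.divisors, (if n / m ≤ K i then a i m * c i (n / m) else 0) := by
        refine sum_congr rfl fun i hi => ?_
        rw [if_pos (mem_range.1 hi)]
      have h3 : ∑ m ∈ n.divisors,
          (if n / m ≤ K I then (if I < I then a I else fun _ => 0) m * c I (n / m) else 0) =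
          (0 : ℝ) := by
        apply sum_eq_zero
        intro m _
        rw [if_neg (lt_irrefl I)]
        simp
      rw [h1, h2, h3]
      simp only [if_neg (lt_irrefl I)]
      ring
  · intro n hn
    beta_reduce
    rw [c8 n hn]
    unfold fI
    rw [v4 n hn]
    ring
  · have f1 : ∑ n ∈ Icc 1 X, (err n + s * gg X n * e1 n) ^ 2 ≤
        2 * (∑ n ∈ Icc 1 X, err n ^ 2) + 2 * (K0 : ℝ) ^ 2 * (∑ n ∈ Icc 1 X, e1 n ^ 2) := by
      rw [mul_sum, mul_sum, ← sum_add_distrib]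
      apply sum_le_sum
      intro n _
      have h1 : (s * gg X n) ^ 2 * e1 n ^ 2 ≤ (K0 : ℝ) ^ 2 * e1 n ^ 2 :=
        mul_le_mul_of_nonneg_right (hsg n) (sq_nonneg _)
      nlinarith [sq_nonneg (err n - s * gg X n * e1 n)]
    have hLA : 0 < L ^ A := by positivity
    have f2 : (X : ℝ) ^ (1 - η) * (4 * (K0 : ℝ) ^ 2 * L ^ A) ≤ X := by
      calc (X : ℝ) ^ (1 - η) * (4 * (K0 : ℝ) ^ 2 * L ^ A) ≤
            (X : ℝ) ^ (1 - η) * (X : ℝ) ^ η := by
            apply mul_le_mul_of_nonneg_left m3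
            positivity
        _ = X := by
            rw [← Real.rpow_add hX0]
            norm_num
    have f3 : 2 * (K0 : ℝ) ^ 2 * (X : ℝ) ^ (1 - η) ≤ X / L ^ A / 2 := by
      rw [div_div, le_div_iff₀ (by positivity)]
      nlinarith
    have f4 : 2 * (X / L ^ (A + 2)) ≤ X / L ^ A / 2 := by
      have : X / L ^ (A + 2) = X / L ^ A / L ^ 2 := by
        rw [div_div, ← pow_add]
      rw [this]
      have f5 : X / L ^ A / L ^ 2 ≤ X / L ^ A / 4 := by
        apply div_le_div_of_nonneg_left (by positivity) (by norm_num)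
        nlinarith
      linarith
    have f6 : 2 * (K0 : ℝ) ^ 2 * (∑ n ∈ Icc 1 X, e1 n ^ 2) ≤
        2 * (K0 : ℝ) ^ 2 * (X : ℝ) ^ (1 - η) :=
      mul_le_mul_of_nonneg_left v3 (by positivity)
    linarith

end Pool.MP_dd84fd_nt.JX
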