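import Pool.Agent.Lib.MP_dd84fd_nt.JX.SDefs
import Pool.Agent.Lib.MP_dd84fd_nt.HX.KsApd1

/-!
# JX-SNqB (1.1 h): the pairs, three cases

`δ = dl th e`, `y3 = y3 δ X = X^(1-th+3e)` (`IX.y3_dl`), `(N : ℝ) ≤ X^c1 κ`, `ρ = X^(-η)`, `#E ≥ X^(th-e)`. It suffices to bound, for every `n ∈ E`, the number of `n'`; these are `n' = n + i q`, `1 ≤ i`, `i q ≤ X`, `i ≤ 2N/(κ nrm(qα)) ≤ 2X^c1/nrm(qα)` (if `nrm(qα) ≠ 0`).
(a) `q > y3`: `i ≤ X/q`, so at most `X/q ≤ X/y3 = X^(th-3e) ≤ X^(-2e) #E` values.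
(b) `q ≤ y3`, `X nrm(qα) > y3`: `i ≤ 2X^c1/nrm(qα) < 2X^(1+c1)/y3 = 2X^(th-3e+c1) ≤ 2X^(c1-2e) #E`.
(c) `q ∈ Apd δ X α`, `h = hd X α q = max q (X nrm(qα)) ≤ y3`, `2^t ≤ h < 2^(t+1)` (`t = Nat.log 2 ⌊h⌋₊`, `h ≥ 1`); `T' = X/(16·2^t) ≥ 1` and `≥ X/(32·2^t)` (real; since `16·2^t ≤ 16 y3 ≤ X`). `i ≤ H'`, where `H' = 2X^(1+c1)/2^t` if `h = X nrm(qα)` and `H' = X/2^t` if `h = q`; in both cases
`i ≤ 2X^(1+c1)/2^t ≤ 64 X^c1 T'`. Cover `i ∈ [1, H']` by `≤ 64 X^c1 + 1 ≤ 65 X^c1` blocks of `T'` consecutive integers: for every block `{n + i q}` is `inAP E (n + i0 q) q T'`, `≤ ρ #E` elements by `NoAPH` (`ω_j ≠ 0`). So at most `65 X^(c1-η) #E` values of `n'`.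
As `η ≤ e`: all three are `≤ 65 X^(c1-η) #E`. `y3_big`: `y3 = X^(1-th+3e) ≤ X^(4/5+3/10000)`, `16 ≤ X^(1997/10000)` for `X ≥ 2^24` (`4/0.1997 = 20.03`).
-/

set_option autoImplicit false

namespace Pool.MP_dd84fd_nt.JX

open Finset Pool.MP_67663b_nt.Odd Pool.MP_dd84fd_nt.En Pool.MP_dd84fd_nt.E2 Pool.MP_dd84fd_nt.LS
open Pool.MP_dd84fd_nt.L2G (nrm)
open Pool.MP_dd84fd_nt.GX Pool.MP_dd84fd_nt.HX
open Pool.MP_dd84fd_nt.IX (dl yB wSI SSI y3_dl y2_dl)

theorem y3_big (th e τ : ℝ) (hA : Adm th e τ) (X : ℕ) (hX : 2 ^ 40 ≤ X) :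
    16 * y3 (dl th e) X ≤ X ∧ 1 ≤ y3 (dl th e) X ∧ Real.sqrt X ≤ y3 (dl th e) X := by
  obtain ⟨h1, h2, h3, h4, h5⟩ := hA
  have hX24 : (2 : ℝ) ^ (40 : ℕ) ≤ X := by exact_mod_cast hX
  have hX1 : (1 : ℝ) ≤ X := le_trans (by norm_num) hX24
  have hX0 : (0 : ℝ) < X := by linarith
  rw [y3_dl]
  refine ⟨?_, Real.one_le_rpow hX1 (by linarith), ?_⟩
  · have e1 : (16 : ℝ) ≤ (X : ℝ) ^ (1 / 8 : ℝ) * (X : ℝ) ^ (-(3 / 10000 : ℝ)) := by
      rw [← Real.rpow_add hX0]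
      calc (16 : ℝ) = ((2 : ℝ) ^ (40 : ℕ)) ^ (1 / 10 : ℝ) := by
            rw [← Real.rpow_natCast, ← Real.rpow_mul (by norm_num)]
            norm_num
        _ ≤ (X : ℝ) ^ (1 / 10 : ℝ) := Real.rpow_le_rpow (by norm_num) hX24 (by norm_num)
        _ ≤ _ := Real.rpow_le_rpow_of_exponent_le hX1 (by norm_num)
    calc 16 * (X : ℝ) ^ (1 - th + 3 * e) ≤
        ((X : ℝ) ^ (1 / 8 : ℝ) * (X : ℝ) ^ (-(3 / 10000 : ℝ))) * (X : ℝ) ^ (1 - th + 3 * e) :=
          mul_le_mul_of_nonneg_right e1 (Real.rpow_nonneg hX0.le _)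
      _ = (X : ℝ) ^ ((1 / 8 : ℝ) + -(3 / 10000 : ℝ) + (1 - th + 3 * e)) := by
          rw [← Real.rpow_add hX0, ← Real.rpow_add hX0]
      _ ≤ (X : ℝ) ^ (1 : ℝ) := Real.rpow_le_rpow_of_exponent_le hX1 (by linarith)
      _ = X := Real.rpow_one _
  · rw [Real.sqrt_eq_rpow]
    exact Real.rpow_le_rpow_of_exponent_le hX1 (by linarith)

/-- the number of `i` with `n + i q ∈ E`, `1 ≤ i ≤ H`, by blocks -/
private theorem fib_blocks (E : Finset ℕ) (n q T : ℕ) (hT : 1 ≤ T) (ρ H : ℝ)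
    (hρ : ∀ c : ℤ, ((inAP E c q T).card : ℝ) ≤ ρ) (hH : 0 ≤ H) (S : Finset ℕ)
    (hS : ∀ m ∈ S, m ∈ E ∧ ∃ i : ℕ, 1 ≤ i ∧ m = n + i * q ∧ (i : ℝ) ≤ H * T) :
    (S.card : ℝ) ≤ (H + 1) * ρ := by
  classical
  have hT0 : (0 : ℝ) < T := by exact_mod_cast hT
  have hρ0 : 0 ≤ ρ := le_trans (Nat.cast_nonneg _) (hρ 0)
  have hsub : S ⊆ (range (⌊H⌋₊ + 1)).biUnion
      (fun k => inAP E ((n : ℤ) + (1 + (k : ℤ) * T) * q) q T) := by
    intro m hm
    obtain ⟨hmE, i, hi1, hi2, hi3⟩ := hS m hm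
    rw [Finset.mem_biUnion]
    have hlt : (i - 1) / T < ⌊H⌋₊ + 1 := by
      rw [Nat.div_lt_iff_lt_mul (by omega)]
      have e1 : H < (⌊H⌋₊ : ℝ) + 1 := Nat.lt_floor_add_one H
      have e2 : (i : ℝ) < ((⌊H⌋₊ : ℝ) + 1) * T :=
        lt_of_le_of_lt hi3 (mul_lt_mul_of_pos_right e1 hT0)
      have e3 : i < (⌊H⌋₊ + 1) * T := by exact_mod_cast e2
      omega
    refine ⟨(i - 1) / T, Finset.mem_range.2 hlt, ?_⟩
    unfold inAP
    rw [Finset.mem_filter]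
    refine ⟨hmE, (i - 1) % T, Nat.mod_lt _ (by omega), ?_⟩
    have e4 : T * ((i - 1) / T) + (i - 1) % T = i - 1 := Nat.div_add_mod (i - 1) T
    have e5 : ((T : ℤ) * (((i - 1) / T : ℕ) : ℤ)) + (((i - 1) % T : ℕ) : ℤ) = (i : ℤ) - 1 := by
      have : (((T * ((i - 1) / T) + (i - 1) % T : ℕ)) : ℤ) = ((i - 1 : ℕ) : ℤ) := by rw [e4]
      rw [Nat.cast_sub hi1] at this
      push_cast at this ⊢
      linarith
    rw [hi2]
    push_cast at e5 ⊢
    linear_combination (-(q : ℤ)) * e5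
  have h1 : S.card ≤ ∑ k ∈ range (⌊H⌋₊ + 1),
      (inAP E ((n : ℤ) + (1 + (k : ℤ) * T) * q) q T).card :=
    (Finset.card_le_card hsub).trans Finset.card_biUnion_le
  have h2 : (S.card : ℝ) ≤ ∑ k ∈ range (⌊H⌋₊ + 1),
      ((inAP E ((n : ℤ) + (1 + (k : ℤ) * T) * q) q T).card : ℝ) := by exact_mod_cast h1
  refine h2.trans ((Finset.sum_le_sum fun k _ => hρ _).trans ?_)
  rw [Finset.sum_const, Finset.card_range, nsmul_eq_mul]
  refine mul_le_mul_of_nonneg_right ?_ hρ0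
  push_cast
  linarith [Nat.floor_le hH]

/-- the number of `m = n + i q`, `1 ≤ i ≤ H` -/
private theorem fib_triv (n q : ℕ) (H : ℝ) (hH : 0 ≤ H) (S : Finset ℕ)
    (hS : ∀ m ∈ S, ∃ i : ℕ, 1 ≤ i ∧ m = n + i * q ∧ (i : ℝ) ≤ H) : (S.card : ℝ) ≤ H := by
  classical
  have hsub : S ⊆ (Icc 1 ⌊H⌋₊).image (fun i => n + i * q) := by
    intro m hm
    obtain ⟨i, hi1, hi2, hi3⟩ := hS m hm
    exact Finset.mem_image.2 ⟨i, Finset.mem_Icc.2 ⟨hi1, Nat.le_floor hi3⟩, hi2.symm⟩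
  have h1 : S.card ≤ ⌊H⌋₊ := by
    refine (Finset.card_le_card hsub).trans (Finset.card_image_le.trans ?_)
    rw [Nat.card_Icc]
    omega
  exact le_trans (by exact_mod_cast h1) (Nat.floor_le hH)

theorem prq_bd (th e τ η : ℝ) (hA : Adm th e τ) (hη : 0 < η) (hη' : η ≤ e) (X : ℕ)
    (hX : 2 ^ 40 ≤ X) (G : ℕ) [NeZero G] (ω : ZMod G → ℂ) (E : Finset ℕ) (hE : E ⊆ Icc 1 X)
    (hc : (X : ℝ) ^ (th - e) ≤ E.card) (hN : NoAPH G (dl th e) X ω E ((X : ℝ) ^ (-η)))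
    (N : ℕ) (c1 κ : ℝ) (hc1 : 0 ≤ c1) (hκ : 0 < κ) (hNκ : (N : ℝ) ≤ (X : ℝ) ^ c1 * κ)
    (j : ZMod G) (hj : ω j ≠ 0) (q : ℕ) (hq : 1 ≤ q)
    (hg : Int.gcd (round ((q : ℝ) * al G j)) q = 1) :
    ((prq E N κ (al G j) q).card : ℝ) ≤ 65 * (X : ℝ) ^ (c1 - η) * (E.card : ℝ) ^ 2 := by
  classical
  obtain ⟨hb1, hb2, hb3⟩ := y3_big th e τ hA X hX
  have hA' := hA
  obtain ⟨h1, h2, h3, h4, h5⟩ := hA'
  have hX24 : (2 : ℝ) ^ (40 : ℕ) ≤ X := by exact_mod_cast hX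
  have hX1 : (1 : ℝ) ≤ X := le_trans (by norm_num) hX24
  have hX0 : (0 : ℝ) < X := by linarith
  set y : ℝ := y3 (dl th e) X with hy
  have hy0 : 0 < y := by linarith
  have hyX : y = (X : ℝ) ^ (1 - th + 3 * e) := y3_dl th e X
  have hXc : 0 < (X : ℝ) ^ c1 := Real.rpow_pos_of_pos hX0 _
  have hXc1 : 1 ≤ (X : ℝ) ^ c1 := Real.one_le_rpow hX1 hc1
  -- `X / y ≤ X^(-η) #E`
  have hEy : (X : ℝ) / y ≤ (X : ℝ) ^ (-η) * E.card := by
    calc (X : ℝ) / y = (X : ℝ) ^ (1 - (1 - th + 3 * e)) := by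
          rw [Real.rpow_sub hX0, Real.rpow_one, hyX]
      _ ≤ (X : ℝ) ^ (-η + (th - e)) := Real.rpow_le_rpow_of_exponent_le hX1 (by linarith)
      _ = (X : ℝ) ^ (-η) * (X : ℝ) ^ (th - e) := Real.rpow_add hX0 _ _
      _ ≤ _ := mul_le_mul_of_nonneg_left hc (Real.rpow_nonneg hX0.le _)
  have hsplit : (X : ℝ) ^ (c1 - η) = (X : ℝ) ^ c1 * (X : ℝ) ^ (-η) := by
    rw [← Real.rpow_add hX0]; congr 1
  -- the fibres
  have hfib : ∀ n ∈ E, (((prq E N κ (al G j) q).filter (fun p => p.1 = n)).card : ℝ) ≤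
      65 * (X : ℝ) ^ (c1 - η) * E.card := by
    intro n hn
    set S : Finset ℕ := ((prq E N κ (al G j) q).filter (fun p => p.1 = n)).image Prod.snd with hS
    have hcard : ((prq E N κ (al G j) q).filter (fun p => p.1 = n)).card = S.card := by
      rw [hS, Finset.card_image_of_injOn]
      intro p hp p' hp' hpp
      have g1 : p.1 = n := (Finset.mem_filter.1 (Finset.mem_coe.1 hp)).2
      have g2 : p'.1 = n := (Finset.mem_filter.1 (Finset.mem_coe.1 hp')).2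
      exact Prod.ext (g1.trans g2.symm) hpp
    have hmem : ∀ m ∈ S, m ∈ E ∧ ∃ i : ℕ, 1 ≤ i ∧ m = n + i * q ∧
        (i : ℝ) * nrm ((q : ℝ) * al G j) * κ ≤ 2 * N := by
      intro m hm
      rw [hS, Finset.mem_image] at hm
      obtain ⟨p, hp, rfl⟩ := hm
      rw [Finset.mem_filter] at hp
      obtain ⟨hp1, hp2⟩ := hp
      unfold prq at hp1
      rw [Finset.mem_filter, Finset.mem_product] at hp1
      obtain ⟨⟨hpa, hpb⟩, i, hi1, hi2, hi3⟩ := hp1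
      exact ⟨hpb, i, hi1, by rw [← hp2]; exact hi2, hi3⟩
    have hiX : ∀ m ∈ S, ∀ i : ℕ, m = n + i * q → (i : ℝ) * q ≤ X := by
      intro m hm i hi
      have g1 := (Finset.mem_Icc.1 (hE (hmem m hm).1)).2
      have g2 : i * q ≤ X := by omega
      exact_mod_cast g2
    rw [hcard, hsplit]
    have hq0 : (0 : ℝ) < q := by exact_mod_cast hq
    have hEc : (0 : ℝ) ≤ E.card := Nat.cast_nonneg _
    have hEn : 0 ≤ (X : ℝ) ^ (-η) * E.card := mul_nonneg (Real.rpow_nonneg hX0.le _) hEc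
    by_cases hqy : y < q
    · -- case (a)
      have g0 : (S.card : ℝ) ≤ (X : ℝ) / y := by
        refine fib_triv n q _ (by positivity) S ?_
        intro m hm
        obtain ⟨_, i, hi1, hi2, _⟩ := hmem m hm
        refine ⟨i, hi1, hi2, ?_⟩
        rw [le_div_iff₀ hy0]
        exact (mul_le_mul_of_nonneg_left hqy.le (Nat.cast_nonneg i)).trans (hiX m hm i hi2)
      calc (S.card : ℝ) ≤ 1 * ((X : ℝ) ^ (-η) * E.card) := by rw [one_mul]; exact g0.trans hEy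
        _ ≤ (65 * (X : ℝ) ^ c1) * ((X : ℝ) ^ (-η) * E.card) :=
            mul_le_mul_of_nonneg_right (by linarith) hEn
        _ = _ := by ring
    · have hqy' : (q : ℝ) ≤ y := not_lt.1 hqy
      set ν : ℝ := nrm ((q : ℝ) * al G j) with hν
      have hν0 : 0 ≤ ν := abs_nonneg _
      -- `i ν ≤ 2 X^c1`
      have hiν : ∀ i : ℕ, (i : ℝ) * ν * κ ≤ 2 * N → (i : ℝ) * ν ≤ 2 * (X : ℝ) ^ c1 := by
        intro i hi
        have g1 : (i : ℝ) * ν * κ ≤ (2 * (X : ℝ) ^ c1) * κ := by linarith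
        exact le_of_mul_le_mul_right g1 hκ
      by_cases hny : y < X * ν
      · -- case (b)
        have hν1 : 0 < ν := by
          by_contra hcon
          have : ν = 0 := le_antisymm (not_lt.1 hcon) hν0
          rw [this, mul_zero] at hny
          linarith
        have g0 : (S.card : ℝ) ≤ 2 * (X : ℝ) ^ c1 * ((X : ℝ) / y) := by
          refine fib_triv n q _ (by positivity) S ?_
          intro m hm
          obtain ⟨_, i, hi1, hi2, hi3⟩ := hmem m hm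
          refine ⟨i, hi1, hi2, ?_⟩
          have g1 := hiν i hi3
          have g2 : (i : ℝ) * y ≤ 2 * (X : ℝ) ^ c1 * X := by
            calc (i : ℝ) * y ≤ (i : ℝ) * (X * ν) :=
                  mul_le_mul_of_nonneg_left hny.le (Nat.cast_nonneg i)
              _ = ((i : ℝ) * ν) * X := by ring
              _ ≤ _ := mul_le_mul_of_nonneg_right g1 hX0.le
          rw [← mul_div_assoc, le_div_iff₀ hy0]
          exact g2
        calc (S.card : ℝ) ≤ 2 * (X : ℝ) ^ c1 * ((X : ℝ) / y) := g0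
          _ ≤ 2 * (X : ℝ) ^ c1 * ((X : ℝ) ^ (-η) * E.card) :=
              mul_le_mul_of_nonneg_left hEy (by positivity)
          _ ≤ (65 * (X : ℝ) ^ c1) * ((X : ℝ) ^ (-η) * E.card) :=
              mul_le_mul_of_nonneg_right (by linarith) hEn
          _ = _ := by ring
      · -- case (c)
        have hny' : (X : ℝ) * ν ≤ y := not_lt.1 hny
        have hmemA : q ∈ Apd (dl th e) X (al G j) :=
          (apd_mem (dl th e) X (al G j) q).2 ⟨hq, hqy', hny', hg⟩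
        obtain ⟨k1, k2, k3, k4⟩ := hd_bd (dl th e) X (al G j) q hmemA
        set h : ℝ := hd X (al G j) q with hh
        have hfl : 1 ≤ ⌊h⌋₊ := Nat.le_floor (by exact_mod_cast k1)
        set t : ℕ := Nat.log 2 ⌊h⌋₊ with ht
        have ht1 : (2 : ℝ) ^ t ≤ h := by
          have g1 : 2 ^ t ≤ ⌊h⌋₊ := Nat.pow_log_le_self 2 (by omega)
          have g2 : ((2 ^ t : ℕ) : ℝ) ≤ (⌊h⌋₊ : ℝ) := by exact_mod_cast g1
          push_cast at g2
          exact g2.trans (Nat.floor_le (by linarith))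
        have ht2 : h < 2 ^ (t + 1) := by
          have g1 : ⌊h⌋₊ < 2 ^ (t + 1) := Nat.lt_pow_succ_log_self (by norm_num) _
          have g2 := (Nat.floor_lt (by linarith : (0 : ℝ) ≤ h)).1 g1
          push_cast at g2
          exact g2
        have hAP := hN j hj q hmemA t ht1 ht2
        set T : ℕ := X / (16 * 2 ^ t) with hT
        have h2t : (0 : ℝ) < 2 ^ t := by positivity
        have h16 : (16 * 2 ^ t : ℕ) ≤ X := by
          have g1 : (16 : ℝ) * 2 ^ t ≤ X := by linarith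
          exact_mod_cast g1
        have hT1 : 1 ≤ T := (Nat.one_le_div_iff (by positivity)).2 h16
        have hT2 : (X : ℝ) / 2 ^ t ≤ 32 * T := by
          have g1 : X < (T + 1) * (16 * 2 ^ t) := by
            have := Nat.lt_succ_self (X / (16 * 2 ^ t))
            exact (Nat.div_lt_iff_lt_mul (by positivity)).1 this
          have g2 : (X : ℝ) < ((T : ℝ) + 1) * (16 * 2 ^ t) := by exact_mod_cast g1
          have g3 : (1 : ℝ) ≤ T := by exact_mod_cast hT1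
          rw [div_le_iff₀ h2t]
          have g4 : ((T : ℝ) + 1) * (16 * 2 ^ t) ≤ (2 * T) * (16 * 2 ^ t) :=
            mul_le_mul_of_nonneg_right (by linarith) (by positivity)
          linarith
        have g0 : (S.card : ℝ) ≤ (64 * (X : ℝ) ^ c1 + 1) * ((X : ℝ) ^ (-η) * E.card) := by
          refine fib_blocks E n q T hT1 _ (64 * (X : ℝ) ^ c1) hAP (by positivity) S ?_
          intro m hm
          obtain ⟨hmE, i, hi1, hi2, hi3⟩ := hmem m hm
          refine ⟨hmE, i, hi1, hi2, ?_⟩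
          have hi0 : (0 : ℝ) ≤ i := Nat.cast_nonneg i
          -- `i 2^t ≤ i h ≤ 2 X^c1 X`
          have g1 : (i : ℝ) * h ≤ 2 * (X : ℝ) ^ c1 * X := by
            rcases le_total (q : ℝ) (X * ν) with hle | hle
            · have e1 : h = X * ν := by rw [hh]; unfold hd; exact max_eq_right hle
              rw [e1]
              calc (i : ℝ) * (X * ν) = ((i : ℝ) * ν) * X := by ring
                _ ≤ _ := mul_le_mul_of_nonneg_right (hiν i hi3) hX0.le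
            · have e1 : h = q := by rw [hh]; unfold hd; exact max_eq_left hle
              rw [e1]
              refine (hiX m hm i hi2).trans ?_
              calc (X : ℝ) = 1 * X := (one_mul _).symm
                _ ≤ _ := mul_le_mul_of_nonneg_right (by linarith) hX0.le
          have g2 : (i : ℝ) * 2 ^ t ≤ 2 * (X : ℝ) ^ c1 * X :=
            (mul_le_mul_of_nonneg_left ht1 hi0).trans g1
          have g3 : (i : ℝ) ≤ 2 * (X : ℝ) ^ c1 * (X / 2 ^ t) := by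
            rw [← mul_div_assoc, le_div_iff₀ h2t]
            exact g2
          calc (i : ℝ) ≤ 2 * (X : ℝ) ^ c1 * (X / 2 ^ t) := g3
            _ ≤ 2 * (X : ℝ) ^ c1 * (32 * T) := mul_le_mul_of_nonneg_left hT2 (by positivity)
            _ = 64 * (X : ℝ) ^ c1 * T := by ring
        calc (S.card : ℝ) ≤ (64 * (X : ℝ) ^ c1 + 1) * ((X : ℝ) ^ (-η) * E.card) := g0
          _ ≤ (65 * (X : ℝ) ^ c1) * ((X : ℝ) ^ (-η) * E.card) :=
              mul_le_mul_of_nonneg_right (by linarith) hEn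
          _ = _ := by ring
  -- sum over the fibres
  have hmaps : ∀ p ∈ prq E N κ (al G j) q, p.1 ∈ E := by
    intro p hp
    unfold prq at hp
    exact (Finset.mem_product.1 (Finset.mem_filter.1 hp).1).1
  have hsum := Finset.card_eq_sum_card_fiberwise (f := fun p : ℕ × ℕ => p.1)
    (s := prq E N κ (al G j) q) (t := E) (fun p hp => hmaps p hp)
  have hsum' : ((prq E N κ (al G j) q).card : ℝ) =
      ∑ n ∈ E, (((prq E N κ (al G j) q).filter (fun p => p.1 = n)).card : ℝ) := by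
    exact_mod_cast hsum
  rw [hsum']
  refine (Finset.sum_le_sum hfib).trans ?_
  rw [Finset.sum_const, nsmul_eq_mul]
  apply le_of_eq
  ring

end Pool.MP_dd84fd_nt.JX
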