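import Pool.Agent.Lib.MP_dd84fd_nt.JX.SDefs
import Pool.Agent.Lib.MP_dd84fd_nt.JX.SNqB
import Pool.Agent.Lib.MP_dd84fd_nt.IX.TrStep
import Pool.Agent.Lib.MP_dd84fd_nt.HX.TrFin

/-!
# JX-STr (0.9 h): the tree theorem

`tr_step_g`: copy of `IX.tr_step_i` with an arbitrary function `Ph : ℕ → ℂ`. `tree_j`: copy of `IX.tree_i` (`IX/TrFin.lean`); `Q = X/L^A`; `StJ` gives `X^(1-η/100) #E ≤ (X/L^A) #E` for large `X`; `th > 1/5`, `e ≤ 1/10000`.
-/

set_option autoImplicit false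

namespace Pool.MP_dd84fd_nt.JX

open Finset Pool.MP_67663b_nt.Odd Pool.MP_dd84fd_nt.En Pool.MP_dd84fd_nt.E2 Pool.MP_dd84fd_nt.LS
open Pool.MP_dd84fd_nt.L2G (nrm)
open Pool.MP_dd84fd_nt.GX Pool.MP_dd84fd_nt.HX
open Pool.MP_dd84fd_nt.IX (dl yB wSI SSI y3_dl y2_dl)

theorem tr_step_g (G : ℕ) [NeZero G] (th e : ℝ) (X : ℕ) (hX : 1 ≤ X) (Ph : ℕ → ℂ)
    (E : Finset ℕ) (Λ : ℕ) (bb : ℝ) (hΛ : 1 ≤ Λ) (hb : 1 ≤ bb) (hT : Thin X Λ bb E) (ρ Q : ℝ)
    (hE : E.Nonempty) (hQ : ∀ n ∈ E, Q < ‖Ph n‖)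
    (hst : NoAPH G (dl th e) X (wSI G th e X Λ bb) E ρ → ∀ ph : ℕ → ℂ, (∀ n, ‖ph n‖ ≤ 1) →
      ‖∑ n ∈ E, ph n * Ph n‖ ≤ Q * E.card) :
    ∃ (E' : Finset ℕ) (Λ' : ℕ) (bb' : ℝ), E' ⊆ E ∧ ρ * E.card < E'.card ∧ 1 ≤ Λ' ∧ 1 ≤ bb' ∧
      Thin X Λ' bb' E' ∧ (X : ℝ) ^ (e / 10) * (Λ * bb) < Λ' * bb' := by
  classical
  by_cases hN : NoAPH G (dl th e) X (wSI G th e X Λ bb) E ρ
  · exfalso
    set z : ℕ → ℂ := fun n => Ph n with hz
    set ph : ℕ → ℂ := fun n => if z n = 0 then 0 else (starRingEnd ℂ) (z n) / (‖z n‖ : ℂ) with hph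
    have hez : ∀ n, ph n * z n = (‖z n‖ : ℂ) := by
      intro n
      by_cases h0 : z n = 0
      · simp only [hph, h0, if_true, norm_zero, zero_mul, Complex.ofReal_zero]
      · have h1 : (‖z n‖ : ℂ) ≠ 0 := by
          rw [Ne, Complex.ofReal_eq_zero, norm_eq_zero]
          exact h0
        have h2 : (starRingEnd ℂ) (z n) * z n = (‖z n‖ : ℂ) * ‖z n‖ := by
          rw [mul_comm, Complex.mul_conj, Complex.normSq_eq_norm_sq]
          push_cast
          ring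
        simp only [hph, h0, if_false]
        rw [div_mul_eq_mul_div, h2, mul_div_assoc, div_self h1, mul_one]
    have hen : ∀ n, ‖ph n‖ ≤ 1 := by
      intro n
      by_cases h0 : z n = 0
      · simp only [hph, h0, if_true, norm_zero]
        exact zero_le_one
      · simp only [hph, h0, if_false]
        rw [norm_div, RCLike.norm_conj, Complex.norm_real, norm_norm]
        exact div_self_le_one _
    have h1 := hst hN ph hen
    have h2 : ∑ n ∈ E, ph n * Ph n = ((∑ n ∈ E, ‖z n‖ : ℝ) : ℂ) := by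
      rw [Complex.ofReal_sum]
      exact Finset.sum_congr rfl fun n _ => hez n
    rw [h2, Complex.norm_real, Real.norm_eq_abs,
      abs_of_nonneg (Finset.sum_nonneg fun n _ => norm_nonneg _)] at h1
    have h3 : ∑ _n ∈ E, Q < ∑ n ∈ E, ‖z n‖ := Finset.sum_lt_sum_of_nonempty hE hQ
    rw [Finset.sum_const, nsmul_eq_mul] at h3
    linarith
  · unfold NoAPH at hN
    push Not at hN
    obtain ⟨j, hj, d, hd, t, ht1, ht2, c, hc⟩ := hN
    have hd1 : 1 ≤ d := ((apd_mem (dl th e) X (al G j) d).1 hd).1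
    have hd0 : (0 : ℝ) < d := by exact_mod_cast hd1
    have hS : ¬ SSI th e X Λ bb (al G j) := by
      intro hS
      apply hj
      unfold wSI
      rw [if_pos hS]
    have hlt : (X : ℝ) ^ (e / 10) * Λ * bb <
        (Nat.lcm Λ d : ℝ) * max bb (HX.hd X (al G j) d / d) := by
      by_contra hcon
      exact hS ⟨d, hd, not_lt.1 hcon⟩
    refine ⟨inAP E c d (X / (16 * 2 ^ t)), Nat.lcm Λ d, max bb (HX.hd X (al G j) d / d), ?_, hc,
      Nat.lcm_pos hΛ hd1, le_max_of_le_left hb, ?_, ?_⟩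
    · exact filter_subset _ _
    · intro n hn n' hn' hnn
      obtain ⟨hnE, i, hi, hni⟩ := mem_filter.1 hn
      obtain ⟨hnE', i', hi', hni'⟩ := mem_filter.1 hn'
      obtain ⟨h1, h2⟩ := hT n hnE n' hnE' hnn
      have h3 : ((n' - n : ℕ) : ℤ) = ((i' : ℤ) - i) * d := by
        rw [Nat.cast_sub hnn, hni, hni']
        ring
      have h4 : d ∣ n' - n := by
        have : (d : ℤ) ∣ ((n' - n : ℕ) : ℤ) := ⟨(i' : ℤ) - i, by rw [h3]; ring⟩
        exact_mod_cast this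
      refine ⟨Nat.lcm_dvd h1 h4, ?_⟩
      have hnn0 : (0 : ℝ) ≤ (n' : ℝ) - n := by
        have : (n : ℝ) ≤ n' := by exact_mod_cast hnn
        linarith
      rw [mul_max_of_nonneg _ _ hnn0]
      refine max_le h2 ?_
      have h5 : (n' : ℝ) - n ≤ ((X / (16 * 2 ^ t) : ℕ) : ℝ) * d := by
        have h6 : (n' : ℝ) - n = ((i' : ℝ) - i) * d := by
          have h7 : (((n' - n : ℕ) : ℤ) : ℝ) = ((((i' : ℤ) - i) * d : ℤ) : ℝ) := by rw [h3]
          rw [Int.cast_natCast, Nat.cast_sub hnn] at h7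
          rw [h7]
          push_cast
          ring
        rw [h6]
        refine mul_le_mul_of_nonneg_right ?_ hd0.le
        have h8 : (i' : ℝ) ≤ ((X / (16 * 2 ^ t) : ℕ) : ℝ) := by exact_mod_cast hi'.le
        have h9 : (0 : ℝ) ≤ i := Nat.cast_nonneg _
        linarith
      have hX0 : (0 : ℝ) ≤ X := Nat.cast_nonneg _
      have h6 : ((X / (16 * 2 ^ t) : ℕ) : ℝ) ≤ (X : ℝ) / (16 * 2 ^ t) := by
        have := Nat.cast_div_le (α := ℝ) (m := X) (n := 16 * 2 ^ t)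
        push_cast at this
        exact this
      have hh0 : 0 ≤ HX.hd X (al G j) d := (by positivity : (0 : ℝ) ≤ 2 ^ t).trans ht1
      calc ((n' : ℝ) - n) * (HX.hd X (al G j) d / d)
          ≤ (((X / (16 * 2 ^ t) : ℕ) : ℝ) * d) * (HX.hd X (al G j) d / d) :=
            mul_le_mul_of_nonneg_right h5 (div_nonneg hh0 hd0.le)
        _ = ((X / (16 * 2 ^ t) : ℕ) : ℝ) * HX.hd X (al G j) d := by field_simp
        _ ≤ ((X : ℝ) / (16 * 2 ^ t)) * 2 ^ (t + 1) :=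
            mul_le_mul h6 ht2.le hh0 (by positivity)
        _ = X / 8 := by rw [pow_succ]; field_simp; norm_num
        _ ≤ X := by linarith
    · rw [← mul_assoc]
      exact hlt

private theorem sTr_wS (G : ℕ) (th e : ℝ) (X Λ : ℕ) (bb : ℝ) (j : ZMod G) :
    ‖wSI G th e X Λ bb j‖ ≤ 1 := by
  unfold wSI
  split_ifs <;> simp

/-- the bound for `Λ bb` -/
private theorem sTr_bd (t : ℝ) (X : ℕ) (hX : 1 ≤ X) (hX2 : 2 ≤ (X : ℝ) ^ t)
    (E : Finset ℕ) (Λ : ℕ) (bb : ℝ) (hΛ : 1 ≤ Λ) (hb : 1 ≤ bb) (hT : Thin X Λ bb E)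
    (hE : (X : ℝ) ^ t ≤ E.card) :
    (Λ : ℝ) * bb ≤ 2 * (X : ℝ) ^ (1 - t) := by
  have hX0 : (0 : ℝ) < X := by exact_mod_cast hX
  have h1 := tr_card X Λ bb hΛ hb E hT
  have hΛR : (1 : ℝ) ≤ Λ := by exact_mod_cast hΛ
  have hm0 : 0 < (Λ : ℝ) * bb := by positivity
  have h2 : (X : ℝ) ^ t / 2 ≤ (E.card : ℝ) - 1 := by linarith
  have h3 : (X : ℝ) ^ t / 2 * ((Λ : ℝ) * bb) ≤ X :=
    (mul_le_mul_of_nonneg_right h2 hm0.le).trans h1
  have h4 : (X : ℝ) = (X : ℝ) ^ t * (X : ℝ) ^ (1 - t) := by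
    rw [← Real.rpow_add hX0]
    have : t + (1 - t) = 1 := by ring
    rw [this, Real.rpow_one]
  have h5 : 0 < (X : ℝ) ^ t := Real.rpow_pos_of_pos hX0 _
  have h6 : (X : ℝ) ^ t * ((Λ : ℝ) * bb) ≤ (X : ℝ) ^ t * (2 * (X : ℝ) ^ (1 - t)) := by
    have h7 : (X : ℝ) ^ t * (2 * (X : ℝ) ^ (1 - t)) = 2 * X := by
      nth_rewrite 3 [h4]
      ring
    rw [h7]
    linarith
  exact le_of_mul_le_mul_left h6 h5

theorem tree_j (h : StJ) : TreeJ := by
  intro A C th e τ hAdm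
  have hAdm0 := hAdm
  obtain ⟨ht1, ht2, he0, he1, he3⟩ := hAdm0
  have he2 : e ≤ 1 / 1000 := by linarith
  obtain ⟨k0, hk0⟩ : ∃ k0 : ℕ, k0 = ⌈10 / e⌉₊ + 1 := ⟨_, rfl⟩
  have hk0n : 1 ≤ k0 := by omega
  have hk0R : (1 : ℝ) ≤ k0 := by exact_mod_cast hk0n
  have hk0p : (0 : ℝ) < k0 := by linarith
  have hk0c : 10 / e ≤ k0 := by
    rw [hk0]
    push_cast
    have := Nat.le_ceil (10 / e)
    linarith
  obtain ⟨η, hη⟩ : ∃ η : ℝ, η = e / (2 * k0) := ⟨_, rfl⟩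
  have hη0 : 0 < η := by rw [hη]; positivity
  have hkη : (k0 : ℝ) * η = e / 2 := by
    rw [hη]
    field_simp
  have hηe : η ≤ e := by
    have h1 : 1 * η ≤ k0 * η := mul_le_mul_of_nonneg_right hk0R hη0.le
    rw [hkη] at h1
    linarith
  obtain ⟨X1, hX1⟩ := h C th e τ η hAdm hη0 hηe
  obtain ⟨X2, hX2⟩ := MP_log_pow 1 A (ε := η / 100) (by positivity)
  refine ⟨X1 + X2 + 10000000000, ?_⟩
  intro X hX G _ hG u v hu hv B hB hbad
  by_contra hlt
  push Not at hlt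
  have hX4 : (10000000000 : ℝ) ≤ X := by
    have : 10000000000 ≤ X := by omega
    exact_mod_cast this
  have hXn : 1 ≤ X := by omega
  have hX0 : (0 : ℝ) < X := by linarith
  have hX1r : (1 : ℝ) ≤ X := by linarith
  have hpow : (10 : ℝ) ≤ (X : ℝ) ^ (th - 3 * e / 4) := by
    have e1 : (10 : ℝ) = (10000000000 : ℝ) ^ (1 / 10 : ℝ) := by
      rw [show (10000000000 : ℝ) = 10 ^ (10 : ℝ) by norm_num, ← Real.rpow_mul (by norm_num)]
      norm_num
    calc (10 : ℝ) = (10000000000 : ℝ) ^ (1 / 10 : ℝ) := e1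
      _ ≤ (X : ℝ) ^ (1 / 10 : ℝ) := Real.rpow_le_rpow (by norm_num) hX4 (by norm_num)
      _ ≤ (X : ℝ) ^ (th - 3 * e / 4) := Real.rpow_le_rpow_of_exponent_le hX1r (by linarith)
  have hXA : (X : ℝ) ^ (1 - η / 100) ≤ (X : ℝ) / (Real.log X) ^ A := by
    have hl : 0 < Real.log X := Real.log_pos (by linarith)
    have h1 := hX2 X (by omega)
    rw [one_mul] at h1
    rw [le_div_iff₀ (pow_pos hl A)]
    calc (X : ℝ) ^ (1 - η / 100) * (Real.log X) ^ A
        ≤ (X : ℝ) ^ (1 - η / 100) * (X : ℝ) ^ (η / 100) :=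
          mul_le_mul_of_nonneg_left h1 (Real.rpow_nonneg hX0.le _)
      _ = X := by
        rw [← Real.rpow_add hX0, sub_add_cancel, Real.rpow_one]
  have key : ∀ k : ℕ, k ≤ k0 → ∃ (E : Finset ℕ) (Λ : ℕ) (bb : ℝ), E ⊆ B ∧ 1 ≤ Λ ∧ 1 ≤ bb ∧
      Thin X Λ bb E ∧ (X : ℝ) ^ (th - e / 4 - k * η) ≤ E.card ∧
      (X : ℝ) ^ (k * (e / 10)) ≤ (Λ : ℝ) * bb := by
    intro k
    induction k with
    | zero =>
      intro _
      refine ⟨B, 1, 1, subset_rfl, le_rfl, le_rfl, ?_, ?_, ?_⟩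
      · intro n hn n' hn' _
        have h1 := Finset.mem_Icc.1 (hB hn)
        have h2 := Finset.mem_Icc.1 (hB hn')
        refine ⟨one_dvd _, ?_⟩
        have h3 : (n' : ℝ) ≤ X := by exact_mod_cast h2.2
        have h4 : (0 : ℝ) ≤ n := Nat.cast_nonneg n
        linarith
      · rw [Nat.cast_zero, zero_mul, sub_zero]
        exact hlt.le
      · rw [Nat.cast_zero, zero_mul, Real.rpow_zero]
        norm_num
    | succ k ih =>
      intro hk
      obtain ⟨E, Λ, bb, hEB, hΛ, hb, hT, hcard, hm⟩ := ih (by omega)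
      have hkR : (k : ℝ) * η ≤ e / 2 := by
        have : (k : ℝ) ≤ k0 := by
          have : k ≤ k0 := by omega
          exact_mod_cast this
        calc (k : ℝ) * η ≤ k0 * η := mul_le_mul_of_nonneg_right this hη0.le
          _ = e / 2 := hkη
      have hE2 : (X : ℝ) ^ (th - 3 * e / 4) ≤ E.card :=
        (Real.rpow_le_rpow_of_exponent_le hX1r (by linarith)).trans hcard
      have hE3 : (X : ℝ) ^ (th - e) ≤ E.card :=
        (Real.rpow_le_rpow_of_exponent_le hX1r (by linarith)).trans hE2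
      have hne : E.Nonempty := by
        rw [← Finset.card_pos]
        have : (0 : ℝ) < E.card := by linarith
        exact_mod_cast this
      have hbd0 := sTr_bd (th - 3 * e / 4) X hXn (by linarith) E Λ bb hΛ hb hT hE2
      have hbd : (Λ : ℝ) * bb ≤ 2 * (X : ℝ) ^ (1 - th + e) := by
        refine hbd0.trans ?_
        have := Real.rpow_le_rpow_of_exponent_le hX1r
          (by linarith : 1 - (th - 3 * e / 4) ≤ 1 - th + e)
        linarith
      have hQ : ∀ n ∈ E, (X : ℝ) / (Real.log X) ^ A <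
          ‖PhJ G X u v (wSI G th e X Λ bb) n‖ := fun n hn =>
        hbad n (hEB hn) Λ bb hΛ hb hbd
      have hst : NoAPH G (dl th e) X (wSI G th e X Λ bb) E ((X : ℝ) ^ (-η)) → ∀ ph : ℕ → ℂ,
          (∀ n, ‖ph n‖ ≤ 1) →
          ‖∑ n ∈ E, ph n * PhJ G X u v (wSI G th e X Λ bb) n‖ ≤
            (X : ℝ) / (Real.log X) ^ A * E.card := by
        intro hno ph hph
        have h1 := hX1 X (by omega) G hG u v hu hv (wSI G th e X Λ bb) (sTr_wS G th e X Λ bb) E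
          (hEB.trans hB) hE3 ph hph hno
        refine h1.trans (mul_le_mul_of_nonneg_right hXA (Nat.cast_nonneg _))
      obtain ⟨E', Λ', bb', hE', hc', hΛ', hb', hT', hm'⟩ := tr_step_g G th e X hXn
        (PhJ G X u v (wSI G th e X Λ bb)) E Λ bb hΛ hb hT ((X : ℝ) ^ (-η))
        ((X : ℝ) / (Real.log X) ^ A) hne hQ hst
      refine ⟨E', Λ', bb', hE'.trans hEB, hΛ', hb', hT', ?_, ?_⟩
      · refine le_trans ?_ hc'.le
        have e1 : (X : ℝ) ^ (th - e / 4 - ((k + 1 : ℕ) : ℝ) * η) =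
            (X : ℝ) ^ (-η) * (X : ℝ) ^ (th - e / 4 - k * η) := by
          rw [← Real.rpow_add hX0]
          congr 1
          push_cast
          ring
        rw [e1]
        exact mul_le_mul_of_nonneg_left hcard (Real.rpow_nonneg hX0.le _)
      · refine le_trans ?_ hm'.le
        have e1 : (X : ℝ) ^ (((k + 1 : ℕ) : ℝ) * (e / 10)) =
            (X : ℝ) ^ (e / 10) * (X : ℝ) ^ (k * (e / 10)) := by
          rw [← Real.rpow_add hX0]
          congr 1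
          push_cast
          ring
        rw [e1]
        exact mul_le_mul_of_nonneg_left hm (Real.rpow_nonneg hX0.le _)
  obtain ⟨E, Λ, bb, hEB, hΛ, hb, hT, hcard, hm⟩ := key k0 le_rfl
  have hE2 : (X : ℝ) ^ (th - 3 * e / 4) ≤ E.card :=
    (Real.rpow_le_rpow_of_exponent_le hX1r (by rw [hkη]; linarith)).trans hcard
  have hbd := sTr_bd (th - 3 * e / 4) X hXn (by linarith) E Λ bb hΛ hb hT hE2
  have h1 : (X : ℝ) ≤ (X : ℝ) ^ ((k0 : ℝ) * (e / 10)) := by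
    have h2 : (1 : ℝ) ≤ (k0 : ℝ) * (e / 10) := by
      have h3 := mul_le_mul_of_nonneg_right hk0c (by positivity : (0 : ℝ) ≤ e / 10)
      have h4 : 10 / e * (e / 10) = 1 := by field_simp
      linarith
    calc (X : ℝ) = (X : ℝ) ^ (1 : ℝ) := (Real.rpow_one _).symm
      _ ≤ _ := Real.rpow_le_rpow_of_exponent_le hX1r h2
  have h2 : (X : ℝ) ≤ 2 * (X : ℝ) ^ (1 - (th - 3 * e / 4)) := h1.trans (hm.trans hbd)
  have h4 : (X : ℝ) = (X : ℝ) ^ (th - 3 * e / 4) * (X : ℝ) ^ (1 - (th - 3 * e / 4)) := by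
    rw [← Real.rpow_add hX0]
    have : (th - 3 * e / 4) + (1 - (th - 3 * e / 4)) = 1 := by ring
    rw [this, Real.rpow_one]
  have h5 : 0 < (X : ℝ) ^ (1 - (th - 3 * e / 4)) := Real.rpow_pos_of_pos hX0 _
  have h6 := mul_le_mul_of_nonneg_right hpow h5.le
  rw [← h4] at h6
  linarith

end Pool.MP_dd84fd_nt.JX
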