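import Pool.Agent.Lib.MP_dd84fd_nt.JX.SDefs
import Pool.Agent.Lib.MP_dd84fd_nt.GX.Fej
import Pool.Agent.Lib.MP_dd84fd_nt.GX.FFb
import Pool.Agent.Lib.MP_dd84fd_nt.L2G.MinSum
import Pool.Agent.Lib.MP_dd84fd_nt.LS.Four

/-!
# JX-KFej (1.5 h): the kernel without trichotomy (helper36)

`/team-store/J98_paper.md`, Lemma 1. `fej_mn`: Fejer kernels `F_R(t) = (1/R)‖Σ_{k<R} ee(k t)‖²`, `R = 2^i`. `ker_j`: `‖x_j‖‖x_j'‖ ≤ (‖ω_j V_j‖²‖K_j'‖² + ‖ω_j' V_j'‖²‖K_j‖²)/2`, `Bker` is symmetric; for fixed `j`: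
`(1/G) Σ_j' ‖K_j'‖² F_R(s al_j - s' al_j') = Σ_{|r|<R} (1-|r|/R) ee(r s al_j) c(r s')`, `|c(m)| ≤ #{(n,n') ∈ E² : n' - n = m}` (orthogonality; `G > 5X`, `M N ≤ X`), `|Σ_{s ∈ Ioc N (2N)} ee(r s al_j)| ≤ mn N (r al_j)` (`L2G.geo_sum`).
-/

set_option autoImplicit false

namespace Pool.MP_dd84fd_nt.JX

open Finset Pool.MP_67663b_nt.Odd Pool.MP_dd84fd_nt.En Pool.MP_dd84fd_nt.E2 Pool.MP_dd84fd_nt.LS
open Pool.MP_dd84fd_nt.L2G (nrm)
open Pool.MP_dd84fd_nt.GX Pool.MP_dd84fd_nt.HX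
open Pool.MP_dd84fd_nt.IX (dl yB wSI SSI y3_dl y2_dl)

private theorem kf_ee_low (y : ℝ) (h2 : |y| ≤ 1 / 2) : 4 * |y| ≤ ‖ee y - 1‖ := by
  unfold ee
  have h3 : (2 * Real.pi * y * Complex.I : ℂ) = Complex.I * ((2 * Real.pi * y : ℝ) : ℂ) := by
    push_cast
    ring
  rw [h3, Complex.norm_exp_I_mul_ofReal_sub_one, norm_mul, Real.norm_eq_abs, Real.norm_eq_abs,
    abs_two]
  have h4 : 2 * Real.pi * y / 2 = Real.pi * y := by ring
  rw [h4]
  have h5 : |Real.sin (Real.pi * y)| = Real.sin (Real.pi * |y|) := by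
    rcases le_total 0 y with h | h
    · rw [abs_of_nonneg h] at h2 ⊢
      rw [abs_of_nonneg]
      apply Real.sin_nonneg_of_nonneg_of_le_pi
      · positivity
      · nlinarith [Real.pi_pos]
    · rw [abs_of_nonpos h] at h2 ⊢
      have : Real.pi * -y = -(Real.pi * y) := by ring
      rw [this, Real.sin_neg, abs_of_nonpos]
      apply Real.sin_nonpos_of_nonpos_of_neg_pi_le
      · nlinarith [Real.pi_pos]
      · nlinarith [Real.pi_pos]
  rw [h5]
  have h6 := Real.mul_le_sin (x := Real.pi * |y|) (by positivity) (by nlinarith [Real.pi_pos])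
  have h7 : 2 / Real.pi * (Real.pi * |y|) = 2 * |y| := by
    have := Real.pi_ne_zero
    field_simp
  rw [h7] at h6
  linarith

/-- the Fejer kernel is large near the integers -/
private theorem kf_fej (R : ℕ) (hR : 1 ≤ R) (t : ℝ) (h : nrm t ≤ 1 / (2 * (R : ℝ))) :
    2 * (R : ℝ) ≤ 5 * ((1 / (R : ℝ)) * ‖∑ k ∈ range R, ee ((k : ℝ) * t)‖ ^ 2) := by
  have hR0 : (0 : ℝ) < R := by exact_mod_cast hR
  have h1R : (1 : ℝ) ≤ R := by exact_mod_cast hR
  set x : ℝ := t - round t with hx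
  have hxn : |x| ≤ 1 / (2 * (R : ℝ)) := h
  have e1 : ∀ i : ℕ, ee ((i : ℝ) * t) = ee ((i : ℝ) * x) := by
    intro i
    have e2 : (i : ℝ) * t = (i : ℝ) * x + (((i : ℤ) * round t : ℤ) : ℝ) := by
      rw [hx]
      push_cast
      ring
    rw [e2, ee_add_int]
  have h0 : ∑ k ∈ range R, ee ((k : ℝ) * t) = ∑ k ∈ range R, ee ((k : ℝ) * x) :=
    Finset.sum_congr rfl fun i _ => e1 i
  rw [h0]
  have hlow : (2 / Real.pi) * R ≤ ‖∑ k ∈ range R, ee ((k : ℝ) * x)‖ := by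
    rcases eq_or_ne x 0 with hx0 | hx0
    · rw [hx0]
      have e3 : ∑ k ∈ range R, ee ((k : ℝ) * 0) = (R : ℂ) := by
        have : ∀ k ∈ range R, ee ((k : ℝ) * 0) = 1 := by
          intro k _
          rw [mul_zero]
          unfold ee
          simp
        rw [Finset.sum_congr rfl this]
        simp
      rw [e3, Complex.norm_natCast]
      have : 2 / Real.pi ≤ 1 := by
        rw [div_le_one Real.pi_pos]
        linarith [Real.pi_gt_three]
      nlinarith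
    · have hx1 : 0 < |x| := abs_pos.2 hx0
      have htel : ∀ n : ℕ, (∑ k ∈ range n, ee ((k : ℝ) * x)) * (ee x - 1) = ee ((n : ℝ) * x) - 1 := by
        intro n
        induction n with
        | zero =>
          simp only [Finset.range_zero, Finset.sum_empty, zero_mul, Nat.cast_zero]
          unfold ee
          simp
        | succ n ih =>
          rw [Finset.sum_range_succ, add_mul, ih]
          have e3 : ee (((n + 1 : ℕ) : ℝ) * x) = ee ((n : ℝ) * x) * ee x := by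
            rw [← ee_add]
            congr 1
            push_cast
            ring
          rw [e3]
          ring
      have h1 := congrArg norm (htel R)
      rw [norm_mul] at h1
      have h2 : ‖ee x - 1‖ ≤ 2 * Real.pi * |x| := norm_ee_sub_one_le x
      have h3 : 4 * |(R : ℝ) * x| ≤ ‖ee ((R : ℝ) * x) - 1‖ := by
        refine kf_ee_low _ ?_
        rw [abs_mul, Nat.abs_cast]
        have := mul_le_mul_of_nonneg_left hxn hR0.le
        rwa [show (R : ℝ) * (1 / (2 * R)) = 1 / 2 by field_simp] at this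
      rw [← h1, abs_mul, Nat.abs_cast] at h3
      have h4 : 4 * ((R : ℝ) * |x|) ≤ ‖∑ k ∈ range R, ee ((k : ℝ) * x)‖ * (2 * Real.pi * |x|) :=
        h3.trans (mul_le_mul_of_nonneg_left h2 (norm_nonneg _))
      rw [div_mul_eq_mul_div, div_le_iff₀ Real.pi_pos]
      have h5 : (2 * R) * (2 * |x|) ≤ (‖∑ k ∈ range R, ee ((k : ℝ) * x)‖ * Real.pi) * (2 * |x|) := by
        linarith
      exact le_of_mul_le_mul_right h5 (by linarith)
  have h2 : ((2 / Real.pi) * R) ^ 2 ≤ ‖∑ k ∈ range R, ee ((k : ℝ) * x)‖ ^ 2 :=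
    pow_le_pow_left₀ (by positivity) hlow 2
  have h3 : (2 / 5 : ℝ) * R ^ 2 ≤ ((2 / Real.pi) * R) ^ 2 := by
    have h4 : (2 / 5 : ℝ) ≤ (2 / Real.pi) ^ 2 := by
      rw [div_pow, div_le_div_iff₀ (by norm_num) (by positivity)]
      have h5 := Real.pi_lt_d2
      nlinarith [Real.pi_pos]
    rw [mul_pow]
    exact mul_le_mul_of_nonneg_right h4 (by positivity)
  have h6 : (2 / 5 : ℝ) * R ^ 2 ≤ ‖∑ k ∈ range R, ee ((k : ℝ) * x)‖ ^ 2 := h3.trans h2
  have h7 : (1 / (R : ℝ)) * ((2 / 5 : ℝ) * R ^ 2) ≤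
      (1 / (R : ℝ)) * ‖∑ k ∈ range R, ee ((k : ℝ) * x)‖ ^ 2 :=
    mul_le_mul_of_nonneg_left h6 (by positivity)
  have h8 : (1 / (R : ℝ)) * ((2 / 5 : ℝ) * R ^ 2) = 2 / 5 * R := by field_simp
  rw [h8] at h7
  linarith

theorem fej_mn (M : ℕ) (hM : 1 ≤ M) (t : ℝ) :
    L2G.mn M t ≤ 5 * ∑ i ∈ range (Nat.log 2 (2 * M) + 1),
      (1 / (2 : ℝ) ^ i) * ‖∑ k ∈ range (2 ^ i), ee ((k : ℝ) * t)‖ ^ 2 := by
  classical
  set I := Nat.log 2 (2 * M) with hI
  have hnn : ∀ i ∈ range (I + 1), (0 : ℝ) ≤ (1 / (2 : ℝ) ^ i) * ‖∑ k ∈ range (2 ^ i), ee ((k : ℝ) * t)‖ ^ 2 :=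
    fun i _ => by positivity
  -- it suffices to find `i ≤ I` with `nrm t ≤ 1/(2 2^i)` and `mn ≤ 2 2^i`
  have key : ∀ i ∈ range (I + 1), nrm t ≤ 1 / (2 * (2 : ℝ) ^ i) → L2G.mn M t ≤ 2 * 2 ^ i →
      L2G.mn M t ≤ 5 * ∑ i ∈ range (I + 1),
        (1 / (2 : ℝ) ^ i) * ‖∑ k ∈ range (2 ^ i), ee ((k : ℝ) * t)‖ ^ 2 := by
    intro i hi h1 h2
    have h3 := kf_fej (2 ^ i) (Nat.one_le_pow _ _ (by norm_num)) t (by push_cast; exact h1)
    push_cast at h3
    refine h2.trans (h3.trans ?_)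
    exact mul_le_mul_of_nonneg_left (Finset.single_le_sum hnn hi) (by norm_num)
  by_cases hb : nrm t ≤ 1 / (2 * (2 : ℝ) ^ I)
  · refine key I (by simp) hb ?_
    refine (L2G.mn_le M t (Nat.cast_nonneg _)).trans ?_
    have h1 : 2 * M < 2 ^ (I + 1) := Nat.lt_pow_succ_log_self (by norm_num) _
    have h2 : (2 * M : ℝ) < 2 ^ (I + 1) := by exact_mod_cast h1
    rw [pow_succ] at h2
    have h3 : (0 : ℝ) < 2 ^ I := by positivity
    linarith
  · have hex : ∃ i : ℕ, ¬ nrm t ≤ 1 / (2 * (2 : ℝ) ^ i) := ⟨I, hb⟩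
    have h1 := Nat.find_spec hex
    have h2 : Nat.find hex ≤ I := Nat.find_min' hex hb
    have h0 : Nat.find hex ≠ 0 := by
      intro h0
      rw [h0] at h1
      apply h1
      have h3 : nrm t ≤ 1 / 2 := abs_sub_round t
      rw [pow_zero, mul_one]
      exact h3
    obtain ⟨k, hk⟩ := Nat.exists_eq_succ_of_ne_zero h0
    have h3 : nrm t ≤ 1 / (2 * (2 : ℝ) ^ k) := by
      by_contra h3
      have := Nat.find_min' hex h3
      omega
    refine key k (by simp; omega) h3 ?_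
    rw [hk] at h1
    push Not at h1
    have h4 : 0 < nrm t := lt_trans (by positivity) h1
    have h5 : L2G.mn M t ≤ 1 / (2 * nrm t) := by
      unfold L2G.mn
      split_ifs with h
      · rw [le_div_iff₀ (by positivity)]
        linarith
      · exact le_rfl
    refine h5.trans ?_
    rw [div_le_iff₀ (by positivity)]
    rw [div_lt_iff₀ (by positivity), pow_succ] at h1
    linarith

private theorem kf_chi (G : ℕ) [NeZero G] (m : ℤ) (j : ZMod G) :
    ee ((m : ℝ) * al G j) = ZMod.stdAddChar ((m : ZMod G) * j) := by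
  have h : ((m : ZMod G) * j) = ((m * (j.val : ℤ) : ℤ) : ZMod G) := by
    push_cast
    rw [ZMod.natCast_zmod_val]
  rw [h, ZMod.stdAddChar_coe]
  unfold ee al
  congr 1
  push_cast
  ring

/-- the number of pairs with difference `m` -/
private def DD (E : Finset ℕ) (m : ℤ) : ℕ := ((E ×ˢ E).filter (fun p : ℕ × ℕ => (p.1 : ℤ) - p.2 = m)).card

private theorem DD_neg (E : Finset ℕ) (m : ℤ) : DD E (-m) = DD E m := by
  unfold DD
  refine Finset.card_bij (fun p _ => (p.2, p.1)) ?_ ?_ ?_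
  · intro p hp
    rw [mem_filter, mem_product] at hp ⊢
    exact ⟨⟨hp.1.2, hp.1.1⟩, by have := hp.2; simp only; omega⟩
  · intro p _ p' _ h
    rw [Prod.mk.injEq] at h
    exact Prod.ext h.2 h.1
  · intro p hp
    rw [mem_filter, mem_product] at hp
    refine ⟨(p.2, p.1), ?_, rfl⟩
    rw [mem_filter, mem_product]
    exact ⟨⟨hp.1.2, hp.1.1⟩, by have := hp.2; simp only; omega⟩

private theorem DD_zero (E : Finset ℕ) : DD E 0 = E.card := by
  unfold DD
  rw [← Finset.diag_card E]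
  congr 1
  ext p
  rw [mem_filter, mem_product, Finset.mem_diag]
  constructor
  · rintro ⟨⟨h1, h2⟩, h3⟩
    exact ⟨h1, by omega⟩
  · rintro ⟨h1, h2⟩
    exact ⟨⟨h1, h2 ▸ h1⟩, by omega⟩

/-- the Fourier coefficients of `‖K‖²` -/
private theorem kf_coef (X G : ℕ) [NeZero G] (hG : 5 * X < G) (E : Finset ℕ) (hE : E ⊆ Icc 1 X)
    (ph : ℕ → ℂ) (hph : ∀ n, ‖ph n‖ ≤ 1) (m : ℤ) (hm : |m| ≤ 4 * X) :
    ‖(1 / (G : ℂ)) * ∑ j : ZMod G, ((‖KE G E ph j‖ ^ 2 : ℝ) : ℂ) * ee ((m : ℝ) * al G j)‖ ≤ DD E m := by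
  have hG0 : (0 : ℝ) < G := by exact_mod_cast Nat.pos_of_ne_zero (NeZero.ne G)
  have hGC : (G : ℂ) ≠ 0 := by exact_mod_cast NeZero.ne G
  have h1 : ∀ j : ZMod G, ((‖KE G E ph j‖ ^ 2 : ℝ) : ℂ) * ee ((m : ℝ) * al G j) =
      ∑ n ∈ E, ∑ n' ∈ E, ph n * (starRingEnd ℂ) (ph n') *
        ZMod.stdAddChar ((((n' : ℤ) - n + m : ℤ) : ZMod G) * j) := by
    intro j
    rw [kf_chi]
    unfold KE
    rw [← Complex.normSq_eq_norm_sq, ← Complex.mul_conj, map_sum, Finset.sum_mul_sum, Finset.sum_mul]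
    refine Finset.sum_congr rfl fun n _ => ?_
    rw [Finset.sum_mul]
    refine Finset.sum_congr rfl fun n' _ => ?_
    have h2 : (((n' : ℤ) - n + m : ℤ) : ZMod G) * j =
        -((n : ZMod G) * j) + (-(-((n' : ZMod G) * j)) + (m : ZMod G) * j) := by
      push_cast
      ring
    rw [RingHom.map_mul, conj_chi, h2, AddChar.map_add_eq_mul, AddChar.map_add_eq_mul]
    ring
  rw [Finset.sum_congr rfl fun j _ => h1 j, Finset.sum_comm, Finset.mul_sum]
  have h3 : ∀ n ∈ E, (1 / (G : ℂ)) * ∑ j : ZMod G, ∑ n' ∈ E, ph n * (starRingEnd ℂ) (ph n') *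
        ZMod.stdAddChar ((((n' : ℤ) - n + m : ℤ) : ZMod G) * j) =
      ∑ n' ∈ E, if (n : ℤ) - n' = m then ph n * (starRingEnd ℂ) (ph n') else 0 := by
    intro n hn
    rw [Finset.sum_comm, Finset.mul_sum]
    refine Finset.sum_congr rfl fun n' hn' => ?_
    rw [← Finset.mul_sum, sum_chi]
    have hn1 := Finset.mem_Icc.1 (hE hn)
    have hn2 := Finset.mem_Icc.1 (hE hn')
    have hiff : (((n' : ℤ) - n + m : ℤ) : ZMod G) = 0 ↔ (n : ℤ) - n' = m := by
      rw [ZMod.intCast_zmod_eq_zero_iff_dvd]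
      constructor
      · intro hd
        by_contra hne
        have h4 := abs_le.1 hm
        have h5 := Int.le_of_dvd (a := ((G : ℕ) : ℤ)) (b := |(n' : ℤ) - n + m|) (by
          rw [abs_pos]; omega) (by rwa [dvd_abs])
        have h6 : |(n' : ℤ) - n + m| ≤ 5 * X := by
          rw [abs_le]
          omega
        omega
      · intro h
        have : (n' : ℤ) - n + m = 0 := by omega
        rw [this]
        exact dvd_zero _
    by_cases h : (n : ℤ) - n' = m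
    · rw [if_pos h, if_pos (hiff.2 h)]
      field_simp
    · rw [if_neg h, if_neg (fun h' => h (hiff.1 h'))]
      ring
  rw [Finset.sum_congr rfl h3]
  refine (norm_sum_le _ _).trans ?_
  have h4 : ∀ n ∈ E, ‖∑ n' ∈ E, if (n : ℤ) - n' = m then ph n * (starRingEnd ℂ) (ph n') else 0‖ ≤
      ∑ n' ∈ E, if (n : ℤ) - n' = m then (1 : ℝ) else 0 := by
    intro n _
    refine (norm_sum_le _ _).trans (Finset.sum_le_sum fun n' _ => ?_)
    split_ifs
    · rw [norm_mul, RCLike.norm_conj]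
      exact mul_le_one₀ (hph n) (norm_nonneg _) (hph n')
    · rw [norm_zero]
  refine (Finset.sum_le_sum h4).trans (le_of_eq ?_)
  unfold DD
  rw [Finset.card_filter, Finset.sum_product]
  push_cast
  rfl

private theorem kf_row (R : ℕ) (H : ℤ → ℝ) (h0 : ∀ d, 0 ≤ H d) (hs : ∀ d, H (-d) = H d) (k : ℕ)
    (hk : k < R) : ∑ k' ∈ range R, H ((k : ℤ) - k') ≤ H 0 + 2 * ∑ r ∈ Ico 1 R, H r := by
  have h1 : ∑ k' ∈ range R, H ((k : ℤ) - k') = ∑ k' ∈ range k, H ((k : ℤ) - k') + H 0 +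
      ∑ k' ∈ Ico (k + 1) R, H ((k : ℤ) - k') := by
    rw [← Finset.sum_range_add_sum_Ico _ (show k + 1 ≤ R by omega), Finset.sum_range_succ, sub_self]
  have h2 : ∑ k' ∈ range k, H ((k : ℤ) - k') ≤ ∑ r ∈ Ico 1 R, H r := by
    have h3 : ∑ k' ∈ range k, H ((k : ℤ) - k') = ∑ r ∈ (range k).image (fun k' => k - k'), H r := by
      rw [Finset.sum_image]
      · refine Finset.sum_congr rfl fun k' hk' => ?_
        rw [mem_range] at hk'
        congr 1
        rw [Nat.cast_sub hk'.le]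
      · intro a ha b hb hab
        have ha' := mem_range.1 (Finset.mem_coe.1 ha)
        have hb' := mem_range.1 (Finset.mem_coe.1 hb)
        simp only at hab
        omega
    rw [h3]
    refine Finset.sum_le_sum_of_subset_of_nonneg ?_ fun i _ _ => h0 _
    intro r hr
    rw [mem_image] at hr
    obtain ⟨k', hk', rfl⟩ := hr
    rw [mem_range] at hk'
    rw [mem_Ico]
    omega
  have h4 : ∑ k' ∈ Ico (k + 1) R, H ((k : ℤ) - k') ≤ ∑ r ∈ Ico 1 R, H r := by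
    have h3 : ∑ k' ∈ Ico (k + 1) R, H ((k : ℤ) - k') =
        ∑ r ∈ (Ico (k + 1) R).image (fun k' => k' - k), H r := by
      rw [Finset.sum_image]
      · refine Finset.sum_congr rfl fun k' hk' => ?_
        rw [mem_Ico] at hk'
        rw [← hs, neg_sub]
        congr 1
        rw [Nat.cast_sub (by omega)]
      · intro a ha b hb hab
        have ha' := mem_Ico.1 (Finset.mem_coe.1 ha)
        have hb' := mem_Ico.1 (Finset.mem_coe.1 hb)
        simp only at hab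
        omega
    rw [h3]
    refine Finset.sum_le_sum_of_subset_of_nonneg ?_ fun i _ _ => h0 _
    intro r hr
    rw [mem_image] at hr
    obtain ⟨k', hk', rfl⟩ := hr
    rw [mem_Ico] at hk' ⊢
    omega
  rw [h1]
  linarith

private theorem kf_sq (R : ℕ) (y : ℝ) : ((‖∑ k ∈ range R, ee ((k : ℝ) * y)‖ ^ 2 : ℝ) : ℂ) =
    ∑ k ∈ range R, ∑ k' ∈ range R, ee ((((k : ℤ) - k' : ℤ) : ℝ) * y) := by
  rw [← Complex.normSq_eq_norm_sq, ← Complex.mul_conj, map_sum, Finset.sum_mul_sum]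
  refine Finset.sum_congr rfl fun k _ => Finset.sum_congr rfl fun k' _ => ?_
  have h1 : (starRingEnd ℂ) (ee ((k' : ℝ) * y)) = ee (-((k' : ℝ) * y)) := by
    unfold ee
    rw [← Complex.exp_conj]
    congr 1
    have h2 : (starRingEnd ℂ) (2 : ℂ) = 2 := Complex.conj_ofNat 2
    rw [map_mul, map_mul, map_mul, h2, Complex.conj_ofReal, Complex.conj_ofReal, Complex.conj_I]
    push_cast
    ring
  rw [h1, ← ee_add]
  congr 1
  push_cast
  ring

private theorem nuJ_eq (E : Finset ℕ) (N r : ℕ) :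
    (nuJ E N r : ℝ) = ∑ s ∈ Ioc N (2 * N), (DD E ((r : ℤ) * s) : ℝ) := by
  unfold nuJ
  have h1 : ∀ s ∈ Ioc N (2 * N), (DD E ((r : ℤ) * s) : ℝ) =
      ∑ n ∈ E, ∑ n' ∈ E, if n' = n + r * s then (1 : ℝ) else 0 := by
    intro s _
    rw [← DD_neg]
    unfold DD
    rw [Finset.card_filter, Finset.sum_product]
    push_cast
    refine Finset.sum_congr rfl fun n _ => Finset.sum_congr rfl fun n' _ => ?_
    have : ((n : ℤ) - n' = -((r : ℤ) * s)) ↔ n' = n + r * s := by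
      constructor
      · intro h
        have : (n' : ℤ) = n + r * s := by linarith
        exact_mod_cast this
      · intro h
        rw [h]
        push_cast
        ring
    simp only [this]
  rw [Finset.sum_congr rfl h1, Finset.card_filter, Finset.sum_product]
  push_cast
  have e1 : ∑ s ∈ Ioc N (2 * N), ∑ n ∈ E, ∑ n' ∈ E, (if n' = n + r * s then (1 : ℝ) else 0) =
      ∑ n ∈ E, ∑ s ∈ Ioc N (2 * N), ∑ n' ∈ E, (if n' = n + r * s then (1 : ℝ) else 0) :=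
    Finset.sum_comm
  rw [e1]
  refine Finset.sum_congr rfl fun n _ => ?_
  have e2 : ∑ s ∈ Ioc N (2 * N), ∑ n' ∈ E, (if n' = n + r * s then (1 : ℝ) else 0) =
      ∑ n' ∈ E, ∑ s ∈ Ioc N (2 * N), (if n' = n + r * s then (1 : ℝ) else 0) :=
    Finset.sum_comm
  rw [e2, Finset.sum_product]

private theorem kf_norm_ee_neg (N : ℕ) (d : ℤ) (α : ℝ) :
    ‖∑ s ∈ Ioc N (2 * N), ee ((((-d) : ℤ) : ℝ) * (s * α))‖ = ‖∑ s ∈ Ioc N (2 * N), ee ((d : ℝ) * (s * α))‖ := by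
  have h1 : ∑ s ∈ Ioc N (2 * N), ee ((((-d) : ℤ) : ℝ) * (s * α)) =
      (starRingEnd ℂ) (∑ s ∈ Ioc N (2 * N), ee ((d : ℝ) * (s * α))) := by
    rw [map_sum]
    refine Finset.sum_congr rfl fun s _ => ?_
    unfold ee
    rw [← Complex.exp_conj]
    congr 1
    have h2 : (starRingEnd ℂ) (2 : ℂ) = 2 := Complex.conj_ofNat 2
    rw [map_mul, map_mul, map_mul, h2, Complex.conj_ofReal, Complex.conj_ofReal, Complex.conj_I]
    push_cast
    ring
  rw [h1, RCLike.norm_conj]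

/-- one Fejer kernel -/
private theorem kf_one (X G M N R : ℕ) [NeZero G] (hM : 1 ≤ M) (hN : 1 ≤ N) (hMN : M * N ≤ X)
    (hR : 1 ≤ R) (hRM : R ≤ 2 * M) (hG : 5 * X < G) (E : Finset ℕ) (hE : E ⊆ Icc 1 X)
    (ph : ℕ → ℂ) (hph : ∀ n, ‖ph n‖ ≤ 1) (α : ℝ) :
    (1 / (G : ℝ)) * ∑ j : ZMod G, ‖KE G E ph j‖ ^ 2 * ∑ s ∈ Ioc N (2 * N), ∑ s' ∈ Ioc N (2 * N),
      (1 / (R : ℝ)) * ‖∑ k ∈ range R, ee ((k : ℝ) * (s * α - s' * al G j))‖ ^ 2 ≤
    (N : ℝ) ^ 2 * E.card + 2 * ∑ r ∈ Ico 1 (2 * M), (nuJ E N r : ℝ) * L2G.mn N ((r : ℝ) * α) := by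
  have hG0 : (0 : ℝ) < G := by exact_mod_cast Nat.pos_of_ne_zero (NeZero.ne G)
  have hR0 : (0 : ℝ) < R := by exact_mod_cast hR
  set H : ℤ → ℝ := fun d => ‖∑ s ∈ Ioc N (2 * N), ee ((d : ℝ) * (s * α))‖ *
    ∑ s' ∈ Ioc N (2 * N), (DD E (d * s') : ℝ) with hH
  have hH0 : ∀ d, 0 ≤ H d := fun d => mul_nonneg (norm_nonneg _)
    (Finset.sum_nonneg fun _ _ => Nat.cast_nonneg _)
  have hHs : ∀ d, H (-d) = H d := by
    intro d
    rw [hH]
    simp only
    rw [kf_norm_ee_neg]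
    congr 1
    refine Finset.sum_congr rfl fun s _ => ?_
    rw [neg_mul, DD_neg]
  set L : ℝ := (1 / (G : ℝ)) * ∑ j : ZMod G, ‖KE G E ph j‖ ^ 2 * ∑ s ∈ Ioc N (2 * N),
      ∑ s' ∈ Ioc N (2 * N), ‖∑ k ∈ range R, ee ((k : ℝ) * (s * α - s' * al G j))‖ ^ 2 with hL
  have hLL : (1 / (G : ℝ)) * ∑ j : ZMod G, ‖KE G E ph j‖ ^ 2 * ∑ s ∈ Ioc N (2 * N),
      ∑ s' ∈ Ioc N (2 * N),
      (1 / (R : ℝ)) * ‖∑ k ∈ range R, ee ((k : ℝ) * (s * α - s' * al G j))‖ ^ 2 = (1 / (R : ℝ)) * L := by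
    rw [hL]
    simp only [← Finset.mul_sum]
    have : ∀ j : ZMod G, ‖KE G E ph j‖ ^ 2 * ((1 / (R : ℝ)) * ∑ s ∈ Ioc N (2 * N),
        ∑ s' ∈ Ioc N (2 * N), ‖∑ k ∈ range R, ee ((k : ℝ) * (s * α - s' * al G j))‖ ^ 2) =
        (1 / (R : ℝ)) * (‖KE G E ph j‖ ^ 2 * ∑ s ∈ Ioc N (2 * N),
        ∑ s' ∈ Ioc N (2 * N), ‖∑ k ∈ range R, ee ((k : ℝ) * (s * α - s' * al G j))‖ ^ 2) := by
      intro j
      ring
    rw [Finset.sum_congr rfl fun j _ => this j, ← Finset.mul_sum]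
    ring
  have hL0 : 0 ≤ L := by
    rw [hL]
    exact mul_nonneg (by positivity) (Finset.sum_nonneg fun _ _ => mul_nonneg (sq_nonneg _)
      (Finset.sum_nonneg fun _ _ => Finset.sum_nonneg fun _ _ => sq_nonneg _))
  -- expand
  have hexp : (L : ℂ) = ∑ k ∈ range R, ∑ k' ∈ range R,
      (∑ s ∈ Ioc N (2 * N), ee ((((k : ℤ) - k' : ℤ) : ℝ) * (s * α))) *
      ∑ s' ∈ Ioc N (2 * N), (1 / (G : ℂ)) * ∑ j : ZMod G, ((‖KE G E ph j‖ ^ 2 : ℝ) : ℂ) *
        ee (((-(((k : ℤ) - k') * s') : ℤ) : ℝ) * al G j) := by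
    have h1 : (L : ℂ) = (1 / (G : ℂ)) * ∑ j : ZMod G, ((‖KE G E ph j‖ ^ 2 : ℝ) : ℂ) *
        ∑ s ∈ Ioc N (2 * N), ∑ s' ∈ Ioc N (2 * N), ∑ k ∈ range R, ∑ k' ∈ range R,
          ee ((((k : ℤ) - k' : ℤ) : ℝ) * (s * α - s' * al G j)) := by
      rw [hL]
      simp only [← kf_sq]
      push_cast
      rfl
    rw [h1]
    have h2 : ∀ (s s' k k' : ℕ) (j : ZMod G), ee ((((k : ℤ) - k' : ℤ) : ℝ) * (s * α - s' * al G j)) =
        ee ((((k : ℤ) - k' : ℤ) : ℝ) * (s * α)) * ee (((-(((k : ℤ) - k') * s') : ℤ) : ℝ) * al G j) := by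
      intro s s' k k' j
      rw [← ee_add]
      congr 1
      push_cast
      ring
    set F : ℕ → ℕ → ZMod G → ℕ → ℕ → ℂ := fun k k' j s s' =>
      (1 / (G : ℂ)) * (((‖KE G E ph j‖ ^ 2 : ℝ) : ℂ) * (ee ((((k : ℤ) - k' : ℤ) : ℝ) * (s * α)) *
        ee (((-(((k : ℤ) - k') * s') : ℤ) : ℝ) * al G j))) with hF
    have h3 : (1 / (G : ℂ)) * ∑ j : ZMod G, ((‖KE G E ph j‖ ^ 2 : ℝ) : ℂ) *
        ∑ s ∈ Ioc N (2 * N), ∑ s' ∈ Ioc N (2 * N), ∑ k ∈ range R, ∑ k' ∈ range R,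
          ee ((((k : ℤ) - k' : ℤ) : ℝ) * (s * α - s' * al G j)) =
        ∑ j : ZMod G, ∑ s ∈ Ioc N (2 * N), ∑ s' ∈ Ioc N (2 * N), ∑ k ∈ range R, ∑ k' ∈ range R,
          F k k' j s s' := by
      simp only [h2, Finset.mul_sum, hF]
    rw [h3]
    calc ∑ j : ZMod G, ∑ s ∈ Ioc N (2 * N), ∑ s' ∈ Ioc N (2 * N), ∑ k ∈ range R, ∑ k' ∈ range R,
          F k k' j s s'
        = ∑ j : ZMod G, ∑ s ∈ Ioc N (2 * N), ∑ k ∈ range R, ∑ k' ∈ range R, ∑ s' ∈ Ioc N (2 * N),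
          F k k' j s s' := by
          refine Finset.sum_congr rfl fun j _ => Finset.sum_congr rfl fun s _ => ?_
          rw [Finset.sum_comm]
          exact Finset.sum_congr rfl fun k _ => Finset.sum_comm
      _ = ∑ j : ZMod G, ∑ k ∈ range R, ∑ k' ∈ range R, ∑ s ∈ Ioc N (2 * N), ∑ s' ∈ Ioc N (2 * N),
          F k k' j s s' := by
          refine Finset.sum_congr rfl fun j _ => ?_
          rw [Finset.sum_comm]
          exact Finset.sum_congr rfl fun k _ => Finset.sum_comm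
      _ = ∑ k ∈ range R, ∑ k' ∈ range R, ∑ j : ZMod G, ∑ s ∈ Ioc N (2 * N), ∑ s' ∈ Ioc N (2 * N),
          F k k' j s s' := by
          rw [Finset.sum_comm]
          exact Finset.sum_congr rfl fun k _ => Finset.sum_comm
      _ = _ := by
          refine Finset.sum_congr rfl fun k _ => Finset.sum_congr rfl fun k' _ => ?_
          rw [Finset.sum_mul_sum]
          calc ∑ j : ZMod G, ∑ s ∈ Ioc N (2 * N), ∑ s' ∈ Ioc N (2 * N), F k k' j s s'
              = ∑ s ∈ Ioc N (2 * N), ∑ j : ZMod G, ∑ s' ∈ Ioc N (2 * N), F k k' j s s' :=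
                Finset.sum_comm
            _ = ∑ s ∈ Ioc N (2 * N), ∑ s' ∈ Ioc N (2 * N), ∑ j : ZMod G, F k k' j s s' :=
                Finset.sum_congr rfl fun s _ => Finset.sum_comm
            _ = _ := by
                refine Finset.sum_congr rfl fun s _ => Finset.sum_congr rfl fun s' _ => ?_
                rw [Finset.mul_sum, Finset.mul_sum]
                refine Finset.sum_congr rfl fun j _ => ?_
                rw [hF]
                simp only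
                ring
  have hbd : L ≤ ∑ k ∈ range R, ∑ k' ∈ range R, H ((k : ℤ) - k') := by
    have h1 : L = ‖(L : ℂ)‖ := by rw [Complex.norm_real, Real.norm_eq_abs, abs_of_nonneg hL0]
    rw [h1, hexp]
    refine (norm_sum_le _ _).trans (Finset.sum_le_sum fun k hk => ?_)
    refine (norm_sum_le _ _).trans (Finset.sum_le_sum fun k' hk' => ?_)
    rw [norm_mul, hH]
    simp only
    refine mul_le_mul_of_nonneg_left ?_ (norm_nonneg _)
    refine (norm_sum_le _ _).trans (Finset.sum_le_sum fun s' hs' => ?_)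
    have h2 := kf_coef X G hG E hE ph hph (-(((k : ℤ) - k') * s')) ?_
    · rw [DD_neg] at h2
      exact h2
    · rw [mem_range] at hk hk'
      rw [mem_Ioc] at hs'
      rw [abs_neg, abs_mul, Nat.abs_cast]
      have h3 : |(k : ℤ) - k'| ≤ 2 * M := by
        rw [abs_le]
        omega
      have h4 : (s' : ℤ) ≤ 2 * N := by omega
      calc |(k : ℤ) - k'| * (s' : ℤ) ≤ (2 * M) * (2 * N) :=
            mul_le_mul h3 h4 (by positivity) (by positivity)
        _ = 4 * ((M * N : ℕ) : ℤ) := by push_cast; ring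
        _ ≤ 4 * X := by
            have : ((M * N : ℕ) : ℤ) ≤ X := by exact_mod_cast hMN
            omega
  have hrow : ∑ k ∈ range R, ∑ k' ∈ range R, H ((k : ℤ) - k') ≤
      R * (H 0 + 2 * ∑ r ∈ Ico 1 R, H r) := by
    refine (Finset.sum_le_sum fun k hk => kf_row R H hH0 hHs k (mem_range.1 hk)).trans ?_
    rw [Finset.sum_const, card_range, nsmul_eq_mul]
  have hH00 : H 0 = (N : ℝ) ^ 2 * E.card := by
    rw [hH]
    simp only [Int.cast_zero, zero_mul]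
    have h1 : ee 0 = 1 := by unfold ee; simp
    rw [h1, DD_zero, Finset.sum_const, Finset.sum_const, Nat.card_Ioc]
    have h2 : 2 * N - N = N := by omega
    rw [h2, nsmul_eq_mul, mul_one, nsmul_eq_mul, Complex.norm_natCast]
    ring
  have hHr : ∀ r ∈ Ico 1 R, H r ≤ (nuJ E N r : ℝ) * L2G.mn N ((r : ℝ) * α) := by
    intro r _
    rw [nuJ_eq]
    have h0 : H r = (∑ s' ∈ Ioc N (2 * N), (DD E ((r : ℤ) * s') : ℝ)) *
        ‖∑ s ∈ Ioc N (2 * N), ee (((r : ℤ) : ℝ) * (s * α))‖ := by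
      rw [hH]
      simp only
      rw [mul_comm]
    rw [h0]
    refine mul_le_mul_of_nonneg_left ?_ (Finset.sum_nonneg fun _ _ => Nat.cast_nonneg _)
    have h1 : ∑ s ∈ Ioc N (2 * N), ee (((r : ℤ) : ℝ) * (s * α)) =
        ∑ s ∈ Ioc N (2 * N), ee ((s : ℝ) * ((r : ℝ) * α)) := by
      refine Finset.sum_congr rfl fun s _ => ?_
      congr 1
      push_cast
      ring
    rw [h1]
    refine L2G.geo_sum _ _ _ _ ?_ (Nat.cast_nonneg _)
    push_cast
    linarith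
  rw [hLL]
  have h5 : L ≤ R * (H 0 + 2 * ∑ r ∈ Ico 1 R, H r) := hbd.trans hrow
  have h6 : (1 / (R : ℝ)) * L ≤ H 0 + 2 * ∑ r ∈ Ico 1 R, H r := by
    have := mul_le_mul_of_nonneg_left h5 (show 0 ≤ 1 / (R : ℝ) by positivity)
    refine this.trans (le_of_eq ?_)
    field_simp
  refine h6.trans ?_
  rw [hH00]
  have h7 : ∑ r ∈ Ico 1 R, H r ≤ ∑ r ∈ Ico 1 (2 * M), (nuJ E N r : ℝ) * L2G.mn N ((r : ℝ) * α) := by
    refine (Finset.sum_le_sum hHr).trans ?_
    refine Finset.sum_le_sum_of_subset_of_nonneg (Finset.Ico_subset_Ico le_rfl hRM) fun r _ _ => ?_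
    exact mul_nonneg (Nat.cast_nonneg _) (L2G.mn_nonneg _ _ (Nat.cast_nonneg _))
  linarith

private theorem kf_nrm_neg (x : ℝ) : nrm (-x) = nrm x := by
  have key : ∀ y : ℝ, nrm (-y) ≤ nrm y := by
    intro y
    have h1 : |(-y) - ((round (-y) : ℤ) : ℝ)| ≤ |(-y) - ((-(round y) : ℤ) : ℝ)| :=
      round_le (-y) (-(round y))
    have h2 : (-y) - ((-(round y) : ℤ) : ℝ) = -(y - ((round y : ℤ) : ℝ)) := by
      push_cast
      ring
    rw [h2, abs_neg] at h1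
    exact h1
  refine le_antisymm (key x) ?_
  have := key (-x)
  rwa [neg_neg] at this

private theorem kf_symm (M N : ℕ) (α α' : ℝ) : Bker M N α α' = Bker M N α' α := by
  unfold Bker
  rw [Finset.sum_comm]
  refine Finset.sum_congr rfl fun s _ => Finset.sum_congr rfl fun s' _ => ?_
  unfold L2G.mn
  rw [← kf_nrm_neg, neg_sub]

theorem ker_j (X G M N : ℕ) [NeZero G] (hM : 1 ≤ M) (hN : 1 ≤ N) (hMN : M * N ≤ X)
    (hG : 5 * X < G) (ω V : ZMod G → ℂ) (hω : ∀ j, ‖ω j‖ ≤ 1) (E : Finset ℕ) (hE : E ⊆ Icc 1 X)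
    (ph : ℕ → ℂ) (hph : ∀ n, ‖ph n‖ ≤ 1) :
    (1 / (G : ℝ)) ^ 2 * ∑ j : ZMod G, ∑ j' : ZMod G,
        ‖xx G V ω E ph j‖ * ‖xx G V ω E ph j'‖ * Bker M N (al G j) (al G j') ≤
      5 * ((Nat.log 2 (2 * M) : ℝ) + 1) * ((N : ℝ) ^ 2 * E.card * nm2 G (fun j => ω j * V j) +
        2 * ∑ r ∈ Ico 1 (2 * M), (nuJ E N r : ℝ) *
          ((1 / (G : ℝ)) * ∑ j : ZMod G, ‖ω j * V j‖ ^ 2 * L2G.mn N ((r : ℝ) * al G j))) := by
  have hG0 : (0 : ℝ) < G := by exact_mod_cast Nat.pos_of_ne_zero (NeZero.ne G)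
  set I := Nat.log 2 (2 * M) with hI
  have hB0 : ∀ α α' : ℝ, 0 ≤ Bker M N α α' := by
    intro α α'
    unfold Bker
    exact Finset.sum_nonneg fun s _ => Finset.sum_nonneg fun s' _ =>
      L2G.mn_nonneg _ _ (Nat.cast_nonneg _)
  set W : ZMod G → ℝ := fun j => ‖ω j * V j‖ ^ 2 with hW
  set K2 : ZMod G → ℝ := fun j => ‖KE G E ph j‖ ^ 2 with hK2
  have h1 : ∑ j : ZMod G, ∑ j' : ZMod G,
        ‖xx G V ω E ph j‖ * ‖xx G V ω E ph j'‖ * Bker M N (al G j) (al G j') ≤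
      ∑ j : ZMod G, ∑ j' : ZMod G, W j * K2 j' * Bker M N (al G j) (al G j') := by
    have h2 : ∑ j : ZMod G, ∑ j' : ZMod G,
        ‖xx G V ω E ph j‖ * ‖xx G V ω E ph j'‖ * Bker M N (al G j) (al G j') ≤
        ∑ j : ZMod G, ∑ j' : ZMod G, (W j * K2 j' / 2 * Bker M N (al G j) (al G j') +
          W j' * K2 j / 2 * Bker M N (al G j) (al G j')) := by
      refine Finset.sum_le_sum fun j _ => Finset.sum_le_sum fun j' _ => ?_
      rw [← add_mul]
      refine mul_le_mul_of_nonneg_right ?_ (hB0 _ _)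
      unfold xx
      rw [norm_mul, norm_mul (ω j' * V j')]
      rw [hW, hK2]
      simp only
      have := sq_nonneg (‖ω j * V j‖ * ‖KE G E ph j'‖ - ‖ω j' * V j'‖ * ‖KE G E ph j‖)
      nlinarith
    have h3 : ∑ j : ZMod G, ∑ j' : ZMod G, W j' * K2 j / 2 * Bker M N (al G j) (al G j') =
        ∑ j : ZMod G, ∑ j' : ZMod G, W j * K2 j' / 2 * Bker M N (al G j) (al G j') := by
      rw [Finset.sum_comm]
      refine Finset.sum_congr rfl fun j _ => Finset.sum_congr rfl fun j' _ => ?_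
      rw [kf_symm]
    refine h2.trans ?_
    simp only [Finset.sum_add_distrib]
    rw [h3, ← two_mul, Finset.mul_sum]
    refine Finset.sum_le_sum fun j _ => ?_
    rw [Finset.mul_sum]
    refine Finset.sum_le_sum fun j' _ => ?_
    linarith
  -- one row
  have hrow : ∀ j : ZMod G, (1 / (G : ℝ)) * ∑ j' : ZMod G, K2 j' * Bker M N (al G j) (al G j') ≤
      5 * ((I : ℝ) + 1) * ((N : ℝ) ^ 2 * E.card +
        2 * ∑ r ∈ Ico 1 (2 * M), (nuJ E N r : ℝ) * L2G.mn N ((r : ℝ) * al G j)) := by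
    intro j
    have h4 : ∀ j' : ZMod G, K2 j' * Bker M N (al G j) (al G j') ≤
        ∑ i ∈ range (I + 1), 5 * (K2 j' * ∑ s ∈ Ioc N (2 * N), ∑ s' ∈ Ioc N (2 * N),
        (1 / (2 : ℝ) ^ i) * ‖∑ k ∈ range (2 ^ i), ee ((k : ℝ) * (s * al G j - s' * al G j'))‖ ^ 2) := by
      intro j'
      have h5 : Bker M N (al G j) (al G j') ≤ ∑ s ∈ Ioc N (2 * N), ∑ s' ∈ Ioc N (2 * N),
          5 * ∑ i ∈ range (I + 1), (1 / (2 : ℝ) ^ i) *
          ‖∑ k ∈ range (2 ^ i), ee ((k : ℝ) * (s * al G j - s' * al G j'))‖ ^ 2 := by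
        unfold Bker
        exact Finset.sum_le_sum fun s _ => Finset.sum_le_sum fun s' _ => fej_mn M hM _
      refine (mul_le_mul_of_nonneg_left h5 (by rw [hK2]; positivity)).trans (le_of_eq ?_)
      simp only [Finset.mul_sum]
      have e1 : ∀ s ∈ Ioc N (2 * N), ∑ s' ∈ Ioc N (2 * N), ∑ i ∈ range (I + 1),
          K2 j' * (5 * ((1 / (2 : ℝ) ^ i) *
          ‖∑ k ∈ range (2 ^ i), ee ((k : ℝ) * (s * al G j - s' * al G j'))‖ ^ 2)) =
          ∑ i ∈ range (I + 1), ∑ s' ∈ Ioc N (2 * N), K2 j' * (5 * ((1 / (2 : ℝ) ^ i) *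
          ‖∑ k ∈ range (2 ^ i), ee ((k : ℝ) * (s * al G j - s' * al G j'))‖ ^ 2)) :=
        fun s _ => Finset.sum_comm
      rw [Finset.sum_congr rfl e1, Finset.sum_comm]
      refine Finset.sum_congr rfl fun i _ => Finset.sum_congr rfl fun s _ =>
        Finset.sum_congr rfl fun s' _ => ?_
      ring
    calc (1 / (G : ℝ)) * ∑ j' : ZMod G, K2 j' * Bker M N (al G j) (al G j')
        ≤ (1 / (G : ℝ)) * ∑ j' : ZMod G, ∑ i ∈ range (I + 1), 5 * (K2 j' * ∑ s ∈ Ioc N (2 * N),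
          ∑ s' ∈ Ioc N (2 * N), (1 / (2 : ℝ) ^ i) *
          ‖∑ k ∈ range (2 ^ i), ee ((k : ℝ) * (s * al G j - s' * al G j'))‖ ^ 2) :=
          mul_le_mul_of_nonneg_left (Finset.sum_le_sum fun j' _ => h4 j') (by positivity)
      _ = ∑ i ∈ range (I + 1), 5 * ((1 / (G : ℝ)) * ∑ j' : ZMod G, K2 j' * ∑ s ∈ Ioc N (2 * N),
          ∑ s' ∈ Ioc N (2 * N), (1 / (2 : ℝ) ^ i) *
          ‖∑ k ∈ range (2 ^ i), ee ((k : ℝ) * (s * al G j - s' * al G j'))‖ ^ 2) := by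
          rw [Finset.sum_comm, Finset.mul_sum]
          refine Finset.sum_congr rfl fun i _ => ?_
          rw [← Finset.mul_sum]
          ring
      _ ≤ ∑ i ∈ range (I + 1), 5 * ((N : ℝ) ^ 2 * E.card +
          2 * ∑ r ∈ Ico 1 (2 * M), (nuJ E N r : ℝ) * L2G.mn N ((r : ℝ) * al G j)) := by
          refine Finset.sum_le_sum fun i hi => mul_le_mul_of_nonneg_left ?_ (by norm_num)
          rw [mem_range] at hi
          have h6 : 2 ^ i ≤ 2 * M := by
            have h7 : 2 ^ i ≤ 2 ^ I := Nat.pow_le_pow_right (by norm_num) (by omega)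
            exact h7.trans (Nat.pow_log_le_self 2 (by omega))
          have h8 := kf_one X G M N (2 ^ i) hM hN hMN (Nat.one_le_pow _ _ (by norm_num)) h6 hG E hE
            ph hph (al G j)
          push_cast at h8
          exact h8
      _ = 5 * ((I : ℝ) + 1) * ((N : ℝ) ^ 2 * E.card +
          2 * ∑ r ∈ Ico 1 (2 * M), (nuJ E N r : ℝ) * L2G.mn N ((r : ℝ) * al G j)) := by
          rw [Finset.sum_const, card_range, nsmul_eq_mul]
          push_cast
          ring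
  calc (1 / (G : ℝ)) ^ 2 * ∑ j : ZMod G, ∑ j' : ZMod G,
        ‖xx G V ω E ph j‖ * ‖xx G V ω E ph j'‖ * Bker M N (al G j) (al G j')
      ≤ (1 / (G : ℝ)) ^ 2 * ∑ j : ZMod G, ∑ j' : ZMod G, W j * K2 j' * Bker M N (al G j) (al G j') :=
        mul_le_mul_of_nonneg_left h1 (by positivity)
    _ = (1 / (G : ℝ)) * ∑ j : ZMod G, W j * ((1 / (G : ℝ)) * ∑ j' : ZMod G, K2 j' *
          Bker M N (al G j) (al G j')) := by
        rw [sq, mul_assoc, Finset.mul_sum]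
        congr 1
        refine Finset.sum_congr rfl fun j _ => ?_
        rw [Finset.mul_sum, Finset.mul_sum, Finset.mul_sum]
        refine Finset.sum_congr rfl fun j' _ => ?_
        ring
    _ ≤ (1 / (G : ℝ)) * ∑ j : ZMod G, W j * (5 * ((I : ℝ) + 1) * ((N : ℝ) ^ 2 * E.card +
        2 * ∑ r ∈ Ico 1 (2 * M), (nuJ E N r : ℝ) * L2G.mn N ((r : ℝ) * al G j))) := by
        refine mul_le_mul_of_nonneg_left (Finset.sum_le_sum fun j _ => ?_) (by positivity)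
        exact mul_le_mul_of_nonneg_left (hrow j) (by rw [hW]; positivity)
    _ = 5 * ((I : ℝ) + 1) * ((N : ℝ) ^ 2 * E.card * nm2 G (fun j => ω j * V j) +
        2 * ∑ r ∈ Ico 1 (2 * M), (nuJ E N r : ℝ) *
          ((1 / (G : ℝ)) * ∑ j : ZMod G, ‖ω j * V j‖ ^ 2 * L2G.mn N ((r : ℝ) * al G j))) := by
        unfold nm2
        have e1 : ∀ j : ZMod G, W j * (5 * ((I : ℝ) + 1) * ((N : ℝ) ^ 2 * E.card +
            2 * ∑ r ∈ Ico 1 (2 * M), (nuJ E N r : ℝ) * L2G.mn N ((r : ℝ) * al G j))) =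
            5 * ((I : ℝ) + 1) * ((N : ℝ) ^ 2 * E.card) * W j + 5 * ((I : ℝ) + 1) * 2 *
            ∑ r ∈ Ico 1 (2 * M), (nuJ E N r : ℝ) * (W j * L2G.mn N ((r : ℝ) * al G j)) := by
          intro j
          have : ∑ r ∈ Ico 1 (2 * M), (nuJ E N r : ℝ) * (W j * L2G.mn N ((r : ℝ) * al G j)) =
              W j * ∑ r ∈ Ico 1 (2 * M), (nuJ E N r : ℝ) * L2G.mn N ((r : ℝ) * al G j) := by
            rw [Finset.mul_sum]
            exact Finset.sum_congr rfl fun r _ => by ring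
          rw [this]
          ring
        rw [Finset.sum_congr rfl fun j _ => e1 j, Finset.sum_add_distrib, ← Finset.mul_sum,
          ← Finset.mul_sum, Finset.sum_comm]
        have e2 : ∑ r ∈ Ico 1 (2 * M), ∑ j : ZMod G, (nuJ E N r : ℝ) *
            (W j * L2G.mn N ((r : ℝ) * al G j)) = ∑ r ∈ Ico 1 (2 * M), (nuJ E N r : ℝ) *
            ∑ j : ZMod G, W j * L2G.mn N ((r : ℝ) * al G j) :=
          Finset.sum_congr rfl fun r _ => by rw [Finset.mul_sum]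
        have e3 : ∑ r ∈ Ico 1 (2 * M), (nuJ E N r : ℝ) *
            ((1 / (G : ℝ)) * ∑ j : ZMod G, W j * L2G.mn N ((r : ℝ) * al G j)) =
            (1 / (G : ℝ)) * ∑ r ∈ Ico 1 (2 * M), (nuJ E N r : ℝ) *
            ∑ j : ZMod G, W j * L2G.mn N ((r : ℝ) * al G j) := by
          rw [Finset.mul_sum]
          exact Finset.sum_congr rfl fun r _ => by ring
        rw [e2, e3]
        ring

end Pool.MP_dd84fd_nt.JX
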