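import Pool.Agent.Lib.MP_dd84fd_nt.JX.SRes
import Pool.Agent.Lib.MP_dd84fd_nt.JX.KFej

/-!
# JX-LQ: the Q-lemma of Theorem L (helper47)

`V` = block, `Q = nm2 (ω V K)`.  `Q = (1/G) Σ_j V_j y_j`, `y_j = conj(V_j) |ω_j|² |K_j|²`; `vl_cs` and `ker_j` for the function
`V'_j = |V_j| |K_j|` (weight `|ω_j|²`): `Q² ≤ K L^(4C) 5 (log_2 (2K) + 1) (N² #E Q + 2 Σ_r ν(r) (1/G) Σ_j ‖ω_j V_j‖² ‖K_j‖² mn N (r al_j))`
and `‖K_j‖² ≤ #E²`, `res_j` (with `N' = N`) for the `j, r` with `‖r al_j‖ ≤ 1/κ`, `κ = N X^(-η/2)`.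
-/

set_option autoImplicit false

namespace Pool.MP_dd84fd_nt.JX

open Finset Pool.MP_67663b_nt.Odd Pool.MP_dd84fd_nt.En Pool.MP_dd84fd_nt.E2 Pool.MP_dd84fd_nt.LS
open Pool.MP_dd84fd_nt.L2G (nrm)
open Pool.MP_dd84fd_nt.GX Pool.MP_dd84fd_nt.HX
open Pool.MP_dd84fd_nt.IX (dl yB wSI SSI y3_dl y2_dl)

private theorem lq_mn_split (N : ℕ) (κ t : ℝ) (hN : 0 < (N : ℝ)) (hκ : 0 < κ) (hκN : κ ≤ N) :
    L2G.mn N t ≤ N * (if nrm t ≤ 1 / κ then 1 else 0) + κ / 2 := by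
  unfold L2G.mn
  by_cases h : nrm t ≤ 1 / κ
  · rw [if_pos h, mul_one]
    split_ifs with h1
    · linarith
    · have h2 : 1 < 2 * nrm t * N := not_le.1 h1
      have h3 : 0 < 2 * nrm t := by
        by_contra h4
        have h5 : 2 * nrm t * N ≤ 0 := mul_nonpos_of_nonpos_of_nonneg (not_lt.1 h4) hN.le
        linarith
      have h6 : 1 / (2 * nrm t) ≤ N := by
        rw [div_le_iff₀ h3]
        linarith
      linarith
  · rw [if_neg h, mul_zero, zero_add]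
    have h1 : 1 / κ < nrm t := not_le.1 h
    have h0 : 0 < 1 / κ := by positivity
    have h3 : 0 < 2 * nrm t := by linarith
    have h4 : ¬ (2 * nrm t * N ≤ 1) := by
      rw [not_le]
      have h5 : 1 < nrm t * κ := by
        rwa [div_lt_iff₀ hκ] at h1
      have h6 : nrm t * κ ≤ nrm t * N := mul_le_mul_of_nonneg_left hκN (by linarith)
      nlinarith
    rw [if_neg h4, div_le_iff₀ h3]
    have h5 : 1 < nrm t * κ := by
      rwa [div_lt_iff₀ hκ] at h1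
    linarith

open Classical in
private theorem lq_sum_split (G : ℕ) [NeZero G] (W : ZMod G → ℝ) (hW : ∀ j, 0 ≤ W j) (E : Finset ℕ)
    (N M : ℕ) (κ : ℝ) (hN : 0 < (N : ℝ)) (hκ : 0 < κ) (hκN : κ ≤ N) :
    ∑ r ∈ Ico 1 (2 * M), (nuJ E N r : ℝ) *
        ((1 / (G : ℝ)) * ∑ j : ZMod G, W j * L2G.mn N ((r : ℝ) * al G j)) ≤
      N * ((1 / (G : ℝ)) * ∑ j : ZMod G, W j * nuS E N (2 * M) κ (al G j)) +
        κ / 2 * (∑ r ∈ Icc 1 (2 * M), (nuJ E N r : ℝ)) * ((1 / (G : ℝ)) * ∑ j : ZMod G, W j) := by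
  have hsub : Ico 1 (2 * M) ⊆ Icc 1 (2 * M) := Finset.Ico_subset_Icc_self
  have hG0 : (0 : ℝ) ≤ 1 / (G : ℝ) := by positivity
  have h1 : ∑ r ∈ Ico 1 (2 * M), (nuJ E N r : ℝ) *
      ((1 / (G : ℝ)) * ∑ j : ZMod G, W j * L2G.mn N ((r : ℝ) * al G j)) ≤
      ∑ r ∈ Icc 1 (2 * M), (nuJ E N r : ℝ) * ((1 / (G : ℝ)) * ∑ j : ZMod G,
        W j * (N * (if nrm ((r : ℝ) * al G j) ≤ 1 / κ then 1 else 0) + κ / 2)) := by
    have h0 : ∀ r ∈ Ico 1 (2 * M), (nuJ E N r : ℝ) *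
        ((1 / (G : ℝ)) * ∑ j : ZMod G, W j * L2G.mn N ((r : ℝ) * al G j)) ≤
        (nuJ E N r : ℝ) * ((1 / (G : ℝ)) * ∑ j : ZMod G,
        W j * (N * (if nrm ((r : ℝ) * al G j) ≤ 1 / κ then 1 else 0) + κ / 2)) := by
      intro r _
      refine mul_le_mul_of_nonneg_left (mul_le_mul_of_nonneg_left ?_ hG0) (Nat.cast_nonneg _)
      exact Finset.sum_le_sum fun j _ => mul_le_mul_of_nonneg_left
        (lq_mn_split N κ ((r : ℝ) * al G j) hN hκ hκN) (hW j)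
    refine (Finset.sum_le_sum h0).trans ?_
    refine Finset.sum_le_sum_of_subset_of_nonneg hsub fun r _ _ => ?_
    refine mul_nonneg (Nat.cast_nonneg _) (mul_nonneg hG0 (Finset.sum_nonneg fun j _ => ?_))
    refine mul_nonneg (hW j) (add_nonneg (mul_nonneg hN.le ?_) (by positivity))
    split_ifs <;> norm_num
  refine h1.trans (le_of_eq ?_)
  have h2 : ∀ j : ZMod G, nuS E N (2 * M) κ (al G j) = ∑ r ∈ Icc 1 (2 * M),
      (nuJ E N r : ℝ) * (if nrm ((r : ℝ) * al G j) ≤ 1 / κ then 1 else 0) := by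
    intro j
    unfold nuS
    rw [Finset.sum_filter]
    refine Finset.sum_congr rfl fun r _ => ?_
    split_ifs <;> simp
  simp only [h2]
  have h3 : ∀ r : ℕ, (nuJ E N r : ℝ) * ((1 / (G : ℝ)) * ∑ j : ZMod G,
        W j * (N * (if nrm ((r : ℝ) * al G j) ≤ 1 / κ then 1 else 0) + κ / 2)) =
      N * ((1 / (G : ℝ)) * ∑ j : ZMod G, W j * ((nuJ E N r : ℝ) *
        (if nrm ((r : ℝ) * al G j) ≤ 1 / κ then 1 else 0))) +
        κ / 2 * (nuJ E N r : ℝ) * ((1 / (G : ℝ)) * ∑ j : ZMod G, W j) := by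
    intro r
    have h4 : ∑ j : ZMod G, W j * (N * (if nrm ((r : ℝ) * al G j) ≤ 1 / κ then (1 : ℝ) else 0) +
        κ / 2) = N * ∑ j : ZMod G, W j * (if nrm ((r : ℝ) * al G j) ≤ 1 / κ then (1 : ℝ) else 0) +
        κ / 2 * ∑ j : ZMod G, W j := by
      rw [Finset.mul_sum, Finset.mul_sum, ← Finset.sum_add_distrib]
      exact Finset.sum_congr rfl fun j _ => by ring
    have h5 : ∑ j : ZMod G, W j * ((nuJ E N r : ℝ) *
        (if nrm ((r : ℝ) * al G j) ≤ 1 / κ then (1 : ℝ) else 0)) = (nuJ E N r : ℝ) *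
        ∑ j : ZMod G, W j * (if nrm ((r : ℝ) * al G j) ≤ 1 / κ then (1 : ℝ) else 0) := by
      rw [Finset.mul_sum]
      exact Finset.sum_congr rfl fun j _ => by ring
    rw [h4, h5]
    ring
  rw [Finset.sum_congr rfl fun r _ => h3 r, Finset.sum_add_distrib, ← Finset.mul_sum,
    ← Finset.mul_sum, ← Finset.sum_mul, ← Finset.mul_sum]
  congr 3
  rw [Finset.sum_comm]
  exact Finset.sum_congr rfl fun j _ => by rw [Finset.mul_sum]


/-- the basic inequality -/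
private theorem lq_basic (X G : ℕ) [NeZero G] (hG : 5 * X < G) (N K : ℕ) (hN : 1 ≤ N) (hK : 1 ≤ K)
    (hNK : K * N ≤ X) (a c : ℕ → ℂ) (A : ℝ) (hA : 0 ≤ A) (ha : ∀ n, ‖a n‖ ≤ A)
    (hc : ∀ n, ‖c n‖ ≤ A) (V ω : ZMod G → ℂ) (hV : ∀ j, V j = bl G N K a c j)
    (hω : ∀ j, ‖ω j‖ ≤ 1) (E : Finset ℕ) (hE : E ⊆ Icc 1 X)
    (ph : ℕ → ℂ) (hph : ∀ n, ‖ph n‖ ≤ 1) (κ : ℝ) (hκ : 0 < κ) (hκN : κ ≤ N) :
    nm2 G (xx G V ω E ph) ^ 2 ≤ K * A ^ 4 * (5 * ((Nat.log 2 (2 * K) : ℝ) + 1) *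
      ((N : ℝ) ^ 2 * E.card * nm2 G (xx G V ω E ph) +
        2 * (N * ((E.card : ℝ) ^ 2 * ((1 / (G : ℝ)) * ∑ j : ZMod G, ‖ω j * V j‖ ^ 2 *
            nuS E N (2 * K) κ (al G j))) +
          κ / 2 * (∑ r ∈ Icc 1 (2 * K), (nuJ E N r : ℝ)) * nm2 G (xx G V ω E ph)))) := by
  have hG0 : (0 : ℝ) ≤ 1 / (G : ℝ) := by positivity
  have hN0 : (0 : ℝ) < N := by exact_mod_cast hN
  -- `Q` as a pairing
  set y : ZMod G → ℂ := fun j => ((‖ω j‖ ^ 2 * ‖KE G E ph j‖ ^ 2 : ℝ) : ℂ) * (starRingEnd ℂ) (V j) with hy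
  have hQ : ((nm2 G (xx G V ω E ph) : ℝ) : ℂ) =
      (1 / (G : ℂ)) * ∑ j : ZMod G, y j * bl G N K a c j := by
    unfold nm2
    push_cast
    congr 1
    refine Finset.sum_congr rfl fun j _ => ?_
    rw [hy]
    simp only
    rw [← hV j]
    have h1 : (starRingEnd ℂ) (V j) * V j = ((‖V j‖ ^ 2 : ℝ) : ℂ) := by
      rw [mul_comm, Complex.mul_conj, Complex.normSq_eq_norm_sq]
    rw [mul_assoc, h1]
    unfold xx
    rw [norm_mul, norm_mul]
    push_cast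
    ring
  have hQ0 : 0 ≤ nm2 G (xx G V ω E ph) :=
    mul_nonneg hG0 (Finset.sum_nonneg fun j _ => by positivity)
  have hcs := vl_cs G y N K a c A hA ha hc
  rw [← hQ, Complex.norm_real, Real.norm_of_nonneg hQ0] at hcs
  refine hcs.trans ?_
  refine mul_le_mul_of_nonneg_left ?_ (by positivity)
  -- the kernel for `V' = |V| |K|`
  set V' : ZMod G → ℂ := fun j => ((‖V j‖ * ‖KE G E ph j‖ : ℝ) : ℂ) with hV'
  set ω' : ZMod G → ℂ := fun j => ((‖ω j‖ ^ 2 : ℝ) : ℂ) with hω'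
  have hω'1 : ∀ j, ‖ω' j‖ ≤ 1 := by
    intro j
    rw [hω']
    simp only [Complex.norm_real, Real.norm_eq_abs]
    rw [abs_of_nonneg (by positivity)]
    exact pow_le_one₀ (norm_nonneg _) (hω j)
  have hxx : ∀ j, ‖y j‖ = ‖xx G V' ω' E ph j‖ := by
    intro j
    unfold xx
    rw [hy, hV', hω']
    simp only [norm_mul, Complex.norm_real, Real.norm_eq_abs, RCLike.norm_conj, abs_mul, abs_pow,
      abs_norm]
    ring
  simp only [hxx]
  refine (ker_j X G K N hK hN hNK hG ω' V' hω'1 E hE ph hph).trans ?_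
  refine mul_le_mul_of_nonneg_left ?_ (by positivity)
  -- the norms
  have hW1 : ∀ j, ‖ω' j * V' j‖ ^ 2 ≤ ‖xx G V ω E ph j‖ ^ 2 := by
    intro j
    refine pow_le_pow_left₀ (norm_nonneg _) ?_ 2
    unfold xx
    rw [hV', hω']
    simp only [norm_mul, Complex.norm_real, Real.norm_eq_abs, abs_mul, abs_pow, abs_norm]
    have h1 : ‖ω j‖ ^ 2 ≤ ‖ω j‖ := by
      have := hω j
      have := norm_nonneg (ω j)
      nlinarith
    calc ‖ω j‖ ^ 2 * (‖V j‖ * ‖KE G E ph j‖) ≤ ‖ω j‖ * (‖V j‖ * ‖KE G E ph j‖) :=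
          mul_le_mul_of_nonneg_right h1 (by positivity)
      _ = ‖ω j‖ * ‖V j‖ * ‖KE G E ph j‖ := by ring
  have hW2 : ∀ j, ‖ω' j * V' j‖ ^ 2 ≤ (E.card : ℝ) ^ 2 * ‖ω j * V j‖ ^ 2 := by
    intro j
    refine (hW1 j).trans ?_
    unfold xx
    rw [norm_mul, mul_pow, mul_comm]
    exact mul_le_mul_of_nonneg_right
      (pow_le_pow_left₀ (norm_nonneg _) (ke_sup G E ph hph j) 2) (by positivity)
  have hnm : nm2 G (fun j => ω' j * V' j) ≤ nm2 G (xx G V ω E ph) := by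
    unfold nm2
    exact mul_le_mul_of_nonneg_left (Finset.sum_le_sum fun j _ => hW1 j) hG0
  have hsp := lq_sum_split G (fun j => ‖ω' j * V' j‖ ^ 2) (fun j => by positivity) E N K κ hN0 hκ hκN
  have hnuS0 : ∀ α : ℝ, 0 ≤ nuS E N (2 * K) κ α := by
    intro α
    unfold nuS
    exact Finset.sum_nonneg fun r _ => Nat.cast_nonneg _
  have hI : (1 / (G : ℝ)) * ∑ j : ZMod G, ‖ω' j * V' j‖ ^ 2 * nuS E N (2 * K) κ (al G j) ≤
      (E.card : ℝ) ^ 2 * ((1 / (G : ℝ)) * ∑ j : ZMod G, ‖ω j * V j‖ ^ 2 *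
            nuS E N (2 * K) κ (al G j)) := by
    have h1 : (E.card : ℝ) ^ 2 * ((1 / (G : ℝ)) * ∑ j : ZMod G, ‖ω j * V j‖ ^ 2 *
            nuS E N (2 * K) κ (al G j)) = (1 / (G : ℝ)) * ∑ j : ZMod G,
            (E.card : ℝ) ^ 2 * (‖ω j * V j‖ ^ 2 * nuS E N (2 * K) κ (al G j)) := by
      rw [← Finset.mul_sum]
      ring
    rw [h1]
    refine mul_le_mul_of_nonneg_left (Finset.sum_le_sum fun j _ => ?_) hG0
    rw [← mul_assoc]
    exact mul_le_mul_of_nonneg_right (hW2 j) (hnuS0 _)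
  have hS0 : (0 : ℝ) ≤ ∑ r ∈ Icc 1 (2 * K), (nuJ E N r : ℝ) :=
    Finset.sum_nonneg fun r _ => Nat.cast_nonneg _
  refine add_le_add (mul_le_mul_of_nonneg_left hnm (by positivity)) ?_
  refine mul_le_mul_of_nonneg_left (hsp.trans ?_) (by norm_num)
  refine add_le_add (mul_le_mul_of_nonneg_left hI hN0.le) ?_
  exact mul_le_mul_of_nonneg_left hnm (by positivity)

/-- the Q-lemma -/
theorem q_lem (C : ℕ) (th e τ η : ℝ) (hA : Adm th e τ) (hη : 0 < η) (hη' : η ≤ e) :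
    ∃ X0 : ℕ, ∀ X : ℕ, X0 ≤ X → ∀ (G : ℕ) [NeZero G], 4 * X ^ 2 ≤ G →
    ∀ (N K : ℕ) (a c : ℕ → ℝ), Ok2 ((Real.log X) ^ C) th e τ X N K a c →
    ∀ ω : ZMod G → ℂ, (∀ j, ‖ω j‖ ≤ 1) →
    ∀ E : Finset ℕ, E ⊆ Icc 1 X → (X : ℝ) ^ (th - e) ≤ E.card → ∀ ph : ℕ → ℂ,
    (∀ n, ‖ph n‖ ≤ 1) → NoAPH G (dl th e) X ω E ((X : ℝ) ^ (-η)) →
    nm2 G (xx G (tr G X (ty2 K a c)) ω E ph) ≤ (X : ℝ) ^ (1 - η / 10) * (E.card : ℝ) ^ 2 := by
  obtain ⟨X2, hres⟩ := res_j C th e τ η hA hη hη'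
  obtain ⟨Cd, hCd1, hCd⟩ := div_pow (η / 100) (by positivity)
  obtain ⟨ht1, ht2, he0, hτ1, hτ2⟩ := id hA
  have hτ0 : 0 < τ := by linarith
  obtain ⟨X3, hlog⟩ := E2.MP_log_pow (60 * (1 + Cd)) (4 * C + 1) (ε := η / 20) (by positivity)
  obtain ⟨X4, hX4⟩ := E2.MP_log_pow 4 0 (ε := τ) hτ0
  refine ⟨X2 + X3 + X4 + 8, ?_⟩
  intro X hX G _ hG N K a c hok ω hω E hE hEc ph hph hNo
  have hX8 : 8 ≤ X := by omega
  have hXr : (8 : ℝ) ≤ X := by exact_mod_cast hX8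
  have hX0 : (0 : ℝ) < X := by linarith
  have hX1' : (1 : ℝ) ≤ X := by linarith
  set L : ℝ := Real.log X with hL
  have hL1 : 1 ≤ L := by
    rw [hL, Real.le_log_iff_exp_le hX0]
    have := Real.exp_one_lt_d9
    linarith
  have hL0 : 0 < L := by linarith
  have hG5 : 5 * X < G := by nlinarith
  have hG0 : (0 : ℝ) ≤ 1 / (G : ℝ) := by positivity
  have hN2r : (2 : ℝ) ≤ N := by
    have h1 := hX4 X (by omega)
    rw [pow_zero, mul_one] at h1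
    have h2 := hok.2.1.1
    linarith
  have hN2 : 2 ≤ N := by exact_mod_cast hN2r
  have hN0 : (0 : ℝ) < N := by linarith
  have hE0 : (0 : ℝ) ≤ E.card := Nat.cast_nonneg _
  set V := tr G X (ty2 K a c) with hV
  set Q : ℝ := nm2 G (xx G V ω E ph) with hQdef
  have hQ0 : 0 ≤ Q := mul_nonneg hG0 (Finset.sum_nonneg fun j _ => by positivity)
  have hVbl : ∀ j, V j = bl G N K (fun m => ((a m : ℝ) : ℂ)) (fun k => ((c k : ℝ) : ℂ)) j :=
    fun j => tr_ty2 G X N K a c (fun m hm => ⟨(hok.2.2 m hm).1, (hok.2.2 m hm).2.1,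
      (hok.2.2 m hm).2.2.2⟩) j
  have hE1 : (0 : ℝ) < E.card := (Real.rpow_pos_of_pos hX0 _).trans_le hEc
  have hWp : (0 : ℝ) < (E.card : ℝ) ^ 2 := by positivity
  rcases Nat.eq_zero_or_pos K with hK | hK
  · have h1 : ∀ j, V j = 0 := by
      intro j
      rw [hVbl j, hK]
      unfold bl
      simp
    have h2 : Q = 0 := by
      rw [hQdef]
      unfold nm2 xx
      simp [h1]
    rw [h2]
    positivity
  have hKN : K * N ≤ X := hok.2.1.2.2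
  have hKNr : (K : ℝ) * N ≤ X := by exact_mod_cast hKN
  have hK0 : (0 : ℝ) < K := by exact_mod_cast hK
  have h2K : 2 * K ≤ X := by
    calc 2 * K = K * 2 := by ring
      _ ≤ K * N := Nat.mul_le_mul_left K hN2
      _ ≤ X := hKN
  set κ : ℝ := (N : ℝ) * (X : ℝ) ^ (-(η / 2)) with hκ
  have hκ0 : 0 < κ := mul_pos hN0 (Real.rpow_pos_of_pos hX0 _)
  have hκN : κ ≤ N := by
    rw [hκ]
    refine mul_le_of_le_one_right hN0.le ?_
    exact Real.rpow_le_one_of_one_le_of_nonpos hX1' (by linarith)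
  set T : ℝ := Cd * (X : ℝ) ^ (η / 100) with hT
  have hCd0 : 0 < Cd := by linarith
  have hT0 : 0 ≤ T := by positivity
  have hTd : ∀ m : ℕ, 1 ≤ m → m ≤ X → (m.divisors.card : ℝ) ≤ T := by
    intro m hm hmX
    refine (hCd m hm).trans ?_
    refine mul_le_mul_of_nonneg_left ?_ hCd0.le
    exact Real.rpow_le_rpow (Nat.cast_nonneg _) (by exact_mod_cast hmX) (by positivity)
  have hbasic := lq_basic X G hG5 N K (by omega) hK hKN _ _ (L ^ C) (by positivity)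
    (fun n => by
      rw [Complex.norm_real, Real.norm_eq_abs]
      exact (hok.1 n).1)
    (fun n => by
      rw [Complex.norm_real, Real.norm_eq_abs]
      exact (hok.1 n).2) V ω hVbl hω E hE ph hph κ hκ0 hκN
  have hI := hres X (by omega) G hG N N K (2 * K) a c hok le_rfl hok.2.1.2.1 h2K ω hω E hE hEc hNo
  have hnu := nu_sum X E hE N (2 * K) T hT0 hTd
  set I : ℝ := (1 / (G : ℝ)) * ∑ j : ZMod G, ‖ω j * V j‖ ^ 2 * nuS E N (2 * K) κ (al G j) with hIdef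
  set W : ℝ := (E.card : ℝ) ^ 2 with hW
  -- logarithms
  have hlog2 : (Nat.log 2 (2 * K) : ℝ) + 1 ≤ 4 * L := by
    have h1 : (2 : ℝ) ^ Nat.log 2 (2 * K) ≤ X := by
      have h0 : 2 ^ Nat.log 2 (2 * K) ≤ X := (Nat.pow_log_le_self 2 (by omega)).trans h2K
      exact_mod_cast h0
    have h2 : (Nat.log 2 (2 * K) : ℝ) * Real.log 2 ≤ L := by
      have := Real.log_le_log (by positivity) h1
      rw [Real.log_pow] at this
      exact this
    have h3 : (1 / 2 : ℝ) ≤ Real.log 2 := by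
      have := Real.log_two_gt_d9
      linarith
    have h4 : (0 : ℝ) ≤ (Nat.log 2 (2 * K) : ℝ) := Nat.cast_nonneg _
    nlinarith
  -- the three terms
  have hyB : (N : ℝ) ≤ (X : ℝ) ^ (-(2 * e)) * E.card := by
    have h1 : (N : ℝ) ≤ (X : ℝ) ^ (th - 3 * e) := hok.2.1.2.1
    have h2 : (X : ℝ) ^ (th - 3 * e) = (X : ℝ) ^ (-(2 * e)) * (X : ℝ) ^ (th - e) := by
      rw [← Real.rpow_add hX0]
      congr 1
      ring
    rw [h2] at h1
    exact h1.trans (mul_le_mul_of_nonneg_left hEc (Real.rpow_nonneg hX0.le _))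
  set P1 : ℝ := (X : ℝ) ^ (1 - η / 2 + η / 100) with hP1
  have hP10 : 0 < P1 := Real.rpow_pos_of_pos hX0 _
  set P2 : ℝ := (X : ℝ) ^ (1 - η / 4) with hP2
  have hP20 : 0 < P2 := Real.rpow_pos_of_pos hX0 _
  have t1 : (K : ℝ) * ((N : ℝ) ^ 2 * E.card * Q) ≤ P1 * W * Q := by
    have h1 : (K : ℝ) * ((N : ℝ) ^ 2 * E.card) ≤ P1 * W := by
      calc (K : ℝ) * ((N : ℝ) ^ 2 * E.card) = (K * N) * (N * E.card) := by ring
        _ ≤ X * (((X : ℝ) ^ (-(2 * e)) * E.card) * E.card) :=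
            mul_le_mul hKNr (mul_le_mul_of_nonneg_right hyB hE0) (by positivity) hX0.le
        _ = (X * (X : ℝ) ^ (-(2 * e))) * W := by rw [hW]; ring
        _ ≤ P1 * W := by
            refine mul_le_mul_of_nonneg_right ?_ hWp.le
            have h2 : (X : ℝ) * (X : ℝ) ^ (-(2 * e)) = (X : ℝ) ^ (1 - 2 * e) := by
              rw [sub_eq_add_neg, Real.rpow_add hX0, Real.rpow_one]
            rw [h2, hP1]
            exact Real.rpow_le_rpow_of_exponent_le hX1' (by linarith)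
    calc (K : ℝ) * ((N : ℝ) ^ 2 * E.card * Q) = ((K : ℝ) * ((N : ℝ) ^ 2 * E.card)) * Q := by ring
      _ ≤ P1 * W * Q := mul_le_mul_of_nonneg_right h1 hQ0
  have t2 : (K : ℝ) * (2 * (N * (W * I))) ≤ 2 * (X * P2) * W ^ 2 := by
    have hI' : I ≤ P2 * W := hI
    calc (K : ℝ) * (2 * (N * (W * I))) = 2 * (K * N) * (W * I) := by ring
      _ ≤ 2 * X * (W * (P2 * W)) := by
          refine mul_le_mul (by linarith) (mul_le_mul_of_nonneg_left hI' hWp.le) ?_ (by positivity)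
          refine mul_nonneg hWp.le (mul_nonneg hG0 (Finset.sum_nonneg fun j _ => ?_))
          refine mul_nonneg (by positivity) ?_
          unfold nuS
          exact Finset.sum_nonneg fun r _ => Nat.cast_nonneg _
      _ = 2 * (X * P2) * W ^ 2 := by ring
  have t3 : (K : ℝ) * (2 * (κ / 2 * (∑ r ∈ Icc 1 (2 * K), (nuJ E N r : ℝ)) * Q)) ≤
      Cd * P1 * W * Q := by
    have h1 : (K : ℝ) * κ ≤ X * (X : ℝ) ^ (-(η / 2)) := by
      rw [hκ, ← mul_assoc]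
      exact mul_le_mul_of_nonneg_right hKNr (Real.rpow_nonneg hX0.le _)
    have h2 : X * (X : ℝ) ^ (-(η / 2)) * T = Cd * P1 := by
      rw [hT, hP1]
      have h3 : (X : ℝ) * (X : ℝ) ^ (-(η / 2)) * (X : ℝ) ^ (η / 100) =
          (X : ℝ) ^ (1 - η / 2 + η / 100) := by
        nth_rewrite 1 [← Real.rpow_one (X : ℝ)]
        rw [← Real.rpow_add hX0, ← Real.rpow_add hX0]
        congr 1
      calc (X : ℝ) * (X : ℝ) ^ (-(η / 2)) * (Cd * (X : ℝ) ^ (η / 100))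
          = Cd * ((X : ℝ) * (X : ℝ) ^ (-(η / 2)) * (X : ℝ) ^ (η / 100)) := by ring
        _ = _ := by rw [h3]
    have hS0 : (0 : ℝ) ≤ ∑ r ∈ Icc 1 (2 * K), (nuJ E N r : ℝ) :=
      Finset.sum_nonneg fun r _ => Nat.cast_nonneg _
    calc (K : ℝ) * (2 * (κ / 2 * (∑ r ∈ Icc 1 (2 * K), (nuJ E N r : ℝ)) * Q))
        = ((K : ℝ) * κ) * (∑ r ∈ Icc 1 (2 * K), (nuJ E N r : ℝ)) * Q := by ring
      _ ≤ (X * (X : ℝ) ^ (-(η / 2))) * (T * W) * Q := by gcongr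
      _ = (X * (X : ℝ) ^ (-(η / 2)) * T) * W * Q := by ring
      _ = Cd * P1 * W * Q := by rw [h2]
  have hmain : Q ^ 2 ≤ 20 * L ^ (4 * C + 1) * ((1 + Cd) * P1 * W * Q + 2 * (X * P2) * W ^ 2) := by
    refine hbasic.trans ?_
    have h1 : (K : ℝ) * (L ^ C) ^ 4 * (5 * ((Nat.log 2 (2 * K) : ℝ) + 1) *
        ((N : ℝ) ^ 2 * E.card * Q + 2 * (N * (W * I) +
          κ / 2 * (∑ r ∈ Icc 1 (2 * K), (nuJ E N r : ℝ)) * Q))) =
        (5 * (L ^ C) ^ 4 * ((Nat.log 2 (2 * K) : ℝ) + 1)) * (K * ((N : ℝ) ^ 2 * E.card * Q) +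
          K * (2 * (N * (W * I))) +
          K * (2 * (κ / 2 * (∑ r ∈ Icc 1 (2 * K), (nuJ E N r : ℝ)) * Q))) := by ring
    rw [h1]
    have h2 : 5 * (L ^ C) ^ 4 * ((Nat.log 2 (2 * K) : ℝ) + 1) ≤ 20 * L ^ (4 * C + 1) := by
      calc 5 * (L ^ C) ^ 4 * ((Nat.log 2 (2 * K) : ℝ) + 1) ≤ 5 * (L ^ C) ^ 4 * (4 * L) :=
            mul_le_mul_of_nonneg_left hlog2 (by positivity)
        _ = 20 * L ^ (4 * C + 1) := by
            have h5 : (L ^ C) ^ 4 = L ^ (4 * C) := by rw [← pow_mul, mul_comm]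
            rw [h5, pow_succ]
            ring
    have h3 : K * ((N : ℝ) ^ 2 * E.card * Q) +
          K * (2 * (N * (W * I))) +
          K * (2 * (κ / 2 * (∑ r ∈ Icc 1 (2 * K), (nuJ E N r : ℝ)) * Q)) ≤
          (1 + Cd) * P1 * W * Q + 2 * (X * P2) * W ^ 2 := by
      have h4 : (1 + Cd) * P1 * W * Q = P1 * W * Q + Cd * P1 * W * Q := by ring
      rw [h4]
      linarith
    refine mul_le_mul h2 h3 ?_ (by positivity)
    have hI0 : 0 ≤ I := by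
      refine mul_nonneg hG0 (Finset.sum_nonneg fun j _ => mul_nonneg (by positivity) ?_)
      unfold nuS
      exact Finset.sum_nonneg fun r _ => Nat.cast_nonneg _
    positivity
  -- conclusion
  by_contra hcon
  push Not at hcon
  have hZ0 : 0 < (X : ℝ) ^ (1 - η / 10) * W := mul_pos (Real.rpow_pos_of_pos hX0 _) hWp
  have hQp : 0 < Q := hZ0.trans hcon
  have hlg := hlog X (by omega)
  set D : ℝ := (X : ℝ) ^ (η / 20) with hD
  have hD0 : 0 < D := Real.rpow_pos_of_pos hX0 _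
  -- first term `≤ Q²/3`
  have c1 : 20 * L ^ (4 * C + 1) * ((1 + Cd) * P1 * W * Q) ≤ 1 / 3 * Q ^ 2 := by
    have h1 : 3 * (20 * L ^ (4 * C + 1) * ((1 + Cd) * P1)) ≤ (X : ℝ) ^ (1 - η / 10) := by
      calc 3 * (20 * L ^ (4 * C + 1) * ((1 + Cd) * P1)) =
            (60 * (1 + Cd) * L ^ (4 * C + 1)) * P1 := by ring
        _ ≤ D * P1 := mul_le_mul_of_nonneg_right hlg hP10.le
        _ ≤ (X : ℝ) ^ (1 - η / 10) := by
            rw [hD, hP1, ← Real.rpow_add hX0]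
            exact Real.rpow_le_rpow_of_exponent_le hX1' (by linarith)
    have h2 : 3 * (20 * L ^ (4 * C + 1) * ((1 + Cd) * P1)) * W ≤ Q :=
      (mul_le_mul_of_nonneg_right h1 hWp.le).trans hcon.le
    have h3 := mul_le_mul_of_nonneg_right h2 hQ0
    nlinarith
  have c2 : 20 * L ^ (4 * C + 1) * (2 * (X * P2) * W ^ 2) < 2 / 3 * Q ^ 2 := by
    have h1 : 20 * L ^ (4 * C + 1) * (2 * (X * P2)) ≤ 2 / 3 * ((X : ℝ) ^ (1 - η / 10)) ^ 2 := by
      have h2 : 60 * L ^ (4 * C + 1) ≤ D := by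
        refine le_trans ?_ hlg
        have : 0 < L ^ (4 * C + 1) := by positivity
        nlinarith
      have h3 : D * (X * P2) ≤ ((X : ℝ) ^ (1 - η / 10)) ^ 2 := by
        have h4 : (X : ℝ) * P2 = (X : ℝ) ^ (2 - η / 4) := by
          rw [hP2]
          nth_rewrite 1 [← Real.rpow_one (X : ℝ)]
          rw [← Real.rpow_add hX0]
          congr 1
          ring
        rw [h4, hD, ← Real.rpow_add hX0, ← Real.rpow_natCast, ← Real.rpow_mul hX0.le]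
        exact Real.rpow_le_rpow_of_exponent_le hX1' (by push_cast; linarith)
      have h5 : 60 * L ^ (4 * C + 1) * (X * P2) ≤ D * (X * P2) :=
        mul_le_mul_of_nonneg_right h2 (by positivity)
      nlinarith
    have h6 : ((X : ℝ) ^ (1 - η / 10)) ^ 2 * W ^ 2 < Q ^ 2 := by
      have h7 : ((X : ℝ) ^ (1 - η / 10) * W) ^ 2 < Q ^ 2 :=
        pow_lt_pow_left₀ hcon hZ0.le (by norm_num)
      rwa [mul_pow] at h7
    calc 20 * L ^ (4 * C + 1) * (2 * (X * P2) * W ^ 2)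
        = (20 * L ^ (4 * C + 1) * (2 * (X * P2))) * W ^ 2 := by ring
      _ ≤ (2 / 3 * ((X : ℝ) ^ (1 - η / 10)) ^ 2) * W ^ 2 :=
          mul_le_mul_of_nonneg_right h1 (by positivity)
      _ = 2 / 3 * (((X : ℝ) ^ (1 - η / 10)) ^ 2 * W ^ 2) := by ring
      _ < 2 / 3 * Q ^ 2 := by
          exact mul_lt_mul_of_pos_left h6 (by norm_num)
  have h9 : 20 * L ^ (4 * C + 1) * ((1 + Cd) * P1 * W * Q + 2 * (X * P2) * W ^ 2) =
      20 * L ^ (4 * C + 1) * ((1 + Cd) * P1 * W * Q) +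
      20 * L ^ (4 * C + 1) * (2 * (X * P2) * W ^ 2) := by ring
  rw [h9] at hmain
  linarith

end Pool.MP_dd84fd_nt.JX
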