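import Pool.Agent.Lib.MP_dd84fd_nt.JX.SBl
import Pool.Agent.Lib.MP_dd84fd_nt.HX.StRed

/-!
# JX-SPc (0.9 h): one type I function, one block, pairing

`ty1_sum`: copy `IX.st_ti_i` (`IX/StTI.lean`; `HX.st_ti_swap`, `HX.abel_bv`) with `TIJ1`, `ZJ`. `ty2_sum`: copy `IX.st_tii_i` and its private `sti_block`, `st_dy`, `st_dy_eq` (`IX/StTII.lean`) with `TIJ2 X M` and `ty2_pairs`; `hM : 1 ≤ M`; `yB ≤ √X` as `th - 3e ≤ 1/2`.
`pair_j`: copy `IX.pair_i` (`IX/StFin.lean`). `phj_comm`: `ring`. `phj_sum`: `tr` is additive.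
-/

set_option autoImplicit false

namespace Pool.MP_dd84fd_nt.JX

open Finset Pool.MP_67663b_nt.Odd Pool.MP_dd84fd_nt.En Pool.MP_dd84fd_nt.E2 Pool.MP_dd84fd_nt.LS
open Pool.MP_dd84fd_nt.L2G (nrm)
open Pool.MP_dd84fd_nt.GX Pool.MP_dd84fd_nt.HX
open Pool.MP_dd84fd_nt.IX (dl yB wSI SSI y3_dl y2_dl)

theorem ty1_sum (th e : ℝ) (X : ℕ) (hX : 1 ≤ X) (F : ℕ → ℂ) (B1 : ℝ) (hB : TIJ1 th e X F B1)
    (γ α : ℕ → ℝ) (Q : ℝ) (h : Ok1 Q th e X γ α) :
    ‖∑ n ∈ Icc 1 X, ((ty1 γ α n : ℝ) : ℂ) * F n‖ ≤ 2 * Q ^ 2 * B1 := by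
  obtain ⟨⟨hγ, hv⟩, hα, hs⟩ := h
  have hQ0 : 0 ≤ Q := (abs_nonneg _).trans (hα 0)
  have hZ0 : 0 ≤ ZJ th e X := by
    unfold ZJ
    positivity
  have hB0 : 0 ≤ B1 := by
    have := hB 0 (fun _ => 0) (fun _ => 0) (by rw [Nat.cast_zero]; exact hZ0) (by simp) (by simp)
    simpa using this
  set R : ℕ := ⌊ZJ th e X⌋₊ with hR
  have hR1 : (R : ℝ) ≤ ZJ th e X := Nat.floor_le hZ0
  have hS : ∀ t ∈ Icc 1 X, ‖∑ n ∈ Icc 1 t, ((∑ l ∈ n.divisors, α l : ℝ) : ℂ) * F n‖ ≤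
      Q * B1 := by
    intro t ht
    rw [mem_Icc] at ht
    rw [st_ti_swap t R α (fun l hl => hs l ((Nat.floor_lt hZ0).1 hl)) F]
    rcases hQ0.eq_or_lt with hQ | hQ
    · have h0 : ∀ l, α l = 0 := fun l => by
        have h1 := hα l
        rw [← hQ] at h1
        exact abs_nonpos_iff.1 h1
      simp [h0, ← hQ]
    · have h1 := hB R (fun l => ((α l / Q : ℝ) : ℂ)) (fun l => t / l) hR1 (fun l => by
        rw [Complex.norm_real, Real.norm_eq_abs, abs_div, abs_of_pos hQ]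
        exact (div_le_one hQ).2 (hα l)) (fun l _ => (Nat.mul_div_le t l).trans ht.2)
      have h2 : ∑ l ∈ Icc 1 R, (α l : ℂ) * ∑ k ∈ Icc 1 (t / l), F (l * k) =
          ((Q : ℝ) : ℂ) * ∑ l ∈ Icc 1 R, ((α l / Q : ℝ) : ℂ) *
            ∑ k ∈ Icc 1 (t / l), F (l * k) := by
        rw [Finset.mul_sum]
        refine Finset.sum_congr rfl fun l _ => ?_
        rw [← mul_assoc, ← Complex.ofReal_mul, mul_div_cancel₀ _ hQ.ne']
      rw [h2, norm_mul, Complex.norm_real, Real.norm_of_nonneg hQ0]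
      exact mul_le_mul_of_nonneg_left h1 hQ0
  have h3 := abel_bv X hX (fun n => ((∑ l ∈ n.divisors, α l : ℝ) : ℂ) * F n) γ (Q * B1) Q Q
    (mul_nonneg hQ0 hB0) hS (fun n _ => hγ n) hv
  have h4 : ∑ n ∈ Icc 1 X, ((ty1 γ α n : ℝ) : ℂ) * F n =
      ∑ n ∈ Icc 1 X, ((γ n : ℝ) : ℂ) * (((∑ l ∈ n.divisors, α l : ℝ) : ℂ) * F n) := by
    refine Finset.sum_congr rfl fun n _ => ?_
    unfold ty1
    rw [Complex.ofReal_mul, mul_assoc]
  rw [h4]
  refine h3.trans (le_of_eq ?_)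
  ring

/-- dyadic interval of a number `≥ 2` -/
private theorem st_dy {m : ℕ} (hm : 2 ≤ m) :
    2 ^ (Nat.log 2 (m - 1)) < m ∧ m ≤ 2 * 2 ^ (Nat.log 2 (m - 1)) := by
  have h1 : 2 ^ (Nat.log 2 (m - 1)) ≤ m - 1 := Nat.pow_log_le_self 2 (by omega)
  have h2 : m - 1 < 2 ^ (Nat.log 2 (m - 1) + 1) := Nat.lt_pow_succ_log_self (by norm_num) _
  rw [pow_succ] at h2
  omega

private theorem st_dy_eq {m i : ℕ} (h1 : 2 ^ i < m) (h2 : m ≤ 2 * 2 ^ i) :
    Nat.log 2 (m - 1) = i := by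
  apply Nat.log_eq_of_pow_le_of_lt_pow
  · omega
  · rw [pow_succ]
    omega

/-- a block -/
private theorem stj_block (X : ℕ) (F : ℕ → ℂ) (B2 : ℝ) (M K : ℕ) (hB : TIJ2 X M F B2)
    (hB2 : 0 ≤ B2) (a c : ℕ → ℝ) (Q : ℝ) (hQ : ∀ n, |a n| ≤ Q ∧ |c n| ≤ Q) (hKM : K * M ≤ X)
    (ha : ∀ m, a m ≠ 0 → m * K ≤ X) (i : ℕ) :
    ‖∑ k ∈ (Icc 2 K).filter (fun k => Nat.log 2 (k - 1) = i),
      ∑ m ∈ Ioc M (2 * M), ((a m : ℝ) : ℂ) * ((c k : ℝ) : ℂ) * F (m * k)‖ ≤ Q ^ 2 * B2 := by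
  have hQ0 : 0 ≤ Q := (abs_nonneg _).trans (hQ 0).1
  rcases Finset.eq_empty_or_nonempty ((Icc 2 K).filter (fun k => Nat.log 2 (k - 1) = i)) with
    hemp | ⟨k0, hk0⟩
  · rw [hemp, Finset.sum_empty, norm_zero]
    positivity
  rcases hQ0.eq_or_lt with hQz | hQp
  · have h1 : ∀ m, a m = 0 := by
      intro m
      have := (hQ m).1
      rw [← hQz] at this
      exact abs_nonpos_iff.mp this
    rw [Finset.sum_eq_zero, norm_zero]
    · positivity
    · intro k _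
      apply Finset.sum_eq_zero
      intro m _
      rw [h1 m]
      simp
  rw [Finset.mem_filter, Finset.mem_Icc] at hk0
  obtain ⟨⟨k1, k2⟩, k3⟩ := hk0
  obtain ⟨g1, g2⟩ := st_dy k1
  rw [k3] at g1 g2
  have hiM : 2 ^ i * M ≤ X := (Nat.mul_le_mul_right M (g1.le.trans k2)).trans hKM
  set c' : ℕ → ℝ := fun k => if k ≤ K then c k else 0 with hc'
  have hc'Q : ∀ n, |c' n| ≤ Q := by
    intro n
    rw [hc']
    simp only
    by_cases h : n ≤ K
    · rw [if_pos h]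
      exact (hQ n).2
    · rw [if_neg h, abs_zero]
      exact hQ0
  have key := hB (2 ^ i) X (fun n => ((c' n / Q : ℝ) : ℂ)) (fun n => ((a n / Q : ℝ) : ℂ)) le_rfl
    (fun n => by
      rw [Complex.norm_real, Real.norm_eq_abs, abs_div, abs_of_pos hQp, div_le_one hQp]
      exact hc'Q n)
    (fun n => by
      rw [Complex.norm_real, Real.norm_eq_abs, abs_div, abs_of_pos hQp, div_le_one hQp]
      exact (hQ n).1)
    Nat.one_le_two_pow hiM
  have heq : ∑ k ∈ (Icc 2 K).filter (fun k => Nat.log 2 (k - 1) = i),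
      ∑ m ∈ Ioc M (2 * M), ((a m : ℝ) : ℂ) * ((c k : ℝ) : ℂ) * F (m * k) =
      ((Q ^ 2 : ℝ) : ℂ) * ∑ l ∈ Ioc (2 ^ i) (2 * 2 ^ i),
        ∑ s ∈ (Ioc M (2 * M)).filter (fun s => l * s ≤ X),
          ((c' l / Q : ℝ) : ℂ) * ((a s / Q : ℝ) : ℂ) * F (l * s) := by
    have hset : (Icc 2 K).filter (fun k => Nat.log 2 (k - 1) = i) =
        (Ioc (2 ^ i) (2 * 2 ^ i)).filter (fun k => k ≤ K) := by
      ext k
      rw [Finset.mem_filter, Finset.mem_filter, Finset.mem_Icc, Finset.mem_Ioc]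
      constructor
      · rintro ⟨⟨h1, h2⟩, h3⟩
        obtain ⟨h4, h5⟩ := st_dy h1
        rw [h3] at h4 h5
        exact ⟨⟨h4, h5⟩, h2⟩
      · rintro ⟨⟨h1, h2⟩, h3⟩
        have h4 : 1 ≤ 2 ^ i := Nat.one_le_two_pow
        exact ⟨⟨by omega, h3⟩, st_dy_eq h1 h2⟩
    rw [hset, Finset.sum_filter, Finset.mul_sum]
    refine Finset.sum_congr rfl (fun l _ => ?_)
    by_cases hl : l ≤ K
    · rw [if_pos hl, Finset.mul_sum, Finset.sum_filter]
      refine Finset.sum_congr rfl (fun m _ => ?_)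
      have h1 : c' l = c l := by
        rw [hc']
        simp only
        rw [if_pos hl]
      rw [h1]
      by_cases ham : a m = 0
      · rw [ham]
        simp
      · have h2 : l * m ≤ X := by
          calc l * m ≤ K * m := Nat.mul_le_mul_right m hl
            _ = m * K := mul_comm _ _
            _ ≤ X := ha m ham
        rw [if_pos h2, mul_comm l m]
        have e2 : ((Q ^ 2 : ℝ) : ℂ) * (((c l / Q : ℝ) : ℂ) * ((a m / Q : ℝ) : ℂ)) =
            ((a m : ℝ) : ℂ) * ((c l : ℝ) : ℂ) := by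
          rw [← Complex.ofReal_mul, ← Complex.ofReal_mul, ← Complex.ofReal_mul]
          congr 1
          field_simp
        rw [← e2]
        ring
    · rw [if_neg hl]
      have h1 : c' l = 0 := by
        rw [hc']
        simp only
        rw [if_neg hl]
      rw [h1]
      simp
  rw [heq, norm_mul, Complex.norm_real, Real.norm_eq_abs, abs_of_pos (by positivity)]
  exact mul_le_mul_of_nonneg_left key (by positivity)

theorem ty2_sum (th e τ : ℝ) (hA : Adm th e τ) (X : ℕ) (hX : 3 ≤ X) (F : ℕ → ℂ) (B2 B4 : ℝ)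
    (h4 : ∀ n, ‖F n‖ ≤ B4) (M K : ℕ) (hM : 1 ≤ M) (hB : TIJ2 X M F B2) (a c : ℕ → ℝ) (Q : ℝ)
    (h : Ok2 Q th e τ X M K a c) :
    ‖∑ n ∈ Icc 1 X, ((ty2 K a c n : ℝ) : ℂ) * F n‖ ≤
      Q ^ 2 * (2 * Real.log X + 2) * (B2 + Real.sqrt X * B4) := by
  obtain ⟨hA1, hA2, hA3, hA4, hA5⟩ := id hA
  obtain ⟨hQ, ⟨hM1, hM2, hKM⟩, ha⟩ := h
  set L := Real.log X with hL
  have hX1 : (1 : ℝ) ≤ X := by exact_mod_cast (by omega : 1 ≤ X)
  have hXp : (0 : ℝ) < X := by linarith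
  have hL0 : 0 ≤ L := Real.log_nonneg hX1
  have hB4 : 0 ≤ B4 := (norm_nonneg _).trans (h4 0)
  have hyB : yB th e X ≤ Real.sqrt X := by
    unfold yB
    rw [Real.sqrt_eq_rpow]
    exact Real.rpow_le_rpow_of_exponent_le hX1 (by linarith)
  have hsX : Real.sqrt X ≤ X := by
    rw [Real.sqrt_le_left hXp.le]
    nlinarith
  have hM0 : 1 ≤ M := hM
  have hMX : M ≤ X := by
    have : (M : ℝ) ≤ X := hM2.trans (hyB.trans hsX)
    exact_mod_cast this
  have hB2 : 0 ≤ B2 := by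
    have h1 := hB 1 0 (fun _ => 0) (fun _ => 0) (Nat.zero_le _) (by simp) (by simp)
      le_rfl (by omega)
    exact (norm_nonneg _).trans h1
  have hKX : K ≤ X := (Nat.le_mul_of_pos_right _ hM0).trans hKM
  have hQ0 : 0 ≤ Q := (abs_nonneg _).trans (hQ 0).1
  rw [ty2_pairs X M K a c F (fun m hm => ⟨(ha m hm).1, (ha m hm).2.1, (ha m hm).2.2.2⟩)]
  have hfin : 0 ≤ Q ^ 2 * (2 * L + 2) * (B2 + Real.sqrt X * B4) := by positivity
  rcases Nat.eq_zero_or_pos K with hK | hK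
  · rw [hK]
    simpa using hfin
  have hset : Icc 1 K = insert 1 (Icc 2 K) := by
    ext k
    rw [Finset.mem_insert, Finset.mem_Icc, Finset.mem_Icc]
    omega
  rw [hset, Finset.sum_insert (by simp)]
  have hfirst : ‖∑ m ∈ Ioc M (2 * M), ((a m : ℝ) : ℂ) * ((c 1 : ℝ) : ℂ) * F (m * 1)‖ ≤
      Q ^ 2 * (Real.sqrt X * B4) := by
    have e1 : ∑ m ∈ Ioc M (2 * M), ((a m : ℝ) : ℂ) * ((c 1 : ℝ) : ℂ) * F (m * 1) =
        ∑ m ∈ Icc 1 ⌊yB th e X⌋₊ ∩ Ioc M (2 * M),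
          ((a m : ℝ) : ℂ) * ((c 1 : ℝ) : ℂ) * F (m * 1) := by
      symm
      apply Finset.sum_subset Finset.inter_subset_right
      intro m h1 h2
      have h3 : a m = 0 := by
        by_contra hc
        apply h2
        rw [Finset.mem_inter]
        refine ⟨?_, h1⟩
        rw [Finset.mem_Ioc] at h1
        rw [Finset.mem_Icc]
        exact ⟨by omega, Nat.le_floor (ha m hc).2.2.1⟩
      rw [h3]
      simp
    rw [e1]
    calc ‖∑ m ∈ Icc 1 ⌊yB th e X⌋₊ ∩ Ioc M (2 * M),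
          ((a m : ℝ) : ℂ) * ((c 1 : ℝ) : ℂ) * F (m * 1)‖
        ≤ ∑ m ∈ Icc 1 ⌊yB th e X⌋₊ ∩ Ioc M (2 * M), (Q ^ 2 * B4) := by
          refine (norm_sum_le _ _).trans (Finset.sum_le_sum (fun m _ => ?_))
          rw [norm_mul, norm_mul, Complex.norm_real, Complex.norm_real, Real.norm_eq_abs,
            Real.norm_eq_abs]
          have f1 := (hQ m).1
          have f2 := (hQ 1).2
          have f3 := h4 (m * 1)
          have f4 : |a m| * |c 1| ≤ Q * Q := mul_le_mul f1 f2 (abs_nonneg _) hQ0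
          calc |a m| * |c 1| * ‖F (m * 1)‖ ≤ (Q * Q) * B4 :=
                mul_le_mul f4 f3 (norm_nonneg _) (by positivity)
            _ = Q ^ 2 * B4 := by ring
      _ = ((Icc 1 ⌊yB th e X⌋₊ ∩ Ioc M (2 * M)).card : ℝ) * (Q ^ 2 * B4) := by
          rw [Finset.sum_const, nsmul_eq_mul]
      _ ≤ Real.sqrt X * (Q ^ 2 * B4) := by
          have e2 : (Icc 1 ⌊yB th e X⌋₊ ∩ Ioc M (2 * M)).card ≤ ⌊yB th e X⌋₊ := by
            calc (Icc 1 ⌊yB th e X⌋₊ ∩ Ioc M (2 * M)).card ≤ (Icc 1 ⌊yB th e X⌋₊).card :=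
                  Finset.card_le_card Finset.inter_subset_left
              _ = ⌊yB th e X⌋₊ := by rw [Nat.card_Icc]; omega
          have e3 : ((Icc 1 ⌊yB th e X⌋₊ ∩ Ioc M (2 * M)).card : ℝ) ≤ (⌊yB th e X⌋₊ : ℝ) := by
            exact_mod_cast e2
          have e4 : (⌊yB th e X⌋₊ : ℝ) ≤ yB th e X :=
            Nat.floor_le (Real.rpow_nonneg hXp.le _)
          exact mul_le_mul_of_nonneg_right (e3.trans (e4.trans hyB)) (by positivity)
      _ = Q ^ 2 * (Real.sqrt X * B4) := by ring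
  have hsecond : ‖∑ k ∈ Icc 2 K, ∑ m ∈ Ioc M (2 * M),
      ((a m : ℝ) : ℂ) * ((c k : ℝ) : ℂ) * F (m * k)‖ ≤ (2 * L + 1) * (Q ^ 2 * B2) := by
    have hmaps : ∀ k ∈ Icc 2 K, Nat.log 2 (k - 1) ∈ range (Nat.log 2 X + 1) := by
      intro k hk
      rw [Finset.mem_Icc] at hk
      rw [Finset.mem_range]
      have := Nat.log_mono_right (b := 2) (show k - 1 ≤ X by omega)
      omega
    rw [← Finset.sum_fiberwise_of_maps_to hmaps]
    refine (norm_sum_le _ _).trans ?_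
    refine (Finset.sum_le_sum (fun i _ => stj_block X F B2 M K hB hB2 a c Q hQ hKM
      (fun m hm => (ha m hm).2.2.2) i)).trans ?_
    rw [Finset.sum_const, Finset.card_range, nsmul_eq_mul]
    have h2 : ((Nat.log 2 X : ℕ) : ℝ) ≤ 2 * L := by
      have e1 : 2 ^ (Nat.log 2 X) ≤ X := Nat.pow_log_le_self 2 (by omega)
      have e2 : ((2 : ℝ) ^ (Nat.log 2 X)) ≤ X := by exact_mod_cast e1
      have e3 := Real.log_le_log (by positivity) e2
      rw [Real.log_pow] at e3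
      have e4 : (1 / 2 : ℝ) ≤ Real.log 2 := by
        have := Real.log_two_gt_d9
        linarith
      have e5 : (0 : ℝ) ≤ ((Nat.log 2 X : ℕ) : ℝ) := Nat.cast_nonneg _
      nlinarith
    have h3 : ((Nat.log 2 X + 1 : ℕ) : ℝ) ≤ 2 * L + 1 := by
      push_cast
      linarith
    exact mul_le_mul_of_nonneg_right h3 (by positivity)
  refine (norm_add_le _ _).trans ?_
  refine (add_le_add hfirst hsecond).trans ?_
  have hs : 0 ≤ Real.sqrt X := Real.sqrt_nonneg _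
  have k1 : 0 ≤ Q ^ 2 * B2 := by positivity
  have k2 : 0 ≤ Q ^ 2 * (Real.sqrt X * B4) := by positivity
  have k3 : 0 ≤ L * (Q ^ 2 * (Real.sqrt X * B4)) := by positivity
  have k4 : Q ^ 2 * (2 * L + 2) * (B2 + Real.sqrt X * B4) =
      Q ^ 2 * (Real.sqrt X * B4) + (2 * L + 1) * (Q ^ 2 * B2) + Q ^ 2 * B2 +
        (2 * (L * (Q ^ 2 * (Real.sqrt X * B4))) + Q ^ 2 * (Real.sqrt X * B4)) := by
    ring
  rw [k4]
  linarith

theorem pair_j (X G : ℕ) [NeZero G] (u v : ℕ → ℝ) (ω : ZMod G → ℂ) (E : Finset ℕ)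
    (ph : ℕ → ℂ) :
    ∑ n ∈ E, ph n * PhJ G X u v ω n =
      ∑ n ∈ Icc 1 X, ((u n : ℝ) : ℂ) * FF G (xx G (tr G X v) ω E ph) n := by
  have hL : ∑ n ∈ E, ph n * PhJ G X u v ω n =
      (1 / (G : ℂ)) * ∑ j : ZMod G, xx G (tr G X v) ω E ph j * tr G X u j := by
    have h1 : ∀ n ∈ E, ph n * PhJ G X u v ω n = (1 / (G : ℂ)) * ∑ j : ZMod G,
        (ω j * tr G X v j * tr G X u j) * (ph n * ZMod.stdAddChar (-((n : ZMod G) * j))) := by
      intro n _
      unfold PhJ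
      rw [mul_left_comm, Finset.mul_sum]
      congr 1
      refine Finset.sum_congr rfl fun j _ => ?_
      ring
    rw [Finset.sum_congr rfl h1, ← Finset.mul_sum, Finset.sum_comm]
    congr 1
    refine Finset.sum_congr rfl fun j _ => ?_
    rw [← Finset.mul_sum]
    unfold xx KE
    ring
  have hR : ∑ n ∈ Icc 1 X, ((u n : ℝ) : ℂ) * FF G (xx G (tr G X v) ω E ph) n =
      (1 / (G : ℂ)) * ∑ j : ZMod G, xx G (tr G X v) ω E ph j * tr G X u j := by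
    have h1 : ∀ n ∈ Icc 1 X, ((u n : ℝ) : ℂ) * FF G (xx G (tr G X v) ω E ph) n =
        (1 / (G : ℂ)) * ∑ j : ZMod G, xx G (tr G X v) ω E ph j *
          (((u n : ℝ) : ℂ) * ZMod.stdAddChar ((n : ZMod G) * j)) := by
      intro n _
      unfold FF
      rw [mul_left_comm, Finset.mul_sum]
      congr 1
      refine Finset.sum_congr rfl fun j _ => ?_
      ring
    rw [Finset.sum_congr rfl h1, ← Finset.mul_sum, Finset.sum_comm]
    congr 1
    refine Finset.sum_congr rfl fun j _ => ?_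
    rw [← Finset.mul_sum]
    rfl
  rw [hL, hR]

theorem phj_comm (X G : ℕ) [NeZero G] (u v : ℕ → ℝ) (ω : ZMod G → ℂ) (n : ℕ) :
    PhJ G X u v ω n = PhJ G X v u ω n := by
  unfold PhJ
  congr 1
  refine Finset.sum_congr rfl fun j _ => ?_
  ring

theorem phj_sum (X G : ℕ) [NeZero G] {ι : Type} (s : Finset ι) (u : ι → ℕ → ℝ) (v w : ℕ → ℝ)
    (h : ∀ n ∈ Icc 1 X, w n = ∑ i ∈ s, u i n) (ω : ZMod G → ℂ) (n : ℕ) :
    PhJ G X w v ω n = ∑ i ∈ s, PhJ G X (u i) v ω n := by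
  have ht : ∀ j : ZMod G, tr G X w j = ∑ i ∈ s, tr G X (u i) j := by
    intro j
    unfold tr
    rw [Finset.sum_comm]
    refine Finset.sum_congr rfl fun m hm => ?_
    rw [h m hm, Complex.ofReal_sum, Finset.sum_mul]
  unfold PhJ
  rw [← Finset.mul_sum, Finset.sum_comm]
  congr 1
  refine Finset.sum_congr rfl fun j _ => ?_
  rw [ht j, Finset.mul_sum, Finset.sum_mul, Finset.sum_mul]

end Pool.MP_dd84fd_nt.JX
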