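import Pool.Agent.Lib.MP_dd84fd_nt.JX.JF1

/-!
# JX-JF2: from GEN for the primes to Theorem J

One scale: `AdmP`, `GenPJ` (GEN for the family `wP`, `gP`) and the main term.  All scales: dyadic
`Y = X / 2^i` with `X ≤ Y^3`; the remaining `n` are `≤ X^(1/3)`.
-/

set_option autoImplicit false

namespace Pool.MP_dd84fd_nt.JX

open Finset Pool.MP_67663b_nt.Odd Pool.MP_dd84fd_nt.En Pool.MP_dd84fd_nt.E2 Pool.MP_dd84fd_nt.LS
open Pool.MP_dd84fd_nt.L2G (nrm)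
open Pool.MP_dd84fd_nt.GX Pool.MP_dd84fd_nt.HX Pool.MP_dd84fd_nt.IX
open Pool.MP_dd84fd_nt.PL (rr)

/-- parameters of Theorem J -/
def AdmP (th e : ℝ) : Prop :=
  1 / 3 < th ∧ th ≤ 1 / 2 ∧ 0 < e ∧ 100 * e ≤ th - 1 / 3 ∧ 10000 * e ≤ 1

/-- GEN for the primes -/
def GenPJ : Prop := ∀ A : ℕ, ∃ C : ℕ, ∀ th e : ℝ, AdmP th e → ∀ K : ℕ,
  ∃ D0 : ℕ, ∀ D' : ℕ, D0 ≤ D' → ∃ X0 : ℕ, ∀ X : ℕ, X0 ≤ X → ∃ D Ex : Finset ℕ,
    (D.card : ℝ) ≤ (Real.log X) ^ C ∧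
    (∀ d ∈ D, (Real.log X) ^ K ≤ (d : ℝ) ∧ (d : ℝ) ≤ (X : ℝ) ^ (1 - th + 3 * e)) ∧
    (Ex.card : ℝ) ≤ (X : ℝ) ^ (th - e / 4) ∧
    ∀ n : ℕ, X < 2 * n → n ≤ X → Even n → n ∉ Ex → (∀ d ∈ D, ¬ d ∣ n) →
      |cvv (wP X) (wP X) n - cvv (fI gP X (wX D' X)) (fI gP X (wX D' X)) n| ≤
        X / (Real.log X) ^ A

theorem genPJ (HG : GenJ) (HP : DecP) : GenPJ := by
  intro A
  obtain ⟨B, hB⟩ := HG A
  obtain ⟨C2, hC2⟩ := HP B
  obtain ⟨C, hC⟩ := hB 2 1 C2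
  refine ⟨C, fun th e he K => ?_⟩
  obtain ⟨h1, h2, h3, h4, h5⟩ := he
  have hA : Adm th e (1 / 10) := ⟨by linarith, h2, h3, le_rfl, by linarith⟩
  exact hC th e (1 / 10) hA wP gP w1P (hC2 th e (1 / 10) hA h4) majP K

open Classical in
/-- one scale -/
theorem scaleJ (H : GenPJ) (A : ℕ) : ∃ C : ℕ, ∀ th e : ℝ, AdmP th e → ∀ K : ℕ, ∃ X0 : ℕ,
    ∀ X : ℕ, X0 ≤ X → ∃ D : Finset ℕ, (D.card : ℝ) ≤ (Real.log X) ^ C ∧
      (∀ d ∈ D, (Real.log X) ^ K ≤ (d : ℝ) ∧ (d : ℝ) ≤ (X : ℝ) ^ (1 - th + 3 * e)) ∧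
      (((Icc 1 X).filter (fun n => X < 2 * n ∧ Even n ∧ (∀ d ∈ D, ¬ d ∣ n) ∧
        Exc A n)).card : ℝ) ≤ (X : ℝ) ^ (th - e / 4) := by
  obtain ⟨C, hC⟩ := H (A + 1)
  refine ⟨C, fun th e he K => ?_⟩
  obtain ⟨D0, hD0⟩ := hC th e he K
  obtain ⟨X1, hX1⟩ := hD0 (max D0 (A + 1 + 5)) (le_max_left _ _)
  obtain ⟨X2, hX2⟩ := mainP (A + 1) (max D0 (A + 1 + 5)) (le_max_right _ _)
  obtain ⟨X3, hX3⟩ := MP_log_large 3
  refine ⟨max X1 (max X2 (max X3 1)), fun X hX => ?_⟩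
  simp only [max_le_iff] at hX
  obtain ⟨hXa, hXb, hXc, hXd⟩ := hX
  obtain ⟨D, Ex, h1, h2, h3, h4⟩ := hX1 X hXa
  have hm := hX2 X hXb
  have hL := hX3 X hXc
  have hXR : (1 : ℝ) ≤ X := by exact_mod_cast hXd
  refine ⟨D, h1, h2, le_trans ?_ h3⟩
  have h5 : (Icc 1 X).filter (fun n => X < 2 * n ∧ Even n ∧ (∀ d ∈ D, ¬ d ∣ n) ∧ Exc A n) ⊆
      Ex := by
    intro n hn
    rw [mem_filter, mem_Icc] at hn
    obtain ⟨⟨n1, n2⟩, n3, n4, n5, n6⟩ := hn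
    by_contra hEx
    have e1 := h4 n n3 n2 n4 hEx n5
    have e2 := hm n n4 (by omega) n2
    have hnR : (X : ℝ) < 2 * n := by exact_mod_cast n3
    have hnX : (n : ℝ) ≤ X := by exact_mod_cast n2
    have hn2 : 2 ≤ n := by
      obtain ⟨k, hk⟩ := n4
      omega
    have hn2R : (2 : ℝ) ≤ n := by exact_mod_cast hn2
    have hlogn : 0 < Real.log n := Real.log_pos (by linarith)
    have hlogle : Real.log n ≤ Real.log X := Real.log_le_log (by linarith) hnX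
    have hp0 : 0 < (Real.log n) ^ A := by positivity
    have hp1 : (Real.log n) ^ A ≤ (Real.log X) ^ A := pow_le_pow_left₀ hlogn.le hlogle A
    have hp2 : 0 < (Real.log X) ^ A := by linarith
    have e3 : (X : ℝ) / (Real.log X) ^ (A + 1) + X / (2 * (Real.log X) ^ (A + 1)) ≤
        (X / 2) / (Real.log X) ^ A := by
      have e4 : (X : ℝ) / (Real.log X) ^ (A + 1) + X / (2 * (Real.log X) ^ (A + 1)) =
          (X / 2) / (Real.log X) ^ A * (3 / Real.log X) := by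
        rw [pow_succ]
        field_simp
        ring
      rw [e4]
      have e5 : 3 / Real.log X ≤ 1 := by
        rw [div_le_one (by linarith)]
        exact hL
      exact mul_le_of_le_one_right (by positivity) e5
    have e4 : (X / 2 : ℝ) / (Real.log X) ^ A ≤ n / (Real.log n) ^ A := by
      rw [div_le_div_iff₀ hp2 hp0]
      have : (X : ℝ) / 2 ≤ n := by linarith
      exact mul_le_mul this hp1 hp0.le (by linarith)
    unfold Exc at n6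
    linarith
  exact_mod_cast card_le_card h5

open Classical in
/-- one scale, moduli `≤ (X/2)^(1-θ)` -/
theorem thinJ (H : GenPJ) (A : ℕ) : ∃ C : ℕ, ∀ θ ε : ℝ, 1 / 3 ≤ θ → 0 < ε → ∀ K : ℕ,
    ∃ X0 : ℕ, ∀ X : ℕ, X0 ≤ X → ∃ D : Finset ℕ,
      (D.card : ℝ) ≤ (Real.log X) ^ C ∧
      (∀ d ∈ D, (Real.log X) ^ K ≤ (d : ℝ) ∧ (d : ℝ) ≤ ((X : ℝ) / 2) ^ (1 - θ)) ∧
      (((Icc 1 X).filter (fun n => X < 2 * n ∧ Even n ∧ (∀ d ∈ D, ¬ d ∣ n) ∧
        Exc A n)).card : ℝ) ≤ (X : ℝ) ^ (θ + ε) := by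
  obtain ⟨C, hC⟩ := scaleJ H A
  refine ⟨C, fun θ ε h1 hε K => ?_⟩
  obtain ⟨t, ht⟩ : ∃ t : ℝ, t = min (θ + ε / 2) (1 / 2) := ⟨_, rfl⟩
  have ht1 : t ≤ θ + ε / 2 := by rw [ht]; exact min_le_left _ _
  have ht2 : t ≤ 1 / 2 := by rw [ht]; exact min_le_right _ _
  have ht3 : 1 / 3 < t := by rw [ht]; exact lt_min (by linarith) (by norm_num)
  obtain ⟨e, he⟩ : ∃ e : ℝ, e = (t - 1 / 3) / 10000 := ⟨_, rfl⟩
  have he0 : 0 < e := by rw [he]; linarith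
  obtain ⟨X1, hX1⟩ := hC t e ⟨ht3, ht2, he0, by rw [he]; linarith, by rw [he]; linarith⟩ K
  obtain ⟨X2, hX2⟩ := MP_log_pow 3 C (ε := ε / 2) (by positivity)
  obtain ⟨X3, hX3⟩ := MP_log_large 1
  refine ⟨max X1 (max X2 (max X3 1)), fun X hX => ?_⟩
  simp only [max_le_iff] at hX
  obtain ⟨hXa, hXb, hXc, hXd⟩ := hX
  obtain ⟨D, g1, g2, g3⟩ := hX1 X hXa
  have hC3 := hX2 X hXb
  have hL := hX3 X hXc
  have hXR : (1 : ℝ) ≤ X := by exact_mod_cast hXd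
  have hX0 : (0 : ℝ) < X := by linarith
  obtain ⟨D1, hD1⟩ : ∃ D1 : Finset ℕ, D1 = D.filter
    (fun d : ℕ => (d : ℝ) ≤ ((X : ℝ) / 2) ^ (1 - θ)) := ⟨_, rfl⟩
  obtain ⟨D2, hD2⟩ : ∃ D2 : Finset ℕ, D2 = D.filter
    (fun d : ℕ => ¬ (d : ℝ) ≤ ((X : ℝ) / 2) ^ (1 - θ)) := ⟨_, rfl⟩
  have hc1 : (D1.card : ℝ) ≤ D.card := by
    rw [hD1]
    exact_mod_cast card_filter_le _ _
  have hc2 : (D2.card : ℝ) ≤ D.card := by
    rw [hD2]
    exact_mod_cast card_filter_le _ _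
  refine ⟨D1, hc1.trans g1, fun d hd => ?_, ?_⟩
  · rw [hD1, mem_filter] at hd
    exact ⟨(g2 d hd.1).1, hd.2⟩
  · have hsub : (Icc 1 X).filter (fun n => X < 2 * n ∧ Even n ∧ (∀ d ∈ D1, ¬ d ∣ n) ∧
        Exc A n) ⊆
        (Icc 1 X).filter (fun n => X < 2 * n ∧ Even n ∧ (∀ d ∈ D, ¬ d ∣ n) ∧ Exc A n) ∪
        D2.biUnion (fun d => (Ioc 0 X).filter (fun n => d ∣ n)) := by
      intro n hn
      rw [mem_filter, mem_Icc] at hn
      obtain ⟨⟨n1, n2⟩, n3, n4, n5, n6⟩ := hn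
      rw [mem_union]
      by_cases hdiv : ∀ d ∈ D, ¬ d ∣ n
      · left
        rw [mem_filter, mem_Icc]
        exact ⟨⟨n1, n2⟩, n3, n4, hdiv, n6⟩
      · right
        push Not at hdiv
        obtain ⟨d, hd, hdn⟩ := hdiv
        rw [mem_biUnion]
        refine ⟨d, ?_, ?_⟩
        · rw [hD2, mem_filter]
          refine ⟨hd, fun hle => ?_⟩
          exact n5 d (by rw [hD1, mem_filter]; exact ⟨hd, hle⟩) hdn
        · rw [mem_filter, mem_Ioc]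
          exact ⟨⟨by omega, n2⟩, hdn⟩
    have h4 : (((Icc 1 X).filter (fun n => X < 2 * n ∧ Even n ∧ (∀ d ∈ D1, ¬ d ∣ n) ∧
        Exc A n)).card : ℝ) ≤ (((Icc 1 X).filter (fun n => X < 2 * n ∧ Even n ∧
        (∀ d ∈ D, ¬ d ∣ n) ∧ Exc A n)).card : ℝ) +
        ∑ d ∈ D2, (((Ioc 0 X).filter (fun n => d ∣ n)).card : ℝ) := by
      have h5 := (card_le_card hsub).trans ((card_union_le _ _).trans
        (Nat.add_le_add_left card_biUnion_le _))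
      exact_mod_cast h5
    have hb : (X : ℝ) ^ (1 - θ) ≤ 2 * ((X : ℝ) / 2) ^ (1 - θ) := by
      have e1 : (X : ℝ) ^ (1 - θ) = (2 : ℝ) ^ (1 - θ) * ((X : ℝ) / 2) ^ (1 - θ) := by
        rw [← Real.mul_rpow (by norm_num) (by positivity)]
        congr 1
        ring
      have e2 : (2 : ℝ) ^ (1 - θ) ≤ 2 := by
        have : (2 : ℝ) ^ (1 - θ) ≤ (2 : ℝ) ^ (1 : ℝ) :=
          Real.rpow_le_rpow_of_exponent_le (by norm_num) (by linarith)
        rwa [Real.rpow_one] at this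
      rw [e1]
      exact mul_le_mul_of_nonneg_right e2 (by positivity)
    have h5 : ∀ d ∈ D2, (((Ioc 0 X).filter (fun n => d ∣ n)).card : ℝ) ≤
        2 * (X : ℝ) ^ θ := by
      intro d hd
      rw [hD2, mem_filter, not_le] at hd
      rw [Nat.Ioc_filter_dvd_card_eq_div]
      have h6 : (0 : ℝ) < ((X : ℝ) / 2) ^ (1 - θ) := by positivity
      have h7 : (0 : ℝ) < d := h6.trans hd.2
      calc ((X / d : ℕ) : ℝ) ≤ (X : ℝ) / d := Nat.cast_div_le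
        _ ≤ 2 * (X : ℝ) ^ θ := by
            rw [div_le_iff₀ h7]
            have e1 : (X : ℝ) = (X : ℝ) ^ θ * (X : ℝ) ^ (1 - θ) := by
              rw [← Real.rpow_add hX0]
              rw [show θ + (1 - θ) = 1 by ring, Real.rpow_one]
            have e2 : (X : ℝ) ^ (1 - θ) ≤ 2 * d := by linarith [hd.2]
            have e3 : (0 : ℝ) < (X : ℝ) ^ θ := by positivity
            calc (X : ℝ) = (X : ℝ) ^ θ * (X : ℝ) ^ (1 - θ) := e1
              _ ≤ (X : ℝ) ^ θ * (2 * d) := mul_le_mul_of_nonneg_left e2 e3.le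
              _ = 2 * (X : ℝ) ^ θ * d := by ring
    have h6 := sum_le_card_nsmul D2 _ _ h5
    rw [nsmul_eq_mul] at h6
    have h7 : (X : ℝ) ^ (t - e / 4) ≤ (X : ℝ) ^ (θ + ε / 2) :=
      Real.rpow_le_rpow_of_exponent_le hXR (by linarith)
    have h8 : (X : ℝ) ^ θ ≤ (X : ℝ) ^ (θ + ε / 2) :=
      Real.rpow_le_rpow_of_exponent_le hXR (by linarith)
    have h9 : (0 : ℝ) < (X : ℝ) ^ (θ + ε / 2) := by positivity
    have h10 : (1 : ℝ) ≤ (Real.log X) ^ C := one_le_pow₀ hL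
    have h11 : (D2.card : ℝ) * (2 * (X : ℝ) ^ θ) ≤
        (Real.log X) ^ C * (2 * (X : ℝ) ^ (θ + ε / 2)) :=
      mul_le_mul (hc2.trans g1) (by linarith) (by positivity) (by positivity)
    have h12 : (X : ℝ) ^ (θ + ε) = (X : ℝ) ^ (ε / 2) * (X : ℝ) ^ (θ + ε / 2) := by
      rw [← Real.rpow_add hX0]
      congr 1
      ring
    rw [h12]
    have h13 := mul_le_mul_of_nonneg_right hC3 h9.le
    have h14 := mul_le_mul_of_nonneg_right h10 h9.le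
    linarith

private theorem fin_scale (X n : ℕ) (hn : 1 ≤ n) (hnX : n ≤ X) :
    ∃ i, i ≤ Nat.log 2 X ∧ n ≤ X / 2 ^ i ∧ X / 2 ^ i < 2 * n := by
  have h0 : X / n ≠ 0 := by
    have := Nat.div_pos hnX hn
    omega
  refine ⟨Nat.log 2 (X / n), ?_, ?_, ?_⟩
  · exact Nat.log_mono_right (Nat.div_le_self _ _)
  · rw [Nat.le_div_iff_mul_le (by positivity)]
    have h1 := Nat.pow_log_le_self 2 h0
    have h2 : n * 2 ^ Nat.log 2 (X / n) ≤ n * (X / n) := Nat.mul_le_mul_left _ h1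
    exact h2.trans (Nat.mul_div_le _ _)
  · rw [Nat.div_lt_iff_lt_mul (by positivity)]
    have h1 := Nat.lt_pow_succ_log_self (b := 2) (by norm_num) (X / n)
    rw [Nat.div_lt_iff_lt_mul hn, pow_succ] at h1
    calc X < 2 ^ Nat.log 2 (X / n) * 2 * n := h1
      _ = 2 * n * 2 ^ Nat.log 2 (X / n) := by ring

private theorem fin_log2 (X : ℕ) (hL : 1 ≤ Real.log X) :
    ((Nat.log 2 X : ℕ) : ℝ) + 1 ≤ 3 * Real.log X := by
  have h1 := Real.natLog_le_logb X 2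
  have h2 : (0.6931471803 : ℝ) < Real.log 2 := Real.log_two_gt_d9
  have h3 : Real.logb 2 X ≤ 2 * Real.log X := by
    rw [Real.logb, div_le_iff₀ (by linarith)]
    nlinarith
  push_cast at h1 h3
  linarith

/-- Theorem J from GEN for the primes -/
theorem finJ (H : GenPJ) (A : ℕ) : ∃ C : ℕ, ∀ θ ε : ℝ, 1 / 3 ≤ θ → θ ≤ 1 → 0 < ε → ∀ K : ℕ,
    ∃ X0 : ℕ, ∀ X : ℕ, X0 ≤ X → ∃ D : Finset ℕ,
      (D.card : ℝ) ≤ (Real.log X) ^ C ∧
      (∀ d ∈ D, (Real.log X) ^ K ≤ (d : ℝ) ∧ (d : ℝ) ≤ (X : ℝ) ^ (1 - θ)) ∧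
      ∀ P : ℕ → Prop, ∀ _ : DecidablePred P,
        (∀ n, P n → Even n ∧ (∀ d ∈ D, (d : ℝ) ≤ (n : ℝ) ^ (1 - θ) → ¬ d ∣ n) ∧ Exc A n) →
        (((Icc 1 X).filter P).card : ℝ) ≤ (X : ℝ) ^ (θ + ε) := by
  obtain ⟨C', hC'⟩ := thinJ H A
  refine ⟨C' + 2, fun θ ε h1 h2 hε K => ?_⟩
  obtain ⟨Y0, hY0⟩ := hC' θ (ε / 2) h1 (by positivity) (K + 1)
  obtain ⟨X1, hX1⟩ := MP_log_large (max 10 (3 ^ (K + 1)))
  obtain ⟨X4, hX4⟩ := MP_log_pow 4 1 (ε := ε / 2) (by positivity)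
  refine ⟨max (Y0 ^ 3) (max X1 X4), fun X hX => ?_⟩
  simp only [max_le_iff] at hX
  obtain ⟨hXY, hX1', hX4'⟩ := hX
  have hL := hX1 X hX1'
  have hL10 : 10 ≤ Real.log X := (le_max_left _ _).trans hL
  have hLK : 3 ^ (K + 1) ≤ Real.log X := (le_max_right _ _).trans hL
  have e4 := hX4 X hX4'
  rw [pow_one] at e4
  clear hX1 hX4
  obtain ⟨L, hLdef⟩ : ∃ L : ℝ, L = Real.log X := ⟨_, rfl⟩
  rw [← hLdef] at hL10 hLK e4
  have hXpos : (0 : ℝ) < X := by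
    rcases Nat.eq_zero_or_pos X with h | h
    · exfalso
      subst h
      simp at hLdef
      linarith
    · exact_mod_cast h
  have hX1R : (1 : ℝ) ≤ X := by
    have : 1 ≤ X := by
      have : 0 < X := by exact_mod_cast hXpos
      omega
    exact_mod_cast this
  have hL0 : 0 < L := by linarith
  -- the scales
  obtain ⟨I, hI⟩ : ∃ I : Finset ℕ, I = (range (Nat.log 2 X + 1)).filter
    (fun i => X ≤ (X / 2 ^ i) ^ 3) := ⟨_, rfl⟩
  have hIcard : (I.card : ℝ) ≤ 3 * L := by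
    have h1 : I.card ≤ Nat.log 2 X + 1 := by
      rw [hI]
      exact (card_filter_le _ _).trans (by rw [card_range])
    have h2 := fin_log2 X (by rw [← hLdef]; linarith)
    rw [← hLdef] at h2
    have h3 : (I.card : ℝ) ≤ (Nat.log 2 X : ℝ) + 1 := by exact_mod_cast h1
    linarith
  have hYi : ∀ i ∈ I, X ≤ (X / 2 ^ i) ^ 3 := by
    intro i hi
    rw [hI, mem_filter] at hi
    exact hi.2
  classical
  have hex : ∀ i ∈ I, ∃ D : Finset ℕ, (D.card : ℝ) ≤ (Real.log (X / 2 ^ i : ℕ)) ^ C' ∧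
      (∀ d ∈ D, (Real.log (X / 2 ^ i : ℕ)) ^ (K + 1) ≤ (d : ℝ) ∧
        (d : ℝ) ≤ (((X / 2 ^ i : ℕ) : ℝ) / 2) ^ (1 - θ)) ∧
      (((Icc 1 (X / 2 ^ i)).filter (fun n => X / 2 ^ i < 2 * n ∧ Even n ∧ (∀ d ∈ D, ¬ d ∣ n) ∧
        Exc A n)).card : ℝ) ≤ ((X / 2 ^ i : ℕ) : ℝ) ^ (θ + ε / 2) := by
    intro i hi
    obtain ⟨D, d1, d2, d3⟩ := hY0 (X / 2 ^ i) ((Nat.pow_le_pow_iff_left (by norm_num)).1
      (hXY.trans (hYi i hi)))
    refine ⟨D, d1, d2, ?_⟩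
    convert d3 using 3
  choose! f hf1 hf2 hf3 using hex
  -- facts about the scales
  have hsc : ∀ i ∈ I, (1 : ℝ) ≤ (X / 2 ^ i : ℕ) ∧ ((X / 2 ^ i : ℕ) : ℝ) ≤ X ∧
      L / 3 ≤ Real.log (X / 2 ^ i : ℕ) ∧ Real.log (X / 2 ^ i : ℕ) ≤ L := by
    intro i hi
    have h1 : (X : ℝ) ≤ ((X / 2 ^ i : ℕ) : ℝ) ^ 3 := by exact_mod_cast hYi i hi
    have h2 : (1 : ℝ) ≤ (X / 2 ^ i : ℕ) := by
      by_contra hlt
      push Not at hlt
      have h3 : (X / 2 ^ i : ℕ) = 0 := by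
        have : (X / 2 ^ i : ℕ) < 1 := by exact_mod_cast hlt
        exact Nat.lt_one_iff.1 this
      rw [h3, Nat.cast_zero, zero_pow (by norm_num)] at h1
      linarith
    have h3 : ((X / 2 ^ i : ℕ) : ℝ) ≤ X := by exact_mod_cast Nat.div_le_self _ _
    refine ⟨h2, h3, ?_, ?_⟩
    · have h4 := Real.log_le_log hXpos h1
      rw [Real.log_pow, ← hLdef] at h4
      push_cast at h4
      linarith
    · rw [hLdef]
      exact Real.log_le_log (by linarith) h3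
  refine ⟨I.biUnion f, ?_, ?_, ?_⟩
  · -- the cardinality
    rw [← hLdef]
    have hci : ∀ i ∈ I, ((f i).card : ℝ) ≤ L ^ C' := by
      intro i hi
      obtain ⟨s1, s2, s3, s4⟩ := hsc i hi
      exact (hf1 i hi).trans (pow_le_pow_left₀ (by linarith) s4 _)
    have h1 : ((I.biUnion f).card : ℝ) ≤ ∑ i ∈ I, ((f i).card : ℝ) := by
      exact_mod_cast card_biUnion_le
    have h2 := sum_le_card_nsmul I _ _ hci
    rw [nsmul_eq_mul] at h2
    have h3 : 0 < L ^ C' := by positivity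
    calc ((I.biUnion f).card : ℝ) ≤ I.card * L ^ C' := h1.trans h2
      _ ≤ 3 * L * L ^ C' := mul_le_mul_of_nonneg_right hIcard h3.le
      _ ≤ L * L * L ^ C' := by
          refine mul_le_mul_of_nonneg_right ?_ h3.le
          exact mul_le_mul_of_nonneg_right (by linarith) hL0.le
      _ = L ^ (C' + 2) := by ring
  · intro d hd
    rw [mem_biUnion] at hd
    obtain ⟨i, hi, hd⟩ := hd
    obtain ⟨s1, s2, s3, s4⟩ := hsc i hi
    obtain ⟨d1, d2⟩ := hf2 i hi d hd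
    refine ⟨?_, d2.trans (Real.rpow_le_rpow (by linarith) (by linarith) (by linarith))⟩
    rw [← hLdef]
    refine le_trans ?_ d1
    calc L ^ K = L ^ K * 1 := (mul_one _).symm
      _ ≤ L ^ K * (L / 3 ^ (K + 1)) := by
          refine mul_le_mul_of_nonneg_left ?_ (by positivity)
          rw [le_div_iff₀ (by positivity), one_mul]
          exact hLK
      _ = (L / 3) ^ (K + 1) := by
          rw [_root_.div_pow, pow_succ L K]
          ring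
      _ ≤ (Real.log (X / 2 ^ i : ℕ)) ^ (K + 1) := pow_le_pow_left₀ (by positivity) s3 _
  · -- the exceptions
    intro P _ hP
    have hsub : (Icc 1 X).filter P ⊆
        Icc 1 ⌊(X : ℝ) ^ (1 / 3 : ℝ)⌋₊ ∪ I.biUnion (fun i => (Icc 1 (X / 2 ^ i)).filter
          (fun n => X / 2 ^ i < 2 * n ∧ Even n ∧ (∀ d ∈ f i, ¬ d ∣ n) ∧ Exc A n)) := by
      intro n hn
      rw [mem_filter, mem_Icc] at hn
      obtain ⟨⟨hn1, hnX⟩, hPn⟩ := hn
      obtain ⟨hev, hap, hexc⟩ := hP n hPn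
      rw [mem_union]
      by_cases hsq : n ≤ ⌊(X : ℝ) ^ (1 / 3 : ℝ)⌋₊
      · exact Or.inl (mem_Icc.2 ⟨hn1, hsq⟩)
      · right
        rw [not_le, Nat.floor_lt (by positivity)] at hsq
        obtain ⟨i, hi1, hi2, hi3⟩ := fin_scale X n hn1 hnX
        have hiI : i ∈ I := by
          rw [hI, mem_filter, mem_range]
          refine ⟨by omega, ?_⟩
          have h1 : (X : ℝ) ≤ (n : ℝ) ^ 3 := by
            have h2 : ((X : ℝ) ^ (1 / 3 : ℝ)) ^ 3 = X := by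
              rw [← Real.rpow_natCast, ← Real.rpow_mul hXpos.le]
              norm_num
            rw [← h2]
            exact pow_le_pow_left₀ (by positivity) hsq.le 3
          have h2 : X ≤ n ^ 3 := by exact_mod_cast h1
          exact h2.trans (Nat.pow_le_pow_left hi2 3)
        rw [mem_biUnion]
        refine ⟨i, hiI, ?_⟩
        rw [mem_filter, mem_Icc]
        refine ⟨⟨hn1, hi2⟩, hi3, hev, fun d hd => hap d (mem_biUnion.2 ⟨i, hiI, hd⟩) ?_, hexc⟩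
        -- the size of `d`
        have hi3R : ((X / 2 ^ i : ℕ) : ℝ) ≤ 2 * n := by exact_mod_cast hi3.le
        exact (hf2 i hiI d hd).2.trans
          (Real.rpow_le_rpow (by positivity) (by linarith) (by linarith))
    have h1 : (((Icc 1 X).filter P).card : ℝ) ≤
        ⌊(X : ℝ) ^ (1 / 3 : ℝ)⌋₊ + ∑ i ∈ I, (((Icc 1 (X / 2 ^ i)).filter
          (fun n => X / 2 ^ i < 2 * n ∧ Even n ∧ (∀ d ∈ f i, ¬ d ∣ n) ∧ Exc A n)).card : ℝ) := by
      have h2 := (card_le_card hsub).trans ((card_union_le _ _).trans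
        (Nat.add_le_add_left card_biUnion_le _))
      rw [Nat.card_Icc, Nat.add_sub_cancel] at h2
      exact_mod_cast h2
    have h2 : ∀ i ∈ I, (((Icc 1 (X / 2 ^ i)).filter
          (fun n => X / 2 ^ i < 2 * n ∧ Even n ∧ (∀ d ∈ f i, ¬ d ∣ n) ∧ Exc A n)).card : ℝ) ≤
        (X : ℝ) ^ (θ + ε / 2) := by
      intro i hi
      obtain ⟨s1, s2, s3, s4⟩ := hsc i hi
      exact (hf3 i hi).trans (Real.rpow_le_rpow (by linarith) s2 (by linarith))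
    have h3 := sum_le_card_nsmul I _ _ h2
    rw [nsmul_eq_mul] at h3
    have h4 : (⌊(X : ℝ) ^ (1 / 3 : ℝ)⌋₊ : ℝ) ≤ (X : ℝ) ^ (θ + ε / 2) :=
      (Nat.floor_le (by positivity)).trans
        (Real.rpow_le_rpow_of_exponent_le hX1R (by linarith))
    have h5 : (X : ℝ) ^ (θ + ε) = (X : ℝ) ^ (ε / 2) * (X : ℝ) ^ (θ + ε / 2) := by
      rw [← Real.rpow_add hXpos]
      congr 1
      ring
    have h6 : (0 : ℝ) < (X : ℝ) ^ (θ + ε / 2) := by positivity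
    rw [h5]
    have h7 : (I.card : ℝ) * (X : ℝ) ^ (θ + ε / 2) ≤ 3 * L * (X : ℝ) ^ (θ + ε / 2) :=
      mul_le_mul_of_nonneg_right hIcard h6.le
    have h8 : 4 * L * (X : ℝ) ^ (θ + ε / 2) ≤ (X : ℝ) ^ (ε / 2) * (X : ℝ) ^ (θ + ε / 2) :=
      mul_le_mul_of_nonneg_right e4 h6.le
    have h9 : (X : ℝ) ^ (θ + ε / 2) ≤ L * (X : ℝ) ^ (θ + ε / 2) :=
      le_mul_of_one_le_left h6.le (by linarith)
    linarith

/-- numbers without a divisor in `[(log n)^K, n^(1-θ)]` -/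
theorem finJ_div (H : GenPJ) (A K : ℕ) (θ ε : ℝ) (h1 : 1 / 3 ≤ θ) (h2 : θ ≤ 1)
    (hε : 0 < ε) : ∃ X0 : ℕ, ∀ X : ℕ, X0 ≤ X → ∀ P : ℕ → Prop, ∀ _ : DecidablePred P,
      (∀ n, P n → Even n ∧ (∀ d : ℕ, d ∣ n → (Real.log n) ^ K ≤ (d : ℝ) →
        (n : ℝ) ^ (1 - θ) < d) ∧ Exc A n) →
      (((Icc 1 X).filter P).card : ℝ) ≤ (X : ℝ) ^ (θ + ε) := by
  obtain ⟨C, hC⟩ := finJ H A
  obtain ⟨X0, hX0⟩ := hC θ ε h1 h2 hε K
  refine ⟨X0, fun X hX P _ hP => ?_⟩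
  obtain ⟨D, -, hD2, hD3⟩ := hX0 X hX
  have h3 := hD3 (fun n => P n ∧ 1 ≤ n ∧ n ≤ X) inferInstance (by
    rintro n ⟨hn, hn1, hnX⟩
    obtain ⟨e1, e2, e3⟩ := hP n hn
    refine ⟨e1, fun d hd hdn hdvd => ?_, e3⟩
    have h4 := (hD2 d hd).1
    have h5 : (1 : ℝ) ≤ n := by exact_mod_cast hn1
    have h6 : Real.log n ≤ Real.log X := Real.log_le_log (by linarith) (by exact_mod_cast hnX)
    have h7 : (Real.log n) ^ K ≤ (Real.log X) ^ K :=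
      pow_le_pow_left₀ (Real.log_nonneg h5) h6 K
    have h8 := e2 d hdvd (h7.trans h4)
    linarith)
  refine le_trans ?_ h3
  have h4 : (Icc 1 X).filter P ⊆ (Icc 1 X).filter (fun n => P n ∧ 1 ≤ n ∧ n ≤ X) := by
    intro n hn
    rw [mem_filter] at hn ⊢
    have h5 := mem_Icc.1 hn.1
    exact ⟨hn.1, hn.2, h5.1, h5.2⟩
  exact_mod_cast card_le_card h4

/-- the form of the interface -/
theorem finJ_iface (HG : GenJ) (HP : DecP) : FinJ := by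
  intro A
  obtain ⟨C, hC⟩ := finJ (genPJ HG HP) A
  refine ⟨C, fun θ ε h1 h2 hε K => ?_⟩
  obtain ⟨e, he⟩ : ∃ e : ℝ, e = min ε (θ - 1 / 3) := ⟨_, rfl⟩
  have he0 : 0 < e := by rw [he]; exact lt_min hε (by linarith)
  have he1 : e ≤ ε := by rw [he]; exact min_le_left _ _
  have he2 : e ≤ θ - 1 / 3 := by rw [he]; exact min_le_right _ _
  obtain ⟨X0, hX0⟩ := hC (θ - e) e (by linarith) (by linarith) he0 K
  refine ⟨max X0 1, fun X hX => ?_⟩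
  obtain ⟨D, hD1, hD2, hD3⟩ := hX0 X ((le_max_left _ _).trans hX)
  have hX1 : (1 : ℝ) ≤ X := by exact_mod_cast (le_max_right _ _).trans hX
  refine ⟨D, hD1, fun d hd => ⟨(hD2 d hd).1, (hD2 d hd).2.trans
    (Real.rpow_le_rpow_of_exponent_le hX1 (by linarith))⟩, ?_⟩
  classical
  have h3 := hD3 (fun n => 1 ≤ n ∧ Even n ∧
      (∀ d ∈ D, (d : ℝ) ≤ (n : ℝ) ^ (1 - θ + ε) → ¬ d ∣ n) ∧ Exc A n) inferInstance (by
    rintro n ⟨hn1, hev, hn, hex⟩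
    refine ⟨hev, fun d hd hdn => hn d hd (hdn.trans ?_), hex⟩
    exact Real.rpow_le_rpow_of_exponent_le (by exact_mod_cast hn1) (by linarith))
  rw [show θ - e + e = θ by ring] at h3
  refine le_trans ?_ h3
  refine Nat.cast_le.2 (card_le_card ?_)
  intro n hn
  rw [mem_filter, mem_Icc] at hn ⊢
  exact ⟨hn.1, hn.1.1, hn.2⟩

end Pool.MP_dd84fd_nt.JX
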