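import Pool.Agent.Lib.MP_dd84fd_nt.JX.PlTwo

/-!
# PL_J-Dec: `DecJ` in the form used on the arcs

Adapt `IXP.dec_conv` (`IX/PlDec.lean`): `D = ⌊ZJ th e X⌋₊`; `D ≤ X` (`lv ≤ 1 - th + 3e ≤ 4/5 + 1/1000`), `X^(1/2) ≤ D`
(`lv ≥ 1/2`, `⌊2 X^lv⌋ ≥ 2 X^lv - 1 ≥ X^lv`); `M i ≥ X^τ/2 ≥ 1` for large `X`.
-/

set_option autoImplicit false

namespace Pool.MP_dd84fd_nt.JXP

open Finset Pool.MP_67663b_nt.Odd Pool.MP_dd84fd_nt.PL Pool.MP_dd84fd_nt.HX Pool.MP_dd84fd_nt.HXP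
open Pool.MP_dd84fd_nt.JX (Adm DecJ ZJ)

private theorem pdj_rpow (T η : ℝ) (hη : 0 < η) : ∃ X0 : ℕ, ∀ X : ℕ, X0 ≤ X →
    T ≤ (X : ℝ) ^ η := by
  have h1 := (tendsto_rpow_atTop hη).comp tendsto_natCast_atTop_atTop
  obtain ⟨X0, hX0⟩ := Filter.eventually_atTop.1 (h1.eventually_ge_atTop T)
  exact ⟨X0, fun X hX => hX0 X hX⟩

private theorem pdj_bv (X I : ℕ) (R : ℝ) (hR : 0 ≤ R) (hI : (I : ℝ) ≤ R) (γ α : ℕ → ℕ → ℝ)
    (hγ : ∀ i, (∀ n, |γ i n| ≤ R) ∧ ∑ n ∈ Ico 1 X, |γ i (n + 1) - γ i n| ≤ R)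
    (hα : ∀ i l, |α i l| ≤ R) (l : ℕ) :
    BVw X (R ^ 3) (fun n => ∑ i ∈ range I, γ i n * α i l) := by
  have hI3 : (I : ℝ) * (R * R) ≤ R ^ 3 := by
    calc (I : ℝ) * (R * R) ≤ R * (R * R) := mul_le_mul_of_nonneg_right hI (by positivity)
      _ = R ^ 3 := by ring
  constructor
  · intro n _
    calc |∑ i ∈ range I, γ i n * α i l| ≤ ∑ i ∈ range I, |γ i n * α i l| := abs_sum_le_sum_abs _ _
      _ ≤ ∑ _i ∈ range I, R * R := by
          refine sum_le_sum fun i _ => ?_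
          rw [abs_mul]
          exact mul_le_mul ((hγ i).1 n) (hα i l) (abs_nonneg _) hR
      _ = (I : ℝ) * (R * R) := by rw [sum_const, card_range, nsmul_eq_mul]
      _ ≤ R ^ 3 := hI3
  · calc ∑ n ∈ Ico 1 X, |∑ i ∈ range I, γ i (n + 1) * α i l - ∑ i ∈ range I, γ i n * α i l|
        ≤ ∑ n ∈ Ico 1 X, ∑ i ∈ range I, |γ i (n + 1) - γ i n| * R := by
          refine sum_le_sum fun n _ => ?_
          rw [← sum_sub_distrib]
          refine (abs_sum_le_sum_abs _ _).trans (sum_le_sum fun i _ => ?_)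
          rw [← sub_mul, abs_mul]
          exact mul_le_mul_of_nonneg_left (hα i l) (abs_nonneg _)
      _ = ∑ i ∈ range I, (∑ n ∈ Ico 1 X, |γ i (n + 1) - γ i n|) * R := by
          rw [sum_comm]
          refine sum_congr rfl fun i _ => ?_
          rw [sum_mul]
      _ ≤ ∑ _i ∈ range I, R * R :=
          sum_le_sum fun i _ => mul_le_mul_of_nonneg_right (hγ i).2 hR
      _ = (I : ℝ) * (R * R) := by rw [sum_const, card_range, nsmul_eq_mul]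
      _ ≤ R ^ 3 := hI3

theorem dec_conv_j (B C2 : ℕ) (th e τ : ℝ) (hp : Adm th e τ) (ww : ℕ → ℕ → ℝ)
    (hd : DecJ B C2 th e τ ww) :
    ∃ X0 : ℕ, ∀ X : ℕ, X0 ≤ X → ∃ (γ : ℕ → ℕ → ℝ) (I D : ℕ) (M : ℕ → ℝ) (K : ℕ → ℕ)
      (MM : ℕ → Finset ℕ) (a c : ℕ → ℕ → ℝ) (err : ℕ → ℝ),
      (I : ℝ) ≤ (Real.log X) ^ C2 ∧ (D : ℝ) ≤ ZJ th e X ∧ (X : ℝ) ^ (1 / 2 : ℝ) ≤ D ∧ D ≤ X ∧
      (∀ l, BVw X ((Real.log X) ^ (3 * C2)) (γ l)) ∧ (∀ l, D < l → ∀ n, γ l n = 0) ∧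
      (∀ i, BlkJ X th e τ (M i) (K i) (MM i) (fun m => (a i m : ℂ)) (fun k => (c i k : ℂ))
        ((Real.log X) ^ C2) ((Real.log X) ^ (2 * C2))) ∧
      (∀ i, ∀ m ∈ MM i, 1 ≤ m) ∧ (∀ i m, a i m ≠ 0 → m ∈ MM i) ∧
      (∀ i m, a i m ≠ 0 → m * K i ≤ X) ∧
      (∀ n ∈ Icc 1 X, ww X n = ∑ l ∈ n.divisors, γ l n +
        ∑ i ∈ range I, ∑ m ∈ n.divisors, (if n / m ≤ K i then a i m * c i (n / m) else 0) +
        err n) ∧
      ∑ n ∈ Icc 1 X, err n ^ 2 ≤ X / (Real.log X) ^ B := by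
  obtain ⟨hth, hth2, he, hτ, heτ⟩ := hp
  have hτ0 : 0 < τ := by linarith
  obtain ⟨X1, hX1⟩ := hd
  obtain ⟨X2, hX2⟩ := pdj_rpow 2 τ hτ0
  obtain ⟨X3, hX3⟩ := pdj_rpow 2 (12 / 100) (by norm_num)
  refine ⟨max (max X1 X2) (max X3 1), fun X hX => ?_⟩
  have g1 : X1 ≤ X := (le_max_left _ _).trans ((le_max_left _ _).trans hX)
  have g2 : X2 ≤ X := (le_max_right _ _).trans ((le_max_left _ _).trans hX)
  have g3 : X3 ≤ X := (le_max_left _ _).trans ((le_max_right _ _).trans hX)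
  have g4 : 1 ≤ X := (le_max_right _ _).trans ((le_max_right _ _).trans hX)
  have hXR : (1 : ℝ) ≤ X := by exact_mod_cast g4
  have hX0 : (0 : ℝ) < X := by linarith
  have hXe := hX2 X g2
  have hX25 := hX3 X g3
  obtain ⟨I, γ, α, M, K, a, c, err, hI, hγ, hα, hα0, hac, hM, haM, hdec, herr⟩ := hX1 X g1
  obtain ⟨L, hL⟩ : ∃ L : ℝ, L = Real.log X := ⟨_, rfl⟩
  rw [← hL] at hI hγ hα hac herr ⊢
  have hL0 : 0 ≤ L := by rw [hL]; exact Real.log_nonneg hXR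
  have hR0 : 0 ≤ L ^ C2 := pow_nonneg hL0 _
  have hlv1 : JX.lv th e ≤ 88 / 100 := (min_le_left _ _).trans (by linarith)
  have hlv2 : 1 / 2 ≤ JX.lv th e := le_min (by linarith) (by linarith)
  have hZX : JX.ZJ th e X ≤ X := by
    unfold JX.ZJ
    calc 2 * (X : ℝ) ^ (JX.lv th e) ≤ (X : ℝ) ^ (12 / 100 : ℝ) * (X : ℝ) ^ (88 / 100 : ℝ) := by
          refine mul_le_mul hX25 ?_ (by positivity) (by positivity)
          exact Real.rpow_le_rpow_of_exponent_le hXR hlv1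
      _ = X := by
          rw [← Real.rpow_add hX0]
          norm_num
  have hZ0 : 0 ≤ JX.ZJ th e X := by
    unfold JX.ZJ
    positivity
  have hZD : (X : ℝ) ^ (1 / 2 : ℝ) ≤ (⌊JX.ZJ th e X⌋₊ : ℝ) := by
    have h1 := Nat.lt_floor_add_one (JX.ZJ th e X)
    have h2 : 2 * (X : ℝ) ^ (1 / 2 : ℝ) ≤ JX.ZJ th e X := by
      unfold JX.ZJ
      exact mul_le_mul_of_nonneg_left (Real.rpow_le_rpow_of_exponent_le hXR hlv2) (by norm_num)
    have h3 : 1 ≤ (X : ℝ) ^ (1 / 2 : ℝ) := Real.one_le_rpow hXR (by norm_num)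
    linarith
  have hM1 : ∀ i, (1 : ℝ) ≤ M i := fun i => le_trans (by linarith) (hM i).1
  have hyB : IX.yB th e X ≤ X := by
    unfold IX.yB
    calc (X : ℝ) ^ (th - 3 * e) ≤ (X : ℝ) ^ (1 : ℝ) :=
          Real.rpow_le_rpow_of_exponent_le hXR (by linarith)
      _ = X := Real.rpow_one _
  have hKM : ∀ i, (K i : ℝ) * M i ≤ X := fun i => by exact_mod_cast (hM i).2.2
  refine ⟨fun l n => ∑ i ∈ range I, γ i n * α i l, I, ⌊JX.ZJ th e X⌋₊, fun i => (M i : ℝ), K,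
    fun i => (Icc 1 X).filter (fun m => a i m ≠ 0), a, c, err, hI, Nat.floor_le hZ0, hZD, ?_, ?_,
    ?_, ?_, ?_, ?_, ?_, ?_, herr⟩
  · exact_mod_cast (Nat.floor_le hZ0).trans hZX
  · intro l
    rw [show 3 * C2 = C2 * 3 by ring, pow_mul]
    exact pdj_bv X I (L ^ C2) hR0 hI γ α hγ hα l
  · intro l hl n
    refine sum_eq_zero fun i _ => ?_
    rw [hα0 i l (Nat.lt_of_floor_lt hl), mul_zero]
  · intro i
    refine ⟨(hM i).1, (hM i).2.1, ?_, ?_, ?_, ?_⟩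
    · have h5 : (K i : ℝ) ≤ X :=
        (le_mul_of_one_le_right (Nat.cast_nonneg _) (hM1 i)).trans (hKM i)
      exact_mod_cast h5
    · intro m hm
      rw [mem_filter] at hm
      obtain ⟨h5, h6, -, -⟩ := haM i m hm.2
      have h5' : (M i : ℝ) < m := by exact_mod_cast h5
      have h6' : (m : ℝ) ≤ 2 * M i := by exact_mod_cast h6
      exact ⟨h5', h6'⟩
    · intro m _
      rw [Complex.norm_real]
      exact (hac i m).1
    · have hMp : (0 : ℝ) < M i := by linarith [hM1 i]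
      calc ∑ k ∈ Icc 1 (K i), ‖((c i k : ℝ) : ℂ)‖ ^ 2 ≤ ∑ k ∈ Icc 1 (K i), L ^ (2 * C2) := by
            refine sum_le_sum fun k _ => ?_
            rw [Complex.norm_real, Real.norm_eq_abs, mul_comm 2 C2, pow_mul]
            exact pow_le_pow_left₀ (abs_nonneg _) (hac i k).2 2
        _ = (K i : ℝ) * L ^ (2 * C2) := by
            rw [sum_const, Nat.card_Icc, nsmul_eq_mul]
            simp
        _ ≤ L ^ (2 * C2) * X / M i := by
            rw [le_div_iff₀ hMp]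
            calc (K i : ℝ) * L ^ (2 * C2) * M i = L ^ (2 * C2) * (K i * M i) := by ring
              _ ≤ L ^ (2 * C2) * X := mul_le_mul_of_nonneg_left (hKM i) (by positivity)
  · intro i m hm
    rw [mem_filter, mem_Icc] at hm
    exact hm.1.1
  · intro i m hm
    obtain ⟨h5, -, h7, -⟩ := haM i m hm
    rw [mem_filter, mem_Icc]
    refine ⟨⟨by omega, ?_⟩, hm⟩
    exact_mod_cast h7.trans hyB
  · intro i m hm
    exact (haM i m hm).2.2.2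
  · intro n hn
    rw [hdec n hn]
    congr 2
    rw [sum_comm]
    refine sum_congr rfl fun i _ => ?_
    rw [mul_sum]

end Pool.MP_dd84fd_nt.JXP
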