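import Pool.Agent.Lib.MP_dd84fd_nt.JX.FaArcs
import Pool.Agent.Lib.MP_dd84fd_nt.JX.FaBound
import Pool.Agent.Lib.MP_dd84fd_nt.IX.FaArcs

/-!
# JX-FaFin: GEN_J from the structured decomposition, the tree theorem, the pointwise lemma,
greedy and centre

`U = tr (ww - f) = U_s + U_e`, `V = tr (ww + f) = V_s + V_e` (`StrWJ`, `s = -1, 1`), so
`U V = U_s V_s + U V_e + U_e V - U_e V_e`; `TreeJ` for `U_s V_s` gives the exceptional set; for the
other `n`: `ww*ww - f*f = Ph[U V, 1] = Ph[U V, 1 - w] + Ph[U V, w]`, `w = wSI Λ b`; the first is a sum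
over discs (`ph_discsJ`, `discs_boundJ`), the three parts with an error are small by Cauchy.
-/

set_option autoImplicit false

namespace Pool.MP_dd84fd_nt.JX

open Finset Pool.MP_67663b_nt.Odd Pool.MP_dd84fd_nt.En Pool.MP_dd84fd_nt.E2 Pool.MP_dd84fd_nt.LS
  Pool.MP_dd84fd_nt.GX Pool.MP_dd84fd_nt.HX Pool.MP_dd84fd_nt.IX

open Pool.MP_dd84fd_nt.L2G (nrm)

open Pool.MP_dd84fd_nt.PL (rr)

private theorem fn_logbig (K : ℝ) : ∃ X0 : ℕ, ∀ X : ℕ, X0 ≤ X → K ≤ Real.log (X : ℝ) := by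
  have h : Filter.Tendsto (fun n : ℕ => Real.log (n : ℝ)) Filter.atTop Filter.atTop :=
    Real.tendsto_log_atTop.comp tendsto_natCast_atTop_atTop
  exact Filter.eventually_atTop.1 (h.eventually_ge_atTop K)

private theorem fn_logpow (A : ℕ) : ∃ X0 : ℕ, ∀ X : ℕ, X0 ≤ X → (Real.log (X : ℝ)) ^ A ≤ X := by
  have h3 : ∀ᶠ x : ℝ in Filter.atTop, (Real.log x) ^ A ≤ x := by
    have h4 := (Real.isLittleO_pow_log_id_atTop (n := A)).bound one_pos
    filter_upwards [h4, Filter.eventually_ge_atTop 1] with x hx hx1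
    rw [one_mul, Real.norm_eq_abs, Real.norm_eq_abs, id, abs_of_pos (by linarith : 0 < x)] at hx
    exact (le_abs_self _).trans hx
  exact Filter.eventually_atTop.1 ((tendsto_natCast_atTop_atTop (R := ℝ)).eventually h3)

/-- `DecJ` is monotone in `B` -/
theorem decJ_mono {B B' C2 : ℕ} {th e τ : ℝ} {ww : ℕ → ℕ → ℝ} (hB : B' ≤ B)
    (h : DecJ B C2 th e τ ww) : DecJ B' C2 th e τ ww := by
  obtain ⟨X0, hX0⟩ := h
  obtain ⟨X1, hX1⟩ := fn_logbig 1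
  refine ⟨max X0 X1, fun X hX => ?_⟩
  obtain ⟨I, γ, α, M, K, a, c, err, h1, h2, h3, h4, h5, h6, h7, h8, h9⟩ :=
    hX0 X ((le_max_left _ _).trans hX)
  have hL := hX1 X ((le_max_right _ _).trans hX)
  refine ⟨I, γ, α, M, K, a, c, err, h1, h2, h3, h4, h5, h6, h7, h8, h9.trans ?_⟩
  exact div_le_div_of_nonneg_left (Nat.cast_nonneg _) (by positivity)
    (pow_le_pow_right₀ hL hB)

private theorem wSI_le (G : ℕ) (th e : ℝ) (X Λ : ℕ) (bb : ℝ) (j : ZMod G) :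
    ‖wSI G th e X Λ bb j‖ ≤ 1 := by
  unfold wSI
  split_ifs <;> simp

/-- Cauchy -/
theorem phJ_cauchy (G : ℕ) [NeZero G] (X : ℕ) (u v : ℕ → ℝ) (ω : ZMod G → ℂ)
    (hω : ∀ j, ‖ω j‖ ≤ 1) (n : ℕ) :
    ‖PhJ G X u v ω n‖ ^ 2 ≤ nm2 G (tr G X u) * nm2 G (tr G X v) := by
  have hG : 0 < G := Nat.pos_of_ne_zero (NeZero.ne G)
  have hGr : (0 : ℝ) < G := by exact_mod_cast hG
  have h1 : ‖PhJ G X u v ω n‖ ≤ (1 / (G : ℝ)) *
      ∑ j : ZMod G, ‖tr G X u j‖ * ‖tr G X v j‖ := by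
    unfold PhJ
    rw [norm_mul]
    have e1 : ‖(1 / (G : ℂ))‖ = 1 / (G : ℝ) := by
      rw [norm_div, norm_one, Complex.norm_natCast]
    rw [e1]
    refine mul_le_mul_of_nonneg_left ?_ (by positivity)
    refine (norm_sum_le _ _).trans (Finset.sum_le_sum fun j _ => ?_)
    rw [norm_mul, norm_mul, norm_mul]
    have e2 : ‖(ZMod.stdAddChar (-((n : ZMod G) * j)) : ℂ)‖ = 1 := by
      rw [← conj_chi, chi_ee]
      rw [RCLike.norm_conj]
      exact norm_ee _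
    rw [e2, mul_one]
    have h5 : ‖ω j‖ * ‖tr G X u j‖ ≤ 1 * ‖tr G X u j‖ :=
      mul_le_mul_of_nonneg_right (hω j) (norm_nonneg _)
    rw [one_mul] at h5
    exact mul_le_mul_of_nonneg_right h5 (norm_nonneg _)
  have h2 : (∑ j : ZMod G, ‖tr G X u j‖ * ‖tr G X v j‖) ^ 2 ≤
      (∑ j : ZMod G, ‖tr G X u j‖ ^ 2) * ∑ j : ZMod G, ‖tr G X v j‖ ^ 2 :=
    Finset.sum_mul_sq_le_sq_mul_sq _ _ _
  calc ‖PhJ G X u v ω n‖ ^ 2 ≤ ((1 / (G : ℝ)) *
      ∑ j : ZMod G, ‖tr G X u j‖ * ‖tr G X v j‖) ^ 2 := pow_le_pow_left₀ (norm_nonneg _) h1 2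
    _ = (1 / (G : ℝ)) ^ 2 * (∑ j : ZMod G, ‖tr G X u j‖ * ‖tr G X v j‖) ^ 2 := by ring
    _ ≤ (1 / (G : ℝ)) ^ 2 * ((∑ j : ZMod G, ‖tr G X u j‖ ^ 2) *
        ∑ j : ZMod G, ‖tr G X v j‖ ^ 2) := mul_le_mul_of_nonneg_left h2 (by positivity)
    _ = nm2 G (tr G X u) * nm2 G (tr G X v) := by
        unfold nm2
        ring

theorem tr_add_on (G X : ℕ) [NeZero G] (f a b : ℕ → ℝ) (h : ∀ n ∈ Icc 1 X, f n = a n + b n)
    (j : ZMod G) : tr G X f j = tr G X a j + tr G X b j := by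
  unfold tr
  rw [← Finset.sum_add_distrib]
  refine Finset.sum_congr rfl fun m hm => ?_
  rw [h m hm]
  push_cast
  ring

/-- `(u1 + u2)(v1 + v2) = u1 v1 + f v2 + u2 h - u2 v2` -/
theorem phJ_split (G : ℕ) [NeZero G] (X : ℕ) (f h u1 u2 v1 v2 : ℕ → ℝ) (ω : ZMod G → ℂ) (n : ℕ)
    (hf : ∀ m ∈ Icc 1 X, f m = u1 m + u2 m) (hh : ∀ m ∈ Icc 1 X, h m = v1 m + v2 m) :
    PhJ G X f h ω n = PhJ G X u1 v1 ω n + PhJ G X f v2 ω n + PhJ G X u2 h ω n -
      PhJ G X u2 v2 ω n := by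
  unfold PhJ
  rw [← mul_add, ← mul_add, ← mul_sub, ← sum_add_distrib, ← sum_add_distrib,
    ← sum_sub_distrib]
  congr 1
  refine sum_congr rfl fun j _ => ?_
  rw [tr_add_on G X f u1 u2 hf j, tr_add_on G X h v1 v2 hh j]
  ring

/-- the norm of `tr (ww + f)` -/
theorem nm2_upI (K0 C1 : ℕ) (ww gg : ℕ → ℕ → ℝ) (hW : W1 K0 C1 ww gg) (D' : ℕ) :
    ∃ X0 : ℕ, ∀ X : ℕ, X0 ≤ X → ∀ (G : ℕ) [NeZero G], 3 * X ≤ G →
      nm2 G (tr G X (upI ww gg X (wX D' X))) ≤ X * (Real.log X) ^ 4 := by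
  obtain ⟨X1, hX1⟩ := coefI K0 C1 ww gg hW D'
  refine ⟨max X1 1, fun X hX G hGz hG => ?_⟩
  have h1 : X1 ≤ X := (le_max_left _ _).trans hX
  have h4 : 1 ≤ X := (le_max_right _ _).trans hX
  have hXG : X < G := by omega
  unfold nm2
  rw [parseval G X hXG]
  have h5 : ∑ n ∈ Icc 1 X, (upI ww gg X (wX D' X) n) ^ 2 ≤ ∑ _n ∈ Icc 1 X, (Real.log X) ^ 4 := by
    refine Finset.sum_le_sum fun n hn => ?_
    have h6 := hX1 X h1 1 (by norm_num) n
    have h7 : |upI ww gg X (wX D' X) n| ≤ (Real.log X) ^ 2 := by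
      unfold upI
      have : ww X n + fI gg X (wX D' X) n = ww X n + 1 * fI gg X (wX D' X) n := by ring
      rw [this]
      exact h6
    calc (upI ww gg X (wX D' X) n) ^ 2 = |upI ww gg X (wX D' X) n| ^ 2 := (sq_abs _).symm
      _ ≤ ((Real.log X) ^ 2) ^ 2 := pow_le_pow_left₀ (abs_nonneg _) h7 2
      _ = _ := by ring
  refine h5.trans (le_of_eq ?_)
  rw [Finset.sum_const, Nat.card_Icc, nsmul_eq_mul, Nat.add_sub_cancel]

theorem gen_j (hSt : StrWJ) (hT : TreeJ) (hP : PlJ) (hG : GreedyJ) (hC : CentreI) : GenJ := by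
  classical
  intro A
  obtain ⟨A1, hA1⟩ : ∃ A1 : ℕ, A1 = A + 2 := ⟨_, rfl⟩
  obtain ⟨Bs, hs⟩ := hSt (2 * A1 + 6)
  obtain ⟨Bd, hd⟩ := discs_boundJ hP hC A1
  obtain ⟨Bg, hg⟩ := hG (A1 + 4)
  refine ⟨max Bs (max Bd Bg), fun K0 C1 C2 => ?_⟩
  obtain ⟨Cs, hs⟩ := hs K0 C1 C2
  obtain ⟨K1, K2, hd⟩ := hd K0 C1 C2
  obtain ⟨C, hg⟩ := hg K0 C1 C2 K1 K2
  refine ⟨C, fun th e τ hA ww gg hW hDec hMaj K => ?_⟩
  have hDs : DecJ Bs C2 th e τ ww := decJ_mono (le_max_left _ _) hDec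
  have hDd : DecJ Bd C2 th e τ ww := decJ_mono ((le_max_left _ _).trans (le_max_right _ _)) hDec
  have hDg : DecJ Bg C2 th e τ ww := decJ_mono ((le_max_right _ _).trans (le_max_right _ _)) hDec
  obtain ⟨D0, hg⟩ := hg K th e τ hA ww gg hW hDg hMaj
  refine ⟨max D0 1, fun D' hD' => ?_⟩
  have hD0 : D0 ≤ D' := (le_max_left _ _).trans hD'
  have hD1 : 1 ≤ D' := (le_max_right _ _).trans hD'
  obtain ⟨Xt, hXt⟩ := hT A1 Cs th e τ hA
  obtain ⟨Xs, hXs⟩ := hs th e τ hA ww gg hW hDs D' hD1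
  obtain ⟨Xd, hXd⟩ := hd th e τ hA ww gg hW hDd D' hD1
  obtain ⟨Xg, hXg⟩ := hg D' hD0
  obtain ⟨Xp, hXp⟩ := ph_discsJ K0 C1 ww gg hW th e τ hA D'
  obtain ⟨Xv, hXv⟩ := nm2_upI K0 C1 ww gg hW D'
  obtain ⟨Xn, hXn⟩ := nm2_uI K0 C1 ww gg hW D'
  obtain ⟨Xl, hXl⟩ := fn_logbig 4
  obtain ⟨Xm, hXm⟩ := fn_logpow A1
  refine ⟨max (max (max Xt Xs) (max Xd Xg)) (max (max Xp Xv) (max (max Xn Xl) (max Xm 2))),
    fun X hX => ?_⟩
  have g1 : Xt ≤ X := by omega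
  have g2 : Xs ≤ X := by omega
  have g3 : Xd ≤ X := by omega
  have g4 : Xg ≤ X := by omega
  have g5 : Xp ≤ X := by omega
  have g6 : Xv ≤ X := by omega
  have g7 : Xn ≤ X := by omega
  have g8 : Xl ≤ X := by omega
  have g9 : Xm ≤ X := by omega
  have g10 : 2 ≤ X := by omega
  have hL := hXl X g8
  have hLm := hXm X g9
  obtain ⟨D, hDcard, hDmem, hDgood⟩ := hXg X g4
  obtain ⟨us, eu, hus, huse, heu⟩ := hXs X g2 (-1) (by norm_num)
  obtain ⟨vs, ev, hvs, hvse, hev⟩ := hXs X g2 1 (by norm_num)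
  obtain ⟨w, hw⟩ : ∃ w : ℕ, w = wX D' X := ⟨_, rfl⟩
  rw [← hw] at huse hvse
  set L : ℝ := Real.log (X : ℝ) with hLd
  have hX1 : (1 : ℝ) ≤ X := by exact_mod_cast (by omega : 1 ≤ X)
  have hX0 : (0 : ℝ) < X := by linarith
  have hL0 : 0 < L := by linarith
  have hXz : X ≠ 0 := by omega
  -- the modulus
  obtain ⟨G, hGe⟩ : ∃ G : ℕ, G = X ^ 10 := ⟨_, rfl⟩
  have hGz : NeZero G := ⟨by rw [hGe]; positivity⟩
  have hG3 : 3 * X ≤ G := by
    rw [hGe]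
    have h1 : 2 ^ 9 ≤ X ^ 9 := Nat.pow_le_pow_left g10 9
    calc 3 * X ≤ X ^ 9 * X := Nat.mul_le_mul_right X (by omega)
      _ = X ^ 10 := by ring
  have hG5 : X ^ 5 ≤ G := by
    rw [hGe]
    exact Nat.pow_le_pow_right (by omega) (by norm_num)
  obtain ⟨Ex, hEx⟩ : ∃ Ex : Finset ℕ, Ex = (Icc 1 X).filter (fun n => ∀ (Λ : ℕ) (bb : ℝ),
      1 ≤ Λ → 1 ≤ bb → (Λ : ℝ) * bb ≤ 2 * (X : ℝ) ^ (1 - th + e) →
      (X : ℝ) / L ^ A1 < ‖PhJ G X us vs (wSI G th e X Λ bb) n‖) := ⟨_, rfl⟩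
  refine ⟨D, Ex, hDcard, hDmem, ?_, ?_⟩
  · refine hXt X g1 G hG5 us vs hus hvs Ex ?_ ?_
    · rw [hEx]
      exact Finset.filter_subset _ _
    · intro n hn Λ bb h1 h2 h3
      rw [hEx, Finset.mem_filter] at hn
      exact hn.2 Λ bb h1 h2 h3
  · intro n hn1 hn2 _ hnEx hnD
    have hn0 : 1 ≤ n := by omega
    have hex : ∃ (Λ : ℕ) (bb : ℝ), 1 ≤ Λ ∧ 1 ≤ bb ∧ (Λ : ℝ) * bb ≤ 2 * (X : ℝ) ^ (1 - th + e) ∧
        ‖PhJ G X us vs (wSI G th e X Λ bb) n‖ ≤ (X : ℝ) / L ^ A1 := by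
      by_contra hc
      apply hnEx
      rw [hEx, Finset.mem_filter]
      refine ⟨Finset.mem_Icc.2 ⟨hn0, hn2⟩, fun Λ bb h1 h2 h3 => ?_⟩
      by_contra h4
      exact hc ⟨Λ, bb, h1, h2, h3, not_lt.1 h4⟩
    obtain ⟨Λ, bb, hΛ, hbb, hΛb, hsmall⟩ := hex
    have hgood : GoodNI th e ww gg w X n (A1 + 4) K1 K2 := by
      rw [hw]
      intro QQ N h1 h2 h3
      exact hDgood n (Finset.mem_Icc.2 ⟨hn0, hn2⟩) hnD QQ N h1 h2 h3
    have hdisc := hXd X g3 n hn1 hn2 (by rw [← hw]; exact hgood) Λ bb hΛ hbb hΛb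
    rw [← hw] at hdisc
    have hph := hXp X g5 Λ bb hΛ hbb hΛb G (by rw [hGe]) n hn2
    rw [← hw] at hph
    have hrep := repI ww gg X G w hG3 n hn0 hn2
    have hone := ph_one G ww gg th e X w Λ n bb (tr G X (upI ww gg X w))
    have hJ : PhI G ww gg X w (tr G X (upI ww gg X w)) (wSI G th e X Λ bb) n =
        PhJ G X (uI ww gg X w) (upI ww gg X w) (wSI G th e X Λ bb) n := rfl
    have hV := phJ_split G X (uI ww gg X w) (upI ww gg X w) us eu vs ev (wSI G th e X Λ bb) n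
      (fun m hm => by rw [← huse m hm]; unfold uI; ring)
      (fun m hm => by rw [← hvse m hm]; unfold upI; ring)
    -- the error parts
    have hXG : X < G := by omega
    have hwb := fun j => wSI_le G th e X Λ bb j
    have hU := hXn X g7 G hG3
    rw [← hw] at hU
    have hU' := hXv X g6 G hG3
    rw [← hw] at hU'
    have hEu : nm2 G (tr G X eu) ≤ X / L ^ (2 * A1 + 6) := by
      unfold nm2
      rw [parseval G X hXG]
      exact heu
    have hEv : nm2 G (tr G X ev) ≤ X / L ^ (2 * A1 + 6) := by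
      unfold nm2
      rw [parseval G X hXG]
      exact hev
    have hn0' : ∀ f : ℕ → ℝ, 0 ≤ nm2 G (tr G X f) := by
      intro f
      unfold nm2
      positivity
    have hpw : L ^ (2 * A1 + 6) = L ^ 4 * (L ^ (A1 + 1)) ^ 2 := by
      rw [← pow_mul, ← pow_add]
      congr 1
      ring
    have hXL : (X * L ^ 4) * (X / L ^ (2 * A1 + 6)) = (X / L ^ (A1 + 1)) ^ 2 := by
      rw [hpw]
      field_simp
    have hle : X / L ^ (A1 + 1) ≤ X / L ^ A1 :=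
      div_le_div_of_nonneg_left hX0.le (by positivity)
        (pow_le_pow_right₀ (by linarith) (by omega))
    have hsq : ∀ z : ℝ, 0 ≤ z → z ^ 2 ≤ (X / L ^ (A1 + 1)) ^ 2 → z ≤ X / L ^ A1 :=
      fun z hz h => ((sq_le_sq₀ hz (by positivity)).1 h).trans hle
    have hP1 : ‖PhJ G X (uI ww gg X w) ev (wSI G th e X Λ bb) n‖ ≤ X / L ^ A1 := by
      refine hsq _ (norm_nonneg _) ?_
      rw [← hXL]
      exact (phJ_cauchy G X _ ev _ hwb n).trans (mul_le_mul hU hEv (hn0' _) (by positivity))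
    have hP2 : ‖PhJ G X eu (upI ww gg X w) (wSI G th e X Λ bb) n‖ ≤ X / L ^ A1 := by
      refine hsq _ (norm_nonneg _) ?_
      rw [← hXL, mul_comm (X * L ^ 4)]
      exact (phJ_cauchy G X eu _ _ hwb n).trans (mul_le_mul hEu hU' (hn0' _) (by positivity))
    have hP3 : ‖PhJ G X eu ev (wSI G th e X Λ bb) n‖ ≤ X / L ^ A1 := by
      refine hsq _ (norm_nonneg _) ?_
      rw [← hXL]
      refine (phJ_cauchy G X eu ev _ hwb n).trans (mul_le_mul ?_ hEv (hn0' _) (by positivity))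
      refine hEu.trans ((div_le_self hX0.le (one_le_pow₀ (by linarith))).trans ?_)
      exact le_mul_of_one_le_right hX0.le (one_le_pow₀ (by linarith))
    have hE1 : 1 ≤ X / L ^ A1 := by
      rw [le_div_iff₀ (by positivity), one_mul]
      exact hLm
    have htot : ‖PhI G ww gg X w (tr G X (upI ww gg X w)) (fun _ => 1) n‖ ≤ 6 * (X / L ^ A1) := by
      rw [hone, hJ, hV]
      have h5 : ‖PhI G ww gg X w (tr G X (upI ww gg X w)) (fun j => 1 - wSI G th e X Λ bb j) n‖ ≤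
          1 + X / L ^ A1 := by
        have h6 : PhI G ww gg X w (tr G X (upI ww gg X w)) (fun j => 1 - wSI G th e X Λ bb j) n =
            (PhI G ww gg X w (tr G X (upI ww gg X w)) (fun j => 1 - wSI G th e X Λ bb j) n -
              ∑ q ∈ QQi th e X Λ, dsc (FFI ww gg w X n) X q (rdi th e X Λ bb q)) +
            ∑ q ∈ QQi th e X Λ, dsc (FFI ww gg w X n) X q (rdi th e X Λ bb q) := by ring
        rw [h6]
        exact (norm_add_le _ _).trans (add_le_add hph hdisc)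
      refine (norm_add_le _ _).trans ?_
      have h7 : ‖PhJ G X us vs (wSI G th e X Λ bb) n +
          PhJ G X (uI ww gg X w) ev (wSI G th e X Λ bb) n +
          PhJ G X eu (upI ww gg X w) (wSI G th e X Λ bb) n -
          PhJ G X eu ev (wSI G th e X Λ bb) n‖ ≤
          ‖PhJ G X us vs (wSI G th e X Λ bb) n‖ +
          ‖PhJ G X (uI ww gg X w) ev (wSI G th e X Λ bb) n‖ +
          ‖PhJ G X eu (upI ww gg X w) (wSI G th e X Λ bb) n‖ +
          ‖PhJ G X eu ev (wSI G th e X Λ bb) n‖ :=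
        (norm_sub_le _ _).trans (add_le_add norm_add₃_le le_rfl)
      linarith
    rw [hrep, Complex.norm_real, Real.norm_eq_abs] at htot
    rw [← hw]
    refine htot.trans ?_
    have h8 : L ^ A1 = L ^ 2 * L ^ A := by
      rw [hA1]
      ring
    rw [h8, mul_div_assoc', div_le_div_iff₀ (by positivity) (by positivity)]
    have h9 : 6 ≤ L ^ 2 := by nlinarith
    have h10 : 0 ≤ X * L ^ A := by positivity
    calc 6 * (X : ℝ) * L ^ A = 6 * (X * L ^ A) := by ring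
      _ ≤ L ^ 2 * (X * L ^ A) := mul_le_mul_of_nonneg_right h9 h10
      _ = X * (L ^ 2 * L ^ A) := by ring

end Pool.MP_dd84fd_nt.JX
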