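import Pool.Agent.Lib.MP_dd84fd_nt.JX.VlB
import Pool.Agent.Lib.MP_dd84fd_nt.LS.Four
import Pool.Agent.Lib.MP_dd84fd_nt.L2G.MinSum

/-!
# JX-Vlem: the V-lemma

`V(j) = Σ_{m ∈ (N, 2N]} Σ_{k ≤ K} a_m c_k χ(m k j)`; `O` = points `j` close to two different fractions
with denominators `q, q'` within `δ` (in the sense `‖q α‖, ‖q' α‖ ≤ δ`). Then
`(1/G) Σ_{j ∈ O} |V(j)|² ≤ C A⁴ T (1 + N δ)² K (1 + log X)`.

Proof. `S = (1/G) Σ_O |V|²`; `S² ≤ K A⁴ (1/G²) Σ_{j, j' ∈ O} |V_j| |V_j'| Bker K N (α_j, α_j') ≤ K A⁴ S B`, `B` = the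
supremum over `j ∈ O` of `(1/G) Σ_{j' ∈ O} Bker K N (α_j, α_j')`, bounded by `vl_fix`, `vl_gcd`.
-/

set_option autoImplicit false

namespace Pool.MP_dd84fd_nt.JX

open Finset Pool.MP_67663b_nt.Odd Pool.MP_dd84fd_nt.En Pool.MP_dd84fd_nt.E2 Pool.MP_dd84fd_nt.LS
open Pool.MP_dd84fd_nt.L2G (nrm)
open Pool.MP_dd84fd_nt.GX

private theorem vl_mn (M I : ℕ) (hMI : M ≤ 2 ^ I) (t : ℝ) :
    L2G.mn M t ≤ ∑ i ∈ range (I + 1), if nrm t ≤ 1 / (2 : ℝ) ^ i then (2 : ℝ) ^ i else 0 := by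
  have hnn : ∀ i ∈ range (I + 1), (0 : ℝ) ≤ if nrm t ≤ 1 / (2 : ℝ) ^ i then (2 : ℝ) ^ i else 0 := by
    intro i _
    split_ifs
    · positivity
    · exact le_rfl
  have hterm : ∀ i ∈ range (I + 1), nrm t ≤ 1 / (2 : ℝ) ^ i → (2 : ℝ) ^ i ≤
      ∑ i ∈ range (I + 1), if nrm t ≤ 1 / (2 : ℝ) ^ i then (2 : ℝ) ^ i else 0 := by
    intro i hi h
    have h1 := Finset.single_le_sum hnn hi
    rw [if_pos h] at h1
    exact h1
  have hMI' : (M : ℝ) ≤ 2 ^ I := by exact_mod_cast hMI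
  by_cases hI : nrm t ≤ 1 / (2 : ℝ) ^ I
  · refine le_trans ?_ (hterm I (by simp) hI)
    exact (L2G.mn_le M t (by positivity)).trans hMI'
  · have hex : ∃ i : ℕ, ¬ nrm t ≤ 1 / (2 : ℝ) ^ i := ⟨I, hI⟩
    classical
    have h1 := Nat.find_spec hex
    have h2 : Nat.find hex ≤ I := Nat.find_min' hex hI
    have h0 : Nat.find hex ≠ 0 := by
      intro h0
      rw [h0] at h1
      apply h1
      have h3 : nrm t ≤ 1 / 2 := abs_sub_round t
      rw [pow_zero]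
      linarith
    obtain ⟨k, hk⟩ := Nat.exists_eq_succ_of_ne_zero h0
    have h3 : nrm t ≤ 1 / (2 : ℝ) ^ k := by
      by_contra h3
      have := Nat.find_min' hex h3
      omega
    refine le_trans ?_ (hterm k (by simp; omega) h3)
    rw [hk] at h1
    push Not at h1
    have h4 : 0 < nrm t := lt_trans (by positivity) h1
    have h5 : L2G.mn M t ≤ 1 / (2 * nrm t) := by
      unfold L2G.mn
      split_ifs with h
      · rw [le_div_iff₀ (by positivity)]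
        linarith
      · exact le_rfl
    refine h5.trans ?_
    rw [div_le_iff₀ (by positivity)]
    rw [div_lt_iff₀ (by positivity), pow_succ] at h1
    linarith

private theorem vl_conj_ee (x : ℝ) : (starRingEnd ℂ) (ee x) = ee (-x) := by
  unfold ee
  rw [← Complex.exp_conj]
  congr 1
  have h2 : (starRingEnd ℂ) (2 : ℂ) = 2 := Complex.conj_ofNat 2
  rw [map_mul, map_mul, map_mul, h2, Complex.conj_ofReal, Complex.conj_ofReal, Complex.conj_I]
  push_cast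
  ring

private theorem vl_dual {ι : Type} (P : Finset ι) (w : ι → ℂ) (φ : ι → ℝ) (K : ℕ) :
    ∑ l ∈ Ioc 0 K, ‖∑ p ∈ P, w p * ee ((l : ℝ) * φ p)‖ ^ 2 ≤
      ∑ p ∈ P, ∑ p' ∈ P, ‖w p‖ * ‖w p'‖ * L2G.mn K (φ p - φ p') := by
  have h1 : ((∑ l ∈ Ioc 0 K, ‖∑ p ∈ P, w p * ee ((l : ℝ) * φ p)‖ ^ 2 : ℝ) : ℂ) =
      ∑ p ∈ P, ∑ p' ∈ P, w p * (starRingEnd ℂ) (w p') *
        ∑ l ∈ Ioc 0 K, ee ((l : ℝ) * (φ p - φ p')) := by
    push_cast
    have h2 : ∀ l ∈ Ioc 0 K, ((‖∑ p ∈ P, w p * ee ((l : ℝ) * φ p)‖ : ℂ)) ^ 2 =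
        ∑ p ∈ P, ∑ p' ∈ P, w p * (starRingEnd ℂ) (w p') *
          ee ((l : ℝ) * (φ p - φ p')) := by
      intro l _
      rw [← Complex.mul_conj', map_sum, Finset.sum_mul_sum]
      refine Finset.sum_congr rfl fun p _ => Finset.sum_congr rfl fun p' _ => ?_
      rw [map_mul, vl_conj_ee]
      have e1 : (l : ℝ) * (φ p - φ p') = (l : ℝ) * φ p + -((l : ℝ) * φ p') := by ring
      rw [e1, ee_add]
      ring
    rw [Finset.sum_congr rfl h2, Finset.sum_comm]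
    refine Finset.sum_congr rfl fun p _ => ?_
    rw [Finset.sum_comm]
    refine Finset.sum_congr rfl fun p' _ => ?_
    rw [Finset.mul_sum]
  have h0 : 0 ≤ ∑ l ∈ Ioc 0 K, ‖∑ p ∈ P, w p * ee ((l : ℝ) * φ p)‖ ^ 2 :=
    Finset.sum_nonneg fun l _ => sq_nonneg _
  have h3 : ‖((∑ l ∈ Ioc 0 K, ‖∑ p ∈ P, w p * ee ((l : ℝ) * φ p)‖ ^ 2 : ℝ) : ℂ)‖ =
      ∑ l ∈ Ioc 0 K, ‖∑ p ∈ P, w p * ee ((l : ℝ) * φ p)‖ ^ 2 := by
    rw [Complex.norm_real, Real.norm_eq_abs, abs_of_nonneg h0]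
  rw [← h3, h1]
  refine (norm_sum_le _ _).trans (Finset.sum_le_sum fun p hp => ?_)
  refine (norm_sum_le _ _).trans (Finset.sum_le_sum fun p' hp' => ?_)
  rw [norm_mul, norm_mul, RCLike.norm_conj]
  refine mul_le_mul_of_nonneg_left ?_ (by positivity)
  exact L2G.geo_sum 0 K K (φ p - φ p') (by simp) (Nat.cast_nonneg _)

/-- the block -/
noncomputable def bl (G : ℕ) [NeZero G] (N K : ℕ) (a c : ℕ → ℂ) (j : ZMod G) : ℂ :=
  ∑ m ∈ Ioc N (2 * N), ∑ k ∈ Icc 1 K, a m * c k * ZMod.stdAddChar (((m * k : ℕ) : ZMod G) * j)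

theorem bker_symm (K N : ℕ) (α α' : ℝ) : Bker K N α α' = Bker K N α' α := by
  unfold Bker
  rw [Finset.sum_comm]
  refine Finset.sum_congr rfl fun s _ => Finset.sum_congr rfl fun s' _ => ?_
  have h : nrm ((s' : ℝ) * α - s * α') = nrm ((s : ℝ) * α' - s' * α) := by
    rw [show (s' : ℝ) * α - s * α' = -(s * α' - s' * α) by ring, relcnt_nrm_neg]
  unfold L2G.mn
  rw [h]

theorem bker_nonneg (K N : ℕ) (α α' : ℝ) : 0 ≤ Bker K N α α' :=
  Finset.sum_nonneg fun _ _ => Finset.sum_nonneg fun _ _ => L2G.mn_nonneg _ _ (Nat.cast_nonneg _)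

/-- the double sum in Cauchy-Schwarz -/
theorem vl_cs (G : ℕ) [NeZero G] (x : ZMod G → ℂ) (N K : ℕ) (a c : ℕ → ℂ) (A : ℝ) (hA : 0 ≤ A)
    (ha : ∀ n, ‖a n‖ ≤ A) (hc : ∀ n, ‖c n‖ ≤ A) :
    ‖(1 / (G : ℂ)) * ∑ j : ZMod G, x j * bl G N K a c j‖ ^ 2 ≤
      (K : ℝ) * A ^ 4 * ((1 / (G : ℝ)) ^ 2 * ∑ j : ZMod G, ∑ j' : ZMod G,
        ‖x j‖ * ‖x j'‖ * Bker K N (al G j) (al G j')) := by
  classical
  set P : Finset (ℕ × ZMod G) := Ioc N (2 * N) ×ˢ (univ : Finset (ZMod G)) with hP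
  set w : ℕ × ZMod G → ℂ := fun p => (1 / (G : ℂ)) * (a p.1 * x p.2) with hw
  set φ : ℕ × ZMod G → ℝ := fun p => (p.1 : ℝ) * al G p.2 with hφ
  have hT : (1 / (G : ℂ)) * ∑ j : ZMod G, x j * bl G N K a c j =
      ∑ k ∈ Ioc 0 K, c k * ∑ p ∈ P, w p * ee ((k : ℝ) * φ p) := by
    have hIcc : Icc 1 K = Ioc 0 K := by ext k; simp [Finset.mem_Icc, Finset.mem_Ioc]; omega
    unfold bl
    rw [hIcc, hP]
    simp only [Finset.sum_product, Finset.mul_sum]
    rw [Finset.sum_comm]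
    have e1 : ∀ m ∈ Ioc N (2 * N), ∑ j : ZMod G, ∑ k ∈ Ioc 0 K, 1 / (G : ℂ) * (x j * (a m * c k *
        ZMod.stdAddChar (((m * k : ℕ) : ZMod G) * j))) = ∑ k ∈ Ioc 0 K, ∑ j : ZMod G,
        c k * (w (m, j) * ee ((k : ℝ) * φ (m, j))) := by
      intro m _
      rw [Finset.sum_comm]
      refine Finset.sum_congr rfl fun k _ => Finset.sum_congr rfl fun j _ => ?_
      rw [chi_ee]
      have e2 : ((m * k : ℕ) : ℝ) * ((j.val : ℝ) / G) = (k : ℝ) * φ (m, j) := by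
        rw [hφ]
        simp only
        unfold al
        push_cast
        ring
      rw [e2, hw]
      simp only
      ring
    rw [Finset.sum_congr rfl e1, Finset.sum_comm]
  rw [hT]
  have hCS : ‖∑ k ∈ Ioc 0 K, c k * ∑ p ∈ P, w p * ee ((k : ℝ) * φ p)‖ ^ 2 ≤
      (K : ℝ) * A ^ 2 * ∑ k ∈ Ioc 0 K, ‖∑ p ∈ P, w p * ee ((k : ℝ) * φ p)‖ ^ 2 := by
    have h1 : ‖∑ k ∈ Ioc 0 K, c k * ∑ p ∈ P, w p * ee ((k : ℝ) * φ p)‖ ≤
        ∑ k ∈ Ioc 0 K, A * ‖∑ p ∈ P, w p * ee ((k : ℝ) * φ p)‖ := by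
      refine (norm_sum_le _ _).trans (Finset.sum_le_sum fun k _ => ?_)
      rw [norm_mul]
      exact mul_le_mul_of_nonneg_right (hc k) (norm_nonneg _)
    refine (pow_le_pow_left₀ (norm_nonneg _) h1 2).trans ?_
    rw [← Finset.mul_sum, mul_pow]
    have h2 : (∑ k ∈ Ioc 0 K, ‖∑ p ∈ P, w p * ee ((k : ℝ) * φ p)‖) ^ 2 ≤
        (K : ℝ) * ∑ k ∈ Ioc 0 K, ‖∑ p ∈ P, w p * ee ((k : ℝ) * φ p)‖ ^ 2 := by
      refine sq_sum_le_card_mul_sum_sq.trans ?_
      rw [Nat.card_Ioc, Nat.sub_zero]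
    calc A ^ 2 * (∑ k ∈ Ioc 0 K, ‖∑ p ∈ P, w p * ee ((k : ℝ) * φ p)‖) ^ 2
        ≤ A ^ 2 * ((K : ℝ) * ∑ k ∈ Ioc 0 K, ‖∑ p ∈ P, w p * ee ((k : ℝ) * φ p)‖ ^ 2) :=
          mul_le_mul_of_nonneg_left h2 (by positivity)
      _ = _ := by ring
  refine hCS.trans ?_
  have hmn : ∀ y : ℝ, 0 ≤ L2G.mn K y := fun y => L2G.mn_nonneg _ _ (Nat.cast_nonneg _)
  have hwn : ∀ p : ℕ × ZMod G, ‖w p‖ ≤ (1 / (G : ℝ)) * (A * ‖x p.2‖) := by
    intro p
    rw [hw]
    simp only [norm_mul, norm_div, norm_one, Complex.norm_natCast]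
    refine mul_le_mul_of_nonneg_left ?_ (by positivity)
    exact mul_le_mul_of_nonneg_right (ha p.1) (norm_nonneg _)
  have hfin : ∑ k ∈ Ioc 0 K, ‖∑ p ∈ P, w p * ee ((k : ℝ) * φ p)‖ ^ 2 ≤
      A ^ 2 * ((1 / (G : ℝ)) ^ 2 * ∑ j : ZMod G, ∑ j' : ZMod G,
        ‖x j‖ * ‖x j'‖ * Bker K N (al G j) (al G j')) := by
    refine (vl_dual P w φ K).trans ?_
    calc ∑ p ∈ P, ∑ p' ∈ P, ‖w p‖ * ‖w p'‖ * L2G.mn K (φ p - φ p')
        ≤ ∑ p ∈ P, ∑ p' ∈ P, ((1 / (G : ℝ)) * (A * ‖x p.2‖)) * ((1 / (G : ℝ)) * (A * ‖x p'.2‖)) *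
            L2G.mn K (φ p - φ p') := by
          refine Finset.sum_le_sum fun p _ => Finset.sum_le_sum fun p' _ => ?_
          refine mul_le_mul_of_nonneg_right ?_ (hmn _)
          exact mul_le_mul (hwn p) (hwn p') (norm_nonneg _) (by positivity)
      _ = A ^ 2 * ((1 / (G : ℝ)) ^ 2 * ∑ j : ZMod G, ∑ j' : ZMod G,
          ‖x j‖ * ‖x j'‖ * Bker K N (al G j) (al G j')) := by
          rw [hP, Finset.sum_product, Finset.sum_comm, Finset.mul_sum, Finset.mul_sum]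
          refine Finset.sum_congr rfl fun j _ => ?_
          simp only [Finset.sum_product]
          have e1 : ∀ s ∈ Ioc N (2 * N), ∑ s' ∈ Ioc N (2 * N), ∑ j' : ZMod G,
              ((1 / (G : ℝ)) * (A * ‖x j‖)) * ((1 / (G : ℝ)) * (A * ‖x j'‖)) *
                L2G.mn K (φ (s, j) - φ (s', j')) =
              ∑ j' : ZMod G, ∑ s' ∈ Ioc N (2 * N),
              ((1 / (G : ℝ)) * (A * ‖x j‖)) * ((1 / (G : ℝ)) * (A * ‖x j'‖)) *
                L2G.mn K (φ (s, j) - φ (s', j')) :=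
            fun s _ => Finset.sum_comm
          rw [Finset.sum_congr rfl e1, Finset.sum_comm, Finset.mul_sum, Finset.mul_sum]
          refine Finset.sum_congr rfl fun j' _ => ?_
          unfold Bker
          rw [Finset.mul_sum, Finset.mul_sum, Finset.mul_sum]
          refine Finset.sum_congr rfl fun s _ => ?_
          rw [Finset.mul_sum, Finset.mul_sum, Finset.mul_sum]
          refine Finset.sum_congr rfl fun s' _ => ?_
          simp only [hφ]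
          ring
  calc (K : ℝ) * A ^ 2 * ∑ k ∈ Ioc 0 K, ‖∑ p ∈ P, w p * ee ((k : ℝ) * φ p)‖ ^ 2
      ≤ (K : ℝ) * A ^ 2 * (A ^ 2 * ((1 / (G : ℝ)) ^ 2 * ∑ j : ZMod G, ∑ j' : ZMod G,
        ‖x j‖ * ‖x j'‖ * Bker K N (al G j) (al G j'))) :=
        mul_le_mul_of_nonneg_left hfin (by positivity)
    _ = _ := by ring

/-- the kernel sum for a point of `O` -/
theorem vl_B (X G N K : ℕ) [NeZero G] (hX : 1 ≤ X) (hG : 4 * X ^ 2 ≤ G) (hN : 1 ≤ N)
    (hNX : N ≤ X) (hK : 1 ≤ K) (hKX : K ≤ X) (q q' : ℕ) (hq : q ≤ X) (hq' : q' ≤ X) (δ α T : ℝ)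
    (h1 : nrm (q * α) ≤ δ) (h2 : nrm (q' * α) ≤ δ) (h3 : Int.gcd (round (q * α)) q = 1)
    (h4 : round (q * α) * q' - round (q' * α) * q ≠ 0)
    (hT : ∀ v : ℕ, 1 ≤ v → v ≤ X → (v.divisors.card : ℝ) ≤ T) (O : Finset (ZMod G))
    (hO : ∀ j ∈ O, nrm (q * al G j) ≤ δ ∧ nrm (q' * al G j) ≤ δ) :
    (1 / (G : ℝ)) * ∑ j ∈ O, Bker K N α (al G j) ≤
      4096 * T * (1 + N * δ) ^ 2 * (1 + Real.log X) := by
  classical
  have hδ : 0 ≤ δ := (abs_nonneg _).trans h1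
  have hX0 : (0 : ℝ) < X := by exact_mod_cast hX
  have hG0 : (0 : ℝ) < G := by
    have : 0 < G := Nat.pos_of_ne_zero (NeZero.ne G)
    exact_mod_cast this
  have hT1 : 1 ≤ T := by
    have := hT 1 le_rfl hX
    simpa using this
  set v : ℕ := (round (q * α) * q' - round (q' * α) * q).natAbs with hv
  have hv0 : 0 < v := Int.natAbs_pos.2 h4
  have hvX : v ≤ X := by
    have e1 : ((round ((q : ℝ) * α) * q' - round ((q' : ℝ) * α) * q : ℤ) : ℝ) =
        (q' * α - round ((q' : ℝ) * α)) * q - (q * α - round ((q : ℝ) * α)) * q' := by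
      push_cast
      ring
    have a1 : |(q' : ℝ) * α - round ((q' : ℝ) * α)| ≤ 1 / 2 := abs_sub_round _
    have a2 : |(q : ℝ) * α - round ((q : ℝ) * α)| ≤ 1 / 2 := abs_sub_round _
    have a3 : (q : ℝ) ≤ X := by exact_mod_cast hq
    have a4 : (q' : ℝ) ≤ X := by exact_mod_cast hq'
    have e2 : |((round ((q : ℝ) * α) * q' - round ((q' : ℝ) * α) * q : ℤ) : ℝ)| ≤ X := by
      rw [e1]
      refine (abs_sub _ _).trans ?_
      rw [abs_mul, abs_mul, Nat.abs_cast, Nat.abs_cast]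
      have b1 : |(q' : ℝ) * α - round ((q' : ℝ) * α)| * q ≤ 1 / 2 * X :=
        mul_le_mul a1 a3 (Nat.cast_nonneg _) (by norm_num)
      have b2 : |(q : ℝ) * α - round ((q : ℝ) * α)| * q' ≤ 1 / 2 * X :=
        mul_le_mul a2 a4 (Nat.cast_nonneg _) (by norm_num)
      linarith
    have e3 : ((v : ℤ) : ℝ) ≤ ((X : ℤ) : ℝ) := by
      rw [hv, Int.natCast_natAbs, Int.cast_abs]
      push_cast at e2 ⊢
      exact e2
    exact_mod_cast e3
  set I : ℕ := Nat.log 2 K + 1 with hI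
  have hKI : K ≤ 2 ^ I := (Nat.lt_pow_succ_log_self (by norm_num) K).le
  have hI2 : 2 ^ I ≤ 2 * K := by
    have := Nat.pow_log_le_self 2 (x := K) (by omega)
    rw [hI, pow_succ]
    omega
  set W : ℝ := 16 * (8 * N * δ + 2) ^ 2 * G with hW
  have hW0 : 0 ≤ W := by positivity
  have hcount : ∀ i ∈ range (I + 1), ∀ s' ∈ Ioc N (2 * N), (2 : ℝ) ^ i *
      ((((Ioc N (2 * N)) ×ˢ O).filter (fun z : ℕ × ZMod G =>
        nrm ((z.1 : ℝ) * α - (s' : ℝ) * al G z.2) ≤ 1 / (2 : ℝ) ^ i)).card : ℝ) ≤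
      W * ((Nat.gcd v s' : ℝ) / s') := by
    intro i hi s' hs'
    rw [Finset.mem_Ioc] at hs'
    have hi' : i ≤ I := by
      have := Finset.mem_range.1 hi
      omega
    have h2i : (2 : ℝ) ^ i ≤ 2 * X := by
      have : 2 ^ i ≤ 2 * X := (Nat.pow_le_pow_right (by norm_num) hi').trans
        (hI2.trans (by omega))
      exact_mod_cast this
    have h5 := vl_fix X G N s' hX hG hNX hs'.1 hs'.2 q q' hq hq' δ α (1 / (2 : ℝ) ^ i)
      (one_div_le_one_div_of_le (by positivity) h2i) h1 h2 h3 O hO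
    rw [← hv] at h5
    have h6 := mul_le_mul_of_nonneg_left h5 (show (0 : ℝ) ≤ 2 ^ i by positivity)
    refine h6.trans (le_of_eq ?_)
    rw [hW]
    have h7 : (2 : ℝ) ^ i ≠ 0 := by positivity
    field_simp
  have hmain : ∑ j ∈ O, Bker K N α (al G j) ≤ (I + 1) * (W * (2 * T)) := by
    have h5 : ∑ j ∈ O, Bker K N α (al G j) ≤ ∑ j ∈ O, ∑ s ∈ Ioc N (2 * N), ∑ s' ∈ Ioc N (2 * N),
        ∑ i ∈ range (I + 1), if nrm ((s : ℝ) * α - (s' : ℝ) * al G j) ≤ 1 / (2 : ℝ) ^ i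
          then (2 : ℝ) ^ i else 0 := by
      refine Finset.sum_le_sum fun j _ => ?_
      unfold Bker
      exact Finset.sum_le_sum fun s _ => Finset.sum_le_sum fun s' _ => vl_mn K I hKI _
    have h6 : ∑ j ∈ O, ∑ s ∈ Ioc N (2 * N), ∑ s' ∈ Ioc N (2 * N),
        ∑ i ∈ range (I + 1), (if nrm ((s : ℝ) * α - (s' : ℝ) * al G j) ≤ 1 / (2 : ℝ) ^ i
          then (2 : ℝ) ^ i else 0) = ∑ i ∈ range (I + 1), ∑ s' ∈ Ioc N (2 * N), (2 : ℝ) ^ i *
      ((((Ioc N (2 * N)) ×ˢ O).filter (fun z : ℕ × ZMod G =>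
        nrm ((z.1 : ℝ) * α - (s' : ℝ) * al G z.2) ≤ 1 / (2 : ℝ) ^ i)).card : ℝ) := by
      have e1 : ∀ j ∈ O, ∑ s ∈ Ioc N (2 * N), ∑ s' ∈ Ioc N (2 * N),
        ∑ i ∈ range (I + 1), (if nrm ((s : ℝ) * α - (s' : ℝ) * al G j) ≤ 1 / (2 : ℝ) ^ i
          then (2 : ℝ) ^ i else 0) = ∑ i ∈ range (I + 1), ∑ s' ∈ Ioc N (2 * N),
          ∑ s ∈ Ioc N (2 * N), (if nrm ((s : ℝ) * α - (s' : ℝ) * al G j) ≤ 1 / (2 : ℝ) ^ i
          then (2 : ℝ) ^ i else 0) := by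
        intro j _
        have e2 : ∀ s ∈ Ioc N (2 * N), ∑ s' ∈ Ioc N (2 * N),
          ∑ i ∈ range (I + 1), (if nrm ((s : ℝ) * α - (s' : ℝ) * al G j) ≤ 1 / (2 : ℝ) ^ i
            then (2 : ℝ) ^ i else 0) = ∑ i ∈ range (I + 1), ∑ s' ∈ Ioc N (2 * N),
            (if nrm ((s : ℝ) * α - (s' : ℝ) * al G j) ≤ 1 / (2 : ℝ) ^ i
            then (2 : ℝ) ^ i else 0) := fun s _ => Finset.sum_comm
        rw [Finset.sum_congr rfl e2, Finset.sum_comm]
        exact Finset.sum_congr rfl fun i _ => Finset.sum_comm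
      rw [Finset.sum_congr rfl e1, Finset.sum_comm]
      refine Finset.sum_congr rfl fun i _ => ?_
      rw [Finset.sum_comm]
      refine Finset.sum_congr rfl fun s' _ => ?_
      rw [Finset.sum_comm, ← Finset.sum_product', ← Finset.sum_filter, Finset.sum_const,
        nsmul_eq_mul, mul_comm]
    refine h5.trans ?_
    rw [h6]
    refine (Finset.sum_le_sum fun i hi => Finset.sum_le_sum fun s' hs' => hcount i hi s' hs').trans ?_
    rw [Finset.sum_const, Finset.card_range, nsmul_eq_mul, ← Finset.mul_sum]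
    push_cast
    refine mul_le_mul_of_nonneg_left (mul_le_mul_of_nonneg_left ?_ hW0) (by positivity)
    refine (vl_gcd N v hN hv0).trans ?_
    have := hT v hv0 hvX
    linarith
  have hI3 : ((I : ℝ) + 1) ≤ 2 * (1 + Real.log X) := by
    have h5 : (2 : ℝ) ^ (Nat.log 2 K) ≤ X := by
      have h6 : 2 ^ Nat.log 2 K ≤ X := (Nat.pow_log_le_self 2 (x := K) (by omega)).trans hKX
      exact_mod_cast h6
    have h7 := Real.log_le_log (by positivity) h5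
    rw [Real.log_pow] at h7
    have h8 := Real.log_two_gt_d9
    have h9 : (0 : ℝ) ≤ (Nat.log 2 K : ℕ) := by positivity
    rw [hI]
    push_cast
    nlinarith
  have hlog : 0 ≤ Real.log X := Real.log_nonneg (by exact_mod_cast hX)
  calc (1 / (G : ℝ)) * ∑ j ∈ O, Bker K N α (al G j)
      ≤ (1 / (G : ℝ)) * ((I + 1) * (W * (2 * T))) :=
        mul_le_mul_of_nonneg_left hmain (by positivity)
    _ = (I + 1) * (32 * (8 * N * δ + 2) ^ 2 * T) := by
        rw [hW]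
        field_simp
        ring
    _ ≤ (2 * (1 + Real.log X)) * (32 * (8 * (1 + N * δ)) ^ 2 * T) := by
        refine mul_le_mul hI3 ?_ (by positivity) (by positivity)
        refine mul_le_mul_of_nonneg_right ?_ (by linarith)
        refine mul_le_mul_of_nonneg_left ?_ (by norm_num)
        refine pow_le_pow_left₀ (by positivity) ?_ 2
        nlinarith [show 0 ≤ (N : ℝ) * δ by positivity]
    _ = _ := by ring

/-- the V-lemma -/
theorem vlem (X G N K : ℕ) [NeZero G] (hX : 1 ≤ X) (hG : 4 * X ^ 2 ≤ G) (hN : 1 ≤ N)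
    (hNX : N ≤ X) (hK : 1 ≤ K) (hKX : K ≤ X) (q q' : ℕ) (hq : q ≤ X) (hq' : q' ≤ X)
    (δ A T : ℝ) (hA : 0 ≤ A) (a c : ℕ → ℂ) (ha : ∀ n, ‖a n‖ ≤ A) (hc : ∀ n, ‖c n‖ ≤ A)
    (O : Finset (ZMod G))
    (hO : ∀ j ∈ O, nrm (q * al G j) ≤ δ ∧ nrm (q' * al G j) ≤ δ ∧
      Int.gcd (round (q * al G j)) q = 1 ∧
      round (q * al G j) * q' - round (q' * al G j) * q ≠ 0)
    (hT : ∀ v : ℕ, 1 ≤ v → v ≤ X → (v.divisors.card : ℝ) ≤ T) :
    (1 / (G : ℝ)) * ∑ j ∈ O, ‖bl G N K a c j‖ ^ 2 ≤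
      4096 * A ^ 4 * T * (1 + N * δ) ^ 2 * K * (1 + Real.log X) := by
  classical
  have hG0 : (0 : ℝ) < G := by
    have : 0 < G := Nat.pos_of_ne_zero (NeZero.ne G)
    exact_mod_cast this
  have hT1 : 1 ≤ T := by
    have := hT 1 le_rfl hX
    simpa using this
  have hlog : 0 ≤ Real.log X := Real.log_nonneg (by exact_mod_cast hX)
  rcases O.eq_empty_or_nonempty with he | ⟨j0, hj0⟩
  · rw [he]
    simp only [Finset.sum_empty, mul_zero]
    have h8 : 0 ≤ 4096 * A ^ 4 * T := by positivity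
    positivity
  set B : ℝ := 4096 * T * (1 + N * δ) ^ 2 * (1 + Real.log X) with hB
  have hB0 : 0 ≤ B := by positivity
  set S : ℝ := (1 / (G : ℝ)) * ∑ j ∈ O, ‖bl G N K a c j‖ ^ 2 with hS
  have hS0 : 0 ≤ S := by positivity
  set x : ZMod G → ℂ := fun j => if j ∈ O then (starRingEnd ℂ) (bl G N K a c j) else 0 with hx
  have hxn : ∀ j, ‖x j‖ = if j ∈ O then ‖bl G N K a c j‖ else 0 := by
    intro j
    rw [hx]
    simp only
    split_ifs
    · rw [RCLike.norm_conj]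
    · rw [norm_zero]
  have e1 : ‖(1 / (G : ℂ)) * ∑ j : ZMod G, x j * bl G N K a c j‖ = S := by
    have e2 : (1 / (G : ℂ)) * ∑ j : ZMod G, x j * bl G N K a c j = ((S : ℝ) : ℂ) := by
      rw [hS]
      push_cast
      congr 1
      have e3 : ∀ j : ZMod G, x j * bl G N K a c j =
          if j ∈ O then ((‖bl G N K a c j‖ : ℂ)) ^ 2 else 0 := by
        intro j
        rw [hx]
        simp only
        split_ifs
        · rw [← Complex.conj_mul']
        · rw [zero_mul]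
      rw [Finset.sum_congr rfl fun j _ => e3 j, Finset.sum_ite_mem, Finset.univ_inter]
    rw [e2, Complex.norm_real, Real.norm_of_nonneg hS0]
  have h1 := vl_cs G x N K a c A hA ha hc
  rw [e1] at h1
  have h2 : (1 / (G : ℝ)) ^ 2 * ∑ j : ZMod G, ∑ j' : ZMod G,
        ‖x j‖ * ‖x j'‖ * Bker K N (al G j) (al G j') ≤ S * B := by
    have h3 : ∀ j j' : ZMod G, ‖x j‖ * ‖x j'‖ * Bker K N (al G j) (al G j') ≤
        (1 / 2) * ((if j ∈ O then ‖bl G N K a c j‖ ^ 2 else 0) *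
          (if j' ∈ O then Bker K N (al G j) (al G j') else 0)) +
        (1 / 2) * ((if j' ∈ O then ‖bl G N K a c j'‖ ^ 2 else 0) *
          (if j ∈ O then Bker K N (al G j') (al G j) else 0)) := by
      intro j j'
      rw [hxn, hxn]
      by_cases hj : j ∈ O
      · by_cases hj' : j' ∈ O
        · simp only [if_pos hj, if_pos hj']
          rw [← bker_symm K N (al G j) (al G j')]
          have h5 := bker_nonneg K N (al G j) (al G j')
          have h6 : ‖bl G N K a c j‖ * ‖bl G N K a c j'‖ ≤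
              (1 / 2) * ‖bl G N K a c j‖ ^ 2 + (1 / 2) * ‖bl G N K a c j'‖ ^ 2 := by
            nlinarith [sq_nonneg (‖bl G N K a c j‖ - ‖bl G N K a c j'‖)]
          have h7 := mul_le_mul_of_nonneg_right h6 h5
          linarith
        · simp only [if_pos hj, if_neg hj']
          simp
      · simp only [if_neg hj]
        simp
    have h4 : ∑ j : ZMod G, ∑ j' : ZMod G, ((1 / 2) * ((if j ∈ O then ‖bl G N K a c j‖ ^ 2 else 0) *
          (if j' ∈ O then Bker K N (al G j) (al G j') else 0)) +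
        (1 / 2) * ((if j' ∈ O then ‖bl G N K a c j'‖ ^ 2 else 0) *
          (if j ∈ O then Bker K N (al G j') (al G j) else 0))) =
        ∑ j ∈ O, ‖bl G N K a c j‖ ^ 2 * ∑ j' ∈ O, Bker K N (al G j) (al G j') := by
      simp only [Finset.sum_add_distrib, ← Finset.mul_sum]
      rw [Finset.sum_comm (f := fun j j' => (if j' ∈ O then ‖bl G N K a c j'‖ ^ 2 else 0) *
          (if j ∈ O then Bker K N (al G j') (al G j) else 0))]
      simp only [← Finset.mul_sum, Finset.sum_ite_mem, Finset.univ_inter]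
      have h5 : ∑ j : ZMod G, (if j ∈ O then ‖bl G N K a c j‖ ^ 2 else 0) *
          ∑ j' ∈ O, Bker K N (al G j) (al G j') =
          ∑ j ∈ O, ‖bl G N K a c j‖ ^ 2 * ∑ j' ∈ O, Bker K N (al G j) (al G j') := by
        simp only [ite_mul, zero_mul, Finset.sum_ite_mem, Finset.univ_inter]
      rw [h5]
      ring
    have h5 : ∀ j ∈ O, ∑ j' ∈ O, Bker K N (al G j) (al G j') ≤ G * B := by
      intro j hj
      obtain ⟨g1, g2, g3, g4⟩ := hO j hj
      have h6 := vl_B X G N K hX hG hN hNX hK hKX q q' hq hq' δ (al G j) T g1 g2 g3 g4 hT O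
        (fun j' hj' => ⟨(hO j' hj').1, (hO j' hj').2.1⟩)
      rw [← hB, one_div, inv_mul_le_iff₀ hG0] at h6
      exact h6
    have h6 : ∑ j : ZMod G, ∑ j' : ZMod G, ‖x j‖ * ‖x j'‖ * Bker K N (al G j) (al G j') ≤
        ∑ j ∈ O, ‖bl G N K a c j‖ ^ 2 * (G * B) := by
      refine (Finset.sum_le_sum fun j _ => Finset.sum_le_sum fun j' _ => h3 j j').trans ?_
      rw [h4]
      exact Finset.sum_le_sum fun j hj => mul_le_mul_of_nonneg_left (h5 j hj) (by positivity)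
    refine (mul_le_mul_of_nonneg_left h6 (by positivity)).trans (le_of_eq ?_)
    rw [← Finset.sum_mul, hS]
    field_simp
  have h3 : S ^ 2 ≤ (K : ℝ) * A ^ 4 * (S * B) :=
    h1.trans (mul_le_mul_of_nonneg_left h2 (by positivity))
  have h4 : S ≤ (K : ℝ) * A ^ 4 * B := by
    rcases hS0.eq_or_lt with h0 | h0
    · rw [← h0]
      positivity
    · have h5 : S * S ≤ S * ((K : ℝ) * A ^ 4 * B) := by
        calc S * S = S ^ 2 := by ring
          _ ≤ (K : ℝ) * A ^ 4 * (S * B) := h3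
          _ = _ := by ring
      exact le_of_mul_le_mul_left h5 h0
  refine h4.trans (le_of_eq ?_)
  rw [hB]
  ring

end Pool.MP_dd84fd_nt.JX
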