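import Pool.Agent.Lib.MP_dd84fd_nt.JX.GDefs
import Pool.Agent.Lib.MP_dd84fd_nt.JX.Vlem

/-!
# JX-GVl: `VlemP` from helper26's `vlem`
-/

set_option autoImplicit false

namespace Pool.MP_dd84fd_nt.JX

open Finset Pool.MP_67663b_nt.Odd Pool.MP_dd84fd_nt.En Pool.MP_dd84fd_nt.E2 Pool.MP_dd84fd_nt.LS
open Pool.MP_dd84fd_nt.L2G (nrm)
open Pool.MP_dd84fd_nt.GX Pool.MP_dd84fd_nt.HX Pool.MP_dd84fd_nt.IX
open Pool.MP_dd84fd_nt.PL (rr Fam)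

theorem vlemP : VlemP := by
  refine ⟨4096, 2, by norm_num, fun X hX G _ hG N K q q' hN hK hNK hq hqX hq' hq'X δ A T hδ0 hδ
    hA hT a c ha hc O hO hdiv => ?_⟩
  have hNX : N ≤ X := (Nat.le_mul_of_pos_right N hK).trans hNK
  have hKX : K ≤ X := (Nat.le_mul_of_pos_left K hN).trans hNK
  have hG4 : 4 * X ^ 2 ≤ G := by
    refine le_trans ?_ hG
    have h3 : 2 ^ 3 ≤ X ^ 3 := Nat.pow_le_pow_left hX 3
    calc 4 * X ^ 2 ≤ X ^ 3 * X ^ 2 := Nat.mul_le_mul_right _ (by omega)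
      _ = X ^ 5 := by ring
  exact vlem X G N K (by omega) hG4 hN hNX hK hKX q q' hqX hq'X δ A T (by linarith) a c ha hc O hO
    hdiv

end Pool.MP_dd84fd_nt.JX
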