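import Pool.Agent.Lib.MP_dd84fd_nt.JX.GFin
import Pool.Agent.Lib.MP_dd84fd_nt.JX.GVl

/-!
# GreedyJ (Theorems J and K, section 6)
-/

set_option autoImplicit false

namespace Pool.MP_dd84fd_nt.JX

theorem greedyJ : GreedyJ := greedy_j vlemP

end Pool.MP_dd84fd_nt.JX
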