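import Pool.Agent.Lib.MP_dd84fd_nt.JX.PlDefs
import Pool.Agent.Lib.MP_dd84fd_nt.JX.LvOne

/-!
# PL_J-Two: type II against type II

`q` with `h T ≤ X^(τ/4)` (`T = 1 + b`): `h2_one`, `M_i ≥ X^τ/2 ≥ h T`.  `q` with `h T > X^(τ/4)`: `lv_one` with
`k = ⌈1/τ⌉`, `v = X^(-τ²/200)`.  Then the sum over `q` as in `HX/PlTwo.lean`.
-/

set_option autoImplicit false

namespace Pool.MP_dd84fd_nt.JXP

open Finset Pool.MP_67663b_nt.Odd Pool.MP_dd84fd_nt.PL Pool.MP_dd84fd_nt.HX Pool.MP_dd84fd_nt.HXP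
open Pool.MP_dd84fd_nt.JX (Adm)

theorem j2_rpow (T η : ℝ) (hη : 0 < η) : ∃ X0 : ℕ, ∀ X : ℕ, X0 ≤ X → T ≤ (X : ℝ) ^ η := by
  have h1 := (tendsto_rpow_atTop hη).comp tendsto_natCast_atTop_atTop
  obtain ⟨X0, hX0⟩ := Filter.eventually_atTop.1 (h1.eventually_ge_atTop T)
  exact ⟨X0, fun X hX => hX0 X hX⟩

theorem j2_log (K : ℕ) (A η : ℝ) (hη : 0 < η) : ∃ X0 : ℕ, ∀ X : ℕ, X0 ≤ X →
    A * (Real.log X) ^ K ≤ (X : ℝ) ^ η := by
  have h1 := (isLittleO_log_rpow_rpow_atTop (K : ℝ) hη).bound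
    (show (0 : ℝ) < 1 / (|A| + 1) by positivity)
  obtain ⟨x0, hx0⟩ := Filter.eventually_atTop.1 h1
  refine ⟨max ⌈x0⌉₊ 1, fun X hX => ?_⟩
  have hX1 : 1 ≤ X := (le_max_right _ _).trans hX
  have hX2 : x0 ≤ X := (Nat.le_ceil x0).trans (by exact_mod_cast (le_max_left _ _).trans hX)
  have h2 := hx0 X hX2
  have hL : 0 ≤ Real.log X := Real.log_natCast_nonneg X
  have hXp : (0 : ℝ) ≤ (X : ℝ) ^ η := Real.rpow_nonneg (Nat.cast_nonneg X) _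
  rw [Real.rpow_natCast, Real.norm_eq_abs, Real.norm_eq_abs, abs_of_nonneg (pow_nonneg hL K),
    abs_of_nonneg hXp] at h2
  calc A * (Real.log X) ^ K ≤ |A| * (Real.log X) ^ K :=
        mul_le_mul_of_nonneg_right (le_abs_self A) (pow_nonneg hL K)
    _ ≤ |A| * (1 / (|A| + 1) * (X : ℝ) ^ η) := mul_le_mul_of_nonneg_left h2 (abs_nonneg A)
    _ = (|A| / (|A| + 1)) * (X : ℝ) ^ η := by ring
    _ ≤ 1 * (X : ℝ) ^ η := by
        apply mul_le_mul_of_nonneg_right _ hXp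
        rw [div_le_one (by positivity)]
        linarith
    _ = (X : ℝ) ^ η := one_mul _

theorem j2_big (T : ℝ) : ∃ X0 : ℕ, ∀ X : ℕ, X0 ≤ X → T ≤ Real.log X := by
  refine ⟨⌈Real.exp T⌉₊, fun X hX => ?_⟩
  have h1 : Real.exp T ≤ X := (Nat.le_ceil _).trans (by exact_mod_cast hX)
  rw [Real.le_log_iff_exp_le ((Real.exp_pos T).trans_le h1)]
  exact h1

/-- divisors of numbers up to a power of `X` -/
theorem j2_tau (k : ℕ) (η : ℝ) (hη : 0 < η) : ∃ X0 : ℕ, ∀ X : ℕ, X0 ≤ X → ∀ m : ℕ, 1 ≤ m →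
    (m : ℝ) ≤ (2 * X) ^ k → (m.divisors.card : ℝ) ^ k ≤ (X : ℝ) ^ η := by
  obtain ⟨K', hK'⟩ := exists_nat_gt ((2 * k + 1) / η)
  have hK0 : (0 : ℝ) < K' := lt_trans (by positivity) hK'
  have hK1 : (1 : ℝ) ≤ K' := by
    have : 0 < K' := by exact_mod_cast hK0
    exact_mod_cast this
  obtain ⟨D, hD, hD2⟩ := lt_tau (k * K')
  obtain ⟨X1, hX1⟩ := j2_rpow (D * 2 ^ k) 1 (by norm_num)
  refine ⟨max X1 1, fun X hX m hm hmX => ?_⟩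
  have h1 := hX1 X ((le_max_left _ _).trans hX)
  rw [Real.rpow_one] at h1
  have hXn : 1 ≤ X := (le_max_right _ _).trans hX
  have hX1' : (1 : ℝ) ≤ X := by exact_mod_cast hXn
  have hX0 : (0 : ℝ) < X := by linarith
  have hτ0 : (0 : ℝ) ≤ (m.divisors.card : ℝ) := Nat.cast_nonneg _
  have h2 : (m.divisors.card : ℝ) ^ (k * K') ≤ (X : ℝ) ^ ((k : ℝ) + 1) := by
    calc (m.divisors.card : ℝ) ^ (k * K') ≤ D * m := hD2 m hm
      _ ≤ D * (2 * X) ^ k := mul_le_mul_of_nonneg_left hmX (by linarith)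
      _ = (D * 2 ^ k) * (X : ℝ) ^ k := by rw [mul_pow]; ring
      _ ≤ X * (X : ℝ) ^ k := mul_le_mul_of_nonneg_right h1 (by positivity)
      _ = (X : ℝ) ^ ((k : ℝ) + 1) := by
          rw [Real.rpow_add hX0, Real.rpow_one, Real.rpow_natCast]
          ring
  calc (m.divisors.card : ℝ) ^ k = ((m.divisors.card : ℝ) ^ (k * K')) ^ (1 / (K' : ℝ)) := by
        rw [← Real.rpow_natCast, ← Real.rpow_natCast, ← Real.rpow_mul hτ0]
        congr 1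
        push_cast
        field_simp
    _ ≤ ((X : ℝ) ^ ((k : ℝ) + 1)) ^ (1 / (K' : ℝ)) :=
        Real.rpow_le_rpow (by positivity) h2 (by positivity)
    _ = (X : ℝ) ^ (((k : ℝ) + 1) * (1 / (K' : ℝ))) := by rw [← Real.rpow_mul hX0.le]
    _ ≤ (X : ℝ) ^ η := by
        refine Real.rpow_le_rpow_of_exponent_le hX1' ?_
        rw [mul_one_div, div_le_iff₀ hK0]
        rw [div_lt_iff₀ hη] at hK'
        have : (0 : ℝ) ≤ k := Nat.cast_nonneg _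
        nlinarith

/-- sizes -/
theorem j2_std (th e τ : ℝ) (A1 : ℕ) (hp : Adm th e τ) : ∃ X0 : ℕ, ∀ X : ℕ, X0 ≤ X →
    ∀ (n : ℕ) (b N σ : ℝ) (QQ : Finset ℕ) (bq : ℕ → ℝ), StdJ X n th e A1 b N σ QQ bq →
    16 ≤ X ∧ 1 ≤ Real.log X ∧ 0 < b ∧ N ≤ X ∧ b ≤ X ∧ N * (1 + b) ≤ (X : ℝ) ^ (89 / 100 : ℝ) ∧
    (∀ M : ℝ, M ≤ (X : ℝ) ^ (th - 3 * e) → 0 ≤ M → N * b * M ≤ X) ∧
    (∀ q ∈ QQ, 1 ≤ q ∧ q ≤ X ∧ (q : ℝ) ≤ N) := by
  obtain ⟨ht1, ht2, he0, hτ1, hτ2⟩ := hp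
  obtain ⟨X1, hX1⟩ := j2_log A1 1 (1 / 200) (by norm_num)
  obtain ⟨X2, hX2⟩ := j2_big 1
  obtain ⟨X3, hX3⟩ := j2_rpow 2 (1 / 400) (by norm_num)
  refine ⟨max (max X1 X2) (max X3 16), ?_⟩
  intro X hX n b N σ QQ bq hstd
  have g1 := hX1 X ((le_max_left _ _).trans ((le_max_left _ _).trans hX))
  have g2 := hX2 X ((le_max_right _ _).trans ((le_max_left _ _).trans hX))
  have g3 := hX3 X ((le_max_left _ _).trans ((le_max_right _ _).trans hX))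
  have hX16 : 16 ≤ X := (le_max_right _ _).trans ((le_max_right _ _).trans hX)
  have hX16' : (16 : ℝ) ≤ X := by exact_mod_cast hX16
  have hX0 : (0 : ℝ) < X := by linarith
  have hX1R : (1 : ℝ) ≤ X := by linarith
  obtain ⟨-, -, hσ, hbL, hN1, hNb, hfam, -, hbq⟩ := hstd
  obtain ⟨L, hL⟩ : ∃ L : ℝ, L = Real.log X := ⟨_, rfl⟩
  rw [← hL] at g1 g2 hbL
  rw [one_mul] at g1
  have hL0 : 0 < L := by linarith
  have hb0 : 0 < b := lt_of_lt_of_le (Real.rpow_pos_of_pos hL0 _) hbL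
  have hNb81 : N * b ≤ (X : ℝ) ^ (88 / 100 : ℝ) :=
    hNb.trans (Real.rpow_le_rpow_of_exponent_le hX1R (by linarith))
  have hNle : N ≤ (X : ℝ) ^ (885 / 1000 : ℝ) := by
    have h1 : 1 ≤ b * L ^ A1 := by
      have h2 : L ^ (-(A1 : ℝ)) * L ^ A1 = 1 := by
        rw [← Real.rpow_natCast, ← Real.rpow_add hL0]
        simp
      calc 1 = L ^ (-(A1 : ℝ)) * L ^ A1 := h2.symm
        _ ≤ b * L ^ A1 := mul_le_mul_of_nonneg_right hbL (by positivity)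
    calc N = N * 1 := (mul_one N).symm
      _ ≤ N * (b * L ^ A1) := mul_le_mul_of_nonneg_left h1 (by linarith)
      _ = (N * b) * L ^ A1 := by ring
      _ ≤ (X : ℝ) ^ (88 / 100 : ℝ) * (X : ℝ) ^ (1 / 200 : ℝ) := by
          apply mul_le_mul hNb81 g1 (by positivity) (by positivity)
      _ = (X : ℝ) ^ (885 / 1000 : ℝ) := by
          rw [← Real.rpow_add hX0]
          norm_num
  have hN0 : 0 ≤ N := by linarith
  have hle : ∀ s : ℝ, s ≤ 1 → (X : ℝ) ^ s ≤ X := by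
    intro s hs
    have h5 := Real.rpow_le_rpow_of_exponent_le hX1R hs
    rwa [Real.rpow_one] at h5
  have hNX : N ≤ X := hNle.trans (hle _ (by norm_num))
  have hNbX : N * b ≤ X := hNb81.trans (hle _ (by norm_num))
  have hbX : b ≤ X := by nlinarith
  refine ⟨hX16, by rw [← hL]; exact g2, hb0, hNX, hbX, ?_, ?_, ?_⟩
  · have h1 : (X : ℝ) ^ (88 / 100 : ℝ) ≤ (X : ℝ) ^ (885 / 1000 : ℝ) :=
      Real.rpow_le_rpow_of_exponent_le hX1R (by norm_num)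
    calc N * (1 + b) = N + N * b := by ring
      _ ≤ 2 * (X : ℝ) ^ (885 / 1000 : ℝ) := by linarith
      _ ≤ (X : ℝ) ^ (1 / 400 : ℝ) * (X : ℝ) ^ (885 / 1000 : ℝ) :=
          mul_le_mul_of_nonneg_right g3 (by positivity)
      _ = (X : ℝ) ^ (1 / 400 + 885 / 1000 : ℝ) := (Real.rpow_add hX0 _ _).symm
      _ ≤ (X : ℝ) ^ (89 / 100 : ℝ) := Real.rpow_le_rpow_of_exponent_le hX1R (by norm_num)
  · intro M hM hM0
    calc N * b * M ≤ (X : ℝ) ^ (1 - th + 3 / 2 * e) * (X : ℝ) ^ (th - 3 * e) :=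
          mul_le_mul hNb hM hM0 (by positivity)
      _ = (X : ℝ) ^ (1 - th + 3 / 2 * e + (th - 3 * e)) := (Real.rpow_add hX0 _ _).symm
      _ ≤ X := hle _ (by linarith)
  · intro q hqq
    have h1 := hfam.2 q hqq q hqq
    rw [Nat.lcm_self] at h1
    exact ⟨hfam.1 q hqq, by exact_mod_cast h1.trans hNX, h1⟩

/-- the parameters of the large values -/
theorem j2_par (τ Ck D : ℝ) (hτ0 : 0 < τ) (hτ1 : τ ≤ 1 / 10) (hCk : 0 < Ck) (hD : 1 ≤ D) :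
    ∃ X0 : ℕ, ∀ X : ℕ, X0 ≤ X →
    (X : ℝ) ^ (τ / 4) ≤ (X : ℝ) ^ τ / 2 ∧ 1 ≤ (X : ℝ) ^ τ / 2 ∧
    2 * (X : ℝ) ^ (89 / 100 : ℝ) ≤ ((X : ℝ) ^ τ / 2) ^ ⌈1 / τ⌉₊ ∧
    2 * Ck * (D * ((X : ℝ) ^ (τ / 4)) ^ (-(1 / 4) : ℝ) * (((X : ℝ) ^ (τ / 100)) ^ 2 /
      ((X : ℝ) ^ (-(τ ^ 2 / 200))) ^ (2 * ⌈1 / τ⌉₊)) + (X : ℝ) ^ (-(τ ^ 2 / 200))) ≤
      (X : ℝ) ^ (-(τ ^ 2 / 400)) := by
  obtain ⟨k, hk⟩ : ∃ k : ℕ, k = ⌈1 / τ⌉₊ := ⟨_, rfl⟩
  rw [← hk]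
  have hk1 : 1 / τ ≤ k := by rw [hk]; exact Nat.le_ceil _
  have hk2 : (k : ℝ) ≤ 2 / τ := by
    have h1 : (k : ℝ) < 1 / τ + 1 := by rw [hk]; exact Nat.ceil_lt_add_one (by positivity)
    have h2 : 1 ≤ 1 / τ := by rw [le_div_iff₀ hτ0]; linarith
    have h3 : 2 / τ = 1 / τ + 1 / τ := by ring
    linarith
  have hkτ : 1 ≤ τ * k := by
    rw [div_le_iff₀ hτ0] at hk1
    linarith
  have hkτ2 : τ * k ≤ 2 := by
    rw [le_div_iff₀ hτ0] at hk2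
    linarith
  obtain ⟨X1, hX1⟩ := j2_rpow 2 (3 * τ / 4) (by positivity)
  obtain ⟨X2, hX2⟩ := j2_rpow (2 * 2 ^ k) (11 / 100) (by norm_num)
  obtain ⟨X3, hX3⟩ := j2_rpow (2 * Ck * (D + 1)) (τ ^ 2 / 400) (by positivity)
  refine ⟨max (max X1 X2) (max X3 1), fun X hX => ?_⟩
  have g1 := hX1 X ((le_max_left _ _).trans ((le_max_left _ _).trans hX))
  have g2 := hX2 X ((le_max_right _ _).trans ((le_max_left _ _).trans hX))
  have g3 := hX3 X ((le_max_left _ _).trans ((le_max_right _ _).trans hX))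
  have hXn : 1 ≤ X := (le_max_right _ _).trans ((le_max_right _ _).trans hX)
  have hX1R : (1 : ℝ) ≤ X := by exact_mod_cast hXn
  have hX0 : (0 : ℝ) < X := by linarith
  have e1 : (X : ℝ) ^ τ = (X : ℝ) ^ (τ / 4) * (X : ℝ) ^ (3 * τ / 4) := by
    rw [← Real.rpow_add hX0]
    congr 1
    ring
  have h1 : 1 ≤ (X : ℝ) ^ (τ / 4) := Real.one_le_rpow hX1R (by positivity)
  have p1 : (X : ℝ) ^ (τ / 4) ≤ (X : ℝ) ^ τ / 2 := by
    rw [e1]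
    nlinarith
  refine ⟨p1, h1.trans p1, ?_, ?_⟩
  · have h2 : (X : ℝ) ≤ ((X : ℝ) ^ τ) ^ k := by
      rw [← Real.rpow_natCast, ← Real.rpow_mul hX0.le]
      calc (X : ℝ) = (X : ℝ) ^ (1 : ℝ) := (Real.rpow_one _).symm
        _ ≤ _ := Real.rpow_le_rpow_of_exponent_le hX1R hkτ
    rw [div_pow, le_div_iff₀ (by positivity)]
    calc 2 * (X : ℝ) ^ (89 / 100 : ℝ) * 2 ^ k = (2 * 2 ^ k) * (X : ℝ) ^ (89 / 100 : ℝ) := by ring
      _ ≤ (X : ℝ) ^ (11 / 100 : ℝ) * (X : ℝ) ^ (89 / 100 : ℝ) :=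
          mul_le_mul_of_nonneg_right g2 (by positivity)
      _ = X := by
          rw [← Real.rpow_add hX0]
          norm_num
      _ ≤ _ := h2
  · have e2 : ((X : ℝ) ^ (τ / 4)) ^ (-(1 / 4) : ℝ) = (X : ℝ) ^ (-(τ / 16)) := by
      rw [← Real.rpow_mul hX0.le]
      congr 1
      ring
    have e3 : ((X : ℝ) ^ (τ / 100)) ^ 2 = (X : ℝ) ^ (τ / 50) := by
      rw [← Real.rpow_natCast, ← Real.rpow_mul hX0.le]
      congr 1
      push_cast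
      ring
    have e4 : ((X : ℝ) ^ (-(τ ^ 2 / 200))) ^ (2 * k) = (X : ℝ) ^ (-(τ ^ 2 / 200 * (2 * k))) := by
      rw [← Real.rpow_natCast, ← Real.rpow_mul hX0.le]
      congr 1
      push_cast
      ring
    have e5 : (X : ℝ) ^ (-(τ / 16)) * ((X : ℝ) ^ (τ / 50) / (X : ℝ) ^ (-(τ ^ 2 / 200 * (2 * k)))) ≤
        (X : ℝ) ^ (-(τ ^ 2 / 200)) := by
      rw [← Real.rpow_sub hX0, ← Real.rpow_add hX0]
      refine Real.rpow_le_rpow_of_exponent_le hX1R ?_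
      have h5 : τ ^ 2 / 200 * (2 * k) = τ / 100 * (τ * k) := by ring
      rw [h5]
      have h6 : τ / 100 * (τ * k) ≤ τ / 100 * 2 := mul_le_mul_of_nonneg_left hkτ2 (by positivity)
      nlinarith
    rw [e2, e3, e4]
    have e6 : (X : ℝ) ^ (-(τ ^ 2 / 200)) = (X : ℝ) ^ (-(τ ^ 2 / 400)) * (X : ℝ) ^ (-(τ ^ 2 / 400)) := by
      rw [← Real.rpow_add hX0]
      congr 1
      ring
    have e7 : (X : ℝ) ^ (-(τ ^ 2 / 400)) * (X : ℝ) ^ (τ ^ 2 / 400) = 1 := by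
      rw [← Real.rpow_add hX0]
      simp
    have hy0 : 0 < (X : ℝ) ^ (-(τ ^ 2 / 400)) := by positivity
    calc 2 * Ck * (D * (X : ℝ) ^ (-(τ / 16)) * ((X : ℝ) ^ (τ / 50) /
          (X : ℝ) ^ (-(τ ^ 2 / 200 * (2 * k)))) + (X : ℝ) ^ (-(τ ^ 2 / 200)))
        = 2 * Ck * (D * ((X : ℝ) ^ (-(τ / 16)) * ((X : ℝ) ^ (τ / 50) /
          (X : ℝ) ^ (-(τ ^ 2 / 200 * (2 * k))))) + (X : ℝ) ^ (-(τ ^ 2 / 200))) := by ring
      _ ≤ 2 * Ck * (D * (X : ℝ) ^ (-(τ ^ 2 / 200)) + (X : ℝ) ^ (-(τ ^ 2 / 200))) := by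
          gcongr
      _ = (2 * Ck * (D + 1)) * (X : ℝ) ^ (-(τ ^ 2 / 200)) := by ring
      _ ≤ (X : ℝ) ^ (τ ^ 2 / 400) * (X : ℝ) ^ (-(τ ^ 2 / 200)) :=
          mul_le_mul_of_nonneg_right g3 (by positivity)
      _ = (X : ℝ) ^ (-(τ ^ 2 / 400)) := by
          rw [e6, ← mul_assoc, mul_comm ((X : ℝ) ^ (τ ^ 2 / 400)), e7, one_mul]

/-- one modulus -/
theorem two_q_j : ∃ C1 : ℝ, 0 < C1 ∧ ∀ (th e τ : ℝ) (A1 : ℕ), Adm th e τ → ∃ X0 : ℕ, ∃ C2 : ℝ,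
    0 < C2 ∧ ∀ X : ℕ, X0 ≤ X → ∀ (n : ℕ) (b N σ : ℝ) (QQ : Finset ℕ) (bq : ℕ → ℝ),
    StdJ X n th e A1 b N σ QQ bq → ∀ H : ℝ, 1 ≤ H → ∀ q ∈ QQ, H ≤ (hq q n : ℝ) * (1 + b) →
    ∀ (M1 M2 Am S : ℝ) (K1 K2 : ℕ) (MM1 MM2 : Finset ℕ) (a1 a2 c1 c2 : ℕ → ℂ),
    0 < Am → Am ≤ X → 0 ≤ S → S ≤ X → BlkJ X th e τ M1 K1 MM1 a1 c1 Am S →
    BlkJ X th e τ M2 K2 MM2 a2 c2 Am S →
    ‖Bq X (bq q) σ n q (f2f MM1 a1 (tp K1 (cq q c1)) σ q)
        (f2f MM2 a2 (tp K2 (cq q c2)) σ q)‖ ≤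
      Real.log X * Am ^ 2 * (b / X) * (Real.sqrt (∑ r ∈ rr q, ∫ t in (0 : ℝ)..1,
          ‖tp K1 (cq q c1) ((r : ℝ) / q + σ * (M1 * (bq q / X)) * Real.exp (2 * Int.fract t))‖ ^ 2) *
        Real.sqrt (∑ r ∈ rr q, ∫ t in (0 : ℝ)..1,
          ‖tp K2 (cq q c2) ((r : ℝ) / q + σ * (M2 * (bq q / X)) * Real.exp (2 * Int.fract t))‖ ^ 2) *
        (M1 * M2 * (C1 * H ^ (-(1 / 4) : ℝ) + (X : ℝ) ^ (-(τ ^ 2 / 400))))) + C2 / (X : ℝ) ^ 3 := by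
  obtain ⟨C, hC, h1⟩ := h2_one
  obtain ⟨D, hD, h4⟩ := h2_D
  refine ⟨200 * C * D, by positivity, ?_⟩
  intro th e τ A1 hpar
  obtain ⟨hp1, hp2, hp3, hp4, hp5⟩ := hpar
  have hτ0 : 0 < τ := by linarith
  obtain ⟨k, hk⟩ : ∃ k : ℕ, k = ⌈1 / τ⌉₊ := ⟨_, rfl⟩
  have hk1 : 1 ≤ k := by
    rw [hk]
    exact Nat.one_le_iff_ne_zero.2 (Nat.ceil_pos.2 (by positivity)).ne'
  obtain ⟨Ck, hCk, h2⟩ := lv_one k hk1
  obtain ⟨X1, hX1⟩ := j2_std th e τ A1 ⟨hp1, hp2, hp3, hp4, hp5⟩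
  obtain ⟨X2, hX2⟩ := j2_par τ Ck D hτ0 hp4 hCk hD
  obtain ⟨X3, hX3⟩ := j2_tau k (τ / 100) (by positivity)
  rw [← hk] at hX2
  refine ⟨max (max X1 X2) (max X3 16), 128 * C + Ck, by positivity, ?_⟩
  intro X hX n b N σ QQ bq hstd H hH q hqm hHq M1 M2 Am S K1 K2 MM1 MM2 a1 a2 c1 c2 hAm0 hAmX hS hSX
    hblk1 hblk2
  obtain ⟨hX16, hL1, hb0, hNX, hbX, hNb82, hNbM, hqq⟩ :=
    hX1 X ((le_max_left _ _).trans ((le_max_left _ _).trans hX)) n b N σ QQ bq hstd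
  obtain ⟨y1, y2, y3, y4⟩ := hX2 X ((le_max_right _ _).trans ((le_max_left _ _).trans hX))
  have y5 := hX3 X ((le_max_left _ _).trans ((le_max_right _ _).trans hX))
  obtain ⟨h2n, hnX, hσ, hbA, hN1, hNb, hFam, -, hbq⟩ := hstd
  obtain ⟨hM11, hM12, hK1, hMM1, ha1, hc1⟩ := hblk1
  obtain ⟨hM21, hM22, hK2, hMM2, ha2, hc2⟩ := hblk2
  have hX16' : (16 : ℝ) ≤ X := by exact_mod_cast hX16
  have hXp : (0 : ℝ) < X := by linarith
  have hX1 : 1 ≤ X := by omega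
  have hX1' : (1 : ℝ) ≤ X := by linarith
  have hM1 : 1 ≤ M1 := y2.trans hM11
  have hM2 : 1 ≤ M2 := y2.trans hM21
  have hM10 : 0 < M1 := by linarith
  have hM20 : 0 < M2 := by linarith
  have hMX : ∀ M : ℝ, M ≤ (X : ℝ) ^ (th - 3 * e) → M ≤ X := by
    intro M hM
    refine hM.trans ?_
    have h5 : (X : ℝ) ^ (th - 3 * e) ≤ (X : ℝ) ^ (1 : ℝ) :=
      Real.rpow_le_rpow_of_exponent_le hX1' (by linarith)
    rwa [Real.rpow_one] at h5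
  have hAm : 0 ≤ Am := hAm0.le
  -- the inner polynomial
  have hBsum : ∀ (M : ℝ) (K : ℕ) (c : ℕ → ℂ), 1 ≤ M → K ≤ X →
      ∑ k ∈ Icc 1 K, ‖c k‖ ^ 2 ≤ S * X / M → ∑ k ∈ Icc 1 K, ‖c k‖ ≤ 2 * (X : ℝ) ^ 2 := by
    intro M K c hM hK hc
    have h2 : ∀ k ∈ Icc 1 K, ‖c k‖ ≤ 1 + ‖c k‖ ^ 2 := by
      intro k _
      nlinarith [sq_nonneg (‖c k‖ - 1), norm_nonneg (c k)]
    refine (Finset.sum_le_sum h2).trans ?_
    rw [Finset.sum_add_distrib]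
    have h5 : ∑ _k ∈ Icc 1 K, (1 : ℝ) ≤ X := by
      simp only [Finset.sum_const, Nat.card_Icc, nsmul_eq_mul, mul_one]
      have : K + 1 - 1 = K := by omega
      rw [this]
      exact_mod_cast hK
    have h6 : S * X / M ≤ X ^ 2 := by
      rw [div_le_iff₀ (by linarith)]
      nlinarith
    nlinarith [hc.trans h6]
  have hBs : ∀ (K : ℕ) (c : ℕ → ℂ), ∑ k ∈ Icc 1 K, ‖c k‖ ≤ 2 * (X : ℝ) ^ 2 →
      ∀ x, ‖tp K c x‖ ≤ 2 * (X : ℝ) ^ 2 := by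
    intro K c hc x
    unfold tp
    refine (norm_sum_le _ _).trans (le_trans (Finset.sum_le_sum fun k _ => ?_) hc)
    rw [norm_mul]
    have h3 : ‖ee ((k : ℝ) * x)‖ = 1 := by
      unfold ee
      rw [Complex.norm_exp]
      simp
    rw [h3, mul_one]
  have hs1 := hBsum M1 K1 (cq q c1) hM1 hK1 ((h2_cq_norm q K1 c1).trans hc1)
  have hs2 := hBsum M2 K2 (cq q c2) hM2 hK2 ((h2_cq_norm q K2 c2).trans hc2)
  obtain ⟨hq1, hqX, hqN⟩ := hqq q hqm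
  have hqX' : (q : ℝ) ≤ X := by exact_mod_cast hqX
  have : NeZero q := ⟨by omega⟩
  have hβ := hbq q hqm
  have hh1 : 1 ≤ hq q n := by
    unfold hq
    exact Nat.div_pos (Nat.le_of_dvd hq1 (Nat.gcd_dvd_left q n)) (Nat.gcd_pos_of_pos_left _ hq1)
  have hh0 : (0 : ℝ) < hq q n := by exact_mod_cast hh1
  have hhq : (hq q n : ℝ) ≤ N := by
    have h6 : hq q n ≤ q := Nat.div_le_self _ _
    have h6' : (hq q n : ℝ) ≤ q := by exact_mod_cast h6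
    linarith
  obtain ⟨Z1, hZ1⟩ : ∃ Z : ℝ, Z = ∑ r ∈ rr q, ∫ t in (0 : ℝ)..1,
          ‖tp K1 (cq q c1) ((r : ℝ) / q + σ * (M1 * (bq q / X)) * Real.exp (2 * Int.fract t))‖ ^ 2 :=
    ⟨_, rfl⟩
  obtain ⟨Z2, hZ2⟩ : ∃ Z : ℝ, Z = ∑ r ∈ rr q, ∫ t in (0 : ℝ)..1,
          ‖tp K2 (cq q c2) ((r : ℝ) / q + σ * (M2 * (bq q / X)) * Real.exp (2 * Int.fract t))‖ ^ 2 :=
    ⟨_, rfl⟩
  have hZ0 : 0 ≤ Real.sqrt Z1 * Real.sqrt Z2 := by positivity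
  have hL0 : 0 ≤ Real.log X := by linarith
  have hH0 : 0 < H := by linarith
  have hH4 : 0 ≤ H ^ (-(1 / 4) : ℝ) := Real.rpow_nonneg hH0.le _
  have hXτ0 : 0 ≤ (X : ℝ) ^ (-(τ ^ 2 / 400)) := by positivity
  have hκ0 : 0 ≤ ltK (hq q n) := ltK_nonneg _
  rcases le_total ((hq q n : ℝ) * (1 + b)) ((X : ℝ) ^ (τ / 4)) with hA | hB
  · -- few frequencies
    have hMB : ∀ M : ℝ, 1 ≤ M → M ≤ (X : ℝ) ^ (th - 3 * e) →
        2 * M * Am * (2 * (X : ℝ) ^ 2) ≤ 8 * (X : ℝ) ^ 4 := by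
      intro M hM hM'
      have hMX' := hMX M hM'
      calc 2 * M * Am * (2 * (X : ℝ) ^ 2) ≤ 2 * (2 * X) * X * (2 * (X : ℝ) ^ 2) := by
            refine mul_le_mul_of_nonneg_right (mul_le_mul (by linarith) hAmX hAm (by linarith))
              (by positivity)
        _ = 8 * (X : ℝ) ^ 4 := by ring
    have g2 := h1 X n q (bq q) σ hX1 hnX h2n (by linarith) hσ M1 M2 Am K1 K2 MM1 MM2 a1 a2
      (cq q c1) (cq q c2)
      hM1 hM2 hAm hMM1 hMM2 ha1 ha2 (2 * (X : ℝ) ^ 2) (8 * (X : ℝ) ^ 4) (X ^ 24)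
      (hBs K1 (cq q c1) hs1)
      (hBs K2 (cq q c2) hs2) (hMB M1 hM1 hM12)
      (hMB M2 hM2 hM22)
      (Nat.one_le_pow _ _ hX1)
      (by
        have h3 : bq q ≤ 2 * X := by linarith [hβ.2]
        have h5 : (16 : ℝ) * X ≤ X ^ 24 := by
          calc (16 : ℝ) * X ≤ X * X := by nlinarith
            _ = X ^ 2 := by ring
            _ ≤ X ^ 24 := pow_le_pow_right₀ hX1' (by norm_num)
        push_cast
        linarith)
    refine g2.trans ?_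
    have hlogJ : Real.log ((X ^ 24 : ℕ) : ℝ) = 24 * Real.log X := by
      push_cast
      rw [Real.log_pow]
      norm_num
    rw [hlogJ, ← hZ1, ← hZ2]
    have g3 := h2_per C X b (bq q) (Nat.totient q) (ltK (hq q n)) Z1 Z2
      Am M1 M2 (hq q n) (Real.log X) (8 * (X : ℝ) ^ 4) ((X ^ 24 : ℕ) : ℝ) hC hX1' hb0 hβ.1 hβ.2 hbX
      (Nat.cast_nonneg _) (le_trans (by exact_mod_cast Nat.totient_le q) hqX') hκ0
      (by linarith) (by linarith)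
      (Nat.cast_nonneg _) hL1 rfl (by push_cast; ring)
    refine g3.trans ?_
    have sM : ∀ M : ℝ, (X : ℝ) ^ τ / 2 ≤ M → 0 < M →
        Real.sqrt (M * (2 * ((hq q n : ℝ) * (1 + b)) + M)) ≤ 2 * M := by
      intro M hM hM0
      rw [Real.sqrt_le_left (by linarith)]
      nlinarith [hA.trans (y1.trans hM)]
    have t1 := h2_num1 (ltK (hq q n)) (1 + b) (hq q n) H D hκ0 (by linarith) hh0 hH
      hHq hD (h4 _ hh1)
    have t2 : ltK (hq q n) / Real.sqrt (1 + b) *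
        (Real.sqrt (M1 * (2 * ((hq q n : ℝ) * (1 + b)) + M1)) *
          Real.sqrt (M2 * (2 * ((hq q n : ℝ) * (1 + b)) + M2))) ≤
        (D * H ^ (-(1 / 4) : ℝ)) * ((2 * M1) * (2 * M2)) :=
      mul_le_mul t1 (mul_le_mul (sM M1 hM11 hM10) (sM M2 hM21 hM20) (Real.sqrt_nonneg _)
        (by linarith)) (by positivity) (by positivity)
    have t3 : 50 * C * Real.log X * Am ^ 2 * (b / X) * (Real.sqrt Z1 * Real.sqrt Z2 *
        (ltK (hq q n) / Real.sqrt (1 + b) *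
        (Real.sqrt (M1 * (2 * ((hq q n : ℝ) * (1 + b)) + M1)) *
          Real.sqrt (M2 * (2 * ((hq q n : ℝ) * (1 + b)) + M2))))) ≤
        Real.log X * Am ^ 2 * (b / X) * (Real.sqrt Z1 * Real.sqrt Z2 *
          (M1 * M2 * (200 * C * D * H ^ (-(1 / 4) : ℝ) + (X : ℝ) ^ (-(τ ^ 2 / 400))))) := by
      have c0 : 0 ≤ 50 * C * Real.log X * Am ^ 2 * (b / X) * (Real.sqrt Z1 * Real.sqrt Z2) := by
        positivity
      have c1 : 0 ≤ Real.log X * Am ^ 2 * (b / X) * (Real.sqrt Z1 * Real.sqrt Z2 * (M1 * M2)) := by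
        positivity
      calc _ = 50 * C * Real.log X * Am ^ 2 * (b / X) * (Real.sqrt Z1 * Real.sqrt Z2) *
            (ltK (hq q n) / Real.sqrt (1 + b) *
            (Real.sqrt (M1 * (2 * ((hq q n : ℝ) * (1 + b)) + M1)) *
              Real.sqrt (M2 * (2 * ((hq q n : ℝ) * (1 + b)) + M2)))) := by ring
        _ ≤ 50 * C * Real.log X * Am ^ 2 * (b / X) * (Real.sqrt Z1 * Real.sqrt Z2) *
            ((D * H ^ (-(1 / 4) : ℝ)) * ((2 * M1) * (2 * M2))) := mul_le_mul_of_nonneg_left t2 c0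
        _ = Real.log X * Am ^ 2 * (b / X) * (Real.sqrt Z1 * Real.sqrt Z2 * (M1 * M2)) *
            (200 * C * D * H ^ (-(1 / 4) : ℝ)) := by ring
        _ ≤ Real.log X * Am ^ 2 * (b / X) * (Real.sqrt Z1 * Real.sqrt Z2 * (M1 * M2)) *
            (200 * C * D * H ^ (-(1 / 4) : ℝ) + (X : ℝ) ^ (-(τ ^ 2 / 400))) :=
          mul_le_mul_of_nonneg_left (by linarith) c1
        _ = _ := by ring
    have t4 : 128 * C / (X : ℝ) ^ 3 ≤ (128 * C + Ck) / (X : ℝ) ^ 3 :=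
      div_le_div_of_nonneg_right (by linarith) (by positivity)
    exact add_le_add t3 t4
  · -- many frequencies
    have hβ2X : bq q ≤ 2 * X := by linarith [hβ.2]
    have hD' : 1 ≤ (X : ℝ) ^ (τ / 100) := Real.one_le_rpow hX1' (by positivity)
    have hv0 : 0 < (X : ℝ) ^ (-(τ ^ 2 / 200)) := by positivity
    have hv1 : (X : ℝ) ^ (-(τ ^ 2 / 200)) ≤ 1 :=
      Real.rpow_le_one_of_one_le_of_nonpos hX1' (by
        have : 0 ≤ τ ^ 2 / 200 := by positivity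
        linarith)
    have hdiv : ∀ M : ℝ, M ≤ (X : ℝ) ^ (th - 3 * e) → 0 < M → ∀ m : ℕ, 1 ≤ m →
        (m : ℝ) ≤ (2 * M) ^ k → (m.divisors.card : ℝ) ^ k ≤ (X : ℝ) ^ (τ / 100) := by
      intro M hM hM0 m hm hmM
      refine y5 m hm (hmM.trans (pow_le_pow_left₀ (by linarith) ?_ k))
      linarith [hMX M hM]
    have hT1 : (hq q n : ℝ) * (1 + bq q) ≤ 2 * (X : ℝ) ^ (89 / 100 : ℝ) := by
      have h5 : (hq q n : ℝ) * (1 + bq q) ≤ N * (2 * (1 + b)) := by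
        apply mul_le_mul hhq (by linarith [hβ.2]) (by linarith [hβ.1]) (by linarith)
      linarith
    have hTM : ∀ M : ℝ, (X : ℝ) ^ τ / 2 ≤ M → (hq q n : ℝ) * (1 + bq q) ≤ M ^ k := by
      intro M hM
      exact hT1.trans (y3.trans (pow_le_pow_left₀ (by linarith) hM k))
    have g2 := h2 X n q (bq q) σ hX16 hnX h2n (by linarith) hβ2X hqX hσ M1 M2 Am K1 K2 MM1 MM2
      a1 a2 (cq q c1) (cq q c2) hM1 hM2 (hMX M1 hM12) (hMX M2 hM22) hK1 hK2 hAm0 hAmX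
      hMM1 hMM2 ha1 ha2 hs1 hs2 _ _ hv0 hv1 hD' (hdiv M1 hM12 hM10) (hdiv M2 hM22 hM20)
      (hTM M1 hM11) (hTM M2 hM21)
    refine g2.trans ?_
    rw [← hZ1, ← hZ2]
    have t1 := h2_num1 (ltK (hq q n)) (1 + b) (hq q n) ((X : ℝ) ^ (τ / 4)) D hκ0 (by linarith) hh0
      (Real.one_le_rpow hX1' (by positivity)) hB hD (h4 _ hh1)
    have t1' : ltK (hq q n) / Real.sqrt (1 + bq q) ≤ D * ((X : ℝ) ^ (τ / 4)) ^ (-(1 / 4) : ℝ) := by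
      refine le_trans ?_ t1
      refine div_le_div_of_nonneg_left hκ0 (Real.sqrt_pos.2 (by linarith)) ?_
      exact Real.sqrt_le_sqrt (by linarith [hβ.1])
    obtain ⟨W, hW⟩ : ∃ W : ℝ, W = ((X : ℝ) ^ (τ / 100)) ^ 2 /
      ((X : ℝ) ^ (-(τ ^ 2 / 200))) ^ (2 * k) := ⟨_, rfl⟩
    have hW0 : 0 ≤ W := by rw [hW]; positivity
    rw [← hW] at y4 ⊢
    obtain ⟨vv, hvv⟩ : ∃ vv : ℝ, vv = (X : ℝ) ^ (-(τ ^ 2 / 200)) := ⟨_, rfl⟩
    rw [← hvv] at y4 hv0 ⊢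
    have t2 : Ck * Real.log X * (bq q / X) * Am ^ 2 * (M1 * M2) * (Real.sqrt Z1 * Real.sqrt Z2) *
        (ltK (hq q n) / Real.sqrt (1 + bq q) * W + vv) ≤
        Real.log X * Am ^ 2 * (b / X) * (Real.sqrt Z1 * Real.sqrt Z2 *
          (M1 * M2 * (200 * C * D * H ^ (-(1 / 4) : ℝ) + (X : ℝ) ^ (-(τ ^ 2 / 400))))) := by
      have c1 : 0 ≤ Real.log X * Am ^ 2 * (b / X) * (Real.sqrt Z1 * Real.sqrt Z2 * (M1 * M2)) := by
        positivity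
      have c2 : 0 ≤ ltK (hq q n) / Real.sqrt (1 + bq q) * W + vv := by positivity
      have hbq2 : Ck * Real.log X * (bq q / X) * Am ^ 2 * (M1 * M2) * (Real.sqrt Z1 * Real.sqrt Z2) ≤
          Ck * Real.log X * (2 * b / X) * Am ^ 2 * (M1 * M2) * (Real.sqrt Z1 * Real.sqrt Z2) := by
        have : bq q / X ≤ 2 * b / X := div_le_div_of_nonneg_right hβ.2 hXp.le
        gcongr
      calc _ ≤ Ck * Real.log X * (2 * b / X) * Am ^ 2 * (M1 * M2) * (Real.sqrt Z1 * Real.sqrt Z2) *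
            (ltK (hq q n) / Real.sqrt (1 + bq q) * W + vv) := mul_le_mul_of_nonneg_right hbq2 c2
        _ = Real.log X * Am ^ 2 * (b / X) * (Real.sqrt Z1 * Real.sqrt Z2 * (M1 * M2)) *
            (2 * Ck * (ltK (hq q n) / Real.sqrt (1 + bq q) * W + vv)) := by ring
        _ ≤ Real.log X * Am ^ 2 * (b / X) * (Real.sqrt Z1 * Real.sqrt Z2 * (M1 * M2)) *
            (2 * Ck * (D * ((X : ℝ) ^ (τ / 4)) ^ (-(1 / 4) : ℝ) * W + vv)) := by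
          refine mul_le_mul_of_nonneg_left (mul_le_mul_of_nonneg_left ?_ (by positivity)) c1
          have := mul_le_mul_of_nonneg_right t1' hW0
          linarith
        _ ≤ Real.log X * Am ^ 2 * (b / X) * (Real.sqrt Z1 * Real.sqrt Z2 * (M1 * M2)) *
            (200 * C * D * H ^ (-(1 / 4) : ℝ) + (X : ℝ) ^ (-(τ ^ 2 / 400))) := by
          refine mul_le_mul_of_nonneg_left (y4.trans ?_) c1
          have : 0 ≤ 200 * C * D * H ^ (-(1 / 4) : ℝ) := by positivity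
          linarith
        _ = _ := by ring
    have t3 : Ck / (X : ℝ) ^ 3 ≤ (128 * C + Ck) / (X : ℝ) ^ 3 :=
      div_le_div_of_nonneg_right (by linarith) (by positivity)
    exact add_le_add t2 t3

theorem two_two_j : ∃ C : ℝ, 0 < C ∧ ∀ (th e τ : ℝ) (A1 : ℕ), Adm th e τ → ∃ X0 : ℕ,
    ∀ X : ℕ, X0 ≤ X → ∀ (n : ℕ) (b N σ : ℝ) (QQ : Finset ℕ) (bq : ℕ → ℝ),
    StdJ X n th e A1 b N σ QQ bq → ∀ H : ℝ, 1 ≤ H → (∀ q ∈ QQ, H ≤ (hq q n : ℝ) * (1 + b)) →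
    ∀ (M1 M2 Am S : ℝ) (K1 K2 : ℕ) (MM1 MM2 : Finset ℕ) (a1 a2 c1 c2 : ℕ → ℂ),
    0 < Am → Am ≤ X → 0 ≤ S → S ≤ X → BlkJ X th e τ M1 K1 MM1 a1 c1 Am S →
    BlkJ X th e τ M2 K2 MM2 a2 c2 Am S →
    ∑ q ∈ QQ, ‖Bq X (bq q) σ n q (f2f MM1 a1 (tp K1 (cq q c1)) σ q)
        (f2f MM2 a2 (tp K2 (cq q c2)) σ q)‖ ≤
      C * (Real.log X) ^ 3 * Am ^ 2 * S * X * (H ^ (-(1 / 4) : ℝ) + (X : ℝ) ^ (-(τ ^ 2 / 400))) +
        1 := by
  obtain ⟨C1, hC1, h1⟩ := two_q_j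
  refine ⟨108 * (C1 + 1), by positivity, ?_⟩
  intro th e τ A1 hpar
  obtain ⟨X0, C2, hC2, h2⟩ := h1 th e τ A1 hpar
  obtain ⟨X1, hX1⟩ := j2_std th e τ A1 hpar
  obtain ⟨X2, hX2⟩ := j2_rpow 2 τ (by obtain ⟨-, -, h, -, h'⟩ := hpar; linarith)
  obtain ⟨X3, hX3⟩ := j2_rpow C2 1 (by norm_num)
  refine ⟨max (max X0 X1) (max X2 X3), ?_⟩
  intro X hX n b N σ QQ bq hstd H hH hHq M1 M2 Am S K1 K2 MM1 MM2 a1 a2 c1 c2 hAm0 hAmX hS hSX
    hblk1 hblk2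
  obtain ⟨hX16, hL1, hb0, hNX, hbX, hNb82, hNbM, hqq⟩ :=
    hX1 X ((le_max_right _ _).trans ((le_max_left _ _).trans hX)) n b N σ QQ bq hstd
  have hXτ := hX2 X ((le_max_left _ _).trans ((le_max_right _ _).trans hX))
  have hXC := hX3 X ((le_max_right _ _).trans ((le_max_right _ _).trans hX))
  rw [Real.rpow_one] at hXC
  have hper := fun q hqm => h2 X ((le_max_left _ _).trans ((le_max_left _ _).trans hX)) n b N σ QQ
    bq hstd H hH q hqm (hHq q hqm) M1 M2 Am S K1 K2 MM1 MM2 a1 a2 c1 c2 hAm0 hAmX hS hSX hblk1 hblk2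
  obtain ⟨h2n, hnX, hσ, hbA, hN1, hNb, hFam, -, hbq⟩ := hstd
  obtain ⟨hM11, hM12, hK1, hMM1, ha1, hc1⟩ := hblk1
  obtain ⟨hM21, hM22, hK2, hMM2, ha2, hc2⟩ := hblk2
  have hX16' : (16 : ℝ) ≤ X := by exact_mod_cast hX16
  have hXp : (0 : ℝ) < X := by linarith
  have hX1 : 1 ≤ X := by omega
  have hX1' : (1 : ℝ) ≤ X := by linarith
  have hM1 : 1 ≤ M1 := le_trans (by linarith) hM11
  have hM2 : 1 ≤ M2 := le_trans (by linarith) hM21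
  have hM10 : 0 < M1 := by linarith
  have hM20 : 0 < M2 := by linarith
  have hN0 : 0 ≤ N := by linarith
  -- the masses
  obtain ⟨Z, hZ⟩ : ∃ Z : ℝ → ℕ → (ℕ → ℂ) → ℕ → ℝ, Z = fun M K c q => ∑ r ∈ rr q,
    ∫ t in (0 : ℝ)..1,
    ‖tp K (cq q c) ((r : ℝ) / q + σ * (M * (bq q / X)) * Real.exp (2 * Int.fract t))‖ ^ 2 :=
    ⟨_, rfl⟩
  have hZ0 : ∀ (M : ℝ) (K : ℕ) (c : ℕ → ℂ), ∀ q ∈ QQ, 0 ≤ Z M K c q := by
    intro M K c q _
    rw [hZ]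
    refine Finset.sum_nonneg fun r _ => ?_
    refine intervalIntegral.integral_nonneg (by norm_num) fun t _ => by positivity
  obtain ⟨Λ, hΛ⟩ : ∃ Λ : ℝ, Λ = 12 * (Real.log X) ^ 2 := ⟨_, rfl⟩
  have hΛ0 : 0 ≤ Λ := by rw [hΛ]; positivity
  have hlogN : 3 * (1 + Real.log N) ^ 2 ≤ Λ := by
    have h5 : Real.log N ≤ Real.log X := Real.log_le_log (by linarith) hNX
    have h6 : 0 ≤ Real.log N := Real.log_nonneg hN1
    have h7 : (1 + Real.log N) ^ 2 ≤ (2 * Real.log X) ^ 2 :=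
      pow_le_pow_left₀ (by linarith) (by linarith) 2
    rw [hΛ]
    nlinarith
  have hZs : ∀ (M : ℝ) (K : ℕ) (c : ℕ → ℂ), 1 ≤ M →
      ∑ k ∈ Icc 1 K, ‖c k‖ ^ 2 ≤ S * X / M →
      ∑ q ∈ QQ, Z M K c q ≤ Λ * (8 * N + X / (M * b)) * (S * X / M) := by
    intro M K c hM hc
    have h2 := bmass_c X hX1 b N σ M hb0 hN1 (by linarith) hσ QQ hFam bq hbq K c
    rw [hZ]
    refine h2.trans ?_
    have hc0 : 0 ≤ ∑ k ∈ Icc 1 K, ‖c k‖ ^ 2 := Finset.sum_nonneg fun k _ => by positivity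
    have h5 : 0 ≤ 8 * N + X / (M * b) := by positivity
    exact mul_le_mul (mul_le_mul_of_nonneg_right hlogN h5) hc hc0 (by positivity)
  refine (Finset.sum_le_sum hper).trans ?_
  rw [Finset.sum_add_distrib]
  have htail : ∑ _q ∈ QQ, C2 / (X : ℝ) ^ 3 ≤ 1 := by
    rw [Finset.sum_const, nsmul_eq_mul]
    have hcard : (QQ.card : ℝ) ≤ X := by
      have : QQ.card ≤ X := by
        calc QQ.card ≤ (Icc 1 X).card := Finset.card_le_card fun q hqm =>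
              Finset.mem_Icc.2 ⟨(hqq q hqm).1, (hqq q hqm).2.1⟩
          _ = X := by simp
      exact_mod_cast this
    calc (QQ.card : ℝ) * (C2 / (X : ℝ) ^ 3) ≤ X * (C2 / (X : ℝ) ^ 3) :=
          mul_le_mul_of_nonneg_right hcard (by positivity)
      _ = C2 / X ^ 2 := by field_simp
      _ ≤ 1 := by
          rw [div_le_one (by positivity)]
          nlinarith
  refine add_le_add ?_ htail
  rw [← Finset.mul_sum]
  obtain ⟨V1, hV1⟩ : ∃ V : ℝ, V = Λ * (8 * N + X / (M1 * b)) * (S * X / M1) := ⟨_, rfl⟩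
  obtain ⟨V2, hV2⟩ : ∃ V : ℝ, V = Λ * (8 * N + X / (M2 * b)) * (S * X / M2) := ⟨_, rfl⟩
  have hV10 : 0 ≤ V1 := by rw [hV1]; positivity
  have hV20 : 0 ≤ V2 := by rw [hV2]; positivity
  have hH0 : 0 < H := by linarith
  have hH4 : 0 ≤ H ^ (-(1 / 4) : ℝ) := Real.rpow_nonneg hH0.le _
  have hXe0 : 0 ≤ (X : ℝ) ^ (-(τ ^ 2 / 400)) := by positivity
  obtain ⟨η, hη⟩ : ∃ η : ℝ, η = C1 * H ^ (-(1 / 4) : ℝ) + (X : ℝ) ^ (-(τ ^ 2 / 400)) := ⟨_, rfl⟩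
  have hη0 : 0 ≤ η := by rw [hη]; positivity
  obtain ⟨E, hE⟩ : ∃ E : ℝ, E = 9 * Λ * (S * (X : ℝ) ^ 2 / b) := ⟨_, rfl⟩
  have hE0 : 0 ≤ E := by rw [hE]; positivity
  have hMV : ∀ M V : ℝ, 0 < M → N * b * M ≤ X → V = Λ * (8 * N + X / (M * b)) * (S * X / M) →
      Real.sqrt V * M ≤ Real.sqrt E := by
    intro M V hM hNM hV
    have e1 : Real.sqrt V * M = Real.sqrt (V * M ^ 2) := by
      rw [Real.sqrt_mul' _ (by positivity), Real.sqrt_sq hM.le]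
    rw [e1]
    refine Real.sqrt_le_sqrt ?_
    have e2 : V * M ^ 2 = Λ * S * X * (8 * (N * M) + X / b) := by
      rw [hV]
      field_simp
    have e3 : N * M ≤ X / b := by
      rw [le_div_iff₀ hb0]
      linarith
    rw [e2, hE]
    calc Λ * S * X * (8 * (N * M) + X / b) ≤ Λ * S * X * (8 * (X / b) + X / b) :=
          mul_le_mul_of_nonneg_left (by linarith) (by positivity)
      _ = 9 * Λ * (S * (X : ℝ) ^ 2 / b) := by ring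
  have n1 := hMV M1 V1 hM10 (hNbM M1 hM12 hM10.le) hV1
  have n2 := hMV M2 V2 hM20 (hNbM M2 hM22 hM20.le) hV2
  have hG : ∀ q ∈ QQ, Real.sqrt V1 * Real.sqrt V2 * (M1 * M2 * η) ≤ E * η := by
    intro q _
    calc Real.sqrt V1 * Real.sqrt V2 * (M1 * M2 * η) =
        ((Real.sqrt V1 * M1) * (Real.sqrt V2 * M2)) * η := by ring
      _ ≤ (Real.sqrt E * Real.sqrt E) * η := by
          refine mul_le_mul_of_nonneg_right ?_ hη0
          exact mul_le_mul n1 n2 (by positivity) (by positivity)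
      _ = E * η := by rw [Real.mul_self_sqrt hE0]
  have hcs := h2_cs2 QQ (Z M1 K1 c1) (Z M2 K2 c2) (fun q => M1 * M2 * η) V1 V2 (E * η)
      (hZ0 M1 K1 c1) (hZ0 M2 K2 c2) (fun q _ => by positivity)
      (by rw [hV1]; exact hZs M1 K1 c1 hM1 hc1) (by rw [hV2]; exact hZs M2 K2 c2 hM2 hc2)
      (by positivity) hG
  have hc0 : 0 ≤ Real.log X * Am ^ 2 * (b / X) := by
    have : 0 ≤ Real.log X := by linarith
    positivity
  rw [hZ] at hcs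
  rw [← hη]
  refine (mul_le_mul_of_nonneg_left hcs hc0).trans ?_
  have e5 : Real.log X * Am ^ 2 * (b / X) * (E * η) = 108 * (Real.log X) ^ 3 * Am ^ 2 * S * X * η := by
    rw [hE, hΛ]
    field_simp
    ring
  rw [e5]
  have hL0 : 0 ≤ Real.log X := by linarith
  have e6 : η ≤ (C1 + 1) * (H ^ (-(1 / 4) : ℝ) + (X : ℝ) ^ (-(τ ^ 2 / 400))) := by
    rw [hη]
    nlinarith
  calc 108 * (Real.log X) ^ 3 * Am ^ 2 * S * X * η ≤ 108 * (Real.log X) ^ 3 * Am ^ 2 * S * X *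
        ((C1 + 1) * (H ^ (-(1 / 4) : ℝ) + (X : ℝ) ^ (-(τ ^ 2 / 400)))) :=
        mul_le_mul_of_nonneg_left e6 (by positivity)
    _ = _ := by ring

end Pool.MP_dd84fd_nt.JXP
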