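import Pool.Agent.Lib.MP_dd84fd_nt.JX.GDefs

/-!
# JX-GCellA (0.5 h): an integral over an arc and the cells of the grid

`[u, v] ⊆ [i0/G, (i1+1)/G]`, `i0 = ⌊u G⌋₊`, `i1 = ⌊v G⌋₊ ≤ G - 1` (`v < 1`). `∫_u^v h ≤ ∑_{i=i0}^{i1} ∫_{i/G}^{(i+1)/G} h` (`h ≥ 0`, `intervalIntegral.sum_integral_adjacent_intervals_Ico`, `intervalIntegral.integral_mono_interval`), and `h θ ≤ 2 h(i/G) + ε` on the cell, length `1/G`.
The map `i ↦ (i : ZMod G)` is injective on `[i0, i1] ⊆ [0, G)`, `al G i = i/G` (`ZMod.val_natCast_of_lt`), and `i0/G ≥ u - 1/G`, `i1/G ≤ v`.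
-/

set_option autoImplicit false

namespace Pool.MP_dd84fd_nt.JX

open Finset Pool.MP_67663b_nt.Odd Pool.MP_dd84fd_nt.En Pool.MP_dd84fd_nt.E2 Pool.MP_dd84fd_nt.LS
open Pool.MP_dd84fd_nt.L2G (nrm)
open Pool.MP_dd84fd_nt.GX Pool.MP_dd84fd_nt.HX Pool.MP_dd84fd_nt.IX
open Pool.MP_dd84fd_nt.PL (rr Fam)

theorem cell_int (G : ℕ) [NeZero G] (u v ε : ℝ) (h : ℝ → ℝ) (hc : Continuous h)
    (h0 : ∀ θ, 0 ≤ h θ) (hu : 0 ≤ u) (huv : u ≤ v) (hv : v < 1) (hε : 0 ≤ ε)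
    (hh : ∀ θ θ' : ℝ, |θ - θ'| ≤ 1 / G → h θ ≤ 2 * h θ' + ε) :
    ∫ x in u..v, h x ≤ (1 / (G : ℝ)) * ∑ j ∈ univ.filter (fun j : ZMod G =>
      u - 1 / G ≤ al G j ∧ al G j ≤ v), (2 * h (al G j) + ε) := by
  have hG : (0 : ℝ) < G := by exact_mod_cast NeZero.pos G
  have hint : ∀ a b : ℝ, IntervalIntegrable h MeasureTheory.volume a b := fun a b =>
    hc.intervalIntegrable a b
  obtain ⟨i0, hi0⟩ : ∃ i0 : ℕ, i0 = ⌊u * G⌋₊ := ⟨_, rfl⟩
  obtain ⟨i1, hi1⟩ : ∃ i1 : ℕ, i1 = ⌊v * G⌋₊ := ⟨_, rfl⟩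
  have hv0 : 0 ≤ v := hu.trans huv
  have h01 : i0 ≤ i1 := by
    rw [hi0, hi1]
    exact Nat.floor_mono (mul_le_mul_of_nonneg_right huv hG.le)
  have hi1G : i1 < G := by
    rw [hi1, Nat.floor_lt (by positivity)]
    nlinarith
  have hi0u : (i0 : ℝ) ≤ u * G := by
    rw [hi0]
    exact Nat.floor_le (by positivity)
  have hi0u' : u * G < (i0 : ℝ) + 1 := by
    rw [hi0]
    exact Nat.lt_floor_add_one _
  have hi1v : (i1 : ℝ) ≤ v * G := by
    rw [hi1]
    exact Nat.floor_le (by positivity)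
  have hi1v' : v * G < (i1 : ℝ) + 1 := by
    rw [hi1]
    exact Nat.lt_floor_add_one _
  have e1 : ((i0 : ℕ) : ℝ) / G ≤ u := by
    rw [div_le_iff₀ hG]
    exact hi0u
  have e2 : v ≤ ((i1 + 1 : ℕ) : ℝ) / G := by
    rw [le_div_iff₀ hG]
    push_cast
    exact hi1v'.le
  have s1 : ∫ x in u..v, h x ≤ ∫ x in (((i0 : ℕ) : ℝ) / G)..(((i1 + 1 : ℕ) : ℝ) / G), h x := by
    apply intervalIntegral.integral_mono_interval e1 huv e2
    · exact Filter.Eventually.of_forall fun x => h0 x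
    · exact hint _ _
  have s2 : ∫ x in (((i0 : ℕ) : ℝ) / G)..(((i1 + 1 : ℕ) : ℝ) / G), h x =
      ∑ k ∈ Ico i0 (i1 + 1), ∫ x in ((k : ℝ) / G)..(((k + 1 : ℕ) : ℝ) / G), h x := by
    rw [← intervalIntegral.sum_integral_adjacent_intervals_Ico (a := fun k : ℕ => (k : ℝ) / G)
      (by omega) (fun k _ => hint _ _)]
  have s3 : ∀ k ∈ Ico i0 (i1 + 1), ∫ x in ((k : ℝ) / G)..(((k + 1 : ℕ) : ℝ) / G), h x ≤
      (1 / (G : ℝ)) * (2 * h ((k : ℝ) / G) + ε) := by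
    intro k _
    have hk : (k : ℝ) / G ≤ ((k + 1 : ℕ) : ℝ) / G := by
      push_cast
      exact (div_le_div_iff_of_pos_right hG).2 (by linarith)
    have hlen : ((k + 1 : ℕ) : ℝ) / G - (k : ℝ) / G = 1 / G := by
      push_cast
      field_simp
      ring
    calc ∫ x in ((k : ℝ) / G)..(((k + 1 : ℕ) : ℝ) / G), h x
        ≤ ∫ x in ((k : ℝ) / G)..(((k + 1 : ℕ) : ℝ) / G), (2 * h ((k : ℝ) / G) + ε) := by
          apply intervalIntegral.integral_mono_on hk (hint _ _) (by simp)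
          intro x hx
          apply hh
          rw [abs_le]
          constructor
          · have := hx.1
            have : (0 : ℝ) ≤ 1 / G := by positivity
            linarith
          · have := hx.2
            linarith
      _ = (1 / (G : ℝ)) * (2 * h ((k : ℝ) / G) + ε) := by
          rw [intervalIntegral.integral_const, hlen, smul_eq_mul]
  have s4 : ∑ k ∈ Ico i0 (i1 + 1), (2 * h ((k : ℝ) / G) + ε) ≤
      ∑ j ∈ univ.filter (fun j : ZMod G => u - 1 / G ≤ al G j ∧ al G j ≤ v),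
        (2 * h (al G j) + ε) := by
    have hal : ∀ k ∈ Ico i0 (i1 + 1), al G ((k : ℕ) : ZMod G) = (k : ℝ) / G := by
      intro k hk
      rw [mem_Ico] at hk
      unfold al
      rw [ZMod.val_natCast_of_lt (by omega)]
    have hinj : Set.InjOn (fun k : ℕ => ((k : ℕ) : ZMod G)) (Ico i0 (i1 + 1) : Finset ℕ) := by
      intro a ha b hb hab
      have ha' := mem_Ico.1 (mem_coe.1 ha)
      have hb' := mem_Ico.1 (mem_coe.1 hb)
      have h1 := congrArg ZMod.val hab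
      simp only at h1
      rwa [ZMod.val_natCast_of_lt (by omega), ZMod.val_natCast_of_lt (by omega)] at h1
    have h1 : ∑ k ∈ Ico i0 (i1 + 1), (2 * h ((k : ℝ) / G) + ε) =
        ∑ j ∈ (Ico i0 (i1 + 1)).image (fun k : ℕ => ((k : ℕ) : ZMod G)),
          (2 * h (al G j) + ε) := by
      rw [sum_image hinj]
      exact sum_congr rfl fun k hk => by rw [hal k hk]
    rw [h1]
    apply sum_le_sum_of_subset_of_nonneg
    · intro j hj
      obtain ⟨k, hk, rfl⟩ := mem_image.1 hj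
      rw [mem_filter]
      refine ⟨mem_univ _, ?_, ?_⟩
      · rw [hal k hk]
        rw [mem_Ico] at hk
        have hk' : (i0 : ℝ) ≤ k := by exact_mod_cast hk.1
        have : u - 1 / G = (u * G - 1) / G := by
          field_simp
        rw [this]
        exact (div_le_div_iff_of_pos_right hG).2 (by linarith)
      · rw [hal k hk]
        rw [mem_Ico] at hk
        have hk' : (k : ℝ) ≤ i1 := by exact_mod_cast (Nat.lt_succ_iff.1 hk.2)
        rw [div_le_iff₀ hG]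
        linarith
    · intro j _ _
      have := h0 (al G j)
      linarith
  calc ∫ x in u..v, h x ≤ _ := s1
    _ = _ := s2
    _ ≤ ∑ k ∈ Ico i0 (i1 + 1), (1 / (G : ℝ)) * (2 * h ((k : ℝ) / G) + ε) := sum_le_sum s3
    _ = (1 / (G : ℝ)) * ∑ k ∈ Ico i0 (i1 + 1), (2 * h ((k : ℝ) / G) + ε) := by rw [mul_sum]
    _ ≤ _ := mul_le_mul_of_nonneg_left s4 (by positivity)

end Pool.MP_dd84fd_nt.JX
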