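import Pool.Agent.Lib.MP_dd84fd_nt.JX.GCs
import Pool.Agent.Lib.MP_dd84fd_nt.JX.GCellA

/-!
# JX-GCellB (0.7 h): from the arcs to the grid

`h θ = ‖ES X u θ‖²`: `‖ES θ - ES θ'‖ ≤ ∑ |u n| 2π n |θ - θ'| ≤ 2π X³/G ≤ 7 X^(-2)` for `|θ - θ'| ≤ 1/G`, so `h θ ≤ 2 h θ' + ε`, `ε = 98 X^(-4)`.
For `a ∈ Cs X q q'`: `X ≤ q q' < q X` (`cs_lrg`), so `q ≥ 2` and `1 ≤ a ≤ q - 1` (`a` coprime to `q`); `r/X ≤ 1/(8q)`, so `u = a/q - r/X > 0`, `v = a/q + r/X < 1`. `cell_int` (shift the integral: `intervalIntegral.integral_comp_add_left`): the `j` occurring satisfy `|al_j - a/q| ≤ r/X + 1/G ≤ (r+1)/X`.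
These sets of `j` are disjoint for different `a` (`1/q ≥ 8r/X > 2(r+1)/X`) and contained in `Od G X (r+1) q q'`: the sum over `a` of the sums over `j` is at most the sum over `Od` (`Finset.sum_biUnion`). The number of `j` is `≤ #Od ≤ G`, so the `ε` part is `≤ ε ≤ 1`.
-/

set_option autoImplicit false

namespace Pool.MP_dd84fd_nt.JX

open Finset Pool.MP_67663b_nt.Odd Pool.MP_dd84fd_nt.En Pool.MP_dd84fd_nt.E2 Pool.MP_dd84fd_nt.LS
open Pool.MP_dd84fd_nt.L2G (nrm)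
open Pool.MP_dd84fd_nt.GX Pool.MP_dd84fd_nt.HX Pool.MP_dd84fd_nt.IX
open Pool.MP_dd84fd_nt.PL (rr Fam)

private theorem es_lip (X : ℕ) (hX : 100 ≤ X) (G : ℕ) [NeZero G] (hG : X ^ 5 ≤ G) (u : ℕ → ℝ)
    (hu : ∑ n ∈ Icc 1 X, |u n| ≤ (X : ℝ) ^ 2) (θ θ' : ℝ) (h : |θ - θ'| ≤ 1 / G) :
    ‖ES X u θ‖ ≤ ‖ES X u θ'‖ + 7 / (X : ℝ) ^ 2 := by
  have hX0 : (0 : ℝ) < X := by
    have : (100 : ℝ) ≤ X := by exact_mod_cast hX
    linarith
  have hG0 : (0 : ℝ) < G := by exact_mod_cast NeZero.pos G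
  have hG5 : (X : ℝ) ^ 5 ≤ G := by exact_mod_cast hG
  have h1 : ES X u θ - ES X u θ' =
      ∑ n ∈ Icc 1 X, (u n : ℂ) * (ee ((n : ℝ) * θ) - ee ((n : ℝ) * θ')) := by
    unfold ES
    rw [← sum_sub_distrib]
    exact sum_congr rfl fun n _ => by ring
  have h2 : ‖ES X u θ - ES X u θ'‖ ≤ ∑ n ∈ Icc 1 X, |u n| * (2 * Real.pi * X * (1 / G)) := by
    rw [h1]
    refine (norm_sum_le _ _).trans (sum_le_sum fun n hn => ?_)
    rw [norm_mul, Complex.norm_real, Real.norm_eq_abs]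
    refine mul_le_mul_of_nonneg_left ?_ (abs_nonneg _)
    refine (norm_ee_sub_ee_le _ _).trans ?_
    have h3 : (n : ℝ) * θ - (n : ℝ) * θ' = n * (θ - θ') := by ring
    have hnX : (n : ℝ) ≤ X := by exact_mod_cast (mem_Icc.1 hn).2
    rw [h3, abs_mul, abs_of_nonneg (Nat.cast_nonneg n)]
    have h4 : (n : ℝ) * |θ - θ'| ≤ X * (1 / G) :=
      mul_le_mul hnX h (abs_nonneg _) hX0.le
    calc 2 * Real.pi * ((n : ℝ) * |θ - θ'|) ≤ 2 * Real.pi * (X * (1 / G)) :=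
          mul_le_mul_of_nonneg_left h4 (by positivity)
      _ = 2 * Real.pi * X * (1 / G) := by ring
  have h5 : ∑ n ∈ Icc 1 X, |u n| * (2 * Real.pi * X * (1 / G)) ≤ 7 / (X : ℝ) ^ 2 := by
    rw [← sum_mul]
    have hpi : 2 * Real.pi ≤ 7 := by
      have := Real.pi_lt_d2
      linarith
    have h6 : (∑ n ∈ Icc 1 X, |u n|) * (2 * Real.pi * X * (1 / G)) ≤
        (X : ℝ) ^ 2 * (7 * X * (1 / (X : ℝ) ^ 5)) := by
      apply mul_le_mul hu _ (by positivity) (by positivity)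
      apply mul_le_mul
      · exact mul_le_mul_of_nonneg_right hpi hX0.le
      · exact one_div_le_one_div_of_le (by positivity) hG5
      · positivity
      · positivity
    refine h6.trans (le_of_eq ?_)
    field_simp
  have h7 : ‖ES X u θ‖ ≤ ‖ES X u θ'‖ + ‖ES X u θ - ES X u θ'‖ := by
    have := norm_add_le (ES X u θ') (ES X u θ - ES X u θ')
    rwa [add_sub_cancel] at this
  linarith

theorem cell_ov2 (X : ℕ) (hX : 100 ≤ X) (G : ℕ) [NeZero G] (hG : X ^ 5 ≤ G) (u : ℕ → ℝ)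
    (hu : ∑ n ∈ Icc 1 X, |u n| ≤ (X : ℝ) ^ 2) (r : ℝ) (hr : 1 ≤ r) (q q' : ℕ) (hq : 1 ≤ q)
    (hq' : 1 ≤ q') (hne : q ≠ q') (hqr : 8 * (q : ℝ) * r ≤ X) (hqX : q' < X) :
    ov2 X (ES X u) r q q' ≤
      2 * ((1 / (G : ℝ)) * ∑ j ∈ Od G X (r + 1) q q', ‖ES X u (al G j)‖ ^ 2) + 1 := by
  have hX100 : (100 : ℝ) ≤ X := by exact_mod_cast hX
  have hX0 : (0 : ℝ) < X := by linarith
  have hG0 : (0 : ℝ) < G := by exact_mod_cast NeZero.pos G
  have hG5 : (X : ℝ) ^ 5 ≤ G := by exact_mod_cast hG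
  have hq0 : (0 : ℝ) < q := by exact_mod_cast hq
  have hGX : 1 / (G : ℝ) ≤ 1 / X := by
    apply one_div_le_one_div_of_le hX0
    have : (X : ℝ) ≤ (X : ℝ) ^ 5 := le_self_pow₀ (by linarith) (by norm_num)
    linarith
  obtain ⟨ε, hε⟩ : ∃ ε : ℝ, ε = 98 / (X : ℝ) ^ 4 := ⟨_, rfl⟩
  have hε0 : 0 ≤ ε := by
    rw [hε]
    positivity
  have hε1 : ε ≤ 1 := by
    rw [hε, div_le_one (by positivity)]
    have : (X : ℝ) ≤ (X : ℝ) ^ 4 := le_self_pow₀ (by linarith) (by norm_num)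
    linarith
  have hh : ∀ θ θ' : ℝ, |θ - θ'| ≤ 1 / G → ‖ES X u θ‖ ^ 2 ≤ 2 * ‖ES X u θ'‖ ^ 2 + ε := by
    intro θ θ' hθ
    have h1 := es_lip X hX G hG u hu θ θ' hθ
    have h2 : ‖ES X u θ‖ ^ 2 ≤ (‖ES X u θ'‖ + 7 / (X : ℝ) ^ 2) ^ 2 :=
      pow_le_pow_left₀ (norm_nonneg _) h1 2
    have h3 : (‖ES X u θ'‖ + 7 / (X : ℝ) ^ 2) ^ 2 ≤
        2 * ‖ES X u θ'‖ ^ 2 + 2 * (7 / (X : ℝ) ^ 2) ^ 2 := by
      nlinarith [sq_nonneg (‖ES X u θ'‖ - 7 / (X : ℝ) ^ 2)]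
    have h4 : 2 * (7 / (X : ℝ) ^ 2) ^ 2 = ε := by
      rw [hε, div_pow, ← pow_mul]
      ring
    linarith
  have hcont : Continuous fun θ => ‖ES X u θ‖ ^ 2 := ((ES_cont X u).norm).pow 2
  -- the cells of one arc
  obtain ⟨F, hF⟩ : ∃ F : ℕ → Finset (ZMod G), ∀ a, F a = univ.filter (fun j : ZMod G =>
      (a : ℝ) / q - r / X - 1 / G ≤ al G j ∧ al G j ≤ (a : ℝ) / q + r / X) := ⟨_, fun _ => rfl⟩
  have hrX : r / X ≤ 1 / (8 * (q : ℝ)) := by
    rw [div_le_div_iff₀ hX0 (by positivity)]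
    linarith
  have hrX0 : 0 ≤ r / X := by positivity
  have harc : ∀ a ∈ Cs X q q', ∫ x in (-r / X)..(r / X), ‖ES X u ((a : ℝ) / q + x)‖ ^ 2 ≤
      (1 / (G : ℝ)) * ∑ j ∈ F a, (2 * ‖ES X u (al G j)‖ ^ 2 + ε) := by
    intro a ha
    have hlrg := cs_lrg (by omega) hq hq' hne ha
    have hq2 : 2 ≤ q := by
      by_contra hlt
      have hq1 : q = 1 := by omega
      rw [hq1] at hlrg
      have : (q' : ℝ) < X := by exact_mod_cast hqX
      push_cast at hlrg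
      linarith
    have harr := (cs_mem (by omega) hq hq' hne ha).1
    unfold rr at harr
    rw [mem_filter, mem_range] at harr
    have ha1 : 1 ≤ a := by
      rcases Nat.eq_zero_or_pos a with h | h
      · rw [h, Nat.coprime_zero_left] at harr
        omega
      · exact h
    have ha1' : (1 : ℝ) ≤ a := by exact_mod_cast ha1
    have haq' : (a : ℝ) + 1 ≤ q := by exact_mod_cast harr.1
    have h8q : 1 / (8 * (q : ℝ)) < 1 / q := by
      apply one_div_lt_one_div_of_lt hq0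
      linarith
    have hlo : 1 / (q : ℝ) ≤ (a : ℝ) / q := (div_le_div_iff_of_pos_right hq0).2 ha1'
    have hhi : (a : ℝ) / q ≤ 1 - 1 / q := by
      rw [div_le_iff₀ hq0, sub_mul, one_mul, one_div_mul_cancel hq0.ne']
      linarith
    have e1 : ∫ x in (-r / X)..(r / X), ‖ES X u ((a : ℝ) / q + x)‖ ^ 2 =
        ∫ x in ((a : ℝ) / q + -r / X)..((a : ℝ) / q + r / X), ‖ES X u x‖ ^ 2 :=
      intervalIntegral.integral_comp_add_left (fun x => ‖ES X u x‖ ^ 2) _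
    have e2 : (a : ℝ) / q + -r / X = (a : ℝ) / q - r / X := by ring
    rw [e1, e2, hF a]
    exact cell_int G _ _ ε (fun θ => ‖ES X u θ‖ ^ 2) hcont (fun θ => by positivity)
      (by linarith) (by linarith) (by linarith) hε0 hh
  have hF2 : ∀ a j, j ∈ F a → |al G j - (a : ℝ) / q| ≤ (r + 1) / X := by
    intro a j hj
    rw [hF a, mem_filter] at hj
    have h1 : (r + 1) / X = r / X + 1 / X := by ring
    have h2 : (0 : ℝ) ≤ 1 / X := by positivity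
    rw [abs_le]
    constructor
    · linarith [hj.2.1]
    · linarith [hj.2.2]
  have hdisj : (↑(Cs X q q') : Set ℕ).PairwiseDisjoint F := by
    intro a _ b _ hab
    rw [Function.onFun, disjoint_left]
    intro j hja hjb
    have h1 := hF2 a j hja
    have h2 := hF2 b j hjb
    have h3 : |(a : ℝ) / q - (b : ℝ) / q| ≤ 2 * ((r + 1) / X) := by
      have : (a : ℝ) / q - (b : ℝ) / q = (al G j - (b : ℝ) / q) - (al G j - (a : ℝ) / q) := by ring
      rw [this]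
      refine (abs_sub _ _).trans ?_
      linarith
    have h4 : 1 / (q : ℝ) ≤ |(a : ℝ) / q - (b : ℝ) / q| := by
      rw [← sub_div, abs_div, abs_of_pos hq0]
      apply (div_le_div_iff_of_pos_right hq0).2
      have : (1 : ℤ) ≤ |(a : ℤ) - b| := Int.one_le_abs (by omega)
      exact_mod_cast this
    have h5 : 1 / (q : ℝ) ≤ 2 * ((r + 1) / X) := h4.trans h3
    have h6 : 8 * (r / X) ≤ 1 / (q : ℝ) := by
      have : 8 * (1 / (8 * (q : ℝ))) = 1 / q := by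
        field_simp
      linarith
    have h7 : 2 * ((r + 1) / X) < 8 * (r / X) := by
      have : 8 * (r / X) - 2 * ((r + 1) / X) = (6 * r - 2) / X := by ring
      have h8 : 0 < (6 * r - 2) / X := by
        apply div_pos _ hX0
        linarith
      linarith
    linarith
  have hsub : (Cs X q q').biUnion F ⊆ Od G X (r + 1) q q' := by
    intro j hj
    obtain ⟨a, ha, hja⟩ := mem_biUnion.1 hj
    unfold Od
    rw [mem_filter]
    exact ⟨mem_univ _, a, ha, hF2 a j hja⟩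
  have hcard : ((Od G X (r + 1) q q').card : ℝ) ≤ G := by
    have h1 := card_le_univ (Od G X (r + 1) q q')
    rw [ZMod.card] at h1
    exact_mod_cast h1
  calc ov2 X (ES X u) r q q'
      ≤ ∑ a ∈ Cs X q q', (1 / (G : ℝ)) * ∑ j ∈ F a, (2 * ‖ES X u (al G j)‖ ^ 2 + ε) := by
        unfold ov2
        exact sum_le_sum harc
    _ = (1 / (G : ℝ)) * ∑ j ∈ (Cs X q q').biUnion F, (2 * ‖ES X u (al G j)‖ ^ 2 + ε) := by
        rw [← mul_sum, sum_biUnion hdisj]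
    _ ≤ (1 / (G : ℝ)) * ∑ j ∈ Od G X (r + 1) q q', (2 * ‖ES X u (al G j)‖ ^ 2 + ε) := by
        refine mul_le_mul_of_nonneg_left ?_ (by positivity)
        exact sum_le_sum_of_subset_of_nonneg hsub fun j _ _ => by positivity
    _ = 2 * ((1 / (G : ℝ)) * ∑ j ∈ Od G X (r + 1) q q', ‖ES X u (al G j)‖ ^ 2) +
        (1 / (G : ℝ)) * ((Od G X (r + 1) q q').card * ε) := by
        rw [sum_add_distrib, sum_const, nsmul_eq_mul, ← mul_sum]
        ring
    _ ≤ 2 * ((1 / (G : ℝ)) * ∑ j ∈ Od G X (r + 1) q q', ‖ES X u (al G j)‖ ^ 2) + 1 := by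
        have h1 : (1 / (G : ℝ)) * ((Od G X (r + 1) q q').card * ε) ≤ (1 / (G : ℝ)) * (G * 1) := by
          apply mul_le_mul_of_nonneg_left _ (by positivity)
          exact mul_le_mul hcard hε1 hε0 hG0.le
        have h2 : (1 / (G : ℝ)) * (G * 1) = 1 := by
          field_simp
        linarith

end Pool.MP_dd84fd_nt.JX
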