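import Pool.Agent.Lib.MP_dd84fd_nt.JX.GVb
import Pool.Agent.Lib.MP_dd84fd_nt.JX.GCellB
import Pool.Agent.Lib.MP_dd84fd_nt.DivBound

/-!
# JX-GB2 (0.4 h): blocks on the arcs

`w n = ∑_{m ∣ n} [n/m ≤ K] a m c (n/m)`; `|w n| ≤ L^(2C) τ(n)`, so `∑_{n ≤ X} |w n| ≤ X²` for large `X` (`τ(n) ≤ X^e`, or `τ(n) ≤ 2√n`). `cell_ov2` with `G = X^5`, `r = 2 L^K2` (`8 q r ≤ X`, `q' < X` since `P0I ≤ X^(81/100)`), `es_bl`, `od_t2`: `ov2 ≤ 2 X^(1-7e) + 1 ≤ 3 X^(1-7e)`.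
-/

set_option autoImplicit false

namespace Pool.MP_dd84fd_nt.JX

open Finset Pool.MP_67663b_nt.Odd Pool.MP_dd84fd_nt.En Pool.MP_dd84fd_nt.E2 Pool.MP_dd84fd_nt.LS
open Pool.MP_dd84fd_nt.L2G (nrm)
open Pool.MP_dd84fd_nt.GX Pool.MP_dd84fd_nt.HX Pool.MP_dd84fd_nt.IX
open Pool.MP_dd84fd_nt.PL (rr Fam)

theorem P0I_le {th e τ : ℝ} (hA : Adm th e τ) {X : ℕ} (hX : 1 ≤ X) :
    P0I th e X ≤ (X : ℝ) ^ (88 / 100 : ℝ) := by
  obtain ⟨h1, h2, h3, h4, h5⟩ := hA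
  unfold P0I
  exact Real.rpow_le_rpow_of_exponent_le (by exact_mod_cast hX) (by linarith)

theorem ov_t2 (hV : VlemP) (th e τ : ℝ) (hA : Adm th e τ) (K2 C : ℕ) : ∃ X0 : ℕ, ∀ X : ℕ, X0 ≤ X →
    ∀ (M K : ℕ) (a c : ℕ → ℝ), (∀ n, |a n| ≤ (Real.log X) ^ C ∧ |c n| ≤ (Real.log X) ^ C) →
    (X : ℝ) ^ τ / 2 ≤ M → (M : ℝ) ≤ yB th e X → K * M ≤ X →
    (∀ m, a m ≠ 0 → M < m ∧ m ≤ 2 * M ∧ m * K ≤ X) → ∀ q q' : ℕ, QqP th e X q q' →
    ov2 X (ES X (fun n => ∑ m ∈ n.divisors, (if n / m ≤ K then a m * c (n / m) else 0)))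
      (2 * (Real.log X) ^ K2) q q' ≤ 3 * (X : ℝ) ^ (1 - 7 * e) := by
  obtain ⟨X1, hX1⟩ := od_t2 hV th e τ hA K2 C
  obtain ⟨X2, hX2⟩ := MP_log_pow 16 K2 (ε := 1 / 10) (by norm_num)
  obtain ⟨D, hD1, hD⟩ := Pool.Agent.Lib.MP_dd84fd_nt.DivBound.div_bound 2
  obtain ⟨X3, hX3⟩ := MP_log_pow D (4 * C) (ε := 1) (by norm_num)
  obtain ⟨X4, hX4⟩ := MP_log_large 1
  refine ⟨max (max X1 X2) (max (max X3 X4) 100), fun X hX M K a c hac hM1 hM2 hKM hsupp q q'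
    hqq => ?_⟩
  simp only [max_le_iff] at hX
  obtain ⟨⟨g1, g2⟩, ⟨g3, g4⟩, g5⟩ := hX
  have hXn : 1 ≤ X := by omega
  have hX0 : (0 : ℝ) < X := by exact_mod_cast (by omega : 0 < X)
  have hXr : (1 : ℝ) < X := by exact_mod_cast (by omega : 1 < X)
  have k2 := hX2 X g2
  have k3 := hX3 X g3
  rw [Real.rpow_one] at k3
  have k4 := hX4 X g4
  have hP := P0I_le hA hXn
  obtain ⟨hne, hq1, hq2, hq1', hq2'⟩ := hqq
  set L := Real.log (X : ℝ) with hL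
  have hL0 : 0 < L := by linarith
  have hLC : 1 ≤ L ^ C := one_le_pow₀ k4
  -- sizes
  have h81 : (X : ℝ) ^ (1 / 10 : ℝ) * (X : ℝ) ^ (88 / 100 : ℝ) ≤ X := by
    rw [← Real.rpow_add hX0]
    nth_rewrite 2 [← Real.rpow_one (X : ℝ)]
    exact Real.rpow_le_rpow_of_exponent_le hXr.le (by norm_num)
  have hqr : 8 * (q : ℝ) * (2 * L ^ K2) ≤ X := by
    calc 8 * (q : ℝ) * (2 * L ^ K2) = (16 * L ^ K2) * q := by ring
      _ ≤ (X : ℝ) ^ (1 / 10 : ℝ) * (X : ℝ) ^ (88 / 100 : ℝ) :=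
          mul_le_mul k2 (hq2.trans hP) (Nat.cast_nonneg q) (by positivity)
      _ ≤ X := h81
  have hqX : q' < X := by
    have h1 : (q' : ℝ) < X := by
      refine lt_of_le_of_lt (hq2'.trans hP) ?_
      nth_rewrite 2 [← Real.rpow_one (X : ℝ)]
      exact Real.rpow_lt_rpow_of_exponent_lt hXr (by norm_num)
    exact_mod_cast h1
  -- coefficients
  set w : ℕ → ℝ := fun n => ∑ m ∈ n.divisors, (if n / m ≤ K then a m * c (n / m) else 0) with hw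
  have hw1 : ∀ n ∈ Icc 1 X, |w n| ≤ X := by
    intro n hn
    rw [mem_Icc] at hn
    have h1 : |w n| ≤ L ^ (2 * C) * (n.divisors.card : ℝ) := by
      rw [hw]
      dsimp only
      refine (abs_sum_le_sum_abs _ _).trans ?_
      refine (sum_le_card_nsmul _ _ (L ^ (2 * C)) fun m _ => ?_).trans (le_of_eq ?_)
      · split_ifs
        · rw [abs_mul, two_mul, pow_add]
          exact mul_le_mul (hac m).1 (hac _).2 (abs_nonneg _) (by positivity)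
        · rw [abs_zero]
          positivity
      · rw [nsmul_eq_mul, mul_comm]
    have h2 : ((n.divisors.card : ℝ)) ^ 2 ≤ D * X := by
      have h3 := hD n (by omega)
      have h4 : ((n.divisors.card : ℝ)) ^ 2 ≤ D * n := by exact_mod_cast h3
      refine h4.trans ?_
      exact mul_le_mul_of_nonneg_left (by exact_mod_cast hn.2) (Nat.cast_nonneg D)
    have h5 : (L ^ (2 * C) * (n.divisors.card : ℝ)) ^ 2 ≤ (X : ℝ) ^ 2 := by
      calc (L ^ (2 * C) * (n.divisors.card : ℝ)) ^ 2 = L ^ (4 * C) * (n.divisors.card : ℝ) ^ 2 := by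
            rw [mul_pow, ← pow_mul]
            congr 2
            ring
        _ ≤ L ^ (4 * C) * (D * X) := mul_le_mul_of_nonneg_left h2 (by positivity)
        _ = (D * L ^ (4 * C)) * X := by ring
        _ ≤ X * X := mul_le_mul_of_nonneg_right k3 hX0.le
        _ = (X : ℝ) ^ 2 := by ring
    exact h1.trans (abs_le_of_sq_le_sq' h5 hX0.le).2
  have hw2 : ∑ n ∈ Icc 1 X, |w n| ≤ (X : ℝ) ^ 2 := by
    refine (sum_le_card_nsmul _ _ (X : ℝ) hw1).trans (le_of_eq ?_)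
    rw [nsmul_eq_mul, Nat.card_Icc, Nat.add_sub_cancel]
    ring
  haveI : NeZero (X ^ 5) := ⟨pow_ne_zero 5 (by omega)⟩
  have hLK : 1 ≤ L ^ K2 := one_le_pow₀ k4
  have hmain := cell_ov2 X g5 (X ^ 5) le_rfl w hw2 (2 * L ^ K2) (by linarith) q q' hq1 hq1' hne
    hqr hqX
  have h2 := hX1 X g1 (X ^ 5) le_rfl M K a c hac hM1 hM2 hKM q q' ⟨hne, hq1, hq2, hq1', hq2'⟩
  have h3 : ∀ j : ZMod (X ^ 5), ES X w (al (X ^ 5) j) = Bf M K a c (al (X ^ 5) j) :=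
    fun j => es_bl X M K a c hsupp _
  simp only [h3] at hmain
  have h4 : (1 : ℝ) ≤ (X : ℝ) ^ (1 - 7 * e) := by
    obtain ⟨a1, a2, a3, a4, a5⟩ := hA
    exact Real.one_le_rpow hXr.le (by linarith)
  linarith

end Pool.MP_dd84fd_nt.JX
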