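import Pool.Agent.Lib.MP_dd84fd_nt.JX.GT1
import Pool.Agent.Lib.MP_dd84fd_nt.JX.GB2

/-!
# JX-GOv: structured functions on the overlaps

`L = log X`, `r = 2 L^K2`. `u` structured: on `Icc 1 X`, `u = ∑_{i<I} T_i + ∑_{i<I} B_i` (`Str`),
`ES X u = ∑ ES X T_i + ∑ ES X B_i` (`ES_add`); Cauchy:
`‖ES u‖² ≤ 2 I (∑ ‖ES T_i‖² + ∑ ‖ES B_i‖²)` pointwise, integrated (continuity `ES_cont`) and
summed over `a ∈ Cs`: `ov2 u ≤ 2 I (∑ ov2 T_i + ∑ ov2 B_i) ≤ 8 L^(2C) X^(1-7e) ≤ X^(1-5e)`.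
`ovE ≤ (ov2 u + ov2 v)/2` (`2ab ≤ a² + b²` inside the integrals).
-/

set_option autoImplicit false

namespace Pool.MP_dd84fd_nt.JX

open Finset Pool.MP_67663b_nt.Odd Pool.MP_dd84fd_nt.En Pool.MP_dd84fd_nt.E2 Pool.MP_dd84fd_nt.LS
open Pool.MP_dd84fd_nt.L2G (nrm)
open Pool.MP_dd84fd_nt.GX Pool.MP_dd84fd_nt.HX Pool.MP_dd84fd_nt.IX
open Pool.MP_dd84fd_nt.PL (rr Fam)

private theorem ovS_sum {ι : Type*} (X : ℕ) (t : Finset ι) (c : ι → ℕ → ℝ) (θ : ℝ) :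
    ES X (fun n => ∑ i ∈ t, c i n) θ = ∑ i ∈ t, ES X (c i) θ := by
  unfold ES
  rw [sum_comm]
  refine sum_congr rfl fun n _ => ?_
  push_cast
  rw [sum_mul]

private theorem ovS_congr (X : ℕ) (c d : ℕ → ℝ) (θ : ℝ) (h : ∀ n ∈ Icc 1 X, c n = d n) :
    ES X c θ = ES X d θ := by
  unfold ES
  refine sum_congr rfl fun n hn => ?_
  rw [h n hn]

/-- `ovE ≤ (ov2 u + ov2 v)/2` -/
private theorem ovE_le (X : ℕ) (u v : ℕ → ℝ) (r : ℝ) (hr : 0 ≤ r) (q q' : ℕ) :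
    ovE X u v r q q' ≤ (ov2 X (ES X u) r q q' + ov2 X (ES X v) r q q') / 2 := by
  unfold ovE ov2 arcE
  rw [← sum_add_distrib, sum_div]
  refine sum_le_sum fun a _ => ?_
  have h1 : 0 ≤ r / (X : ℝ) := by positivity
  have hle : -r / (X : ℝ) ≤ r / X := by
    rw [neg_div]
    linarith
  have cu : Continuous fun x : ℝ => ES X u ((a : ℝ) / q + x) :=
    (ES_cont X u).comp (continuous_const.add continuous_id)
  have cv : Continuous fun x : ℝ => ES X v ((a : ℝ) / q + x) :=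
    (ES_cont X v).comp (continuous_const.add continuous_id)
  have e1 : ((∫ x in (-r / (X : ℝ))..(r / X), ‖ES X u ((a : ℝ) / q + x)‖ ^ 2) +
      ∫ x in (-r / (X : ℝ))..(r / X), ‖ES X v ((a : ℝ) / q + x)‖ ^ 2) / 2 =
      ∫ x in (-r / (X : ℝ))..(r / X), (‖ES X u ((a : ℝ) / q + x)‖ ^ 2 +
        ‖ES X v ((a : ℝ) / q + x)‖ ^ 2) / 2 := by
    rw [intervalIntegral.integral_div, intervalIntegral.integral_add]
    · exact (cu.norm.pow 2).intervalIntegrable _ _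
    · exact (cv.norm.pow 2).intervalIntegrable _ _
  rw [e1]
  refine intervalIntegral.integral_mono_on hle
    ((cu.norm.mul cv.norm).intervalIntegrable _ _)
    ((((cu.norm.pow 2).add (cv.norm.pow 2)).div_const 2).intervalIntegrable _ _) fun x _ => ?_
  have := sq_nonneg (‖ES X u ((a : ℝ) / q + x)‖ - ‖ES X v ((a : ℝ) / q + x)‖)
  nlinarith

/-- Cauchy's inequality for a sum of two sums -/
private theorem cauchy2 (I : ℕ) (f g : ℕ → ℂ) :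
    ‖∑ i ∈ range I, f i + ∑ i ∈ range I, g i‖ ^ 2 ≤
      2 * (I : ℝ) * (∑ i ∈ range I, ‖f i‖ ^ 2 + ∑ i ∈ range I, ‖g i‖ ^ 2) := by
  have h : ∀ f : ℕ → ℂ, ‖∑ i ∈ range I, f i‖ ^ 2 ≤ (I : ℝ) * ∑ i ∈ range I, ‖f i‖ ^ 2 := by
    intro f
    have h1 : ‖∑ i ∈ range I, f i‖ ≤ ∑ i ∈ range I, ‖f i‖ := norm_sum_le _ _
    have h2 : (∑ i ∈ range I, ‖f i‖) ^ 2 ≤ ((range I).card : ℝ) * ∑ i ∈ range I, ‖f i‖ ^ 2 :=
      sq_sum_le_card_mul_sum_sq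
    rw [card_range] at h2
    exact (pow_le_pow_left₀ (norm_nonneg _) h1 2).trans h2
  have h3 := norm_add_le (∑ i ∈ range I, f i) (∑ i ∈ range I, g i)
  have h4 := h f
  have h5 := h g
  have h6 := sq_nonneg (‖∑ i ∈ range I, f i‖ - ‖∑ i ∈ range I, g i‖)
  have h7 : ‖∑ i ∈ range I, f i + ∑ i ∈ range I, g i‖ ^ 2 ≤
      (‖∑ i ∈ range I, f i‖ + ‖∑ i ∈ range I, g i‖) ^ 2 :=
    pow_le_pow_left₀ (norm_nonneg _) h3 2
  nlinarith

/-- `ov2` of a sum of two sums -/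
private theorem ov2_two (X I : ℕ) (S : ℝ → ℂ) (f g : ℕ → ℝ → ℂ)
    (hS : ∀ θ, S θ = ∑ i ∈ range I, f i θ + ∑ i ∈ range I, g i θ) (cS : Continuous S)
    (cf : ∀ i, Continuous (f i)) (cg : ∀ i, Continuous (g i)) (r : ℝ) (hr : 0 ≤ r) (q q' : ℕ) :
    ov2 X S r q q' ≤ 2 * (I : ℝ) * (∑ i ∈ range I, ov2 X (f i) r q q' +
      ∑ i ∈ range I, ov2 X (g i) r q q') := by
  unfold ov2
  rw [sum_comm, sum_comm (s := range I) (t := Cs X q q')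
    (f := fun i a => ∫ x in (-r / (X : ℝ))..(r / X), ‖g i ((a : ℝ) / q + x)‖ ^ 2),
    ← sum_add_distrib, mul_sum]
  refine sum_le_sum fun a _ => ?_
  have h1 : 0 ≤ r / (X : ℝ) := by positivity
  have hle : -r / (X : ℝ) ≤ r / X := by
    rw [neg_div]
    linarith
  have sh : ∀ F : ℝ → ℂ, Continuous F → Continuous fun x : ℝ => ‖F ((a : ℝ) / q + x)‖ ^ 2 :=
    fun F hF => (hF.comp (continuous_const.add continuous_id)).norm.pow 2
  have e1 : ∀ F : ℕ → ℝ → ℂ, (∀ i, Continuous (F i)) →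
      ∑ i ∈ range I, ∫ x in (-r / (X : ℝ))..(r / X), ‖F i ((a : ℝ) / q + x)‖ ^ 2 =
      ∫ x in (-r / (X : ℝ))..(r / X), ∑ i ∈ range I, ‖F i ((a : ℝ) / q + x)‖ ^ 2 := by
    intro F hF
    rw [intervalIntegral.integral_finsetSum]
    intro i _
    exact (sh (F i) (hF i)).intervalIntegrable _ _
  have c1 : ∀ F : ℕ → ℝ → ℂ, (∀ i, Continuous (F i)) →
      Continuous fun x : ℝ => ∑ i ∈ range I, ‖F i ((a : ℝ) / q + x)‖ ^ 2 :=
    fun F hF => continuous_finsetSum _ fun i _ => sh (F i) (hF i)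
  rw [e1 f cf, e1 g cg, ← intervalIntegral.integral_add ((c1 f cf).intervalIntegrable _ _)
    ((c1 g cg).intervalIntegrable _ _), ← intervalIntegral.integral_const_mul]
  refine intervalIntegral.integral_mono_on hle ((sh S cS).intervalIntegrable _ _)
    ((((c1 f cf).add (c1 g cg)).const_mul _).intervalIntegrable _ _) fun x _ => ?_
  rw [hS]
  exact cauchy2 I _ _

/-- the numerical facts -/
private theorem ov_num (e : ℝ) (he : 0 < e) (C : ℕ) : ∃ X0 : ℕ,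
    ∀ X : ℕ, X0 ≤ X → 1 ≤ X ∧ 1 ≤ Real.log X ∧
      8 * (Real.log X) ^ (2 * C) * (X : ℝ) ^ (1 - 7 * e) ≤ (X : ℝ) ^ (1 - 5 * e) := by
  obtain ⟨X1, h1⟩ := MP_log_large 1
  obtain ⟨X4, h4⟩ := MP_log_pow 8 (2 * C) (ε := 2 * e) (by positivity)
  refine ⟨max (max X1 X4) 1, fun X hX => ?_⟩
  simp only [max_le_iff] at hX
  obtain ⟨⟨g1, g4⟩, g5⟩ := hX
  have k1 := h1 X g1
  have k4 := h4 X g4
  have hX1 : (1 : ℝ) ≤ X := by exact_mod_cast g5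
  have hX0 : (0 : ℝ) < X := by linarith
  refine ⟨g5, k1, ?_⟩
  have e1 : (X : ℝ) ^ (1 - 5 * e) = (X : ℝ) ^ (2 * e) * (X : ℝ) ^ (1 - 7 * e) := by
    rw [← Real.rpow_add hX0]
    congr 1
    ring
  rw [e1]
  exact mul_le_mul_of_nonneg_right k4 (by positivity)

/-- one structured function -/
private theorem ov_one (th e τ : ℝ) (K2 C : ℕ) (X : ℕ) (u : ℕ → ℝ)
    (hu : Str C th e τ X u) (q q' : ℕ) (hL : 1 ≤ Real.log X)
    (h1 : ∀ γ α : ℕ → ℝ, (∀ n, |γ n| ≤ (Real.log X) ^ C) →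
      ∑ n ∈ Ico 1 X, |γ (n + 1) - γ n| ≤ (Real.log X) ^ C → (∀ l, |α l| ≤ (Real.log X) ^ C) →
      (∀ l : ℕ, ZJ th e X < l → α l = 0) →
      ov2 X (ES X (fun n => γ n * ∑ l ∈ n.divisors, α l)) (2 * (Real.log X) ^ K2) q q' ≤
        (X : ℝ) ^ (1 - 7 * e))
    (h2 : ∀ (M K : ℕ) (a c : ℕ → ℝ),
      (∀ n, |a n| ≤ (Real.log X) ^ C ∧ |c n| ≤ (Real.log X) ^ C) → (X : ℝ) ^ τ / 2 ≤ M →
      (M : ℝ) ≤ yB th e X → K * M ≤ X →
      (∀ m, a m ≠ 0 → M < m ∧ m ≤ 2 * M ∧ m * K ≤ X) →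
      ov2 X (ES X (fun n => ∑ m ∈ n.divisors, (if n / m ≤ K then a m * c (n / m) else 0)))
        (2 * (Real.log X) ^ K2) q q' ≤ 3 * (X : ℝ) ^ (1 - 7 * e)) :
    ov2 X (ES X u) (2 * (Real.log X) ^ K2) q q' ≤
      8 * (Real.log X) ^ (2 * C) * (X : ℝ) ^ (1 - 7 * e) := by
  obtain ⟨I, γ, α, M, K, a, c, c1, c2, c3, c4, c5, c6, c7, c8⟩ := hu
  have hI0 : (0 : ℝ) ≤ I := Nat.cast_nonneg _
  have hXe : 0 ≤ (X : ℝ) ^ (1 - 7 * e) := by positivity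
  have hES : ∀ θ : ℝ, ES X u θ =
      ∑ i ∈ range I, ES X (fun n => γ i n * ∑ l ∈ n.divisors, α i l) θ +
      ∑ i ∈ range I, ES X (fun n => ∑ m ∈ n.divisors,
        (if n / m ≤ K i then a i m * c i (n / m) else 0)) θ := by
    intro θ
    rw [ovS_congr X u _ θ c8, ES_add, ovS_sum, ovS_sum]
  have s1 := ov2_two X I (ES X u) (fun i => ES X (fun n => γ i n * ∑ l ∈ n.divisors, α i l))
    (fun i => ES X (fun n => ∑ m ∈ n.divisors, (if n / m ≤ K i then a i m * c i (n / m) else 0)))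
    hES (ES_cont X u) (fun i => ES_cont X _) (fun i => ES_cont X _)
    (2 * (Real.log X) ^ K2) (by positivity) q q'
  have s3 : ∑ i ∈ range I, ov2 X (ES X (fun n => γ i n * ∑ l ∈ n.divisors, α i l))
      (2 * (Real.log X) ^ K2) q q' ≤ (I : ℝ) * (X : ℝ) ^ (1 - 7 * e) := by
    refine (sum_le_card_nsmul _ _ _ fun i _ =>
      h1 (γ i) (α i) (c2 i).1 (c2 i).2 (c3 i) (c4 i)).trans ?_
    rw [nsmul_eq_mul, card_range]
  have s4 : ∑ i ∈ range I, ov2 X (ES X (fun n => ∑ m ∈ n.divisors,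
      (if n / m ≤ K i then a i m * c i (n / m) else 0))) (2 * (Real.log X) ^ K2) q q' ≤
      (I : ℝ) * (3 * (X : ℝ) ^ (1 - 7 * e)) := by
    refine (sum_le_card_nsmul _ _ _ fun i _ =>
      h2 (M i) (K i) (a i) (c i) (c5 i) (c6 i).1 (c6 i).2.1 (c6 i).2.2 fun m hm =>
        ⟨(c7 i m hm).1, (c7 i m hm).2.1, (c7 i m hm).2.2.2⟩).trans ?_
    rw [nsmul_eq_mul, card_range]
  have hI2 : (I : ℝ) * I ≤ (Real.log X) ^ (2 * C) := by
    calc (I : ℝ) * I ≤ (Real.log X) ^ C * (Real.log X) ^ C :=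
          mul_le_mul c1 c1 hI0 (by positivity)
      _ = (Real.log X) ^ (2 * C) := by
          rw [← pow_add]
          congr 1
          ring
  refine s1.trans ?_
  calc _ ≤ 2 * (I : ℝ) * ((I : ℝ) * (X : ℝ) ^ (1 - 7 * e) +
        (I : ℝ) * (3 * (X : ℝ) ^ (1 - 7 * e))) :=
        mul_le_mul_of_nonneg_left (add_le_add s3 s4) (by positivity)
    _ = 8 * ((I : ℝ) * I) * (X : ℝ) ^ (1 - 7 * e) := by ring
    _ ≤ 8 * (Real.log X) ^ (2 * C) * (X : ℝ) ^ (1 - 7 * e) := by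
        refine mul_le_mul_of_nonneg_right ?_ hXe
        exact mul_le_mul_of_nonneg_left hI2 (by norm_num)

theorem ov_str (hV : VlemP) (th e τ : ℝ) (hA : Adm th e τ) (K2 C : ℕ) : ∃ X0 : ℕ,
    ∀ X : ℕ, X0 ≤ X → ∀ u v : ℕ → ℝ, Str C th e τ X u → Str C th e τ X v → ∀ q q' : ℕ,
    QqP th e X q q' → ovE X u v (2 * (Real.log X) ^ K2) q q' ≤ (X : ℝ) ^ (1 - 5 * e) := by
  obtain ⟨X1, h1⟩ := ov_t1 th e τ hA K2 C
  obtain ⟨X2, h2⟩ := ov_t2 hV th e τ hA K2 C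
  obtain ⟨X3, h3⟩ := ov_num e hA.2.2.1 C
  refine ⟨max (max X1 X2) X3, fun X hX u v hu hv q q' hQ => ?_⟩
  simp only [max_le_iff] at hX
  obtain ⟨⟨g1, g2⟩, g3⟩ := hX
  obtain ⟨k1, k2, k3⟩ := h3 X g3
  have main : ∀ w : ℕ → ℝ, Str C th e τ X w →
      ov2 X (ES X w) (2 * (Real.log X) ^ K2) q q' ≤ (X : ℝ) ^ (1 - 5 * e) := by
    intro w hw
    exact (ov_one th e τ K2 C X w hw q q' k2
      (fun γ α b1 b2 b3 b4 => h1 X g1 γ α b1 b2 b3 b4 q q' hQ)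
      (fun M K a c b1 b2 b3 b4 b5 => h2 X g2 M K a c b1 b2 b3 b4 b5 q q' hQ)).trans k3
  have m3 := ovE_le X u v (2 * (Real.log X) ^ K2) (by positivity) q q'
  have m4 := main u hu
  have m5 := main v hv
  linarith

end Pool.MP_dd84fd_nt.JX
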