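import Pool.Agent.Lib.MP_dd84fd_nt.JX.GHv
import Pool.Agent.Lib.MP_dd84fd_nt.JX.GOv
import Pool.Agent.Lib.MP_dd84fd_nt.JX.GStrW
import Pool.Agent.Lib.MP_dd84fd_nt.IX.GrErr
import Pool.Agent.Lib.MP_dd84fd_nt.IX.GrSml
import Pool.Agent.Lib.MP_dd84fd_nt.HX.GrLight
import Pool.Agent.Lib.MP_dd84fd_nt.HX.GrCover

/-!
# JX-GFin (helper23): GreedyJ

Adapt `IX/GrFin.lean`: `StrWJ (2A+12)` instead of `SupI`, `ov_str` + `heavy_j` instead of `heavy_i`.
-/

set_option autoImplicit false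

namespace Pool.MP_dd84fd_nt.JX

open Finset Pool.MP_67663b_nt.Odd Pool.MP_dd84fd_nt.En Pool.MP_dd84fd_nt.E2 Pool.MP_dd84fd_nt.LS
open Pool.MP_dd84fd_nt.L2G (nrm)
open Pool.MP_dd84fd_nt.GX Pool.MP_dd84fd_nt.HX Pool.MP_dd84fd_nt.IX
open Pool.MP_dd84fd_nt.PL (rr Fam)

theorem greedy_j (hV : VlemP) : GreedyJ := by
  intro A
  obtain ⟨B, hB⟩ := strWJ (2 * A + 12)
  refine ⟨B, fun K0 C1 C2 K1 K2 => ⟨A + K1 + K2 + 10, fun K th e τ hA ww gg h1 hD h3 => ?_⟩⟩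
  obtain ⟨C, hC⟩ := hB K0 C1 C2
  obtain ⟨D0, hD0⟩ := small_i K0 C1 ww gg h1 h3 (A + 1) (K + K1) K2
  refine ⟨max 1 D0, fun D' hD' => ?_⟩
  have hD1 : 1 ≤ D' := le_trans (le_max_left _ _) hD'
  obtain ⟨X1, hX1⟩ := hD0 D' (le_trans (le_max_right _ _) hD')
  obtain ⟨X2, hX2⟩ := hC th e τ hA ww gg h1 hD D' hD1
  obtain ⟨X3, hX3⟩ := heavy_j th e τ hA K2
  obtain ⟨X7, hX7⟩ := ov_str hV th e τ hA K2 C
  obtain ⟨X4, hX4⟩ := cf_le K0 C1 D' ww gg h1
  obtain ⟨X5, hX5⟩ := light_h (A + 1) K1 e hA.2.2.1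
  obtain ⟨X6, hX6⟩ := MP_log_pow 4 K2 (ε := 1 / 10) (by norm_num)
  refine ⟨max (max (max X1 X2) (max X3 X4)) (max (max X5 X6) (max X7 ⌈Real.exp 100⌉₊)), fun X hX => ?_⟩
  simp only [max_le_iff] at hX
  obtain ⟨⟨⟨hXa, hXb⟩, hXc, hXd⟩, ⟨hXe, hXg⟩, hXh, hXf⟩ := hX
  have hXf' : Real.exp 100 ≤ (X : ℝ) := (Nat.le_ceil _).trans (by exact_mod_cast hXf)
  have hXpos : (0 : ℝ) < X := (Real.exp_pos _).trans_le hXf'
  have hXone : 1 ≤ X := by
    have : (0 : ℝ) < (X : ℝ) := hXpos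
    exact_mod_cast this
  have hX1r : (1 : ℝ) ≤ X := by exact_mod_cast hXone
  obtain ⟨hth1, hth2, he0, hτ1, hτ2⟩ := hA
  have he2 : e ≤ 1 / 1000 := by linarith
  have hp6 := hX6 X hXg
  have hsm := hX1 X hXa
  have hli := hX5 X hXe
  set L := Real.log (X : ℝ) with hL
  have hL100 : 100 ≤ L := by
    rw [hL, Real.le_log_iff_exp_le hXpos]; exact hXf'
  have hL0 : 0 < L := by linarith
  have hL1 : 1 ≤ L := by linarith
  set w := wX D' X with hw
  set r := 2 * L ^ K2 with hr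
  have hr0 : 0 ≤ r := by positivity
  obtain ⟨sm, em, hstm, hem3, hem1⟩ := hX2 X hXb (-1) (by norm_num)
  obtain ⟨sp, ep, hstp, hep3, hep1⟩ := hX2 X hXb 1 (by norm_num)
  obtain ⟨-, hcm2, -⟩ := hX4 X hXd (-1) (by norm_num)
  obtain ⟨-, hcp2, -⟩ := hX4 X hXd 1 (by norm_num)
  set cm : ℕ → ℝ := cfI ww gg (-1) w X with hcm
  set cp : ℕ → ℝ := cfI ww gg 1 w X with hcp
  have hsmd : ∀ n ∈ Icc 1 X, cm n - sm n = em n := by
    intro n hn
    have := hem3 n hn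
    have e0 : cm n = ww X n + -1 * fI gg X w n := rfl
    rw [e0, this]
    ring
  have hspd : ∀ n ∈ Icc 1 X, cp n - sp n = ep n := by
    intro n hn
    have := hep3 n hn
    have e0 : cp n = ww X n + 1 * fI gg X w n := rfl
    rw [e0, this]
    ring
  have hL4 : (X : ℝ) / L ^ (2 * A + 12) ≤ X * L ^ 4 / 2 := by
    rw [div_le_div_iff₀ (by positivity) (by norm_num)]
    have h1 : (1 : ℝ) ≤ L ^ (2 * A + 12) := one_le_pow₀ hL1
    have h2 : (2 : ℝ) ≤ L ^ 4 := by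
      have : (100 : ℝ) ^ 4 ≤ L ^ 4 := pow_le_pow_left₀ (by norm_num) hL100 4
      linarith [this, (by norm_num : (2 : ℝ) ≤ 100 ^ 4)]
    calc (X : ℝ) * 2 ≤ X * L ^ 4 := mul_le_mul_of_nonneg_left h2 hXpos.le
      _ = X * L ^ 4 * 1 := (mul_one _).symm
      _ ≤ X * L ^ 4 * L ^ (2 * A + 12) := mul_le_mul_of_nonneg_left h1 (by positivity)
  have hsq : ∀ (c er : ℕ → ℝ), ∑ n ∈ Icc 1 X, c n ^ 2 ≤ X * L ^ 4 →
      ∑ n ∈ Icc 1 X, er n ^ 2 ≤ X / L ^ (2 * A + 12) →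
      ∑ n ∈ Icc 1 X, (c n - er n) ^ 2 ≤ 3 * X * L ^ 4 := by
    intro c er h1 h2
    calc ∑ n ∈ Icc 1 X, (c n - er n) ^ 2 ≤ ∑ n ∈ Icc 1 X, (2 * c n ^ 2 + 2 * er n ^ 2) :=
          sum_le_sum fun n _ => by nlinarith [sq_nonneg (c n + er n)]
      _ = 2 * ∑ n ∈ Icc 1 X, c n ^ 2 + 2 * ∑ n ∈ Icc 1 X, er n ^ 2 := by
          rw [sum_add_distrib, mul_sum, mul_sum]
      _ ≤ 3 * X * L ^ 4 := by linarith
  have hsm2 : ∑ n ∈ Icc 1 X, sm n ^ 2 ≤ 3 * X * L ^ 4 := by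
    refine le_trans (le_of_eq (sum_congr rfl fun n hn => ?_)) (hsq cm em hcm2 hem1)
    rw [← hsmd n hn]
    ring
  have hsp2 : ∑ n ∈ Icc 1 X, sp n ^ 2 ≤ 3 * X * L ^ 4 := by
    refine le_trans (le_of_eq (sum_congr rfl fun n hn => ?_)) (hsq cp ep hcp2 hep1)
    rw [← hspd n hn]
    ring
  have hsup : ∀ q q' : ℕ, QqP th e X q q' →
      ovE X sm sp (2 * (Real.log X) ^ K2) q q' ≤ (X : ℝ) ^ (1 - 5 * e) :=
    fun q q' hqq => hX7 X hXh sm sp hstm hstp q q' hqq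
  have hheavy := hX3 X hXc sm sp hsm2 hsp2 hsup
  rw [← hL] at hheavy
  set wt : ℕ → ℝ := fun q => WtE X sm sp r q with hwtd
  have hwt : ∀ q, 0 ≤ wt q := fun q => WtE_nonneg X sm sp r hr0 q
  set P := ⌊P0I th e X⌋₊ with hP
  have hP0 : 0 ≤ P0I th e X := Real.rpow_nonneg hXpos.le _
  set Z := L ^ (K + K1) with hZ
  set Y := L ^ K1 with hY
  classical
  set QS : Finset ℕ := (Icc 1 P).filter
    (fun q : ℕ => Z < (q : ℝ) ∧ (X : ℝ) ^ (1 - e) ≤ wt q) with hQS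
  have hQS1 : ∀ q ∈ QS, 1 ≤ q ∧ (q : ℝ) ≤ P0I th e X ∧ (X : ℝ) ^ (1 - e) ≤
      WtE X sm sp (2 * L ^ K2) q := by
    intro q hq
    rw [hQS, mem_filter, mem_Icc] at hq
    exact ⟨hq.1.1, (Nat.cast_le.mpr hq.1.2).trans (Nat.floor_le hP0), hq.2.2⟩
  have hmass : ∑ q ∈ QS, wt q ≤ X * L ^ (K2 + 6) := hheavy QS hQS1
  set wf : ℕ → ℝ := fun q => if q ∈ QS then wt q else 0 with hwf
  have hwf0 : ∀ q, 0 ≤ wf q := by
    intro q
    rw [hwf]
    dsimp only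
    split_ifs
    · exact hwt q
    · exact le_refl 0
  have hwfs : ∑ q ∈ Icc 1 P, wf q ≤ X * L ^ (K2 + 6) := by
    have e1 : ∑ q ∈ Icc 1 P, wf q = ∑ q ∈ QS, wt q := by
      rw [hwf]
      dsimp only
      rw [← sum_filter]
      refine sum_congr ?_ fun _ _ => rfl
      ext q
      rw [mem_filter]
      refine ⟨fun h => h.2, fun h => ⟨?_, h⟩⟩
      rw [hQS, mem_filter] at h
      exact h.1
    rw [e1]
    exact hmass
  have hη : (0 : ℝ) < X / (8 * L ^ A) := by positivity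
  obtain ⟨D, hDc, hDd, hDn⟩ := cover_abs X P hXone Z Y (X * L ^ (K2 + 6)) (X / (8 * L ^ A)) wf hwf0
    (by positivity) hη hwfs
  refine ⟨D, ?_, ?_, ?_⟩
  · refine hDc.trans ?_
    have e1 : Y * (X * L ^ (K2 + 6)) / (X / (8 * L ^ A)) * L = 8 * L ^ (A + K1 + K2 + 7) := by
      rw [hY]
      field_simp
      ring
    rw [e1]
    have e2 : L ^ (A + K1 + K2 + 10) = L ^ 3 * L ^ (A + K1 + K2 + 7) := by
      rw [← pow_add]; ring_nf
    rw [e2]
    have e3 : (1 : ℝ) ≤ L ^ (A + K1 + K2 + 7) := one_le_pow₀ hL1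
    have e4 : (9 : ℝ) ≤ L ^ 3 := by
      have : (100 : ℝ) ^ 3 ≤ L ^ 3 := pow_le_pow_left₀ (by norm_num) hL100 3
      linarith [this, (by norm_num : (9 : ℝ) ≤ 100 ^ 3)]
    nlinarith
  · intro d hd
    obtain ⟨e1, e2⟩ := hDd d hd
    constructor
    · have e3 : L ^ K * Y < Y * d := by
        have : Z = L ^ K * Y := by rw [hZ, hY, pow_add]
        rw [← this]; exact e1
      have hYp : 0 < Y := by positivity
      nlinarith
    · calc (d : ℝ) ≤ P := by exact_mod_cast e2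
        _ ≤ P0I th e X := Nat.floor_le hP0
        _ ≤ _ := Real.rpow_le_rpow_of_exponent_le hX1r (by linarith)
  · intro n hn hnd QQ N hQQ hN hNX
    change ∑ q ∈ QQ, WtE X cm cp r q ≤ _
    have hNP : N ≤ P0I th e X := hNX
    have hqP : ∀ q ∈ QQ, (q : ℝ) ≤ P0I th e X := by
      intro q hq
      have := hN q hq q hq
      rw [Nat.lcm_self] at this
      exact this.trans hNP
    have hrN : ∀ M : ℝ, M ≤ P0I th e X → 2 * r * M ≤ X := by
      intro M hM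
      have g2 : 2 * r * M ≤ (X : ℝ) ^ (1 / 10 : ℝ) * P0I th e X := by
        calc 2 * r * M ≤ 2 * r * P0I th e X := mul_le_mul_of_nonneg_left hM (by positivity)
          _ = (4 * L ^ K2) * P0I th e X := by rw [hr]; ring
          _ ≤ _ := mul_le_mul_of_nonneg_right hp6 hP0
      refine g2.trans ?_
      unfold P0I
      rw [← Real.rpow_add hXpos]
      calc (X : ℝ) ^ (1 / 10 + (1 - th + 3 / 2 * e)) ≤ (X : ℝ) ^ (1 : ℝ) :=
            Real.rpow_le_rpow_of_exponent_le hX1r (by linarith)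
        _ = X := Real.rpow_one _
    have hwt0 : ∀ q, 0 ≤ WtE X cm cp r q := fun q => WtE_nonneg X cm cp r hr0 q
    set Q1 := QQ.filter (fun q : ℕ => (q : ℝ) ≤ Z) with hQ1
    set Q2 := QQ.filter (fun q : ℕ => ¬ (q : ℝ) ≤ Z) with hQ2
    have hsplit : ∑ q ∈ QQ, WtE X cm cp r q =
        ∑ q ∈ Q1, WtE X cm cp r q + ∑ q ∈ Q2, WtE X cm cp r q := by
      rw [hQ1, hQ2, sum_filter_add_sum_filter_not]
    rw [hsplit]
    have hQ2q : ∀ q ∈ Q2, q ∈ QQ := fun q hq => (mem_filter.mp hq).1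
    have b1 : ∑ q ∈ Q1, WtE X cm cp r q ≤ X / L ^ (A + 1) := by
      refine le_trans (sum_le_sum_of_subset_of_nonneg ?_ fun q _ _ => hwt0 q) hsm
      intro q hq
      rw [hQ1, mem_filter] at hq
      rw [mem_Icc]
      exact ⟨(hQQ q hq.1).1, Nat.le_floor hq.2⟩
    have hFam : Fam Q2 N := ⟨fun q hq => (hQQ q (hQ2q q hq)).1,
      fun q hq q' hq' => hN q (hQ2q q hq) q' (hQ2q q' hq')⟩
    have hT0 : (0 : ℝ) < L ^ (A + 8) := by positivity
    have b2 : ∑ q ∈ Q2, WtE X cm cp r q ≤ ∑ q ∈ Q2, wt q +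
        ∑ q ∈ Q2, WtE X (fun n => cm n - sm n) cp r q +
        ∑ q ∈ Q2, WtE X sm (fun n => cp n - sp n) r q := by
      rw [← sum_add_distrib, ← sum_add_distrib]
      exact sum_le_sum fun q _ => WtE_split3 X hXone r hr0 cm cp sm sp q
    have e3X : (0 : ℝ) ≤ X / L ^ A := by positivity
    have b3 : ∑ q ∈ Q2, WtE X (fun n => cm n - sm n) cp r q ≤ X / L ^ A / 100 := by
      refine (WtE_err X hXone r hr0 Q2 N hFam (hrN N hNP) _ _ (L ^ (A + 8)) hT0).trans ?_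
      have g1 : ∑ n ∈ Icc 1 X, (cm n - sm n) ^ 2 ≤ X / L ^ (2 * A + 12) := by
        refine le_trans (le_of_eq (sum_congr rfl fun n hn => ?_)) hem1
        rw [hsmd n hn]
      have g2 : L ^ (A + 8) * ∑ n ∈ Icc 1 X, (cm n - sm n) ^ 2 ≤ X / L ^ A / L ^ 4 := by
        refine (mul_le_mul_of_nonneg_left g1 hT0.le).trans (le_of_eq ?_)
        rw [show 2 * A + 12 = (A + 8) + A + 4 by ring, pow_add, pow_add]
        field_simp
        ring
      have g3 : (∑ n ∈ Icc 1 X, cp n ^ 2) / L ^ (A + 8) ≤ X / L ^ A / L ^ 4 := by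
        refine (div_le_div_of_nonneg_right hcp2 hT0.le).trans (le_of_eq ?_)
        rw [show A + 8 = A + 4 + 4 by ring, pow_add, pow_add]
        field_simp
        ring
      have g4 : X / L ^ A / L ^ 4 ≤ X / L ^ A / 200 := by
        refine div_le_div_of_nonneg_left e3X (by norm_num) ?_
        have : (100 : ℝ) ^ 4 ≤ L ^ 4 := pow_le_pow_left₀ (by norm_num) hL100 4
        linarith [this, (by norm_num : (200 : ℝ) ≤ 100 ^ 4)]
      linarith
    have b4 : ∑ q ∈ Q2, WtE X sm (fun n => cp n - sp n) r q ≤ X / L ^ A / 100 := by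
      refine (WtE_err X hXone r hr0 Q2 N hFam (hrN N hNP) _ _ (1 / L ^ (A + 8))
        (by positivity)).trans ?_
      have g1 : ∑ n ∈ Icc 1 X, (cp n - sp n) ^ 2 ≤ X / L ^ (2 * A + 12) := by
        refine le_trans (le_of_eq (sum_congr rfl fun n hn => ?_)) hep1
        rw [hspd n hn]
      have g2 : (∑ n ∈ Icc 1 X, (cp n - sp n) ^ 2) / (1 / L ^ (A + 8)) ≤ X / L ^ A / L ^ 4 := by
        rw [div_div_eq_mul_div, div_one, mul_comm]
        refine (mul_le_mul_of_nonneg_left g1 hT0.le).trans (le_of_eq ?_)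
        rw [show 2 * A + 12 = (A + 8) + A + 4 by ring, pow_add, pow_add]
        field_simp
        ring
      have g3 : 1 / L ^ (A + 8) * ∑ n ∈ Icc 1 X, sm n ^ 2 ≤ 3 * (X / L ^ A / L ^ 4) := by
        refine (mul_le_mul_of_nonneg_left hsm2 (by positivity)).trans (le_of_eq ?_)
        rw [show A + 8 = A + 4 + 4 by ring, pow_add, pow_add]
        field_simp
      have g4 : X / L ^ A / L ^ 4 ≤ X / L ^ A / 400 := by
        refine div_le_div_of_nonneg_left e3X (by norm_num) ?_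
        have : (100 : ℝ) ^ 4 ≤ L ^ 4 := pow_le_pow_left₀ (by norm_num) hL100 4
        linarith [this, (by norm_num : (400 : ℝ) ≤ 100 ^ 4)]
      linarith
    have b5 : ∑ q ∈ Q2.filter (fun q => q ∉ QS), wt q ≤ X / L ^ (A + 1) := by
      refine hli wt _ n hn fun q hq => ?_
      rw [mem_filter, hQ2, mem_filter] at hq
      obtain ⟨⟨hq1, hq2⟩, hq3⟩ := hq
      refine ⟨(hQQ q hq1).1, (hQQ q hq1).2, ?_⟩
      by_contra hcon
      apply hq3
      rw [hQS, mem_filter, mem_Icc]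
      exact ⟨⟨(hQQ q hq1).1, Nat.le_floor (hqP q hq1)⟩, not_le.mp hq2, (not_le.mp hcon).le⟩
    have b6 : ∑ q ∈ Q2.filter (fun q => q ∈ QS), wt q ≤ X / (8 * L ^ A) := by
      refine le_trans ?_ (hDn n hn hnd)
      have e1 : ∑ q ∈ Q2.filter (fun q => q ∈ QS), wt q =
          ∑ q ∈ Q2.filter (fun q => q ∈ QS), wf q := by
        refine sum_congr rfl fun q hq => ?_
        rw [hwf]
        dsimp only
        rw [if_pos (mem_filter.mp hq).2]
      rw [e1]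
      refine sum_le_sum_of_subset_of_nonneg ?_ fun q _ _ => hwf0 q
      intro q hq
      have hq1 := mem_filter.mp (mem_filter.mp hq).1
      rw [mem_filter, mem_Icc]
      exact ⟨⟨(hQQ q hq1.1).1, Nat.le_floor (hqP q hq1.1)⟩, not_le.mp hq1.2, (hQQ q hq1.1).2⟩
    have b7 : ∑ q ∈ Q2, wt q = ∑ q ∈ Q2.filter (fun q => q ∈ QS), wt q +
        ∑ q ∈ Q2.filter (fun q => q ∉ QS), wt q := by
      rw [sum_filter_add_sum_filter_not]
    have e1 : (X : ℝ) / L ^ (A + 1) ≤ X / L ^ A / 100 := by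
      rw [pow_succ, div_div, div_le_div_iff_of_pos_left hXpos (by positivity) (by positivity)]
      exact mul_le_mul_of_nonneg_left hL100 (by positivity)
    have e2 : (X : ℝ) / (8 * L ^ A) = X / L ^ A / 8 := by
      rw [div_div, mul_comm]
    rw [e2] at b6
    linarith

end Pool.MP_dd84fd_nt.JX
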