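import Pool.Agent.Lib.MP_dd84fd_nt.JX.SSt
import Pool.Agent.Lib.MP_dd84fd_nt.JX.STr

/-!
# JX-SAll: the structure theorem and the tree theorem
-/

set_option autoImplicit false

namespace Pool.MP_dd84fd_nt.JX

theorem tree_all : TreeJ := tree_j st_j

end Pool.MP_dd84fd_nt.JX
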