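import Pool.Agent.Lib.MP_dd84fd_nt.JX.FaFin
import Pool.Agent.Lib.MP_dd84fd_nt.JX.JF2
import Pool.Agent.Lib.MP_dd84fd_nt.JX.DcP
import Pool.Agent.Lib.MP_dd84fd_nt.JX.SAll
import Pool.Agent.Lib.MP_dd84fd_nt.JX.GFin
import Pool.Agent.Lib.MP_dd84fd_nt.JX.GVl
import Pool.Agent.Lib.MP_dd84fd_nt.JX.PlFin
import Pool.Agent.Lib.MP_dd84fd_nt.IX.CeMain

/-!
# GEN_J and Theorem J
-/

set_option autoImplicit false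

namespace Pool.MP_dd84fd_nt.JX

open Finset Pool.MP_67663b_nt.Odd Pool.MP_dd84fd_nt.En Pool.MP_dd84fd_nt.E2 Pool.MP_dd84fd_nt.LS
  Pool.MP_dd84fd_nt.GX Pool.MP_dd84fd_nt.HX

theorem genJ : GenJ :=
  gen_j strWJ tree_all Pool.MP_dd84fd_nt.JXP.pl_j (greedy_j vlemP) Pool.MP_dd84fd_nt.IX.centre_i

open Classical in
/-- Theorem J -/
theorem fin_j (A : ℕ) : ∃ C : ℕ, ∀ θ ε : ℝ, 1 / 3 ≤ θ → θ ≤ 1 → 0 < ε → ∀ K : ℕ,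
    ∃ X0 : ℕ, ∀ X : ℕ, X0 ≤ X → ∃ D : Finset ℕ,
      (D.card : ℝ) ≤ (Real.log X) ^ C ∧
      (∀ d ∈ D, (Real.log X) ^ K ≤ (d : ℝ) ∧ (d : ℝ) ≤ (X : ℝ) ^ (1 - θ)) ∧
      ∀ P : ℕ → Prop, ∀ _ : DecidablePred P,
        (∀ n, P n → Even n ∧ (∀ d ∈ D, (d : ℝ) ≤ (n : ℝ) ^ (1 - θ) → ¬ d ∣ n) ∧ Exc A n) →
        (((Icc 1 X).filter P).card : ℝ) ≤ (X : ℝ) ^ (θ + ε) :=
  finJ (genPJ genJ decP) A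

end Pool.MP_dd84fd_nt.JX
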