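import Pool.Agent.Lib.MP_dd84fd_nt.JX.FaQQ
import Pool.Agent.Lib.MP_dd84fd_nt.IX.FaDisc

/-!
# JX-FaDisc: the structured set is a union of disjoint discs (copy of IX-FaDisc)
-/

set_option autoImplicit false

namespace Pool.MP_dd84fd_nt.JX

open Finset Pool.MP_67663b_nt.Odd Pool.MP_dd84fd_nt.En Pool.MP_dd84fd_nt.E2 Pool.MP_dd84fd_nt.LS
  Pool.MP_dd84fd_nt.GX Pool.MP_dd84fd_nt.HX Pool.MP_dd84fd_nt.IX

open Pool.MP_dd84fd_nt.L2G (nrm)

open Pool.MP_dd84fd_nt.PL (rr)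

private theorem fd_dist {q q' a a' : ℕ} (hq : 1 ≤ q) (hq' : 1 ≤ q') (ha : a ∈ rr q) (ha' : a' ∈ rr q')
    (hne : ¬ (q = q' ∧ a = a')) (z : ℤ) :
    1 / (Nat.lcm q q' : ℝ) ≤ |(a : ℝ) / q - (a' : ℝ) / q' - z| := by
  unfold PL.rr at ha ha'
  rw [mem_filter, mem_range] at ha ha'
  obtain ⟨ha1, ha2⟩ := ha
  obtain ⟨ha1', ha2'⟩ := ha'
  set D : ℕ := Nat.lcm q q' with hD
  have hD0 : 0 < D := Nat.lcm_pos (by omega) (by omega)
  obtain ⟨u, hu⟩ : q ∣ D := Nat.dvd_lcm_left q q'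
  obtain ⟨v, hv⟩ : q' ∣ D := Nat.dvd_lcm_right q q'
  have hq0 : (0 : ℝ) < q := by exact_mod_cast hq
  have hq0' : (0 : ℝ) < q' := by exact_mod_cast hq'
  have hD0r : (0 : ℝ) < D := by exact_mod_cast hD0
  have hur : (D : ℝ) = q * u := by exact_mod_cast hu
  have hvr : (D : ℝ) = q' * v := by exact_mod_cast hv
  have hu0 : (u : ℝ) ≠ 0 := by
    intro h
    rw [h, mul_zero] at hur
    linarith
  have hv0 : (v : ℝ) ≠ 0 := by
    intro h
    rw [h, mul_zero] at hvr
    linarith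
  set m : ℤ := (a : ℤ) * u - (a' : ℤ) * v - z * D with hm
  have hdiff : (a : ℝ) / q - (a' : ℝ) / q' - z = (m : ℝ) / D := by
    have e1 : (a : ℝ) / q = a * u / D := by
      rw [hur]; field_simp
    have e2 : (a' : ℝ) / q' = a' * v / D := by
      rw [hvr]; field_simp
    have e3 : (z : ℝ) = z * D / D := by field_simp
    rw [e1, e2, hm]
    push_cast
    rw [sub_div, sub_div, ← e3]
  have hm0 : m ≠ 0 := by
    intro h0
    apply hne
    rw [h0, Int.cast_zero, zero_div] at hdiff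
    have b1 : (a : ℝ) / q < 1 := by
      rw [div_lt_one hq0]; exact_mod_cast ha1
    have b2 : (a' : ℝ) / q' < 1 := by
      rw [div_lt_one hq0']; exact_mod_cast ha1'
    have b3 : (0 : ℝ) ≤ (a : ℝ) / q := by positivity
    have b4 : (0 : ℝ) ≤ (a' : ℝ) / q' := by positivity
    have hz : z = 0 := by
      have h1 : (z : ℝ) < 1 := by linarith
      have h2 : (-1 : ℝ) < z := by linarith
      have h3 : z < 1 := by exact_mod_cast h1
      have h4 : -1 < z := by exact_mod_cast h2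
      omega
    rw [hz, Int.cast_zero, sub_zero] at hdiff
    have h2 : (a : ℝ) / q = (a' : ℝ) / q' := by linarith
    have h3 : a * q' = a' * q := by
      rw [div_eq_div_iff hq0.ne' hq0'.ne'] at h2
      exact_mod_cast h2
    have h4 : q ∣ q' := by
      have : q ∣ a * q' := ⟨a', by rw [h3]; ring⟩
      exact (Nat.Coprime.dvd_of_dvd_mul_left ha2.symm this)
    have h5 : q' ∣ q := by
      have : q' ∣ a' * q := ⟨a, by rw [← h3]; ring⟩
      exact (Nat.Coprime.dvd_of_dvd_mul_left ha2'.symm this)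
    have h6 : q = q' := Nat.dvd_antisymm h4 h5
    refine ⟨h6, ?_⟩
    rw [← h6] at h3
    exact Nat.eq_of_mul_eq_mul_right (by omega) h3
  have hm1 : (1 : ℝ) ≤ |(m : ℝ)| := by
    have : (1 : ℤ) ≤ |m| := Int.one_le_abs hm0
    exact_mod_cast this
  rw [hdiff, abs_div, abs_of_pos hD0r]
  exact div_le_div_of_nonneg_right hm1 hD0r.le


private theorem fd_small (th e τ : ℝ) (hA : Adm th e τ) (X : ℕ) (hX : 1025 ≤ X) :
    2 * y3 (dl th e) X < X ∧ 2 * (X : ℝ) ^ (1 - th + 3 / 2 * e) < X := by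
  have hX17 : (1025 : ℝ) ≤ X := by exact_mod_cast hX
  have hX0 : (0 : ℝ) < X := by linarith
  obtain ⟨a1, a2, a3, a4, a5⟩ := hA
  have h1 : 2 * (X : ℝ) ^ (9 / 10 : ℝ) < X := by
    have h2 : (2 : ℝ) < (X : ℝ) ^ (1 / 10 : ℝ) := by
      have h3 : ((1024 : ℝ)) ^ (1 / 10 : ℝ) < (X : ℝ) ^ (1 / 10 : ℝ) :=
        Real.rpow_lt_rpow (by norm_num) (by linarith) (by norm_num)
      have h4 : ((1024 : ℝ)) ^ (1 / 10 : ℝ) = 2 := by
        rw [show (1024 : ℝ) = 2 ^ (10 : ℝ) by norm_num, ← Real.rpow_mul (by norm_num)]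
        norm_num
      rwa [h4] at h3
    calc 2 * (X : ℝ) ^ (9 / 10 : ℝ) < (X : ℝ) ^ (1 / 10 : ℝ) * (X : ℝ) ^ (9 / 10 : ℝ) :=
          mul_lt_mul_of_pos_right h2 (Real.rpow_pos_of_pos hX0 _)
      _ = X := by
          rw [← Real.rpow_add hX0]
          norm_num
  have hX1 : (1 : ℝ) ≤ X := by linarith
  constructor
  · rw [y3_dl]
    refine lt_of_le_of_lt ?_ h1
    have : (X : ℝ) ^ (1 - th + 3 * e) ≤ (X : ℝ) ^ (9 / 10 : ℝ) :=
      Real.rpow_le_rpow_of_exponent_le hX1 (by linarith)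
    linarith
  · refine lt_of_le_of_lt ?_ h1
    have : (X : ℝ) ^ (1 - th + 3 / 2 * e) ≤ (X : ℝ) ^ (9 / 10 : ℝ) :=
      Real.rpow_le_rpow_of_exponent_le hX1 (by linarith)
    linarith

theorem disc_sumJ (th e τ : ℝ) (hA : Adm th e τ) : ∃ X0 : ℕ, ∀ X : ℕ, X0 ≤ X →
    ∀ (Λ : ℕ) (bb : ℝ), 1 ≤ Λ → 1 ≤ bb → Λ * bb ≤ 2 * (X : ℝ) ^ (1 - th + e) →
    ∀ (G : ℕ) [NeZero G], ∀ j : ZMod G, 1 - wSI G th e X Λ bb j =
      ∑ q ∈ QQi th e X Λ, ∑ a ∈ rr q, din ((a : ℝ) / q) (rdi th e X Λ bb q / X) (al G j) := by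
  classical
  obtain ⟨X1, hX1⟩ := qq_factsJ th e τ hA
  refine ⟨max X1 1025, fun X hX Λ bb hΛ hb hΛb G _ j => ?_⟩
  obtain ⟨F1, F2, -, -⟩ := hX1 X ((le_max_left _ _).trans hX) Λ bb hΛ hb hΛb
  have hX17 : 1025 ≤ X := (le_max_right _ _).trans hX
  obtain ⟨s1, s2⟩ := fd_small th e τ hA X hX17
  have hX0 : (0 : ℝ) < X := by
    have : 0 < X := by omega
    exact_mod_cast this
  set α := al G j with hα
  have hiff := ssi_iff th e X Λ bb α (by omega) s1 hΛ hb
  by_cases hS : SSI th e X Λ bb α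
  · have hL : 1 - wSI G th e X Λ bb j = 1 := by
      unfold wSI
      rw [if_pos hS, sub_zero]
    rw [hL]
    obtain ⟨q, hq, a, ha, hr⟩ := hiff.1 hS
    obtain ⟨q1, -, -, -⟩ := F1 q hq
    have hqz : (0 : ℤ) < q := by exact_mod_cast q1
    have hq0 : (0 : ℝ) < q := by exact_mod_cast q1
    -- the residue
    set a0 : ℕ := (a % q).toNat with ha0
    have e0 : ((a0 : ℕ) : ℤ) = a % q := Int.toNat_of_nonneg (Int.emod_nonneg a hqz.ne')
    have ea : (a : ℤ) = a0 + q * (a / q) := by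
      rw [e0]
      exact (Int.emod_add_mul_ediv a q).symm
    have hmem : a0 ∈ rr q := by
      unfold PL.rr
      rw [mem_filter, mem_range]
      constructor
      · have : (a0 : ℤ) < q := by rw [e0]; exact Int.emod_lt_of_pos a hqz
        exact_mod_cast this
      · have h1 : Int.gcd (a0 : ℤ) q = 1 := by
          rw [e0, Int.gcd_emod]
          exact ha
        exact h1
    have hdin : ∀ q' ∈ QQi th e X Λ, ∀ a' ∈ rr q', ¬ (q' = q ∧ a' = a0) →
        din ((a' : ℝ) / q') (rdi th e X Λ bb q' / X) α = 0 := by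
      intro q' hq' a' ha' hne
      unfold din
      rw [if_neg]
      rintro ⟨z, hz⟩
      obtain ⟨q1', -, -, -⟩ := F1 q' hq'
      have hdist := fd_dist q1' q1 ha' hmem hne ((a / q : ℤ) - z)
      have hlpos : (0 : ℝ) < (Nat.lcm q' q : ℝ) := by
        exact_mod_cast Nat.lcm_pos (by omega) (by omega)
      have e3 : (a : ℝ) / q = (a0 : ℝ) / q + ((a / q : ℤ) : ℝ) := by
        have : (a : ℝ) = a0 + q * ((a / q : ℤ) : ℝ) := by exact_mod_cast ea
        rw [this]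
        field_simp
      have e4 : |(a' : ℝ) / q' - (a0 : ℝ) / q - (((a / q : ℤ) - z : ℤ) : ℝ)| ≤
          (rdi th e X Λ bb q' + rdi th e X Λ bb q) / X := by
        have : (a' : ℝ) / q' - (a0 : ℝ) / q - (((a / q : ℤ) - z : ℤ) : ℝ) =
            (α - (a : ℝ) / q) - (α - (a' : ℝ) / q' - z) := by
          rw [e3]
          push_cast
          ring
        rw [this, add_div]
        refine (abs_sub _ _).trans ?_
        linarith
      have h5 : 1 / (Nat.lcm q' q : ℝ) ≤ (rdi th e X Λ bb q' + rdi th e X Λ bb q) / X := hdist.trans e4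
      rw [div_le_div_iff₀ hlpos hX0, one_mul] at h5
      have hl := F2 q' hq' q hq
      obtain ⟨-, r1, -, r2⟩ := F1 q' hq'
      obtain ⟨-, r3, -, r4⟩ := F1 q hq
      have h6 : (rdi th e X Λ bb q' + rdi th e X Λ bb q) * (Nat.lcm q' q : ℝ) ≤
          (rdi th e X Λ bb q' + rdi th e X Λ bb q) * ((X : ℝ) ^ (e / 5) * Λ) :=
        mul_le_mul_of_nonneg_left hl (by linarith)
      nlinarith
    rw [Finset.sum_eq_single_of_mem q hq, Finset.sum_eq_single_of_mem a0 hmem]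
    · unfold din
      rw [if_pos]
      refine ⟨a / q, ?_⟩
      have e3 : (a : ℝ) / q = (a0 : ℝ) / q + ((a / q : ℤ) : ℝ) := by
        have : (a : ℝ) = a0 + q * ((a / q : ℤ) : ℝ) := by exact_mod_cast ea
        rw [this]
        field_simp
      rw [e3] at hr
      rw [sub_sub]
      exact hr
    · intro a' ha' hne
      exact hdin q hq a' ha' (fun h => hne h.2)
    · intro q' hq' hne
      exact Finset.sum_eq_zero fun a' ha' => hdin q' hq' a' ha' (fun h => hne h.1)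
  · have hL : 1 - wSI G th e X Λ bb j = 0 := by
      unfold wSI
      rw [if_neg hS, sub_self]
    rw [hL]
    symm
    refine Finset.sum_eq_zero fun q hq => Finset.sum_eq_zero fun a ha => ?_
    unfold din
    rw [if_neg]
    rintro ⟨z, hz⟩
    apply hS
    rw [hiff]
    obtain ⟨q1, -, -, -⟩ := F1 q hq
    have hq0 : (0 : ℝ) < q := by exact_mod_cast q1
    refine ⟨q, hq, (a : ℤ) + z * q, ?_, ?_⟩
    · unfold PL.rr at ha
      rw [mem_filter] at ha
      rw [Int.gcd_add_mul_right_left]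
      exact ha.2
    · have : α - (((a : ℤ) + z * q : ℤ) : ℝ) / q = α - (a : ℝ) / q - z := by
        push_cast
        field_simp
        ring
      rw [this]
      exact hz

end Pool.MP_dd84fd_nt.JX
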