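import Pool.Agent.Lib.MP_dd84fd_nt.JX.GDefs

/-!
# JX-GBl (0.4 h): the exponential sum of a block

`es_bl`: `∑_{n ≤ X} (∑_{m ∣ n} [n/m ≤ K] a_m c_{n/m}) e(nθ) = ∑_{m ≤ X} ∑_{k ≤ X/m} [k ≤ K] a_m c_k e(mkθ)` (swap: copy the private lemma `ixgb_swap` of `IX/GrBV.lean`); `a_m = 0` unless `M < m ≤ 2M` and `m K ≤ X`, and then `k ≤ K` implies `k ≤ X/m`; for `K ≥ 1` such `m` are `≤ X`; for `K = 0` both sides are `0` (`n/m ≥ 1` for `m ∣ n`).
`bf_disc`: `LS.chi_ee` (`al G j = j.val/G`).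
-/

set_option autoImplicit false

namespace Pool.MP_dd84fd_nt.JX

open Finset Pool.MP_67663b_nt.Odd Pool.MP_dd84fd_nt.En Pool.MP_dd84fd_nt.E2 Pool.MP_dd84fd_nt.LS
open Pool.MP_dd84fd_nt.L2G (nrm)
open Pool.MP_dd84fd_nt.GX Pool.MP_dd84fd_nt.HX Pool.MP_dd84fd_nt.IX
open Pool.MP_dd84fd_nt.PL (rr Fam)

private theorem gbl_swap (N : ℕ) (F : ℕ → ℕ → ℂ) :
    ∑ n ∈ Icc 1 N, ∑ d ∈ n.divisors, F d (n / d) =
      ∑ d ∈ Icc 1 N, ∑ e ∈ Icc 1 (N / d), F d e := by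
  rw [Finset.sum_sigma', Finset.sum_sigma']
  refine Finset.sum_bij' (fun p _ => (⟨p.2, p.1 / p.2⟩ : Σ _ : ℕ, ℕ))
    (fun p _ => (⟨p.1 * p.2, p.1⟩ : Σ _ : ℕ, ℕ)) ?_ ?_ ?_ ?_ ?_
  · rintro ⟨n, d⟩ h
    rw [Finset.mem_sigma, Finset.mem_Icc, Nat.mem_divisors] at h
    obtain ⟨⟨h1, h2⟩, h3, h4⟩ := h
    simp only at h1 h2 h3 h4
    rw [Finset.mem_sigma, Finset.mem_Icc, Finset.mem_Icc]
    have hd : 0 < d := Nat.pos_of_dvd_of_pos h3 (by omega)
    have hdn : d ≤ n := Nat.le_of_dvd (by omega) h3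
    refine ⟨⟨hd, by simp only; omega⟩, ?_, ?_⟩
    · exact Nat.div_pos hdn hd
    · exact Nat.div_le_div_right h2
  · rintro ⟨d, e⟩ h
    rw [Finset.mem_sigma, Finset.mem_Icc, Finset.mem_Icc] at h
    obtain ⟨⟨h1, h2⟩, h3, h4⟩ := h
    simp only at h1 h2 h3 h4
    rw [Finset.mem_sigma, Finset.mem_Icc, Nat.mem_divisors]
    have hde : d * e ≤ N := by
      calc d * e ≤ d * (N / d) := Nat.mul_le_mul_left _ h4
        _ ≤ N := Nat.mul_div_le N d
    refine ⟨⟨Nat.mul_pos h1 h3, hde⟩, Dvd.intro _ rfl, ?_⟩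
    exact (Nat.mul_pos h1 h3).ne'
  · rintro ⟨n, d⟩ h
    rw [Finset.mem_sigma, Finset.mem_Icc, Nat.mem_divisors] at h
    obtain ⟨⟨h1, h2⟩, h3, h4⟩ := h
    simp only at h3
    simp only [Nat.mul_div_cancel' h3]
  · rintro ⟨d, e⟩ h
    rw [Finset.mem_sigma, Finset.mem_Icc, Finset.mem_Icc] at h
    obtain ⟨⟨h1, h2⟩, h3, h4⟩ := h
    simp only at h1
    simp only [Nat.mul_div_cancel_left e (show 0 < d from h1)]
  · rintro ⟨n, d⟩ h
    rfl

theorem es_bl (X M K : ℕ) (a c : ℕ → ℝ)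
    (h : ∀ m, a m ≠ 0 → M < m ∧ m ≤ 2 * M ∧ m * K ≤ X) (θ : ℝ) :
    ES X (fun n => ∑ m ∈ n.divisors, (if n / m ≤ K then a m * c (n / m) else 0)) θ =
      Bf M K a c θ := by
  classical
  set F : ℕ → ℕ → ℂ := fun m k => if k ≤ K then ((a m : ℝ) : ℂ) * ((c k : ℝ) : ℂ) *
    ee (((m * k : ℕ) : ℝ) * θ) else 0 with hF
  have e1 : ES X (fun n => ∑ m ∈ n.divisors, (if n / m ≤ K then a m * c (n / m) else 0)) θ =
      ∑ n ∈ Icc 1 X, ∑ m ∈ n.divisors, F m (n / m) := by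
    unfold ES
    refine Finset.sum_congr rfl fun n _ => ?_
    rw [Complex.ofReal_sum, Finset.sum_mul]
    refine Finset.sum_congr rfl fun m hm => ?_
    simp only [hF]
    rw [Nat.mul_div_cancel' (Nat.dvd_of_mem_divisors hm)]
    split_ifs
    · push_cast
      ring
    · simp
  rw [e1, gbl_swap]
  unfold Bf
  rcases Nat.eq_zero_or_pos K with hK | hK
  · subst hK
    have h1 : ∀ m ∈ Icc 1 X, ∑ k ∈ Icc 1 (X / m), F m k = 0 := by
      intro m _
      refine Finset.sum_eq_zero fun k hk => ?_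
      rw [mem_Icc] at hk
      simp only [hF]
      rw [if_neg (by omega)]
    rw [Finset.sum_congr rfl h1]
    simp
  · have h1 : ∀ m ∈ Icc 1 X, ∑ k ∈ Icc 1 (X / m), F m k =
        ∑ k ∈ Icc 1 K, ((a m : ℝ) : ℂ) * ((c k : ℝ) : ℂ) * ee (((m * k : ℕ) : ℝ) * θ) := by
      intro m hm
      rw [mem_Icc] at hm
      by_cases ha : a m = 0
      · rw [Finset.sum_eq_zero, Finset.sum_eq_zero]
        · intro k _
          rw [ha]
          simp
        · intro k _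
          simp only [hF]
          rw [ha]
          simp
      · obtain ⟨_, _, h4⟩ := h m ha
        have h5 : K ≤ X / m := by
          rw [Nat.le_div_iff_mul_le (by omega), mul_comm]
          exact h4
        symm
        rw [← Finset.sum_subset (Finset.Icc_subset_Icc le_rfl h5)]
        · refine Finset.sum_congr rfl fun k hk => ?_
          rw [mem_Icc] at hk
          simp only [hF]
          rw [if_pos hk.2]
        · intro k hk hk'
          rw [mem_Icc] at hk hk'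
          simp only [hF]
          rw [if_neg (by omega)]
    rw [Finset.sum_congr rfl h1]
    have h0 : ∀ m, a m = 0 →
        ∑ k ∈ Icc 1 K, ((a m : ℝ) : ℂ) * ((c k : ℝ) : ℂ) * ee (((m * k : ℕ) : ℝ) * θ) = 0 := by
      intro m hm
      refine Finset.sum_eq_zero fun k _ => ?_
      rw [hm]
      simp
    have hS1 : (Ioc M (2 * M)).filter (fun m => a m ≠ 0) ⊆ Icc 1 X := by
      intro m hm
      rw [mem_filter] at hm
      obtain ⟨h2, h3, h4⟩ := h m hm.2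
      rw [mem_Icc]
      refine ⟨by omega, le_trans ?_ h4⟩
      exact Nat.le_mul_of_pos_right m hK
    rw [← Finset.sum_subset hS1, ← Finset.sum_subset (Finset.filter_subset (fun m => a m ≠ 0)
      (Ioc M (2 * M)))]
    · intro m hm hm'
      rw [mem_filter, not_and_not_right] at hm'
      exact h0 m (hm' hm)
    · intro m _ hm'
      by_cases ha : a m = 0
      · exact h0 m ha
      · exfalso
        apply hm'
        rw [mem_filter, mem_Ioc]
        obtain ⟨h2, h3, _⟩ := h m ha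
        exact ⟨⟨h2, h3⟩, ha⟩

private theorem gbl_chi_ee (N : ℕ) [NeZero N] (n : ℕ) (j : ZMod N) :
    ZMod.stdAddChar ((n : ZMod N) * j) = ee ((n : ℝ) * ((j.val : ℝ) / N)) := by
  have h : ((n : ZMod N) * j) = (((n : ℤ) * (j.val : ℤ) : ℤ) : ZMod N) := by
    push_cast
    rw [ZMod.natCast_zmod_val]
  rw [h, ZMod.stdAddChar_coe]
  unfold ee
  congr 1
  push_cast
  ring

theorem bf_disc (G : ℕ) [NeZero G] (M K : ℕ) (a c : ℕ → ℝ) (j : ZMod G) :
    Bf M K a c (al G j) = ∑ m ∈ Ioc M (2 * M), ∑ k ∈ Icc 1 K,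
      ((a m : ℝ) : ℂ) * ((c k : ℝ) : ℂ) * ZMod.stdAddChar (((m * k : ℕ) : ZMod G) * j) := by
  unfold Bf
  refine Finset.sum_congr rfl fun m _ => Finset.sum_congr rfl fun k _ => ?_
  rw [gbl_chi_ee]
  rfl

end Pool.MP_dd84fd_nt.JX
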