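import Pool.Agent.Lib.MP_dd84fd_nt.JX.GDefs

/-!
# JX-GCs (0.4 h): the fractions near fractions with denominator `q'`

Adapt `IX/GrCo.lean` (`coin_intI`, `coin_cnt`, `coin_lrg`). `cs_mem`: `b = a' + z q'`; `a q' - b q ≠ 0` by `fr_dist` (`HX/GrFrac.lean`) since `q ≠ q'` (the distance is `≥ 1/lcm > 0`); `|a q' - b q| = q q' |a/q - b/q'| ≤ q q'/X`.
`cs_card`: `pair_count` (`IX/GrPair.lean`) with `V = q q'/X`. `cs_lrg`: a nonzero integer is `≥ 1` in absolute value.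
-/

set_option autoImplicit false

namespace Pool.MP_dd84fd_nt.JX

open Finset Pool.MP_67663b_nt.Odd Pool.MP_dd84fd_nt.En Pool.MP_dd84fd_nt.E2 Pool.MP_dd84fd_nt.LS
open Pool.MP_dd84fd_nt.L2G (nrm)
open Pool.MP_dd84fd_nt.GX Pool.MP_dd84fd_nt.HX Pool.MP_dd84fd_nt.IX
open Pool.MP_dd84fd_nt.PL (rr Fam)

theorem cs_mem {X q q' a : ℕ} (hX : 1 ≤ X) (hq : 1 ≤ q) (hq' : 1 ≤ q') (hne : q ≠ q')
    (ha : a ∈ Cs X q q') : a ∈ rr q ∧ ∃ b : ℤ, (a : ℤ) * q' - b * q ≠ 0 ∧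
      |(a : ℝ) / q - (b : ℝ) / q'| ≤ 1 / X ∧
      |(((a : ℤ) * q' - b * q : ℤ) : ℝ)| ≤ (q : ℝ) * q' / X := by
  classical
  unfold Cs at ha
  rw [mem_filter] at ha
  obtain ⟨har, a', ha', z, hz⟩ := ha
  have hqR : (0 : ℝ) < q := by exact_mod_cast hq
  have hqR' : (0 : ℝ) < q' := by exact_mod_cast hq'
  have hd := fr_dist hq hq' har ha' (fun h => hne h.1) z
  have hlcm : (0 : ℝ) < (Nat.lcm q q' : ℝ) := by
    exact_mod_cast Nat.lcm_pos (by omega) (by omega)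
  have hpos : 0 < |(a : ℝ) / q - (a' : ℝ) / q' - z| :=
    lt_of_lt_of_le (by positivity) hd
  have hid : ((((a : ℤ) * q' - ((a' : ℤ) + z * q') * q : ℤ)) : ℝ) =
      (q : ℝ) * q' * ((a : ℝ) / q - (a' : ℝ) / q' - z) := by
    push_cast
    field_simp
    ring
  have habs : |((((a : ℤ) * q' - ((a' : ℤ) + z * q') * q : ℤ)) : ℝ)| =
      (q : ℝ) * q' * |(a : ℝ) / q - (a' : ℝ) / q' - z| := by
    rw [hid, abs_mul, abs_of_pos (mul_pos hqR hqR')]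
  have hfr : (a : ℝ) / q - (((a' : ℤ) + z * q' : ℤ) : ℝ) / q' =
      (a : ℝ) / q - (a' : ℝ) / q' - z := by
    push_cast
    field_simp
    ring
  refine ⟨har, (a' : ℤ) + z * q', ?_, ?_, ?_⟩
  · intro h0
    rw [h0, Int.cast_zero, abs_zero] at habs
    have : 0 < (q : ℝ) * q' * |(a : ℝ) / q - (a' : ℝ) / q' - z| := by positivity
    linarith
  · rw [hfr]
    exact hz
  · rw [habs, div_eq_mul_one_div ((q : ℝ) * q') (X : ℝ)]
    exact mul_le_mul_of_nonneg_left hz (by positivity)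

theorem cs_card {X q q' : ℕ} (hX : 1 ≤ X) (hq : 1 ≤ q) (hq' : 1 ≤ q') (hne : q ≠ q') :
    ((Cs X q q').card : ℝ) ≤ 2 * ((q : ℝ) * q' / X) := by
  classical
  have hV : 0 ≤ (q : ℝ) * q' / (X : ℝ) := by positivity
  have hsub : Cs X q q' ⊆ (range q).filter (fun a : ℕ => ∃ b : ℤ, (a : ℤ) * q' - b * q ≠ 0 ∧
      |(((a : ℤ) * q' - b * q : ℤ) : ℝ)| ≤ (q : ℝ) * q' / X) := by
    intro a ha
    obtain ⟨har, b, h1, _, h3⟩ := cs_mem hX hq hq' hne ha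
    rw [mem_filter]
    refine ⟨?_, b, h1, h3⟩
    unfold rr at har
    exact (mem_filter.1 har).1
  have h1 : ((Cs X q q').card : ℝ) ≤ (((range q).filter (fun a : ℕ => ∃ b : ℤ,
      (a : ℤ) * q' - b * q ≠ 0 ∧
      |(((a : ℤ) * q' - b * q : ℤ) : ℝ)| ≤ (q : ℝ) * q' / X)).card : ℝ) := by
    exact_mod_cast card_le_card hsub
  refine h1.trans ?_
  have h2 := pair_count q q' hq hq' _ hV
  convert h2 using 2

theorem cs_lrg {X q q' a : ℕ} (hX : 1 ≤ X) (hq : 1 ≤ q) (hq' : 1 ≤ q') (hne : q ≠ q')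
    (ha : a ∈ Cs X q q') : (X : ℝ) ≤ (q : ℝ) * q' := by
  obtain ⟨_, b, h1, _, h3⟩ := cs_mem hX hq hq' hne ha
  have hX0 : (0 : ℝ) < X := by exact_mod_cast hX
  have h2 : (1 : ℝ) ≤ |(((a : ℤ) * q' - b * q : ℤ) : ℝ)| := by
    have := Int.one_le_abs h1
    exact_mod_cast this
  have h4 := h2.trans h3
  rwa [le_div_iff₀ hX0, one_mul] at h4

end Pool.MP_dd84fd_nt.JX
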