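import Pool.Agent.Lib.MP_dd84fd_nt.JX.Defs
import Pool.Agent.Lib.MP_dd84fd_nt.IX.GrCo

/-!
# Greedy for Theorems J and K: definitions (paper: /team-store/J23_greedy.md, J98_paper section 6)

`Cs X q q'`: the numerators `a` of the reduced fractions `a/q` at distance `≤ 1/X` (mod 1) of a reduced
fraction with denominator `q'`; `ov2`, `ovE`: masses of the arcs around these fractions; `Od`: the points
of the grid near these fractions; `Bf`: the exponential sum of a block; `VlemP`: the V-lemma (helper26);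
`HtmP`: the mass of `X/ht` on the grid points near reduced fractions with denominator `q`.
-/

set_option autoImplicit false

namespace Pool.MP_dd84fd_nt.JX

open Finset Pool.MP_67663b_nt.Odd Pool.MP_dd84fd_nt.En Pool.MP_dd84fd_nt.E2 Pool.MP_dd84fd_nt.LS
open Pool.MP_dd84fd_nt.L2G (nrm)
open Pool.MP_dd84fd_nt.GX Pool.MP_dd84fd_nt.HX Pool.MP_dd84fd_nt.IX
open Pool.MP_dd84fd_nt.PL (rr Fam)

/-- the V-lemma -/
def VlemP : Prop := ∃ (C0 : ℝ) (X0 : ℕ), 0 < C0 ∧ ∀ X : ℕ, X0 ≤ X → ∀ (G : ℕ) [NeZero G],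
  X ^ 5 ≤ G → ∀ N K q q' : ℕ, 1 ≤ N → 1 ≤ K → N * K ≤ X → 1 ≤ q → q ≤ X → 1 ≤ q' → q' ≤ X →
  ∀ (δ A T : ℝ), 0 ≤ δ → δ ≤ 1 / 4 → 1 ≤ A → 1 ≤ T → ∀ a c : ℕ → ℂ, (∀ m, ‖a m‖ ≤ A) →
  (∀ k, ‖c k‖ ≤ A) → ∀ O : Finset (ZMod G),
  (∀ j ∈ O, nrm ((q : ℝ) * al G j) ≤ δ ∧ nrm ((q' : ℝ) * al G j) ≤ δ ∧
    Int.gcd (round ((q : ℝ) * al G j)) q = 1 ∧
    round ((q : ℝ) * al G j) * (q' : ℤ) - round ((q' : ℝ) * al G j) * (q : ℤ) ≠ 0) →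
  (∀ v : ℕ, 1 ≤ v → v ≤ X → (v.divisors.card : ℝ) ≤ T) →
  (1 / (G : ℝ)) * ∑ j ∈ O, ‖∑ m ∈ Ioc N (2 * N), ∑ k ∈ Icc 1 K,
    a m * c k * ZMod.stdAddChar (((m * k : ℕ) : ZMod G) * j)‖ ^ 2 ≤
    C0 * A ^ 4 * T * (1 + N * δ) ^ 2 * K * (1 + Real.log X)

/-- the mass of `X/ht` near the reduced fractions with denominator `q` -/
def HtmP : Prop := ∃ (C0 : ℝ) (X0 : ℕ), 0 < C0 ∧ ∀ X : ℕ, X0 ≤ X → ∀ (G : ℕ) [NeZero G],
  X ^ 5 ≤ G → ∀ (q : ℕ) (r : ℝ), 1 ≤ q → 1 ≤ r → 8 * (q : ℝ) * r ≤ X → ∀ O : Finset (ZMod G),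
  (∀ j ∈ O, ∃ a ∈ rr q, |al G j - (a : ℝ) / q| ≤ r / X) →
  (1 / (G : ℝ)) * ∑ j ∈ O, ((X : ℝ) / ht X (al G j)) ^ 2 ≤
    C0 * r * (Real.log X) ^ 2 * ((X : ℝ) / q + q)

/-- numerators of the fractions `a/q` at distance `≤ 1/X` of a fraction with denominator `q'` -/
noncomputable def Cs (X q q' : ℕ) : Finset ℕ :=
  open Classical in (rr q).filter (fun a : ℕ => ∃ a' ∈ rr q', ∃ z : ℤ,
    |(a : ℝ) / q - (a' : ℝ) / q' - z| ≤ 1 / X)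

/-- the grid points at distance `≤ r/X` of a fraction `a/q`, `a ∈ Cs X q q'` -/
noncomputable def Od (G : ℕ) [NeZero G] (X : ℕ) (r : ℝ) (q q' : ℕ) : Finset (ZMod G) :=
  open Classical in univ.filter (fun j : ZMod G => ∃ a ∈ Cs X q q', |al G j - (a : ℝ) / q| ≤ r / X)

/-- the `L²` mass of `S` on the arcs of radius `r/X` around the fractions `a/q`, `a ∈ Cs X q q'` -/
noncomputable def ov2 (X : ℕ) (S : ℝ → ℂ) (r : ℝ) (q q' : ℕ) : ℝ :=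
  ∑ a ∈ Cs X q q', ∫ x in (-r / X)..(r / X), ‖S ((a : ℝ) / q + x)‖ ^ 2

/-- the mass of `|ES c1| |ES c2|` on these arcs -/
noncomputable def ovE (X : ℕ) (c1 c2 : ℕ → ℝ) (r : ℝ) (q q' : ℕ) : ℝ :=
  ∑ a ∈ Cs X q q', arcE X c1 c2 r ((a : ℝ) / q)

/-- the exponential sum of a block -/
noncomputable def Bf (M K : ℕ) (a c : ℕ → ℝ) (θ : ℝ) : ℂ :=
  ∑ m ∈ Ioc M (2 * M), ∑ k ∈ Icc 1 K, ((a m : ℝ) : ℂ) * ((c k : ℝ) : ℂ) *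
    ee (((m * k : ℕ) : ℝ) * θ)

/-- two different denominators `≤ P0I` -/
def QqP (th e : ℝ) (X q q' : ℕ) : Prop := q ≠ q' ∧ 1 ≤ q ∧ (q : ℝ) ≤ P0I th e X ∧ 1 ≤ q' ∧
  (q' : ℝ) ≤ P0I th e X

theorem ov2_nonneg (X : ℕ) (S : ℝ → ℂ) (r : ℝ) (hr : 0 ≤ r) (q q' : ℕ) : 0 ≤ ov2 X S r q q' := by
  unfold ov2
  refine sum_nonneg fun a _ => intervalIntegral.integral_nonneg ?_ fun x _ => by positivity
  have h1 : 0 ≤ r / (X : ℝ) := by positivity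
  rw [neg_div]
  linarith

end Pool.MP_dd84fd_nt.JX
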