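import Pool.Agent.Lib.MP_dd84fd_nt.JX.GMul

/-!
# JX-GHv (0.4 h): the heavy denominators

Adapt `IX/GrHv.lean` (`heavy_i`). For `S ⊆ QS` with `#S ≤ 2 X^(2e)`: `mult_j` with `B = X^(1-5e)`: `∑_S WtE ≤ 168 X L^(K2+4) + 4 X^(4e) X^(1-5e) ≤ 172 X L^(K2+4) ≤ X L^(K2+6)` (large `X`). If `#QS > 2 X^(2e)` take `#S = ⌊X^(2e)⌋₊ + 1`: `X^(2e) X^(1-e) ≤ X L^(K2+6)`, false for large `X`.
-/

set_option autoImplicit false

namespace Pool.MP_dd84fd_nt.JX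

open Finset Pool.MP_67663b_nt.Odd Pool.MP_dd84fd_nt.En Pool.MP_dd84fd_nt.E2 Pool.MP_dd84fd_nt.LS
open Pool.MP_dd84fd_nt.L2G (nrm)
open Pool.MP_dd84fd_nt.GX Pool.MP_dd84fd_nt.HX Pool.MP_dd84fd_nt.IX
open Pool.MP_dd84fd_nt.PL (rr Fam)

theorem heavy_j (th e τ : ℝ) (hA : Adm th e τ) (K2 : ℕ) : ∃ X0 : ℕ, ∀ X : ℕ, X0 ≤ X →
    ∀ (c1 c2 : ℕ → ℝ), ∑ n ∈ Icc 1 X, c1 n ^ 2 ≤ 3 * X * (Real.log X) ^ 4 →
    ∑ n ∈ Icc 1 X, c2 n ^ 2 ≤ 3 * X * (Real.log X) ^ 4 →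
    (∀ q q' : ℕ, QqP th e X q q' →
      ovE X c1 c2 (2 * (Real.log X) ^ K2) q q' ≤ (X : ℝ) ^ (1 - 5 * e)) →
    ∀ QS : Finset ℕ, (∀ q ∈ QS, 1 ≤ q ∧ (q : ℝ) ≤ P0I th e X ∧
      (X : ℝ) ^ (1 - e) ≤ WtE X c1 c2 (2 * (Real.log X) ^ K2) q) →
    ∑ q ∈ QS, WtE X c1 c2 (2 * (Real.log X) ^ K2) q ≤ X * (Real.log X) ^ (K2 + 6) := by
  obtain ⟨X1, h1⟩ := mult_j th e τ hA K2
  have he : 0 < e := hA.2.2.1
  obtain ⟨X2, h2⟩ := MP_log_pow 2 (K2 + 6) he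
  refine ⟨X1 + X2 + 1 + ⌈Real.exp 100⌉₊, fun X hX c1 c2 hc1 hc2 hov QS hQS => ?_⟩
  have hX1 : (1 : ℝ) ≤ X := by exact_mod_cast (show 1 ≤ X by omega)
  have hX0 : (0 : ℝ) < X := lt_of_lt_of_le one_pos hX1
  have hXe : ⌈Real.exp 100⌉₊ ≤ X := by omega
  have hXe' : Real.exp 100 ≤ (X : ℝ) := (Nat.le_ceil _).trans (by exact_mod_cast hXe)
  have hL : 100 ≤ Real.log X := by
    rw [Real.le_log_iff_exp_le hX0]
    exact hXe'
  have hL1 : 1 ≤ Real.log X := by linarith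
  have hL0 : 0 < Real.log X := by linarith
  have hmul : ∀ S : Finset ℕ, (∀ q ∈ S, 1 ≤ q ∧ (q : ℝ) ≤ P0I th e X) →
      (S.card : ℝ) ≤ 2 * (X : ℝ) ^ (2 * e) →
      ∑ q ∈ S, WtE X c1 c2 (2 * (Real.log X) ^ K2) q ≤ X * (Real.log X) ^ (K2 + 6) := by
    intro S hS hcard
    have h3 := h1 X (by omega) c1 c2 hc1 hc2 S hS ((X : ℝ) ^ (1 - 5 * e)) (by positivity)
      (fun q hq q' hq' hne => hov q q' ⟨hne, (hS q hq).1, (hS q hq).2, (hS q' hq').1,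
        (hS q' hq').2⟩)
    refine h3.trans ?_
    have e2 : (S.card : ℝ) ^ 2 ≤ 4 * (X : ℝ) ^ (4 * e) := by
      calc (S.card : ℝ) ^ 2 ≤ (2 * (X : ℝ) ^ (2 * e)) ^ 2 :=
            pow_le_pow_left₀ (Nat.cast_nonneg _) hcard 2
        _ = 4 * (X : ℝ) ^ (4 * e) := by
            rw [mul_pow, sq ((X : ℝ) ^ (2 * e)), ← Real.rpow_add hX0]
            norm_num
            congr 1
            ring
    have e3 : (S.card : ℝ) ^ 2 * (X : ℝ) ^ (1 - 5 * e) ≤ 4 * X := by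
      calc (S.card : ℝ) ^ 2 * (X : ℝ) ^ (1 - 5 * e)
          ≤ 4 * (X : ℝ) ^ (4 * e) * (X : ℝ) ^ (1 - 5 * e) :=
            mul_le_mul_of_nonneg_right e2 (by positivity)
        _ = 4 * (X : ℝ) ^ (1 - e) := by
            rw [mul_assoc, ← Real.rpow_add hX0]
            congr 2
            ring
        _ ≤ 4 * X := by
            have h4 : (X : ℝ) ^ (1 - e) ≤ (X : ℝ) ^ (1 : ℝ) :=
              Real.rpow_le_rpow_of_exponent_le hX1 (by linarith)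
            rw [Real.rpow_one] at h4
            linarith
    have e4 : (X : ℝ) ≤ X * (Real.log X) ^ (K2 + 4) :=
      le_mul_of_one_le_right hX0.le (one_le_pow₀ hL1)
    have hL2 : (172 : ℝ) ≤ (Real.log X) ^ 2 := by nlinarith
    calc 168 * (X : ℝ) * (Real.log X) ^ (K2 + 4) + (S.card : ℝ) ^ 2 * (X : ℝ) ^ (1 - 5 * e)
        ≤ 172 * (X * (Real.log X) ^ (K2 + 4)) := by linarith
      _ ≤ (Real.log X) ^ 2 * (X * (Real.log X) ^ (K2 + 4)) :=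
          mul_le_mul_of_nonneg_right hL2 (by positivity)
      _ = X * (Real.log X) ^ (K2 + 6) := by ring
  by_cases hcard : (QS.card : ℝ) ≤ 2 * (X : ℝ) ^ (2 * e)
  · exact hmul QS (fun q hq => ⟨(hQS q hq).1, (hQS q hq).2.1⟩) hcard
  · exfalso
    push Not at hcard
    have hp1 : (1 : ℝ) ≤ (X : ℝ) ^ (2 * e) := Real.one_le_rpow hX1 (by positivity)
    have hfl : ((⌊(X : ℝ) ^ (2 * e)⌋₊ : ℕ) : ℝ) ≤ (X : ℝ) ^ (2 * e) :=
      Nat.floor_le (by positivity)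
    have hfl2 : (X : ℝ) ^ (2 * e) < (⌊(X : ℝ) ^ (2 * e)⌋₊ : ℕ) + 1 := Nat.lt_floor_add_one _
    have hle : ⌊(X : ℝ) ^ (2 * e)⌋₊ + 1 ≤ QS.card := by
      have : ((⌊(X : ℝ) ^ (2 * e)⌋₊ + 1 : ℕ) : ℝ) ≤ QS.card := by
        push_cast
        linarith
      exact_mod_cast this
    obtain ⟨S, hSQ, hSc⟩ := Finset.exists_subset_card_eq hle
    have hS := hmul S (fun q hq => ⟨(hQS q (hSQ hq)).1, (hQS q (hSQ hq)).2.1⟩) (by
      rw [hSc]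
      push_cast
      linarith)
    have hlow : (S.card : ℝ) * (X : ℝ) ^ (1 - e) ≤
        ∑ q ∈ S, WtE X c1 c2 (2 * (Real.log X) ^ K2) q := by
      rw [← nsmul_eq_mul]
      exact Finset.card_nsmul_le_sum _ _ _ fun q hq => (hQS q (hSQ hq)).2.2
    have hcS : (X : ℝ) ^ (2 * e) ≤ (S.card : ℝ) := by
      rw [hSc]
      push_cast
      exact hfl2.le
    have h3 : (X : ℝ) ^ (2 * e) * (X : ℝ) ^ (1 - e) = X * (X : ℝ) ^ e := by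
      rw [← Real.rpow_add hX0]
      nth_rewrite 2 [← Real.rpow_one (X : ℝ)]
      rw [← Real.rpow_add hX0]
      congr 1
      ring
    have h4 : X * (X : ℝ) ^ e ≤ X * (Real.log X) ^ (K2 + 6) := by
      rw [← h3]
      refine le_trans ?_ (hlow.trans hS)
      exact mul_le_mul_of_nonneg_right hcS (by positivity)
    have h5 : (X : ℝ) ^ e ≤ (Real.log X) ^ (K2 + 6) := le_of_mul_le_mul_left h4 hX0
    have h6 := h2 X (by omega)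
    have h7 : 0 < (X : ℝ) ^ e := Real.rpow_pos_of_pos hX0 e
    linarith

end Pool.MP_dd84fd_nt.JX
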