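import Pool.Agent.Lib.MP_dd84fd_nt.JX.GCs
import Pool.Agent.Lib.MP_dd84fd_nt.IX.GrLS

/-!
# JX-GMul (0.5 h): the multiplicity argument

Adapt `IX/GrMul.lean` (`mult_i`): split `rr q` into `crI X S q` and `nrI X S q` (`IX/GrCo.lean`). Non-coincident fractions: the first half of the proof of `mult_i` word for word (`ls_arcE`, `ρ = 1/X`): `≤ 168 X L^(K2+4)`.
Coincident: `crI X S q ⊆ ⋃_{q' ∈ S, q' ≠ q} Cs X q q'` by definition (`CoinI`), `arcE ≥ 0` (`arcE_nonneg`), so `∑_{a ∈ crI} arcE ≤ ∑_{q' ∈ S.erase q} ovE q q' ≤ #S B` (`Finset.sum_biUnion_le` or induction: a nonnegative sum over a union is at most the sum of the sums). Sum over `q ∈ S`: `≤ (#S)² B`.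
-/

set_option autoImplicit false

namespace Pool.MP_dd84fd_nt.JX

open Finset Pool.MP_67663b_nt.Odd Pool.MP_dd84fd_nt.En Pool.MP_dd84fd_nt.E2 Pool.MP_dd84fd_nt.LS
open Pool.MP_dd84fd_nt.L2G (nrm)
open Pool.MP_dd84fd_nt.GX Pool.MP_dd84fd_nt.HX Pool.MP_dd84fd_nt.IX
open Pool.MP_dd84fd_nt.PL (rr Fam)

/-- a nonnegative sum over a union is at most the sum of the sums -/
private theorem sum_biUnion_le_of_nonneg (S : Finset ℕ) (t : ℕ → Finset ℕ) (f : ℕ → ℝ)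
    (hf : ∀ a, 0 ≤ f a) : ∑ a ∈ S.biUnion t, f a ≤ ∑ q ∈ S, ∑ a ∈ t q, f a := by
  classical
  induction S using Finset.induction_on with
  | empty => simp
  | insert q S hq ih =>
    rw [biUnion_insert, sum_insert hq]
    have h1 : ∑ a ∈ t q ∪ S.biUnion t, f a ≤ ∑ a ∈ t q, f a + ∑ a ∈ S.biUnion t, f a := by
      rw [← sum_union_inter]
      have : 0 ≤ ∑ a ∈ t q ∩ S.biUnion t, f a := sum_nonneg fun a _ => hf a
      linarith
    linarith

theorem mult_j (th e τ : ℝ) (hA : Adm th e τ) (K2 : ℕ) : ∃ X0 : ℕ, ∀ X : ℕ, X0 ≤ X →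
    ∀ (c1 c2 : ℕ → ℝ), ∑ n ∈ Icc 1 X, c1 n ^ 2 ≤ 3 * X * (Real.log X) ^ 4 →
    ∑ n ∈ Icc 1 X, c2 n ^ 2 ≤ 3 * X * (Real.log X) ^ 4 →
    ∀ S : Finset ℕ, (∀ q ∈ S, 1 ≤ q ∧ (q : ℝ) ≤ P0I th e X) → ∀ B : ℝ, 0 ≤ B →
    (∀ q ∈ S, ∀ q' ∈ S, q ≠ q' → ovE X c1 c2 (2 * (Real.log X) ^ K2) q q' ≤ B) →
    ∑ q ∈ S, WtE X c1 c2 (2 * (Real.log X) ^ K2) q ≤
      168 * X * (Real.log X) ^ (K2 + 4) + (S.card : ℝ) ^ 2 * B := by
  classical
  obtain ⟨hth1, hth2, he0, hτ, he1⟩ := hA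
  refine ⟨⌈Real.exp 100⌉₊, fun X hXe c1 c2 hc1 hc2 S hS B hB hov => ?_⟩
  have hXe' : Real.exp 100 ≤ (X : ℝ) := (Nat.le_ceil _).trans (by exact_mod_cast hXe)
  have hX0 : (0 : ℝ) < X := (Real.exp_pos _).trans_le hXe'
  have hXn : 1 ≤ X := by
    have : 0 < X := by exact_mod_cast hX0
    omega
  have hXr : (1 : ℝ) ≤ X := by exact_mod_cast hXn
  have hL : 100 ≤ Real.log X := by
    rw [Real.le_log_iff_exp_le hX0]
    exact hXe'
  set L := Real.log (X : ℝ) with hLdef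
  have hL0 : 0 < L := by linarith
  set r := 2 * L ^ K2 with hr
  have hr0 : 0 ≤ r := by positivity
  have hPX : P0I th e X ≤ X := by
    unfold P0I
    calc (X : ℝ) ^ (1 - th + 3 / 2 * e) ≤ (X : ℝ) ^ (1 : ℝ) :=
          Real.rpow_le_rpow_of_exponent_le hXr (by linarith)
      _ = X := Real.rpow_one _
  -- the non-coincident fractions
  set T : Finset (Σ _ : ℕ, ℕ) := S.sigma (fun q => nrI X S q) with hT
  have hspace : ∀ i ∈ T, ∀ j ∈ T, i ≠ j → ∀ z : ℤ,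
      1 / (X : ℝ) ≤ |(i.2 : ℝ) / i.1 - (j.2 : ℝ) / j.1 - z| := by
    intro i hi j hj hij z
    rw [hT, mem_sigma] at hi hj
    have hi2 := hi.2
    have hj2 := hj.2
    unfold nrI at hi2 hj2
    rw [mem_filter] at hi2 hj2
    by_cases hq : i.1 = j.1
    · refine le_trans ?_ (fr_dist (hS _ hi.1).1 (hS _ hj.1).1 hi2.1 hj2.1 ?_ z)
      · rw [← hq, Nat.lcm_self]
        exact one_div_le_one_div_of_le (by exact_mod_cast (hS _ hi.1).1)
          ((hS _ hi.1).2.trans hPX)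
      · rintro ⟨h3, h4⟩
        exact hij (Sigma.ext h3 (heq_of_eq h4))
    · by_contra hcon
      exact hi2.2 ⟨j.1, hj.1, fun h => hq h.symm, j.2, hj2.1, z, (not_le.1 hcon).le⟩
  have hρ1 : 1 / (X : ℝ) ≤ 1 := by
    rw [div_le_one hX0]; exact hXr
  have hnon : ∑ q ∈ S, ∑ a ∈ nrI X S q, arcE X c1 c2 r ((a : ℝ) / q) ≤
      168 * X * L ^ (K2 + 4) := by
    have hmain := ls_arcE X hXn c1 c2 r hr0 T (fun i => (i.2 : ℝ) / i.1) (1 / (X : ℝ))
      (by positivity) hρ1 hspace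
    have hsum : ∑ q ∈ S, ∑ a ∈ nrI X S q, arcE X c1 c2 r ((a : ℝ) / q) =
        ∑ i ∈ T, arcE X c1 c2 r ((i.2 : ℝ) / i.1) := by
      rw [hT, Finset.sum_sigma]
    rw [hsum]
    refine hmain.trans ?_
    rw [one_div_one_div]
    have h1 : (∑ n ∈ Icc 1 X, c1 n ^ 2 + ∑ n ∈ Icc 1 X, c2 n ^ 2) / 2 ≤ 3 * X * L ^ 4 := by
      linarith
    calc 2 * r / X * (((X : ℝ) + 13 * X) *
          ((∑ n ∈ Icc 1 X, c1 n ^ 2 + ∑ n ∈ Icc 1 X, c2 n ^ 2) / 2))
        ≤ 2 * r / X * (((X : ℝ) + 13 * X) * (3 * X * L ^ 4)) := by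
          refine mul_le_mul_of_nonneg_left ?_ (by positivity)
          exact mul_le_mul_of_nonneg_left h1 (by positivity)
      _ = 168 * X * L ^ (K2 + 4) := by
          rw [hr, pow_add]; field_simp; ring
  -- the coincident fractions
  have hcoin : ∀ q ∈ S, ∑ a ∈ crI X S q, arcE X c1 c2 r ((a : ℝ) / q) ≤ S.card * B := by
    intro q hq
    have hsub : crI X S q ⊆ (S.erase q).biUnion (fun q' => Cs X q q') := by
      intro a ha
      unfold crI at ha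
      rw [mem_filter] at ha
      obtain ⟨har, q', hq', hne, a', ha', z, hz⟩ := ha
      rw [mem_biUnion]
      refine ⟨q', mem_erase.2 ⟨hne, hq'⟩, ?_⟩
      unfold Cs
      rw [mem_filter]
      exact ⟨har, a', ha', z, hz⟩
    have hnn : ∀ a : ℕ, 0 ≤ arcE X c1 c2 r ((a : ℝ) / q) := fun a => arcE_nonneg X c1 c2 r _ hr0
    calc ∑ a ∈ crI X S q, arcE X c1 c2 r ((a : ℝ) / q)
        ≤ ∑ a ∈ (S.erase q).biUnion (fun q' => Cs X q q'), arcE X c1 c2 r ((a : ℝ) / q) :=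
          sum_le_sum_of_subset_of_nonneg hsub fun a _ _ => hnn a
      _ ≤ ∑ q' ∈ S.erase q, ∑ a ∈ Cs X q q', arcE X c1 c2 r ((a : ℝ) / q) :=
          sum_biUnion_le_of_nonneg (S.erase q) (fun q' => Cs X q q') _ hnn
      _ ≤ ∑ _q' ∈ S.erase q, B := by
          refine sum_le_sum fun q' hq' => ?_
          rw [mem_erase] at hq'
          exact hov q hq q' hq'.2 (fun h => hq'.1 h.symm)
      _ = ((S.erase q).card : ℝ) * B := by rw [sum_const, nsmul_eq_mul]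
      _ ≤ S.card * B := by
          refine mul_le_mul_of_nonneg_right ?_ hB
          exact_mod_cast card_le_card (erase_subset q S)
  have hco : ∑ q ∈ S, ∑ a ∈ crI X S q, arcE X c1 c2 r ((a : ℝ) / q) ≤ (S.card : ℝ) ^ 2 * B := by
    refine (sum_le_card_nsmul _ _ _ hcoin).trans (le_of_eq ?_)
    rw [nsmul_eq_mul]
    ring
  have hsplit : ∑ q ∈ S, WtE X c1 c2 r q =
      ∑ q ∈ S, ∑ a ∈ crI X S q, arcE X c1 c2 r ((a : ℝ) / q) +
        ∑ q ∈ S, ∑ a ∈ nrI X S q, arcE X c1 c2 r ((a : ℝ) / q) := by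
    rw [← sum_add_distrib]
    refine sum_congr rfl fun q _ => ?_
    unfold WtE crI nrI
    rw [sum_filter_add_sum_filter_not]
  rw [hsplit]
  linarith

end Pool.MP_dd84fd_nt.JX
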