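import Pool.Agent.Lib.MP_dd84fd_nt.JX.GCs

/-!
# JX-GOd (0.5 h): the grid points near the fractions of `Cs X q q'`

`od_facts`: `j ∈ Od`: `a ∈ Cs X q q'`, `|al_j - a/q| ≤ r/X`, `b` from `cs_mem`. `|q al_j - a| ≤ q r/X ≤ δ ≤ 1/4 < 1/2`, so `round (q al_j) = a` (an integer at distance `< 1/2` is the rounding), `gcd (a, q) = 1` (`a ∈ rr q`). `|q' al_j - b| ≤ q' (|al_j - a/q| + |a/q - b/q'|) ≤ q' (r+1)/X ≤ δ`, so `round (q' al_j) = b`. `nrm x = |x - round x|`.
`od_card`: `Od ⊆ ⋃_{a ∈ Cs} {j : |al_j - a/q| ≤ r/X}`; `al_j = j.val/G`, so each of these sets has at most `2 r G/X + 1` elements (naturals in an interval of length `2 r G/X`; `j ↦ j.val` injective); `#Cs ≤ 2 q q'/X` (`cs_card`); `1/G ≤ 1/X ≤ r/X`.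
-/

set_option autoImplicit false

namespace Pool.MP_dd84fd_nt.JX

open Finset Pool.MP_67663b_nt.Odd Pool.MP_dd84fd_nt.En Pool.MP_dd84fd_nt.E2 Pool.MP_dd84fd_nt.LS
open Pool.MP_dd84fd_nt.L2G (nrm)
open Pool.MP_dd84fd_nt.GX Pool.MP_dd84fd_nt.HX Pool.MP_dd84fd_nt.IX
open Pool.MP_dd84fd_nt.PL (rr Fam)

private theorem od_round {x : ℝ} {m : ℤ} (h : |x - m| < 1 / 2) : round x = m := by
  have h1 := abs_sub_round x
  have h2 : |((round x : ℤ) : ℝ) - m| < 1 := by
    have : ((round x : ℤ) : ℝ) - m = (x - m) - (x - round x) := by ring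
    rw [this]
    calc |(x - m) - (x - round x)| ≤ |x - m| + |x - round x| := abs_sub _ _
      _ < 1 / 2 + 1 / 2 := by linarith
      _ = 1 := by norm_num
  have h3 : |round x - m| < 1 := by exact_mod_cast h2
  have h4 := Int.abs_lt_one_iff.mp h3
  omega

theorem od_facts {X q q' : ℕ} (G : ℕ) [NeZero G] (hX : 1 ≤ X) (hq : 1 ≤ q) (hq' : 1 ≤ q')
    (hne : q ≠ q') (r δ : ℝ) (hr : 0 ≤ r) (h1 : (q : ℝ) * (r + 1) / X ≤ δ)
    (h2 : (q' : ℝ) * (r + 1) / X ≤ δ) (h3 : δ ≤ 1 / 4) : ∀ j ∈ Od G X r q q',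
    nrm ((q : ℝ) * al G j) ≤ δ ∧ nrm ((q' : ℝ) * al G j) ≤ δ ∧
    Int.gcd (round ((q : ℝ) * al G j)) q = 1 ∧
    round ((q : ℝ) * al G j) * (q' : ℤ) - round ((q' : ℝ) * al G j) * (q : ℤ) ≠ 0 := by
  classical
  intro j hj
  unfold Od at hj
  rw [mem_filter] at hj
  obtain ⟨-, a, ha, hja⟩ := hj
  obtain ⟨har, b, hab, hd, -⟩ := cs_mem hX hq hq' hne ha
  have hX0 : (0 : ℝ) < X := by exact_mod_cast hX
  have hq0 : (0 : ℝ) < q := by exact_mod_cast hq
  have hq0' : (0 : ℝ) < q' := by exact_mod_cast hq'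
  have e1 : |(q : ℝ) * al G j - ((a : ℤ) : ℝ)| ≤ δ := by
    have : (q : ℝ) * al G j - ((a : ℤ) : ℝ) = q * (al G j - (a : ℝ) / q) := by
      push_cast
      field_simp
    rw [this, abs_mul, abs_of_pos hq0]
    calc (q : ℝ) * |al G j - (a : ℝ) / q| ≤ q * (r / X) :=
          mul_le_mul_of_nonneg_left hja hq0.le
      _ ≤ q * (r + 1) / X := by
          rw [mul_div_assoc]
          apply mul_le_mul_of_nonneg_left _ hq0.le
          exact div_le_div_of_nonneg_right (by linarith) hX0.le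
      _ ≤ δ := h1
  have e2 : |(q' : ℝ) * al G j - (b : ℝ)| ≤ δ := by
    have : (q' : ℝ) * al G j - (b : ℝ)
        = q' * ((al G j - (a : ℝ) / q) + ((a : ℝ) / q - (b : ℝ) / q')) := by
      field_simp
      ring
    rw [this, abs_mul, abs_of_pos hq0']
    calc (q' : ℝ) * |(al G j - (a : ℝ) / q) + ((a : ℝ) / q - (b : ℝ) / q')|
        ≤ q' * (|al G j - (a : ℝ) / q| + |(a : ℝ) / q - (b : ℝ) / q'|) :=
          mul_le_mul_of_nonneg_left (abs_add_le _ _) hq0'.le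
      _ ≤ q' * (r / X + 1 / X) := mul_le_mul_of_nonneg_left (add_le_add hja hd) hq0'.le
      _ = q' * (r + 1) / X := by ring
      _ ≤ δ := h2
  have r1 : round ((q : ℝ) * al G j) = (a : ℤ) := od_round (lt_of_le_of_lt e1 (by linarith))
  have r2 : round ((q' : ℝ) * al G j) = b := od_round (lt_of_le_of_lt e2 (by linarith))
  refine ⟨?_, ?_, ?_, ?_⟩
  · unfold nrm
    rw [r1]
    exact e1
  · unfold nrm
    rw [r2]
    exact e2
  · rw [r1]
    have := (mem_filter.mp har).2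
    rw [Int.gcd_natCast_natCast]
    exact this
  · rw [r1, r2]
    exact hab

private theorem od_fib (G : ℕ) [NeZero G] (c ρ : ℝ) (hρ : 0 ≤ ρ) :
    (((univ : Finset (ZMod G)).filter (fun j => |al G j - c| ≤ ρ)).card : ℝ) ≤ 2 * ρ * G + 1 := by
  classical
  have hG0 : (0 : ℝ) < G := by exact_mod_cast Nat.pos_of_ne_zero (NeZero.ne G)
  set A := (univ : Finset (ZMod G)).filter (fun j => |al G j - c| ≤ ρ)
  have hinj : Set.InjOn (fun j : ZMod G => (j.val : ℤ)) (A : Set (ZMod G)) := by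
    intro x _ y _ h
    have h' : (x.val : ℤ) = (y.val : ℤ) := h
    exact ZMod.val_injective G (by exact_mod_cast h')
  have himg : A.image (fun j : ZMod G => (j.val : ℤ)) ⊆
      Finset.Icc ⌈((c - ρ) * G : ℝ)⌉ ⌊((c + ρ) * G : ℝ)⌋ := by
    intro z hz
    rw [mem_image] at hz
    obtain ⟨j, hj, rfl⟩ := hz
    have hj2 := (mem_filter.mp hj).2
    rw [abs_le] at hj2
    unfold al at hj2
    rw [mem_Icc]
    have hv : (j.val : ℝ) / G * G = j.val := by field_simp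
    constructor
    · apply Int.ceil_le.mpr
      push_cast
      have : (c - ρ) ≤ (j.val : ℝ) / G := by linarith [hj2.1]
      calc (c - ρ) * (G : ℝ) ≤ (j.val : ℝ) / G * G := mul_le_mul_of_nonneg_right this hG0.le
        _ = j.val := hv
    · apply Int.le_floor.mpr
      push_cast
      have : (j.val : ℝ) / G ≤ c + ρ := by linarith [hj2.2]
      calc (j.val : ℝ) = (j.val : ℝ) / G * G := hv.symm
        _ ≤ (c + ρ) * G := mul_le_mul_of_nonneg_right this hG0.le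
  have hc : (A.card : ℝ) ≤ ((Finset.Icc ⌈((c - ρ) * G : ℝ)⌉ ⌊((c + ρ) * G : ℝ)⌋).card : ℝ) := by
    rw [← card_image_of_injOn hinj]
    exact_mod_cast card_le_card himg
  refine hc.trans ?_
  rw [Int.card_Icc]
  have h1 := Int.floor_le ((c + ρ) * G : ℝ)
  have h2 := Int.le_ceil ((c - ρ) * G : ℝ)
  have hpos : (0 : ℝ) ≤ 2 * ρ * G + 1 := by positivity
  rcases le_total 0 (⌊((c + ρ) * G : ℝ)⌋ + 1 - ⌈((c - ρ) * G : ℝ)⌉) with h | h
  · have : (((⌊((c + ρ) * G : ℝ)⌋ + 1 - ⌈((c - ρ) * G : ℝ)⌉).toNat : ℕ) : ℝ)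
        = ((⌊((c + ρ) * G : ℝ)⌋ + 1 - ⌈((c - ρ) * G : ℝ)⌉ : ℤ) : ℝ) := by
      exact_mod_cast congrArg (fun z : ℤ => (z : ℝ)) (Int.toNat_of_nonneg h)
    rw [this]
    push_cast
    nlinarith
  · rw [Int.toNat_of_nonpos h]
    simpa using hpos

theorem od_card {X q q' : ℕ} (G : ℕ) [NeZero G] (hX : 1 ≤ X) (hG : X ≤ G) (hq : 1 ≤ q)
    (hq' : 1 ≤ q') (hne : q ≠ q') (r : ℝ) (hr : 1 ≤ r) :
    (1 / (G : ℝ)) * (Od G X r q q').card ≤ 6 * r * ((q : ℝ) * q') / X ^ 2 := by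
  classical
  have hX0 : (0 : ℝ) < X := by exact_mod_cast hX
  have hG0 : (0 : ℝ) < G := by exact_mod_cast lt_of_lt_of_le hX hG
  have hXG : (X : ℝ) ≤ G := by exact_mod_cast hG
  have hsub : Od G X r q q' ⊆ (Cs X q q').biUnion (fun a =>
      (univ : Finset (ZMod G)).filter (fun j => |al G j - (a : ℝ) / q| ≤ r / X)) := by
    intro j hj
    unfold Od at hj
    rw [mem_filter] at hj
    obtain ⟨-, a, ha, hja⟩ := hj
    exact mem_biUnion.mpr ⟨a, ha, mem_filter.mpr ⟨mem_univ _, hja⟩⟩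
  have hcard : ((Od G X r q q').card : ℝ) ≤ (Cs X q q').card * (2 * (r / X) * G + 1) := by
    calc ((Od G X r q q').card : ℝ)
        ≤ (((Cs X q q').biUnion (fun a =>
      (univ : Finset (ZMod G)).filter (fun j => |al G j - (a : ℝ) / q| ≤ r / X))).card : ℝ) := by
          exact_mod_cast card_le_card hsub
      _ ≤ ((∑ a ∈ Cs X q q', ((univ : Finset (ZMod G)).filter
            (fun j => |al G j - (a : ℝ) / q| ≤ r / X)).card : ℕ) : ℝ) := by
          exact_mod_cast card_biUnion_le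
      _ = ∑ a ∈ Cs X q q', ((((univ : Finset (ZMod G)).filter
            (fun j => |al G j - (a : ℝ) / q| ≤ r / X)).card : ℕ) : ℝ) := by push_cast; rfl
      _ ≤ ∑ _a ∈ Cs X q q', (2 * (r / X) * G + 1) :=
          sum_le_sum fun a _ => od_fib G _ _ (by positivity)
      _ = (Cs X q q').card * (2 * (r / X) * G + 1) := by rw [sum_const, nsmul_eq_mul]
  have hC := cs_card hX hq hq' hne
  have hfac : 2 * (r / X) * (G : ℝ) + 1 ≤ 3 * r * G / X := by
    have : (1 : ℝ) ≤ r * G / X := by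
      rw [le_div_iff₀ hX0]
      nlinarith
    have e : 2 * (r / X) * (G : ℝ) = 2 * (r * G / X) := by ring
    rw [e]
    have e2 : 3 * r * (G : ℝ) / X = 3 * (r * G / X) := by ring
    rw [e2]
    linarith
  have hfac0 : (0 : ℝ) ≤ 3 * r * G / X := by positivity
  calc (1 / (G : ℝ)) * (Od G X r q q').card
      ≤ (1 / (G : ℝ)) * ((Cs X q q').card * (2 * (r / X) * G + 1)) :=
        mul_le_mul_of_nonneg_left hcard (by positivity)
    _ ≤ (1 / (G : ℝ)) * ((2 * ((q : ℝ) * q' / X)) * (3 * r * G / X)) := by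
        apply mul_le_mul_of_nonneg_left _ (by positivity)
        exact mul_le_mul hC hfac (by positivity) (by positivity)
    _ = 6 * r * ((q : ℝ) * q') / X ^ 2 := by
        field_simp
        ring

end Pool.MP_dd84fd_nt.JX
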