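import Pool.Agent.Lib.MP_dd84fd_nt.JX.GCs
import Pool.Agent.Lib.MP_dd84fd_nt.JX.HtMass
import Pool.Agent.Lib.MP_dd84fd_nt.IX.GrBV

/-!
# JX-GT1 (0.5 h, NEW STATEMENT 19:45Z): type I sums near the fractions of `Cs`

`L = log X`, `r = 2 L^K2`, `R = ⌊ZJ th e X⌋₊ ≤ X`. If `Cs X q q'` is empty, `ov2 = 0`. Otherwise `X ≤ q q' ≤ q P0I` (`cs_lrg`). `bv_type1` (`IX/GrBV.lean`, `T = T' = L^C`): `‖ES‖ ≤ B (X/ht + R)`, `B = C1 L^(2C+1)`.
`Cs ⊆ rr q` and the integrals are `≥ 0`, so `ov2 ≤ ∑_{a ∈ rr q}`; `ht_mass_ti` (`JX/HtMass.lean`; here `JX.ht_mass_ti`, `s = -r/X`, `t = r/X`, `T a x = ES X _ (a/q + x)`) and `ht_main` (`∫ ≤ π/X`):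
`ov2 ≤ 2 B² (2π X/q + 80 q (1+r)(1+L)²) + 4 B² R² q r/X`, `X/q ≤ P0I`, `q ≤ P0I = X^(1-th+3e/2) ≤ X^(81/100)`, `R² P0I/X ≤ 4 X^(2lv - th + 3e/2) ≤ 4 X^(1-38e)` (`2 lv ≤ 1 + th - 40 e`). All `≤ X^(1-7e)/4` for large `X` (`MP_log_pow`).
-/

set_option autoImplicit false

namespace Pool.MP_dd84fd_nt.JX

open Finset Pool.MP_67663b_nt.Odd Pool.MP_dd84fd_nt.En Pool.MP_dd84fd_nt.E2 Pool.MP_dd84fd_nt.LS
open Pool.MP_dd84fd_nt.L2G (nrm)
open Pool.MP_dd84fd_nt.GX Pool.MP_dd84fd_nt.HX Pool.MP_dd84fd_nt.IX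
open Pool.MP_dd84fd_nt.PL (rr Fam)

private theorem gt1_num (th e τ : ℝ) (hA : Adm th e τ) (K2 C : ℕ) (C1 : ℝ) (hC1 : 0 < C1) :
    ∃ X0 : ℕ, ∀ X : ℕ, X0 ≤ X → 16 ≤ X ∧ 1 ≤ Real.log X ∧ 2 * (Real.log X) ^ K2 ≤ X ∧
      P0I th e X ≤ X ∧ ZJ th e X ≤ X ∧
      2 * (C1 * (Real.log X) ^ C * (Real.log X) ^ C * Real.log X) ^ 2 *
        (P0I th e X * (967 * (Real.log X) ^ (K2 + 2))) ≤ (X : ℝ) ^ (1 - 7 * e) / 2 ∧
      2 * (C1 * (Real.log X) ^ C * (Real.log X) ^ C * Real.log X) ^ 2 * (ZJ th e X) ^ 2 *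
        (P0I th e X * (2 * (2 * (Real.log X) ^ K2) / X)) ≤ (X : ℝ) ^ (1 - 7 * e) / 2 := by
  obtain ⟨a1, a2, a3, a4, a5⟩ := hA
  obtain ⟨X1, h1⟩ := MP_log_large 1
  obtain ⟨X2, h2⟩ := MP_log_pow 2 K2 (ε := 1) (by norm_num)
  obtain ⟨X3, h3⟩ := MP_log_pow (4 * 967 * C1 ^ 2) (4 * C + 2 + (K2 + 2)) (ε := 1 / 20)
    (by norm_num)
  obtain ⟨X4, h4⟩ := MP_log_pow (64 * C1 ^ 2) (4 * C + 2 + K2) (ε := e) a3
  refine ⟨max (max X1 X2) (max (max X3 X4) 16), fun X hX => ?_⟩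
  simp only [max_le_iff] at hX
  obtain ⟨⟨g1, g2⟩, ⟨g3, g4⟩, g5⟩ := hX
  have k1 := h1 X g1
  have k2 := h2 X g2
  have k3 := h3 X g3
  have k4 := h4 X g4
  rw [Real.rpow_one] at k2
  have hX0 : (0 : ℝ) < X := by exact_mod_cast (by omega : 0 < X)
  have hX1 : (1 : ℝ) ≤ X := by exact_mod_cast (by omega : 1 ≤ X)
  have hle : ∀ s t : ℝ, s ≤ t → (X : ℝ) ^ s ≤ (X : ℝ) ^ t :=
    fun s t h => Real.rpow_le_rpow_of_exponent_le hX1 h
  set L := Real.log (X : ℝ) with hL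
  have hL0 : 0 < L := by linarith
  have hB : (C1 * L ^ C * L ^ C * L) ^ 2 = C1 ^ 2 * L ^ (4 * C + 2) := by
    rw [show 4 * C + 2 = C * 2 + C * 2 + 2 by ring, pow_add, pow_add, pow_mul]
    ring
  refine ⟨g5, k1, k2, ?_, ?_, ?_, ?_⟩
  · unfold P0I
    nth_rewrite 2 [← Real.rpow_one (X : ℝ)]
    exact hle _ _ (by linarith)
  · unfold ZJ
    have h5 : (X : ℝ) ^ (lv th e) ≤ (X : ℝ) ^ (3 / 4 : ℝ) := by
      refine hle _ _ ((min_le_right _ _).trans ?_)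
      linarith
    have h6 : (2 : ℝ) ≤ (X : ℝ) ^ (1 / 4 : ℝ) := by
      have h7 : (16 : ℝ) ≤ X := by exact_mod_cast g5
      calc (2 : ℝ) = (16 : ℝ) ^ (1 / 4 : ℝ) := by
            rw [show (16 : ℝ) = 2 ^ (4 : ℕ) by norm_num, ← Real.rpow_natCast,
              ← Real.rpow_mul (by norm_num)]
            norm_num
        _ ≤ (X : ℝ) ^ (1 / 4 : ℝ) := Real.rpow_le_rpow (by norm_num) h7 (by norm_num)
    calc 2 * (X : ℝ) ^ (lv th e) ≤ (X : ℝ) ^ (1 / 4 : ℝ) * (X : ℝ) ^ (3 / 4 : ℝ) :=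
          mul_le_mul h6 h5 (by positivity) (by positivity)
      _ = X := by
          rw [← Real.rpow_add hX0]
          norm_num
  · rw [hB]
    have e1 : 2 * (C1 ^ 2 * L ^ (4 * C + 2)) * (P0I th e X * (967 * L ^ (K2 + 2))) =
        (4 * 967 * C1 ^ 2) * L ^ (4 * C + 2 + (K2 + 2)) * P0I th e X / 2 := by
      rw [pow_add L (4 * C + 2) (K2 + 2)]
      ring
    rw [e1]
    refine div_le_div_of_nonneg_right ?_ (by norm_num)
    have hP : 0 ≤ P0I th e X := by unfold P0I; positivity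
    calc (4 * 967 * C1 ^ 2) * L ^ (4 * C + 2 + (K2 + 2)) * P0I th e X ≤
          (X : ℝ) ^ (1 / 20 : ℝ) * P0I th e X := mul_le_mul_of_nonneg_right k3 hP
      _ ≤ (X : ℝ) ^ (1 - 7 * e) := by
          unfold P0I
          rw [← Real.rpow_add hX0]
          exact hle _ _ (by linarith)
  · rw [hB]
    have e1 : 2 * (C1 ^ 2 * L ^ (4 * C + 2)) * (ZJ th e X) ^ 2 *
        (P0I th e X * (2 * (2 * L ^ K2) / X)) =
        (64 * C1 ^ 2) * L ^ (4 * C + 2 + K2) * ((X : ℝ) ^ (lv th e) * (X : ℝ) ^ (lv th e) *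
          P0I th e X / X) / 2 := by
      unfold ZJ
      rw [pow_add L (4 * C + 2) K2]
      ring
    rw [e1]
    refine div_le_div_of_nonneg_right ?_ (by norm_num)
    have e2 : (X : ℝ) ^ (lv th e) * (X : ℝ) ^ (lv th e) * P0I th e X / X ≤
        (X : ℝ) ^ (1 - 38 * e) := by
      rw [div_le_iff₀ hX0]
      unfold P0I
      rw [← Real.rpow_add hX0, ← Real.rpow_add hX0]
      nth_rewrite 3 [← Real.rpow_one (X : ℝ)]
      rw [← Real.rpow_add hX0]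
      refine hle _ _ ?_
      have : lv th e ≤ (1 + th) / 2 - 20 * e := min_le_right _ _
      linarith
    calc (64 * C1 ^ 2) * L ^ (4 * C + 2 + K2) * ((X : ℝ) ^ (lv th e) * (X : ℝ) ^ (lv th e) *
          P0I th e X / X) ≤ (X : ℝ) ^ e * (X : ℝ) ^ (1 - 38 * e) := by
          refine mul_le_mul k4 e2 ?_ (by positivity)
          unfold P0I
          positivity
      _ ≤ (X : ℝ) ^ (1 - 7 * e) := by
          rw [← Real.rpow_add hX0]
          exact hle _ _ (by linarith)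

theorem ov_t1 (th e τ : ℝ) (hA : Adm th e τ) (K2 C : ℕ) : ∃ X0 : ℕ, ∀ X : ℕ, X0 ≤ X →
    ∀ γ α : ℕ → ℝ, (∀ n, |γ n| ≤ (Real.log X) ^ C) →
    ∑ n ∈ Ico 1 X, |γ (n + 1) - γ n| ≤ (Real.log X) ^ C → (∀ l, |α l| ≤ (Real.log X) ^ C) →
    (∀ l : ℕ, ZJ th e X < l → α l = 0) → ∀ q q' : ℕ, QqP th e X q q' →
    ov2 X (ES X (fun n => γ n * ∑ l ∈ n.divisors, α l)) (2 * (Real.log X) ^ K2) q q' ≤
      (X : ℝ) ^ (1 - 7 * e) := by
  classical
  obtain ⟨C1, hC1, X1, hX1⟩ := bv_type1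
  obtain ⟨X2, hX2⟩ := gt1_num th e τ hA K2 C C1 hC1
  refine ⟨max X1 X2, fun X hX γ α hγ hBV hα hα0 q q' hqq => ?_⟩
  simp only [max_le_iff] at hX
  obtain ⟨g1, g2⟩ := hX
  obtain ⟨k0, k1, k2, k3, k4, k5, k6⟩ := hX2 X g2
  obtain ⟨hne, hq1, hq2, hq1', hq2'⟩ := hqq
  have hXn : 1 ≤ X := by omega
  have hX0 : (0 : ℝ) < X := by exact_mod_cast (by omega : 0 < X)
  have hX1r : (1 : ℝ) ≤ X := by exact_mod_cast hXn
  set L := Real.log (X : ℝ) with hL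
  have hL0 : 0 < L := by linarith
  have hP0 : 0 ≤ P0I th e X := (Nat.cast_nonneg q).trans hq2
  have hZ0 : 0 ≤ ZJ th e X := by unfold ZJ; positivity
  rcases (Cs X q q').eq_empty_or_nonempty with h0 | ⟨a0, ha0⟩
  · unfold ov2
    rw [h0, Finset.sum_empty]
    positivity
  have hlrg := cs_lrg hXn hq1 hq1' hne ha0
  have hq0 : (0 : ℝ) < q := by exact_mod_cast hq1
  have hXq : (X : ℝ) / q ≤ P0I th e X := by
    rw [div_le_iff₀ hq0]
    calc (X : ℝ) ≤ q * q' := hlrg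
      _ ≤ q * P0I th e X := mul_le_mul_of_nonneg_left hq2' hq0.le
      _ = P0I th e X * q := mul_comm _ _
  set f : ℕ → ℝ := fun n => γ n * ∑ l ∈ n.divisors, α l with hf
  set B : ℝ := C1 * L ^ C * L ^ C * L with hB
  have hB0 : 0 < B := by positivity
  set r : ℝ := 2 * L ^ K2 with hr
  have hLK : 1 ≤ L ^ K2 := one_le_pow₀ k1
  have hr0 : 0 ≤ r := by positivity
  have hR : ⌊ZJ th e X⌋₊ ≤ X := by
    have : ((⌊ZJ th e X⌋₊ : ℕ) : ℝ) ≤ X := (Nat.floor_le hZ0).trans k4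
    exact_mod_cast this
  have hRZ : ((⌊ZJ th e X⌋₊ : ℕ) : ℝ) ≤ ZJ th e X := Nat.floor_le hZ0
  have hpt : ∀ θ, ‖ES X f θ‖ ≤ B * ((X : ℝ) / ht X θ + (⌊ZJ th e X⌋₊ : ℕ)) := by
    intro θ
    have h1 := hX1 X g1 γ α (L ^ C) (L ^ C) ⌊ZJ th e X⌋₊ hR hγ hBV hα
      (fun l hl => hα0 l (Nat.lt_of_floor_lt hl)) θ
    refine h1.trans (le_of_eq ?_)
    rw [hB]
    ring
  have hst : -(r / (X : ℝ)) ≤ r / X := by
    have : 0 ≤ r / (X : ℝ) := by positivity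
    linarith
  have hqX : q ≤ X := by
    have : (q : ℝ) ≤ X := hq2.trans k3
    exact_mod_cast this
  have hmain := ht_mass_ti X q (by omega) hq1 hqX r hr0 k2 (-(r / X)) (r / X) le_rfl hst le_rfl
    (fun a x => ES X f ((a : ℝ) / q + x))
    (fun a => (ES_cont X f).comp (continuous_const.add continuous_id)) B
    (⌊ZJ th e X⌋₊ : ℕ) hB0 (Nat.cast_nonneg _) (fun a _ x _ _ => hpt _)
  have hpi := ht_main X hXn (-(r / X)) (r / X) hst
  have hsub : ov2 X (ES X f) r q q' ≤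
      ∑ a ∈ rr q, ∫ x in (-(r / X))..(r / X), ‖ES X f ((a : ℝ) / q + x)‖ ^ 2 := by
    unfold ov2
    rw [neg_div]
    refine sum_le_sum_of_subset_of_nonneg ?_ fun a _ _ => ?_
    · unfold Cs
      exact filter_subset _ _
    · exact intervalIntegral.integral_nonneg hst fun x _ => by positivity
  refine hsub.trans (hmain.trans ?_)
  have e1 : 2 * (X : ℝ) ^ 2 / q * (∫ x in (-(r / X))..(r / X), 1 / (1 + ((X : ℝ) * x) ^ 2)) +
      80 * (q * (1 + r)) * (1 + L) ^ 2 ≤ P0I th e X * (967 * L ^ (K2 + 2)) := by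
    have f1 : 2 * (X : ℝ) ^ 2 / q * (∫ x in (-(r / X))..(r / X), 1 / (1 + ((X : ℝ) * x) ^ 2)) ≤
        7 * P0I th e X := by
      calc 2 * (X : ℝ) ^ 2 / q * (∫ x in (-(r / X))..(r / X), 1 / (1 + ((X : ℝ) * x) ^ 2)) ≤
            2 * (X : ℝ) ^ 2 / q * (Real.pi / X) := mul_le_mul_of_nonneg_left hpi (by positivity)
        _ = 2 * Real.pi * ((X : ℝ) / q) := by field_simp
        _ ≤ 7 * P0I th e X := by
            refine mul_le_mul ?_ hXq (by positivity) (by norm_num)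
            have := Real.pi_lt_d2
            linarith
    have f2 : 80 * ((q : ℝ) * (1 + r)) * (1 + L) ^ 2 ≤ 960 * P0I th e X * L ^ (K2 + 2) := by
      have g3 : 1 + r ≤ 3 * L ^ K2 := by rw [hr]; linarith
      have g4 : (1 + L) ^ 2 ≤ 4 * L ^ 2 := by nlinarith
      calc 80 * ((q : ℝ) * (1 + r)) * (1 + L) ^ 2 ≤
            80 * (P0I th e X * (3 * L ^ K2)) * (4 * L ^ 2) := by
            refine mul_le_mul ?_ g4 (by positivity) (by positivity)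
            refine mul_le_mul_of_nonneg_left ?_ (by norm_num)
            exact mul_le_mul hq2 g3 (by positivity) hP0
        _ = 960 * P0I th e X * L ^ (K2 + 2) := by rw [pow_add]; ring
    have f3 : (1 : ℝ) ≤ L ^ (K2 + 2) := one_le_pow₀ k1
    have f4 : 7 * P0I th e X ≤ 7 * P0I th e X * L ^ (K2 + 2) :=
      le_mul_of_one_le_right (by positivity) f3
    calc _ ≤ 7 * P0I th e X + 960 * P0I th e X * L ^ (K2 + 2) := add_le_add f1 f2
      _ ≤ 7 * P0I th e X * L ^ (K2 + 2) + 960 * P0I th e X * L ^ (K2 + 2) := by linarith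
      _ = P0I th e X * (967 * L ^ (K2 + 2)) := by ring
  have e2 : 2 * B ^ 2 * ((⌊ZJ th e X⌋₊ : ℕ) : ℝ) ^ 2 * (q * (r / X - -(r / X))) ≤
      2 * B ^ 2 * (ZJ th e X) ^ 2 * (P0I th e X * (2 * r / X)) := by
    have f1 : r / (X : ℝ) - -(r / X) = 2 * r / X := by ring
    rw [f1]
    refine mul_le_mul ?_ ?_ (by positivity) (by positivity)
    · refine mul_le_mul_of_nonneg_left ?_ (by positivity)
      exact pow_le_pow_left₀ (Nat.cast_nonneg _) hRZ 2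
    · exact mul_le_mul_of_nonneg_right hq2 (by positivity)
  have e3 := mul_le_mul_of_nonneg_left e1 (show 0 ≤ 2 * B ^ 2 by positivity)
  calc _ ≤ 2 * B ^ 2 * (P0I th e X * (967 * L ^ (K2 + 2))) +
        2 * B ^ 2 * (ZJ th e X) ^ 2 * (P0I th e X * (2 * r / X)) := add_le_add e3 e2
    _ ≤ (X : ℝ) ^ (1 - 7 * e) := by linarith

end Pool.MP_dd84fd_nt.JX
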