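import Pool.Agent.Lib.MP_dd84fd_nt.JX.GOd
import Pool.Agent.Lib.MP_dd84fd_nt.JX.GBl
import Pool.Agent.Lib.MP_dd84fd_nt.PL.LamTwo

/-!
# JX-GVb (0.6 h): blocks near the fractions of `Cs`

`K = 0`: `Bf = 0`. Otherwise `VlemP` with `N = M`, `A = L^C` (`L = log X ≥ 1`), `T = X^e` (divisor bound: `tau_pow`/`tau_le`-type lemma of the library, grep `divisors.card` in `GX`, `L2G`, `IX`; `τ(v) ≤ X^e` for `v ≤ X`, `X ≥ X0(e)`), `δ = P0I (2 L^K2 + 2)/X ≤ 1/4` (`P0I ≤ X^(81/100)`), `O = Od G X (2 L^K2 + 1) q q'` (`od_facts`, `r = 2 L^K2 + 1`), `bf_disc`; `q, q' ≤ P0I ≤ X`.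
`M δ ≤ yB P0I (2 L^K2+2)/X = X^(-3e/2) (2 L^K2 + 2) ≤ 1`, `K ≤ X/M ≤ 2 X^(1-τ) ≤ 2 X^(1-1000e)`: the bound is `C0 L^(4C) X^e 4 K (1 + L) ≤ X^(1-7e)` for large `X`.
-/

set_option autoImplicit false

namespace Pool.MP_dd84fd_nt.JX

open Finset Pool.MP_67663b_nt.Odd Pool.MP_dd84fd_nt.En Pool.MP_dd84fd_nt.E2 Pool.MP_dd84fd_nt.LS
open Pool.MP_dd84fd_nt.L2G (nrm)
open Pool.MP_dd84fd_nt.GX Pool.MP_dd84fd_nt.HX Pool.MP_dd84fd_nt.IX
open Pool.MP_dd84fd_nt.PL (rr Fam lt_tau)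

private theorem gv_log (K : ℕ) (A η : ℝ) (hη : 0 < η) : ∃ X0 : ℕ, ∀ X : ℕ, X0 ≤ X →
    A * (Real.log X) ^ K ≤ (X : ℝ) ^ η := by
  have h1 := (isLittleO_log_rpow_rpow_atTop (K : ℝ) hη).bound
    (show (0 : ℝ) < 1 / (|A| + 1) by positivity)
  obtain ⟨x0, hx0⟩ := Filter.eventually_atTop.1 h1
  refine ⟨max ⌈x0⌉₊ 1, fun X hX => ?_⟩
  have hX1 : 1 ≤ X := (le_max_right _ _).trans hX
  have hX2 : x0 ≤ X := (Nat.le_ceil x0).trans (by exact_mod_cast (le_max_left _ _).trans hX)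
  have h2 := hx0 X hX2
  have hL : 0 ≤ Real.log X := Real.log_natCast_nonneg X
  have hXp : (0 : ℝ) ≤ (X : ℝ) ^ η := Real.rpow_nonneg (Nat.cast_nonneg X) _
  rw [Real.rpow_natCast, Real.norm_eq_abs, Real.norm_eq_abs, abs_of_nonneg (pow_nonneg hL K),
    abs_of_nonneg hXp] at h2
  calc A * (Real.log X) ^ K ≤ |A| * (Real.log X) ^ K :=
        mul_le_mul_of_nonneg_right (le_abs_self A) (pow_nonneg hL K)
    _ ≤ |A| * (1 / (|A| + 1) * (X : ℝ) ^ η) := mul_le_mul_of_nonneg_left h2 (abs_nonneg A)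
    _ = (|A| / (|A| + 1)) * (X : ℝ) ^ η := by ring
    _ ≤ 1 * (X : ℝ) ^ η := by
        apply mul_le_mul_of_nonneg_right _ hXp
        rw [div_le_one (by positivity)]
        linarith
    _ = (X : ℝ) ^ η := one_mul _

private theorem gv_big (T : ℝ) : ∃ X0 : ℕ, ∀ X : ℕ, X0 ≤ X → T ≤ Real.log X := by
  refine ⟨⌈Real.exp T⌉₊, fun X hX => ?_⟩
  have h1 : Real.exp T ≤ X := (Nat.le_ceil _).trans (by exact_mod_cast hX)
  rw [Real.le_log_iff_exp_le ((Real.exp_pos T).trans_le h1)]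
  exact h1

private theorem gv_tau (e : ℝ) (he : 0 < e) : ∃ D : ℝ, 1 ≤ D ∧ ∀ h X : ℕ, 1 ≤ h → h ≤ X →
    (h.divisors.card : ℝ) ≤ D * (X : ℝ) ^ (e / 10) := by
  obtain ⟨k, hk⟩ := exists_nat_gt (10 / e)
  have hk0 : (0 : ℝ) < k := lt_trans (by positivity) hk
  obtain ⟨D, hD, h4⟩ := lt_tau k
  refine ⟨D, hD, fun h X hh hX => ?_⟩
  have hX' : (h : ℝ) ≤ X := by exact_mod_cast hX
  have hX1 : (1 : ℝ) ≤ X := by exact_mod_cast hh.trans hX
  have hτ0 : (0 : ℝ) ≤ (h.divisors.card : ℝ) := Nat.cast_nonneg _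
  have hke : 1 / (k : ℝ) ≤ e / 10 := by
    rw [div_le_div_iff₀ hk0 (by norm_num)]
    rw [div_lt_iff₀ he] at hk
    linarith
  calc (h.divisors.card : ℝ) = ((h.divisors.card : ℝ) ^ k) ^ (1 / (k : ℝ)) := by
        rw [← Real.rpow_natCast, ← Real.rpow_mul hτ0]
        rw [mul_one_div, div_self hk0.ne', Real.rpow_one]
    _ ≤ (D * X) ^ (1 / (k : ℝ)) :=
        Real.rpow_le_rpow (by positivity) ((h4 h hh).trans
          (mul_le_mul_of_nonneg_left hX' (by linarith))) (by positivity)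
    _ = D ^ (1 / (k : ℝ)) * (X : ℝ) ^ (1 / (k : ℝ)) :=
        Real.mul_rpow (by linarith) (by positivity)
    _ ≤ D ^ (1 : ℝ) * (X : ℝ) ^ (e / 10) := by
        refine mul_le_mul ?_ (Real.rpow_le_rpow_of_exponent_le hX1 hke) (by positivity)
          (by positivity)
        refine Real.rpow_le_rpow_of_exponent_le hD ?_
        rw [div_le_one hk0]
        have : (0 : ℕ) < k := by exact_mod_cast hk0
        exact_mod_cast this
    _ = D * (X : ℝ) ^ (e / 10) := by rw [Real.rpow_one]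

theorem od_t2 (hV : VlemP) (th e τ : ℝ) (hA : Adm th e τ) (K2 C : ℕ) : ∃ X0 : ℕ, ∀ X : ℕ, X0 ≤ X →
    ∀ (G : ℕ) [NeZero G], X ^ 5 ≤ G → ∀ (M K : ℕ) (a c : ℕ → ℝ),
    (∀ n, |a n| ≤ (Real.log X) ^ C ∧ |c n| ≤ (Real.log X) ^ C) → (X : ℝ) ^ τ / 2 ≤ M →
    (M : ℝ) ≤ yB th e X → K * M ≤ X → ∀ q q' : ℕ, QqP th e X q q' →
    (1 / (G : ℝ)) * ∑ j ∈ Od G X (2 * (Real.log X) ^ K2 + 1) q q', ‖Bf M K a c (al G j)‖ ^ 2 ≤
      (X : ℝ) ^ (1 - 7 * e) := by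
  obtain ⟨hth1, hth2, he, hτ1, hτ2⟩ := hA
  obtain ⟨C0, X1, hC0, hV⟩ := hV
  obtain ⟨D, hD, htau⟩ := gv_tau e he
  obtain ⟨X2, h2⟩ := gv_big 1
  obtain ⟨X3, h3⟩ := gv_log K2 16 (12 / 100) (by norm_num)
  obtain ⟨X4, h4⟩ := gv_log K2 4 (3 / 2 * e) (by linarith)
  obtain ⟨X5, h5⟩ := gv_log (4 * C + 1) (16 * C0) (992 * e) (by linarith)
  obtain ⟨X6, h6⟩ := gv_log 0 D (9 / 10 * e) (by linarith)
  refine ⟨max (max (max X1 X2) (max X3 X4)) (max (max X5 X6) 1), ?_⟩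
  intro X hX G _ hG M K a c hac hM1 hM2 hKM q q' hQ
  have hX1 : X1 ≤ X := le_trans (by simp) hX
  have hX2 : X2 ≤ X := le_trans (by simp) hX
  have hX3 : X3 ≤ X := le_trans (by simp) hX
  have hX4 : X4 ≤ X := le_trans (by simp) hX
  have hX5 : X5 ≤ X := le_trans (by simp) hX
  have hX6 : X6 ≤ X := le_trans (by simp) hX
  have hXone : 1 ≤ X := le_trans (by simp) hX
  have g2 := h2 X hX2
  have g3 := h3 X hX3
  have g4 := h4 X hX4
  have g5 := h5 X hX5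
  have g6 := h6 X hX6
  have hX0 : (0 : ℝ) < X := by exact_mod_cast hXone
  have hX1R : (1 : ℝ) ≤ X := by exact_mod_cast hXone
  obtain ⟨hqq, hq1, hqP, hq1', hqP'⟩ := hQ
  set L : ℝ := Real.log X with hL
  rcases Nat.eq_zero_or_pos K with hK0 | hKpos
  · subst hK0
    have h0 : ∀ θ : ℝ, Bf M 0 a c θ = 0 := by
      intro θ
      unfold Bf
      simp
    simp only [h0, norm_zero]
    simp
    positivity
  have hLK : 1 ≤ L ^ K2 := one_le_pow₀ g2
  have hP : P0I th e X ≤ (X : ℝ) ^ (88 / 100 : ℝ) := by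
    unfold P0I
    refine Real.rpow_le_rpow_of_exponent_le hX1R ?_
    linarith
  have hP0 : 0 ≤ P0I th e X := by
    unfold P0I
    positivity
  have hPX : P0I th e X ≤ X := by
    refine hP.trans ?_
    calc (X : ℝ) ^ (88 / 100 : ℝ) ≤ (X : ℝ) ^ (1 : ℝ) :=
          Real.rpow_le_rpow_of_exponent_le hX1R (by norm_num)
      _ = X := Real.rpow_one _
  set δ : ℝ := P0I th e X * (2 * L ^ K2 + 2) / X with hδ
  have hδ0 : 0 ≤ δ := by
    rw [hδ]
    positivity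
  have hδ4 : δ ≤ 1 / 4 := by
    rw [hδ, div_le_iff₀ hX0]
    calc P0I th e X * (2 * L ^ K2 + 2) ≤ (X : ℝ) ^ (88 / 100 : ℝ) * ((X : ℝ) ^ (12 / 100 : ℝ) / 4) := by
          refine mul_le_mul hP ?_ (by positivity) (by positivity)
          linarith
      _ = 1 / 4 * X := by
          rw [← mul_div_assoc, ← Real.rpow_add hX0]
          norm_num
          ring
  have hMpos : 1 ≤ M := by
    have h : (0 : ℝ) < M := lt_of_lt_of_le (by positivity) hM1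
    exact_mod_cast h
  have hMδ : (M : ℝ) * δ ≤ 1 := by
    calc (M : ℝ) * δ ≤ yB th e X * δ := mul_le_mul_of_nonneg_right hM2 hδ0
      _ = (yB th e X * P0I th e X / X) * (2 * L ^ K2 + 2) := by
          rw [hδ]
          ring
      _ = (X : ℝ) ^ (-(3 / 2 * e)) * (2 * L ^ K2 + 2) := by
          congr 1
          unfold yB P0I
          rw [← Real.rpow_add hX0]
          nth_rewrite 2 [← Real.rpow_one (X : ℝ)]
          rw [← Real.rpow_sub hX0]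
          congr 1
          ring
      _ ≤ (X : ℝ) ^ (-(3 / 2 * e)) * (X : ℝ) ^ (3 / 2 * e) := by
          refine mul_le_mul_of_nonneg_left ?_ (by positivity)
          linarith
      _ = 1 := by
          rw [← Real.rpow_add hX0]
          simp
  have hK : (K : ℝ) ≤ 2 * (X : ℝ) ^ (1 - 1000 * e) := by
    have hM0 : (0 : ℝ) < M := by exact_mod_cast hMpos
    have hKM' : (K : ℝ) * M ≤ X := by exact_mod_cast hKM
    have hXτ : (X : ℝ) ^ (1000 * e) ≤ 2 * M := by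
      calc (X : ℝ) ^ (1000 * e) ≤ (X : ℝ) ^ τ := Real.rpow_le_rpow_of_exponent_le hX1R hτ2
        _ ≤ 2 * M := by linarith
    have h1 : (K : ℝ) * (X : ℝ) ^ (1000 * e) ≤ 2 * X := by
      calc (K : ℝ) * (X : ℝ) ^ (1000 * e) ≤ K * (2 * M) :=
            mul_le_mul_of_nonneg_left hXτ (Nat.cast_nonneg K)
        _ = 2 * (K * M) := by ring
        _ ≤ 2 * X := by linarith
    have h2 : (0 : ℝ) < (X : ℝ) ^ (1000 * e) := by positivity
    calc (K : ℝ) ≤ 2 * X / (X : ℝ) ^ (1000 * e) := by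
          rw [le_div_iff₀ h2]
          exact h1
      _ = 2 * (X : ℝ) ^ (1 - 1000 * e) := by
          rw [Real.rpow_sub hX0, Real.rpow_one]
          ring
  have hT : ∀ v : ℕ, 1 ≤ v → v ≤ X → (v.divisors.card : ℝ) ≤ (X : ℝ) ^ e := by
    intro v hv1 hv2
    calc (v.divisors.card : ℝ) ≤ D * (X : ℝ) ^ (e / 10) := htau v X hv1 hv2
      _ ≤ (X : ℝ) ^ (9 / 10 * e) * (X : ℝ) ^ (e / 10) := by
          refine mul_le_mul_of_nonneg_right ?_ (by positivity)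
          simpa using g6
      _ = (X : ℝ) ^ e := by
          rw [← Real.rpow_add hX0]
          congr 1
          ring
  have hT1 : (1 : ℝ) ≤ (X : ℝ) ^ e := Real.one_le_rpow hX1R he.le
  have hA1 : (1 : ℝ) ≤ L ^ C := one_le_pow₀ g2
  have hqX : q ≤ X := by
    have : (q : ℝ) ≤ X := hqP.trans hPX
    exact_mod_cast this
  have hqX' : q' ≤ X := by
    have : (q' : ℝ) ≤ X := hqP'.trans hPX
    exact_mod_cast this
  have hr1 : (q : ℝ) * ((2 * L ^ K2 + 1) + 1) / X ≤ δ := by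
    rw [hδ]
    refine div_le_div_of_nonneg_right ?_ hX0.le
    refine mul_le_mul hqP (by linarith) (by positivity) hP0
  have hr2 : (q' : ℝ) * ((2 * L ^ K2 + 1) + 1) / X ≤ δ := by
    rw [hδ]
    refine div_le_div_of_nonneg_right ?_ hX0.le
    refine mul_le_mul hqP' (by linarith) (by positivity) hP0
  have hfacts := od_facts (X := X) (q := q) (q' := q') G hXone hq1 hq1' hqq (2 * L ^ K2 + 1) δ
    (by positivity) hr1 hr2 hδ4
  have hMK : M * K ≤ X := by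
    rw [mul_comm]
    exact hKM
  have hmain := hV X hX1 G hG M K q q' hMpos hKpos hMK hq1 hqX hq1' hqX' δ (L ^ C) ((X : ℝ) ^ e)
    hδ0 hδ4 hA1 hT1 (fun m => ((a m : ℝ) : ℂ)) (fun k => ((c k : ℝ) : ℂ))
    (fun m => by
      rw [Complex.norm_real, Real.norm_eq_abs]
      exact (hac m).1)
    (fun k => by
      rw [Complex.norm_real, Real.norm_eq_abs]
      exact (hac k).2)
    (Od G X (2 * L ^ K2 + 1) q q') hfacts hT
  calc (1 / (G : ℝ)) * ∑ j ∈ Od G X (2 * L ^ K2 + 1) q q', ‖Bf M K a c (al G j)‖ ^ 2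
      = (1 / (G : ℝ)) * ∑ j ∈ Od G X (2 * L ^ K2 + 1) q q', ‖∑ m ∈ Ioc M (2 * M),
          ∑ k ∈ Icc 1 K, ((a m : ℝ) : ℂ) * ((c k : ℝ) : ℂ) *
            ZMod.stdAddChar (((m * k : ℕ) : ZMod G) * j)‖ ^ 2 := by
        congr 1
        refine sum_congr rfl fun j _ => ?_
        rw [bf_disc]
    _ ≤ C0 * (L ^ C) ^ 4 * (X : ℝ) ^ e * (1 + M * δ) ^ 2 * K * (1 + L) := hmain
    _ ≤ C0 * (L ^ C) ^ 4 * (X : ℝ) ^ e * (1 + 1) ^ 2 * (2 * (X : ℝ) ^ (1 - 1000 * e)) *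
          (2 * L) := by
        have h1 : (1 + (M : ℝ) * δ) ^ 2 ≤ (1 + 1) ^ 2 := by
          refine pow_le_pow_left₀ (by positivity) ?_ 2
          linarith
        have h2 : 1 + L ≤ 2 * L := by linarith
        have h3 : (0 : ℝ) ≤ C0 * (L ^ C) ^ 4 * (X : ℝ) ^ e := by positivity
        refine mul_le_mul (mul_le_mul (mul_le_mul_of_nonneg_left h1 h3) hK (by positivity)
          (by positivity)) h2 (by linarith) (by positivity)
    _ = (16 * C0 * L ^ (4 * C + 1)) * (X : ℝ) ^ e * (X : ℝ) ^ (1 - 1000 * e) := by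
        ring
    _ ≤ (X : ℝ) ^ (992 * e) * (X : ℝ) ^ e * (X : ℝ) ^ (1 - 1000 * e) := by
        refine mul_le_mul_of_nonneg_right (mul_le_mul_of_nonneg_right g5 (by positivity))
          (by positivity)
    _ = (X : ℝ) ^ (1 - 7 * e) := by
        rw [← Real.rpow_add hX0, ← Real.rpow_add hX0]
        congr 1
        ring

end Pool.MP_dd84fd_nt.JX
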