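import Pool.Agent.Lib.MP_dd84fd_nt.HX.PlTIN
import Pool.Agent.Lib.MP_dd84fd_nt.IX.PlT1
import Pool.Agent.Lib.MP_dd84fd_nt.JX.HtPt
import Pool.Agent.Lib.MP_dd84fd_nt.JX.HtMass

/-!
# PL_J-T1: type I sums on the arcs, `L²` norm

Adapt `t1i_N2` of `IX/PlT1.lean` (copy its private lemmas).  One modulus `q ∈ QQ` at a time:
`∑_{a ∈ rr q} ∫_{b_q/X}^{2b_q/X} ‖T1j‖² ≤ X^(1-6e)`; then `N2 ≤ #QQ X^(1-6e) ≤ X^(1-5e)`.
`lv ≤ 1 - θ + 3e`, `lv ≤ (1+θ)/2 - 20e` (`min_le_left/right`), `D ≤ 2 X^lv`, `D² ≥ X`, `q ≤ N`, `q b ≤ N b ≤ X^(1-θ+3e/2)`,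
`q (1+b) ≤ N (1+b) ≤ 2 X^(1-θ+8e/5)` (`N ≤ N b L^A1`, as `t1_facts`), `b_q ≤ 2b`, `τ(q) ≤ D0 X^(e/10)`.
Case A, `16 D q (1+b) ≤ X` (then `q ≤ X/(16 D) ≤ D` as `D² ≥ X`): terms `g ≠ q`, `ti_rest` exactly as in `t1i_N2`
(`4 D q x ≤ 4 D q · 4b/X ≤ 1`), pointwise `≤ τ(q) C L^C0 (D + q)(1+L) ≤ X^(e/5) · 2D`; the integral is
`≤ q (b_q/X) X^(2e/5) 16 X^(2 lv) ≤ 32 X^(1-th+3e/2 - 1 + 2e/5 + (1+th) - 40e) ≤ X^(1-6e)` (`N2_sup` for `QQ = {q}` or `ht_mass` with `c2 = 0`).
Case B, `X < 16 D q (1+b)`: all `g ∣ q`: `ti_ht`: pointwise `≤ τ(q) C L^C0 (1+L)(D + X/ht) ≤ c1 + c2 X/ht`, `c1 = X^(e/5) D`, `c2 = X^(e/5)`;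
`ht_mass` with `u = b_q/X`, `v = 2b_q/X`: `≤ 2 c1² q b_q/X + C c2² (1+L)² (X/(q(1+b_q)) + q(1+2b_q))`; first term as in case A;
`X/(q(1+b)) < 16 D ≤ 32 X^lv`, `q(1+2b_q) ≤ 4 q (1+b)`: second term `≤ C X^(2e/5) (1+L)² (32 X^lv + 8 X^(1-θ+8e/5)) ≤ X^(1-6e)` since
`lv ≤ 3/4`, `1 - θ ≤ 4/5`, `e ≤ 1/10000`.
-/

set_option autoImplicit false

namespace Pool.MP_dd84fd_nt.JXP

open Finset Pool.MP_67663b_nt.Odd Pool.MP_dd84fd_nt.PL Pool.MP_dd84fd_nt.HX Pool.MP_dd84fd_nt.HXP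
open Pool.MP_dd84fd_nt.JX (Adm ZJ lv)
open Pool.MP_dd84fd_nt.GX (ht)

private theorem t1_log (K : ℕ) (A η : ℝ) (hη : 0 < η) : ∃ X0 : ℕ, ∀ X : ℕ, X0 ≤ X →
    A * (Real.log X) ^ K ≤ (X : ℝ) ^ η := by
  have h1 := (isLittleO_log_rpow_rpow_atTop (K : ℝ) hη).bound
    (show (0 : ℝ) < 1 / (|A| + 1) by positivity)
  obtain ⟨x0, hx0⟩ := Filter.eventually_atTop.1 h1
  refine ⟨max ⌈x0⌉₊ 1, fun X hX => ?_⟩
  have hX1 : 1 ≤ X := (le_max_right _ _).trans hX
  have hX2 : x0 ≤ X := (Nat.le_ceil x0).trans (by exact_mod_cast (le_max_left _ _).trans hX)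
  have h2 := hx0 X hX2
  have hL : 0 ≤ Real.log X := Real.log_natCast_nonneg X
  have hXp : (0 : ℝ) ≤ (X : ℝ) ^ η := Real.rpow_nonneg (Nat.cast_nonneg X) _
  rw [Real.rpow_natCast, Real.norm_eq_abs, Real.norm_eq_abs, abs_of_nonneg (pow_nonneg hL K),
    abs_of_nonneg hXp] at h2
  calc A * (Real.log X) ^ K ≤ |A| * (Real.log X) ^ K :=
        mul_le_mul_of_nonneg_right (le_abs_self A) (pow_nonneg hL K)
    _ ≤ |A| * (1 / (|A| + 1) * (X : ℝ) ^ η) := mul_le_mul_of_nonneg_left h2 (abs_nonneg A)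
    _ = (|A| / (|A| + 1)) * (X : ℝ) ^ η := by ring
    _ ≤ 1 * (X : ℝ) ^ η := by
        apply mul_le_mul_of_nonneg_right _ hXp
        rw [div_le_one (by positivity)]
        linarith
    _ = (X : ℝ) ^ η := one_mul _

private theorem t1_big (T : ℝ) : ∃ X0 : ℕ, ∀ X : ℕ, X0 ≤ X → T ≤ Real.log X := by
  refine ⟨⌈Real.exp T⌉₊, fun X hX => ?_⟩
  have h1 : Real.exp T ≤ X := (Nat.le_ceil _).trans (by exact_mod_cast hX)
  rw [Real.le_log_iff_exp_le ((Real.exp_pos T).trans_le h1)]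
  exact h1

private theorem t1_moebius (g : ℕ) : ‖((ArithmeticFunction.moebius g : ℤ) : ℂ)‖ ≤ 1 := by
  rw [Complex.norm_intCast]
  exact_mod_cast ArithmeticFunction.abs_moebius_le_one

private theorem t1_tau (e : ℝ) (he : 0 < e) : ∃ D : ℝ, 1 ≤ D ∧ ∀ h X : ℕ, 1 ≤ h → h ≤ X →
    (h.divisors.card : ℝ) ≤ D * (X : ℝ) ^ (e / 10) := by
  obtain ⟨k, hk⟩ := exists_nat_gt (10 / e)
  have hk0 : (0 : ℝ) < k := lt_trans (by positivity) hk
  obtain ⟨D, hD, h4⟩ := lt_tau k
  refine ⟨D, hD, fun h X hh hX => ?_⟩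
  have hX' : (h : ℝ) ≤ X := by exact_mod_cast hX
  have hX1 : (1 : ℝ) ≤ X := by exact_mod_cast hh.trans hX
  have hτ0 : (0 : ℝ) ≤ (h.divisors.card : ℝ) := Nat.cast_nonneg _
  have hke : 1 / (k : ℝ) ≤ e / 10 := by
    rw [div_le_div_iff₀ hk0 (by norm_num)]
    rw [div_lt_iff₀ he] at hk
    linarith
  calc (h.divisors.card : ℝ) = ((h.divisors.card : ℝ) ^ k) ^ (1 / (k : ℝ)) := by
        rw [← Real.rpow_natCast, ← Real.rpow_mul hτ0]
        rw [mul_one_div, div_self hk0.ne', Real.rpow_one]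
    _ ≤ (D * X) ^ (1 / (k : ℝ)) :=
        Real.rpow_le_rpow (by positivity) ((h4 h hh).trans
          (mul_le_mul_of_nonneg_left hX' (by linarith))) (by positivity)
    _ = D ^ (1 / (k : ℝ)) * (X : ℝ) ^ (1 / (k : ℝ)) :=
        Real.mul_rpow (by linarith) (by positivity)
    _ ≤ D ^ (1 : ℝ) * (X : ℝ) ^ (e / 10) := by
        refine mul_le_mul ?_ (Real.rpow_le_rpow_of_exponent_le hX1 hke) (by positivity)
          (by positivity)
        refine Real.rpow_le_rpow_of_exponent_le hD ?_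
        rw [div_le_one hk0]
        have : (0 : ℕ) < k := by exact_mod_cast hk0
        exact_mod_cast this
    _ = D * (X : ℝ) ^ (e / 10) := by rw [Real.rpow_one]

theorem t1j_cont (X D : ℕ) (b : ℝ) (γ : ℕ → ℕ → ℝ) (σ : ℝ) (q a : ℕ) :
    Continuous (T1j X D b γ σ q a) := by
  unfold T1j
  refine continuous_finsetSum _ fun g _ => continuous_const.mul ?_
  refine continuous_finsetSum _ fun l _ => ?_
  exact (iw_cont X (l * g) (γ l)).comp (by fun_prop)

/-- facts for large `X` -/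
private theorem t1_facts (th e τ : ℝ) (A1 : ℕ) (hp : Adm th e τ) : ∃ X0 : ℕ, ∀ X : ℕ,
    X0 ≤ X → ∀ (n : ℕ) (b N σ : ℝ) (QQ : Finset ℕ) (bq : ℕ → ℝ), StdJ X n th e A1 b N σ QQ bq →
    2 ≤ X ∧ 2 ≤ Real.log X ∧ 0 < b ∧ 4 * b ≤ X ∧
    (∀ q ∈ QQ, 1 ≤ q ∧ q ≤ X ∧ (q : ℝ) * b ≤ (X : ℝ) ^ (1 - th + 3 / 2 * e) ∧
      (q : ℝ) * (1 + b) ≤ 2 * (X : ℝ) ^ (1 - th + 8 / 5 * e)) := by
  obtain ⟨ht1, ht2, he0, hτ, het⟩ := hp
  obtain ⟨X1, hX1⟩ := t1_log A1 1 (e / 10) (by linarith)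
  obtain ⟨X2, hX2⟩ := t1_big 2
  obtain ⟨X3, hX3⟩ := t1_log 0 4 (1 / 10) (by norm_num)
  refine ⟨max (max X1 X2) (max X3 2), ?_⟩
  intro X hX n b N σ QQ bq hstd
  have g1 := hX1 X ((le_max_left _ _).trans ((le_max_left _ _).trans hX))
  have g2 := hX2 X ((le_max_right _ _).trans ((le_max_left _ _).trans hX))
  have g3 := hX3 X ((le_max_left _ _).trans ((le_max_right _ _).trans hX))
  have hX2' : 2 ≤ X := (le_max_right _ _).trans ((le_max_right _ _).trans hX)
  have hX0 : (0 : ℝ) < X := by exact_mod_cast (by omega : 0 < X)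
  have hX1R : (1 : ℝ) ≤ X := by exact_mod_cast (by omega : 1 ≤ X)
  obtain ⟨-, -, hσ, hbL, hN1, hNb, hfam, -, hbq⟩ := hstd
  obtain ⟨L, hL⟩ : ∃ L : ℝ, L = Real.log X := ⟨_, rfl⟩
  rw [← hL] at g1 g2 hbL
  rw [pow_zero, mul_one] at g3
  rw [one_mul] at g1
  have hL0 : 0 < L := by linarith
  have hb0 : 0 < b := lt_of_lt_of_le (Real.rpow_pos_of_pos hL0 _) hbL
  have hNle : N ≤ (X : ℝ) ^ (1 - th + 8 / 5 * e) := by
    have h1 : 1 ≤ b * L ^ A1 := by
      have h2 : L ^ (-(A1 : ℝ)) * L ^ A1 = 1 := by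
        rw [← Real.rpow_natCast, ← Real.rpow_add hL0]
        simp
      calc 1 = L ^ (-(A1 : ℝ)) * L ^ A1 := h2.symm
        _ ≤ b * L ^ A1 := mul_le_mul_of_nonneg_right hbL (by positivity)
    calc N = N * 1 := (mul_one N).symm
      _ ≤ N * (b * L ^ A1) := mul_le_mul_of_nonneg_left h1 (by linarith)
      _ = (N * b) * L ^ A1 := by ring
      _ ≤ (X : ℝ) ^ (1 - th + 3 / 2 * e) * (X : ℝ) ^ (e / 10) := by
          apply mul_le_mul hNb g1 (by positivity) (by positivity)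
      _ = (X : ℝ) ^ (1 - th + 8 / 5 * e) := by
          rw [← Real.rpow_add hX0]
          congr 1
          ring
  have hNb2 : N * b ≤ (X : ℝ) ^ (1 - th + 8 / 5 * e) :=
    hNb.trans (Real.rpow_le_rpow_of_exponent_le hX1R (by linarith))
  have h4b : 4 * b ≤ X := by
    have h1 : b ≤ N * b := by nlinarith
    have h2 : (X : ℝ) ^ (1 - th + 8 / 5 * e) ≤ (X : ℝ) ^ (9 / 10 : ℝ) :=
      Real.rpow_le_rpow_of_exponent_le hX1R (by linarith)
    calc 4 * b ≤ (X : ℝ) ^ (1 / 10 : ℝ) * (X : ℝ) ^ (9 / 10 : ℝ) :=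
          mul_le_mul g3 (by linarith) hb0.le (by positivity)
      _ = X := by
          rw [← Real.rpow_add hX0]
          norm_num
  refine ⟨hX2', by rw [← hL]; exact g2, hb0, h4b, ?_⟩
  intro q hqq
  have h1 := hfam.2 q hqq q hqq
  rw [Nat.lcm_self] at h1
  have hq1 := hfam.1 q hqq
  have hqb : (q : ℝ) * b ≤ N * b := mul_le_mul_of_nonneg_right h1 hb0.le
  have hqX : q ≤ X := by
    have h2 : (X : ℝ) ^ (1 - th + 8 / 5 * e) ≤ (X : ℝ) ^ (1 : ℝ) :=
      Real.rpow_le_rpow_of_exponent_le hX1R (by linarith)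
    rw [Real.rpow_one] at h2
    have h3 : (q : ℝ) ≤ X := by linarith
    exact_mod_cast h3
  have hsum : (q : ℝ) * (1 + b) ≤ 2 * (X : ℝ) ^ (1 - th + 8 / 5 * e) := by
    have : (q : ℝ) * (1 + b) = q + q * b := by ring
    rw [this]
    linarith
  exact ⟨hq1, hqX, hqb.trans hNb, hsum⟩

theorem t1j_N2 (th e τ : ℝ) (A1 C0 : ℕ) (hp : Adm th e τ) : ∃ X0 : ℕ, ∀ X : ℕ, X0 ≤ X →
    ∀ (n : ℕ) (b N σ : ℝ) (QQ : Finset ℕ) (bq : ℕ → ℝ), StdJ X n th e A1 b N σ QQ bq →
    ∀ (D : ℕ) (γ : ℕ → ℕ → ℝ), (D : ℝ) ≤ ZJ th e X → (X : ℝ) ^ (1 / 2 : ℝ) ≤ D →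
    (∀ l, BVw X ((Real.log X) ^ C0) (γ l)) →
    N2 X bq QQ (T1j X D b γ σ) ≤ (X : ℝ) ^ (1 - 5 * e) := by
  classical
  obtain ⟨ht1, ht2, he0, hτ, het⟩ := id hp
  obtain ⟨C1, hC1, hti⟩ := ti_rest
  obtain ⟨C2, hC2, htl⟩ := ti_ht
  obtain ⟨D0, hD0, htau⟩ := t1_tau e he0
  obtain ⟨X1, hX1⟩ := t1_facts th e τ A1 hp
  obtain ⟨X2, hX2⟩ := t1_log (C0 + 1) (4 * (C1 + C2) * D0) (e / 10) (by linarith)
  obtain ⟨X3, hX3⟩ := t1_log 0 32 (31 * e) (by linarith)
  obtain ⟨X4, hX4⟩ := t1_log 2 51200 (1 / 20) (by norm_num)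
  refine ⟨max (max X1 X4) (max X2 X3), ?_⟩
  intro X hX n b N σ QQ bq hstd D γ hD hDs hγ
  obtain ⟨hX2', hL2, hb0, h4b, hq⟩ :=
    hX1 X ((le_max_left _ _).trans ((le_max_left _ _).trans hX)) n b N σ QQ bq hstd
  have g2 := hX2 X ((le_max_left _ _).trans ((le_max_right _ _).trans hX))
  have g3 := hX3 X ((le_max_right _ _).trans ((le_max_right _ _).trans hX))
  have g4 := hX4 X ((le_max_right _ _).trans ((le_max_left _ _).trans hX))
  rw [pow_zero, mul_one] at g3
  have hX0 : (0 : ℝ) < X := by exact_mod_cast (by omega : 0 < X)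
  have hX1' : 1 ≤ X := by omega
  have hX1R : (1 : ℝ) ≤ X := by exact_mod_cast hX1'
  obtain ⟨-, -, hσ, -, hN1, -, hfam, hcard, hbq⟩ := hstd
  have hL0 : 0 < Real.log X := by linarith
  have hR0 : 0 ≤ (Real.log X) ^ C0 := by positivity
  have hD0' : (0 : ℝ) ≤ D := Nat.cast_nonneg D
  have hDlv : (D : ℝ) ≤ 2 * (X : ℝ) ^ (lv th e) := hD
  have hXD : (X : ℝ) ≤ (D : ℝ) * D := by
    calc (X : ℝ) = (X : ℝ) ^ (1 / 2 : ℝ) * (X : ℝ) ^ (1 / 2 : ℝ) := by
          rw [← Real.rpow_add hX0]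
          norm_num
      _ ≤ (D : ℝ) * D := mul_le_mul hDs hDs (by positivity) hD0'
  have hDpos : (0 : ℝ) < D := lt_of_lt_of_le (by positivity) hDs
  have hlog2 : 1 + Real.log X ≤ 2 * Real.log X := by linarith
  have hlogX1 : 0 ≤ 1 + Real.log X := by linarith
  -- the constants
  have hconst : (D0 * (X : ℝ) ^ (e / 10)) * (2 * (C1 + C2) * (Real.log X) ^ C0 *
      (1 + Real.log X)) ≤ (X : ℝ) ^ (e / 5) := by
    calc (D0 * (X : ℝ) ^ (e / 10)) * (2 * (C1 + C2) * (Real.log X) ^ C0 * (1 + Real.log X))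
        ≤ (D0 * (X : ℝ) ^ (e / 10)) * (2 * (C1 + C2) * (Real.log X) ^ C0 *
          (2 * Real.log X)) := by gcongr
      _ = (4 * (C1 + C2) * D0 * (Real.log X) ^ (C0 + 1)) * (X : ℝ) ^ (e / 10) := by ring
      _ ≤ (X : ℝ) ^ (e / 10) * (X : ℝ) ^ (e / 10) := by gcongr
      _ = (X : ℝ) ^ (e / 5) := by
          rw [← Real.rpow_add hX0]
          congr 1
          ring
  have hc0 : 0 ≤ (X : ℝ) ^ (e / 5) := by positivity
  -- one modulus
  have hone : ∀ q ∈ QQ, ∑ a ∈ rr q, ∫ x in (bq q / X)..(2 * bq q / X),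
      ‖T1j X D b γ σ q a x‖ ^ 2 ≤ (X : ℝ) ^ (1 - 6 * e) := by
    intro q hqq
    obtain ⟨hq1, hqX, hqb, hqbκ⟩ := hq q hqq
    have hqR : (1 : ℝ) ≤ q := by exact_mod_cast hq1
    have hbqq := hbq q hqq
    have hlogq : Real.log q ≤ Real.log X :=
      Real.log_le_log (by linarith) (by exact_mod_cast hqX)
    have hlogq0 := Real.log_natCast_nonneg q
    set c2 : ℝ := if cA X D b q then 0 else (X : ℝ) ^ (e / 5) with hc2
    have hc20 : 0 ≤ c2 := by
      rw [hc2]
      split_ifs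
      · exact le_refl _
      · exact hc0
    have hpt : ∀ a ∈ rr q, ∀ x : ℝ, bq q / X ≤ x → x ≤ 2 * bq q / X →
        ‖T1j X D b γ σ q a x‖ ≤ (X : ℝ) ^ (e / 5) * D +
          c2 * ((X : ℝ) / ht X ((a : ℝ) / q + σ * x)) := by
      intro a ha x hx1 hx2
      have hcop : Nat.Coprime a q := by
        unfold rr at ha
        exact (mem_filter.1 ha).2
      have hx4 : x ≤ 4 * b / X := by
        refine hx2.trans (div_le_div_of_nonneg_right ?_ hX0.le)
        linarith [hbqq.2]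
      have hx0 : 0 ≤ x :=
        le_trans (div_nonneg (by linarith [hbqq.1]) hX0.le) hx1
      obtain ⟨hh1, -, -, -⟩ := GX.ht_spec X hX1' ((a : ℝ) / q + σ * x)
      set h : ℝ := (X : ℝ) / ht X ((a : ℝ) / q + σ * x) with hh
      have hh0 : 0 ≤ h := by positivity
      set B : ℝ := (2 * (C1 + C2) * (Real.log X) ^ C0 * (1 + Real.log X)) *
        ((D : ℝ) + if cA X D b q then 0 else h) with hB
      have hite0 : (0 : ℝ) ≤ if cA X D b q then 0 else h := by
        split_ifs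
        · exact le_refl _
        · exact hh0
      have hB0 : 0 ≤ B := by
        rw [hB]
        positivity
      have hterm : ∀ g ∈ q.divisors.filter (fun g => cA X D b q → g ≠ q),
          ‖((ArithmeticFunction.moebius g : ℤ) : ℂ) *
            ∑ l ∈ (Icc 1 D).filter (fun l => Nat.Coprime l q),
              iw X (l * g) (γ l) ((a : ℝ) / q + σ * x)‖ ≤ B := by
        intro g hg
        rw [mem_filter, Nat.mem_divisors] at hg
        obtain ⟨⟨hgq, hq0⟩, hne⟩ := hg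
        have hg1 : 1 ≤ g := Nat.pos_of_dvd_of_pos hgq (by omega)
        rw [norm_mul]
        have hkey : ‖∑ l ∈ (Icc 1 D).filter (fun l => Nat.Coprime l q),
              iw X (l * g) (γ l) ((a : ℝ) / q + σ * x)‖ ≤ B := by
          by_cases hcase : cA X D b q
          · have hcA : 16 * (D : ℝ) * q * (1 + b) ≤ X := hcase
            have hDx : 4 * (D : ℝ) * q * x ≤ 1 := by
              calc 4 * (D : ℝ) * q * x ≤ 4 * (D : ℝ) * q * (4 * b / X) := by
                    gcongr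
                _ = (16 * (D : ℝ) * q * b) / X := by ring
                _ ≤ 1 := by
                    rw [div_le_one hX0]
                    refine le_trans ?_ hcA
                    have : (0 : ℝ) ≤ 16 * D * q := by positivity
                    nlinarith
            have hqD : (q : ℝ) ≤ D := by
              have h1 : 16 * (D : ℝ) * q ≤ X := by
                refine le_trans ?_ hcA
                have : (0 : ℝ) ≤ 16 * D * q := by positivity
                nlinarith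
              have h2 : (D : ℝ) * q ≤ (D : ℝ) * D := by
                have : (0 : ℝ) ≤ (D : ℝ) * q := by positivity
                nlinarith
              exact le_of_mul_le_mul_left h2 hDpos
            have h2 := hti X q a g D ((Icc 1 D).filter (fun l => Nat.Coprime l q)) γ
              ((Real.log X) ^ C0) x σ hq1 hcop hgq (by
                intro l hl
                rw [mem_filter, mem_Icc] at hl
                refine ⟨hl.1.1, hl.1.2, fun hdv => ?_⟩
                have h3 : q / g ∣ q := Nat.div_dvd_of_dvd hgq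
                have h4 : q / g ∣ 1 := by
                  have := Nat.dvd_gcd hdv h3
                  rwa [hl.2] at this
                have h5 : q / g = 1 := Nat.dvd_one.1 h4
                apply hne hcase
                have h6 := Nat.div_mul_cancel hgq
                rw [h5, one_mul] at h6
                exact h6) hσ hx0 hDx hR0 (fun l _ => hγ l)
            refine h2.trans ?_
            rw [hB, if_pos hcase, add_zero]
            calc C1 * (Real.log X) ^ C0 * ((D : ℝ) + q) * (1 + Real.log q)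
                ≤ (C1 + C2) * (Real.log X) ^ C0 * ((D : ℝ) + D) * (1 + Real.log X) := by
                  have e1 : C1 * (Real.log X) ^ C0 ≤ (C1 + C2) * (Real.log X) ^ C0 :=
                    mul_le_mul_of_nonneg_right (by linarith) hR0
                  have e3 : 1 + Real.log q ≤ 1 + Real.log X := by linarith
                  exact mul_le_mul (mul_le_mul e1 (by linarith) (by positivity) (by positivity))
                    e3 (by positivity) (by positivity)
              _ = (2 * (C1 + C2) * (Real.log X) ^ C0 * (1 + Real.log X)) * (D : ℝ) := by ring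
          · have h2 := htl X D g ((Icc 1 D).filter (fun l => Nat.Coprime l q)) γ
              ((Real.log X) ^ C0) ((a : ℝ) / q + σ * x) hX1' hg1 (by
                intro l hl
                rw [mem_filter, mem_Icc] at hl
                exact hl.1) hR0 (fun l _ => hγ l)
            refine h2.trans ?_
            rw [← hh, hB, if_neg hcase]
            calc C2 * (Real.log X) ^ C0 * ((D : ℝ) + h) * (1 + Real.log X)
                = (C2 * (Real.log X) ^ C0 * (1 + Real.log X)) * ((D : ℝ) + h) := by ring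
              _ ≤ (2 * (C1 + C2) * (Real.log X) ^ C0 * (1 + Real.log X)) * ((D : ℝ) + h) := by
                  have e1 : C2 * (Real.log X) ^ C0 ≤ 2 * (C1 + C2) * (Real.log X) ^ C0 :=
                    mul_le_mul_of_nonneg_right (by linarith) hR0
                  exact mul_le_mul_of_nonneg_right (mul_le_mul_of_nonneg_right e1 hlogX1)
                    (by positivity)
        calc ‖((ArithmeticFunction.moebius g : ℤ) : ℂ)‖ * _ ≤ 1 * _ :=
              mul_le_mul_of_nonneg_right (t1_moebius g) (norm_nonneg _)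
          _ ≤ _ := by rw [one_mul]; exact hkey
      have h7 : ‖T1j X D b γ σ q a x‖ ≤ (D0 * (X : ℝ) ^ (e / 10)) * B := by
        unfold T1j
        refine (norm_sum_le _ _).trans ?_
        have h9 := sum_le_card_nsmul _ _ _ hterm
        rw [nsmul_eq_mul] at h9
        have h10 : (((q.divisors.filter (fun g => cA X D b q → g ≠ q)).card : ℕ) : ℝ) ≤
            D0 * (X : ℝ) ^ (e / 10) := by
          refine le_trans ?_ (htau q X hq1 hqX)
          exact_mod_cast card_le_card (filter_subset _ _)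
        refine le_trans ?_ (mul_le_mul_of_nonneg_right h10 hB0)
        convert h9 using 3
      refine h7.trans ?_
      have h11 : (D0 * (X : ℝ) ^ (e / 10)) * B ≤ (X : ℝ) ^ (e / 5) *
          ((D : ℝ) + if cA X D b q then 0 else h) := by
        rw [hB, ← mul_assoc]
        exact mul_le_mul_of_nonneg_right hconst (by positivity)
      refine h11.trans (le_of_eq ?_)
      rw [hc2]
      split_ifs <;> ring
    have hmass := ht_mass X q σ (bq q / X) (2 * bq q / X) hX2' hq1 hqX hσ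
      (div_nonneg (by linarith [hbqq.1]) hX0.le)
      (div_le_div_of_nonneg_right (by linarith [hbqq.1]) hX0.le)
      (by rw [div_le_one hX0]; linarith [hbqq.2])
      (fun a => T1j X D b γ σ q a) (fun a => t1j_cont X D b γ σ q a)
      ((X : ℝ) ^ (e / 5) * D) c2 (by positivity) hc20 hpt
    refine hmass.trans ?_
    -- the first term
    have hsq : ((X : ℝ) ^ (e / 5)) ^ 2 = (X : ℝ) ^ (2 / 5 * e) := by
      rw [← Real.rpow_natCast, ← Real.rpow_mul hX0.le]
      congr 1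
      push_cast
      ring
    have hD2 : (D : ℝ) ^ 2 ≤ 4 * (X : ℝ) ^ (1 + th - 40 * e) := by
      have h1 : (X : ℝ) ^ (lv th e) ≤ (X : ℝ) ^ ((1 + th) / 2 - 20 * e) :=
        Real.rpow_le_rpow_of_exponent_le hX1R (min_le_right _ _)
      calc (D : ℝ) ^ 2 ≤ (2 * (X : ℝ) ^ ((1 + th) / 2 - 20 * e)) ^ 2 :=
            pow_le_pow_left₀ hD0' (by linarith) 2
        _ = 4 * (X : ℝ) ^ (1 + th - 40 * e) := by
            rw [mul_pow, ← Real.rpow_natCast ((X : ℝ) ^ ((1 + th) / 2 - 20 * e)),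
              ← Real.rpow_mul hX0.le]
            norm_num
            congr 1
            ring
    have hfirst : 2 * ((X : ℝ) ^ (e / 5) * D) ^ 2 * q * (2 * bq q / X - bq q / X) ≤
        (1 / 2) * (X : ℝ) ^ (1 - 6 * e) := by
      calc 2 * ((X : ℝ) ^ (e / 5) * D) ^ 2 * q * (2 * bq q / X - bq q / X)
          = (2 * (X : ℝ) ^ (2 / 5 * e) * (D : ℝ) ^ 2 / X) * (q * bq q) := by
            rw [mul_pow, hsq]
            field_simp
            ring
        _ ≤ (2 * (X : ℝ) ^ (2 / 5 * e) * (4 * (X : ℝ) ^ (1 + th - 40 * e)) / X) *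
            (2 * (X : ℝ) ^ (1 - th + 3 / 2 * e)) := by
            have h1 : (q : ℝ) * bq q ≤ 2 * (X : ℝ) ^ (1 - th + 3 / 2 * e) := by
              have h2 : (q : ℝ) * bq q ≤ q * (2 * b) :=
                mul_le_mul_of_nonneg_left hbqq.2 (by linarith)
              linarith
            have h3 : 0 ≤ (q : ℝ) * bq q := mul_nonneg (by linarith) (by linarith [hbqq.1])
            gcongr
        _ = 16 * ((X : ℝ) ^ (2 / 5 * e) * (X : ℝ) ^ (1 + th - 40 * e) *
            (X : ℝ) ^ (1 - th + 3 / 2 * e) * (X : ℝ) ^ (-1 : ℝ)) := by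
            rw [Real.rpow_neg_one]
            ring
        _ = 16 * (X : ℝ) ^ (1 - 381 / 10 * e) := by
            rw [← Real.rpow_add hX0, ← Real.rpow_add hX0, ← Real.rpow_add hX0]
            congr 2
            ring
        _ = (1 / 2) * (32 * (X : ℝ) ^ (1 - 381 / 10 * e)) := by ring
        _ ≤ (1 / 2) * ((X : ℝ) ^ (31 * e) * (X : ℝ) ^ (1 - 381 / 10 * e)) := by gcongr
        _ ≤ (1 / 2) * (X : ℝ) ^ (1 - 6 * e) := by
            rw [← Real.rpow_add hX0]
            have h1 : (X : ℝ) ^ (31 * e + (1 - 381 / 10 * e)) ≤ (X : ℝ) ^ (1 - 6 * e) :=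
              Real.rpow_le_rpow_of_exponent_le hX1R (by linarith)
            linarith
    have hXu : (X : ℝ) * (bq q / X) = bq q := by field_simp
    have hXv : (X : ℝ) * (2 * bq q / X) = 2 * bq q := by field_simp
    rw [hXu, hXv]
    have hsecond : 160 * c2 ^ 2 * (1 + Real.log X) ^ 2 * ((X : ℝ) / (q * (1 + bq q)) +
        q * (1 + 2 * bq q)) ≤ (1 / 2) * (X : ℝ) ^ (1 - 6 * e) := by
      by_cases hcase : cA X D b q
      · rw [hc2, if_pos hcase]
        have : (0 : ℝ) ≤ (X : ℝ) ^ (1 - 6 * e) := by positivity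
        norm_num
        exact this
      · rw [hc2, if_neg hcase, hsq]
        have hcB : (X : ℝ) < 16 * (D : ℝ) * q * (1 + b) := not_le.1 hcase
        have h1 : (X : ℝ) / (q * (1 + bq q)) ≤ 32 * (X : ℝ) ^ (88 / 100 : ℝ) := by
          have h2 : (X : ℝ) / (q * (1 + bq q)) ≤ 16 * D := by
            rw [div_le_iff₀ (by nlinarith [hbqq.1])]
            have h3 : 16 * (D : ℝ) * q * (1 + b) ≤ 16 * (D : ℝ) * q * (1 + bq q) := by
              gcongr
              exact hbqq.1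
            nlinarith
          have h4 : (X : ℝ) ^ (lv th e) ≤ (X : ℝ) ^ (88 / 100 : ℝ) := by
            apply Real.rpow_le_rpow_of_exponent_le hX1R
            refine (min_le_right _ _).trans ?_
            linarith
          linarith
        have h5 : (q : ℝ) * (1 + 2 * bq q) ≤ 8 * (X : ℝ) ^ (88 / 100 : ℝ) := by
          have h6 : (q : ℝ) * (1 + 2 * bq q) ≤ 4 * (q * (1 + b)) := by nlinarith [hbqq.2]
          have h7 : (X : ℝ) ^ (1 - th + 8 / 5 * e) ≤ (X : ℝ) ^ (88 / 100 : ℝ) :=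
            Real.rpow_le_rpow_of_exponent_le hX1R (by linarith)
          linarith
        have h8 : (1 + Real.log X) ^ 2 ≤ 4 * (Real.log X) ^ 2 := by nlinarith
        calc 160 * (X : ℝ) ^ (2 / 5 * e) * (1 + Real.log X) ^ 2 *
              ((X : ℝ) / (q * (1 + bq q)) + q * (1 + 2 * bq q))
            ≤ 160 * (X : ℝ) ^ (2 / 5 * e) * (4 * (Real.log X) ^ 2) *
              (32 * (X : ℝ) ^ (88 / 100 : ℝ) + 8 * (X : ℝ) ^ (88 / 100 : ℝ)) := by
              have h9 : 0 ≤ (X : ℝ) / (q * (1 + bq q)) + q * (1 + 2 * bq q) := by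
                have : 0 ≤ bq q := by linarith [hbqq.1]
                positivity
              gcongr
          _ = (1 / 2) * ((51200 * (Real.log X) ^ 2) * ((X : ℝ) ^ (2 / 5 * e) *
              (X : ℝ) ^ (88 / 100 : ℝ))) := by ring
          _ ≤ (1 / 2) * ((X : ℝ) ^ (1 / 20 : ℝ) * ((X : ℝ) ^ (2 / 5 * e) *
              (X : ℝ) ^ (88 / 100 : ℝ))) := by gcongr
          _ ≤ (1 / 2) * (X : ℝ) ^ (1 - 6 * e) := by
              rw [← Real.rpow_add hX0, ← Real.rpow_add hX0]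
              have h1 : (X : ℝ) ^ (1 / 20 + (2 / 5 * e + 88 / 100)) ≤ (X : ℝ) ^ (1 - 6 * e) :=
                Real.rpow_le_rpow_of_exponent_le hX1R (by linarith)
              linarith
    linarith
  -- summation over the moduli
  unfold N2
  calc ∑ q ∈ QQ, ∑ a ∈ rr q, ∫ x in (bq q / X)..(2 * bq q / X), ‖T1j X D b γ σ q a x‖ ^ 2
      ≤ ∑ _q ∈ QQ, (X : ℝ) ^ (1 - 6 * e) := sum_le_sum hone
    _ = (QQ.card : ℝ) * (X : ℝ) ^ (1 - 6 * e) := by rw [sum_const, nsmul_eq_mul]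
    _ ≤ (X : ℝ) ^ (e / 2) * (X : ℝ) ^ (1 - 6 * e) := by gcongr
    _ ≤ (X : ℝ) ^ (1 - 5 * e) := by
        rw [← Real.rpow_add hX0]
        exact Real.rpow_le_rpow_of_exponent_le hX1R (by linarith)

end Pool.MP_dd84fd_nt.JXP
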