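import Pool.Agent.Lib.MP_dd84fd_nt.JX.SDefs
import Pool.Agent.Lib.MP_dd84fd_nt.LS.Four

/-!
# JX-SBl (0.5 h): the transform of a block

`ty2_pairs`: the private `sti_pairs` (and its helper `st_pairs`) of `IX/StTII.lean`. `tr_ty2`: `ty2_pairs` with `F n = χ(n j)` (`tr G X f j = Σ_{n ∈ Icc 1 X} f n χ(n j)`: `LS/Defs.lean`, `LS/Four.lean`), exchange the two sums.
-/

set_option autoImplicit false

namespace Pool.MP_dd84fd_nt.JX

open Finset Pool.MP_67663b_nt.Odd Pool.MP_dd84fd_nt.En Pool.MP_dd84fd_nt.E2 Pool.MP_dd84fd_nt.LS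
open Pool.MP_dd84fd_nt.L2G (nrm)
open Pool.MP_dd84fd_nt.GX Pool.MP_dd84fd_nt.HX
open Pool.MP_dd84fd_nt.IX (dl yB wSI SSI y3_dl y2_dl)

/-- the divisor sum as a sum over pairs -/
private theorem st_pairs (t : ℕ) (a c : ℕ → ℝ) (F : ℕ → ℂ) :
    ∑ n ∈ Icc 1 t, ((∑ m ∈ n.divisors, a m * c (n / m) : ℝ) : ℂ) * F n =
      ∑ p ∈ (Icc 1 t ×ˢ Icc 1 t).filter (fun p : ℕ × ℕ => p.1 * p.2 ≤ t),
        ((a p.1 : ℝ) : ℂ) * ((c p.2 : ℝ) : ℂ) * F (p.1 * p.2) := by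
  have h0 : ∀ n ∈ Icc 1 t, ((∑ m ∈ n.divisors, a m * c (n / m) : ℝ) : ℂ) * F n =
      ∑ z ∈ n.divisorsAntidiagonal, ((a z.1 : ℝ) : ℂ) * ((c z.2 : ℝ) : ℂ) * F n := by
    intro n _
    rw [← Nat.sum_divisorsAntidiagonal (fun x y => a x * c y), ← Finset.sum_mul]
    congr 1
    push_cast
    rfl
  rw [Finset.sum_congr rfl h0, Finset.sum_sigma']
  refine Finset.sum_bij' (fun p _ => (p.2 : ℕ × ℕ))
    (fun p _ => (⟨p.1 * p.2, (p.1, p.2)⟩ : Σ _ : ℕ, ℕ × ℕ)) ?_ ?_ ?_ ?_ ?_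
  · rintro ⟨n, m, k⟩ h
    rw [Finset.mem_sigma, Finset.mem_Icc, Nat.mem_divisorsAntidiagonal] at h
    obtain ⟨⟨h1, h2⟩, h3, h4⟩ := h
    simp only at h1 h2 h3 h4
    have hm : 0 < m := by
      rcases Nat.eq_zero_or_pos m with h | h
      · rw [h, zero_mul] at h3
        omega
      · exact h
    have hk : 0 < k := by
      rcases Nat.eq_zero_or_pos k with h | h
      · rw [h, mul_zero] at h3
        omega
      · exact h
    rw [Finset.mem_filter, Finset.mem_product, Finset.mem_Icc, Finset.mem_Icc]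
    have h5 : m ≤ m * k := Nat.le_mul_of_pos_right _ hk
    have h6 : k ≤ m * k := Nat.le_mul_of_pos_left _ hm
    refine ⟨⟨⟨hm, ?_⟩, hk, ?_⟩, ?_⟩
    · show m ≤ t
      omega
    · show k ≤ t
      omega
    · show m * k ≤ t
      omega
  · rintro ⟨m, k⟩ h
    rw [Finset.mem_filter, Finset.mem_product, Finset.mem_Icc, Finset.mem_Icc] at h
    obtain ⟨⟨⟨h1, h2⟩, h3, h4⟩, h5⟩ := h
    simp only at h1 h2 h3 h4 h5
    rw [Finset.mem_sigma, Finset.mem_Icc, Nat.mem_divisorsAntidiagonal]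
    exact ⟨⟨Nat.mul_pos h1 h3, h5⟩, rfl, (Nat.mul_pos h1 h3).ne'⟩
  · rintro ⟨n, m, k⟩ h
    rw [Finset.mem_sigma, Finset.mem_Icc, Nat.mem_divisorsAntidiagonal] at h
    obtain ⟨⟨h1, h2⟩, h3, h4⟩ := h
    simp only at h3
    simp only [h3]
  · rintro ⟨m, k⟩ h
    rfl
  · rintro ⟨n, m, k⟩ h
    rw [Finset.mem_sigma, Finset.mem_Icc, Nat.mem_divisorsAntidiagonal] at h
    obtain ⟨⟨h1, h2⟩, h3, h4⟩ := h
    simp only at h3
    simp only [h3]

/-- the pairs with nonzero terms -/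
private theorem sti_pairs (X M K : ℕ) (a c : ℕ → ℝ) (F : ℕ → ℂ)
    (ha : ∀ m, a m ≠ 0 → M < m ∧ m ≤ 2 * M ∧ m * K ≤ X) :
    ∑ n ∈ Icc 1 X, ((∑ m ∈ n.divisors, (if n / m ≤ K then a m * c (n / m) else 0) : ℝ) : ℂ) *
      F n = ∑ k ∈ Icc 1 K, ∑ m ∈ Ioc M (2 * M), ((a m : ℝ) : ℂ) * ((c k : ℝ) : ℂ) * F (m * k) := by
  set c' : ℕ → ℝ := fun k => if k ≤ K then c k else 0 with hc'
  have h1 : ∀ n ∈ Icc 1 X,
      ((∑ m ∈ n.divisors, (if n / m ≤ K then a m * c (n / m) else 0) : ℝ) : ℂ) * F n =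
      ((∑ m ∈ n.divisors, a m * c' (n / m) : ℝ) : ℂ) * F n := by
    intro n _
    congr 2
    refine Finset.sum_congr rfl (fun m _ => ?_)
    by_cases h : n / m ≤ K
    · rw [if_pos h, hc']
      simp only
      rw [if_pos h]
    · rw [if_neg h, hc']
      simp only
      rw [if_neg h, mul_zero]
  rw [Finset.sum_congr rfl h1, st_pairs]
  set g : ℕ × ℕ → ℂ := fun p => ((a p.1 : ℝ) : ℂ) * ((c' p.2 : ℝ) : ℂ) * F (p.1 * p.2) with hg
  set S0 : Finset (ℕ × ℕ) := (Icc 1 X ×ˢ Icc 1 X).filter (fun p : ℕ × ℕ => p.1 * p.2 ≤ X)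
    with hS0
  set S1 : Finset (ℕ × ℕ) := Ioc M (2 * M) ×ˢ Icc 1 K with hS1
  have h2 : ∑ p ∈ S0 ∩ S1, g p = ∑ p ∈ S0, g p := by
    apply Finset.sum_subset Finset.inter_subset_left
    rintro ⟨m, k⟩ hp hq
    have hp' := hp
    rw [hS0, Finset.mem_filter, Finset.mem_product, Finset.mem_Icc, Finset.mem_Icc] at hp
    obtain ⟨⟨⟨p1, p2⟩, p3, p4⟩, p5⟩ := hp
    simp only at p1 p2 p3 p4 p5
    show ((a m : ℝ) : ℂ) * ((c' k : ℝ) : ℂ) * F (m * k) = 0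
    by_cases ham : a m = 0
    · rw [ham]
      simp
    · have h3 := ha m ham
      by_cases hk : k ≤ K
      · exfalso
        apply hq
        rw [Finset.mem_inter]
        refine ⟨hp', ?_⟩
        rw [hS1, Finset.mem_product, Finset.mem_Ioc, Finset.mem_Icc]
        exact ⟨⟨h3.1, h3.2.1⟩, p3, hk⟩
      · have h4 : c' k = 0 := by
          rw [hc']
          simp only
          rw [if_neg hk]
        rw [h4]
        simp
  have h3 : ∑ p ∈ S0 ∩ S1, g p = ∑ p ∈ S1, g p := by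
    apply Finset.sum_subset Finset.inter_subset_right
    rintro ⟨m, k⟩ hp hq
    have hp' := hp
    rw [hS1, Finset.mem_product, Finset.mem_Ioc, Finset.mem_Icc] at hp
    obtain ⟨⟨p1, p2⟩, p3, p4⟩ := hp
    simp only at p1 p2 p3 p4
    show ((a m : ℝ) : ℂ) * ((c' k : ℝ) : ℂ) * F (m * k) = 0
    by_cases ham : a m = 0
    · rw [ham]
      simp
    · exfalso
      apply hq
      have h4 := ha m ham
      have h5 : m * k ≤ X := (Nat.mul_le_mul_left m p4).trans h4.2.2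
      have h6 : m ≤ m * k := Nat.le_mul_of_pos_right _ p3
      have h7 : k ≤ m * k := Nat.le_mul_of_pos_left _ (by omega)
      rw [Finset.mem_inter]
      refine ⟨?_, hp'⟩
      rw [hS0, Finset.mem_filter, Finset.mem_product, Finset.mem_Icc, Finset.mem_Icc]
      refine ⟨⟨⟨?_, ?_⟩, ?_, ?_⟩, ?_⟩
      · show 1 ≤ m
        omega
      · show m ≤ X
        omega
      · show 1 ≤ k
        omega
      · show k ≤ X
        omega
      · show m * k ≤ X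
        exact h5
  rw [← h2, h3, hS1, Finset.sum_product_right]
  refine Finset.sum_congr rfl (fun k hk => Finset.sum_congr rfl (fun m _ => ?_))
  rw [Finset.mem_Icc] at hk
  show ((a m : ℝ) : ℂ) * ((c' k : ℝ) : ℂ) * F (m * k) = _
  have h4 : c' k = c k := by
    rw [hc']
    simp only
    rw [if_pos hk.2]
  rw [h4]

theorem ty2_pairs (X M K : ℕ) (a c : ℕ → ℝ) (F : ℕ → ℂ)
    (ha : ∀ m, a m ≠ 0 → M < m ∧ m ≤ 2 * M ∧ m * K ≤ X) :
    ∑ n ∈ Icc 1 X, ((ty2 K a c n : ℝ) : ℂ) * F n =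
      ∑ k ∈ Icc 1 K, ∑ m ∈ Ioc M (2 * M), ((a m : ℝ) : ℂ) * ((c k : ℝ) : ℂ) * F (m * k) := by
  unfold ty2
  exact sti_pairs X M K a c F ha

theorem tr_ty2 (G : ℕ) [NeZero G] (X M K : ℕ) (a c : ℕ → ℝ)
    (ha : ∀ m, a m ≠ 0 → M < m ∧ m ≤ 2 * M ∧ m * K ≤ X) (j : ZMod G) :
    tr G X (ty2 K a c) j = bl G M K (fun m => ((a m : ℝ) : ℂ)) (fun k => ((c k : ℝ) : ℂ)) j := by
  have h1 := ty2_pairs X M K a c (fun n => ZMod.stdAddChar ((n : ZMod G) * j)) ha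
  have h2 : tr G X (ty2 K a c) j = ∑ n ∈ Icc 1 X, ((ty2 K a c n : ℝ) : ℂ) *
      ZMod.stdAddChar ((n : ZMod G) * j) := rfl
  rw [h2, h1, Finset.sum_comm]
  rfl

end Pool.MP_dd84fd_nt.JX
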