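import Pool.Agent.Lib.MP_dd84fd_nt.JX.Defs
import Pool.Agent.Lib.MP_dd84fd_nt.JX.Vlem

/-!
# JX-SDefs: definitions for the structure theorem of Theorems J and K

Paper: /team-store/J98_paper.md, sections 1-4.  `ty1 γ α`: a type I function; `ty2 K a c`: a type II block;
`Ok1`, `Ok2`: the conditions of `Str` on them (`Q = (log X)^C`).  `nuJ E N r = ν(r)`.  `bl G N K a c` (the transform of a block) is defined in `JX/Vlem.lean`.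
-/

set_option autoImplicit false

namespace Pool.MP_dd84fd_nt.JX

open Finset Pool.MP_67663b_nt.Odd Pool.MP_dd84fd_nt.En Pool.MP_dd84fd_nt.E2 Pool.MP_dd84fd_nt.LS
open Pool.MP_dd84fd_nt.L2G (nrm)
open Pool.MP_dd84fd_nt.GX Pool.MP_dd84fd_nt.HX
open Pool.MP_dd84fd_nt.IX (dl yB wSI SSI y3_dl y2_dl)

/-- a function of type I -/
def ty1 (γ α : ℕ → ℝ) (n : ℕ) : ℝ := γ n * ∑ l ∈ n.divisors, α l

/-- a function of type II -/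
def ty2 (K : ℕ) (a c : ℕ → ℝ) (n : ℕ) : ℝ :=
  ∑ m ∈ n.divisors, (if n / m ≤ K then a m * c (n / m) else 0)

/-- the conditions on a type I function, `Q` = bound for the coefficients -/
def Ok1 (Q : ℝ) (th e : ℝ) (X : ℕ) (γ α : ℕ → ℝ) : Prop :=
  ((∀ n, |γ n| ≤ Q) ∧ ∑ n ∈ Ico 1 X, |γ (n + 1) - γ n| ≤ Q) ∧
    (∀ l, |α l| ≤ Q) ∧ ∀ l : ℕ, ZJ th e X < l → α l = 0

/-- the conditions on a type II block with small variable in `(M, 2M]` -/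
def Ok2 (Q : ℝ) (th e τ : ℝ) (X M K : ℕ) (a c : ℕ → ℝ) : Prop :=
  (∀ n, |a n| ≤ Q ∧ |c n| ≤ Q) ∧
    ((X : ℝ) ^ τ / 2 ≤ M ∧ (M : ℝ) ≤ yB th e X ∧ K * M ≤ X) ∧
    ∀ m, a m ≠ 0 → M < m ∧ m ≤ 2 * M ∧ (m : ℝ) ≤ yB th e X ∧ m * K ≤ X

/-- `ν(r)`, the number of `(n, n', s) ∈ E × E × (N, 2N]` with `n' = n + r s` -/
def nuJ (E : Finset ℕ) (N r : ℕ) : ℕ :=
  ((E ×ˢ E ×ˢ Ioc N (2 * N)).filter (fun p : ℕ × ℕ × ℕ => p.2.1 = p.1 + r * p.2.2)).card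

open Classical in
/-- `Σ ν(r)` over the `r ∈ [1, K]` with `‖r α‖ ≤ 1/κ` -/
noncomputable def nuS (E : Finset ℕ) (N K : ℕ) (κ α : ℝ) : ℝ :=
  ∑ r ∈ (Icc 1 K).filter (fun r : ℕ => nrm (r * α) ≤ 1 / κ), (nuJ E N r : ℝ)

open Classical in
/-- the part of `nuS` of the `r` with reduced fraction `round (r α) / r = round (q α) / q` -/
noncomputable def nuq (E : Finset ℕ) (N K : ℕ) (κ α : ℝ) (q : ℕ) : ℝ :=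
  ∑ r ∈ (Icc 1 K).filter (fun r : ℕ => q ∣ r ∧ nrm (r * α) ≤ 1 / κ ∧
    round ((r : ℝ) * α) * (q : ℤ) = round ((q : ℝ) * α) * (r : ℤ)), (nuJ E N r : ℝ)

/-- `Σ ν(r)` over the multiples `r ≤ K` of `q` -/
noncomputable def nud (E : Finset ℕ) (N K q : ℕ) : ℝ :=
  ∑ r ∈ (Icc 1 K).filter (fun r => q ∣ r), (nuJ E N r : ℝ)

/-- the condition of the V-lemma -/
def OO (δ α : ℝ) (q q' : ℕ) : Prop :=
  nrm ((q : ℝ) * α) ≤ δ ∧ nrm ((q' : ℝ) * α) ≤ δ ∧ Int.gcd (round ((q : ℝ) * α)) q = 1 ∧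
    round ((q : ℝ) * α) * (q' : ℤ) ≠ round ((q' : ℝ) * α) * (q : ℤ)

open Classical in
/-- the pairs `(n, n') ∈ E²` with `n' = n + i q`, `i ≥ 1`, `i ‖q α‖ κ ≤ 2N` -/
noncomputable def prq (E : Finset ℕ) (N : ℕ) (κ α : ℝ) (q : ℕ) : Finset (ℕ × ℕ) :=
  (E ×ˢ E).filter (fun p : ℕ × ℕ => ∃ i : ℕ, 1 ≤ i ∧ p.2 = p.1 + i * q ∧
    (i : ℝ) * nrm ((q : ℝ) * α) * κ ≤ 2 * N)

/-- the type I bound `B1` for `F` at level `ZJ` -/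
def TIJ1 (th e : ℝ) (X : ℕ) (F : ℕ → ℂ) (B1 : ℝ) : Prop :=
  ∀ (R : ℕ) (c : ℕ → ℂ) (y : ℕ → ℕ), (R : ℝ) ≤ ZJ th e X → (∀ r, ‖c r‖ ≤ 1) →
    (∀ r ∈ Icc 1 R, r * y r ≤ X) →
    ‖∑ r ∈ Icc 1 R, c r * ∑ k ∈ Icc 1 (y r), F (r * k)‖ ≤ B1

/-- the type II bound `B2` for `F` for the small variable in `(N, 2N]` -/
def TIJ2 (X N : ℕ) (F : ℕ → ℂ) (B2 : ℝ) : Prop :=
  ∀ (M t : ℕ) (a b : ℕ → ℂ), t ≤ X → (∀ n, ‖a n‖ ≤ 1) → (∀ n, ‖b n‖ ≤ 1) →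
    1 ≤ M → M * N ≤ X →
    ‖∑ l ∈ Ioc M (2 * M), ∑ s ∈ (Ioc N (2 * N)).filter (fun s => l * s ≤ t),
      a l * b s * F (l * s)‖ ≤ B2

/-- structured functions in terms of `ty1`, `ty2` -/
theorem str_ok (C : ℕ) (th e τ : ℝ) (X : ℕ) (u : ℕ → ℝ) (h : Str C th e τ X u) :
    ∃ (I : ℕ) (γ α : ℕ → ℕ → ℝ) (M K : ℕ → ℕ) (a c : ℕ → ℕ → ℝ),
      (I : ℝ) ≤ (Real.log X) ^ C ∧
      (∀ i, Ok1 ((Real.log X) ^ C) th e X (γ i) (α i)) ∧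
      (∀ i, Ok2 ((Real.log X) ^ C) th e τ X (M i) (K i) (a i) (c i)) ∧
      ∀ n ∈ Icc 1 X, u n = ∑ i ∈ range I, ty1 (γ i) (α i) n +
        ∑ i ∈ range I, ty2 (K i) (a i) (c i) n := by
  obtain ⟨I, γ, α, M, K, a, c, h1, h2, h3, h4, h5, h6, h7, h8⟩ := h
  exact ⟨I, γ, α, M, K, a, c, h1, fun i => ⟨h2 i, h3 i, h4 i⟩, fun i => ⟨h5 i, h6 i, h7 i⟩, h8⟩

end Pool.MP_dd84fd_nt.JX
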