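import Pool.Agent.Lib.MP_dd84fd_nt.JX.SDefs
import Pool.Agent.Lib.MP_dd84fd_nt.LS.Four
import Pool.Agent.Lib.MP_dd84fd_nt.L2G.DivMom
import Pool.Agent.Lib.MP_dd84fd_nt.E2.MinorP

/-!
# JX-SL2 (0.6 h): `L²` norms

`vbh_tau`: `Σ_{n ≤ X} v(n)² ≤ L^(2C) Σ τ(n)² ≤ L^(2C) X (1+L)^C0 ≤ X L^(2C + 2 C0)` (`L2G.div_mom 2`; `1 + L ≤ L²` for `L ≥ 2`), `nm2 G (tr G X v) = Σ v²` (`LS.parseval`, `X < G`), `‖tr v j‖ ≤ Σ |v| ≤ (X Σ v²)^(1/2) ≤ X L^(..)`.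
`ty1_tau`: `|γ n| ≤ Q`, `|Σ_{l ∣ n} α l| ≤ Q τ(n)`. `ty2_tau`: every term is `≤ Q²` in absolute value. `str_tau`: `str_ok`; `I ≤ L^C` terms of each kind, each `≤ L^(2C) τ(n)`, and `2 ≤ L` (`X ≥ 8`).
-/

set_option autoImplicit false

namespace Pool.MP_dd84fd_nt.JX

open Finset Pool.MP_67663b_nt.Odd Pool.MP_dd84fd_nt.En Pool.MP_dd84fd_nt.E2 Pool.MP_dd84fd_nt.LS
open Pool.MP_dd84fd_nt.L2G (nrm)
open Pool.MP_dd84fd_nt.GX Pool.MP_dd84fd_nt.HX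
open Pool.MP_dd84fd_nt.IX (dl yB wSI SSI y3_dl y2_dl)

private theorem sl_char {G : ℕ} [NeZero G] (a : ZMod G) : ‖ZMod.stdAddChar a‖ = 1 :=
  AddChar.norm_apply _ _

theorem vbh_tau (C : ℕ) : ∃ CV X0 : ℕ, ∀ X : ℕ, X0 ≤ X → ∀ (G : ℕ) [NeZero G], 3 * X ≤ G →
    ∀ v : ℕ → ℝ, (∀ n ∈ Icc 1 X, |v n| ≤ (Real.log X) ^ C * (n.divisors.card : ℝ)) →
    VBH G X CV (tr G X v) := by
  obtain ⟨C0, hC0⟩ := L2G.div_mom 2
  obtain ⟨X1, hX1⟩ := MP_log_large 2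
  refine ⟨2 * C + 2 * C0, max X1 1, fun X hX G _ hG v hv => ?_⟩
  have hX1' : X1 ≤ X := le_trans (le_max_left _ _) hX
  have hXp : 1 ≤ X := le_trans (le_max_right _ _) hX
  have hL : 2 ≤ Real.log X := hX1 X hX1'
  set L := Real.log X with hLdef
  have hXr : (0 : ℝ) < X := by exact_mod_cast hXp
  have hsq : ∑ n ∈ Icc 1 X, v n ^ 2 ≤ X * L ^ (2 * C + 2 * C0) := by
    have h1 : ∑ n ∈ Icc 1 X, v n ^ 2 ≤ ∑ n ∈ Icc 1 X, L ^ (2 * C) * (n.divisors.card : ℝ) ^ 2 := by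
      refine Finset.sum_le_sum fun n hn => ?_
      have h2 := pow_le_pow_left₀ (abs_nonneg _) (hv n hn) 2
      rw [sq_abs] at h2
      calc v n ^ 2 ≤ (L ^ C * (n.divisors.card : ℝ)) ^ 2 := h2
        _ = L ^ (2 * C) * (n.divisors.card : ℝ) ^ 2 := by rw [mul_pow, ← pow_mul, mul_comm C 2]
    rw [← Finset.mul_sum] at h1
    have h3 := (hC0 X hXp).1
    have h4 : (1 + L) ^ C0 ≤ L ^ (2 * C0) := by
      rw [pow_mul]
      refine pow_le_pow_left₀ (by linarith) ?_ C0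
      nlinarith
    calc ∑ n ∈ Icc 1 X, v n ^ 2 ≤ L ^ (2 * C) * ∑ n ∈ Icc 1 X, (n.divisors.card : ℝ) ^ 2 := h1
      _ ≤ L ^ (2 * C) * (X * (1 + L) ^ C0) := mul_le_mul_of_nonneg_left h3 (by positivity)
      _ ≤ L ^ (2 * C) * (X * L ^ (2 * C0)) :=
        mul_le_mul_of_nonneg_left (mul_le_mul_of_nonneg_left h4 hXr.le) (by positivity)
      _ = X * L ^ (2 * C + 2 * C0) := by rw [pow_add]; ring
  refine ⟨?_, fun j => ?_⟩
  · unfold nm2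
    rw [parseval G X (by omega) v]
    exact hsq
  · have h1 : ‖tr G X v j‖ ≤ ∑ n ∈ Icc 1 X, |v n| := by
      unfold tr
      refine (norm_sum_le _ _).trans (Finset.sum_le_sum fun n _ => ?_)
      rw [norm_mul, sl_char, mul_one, Complex.norm_real, Real.norm_eq_abs]
    have h2 : (∑ n ∈ Icc 1 X, |v n|) ^ 2 ≤ (X * L ^ (2 * C + 2 * C0)) ^ 2 := by
      have h3 := sq_sum_le_card_mul_sum_sq (s := Icc 1 X) (f := fun n => |v n|)
      simp only [sq_abs, Nat.card_Icc, Nat.add_sub_cancel] at h3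
      have h5 : 1 ≤ L ^ (2 * C + 2 * C0) := one_le_pow₀ (by linarith)
      calc (∑ n ∈ Icc 1 X, |v n|) ^ 2 ≤ X * ∑ n ∈ Icc 1 X, v n ^ 2 := h3
        _ ≤ X * (X * L ^ (2 * C + 2 * C0)) := mul_le_mul_of_nonneg_left hsq hXr.le
        _ ≤ (X * L ^ (2 * C + 2 * C0)) * (X * L ^ (2 * C + 2 * C0)) := by
          refine mul_le_mul_of_nonneg_right ?_ (by positivity)
          nlinarith
        _ = (X * L ^ (2 * C + 2 * C0)) ^ 2 := by ring
    exact h1.trans ((pow_le_pow_iff_left₀ (Finset.sum_nonneg fun n _ => abs_nonneg _)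
      (by positivity) two_ne_zero).1 h2)

theorem ty1_tau (Q : ℝ) (th e : ℝ) (X : ℕ) (γ α : ℕ → ℝ) (h : Ok1 Q th e X γ α) (n : ℕ) :
    |ty1 γ α n| ≤ Q ^ 2 * (n.divisors.card : ℝ) := by
  obtain ⟨⟨h1, _⟩, h2, _⟩ := h
  have hQ : 0 ≤ Q := le_trans (abs_nonneg _) (h1 0)
  unfold ty1
  rw [abs_mul]
  have h3 : |∑ l ∈ n.divisors, α l| ≤ Q * (n.divisors.card : ℝ) := by
    refine (Finset.abs_sum_le_sum_abs _ _).trans ((Finset.sum_le_sum fun l _ => h2 l).trans ?_)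
    rw [Finset.sum_const, nsmul_eq_mul, mul_comm]
  calc |γ n| * |∑ l ∈ n.divisors, α l| ≤ Q * (Q * (n.divisors.card : ℝ)) :=
        mul_le_mul (h1 n) h3 (abs_nonneg _) hQ
    _ = Q ^ 2 * (n.divisors.card : ℝ) := by ring

theorem ty2_tau (Q : ℝ) (th e τ : ℝ) (X M K : ℕ) (a c : ℕ → ℝ) (h : Ok2 Q th e τ X M K a c)
    (n : ℕ) : |ty2 K a c n| ≤ Q ^ 2 * (n.divisors.card : ℝ) := by
  obtain ⟨h1, _, _⟩ := h
  have hQ : 0 ≤ Q := le_trans (abs_nonneg _) (h1 0).1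
  unfold ty2
  have h3 : ∀ m ∈ n.divisors, |if n / m ≤ K then a m * c (n / m) else 0| ≤ Q ^ 2 := by
    intro m _
    split_ifs
    · rw [abs_mul, sq]
      exact mul_le_mul (h1 m).1 (h1 _).2 (abs_nonneg _) hQ
    · rw [abs_zero]
      positivity
  refine (Finset.abs_sum_le_sum_abs _ _).trans ((Finset.sum_le_sum h3).trans ?_)
  rw [Finset.sum_const, nsmul_eq_mul, mul_comm]

theorem str_tau (C : ℕ) (th e τ : ℝ) (X : ℕ) (hX : 8 ≤ X) (v : ℕ → ℝ) (h : Str C th e τ X v) :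
    ∀ n ∈ Icc 1 X, |v n| ≤ (Real.log X) ^ (3 * C + 1) * (n.divisors.card : ℝ) := by
  intro n hn
  obtain ⟨I, γ, α, M, K, a, c, hI, h1, h2, h3⟩ := str_ok C th e τ X v h
  have hL : 2 ≤ Real.log X := by
    have h4 : Real.log 8 ≤ Real.log X := Real.log_le_log (by norm_num) (by exact_mod_cast hX)
    have h5 : Real.log 8 = 3 * Real.log 2 := by
      rw [show (8 : ℝ) = 2 ^ 3 by norm_num, Real.log_pow]
      norm_num
    have h6 := Real.log_two_gt_d9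
    linarith
  set L := Real.log X with hLdef
  have hτ : (0 : ℝ) ≤ n.divisors.card := by positivity
  rw [h3 n hn]
  have h4 : |∑ i ∈ range I, ty1 (γ i) (α i) n| ≤ L ^ C * ((L ^ C) ^ 2 * (n.divisors.card : ℝ)) := by
    refine (Finset.abs_sum_le_sum_abs _ _).trans
      ((Finset.sum_le_sum fun i _ => ty1_tau _ th e X _ _ (h1 i) n).trans ?_)
    rw [Finset.sum_const, nsmul_eq_mul, Finset.card_range]
    exact mul_le_mul_of_nonneg_right hI (by positivity)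
  have h5 : |∑ i ∈ range I, ty2 (K i) (a i) (c i) n| ≤
      L ^ C * ((L ^ C) ^ 2 * (n.divisors.card : ℝ)) := by
    refine (Finset.abs_sum_le_sum_abs _ _).trans
      ((Finset.sum_le_sum fun i _ => ty2_tau _ th e τ X _ _ _ _ (h2 i) n).trans ?_)
    rw [Finset.sum_const, nsmul_eq_mul, Finset.card_range]
    exact mul_le_mul_of_nonneg_right hI (by positivity)
  have h6 : L ^ C * ((L ^ C) ^ 2 * (n.divisors.card : ℝ)) = L ^ (3 * C) * (n.divisors.card : ℝ) := by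
    rw [← pow_mul, ← mul_assoc, ← pow_add]
    congr 2
    ring
  rw [h6] at h4 h5
  calc |∑ i ∈ range I, ty1 (γ i) (α i) n + ∑ i ∈ range I, ty2 (K i) (a i) (c i) n|
      ≤ L ^ (3 * C) * (n.divisors.card : ℝ) + L ^ (3 * C) * (n.divisors.card : ℝ) :=
        (abs_add_le _ _).trans (add_le_add h4 h5)
    _ = 2 * (L ^ (3 * C) * (n.divisors.card : ℝ)) := by ring
    _ ≤ L * (L ^ (3 * C) * (n.divisors.card : ℝ)) :=
        mul_le_mul_of_nonneg_right hL (by positivity)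
    _ = L ^ (3 * C + 1) * (n.divisors.card : ℝ) := by rw [pow_succ]; ring

end Pool.MP_dd84fd_nt.JX
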