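import Pool.Agent.Lib.MP_dd84fd_nt.JX.SDefs

/-!
# JX-SNqA (0.7 h): the part of `N_j` with denominator `q`, reduction to pairs

For `r` in the filter of `nuq`: `r = i0 q`, `b = round (q α)`, `round (r α) q = b r`, so `round (r α) = i0 b` and `nrm (r α) = |r α - i0 b| = i0 |q α - b| = i0 nrm (q α) ≤ 1/κ`.
A triple `(n, n', s)` counted by `nuJ E N r`: `n' = n + r s = n + (i0 s) q`; `i := i0 s ≥ 1`, `s ≤ 2N`: `i nrm (q α) κ ≤ 2N`. For a given pair `(n, n')` the number of `(r, s)` is at most the number of `r ∣ n' - n`, `≤ T`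
(`1 ≤ n' - n ≤ X`; `s = (n' - n)/r`). So `nuq ≤ T #prq`.
-/

set_option autoImplicit false

namespace Pool.MP_dd84fd_nt.JX

open Finset Pool.MP_67663b_nt.Odd Pool.MP_dd84fd_nt.En Pool.MP_dd84fd_nt.E2 Pool.MP_dd84fd_nt.LS
open Pool.MP_dd84fd_nt.L2G (nrm)
open Pool.MP_dd84fd_nt.GX Pool.MP_dd84fd_nt.HX
open Pool.MP_dd84fd_nt.IX (dl yB wSI SSI y3_dl y2_dl)

theorem nuq_le (X : ℕ) (E : Finset ℕ) (hE : E ⊆ Icc 1 X) (N K : ℕ) (κ α : ℝ) (hκ : 0 < κ) (q : ℕ)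
    (hq : 1 ≤ q) (T : ℝ) (hT0 : 0 ≤ T)
    (hT : ∀ m : ℕ, 1 ≤ m → m ≤ X → (m.divisors.card : ℝ) ≤ T) :
    nuq E N K κ α q ≤ T * ((prq E N κ α q).card : ℝ) := by
  classical
  unfold nuq
  set R : Finset ℕ := (Icc 1 K).filter (fun r : ℕ => q ∣ r ∧ nrm (r * α) ≤ 1 / κ ∧
    round ((r : ℝ) * α) * (q : ℤ) = round ((q : ℝ) * α) * (r : ℤ)) with hR
  set F : ℕ → Finset (ℕ × ℕ × ℕ) := fun r =>
    (E ×ˢ E ×ˢ Ioc N (2 * N)).filter (fun p : ℕ × ℕ × ℕ => p.2.1 = p.1 + r * p.2.2) with hF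
  have h1 : ∑ r ∈ R, (nuJ E N r : ℝ) = ((R.sigma F).card : ℝ) := by
    rw [Finset.card_sigma, Nat.cast_sum]
    rfl
  rw [h1]
  -- the map to pairs
  set g : (Σ _ : ℕ, ℕ × ℕ × ℕ) → ℕ × ℕ := fun x => (x.2.1, x.2.2.1) with hg
  have hmaps : ∀ x ∈ R.sigma F, g x ∈ prq E N κ α q := by
    rintro ⟨r, n, n', s⟩ hx
    rw [Finset.mem_sigma] at hx
    obtain ⟨hr, hp⟩ := hx
    simp only [hF, Finset.mem_filter, Finset.mem_product] at hp
    simp only [hR, Finset.mem_filter, Finset.mem_Icc] at hr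
    obtain ⟨⟨hr1, hrK⟩, ⟨i0, hi0⟩, hnr, hround⟩ := hr
    obtain ⟨⟨hn, hn', hs⟩, heq⟩ := hp
    rw [Finset.mem_Ioc] at hs
    have hi0pos : 1 ≤ i0 := by
      rcases Nat.eq_zero_or_pos i0 with h | h
      · rw [h, Nat.mul_zero] at hi0; omega
      · exact h
    have hqz : (q : ℤ) ≠ 0 := by exact_mod_cast (by omega : q ≠ 0)
    have hrd : round ((r : ℝ) * α) = (i0 : ℤ) * round ((q : ℝ) * α) := by
      apply mul_right_cancel₀ hqz
      rw [hround, hi0]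
      push_cast
      ring
    have hnrm : nrm ((r : ℝ) * α) = (i0 : ℝ) * nrm ((q : ℝ) * α) := by
      unfold nrm
      rw [hrd]
      have : (r : ℝ) * α - (((i0 : ℤ) * round ((q : ℝ) * α) : ℤ) : ℝ)
          = (i0 : ℝ) * ((q : ℝ) * α - (round ((q : ℝ) * α) : ℝ)) := by
        rw [hi0]; push_cast; ring
      rw [this, abs_mul, abs_of_nonneg (Nat.cast_nonneg i0 : (0 : ℝ) ≤ (i0 : ℝ))]
    have hle : (i0 : ℝ) * nrm ((q : ℝ) * α) * κ ≤ 1 := by
      rw [← hnrm]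
      calc nrm ((r : ℝ) * α) * κ ≤ (1 / κ) * κ := mul_le_mul_of_nonneg_right hnr hκ.le
        _ = 1 := by field_simp
    simp only [hg, prq, Finset.mem_filter, Finset.mem_product]
    refine ⟨⟨hn, hn'⟩, i0 * s, ?_, ?_, ?_⟩
    · exact Nat.mul_pos hi0pos (by omega)
    · rw [heq, hi0]; ring
    · have hs2 : (s : ℝ) ≤ 2 * N := by exact_mod_cast hs.2
      have hs0 : (0 : ℝ) ≤ (s : ℝ) := Nat.cast_nonneg s
      calc ((i0 * s : ℕ) : ℝ) * nrm ((q : ℝ) * α) * κ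
          = (s : ℝ) * ((i0 : ℝ) * nrm ((q : ℝ) * α) * κ) := by push_cast; ring
        _ ≤ (s : ℝ) * 1 := mul_le_mul_of_nonneg_left hle hs0
        _ ≤ 2 * N := by rw [mul_one]; exact hs2
  rw [Finset.card_eq_sum_card_fiberwise hmaps, Nat.cast_sum]
  have hfib : ∀ b ∈ prq E N κ α q,
      ((((R.sigma F).filter (fun x => g x = b)).card : ℕ) : ℝ) ≤ T := by
    rintro ⟨n, n'⟩ hb
    simp only [prq, Finset.mem_filter, Finset.mem_product] at hb
    obtain ⟨⟨hn, hn'⟩, i, hi, heq, -⟩ := hb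
    have hn'X : n' ≤ X := (Finset.mem_Icc.mp (hE hn')).2
    have hpos : 1 ≤ n' - n := by
      have : 1 ≤ i * q := Nat.mul_pos hi hq
      omega
    refine le_trans ?_ (hT (n' - n) hpos (by omega))
    norm_cast
    refine Finset.card_le_card_of_injOn (fun x => x.1) ?_ ?_
    · rintro ⟨r, a, a', s⟩ hx
      simp only [Finset.coe_filter, Set.mem_setOf_eq, Finset.mem_sigma, hg, Prod.mk.injEq] at hx
      obtain ⟨⟨hr, hp⟩, ha, ha'⟩ := hx
      simp only [hF, Finset.mem_filter, Finset.mem_product] at hp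
      obtain ⟨-, he⟩ := hp
      simp only [Finset.mem_coe, Nat.mem_divisors]
      refine ⟨⟨s, ?_⟩, by omega⟩
      rw [← ha, ← ha', he]
      simp
    · rintro ⟨r, a, a', s⟩ hx ⟨r2, a2, a2', s2⟩ hx2 hrr
      simp only [Finset.coe_filter, Set.mem_setOf_eq, Finset.mem_sigma, hg, Prod.mk.injEq] at hx hx2
      obtain ⟨⟨hr, hp⟩, ha, ha'⟩ := hx
      obtain ⟨⟨hr2, hp2⟩, ha2, ha2'⟩ := hx2
      simp only [hF, Finset.mem_filter, Finset.mem_product] at hp hp2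
      obtain ⟨-, he⟩ := hp
      obtain ⟨-, he2⟩ := hp2
      simp only at hrr
      subst hrr
      subst ha ha' ha2 ha2'
      have hr1 : 1 ≤ r := by
        simp only [hR, Finset.mem_filter, Finset.mem_Icc] at hr
        exact hr.1.1
      have : r * s = r * s2 := by omega
      have hss : s = s2 := Nat.eq_of_mul_eq_mul_left (by omega) this
      rw [hss]
  calc ∑ b ∈ prq E N κ α q, ((((R.sigma F).filter (fun x => g x = b)).card : ℕ) : ℝ)
      ≤ ∑ _b ∈ prq E N κ α q, T := Finset.sum_le_sum hfib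
    _ = T * ((prq E N κ α q).card : ℝ) := by rw [Finset.sum_const, nsmul_eq_mul, mul_comm]

end Pool.MP_dd84fd_nt.JX
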