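import Pool.Agent.Lib.MP_dd84fd_nt.JX.SDefs

/-!
# JX-SNu (0.4 h): the sums of `ν`

`ν(r) = nuJ E N r = #{(n, n', s) ∈ E × E × Ioc N (2N) : n' = n + r s}`. For `r ≥ 1`, `s ≥ 1`: `m = n' - n ∈ [1, X)` and `r ∣ m`, `s = m / r`. So
`Σ_{r ∈ Icc 1 K} ν(r) w(r) ≤ Σ_{(n,n') ∈ E×E, n < n'} Σ_{r ∣ n' - n} w(r)`: inject `(r; n, n', s) ↦ (n, n'; r)`. With `w = 1`: `≤ T #E²`. With `w = τ(r) ≤ T` (`r ≤ m ≤ X`): `≤ T² #E²`.
`nu_dvd`: `Σ_{q ∈ Icc 1 Q} Σ_{r ∈ Icc 1 K, q ∣ r} ν(r) = Σ_r ν(r) #{q ≤ Q : q ∣ r} ≤ Σ_r ν(r) τ(r)`.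
-/

set_option autoImplicit false

namespace Pool.MP_dd84fd_nt.JX

open Finset Pool.MP_67663b_nt.Odd Pool.MP_dd84fd_nt.En Pool.MP_dd84fd_nt.E2 Pool.MP_dd84fd_nt.LS
open Pool.MP_dd84fd_nt.L2G (nrm)
open Pool.MP_dd84fd_nt.GX Pool.MP_dd84fd_nt.HX
open Pool.MP_dd84fd_nt.IX (dl yB wSI SSI y3_dl y2_dl)

private theorem fib_le (X : ℕ) (E : Finset ℕ) (hE : E ⊆ Icc 1 X) (N K : ℕ) (T : ℝ) (hT0 : 0 ≤ T)
    (hT : ∀ m : ℕ, 1 ≤ m → m ≤ X → (m.divisors.card : ℝ) ≤ T) (n n' : ℕ)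
    (hn' : n' ∈ E) :
    ((∑ r ∈ Icc 1 K, ((Ioc N (2 * N)).filter (fun s => n' = n + r * s)).card : ℕ) : ℝ) ≤ T := by
  have h1 : ∀ r ∈ Icc 1 K, ((Ioc N (2 * N)).filter (fun s => n' = n + r * s)).card ≤
      if r ∈ (n' - n).divisors then 1 else 0 := by
    intro r hr
    have hr1 : 1 ≤ r := (Finset.mem_Icc.1 hr).1
    split_ifs with h
    · refine Finset.card_le_one.2 fun s hs s' hs' => ?_
      have h2 := (Finset.mem_filter.1 hs).2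
      have h3 := (Finset.mem_filter.1 hs').2
      have h4 : r * s = r * s' := by omega
      exact Nat.eq_of_mul_eq_mul_left hr1 h4
    · refine Nat.le_of_eq (Finset.card_eq_zero.2 (Finset.filter_eq_empty_iff.2 fun s hs hh => ?_))
      apply h
      have hs1 : 1 ≤ s := by
        have := (Finset.mem_Ioc.1 hs).1
        omega
      have h5 : n' - n = r * s := by omega
      rw [h5]
      refine Nat.mem_divisors.2 ⟨Nat.dvd_mul_right r s, ?_⟩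
      exact Nat.mul_ne_zero (by omega) (by omega)
  have h2 : ∑ r ∈ Icc 1 K, ((Ioc N (2 * N)).filter (fun s => n' = n + r * s)).card ≤
      (n' - n).divisors.card := by
    refine (Finset.sum_le_sum h1).trans ?_
    rw [← Finset.sum_filter, Finset.sum_const, smul_eq_mul, mul_one]
    exact Finset.card_le_card fun r hr => (Finset.mem_filter.1 hr).2
  have h3 : ((n' - n).divisors.card : ℝ) ≤ T := by
    rcases Nat.eq_zero_or_pos (n' - n) with h0 | h0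
    · rw [h0]
      simpa using hT0
    · refine hT _ h0 ?_
      have := (Finset.mem_Icc.1 (hE hn')).2
      omega
  exact le_trans (by exact_mod_cast h2) h3

private theorem nu_fib (E : Finset ℕ) (N r : ℕ) :
    nuJ E N r = ∑ p ∈ E ×ˢ E, ((Ioc N (2 * N)).filter (fun s => p.2 = p.1 + r * s)).card := by
  unfold nuJ
  rw [Finset.card_filter, Finset.sum_product, Finset.sum_product]
  refine Finset.sum_congr rfl fun n _ => ?_
  rw [Finset.sum_product]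
  refine Finset.sum_congr rfl fun n' _ => ?_
  rw [Finset.card_filter]

theorem nu_sum (X : ℕ) (E : Finset ℕ) (hE : E ⊆ Icc 1 X) (N K : ℕ) (T : ℝ) (hT0 : 0 ≤ T)
    (hT : ∀ m : ℕ, 1 ≤ m → m ≤ X → (m.divisors.card : ℝ) ≤ T) :
    ∑ r ∈ Icc 1 K, (nuJ E N r : ℝ) ≤ T * (E.card : ℝ) ^ 2 := by
  have h1 : ∑ r ∈ Icc 1 K, (nuJ E N r : ℝ) =
      ∑ p ∈ E ×ˢ E, ((∑ r ∈ Icc 1 K,
        ((Ioc N (2 * N)).filter (fun s => p.2 = p.1 + r * s)).card : ℕ) : ℝ) := by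
    simp only [nu_fib]
    push_cast
    rw [Finset.sum_comm]
  rw [h1]
  have h2 : ∀ p ∈ E ×ˢ E, ((∑ r ∈ Icc 1 K,
      ((Ioc N (2 * N)).filter (fun s => p.2 = p.1 + r * s)).card : ℕ) : ℝ) ≤ T := by
    intro p hp
    obtain ⟨_, hb⟩ := Finset.mem_product.1 hp
    exact fib_le X E hE N K T hT0 hT p.1 p.2 hb
  refine (Finset.sum_le_sum h2).trans (le_of_eq ?_)
  rw [Finset.sum_const, Finset.card_product, nsmul_eq_mul]
  push_cast
  ring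

private theorem nu_le_X (X : ℕ) (E : Finset ℕ) (hE : E ⊆ Icc 1 X) (N r : ℕ)
    (h : nuJ E N r ≠ 0) : r ≤ X := by
  unfold nuJ at h
  obtain ⟨p, hp⟩ := Finset.card_ne_zero.1 h
  obtain ⟨hm, he⟩ := Finset.mem_filter.1 hp
  obtain ⟨_, hm2⟩ := Finset.mem_product.1 hm
  obtain ⟨hb, hs⟩ := Finset.mem_product.1 hm2
  have hs1 : 1 ≤ p.2.2 := by
    have := (Finset.mem_Ioc.1 hs).1
    omega
  have hbX := (Finset.mem_Icc.1 (hE hb)).2
  have h2 : r * 1 ≤ r * p.2.2 := Nat.mul_le_mul_left r hs1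
  omega

theorem nu_tau (X : ℕ) (E : Finset ℕ) (hE : E ⊆ Icc 1 X) (N K : ℕ) (T : ℝ) (hT0 : 0 ≤ T)
    (hT : ∀ m : ℕ, 1 ≤ m → m ≤ X → (m.divisors.card : ℝ) ≤ T) :
    ∑ r ∈ Icc 1 K, (nuJ E N r : ℝ) * (r.divisors.card : ℝ) ≤ T ^ 2 * (E.card : ℝ) ^ 2 := by
  have h1 : ∀ r ∈ Icc 1 K, (nuJ E N r : ℝ) * (r.divisors.card : ℝ) ≤ (nuJ E N r : ℝ) * T := by
    intro r hr
    rcases Nat.eq_zero_or_pos (nuJ E N r) with h0 | h0
    · rw [h0]
      simp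
    · exact mul_le_mul_of_nonneg_left
        (hT r (Finset.mem_Icc.1 hr).1 (nu_le_X X E hE N r (by omega))) (by positivity)
  refine (Finset.sum_le_sum h1).trans ?_
  rw [← Finset.sum_mul]
  have h2 := nu_sum X E hE N K T hT0 hT
  calc (∑ r ∈ Icc 1 K, (nuJ E N r : ℝ)) * T ≤ (T * (E.card : ℝ) ^ 2) * T :=
        mul_le_mul_of_nonneg_right h2 hT0
    _ = T ^ 2 * (E.card : ℝ) ^ 2 := by ring

theorem nu_dvd (X : ℕ) (E : Finset ℕ) (hE : E ⊆ Icc 1 X) (N K Q : ℕ) (T : ℝ) (hT0 : 0 ≤ T)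
    (hT : ∀ m : ℕ, 1 ≤ m → m ≤ X → (m.divisors.card : ℝ) ≤ T) :
    ∑ q ∈ Icc 1 Q, nud E N K q ≤ T ^ 2 * (E.card : ℝ) ^ 2 := by
  refine le_trans ?_ (nu_tau X E hE N K T hT0 hT)
  have h1 : ∑ q ∈ Icc 1 Q, nud E N K q =
      ∑ r ∈ Icc 1 K, ∑ q ∈ Icc 1 Q, (if q ∣ r then (nuJ E N r : ℝ) else 0) := by
    unfold nud
    simp only [Finset.sum_filter]
    rw [Finset.sum_comm]
  rw [h1]
  refine Finset.sum_le_sum fun r hr => ?_
  have hr1 : 1 ≤ r := (Finset.mem_Icc.1 hr).1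
  rw [← Finset.sum_filter, Finset.sum_const, nsmul_eq_mul, mul_comm]
  refine mul_le_mul_of_nonneg_left ?_ (by positivity)
  have h2 : ((Icc 1 Q).filter (fun q => q ∣ r)).card ≤ r.divisors.card := by
    refine Finset.card_le_card fun q hq => ?_
    exact Nat.mem_divisors.2 ⟨(Finset.mem_filter.1 hq).2, by omega⟩
  exact_mod_cast h2

end Pool.MP_dd84fd_nt.JX
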