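import Pool.Agent.Lib.MP_dd84fd_nt.JX.SDefs

/-!
# JX-SResA (0.8 h): the square of `nuS`, pointwise

For `r ∈ S` (the filter of `nuS`): `b = round (r α)`, `g = gcd(b, r) ≥ 1` (`r ≥ 1`), `q(r) = r/g`: `|q(r) α - b/g| = nrm(r α)/g ≤ 1/κ < 1/2`, so `round (q(r) α) = b/g`, `nrm (q(r) α) ≤ 1/κ`, coprime to `q(r)`, `round(r α) q(r) = round(q(r) α) r`, `q(r) ∣ r`, `1 ≤ q(r) ≤ K`.
`nuS² = Σ_{r,r' ∈ S} ν(r) ν(r')`. Pairs with `q(r) = q(r')`: for `r` fixed these `r'` belong to the filter of `nuq E N K κ α (q(r))`: sum `≤ R ν(r)`. Pairs with `q = q(r) ≠ q' = q(r')`: `OO (1/κ) α q q'` holds (if `round(qα) q' = round(q'α) q` then, both being coprime, `q = q'`); group by `(q, q')`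
(`Finset.sum_fiberwise_of_maps_to`): `Σ_{r : q(r) = q} ν(r) ≤ nud q`.
-/

set_option autoImplicit false

namespace Pool.MP_dd84fd_nt.JX

open Finset Pool.MP_67663b_nt.Odd Pool.MP_dd84fd_nt.En Pool.MP_dd84fd_nt.E2 Pool.MP_dd84fd_nt.LS
open Pool.MP_dd84fd_nt.L2G (nrm)
open Pool.MP_dd84fd_nt.GX Pool.MP_dd84fd_nt.HX
open Pool.MP_dd84fd_nt.IX (dl yB wSI SSI y3_dl y2_dl)

private theorem sra_round (x : ℝ) (z : ℤ) (h : |x - z| < 1 / 2) : round x = z := by
  have h1 := abs_sub_round x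
  have h2 : |((round x - z : ℤ) : ℝ)| < 1 := by
    push_cast
    calc |(round x : ℝ) - z| = |(x - z) - (x - round x)| := by ring_nf
      _ ≤ |x - z| + |x - round x| := abs_sub _ _
      _ < 1 := by linarith
  have h3 : |round x - z| < 1 := by exact_mod_cast h2
  rw [Int.abs_lt_one_iff] at h3
  omega

/-- the denominator of the reduced fraction -/
private noncomputable def sraq (α : ℝ) (r : ℕ) : ℕ := r / Int.gcd (round ((r : ℝ) * α)) r

private theorem sraq_spec (κ α : ℝ) (hκ : 2 < κ) (r : ℕ) (hr : 1 ≤ r)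
    (h : nrm ((r : ℝ) * α) ≤ 1 / κ) :
    1 ≤ sraq α r ∧ sraq α r ≤ r ∧ sraq α r ∣ r ∧ nrm ((sraq α r : ℝ) * α) ≤ 1 / κ ∧
      Int.gcd (round ((sraq α r : ℝ) * α)) (sraq α r) = 1 ∧
      round ((r : ℝ) * α) * (sraq α r : ℤ) = round ((sraq α r : ℝ) * α) * (r : ℤ) := by
  have hκ2 : 1 / κ < 1 / 2 := one_div_lt_one_div_of_lt (by norm_num) hκ
  have hκ0 : 0 < 1 / κ := by positivity
  set b := round ((r : ℝ) * α) with hb
  set g := Int.gcd b r with hg
  have hg0 : 0 < g := Int.gcd_pos_of_ne_zero_right _ (by omega)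
  have hgr : g ∣ r := by
    have := Int.gcd_dvd_right b (r : ℤ)
    exact_mod_cast this
  obtain ⟨q, hq⟩ := hgr
  obtain ⟨b', hb'⟩ := Int.gcd_dvd_left b (r : ℤ)
  rw [← hg] at hb'
  have hqq : sraq α r = q := by
    unfold sraq
    rw [← hb, ← hg]
    conv_lhs => rw [hq]
    exact Nat.mul_div_cancel_left q hg0
  have hq1 : 1 ≤ q := by
    rcases Nat.eq_zero_or_pos q with h0 | h0
    · rw [h0, mul_zero] at hq; omega
    · exact h0
  have hgcd : Int.gcd b' q = 1 := by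
    have h1 : Int.gcd b (r : ℤ) = g * Int.gcd b' q := by
      rw [hb', hq]
      push_cast
      rw [Int.gcd_mul_left, Int.natAbs_natCast]
    rw [← hg] at h1
    have h2 : g * 1 = g * Int.gcd b' q := by rw [mul_one]; exact h1
    exact (Nat.eq_of_mul_eq_mul_left hg0 h2).symm
  have hg1 : (1 : ℝ) ≤ g := by exact_mod_cast hg0
  have hval : |(q : ℝ) * α - b'| ≤ 1 / κ := by
    have h1 : (r : ℝ) * α - b = g * ((q : ℝ) * α - b') := by
      have e1 : (r : ℝ) = g * q := by exact_mod_cast hq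
      have e2 : (b : ℝ) = g * b' := by exact_mod_cast hb'
      rw [e1, e2]; ring
    have h2 : nrm ((r : ℝ) * α) = g * |(q : ℝ) * α - b'| := by
      unfold nrm
      rw [← hb, h1, abs_mul, abs_of_pos (by linarith)]
    rw [h2] at h
    have h3 := abs_nonneg ((q : ℝ) * α - b')
    nlinarith
  have hround : round ((q : ℝ) * α) = b' := sra_round _ _ (lt_of_le_of_lt hval hκ2)
  rw [hqq]
  refine ⟨hq1, ?_, ⟨g, by rw [hq]; ring⟩, ?_, ?_, ?_⟩
  · rw [hq]; exact Nat.le_mul_of_pos_left _ hg0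
  · unfold nrm
    rw [hround]
    exact hval
  · rw [hround]; exact hgcd
  · rw [hround, hb', hq]
    push_cast
    ring

open Classical in
theorem nuS_sq (E : Finset ℕ) (N K : ℕ) (κ α R : ℝ) (hκ : 2 < κ)
    (hR : ∀ q ∈ Icc 1 K, nrm ((q : ℝ) * α) ≤ 1 / κ → Int.gcd (round ((q : ℝ) * α)) q = 1 →
      nuq E N K κ α q ≤ R) :
    nuS E N K κ α ^ 2 ≤ R * nuS E N K κ α +
      ∑ q ∈ Icc 1 K, ∑ q' ∈ Icc 1 K,
        (if OO (1 / κ) α q q' then nud E N K q * nud E N K q' else 0) := by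
  set S := (Icc 1 K).filter (fun r : ℕ => nrm (r * α) ≤ 1 / κ) with hS
  have hmS : ∀ r ∈ S, (1 ≤ r ∧ r ≤ K) ∧ nrm ((r : ℝ) * α) ≤ 1 / κ := by
    intro r hr
    rw [hS, mem_filter, mem_Icc] at hr
    exact hr
  have hnu : ∀ r, (0 : ℝ) ≤ nuJ E N r := fun r => Nat.cast_nonneg _
  have hspec : ∀ r ∈ S, _ := fun r hr => sraq_spec κ α hκ r (hmS r hr).1.1 (hmS r hr).2
  have hnuS : nuS E N K κ α = ∑ r ∈ S, (nuJ E N r : ℝ) := rfl
  have hmaps : ∀ r ∈ S, sraq α r ∈ Icc 1 K := by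
    intro r hr
    obtain ⟨h1, h2, _⟩ := hspec r hr
    rw [mem_Icc]
    exact ⟨h1, h2.trans (hmS r hr).1.2⟩
  -- the square
  have hsq : nuS E N K κ α ^ 2 =
      ∑ r ∈ S, (nuJ E N r : ℝ) * (∑ r' ∈ S.filter (fun r' => sraq α r' = sraq α r), (nuJ E N r' : ℝ)) +
      ∑ r ∈ S, ∑ r' ∈ S, (if sraq α r ≠ sraq α r' then (nuJ E N r : ℝ) * nuJ E N r' else 0) := by
    rw [hnuS, sq, sum_mul, ← sum_add_distrib]
    refine sum_congr rfl fun r _ => ?_
    rw [mul_sum, mul_sum, sum_filter (s := S), ← sum_add_distrib]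
    refine sum_congr rfl fun r' _ => ?_
    by_cases h : sraq α r = sraq α r'
    · rw [if_pos h.symm, if_neg (not_not.2 h), add_zero]
    · rw [if_neg (fun h' => h h'.symm), if_pos h, zero_add]
  rw [hsq]
  refine add_le_add ?_ ?_
  · -- equal denominators
    rw [hnuS, mul_sum]
    refine sum_le_sum fun r hr => ?_
    obtain ⟨h1, h2, h3, h4, h5, h6⟩ := hspec r hr
    have hRr := hR (sraq α r) (hmaps r hr) h4 h5
    have hle : ∑ r' ∈ S.filter (fun r' => sraq α r' = sraq α r), (nuJ E N r' : ℝ) ≤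
        nuq E N K κ α (sraq α r) := by
      unfold nuq
      refine sum_le_sum_of_subset_of_nonneg ?_ fun _ _ _ => hnu _
      intro r' hr'
      rw [mem_filter] at hr'
      obtain ⟨hr1, hr2⟩ := hr'
      obtain ⟨_, _, g3, _, _, g6⟩ := hspec r' hr1
      rw [mem_filter, mem_Icc]
      rw [← hr2]
      exact ⟨(hmS r' hr1).1, g3, (hmS r' hr1).2, g6⟩
    rw [mul_comm R]
    exact mul_le_mul_of_nonneg_left (hle.trans hRr) (hnu r)
  · -- different denominators
    rw [← sum_fiberwise_of_maps_to (s := S) (t := Icc 1 K) (g := sraq α) hmaps]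
    refine sum_le_sum fun q _ => ?_
    have hcomm : ∀ r, ∑ r' ∈ S, (if sraq α r ≠ sraq α r' then (nuJ E N r : ℝ) * nuJ E N r' else 0) =
        ∑ q' ∈ Icc 1 K, ∑ r' ∈ S.filter (fun r' => sraq α r' = q'),
          (if sraq α r ≠ sraq α r' then (nuJ E N r : ℝ) * nuJ E N r' else 0) := fun r =>
      (sum_fiberwise_of_maps_to (s := S) (t := Icc 1 K) (g := sraq α) hmaps _).symm
    simp_rw [hcomm]
    rw [sum_comm]
    refine sum_le_sum fun q' _ => ?_
    by_cases hOO : OO (1 / κ) α q q'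
    · rw [if_pos hOO]
      have hnud : ∀ q, ∑ r ∈ S.filter (fun r => sraq α r = q), (nuJ E N r : ℝ) ≤ nud E N K q := by
        intro q
        unfold nud
        refine sum_le_sum_of_subset_of_nonneg ?_ fun _ _ _ => hnu _
        intro r hr
        rw [mem_filter] at hr
        obtain ⟨_, _, g3, _⟩ := hspec r hr.1
        rw [mem_filter, mem_Icc, ← hr.2]
        exact ⟨(hmS r hr.1).1, g3⟩
      calc ∑ r ∈ S.filter (fun r => sraq α r = q), ∑ r' ∈ S.filter (fun r' => sraq α r' = q'),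
            (if sraq α r ≠ sraq α r' then (nuJ E N r : ℝ) * nuJ E N r' else 0)
          ≤ ∑ r ∈ S.filter (fun r => sraq α r = q), ∑ r' ∈ S.filter (fun r' => sraq α r' = q'),
            (nuJ E N r : ℝ) * nuJ E N r' := by
            refine sum_le_sum fun r _ => sum_le_sum fun r' _ => ?_
            split_ifs
            · exact le_rfl
            · exact mul_nonneg (hnu r) (hnu r')
        _ = (∑ r ∈ S.filter (fun r => sraq α r = q), (nuJ E N r : ℝ)) *
            ∑ r' ∈ S.filter (fun r' => sraq α r' = q'), (nuJ E N r' : ℝ) := by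
            rw [sum_mul_sum]
        _ ≤ nud E N K q * nud E N K q' :=
            mul_le_mul (hnud q) (hnud q') (sum_nonneg fun _ _ => hnu _)
              (le_trans (sum_nonneg fun _ _ => hnu _) (hnud q))
    · rw [if_neg hOO]
      refine (sum_eq_zero fun r hr => sum_eq_zero fun r' hr' => ?_).le
      rw [mem_filter] at hr hr'
      refine if_neg ?_
      intro hne
      obtain ⟨_, _, _, g4, g5, _⟩ := hspec r hr.1
      obtain ⟨_, _, _, g4', g5', _⟩ := hspec r' hr'.1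
      rw [hr.2] at g4 g5 hne
      rw [hr'.2] at g4' g5' hne
      refine hOO ⟨g4, g4', g5, fun heq => hne ?_⟩
      have c1 : IsCoprime (q : ℤ) (round ((q : ℝ) * α)) := by
        rw [Int.isCoprime_iff_gcd_eq_one, Int.gcd_comm]; exact g5
      have c2 : IsCoprime (q' : ℤ) (round ((q' : ℝ) * α)) := by
        rw [Int.isCoprime_iff_gcd_eq_one, Int.gcd_comm]; exact g5'
      have d1 : (q : ℤ) ∣ q' := by
        refine c1.dvd_of_dvd_mul_left (z := (q' : ℤ)) ?_
        exact ⟨round ((q' : ℝ) * α), by rw [heq]; ring⟩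
      have d2 : (q' : ℤ) ∣ q := by
        refine c2.dvd_of_dvd_mul_left (z := (q : ℤ)) ?_
        exact ⟨round ((q : ℝ) * α), by rw [← heq]; ring⟩
      exact Nat.dvd_antisymm (by exact_mod_cast d1) (by exact_mod_cast d2)

end Pool.MP_dd84fd_nt.JX
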