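import Pool.Agent.Lib.MP_dd84fd_nt.JX.SDefs
import Pool.Agent.Lib.MP_dd84fd_nt.JX.Vlem

/-!
# JX-SVl (0.1 h, helper26): the V-lemma for blocks

Wrapper of `vlem` (`JX/Vlem.lean`, helper26): `K = 0` is trivial (`bl = 0`).
-/

set_option autoImplicit false

namespace Pool.MP_dd84fd_nt.JX

open Finset Pool.MP_67663b_nt.Odd Pool.MP_dd84fd_nt.En Pool.MP_dd84fd_nt.E2 Pool.MP_dd84fd_nt.LS
open Pool.MP_dd84fd_nt.L2G (nrm)
open Pool.MP_dd84fd_nt.GX Pool.MP_dd84fd_nt.HX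
open Pool.MP_dd84fd_nt.IX (dl yB wSI SSI y3_dl y2_dl)

theorem vlem_bl : ∃ C0 : ℝ, 0 < C0 ∧ ∀ (X G N K q q' : ℕ) [NeZero G], 4 * X ^ 2 ≤ G →
    1 ≤ N → N ≤ X → K ≤ X → 1 ≤ q → q ≤ X → 1 ≤ q' → q' ≤ X →
    ∀ (δ A T : ℝ), 0 ≤ δ → δ ≤ 1 / 2 → 0 ≤ A → ∀ a c : ℕ → ℂ, (∀ n, ‖a n‖ ≤ A ∧ ‖c n‖ ≤ A) →
    (∀ v : ℕ, 1 ≤ v → v ≤ X → (v.divisors.card : ℝ) ≤ T) → ∀ O : Finset (ZMod G),
    (∀ j ∈ O, OO δ (al G j) q q') →
    (1 / (G : ℝ)) * ∑ j ∈ O, ‖bl G N K a c j‖ ^ 2 ≤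
      C0 * A ^ 4 * T * (1 + N * δ) ^ 2 * K * (1 + Real.log X) := by
  refine ⟨4096, by norm_num, ?_⟩
  intro X G N K q q' _ hG hN hNX hKX hq hqX hq' hqX' δ A T hδ hδ' hA a c hac hT O hO
  have hX : 1 ≤ X := by omega
  have hT1 : 1 ≤ T := by
    have := hT 1 le_rfl hX
    simpa using this
  have hlog : 0 ≤ Real.log X := Real.log_nonneg (by exact_mod_cast hX)
  rcases Nat.eq_zero_or_pos K with hK | hK
  · subst hK
    have h0 : ∀ j, bl G N 0 a c j = 0 := by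
      intro j
      unfold bl
      refine Finset.sum_eq_zero fun m _ => ?_
      rw [Finset.Icc_eq_empty (by norm_num), Finset.sum_empty]
    simp [h0]
  · refine vlem X G N K hX hG hN hNX hK hKX q q' hqX hqX' δ A T hA a c (fun n => (hac n).1)
      (fun n => (hac n).2) O (fun j hj => ?_) hT
    obtain ⟨h1, h2, h3, h4⟩ := hO j hj
    exact ⟨h1, h2, h3, sub_ne_zero.2 h4⟩

end Pool.MP_dd84fd_nt.JX
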