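import Pool.Agent.Lib.MP_dd84fd_nt.JX.SNu
import Pool.Agent.Lib.MP_dd84fd_nt.JX.SResA
import Pool.Agent.Lib.MP_dd84fd_nt.JX.SNqA
import Pool.Agent.Lib.MP_dd84fd_nt.JX.SNqB
import Pool.Agent.Lib.MP_dd84fd_nt.JX.SVl
import Pool.Agent.Lib.MP_dd84fd_nt.JX.SL2
import Pool.Agent.Lib.MP_dd84fd_nt.JX.SBl
import Pool.Agent.Lib.MP_dd84fd_nt.GX.DivPow
import Pool.Agent.Lib.MP_dd84fd_nt.E2.MinorP

/-!
# JX-SRes (1.3 h, helper26): the resonance sum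

`V = tr G X (ty2 K' a c) = bl G N' K' a c` (`tr_ty2`), `W_j = ‖ω_j V_j‖² ≤ ‖V_j‖²`, `κ = N X^(-η/2)` (`c1 = η/2`; `κ ≥ X^(τ-η/2)/2 > 2` for large `X`; `τ ≥ 1000 e`, `η ≤ e`), `N_j = nuS E N K κ (al G j)`, `I = (1/G) Σ_j W_j N_j`, `T = Cd X^(η/100) ≥ τ(m)` for `m ≤ X` (`GX.div_pow (η/100)`).
* `nuq ≤ T 65 X^(-η/2) #E² =: R` for `ω_j ≠ 0` and `gcd (round (q al_j)) q = 1` (`nuq_le`, `prq_bd` with `c1 = η/2`); `Σ_{q ≤ K} nud q ≤ T² #E²` (`nu_dvd`).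
* Cauchy: `I² ≤ ((1/G) Σ W_j) ((1/G) Σ W_j N_j²)`; `(1/G) Σ W_j ≤ nm2 V ≤ X L^CV` (`vbh_tau (2C)`, `ty2_tau`). By `nuS_sq` (for `ω_j = 0` both sides are `0`):
 `(1/G) Σ_j W_j N_j² ≤ R I + Σ_{q, q' ≤ K} nud q nud q' (1/G) Σ_{j : OO (1/κ) al_j q q'} ‖V_j‖²`; `vlem_bl` (with its `N := N'`, `K := K'`, `δ = 1/κ`, `A = L^C`, `N' δ ≤ N/κ = X^(η/2)`): the mass is `≤ C0 L^(4C) T 4 X^η K' (1+L)`, `K' ≤ X/N' ≤ 2X^(1-τ)`; `q, q' ≤ K ≤ X`.
* `I² ≤ X L^CV (R I + T⁴ #E⁴ C0 L^(4C) T 8 X^(1-τ+η) (1+L)) = a I + b`, so `I ≤ a + √b`, `a ≤ X^(1-η/2+η/50) L^CV #E²`, `√b ≤ X^(1-τ/2+η) #E²`: `I ≤ X^(1-η/4) #E²` for large `X` (`E2.MP_log_pow`).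
-/

set_option autoImplicit false

namespace Pool.MP_dd84fd_nt.JX

open Finset Pool.MP_67663b_nt.Odd Pool.MP_dd84fd_nt.En Pool.MP_dd84fd_nt.E2 Pool.MP_dd84fd_nt.LS
open Pool.MP_dd84fd_nt.L2G (nrm)
open Pool.MP_dd84fd_nt.GX Pool.MP_dd84fd_nt.HX
open Pool.MP_dd84fd_nt.IX (dl yB wSI SSI y3_dl y2_dl)

private theorem res_quad {I a b : ℝ} (hI : 0 ≤ I) (ha : 0 ≤ a) (hb : 0 ≤ b)
    (h : I ^ 2 ≤ a * I + b) : I ≤ a + Real.sqrt b := by
  by_contra hcon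
  push Not at hcon
  have h1 : 0 ≤ Real.sqrt b := Real.sqrt_nonneg b
  have h2 : Real.sqrt b * Real.sqrt b = b := Real.mul_self_sqrt hb
  have h3 : Real.sqrt b < I - a := by linarith
  have h4 : Real.sqrt b * Real.sqrt b ≤ (I - a) * Real.sqrt b :=
    mul_le_mul_of_nonneg_right h3.le h1
  rcases h1.eq_or_lt with h0 | h0
  · have h5 : b = 0 := by rw [← h2, ← h0, mul_zero]
    rw [h5] at h
    rw [← h0] at h3
    nlinarith
  · have h5 : (I - a) * Real.sqrt b < (I - a) * I := by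
      apply mul_lt_mul_of_pos_left _ (by linarith)
      linarith
    nlinarith

open Classical in
private theorem res_core (G N K : ℕ) [NeZero G] (E : Finset ℕ) (V ω : ZMod G → ℂ) (κ R D S1 : ℝ)
    (hω : ∀ j, ‖ω j‖ ≤ 1) (hκ : 2 < κ)
    (hR : ∀ j, ω j ≠ 0 → ∀ q ∈ Icc 1 K, nrm ((q : ℝ) * al G j) ≤ 1 / κ →
      Int.gcd (round ((q : ℝ) * al G j)) q = 1 → nuq E N K κ (al G j) q ≤ R)
    (hS1 : nm2 G V ≤ S1)
    (hM : ∀ q ∈ Icc 1 K, ∀ q' ∈ Icc 1 K, (1 / (G : ℝ)) * ∑ j ∈ (univ : Finset (ZMod G)).filter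
      (fun j => OO (1 / κ) (al G j) q q'), ‖V j‖ ^ 2 ≤ D) :
    ((1 / (G : ℝ)) * ∑ j : ZMod G, ‖ω j * V j‖ ^ 2 * nuS E N K κ (al G j)) ^ 2 ≤
      S1 * (R * ((1 / (G : ℝ)) * ∑ j : ZMod G, ‖ω j * V j‖ ^ 2 * nuS E N K κ (al G j)) +
        (∑ q ∈ Icc 1 K, nud E N K q) ^ 2 * D) := by
  have hG0 : (0 : ℝ) < G := by
    have : 0 < G := Nat.pos_of_ne_zero (NeZero.ne G)
    exact_mod_cast this
  have hWV : ∀ j, ‖ω j * V j‖ ^ 2 ≤ ‖V j‖ ^ 2 := by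
    intro j
    rw [norm_mul]
    refine pow_le_pow_left₀ (by positivity) ?_ 2
    exact mul_le_of_le_one_left (norm_nonneg _) (hω j)
  have hnud : ∀ q, 0 ≤ nud E N K q := fun q => Finset.sum_nonneg fun _ _ => Nat.cast_nonneg _
  -- pointwise
  have hpt : ∀ j : ZMod G, ‖ω j * V j‖ ^ 2 * nuS E N K κ (al G j) ^ 2 ≤
      R * (‖ω j * V j‖ ^ 2 * nuS E N K κ (al G j)) + ∑ q ∈ Icc 1 K, ∑ q' ∈ Icc 1 K,
        nud E N K q * nud E N K q' * (if OO (1 / κ) (al G j) q q' then ‖V j‖ ^ 2 else 0) := by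
    intro j
    by_cases h0 : ω j = 0
    · rw [h0, zero_mul, norm_zero]
      have : 0 ≤ ∑ q ∈ Icc 1 K, ∑ q' ∈ Icc 1 K,
        nud E N K q * nud E N K q' * (if OO (1 / κ) (al G j) q q' then ‖V j‖ ^ 2 else 0) := by
        refine Finset.sum_nonneg fun q _ => Finset.sum_nonneg fun q' _ => ?_
        have h1 : 0 ≤ (if OO (1 / κ) (al G j) q q' then ‖V j‖ ^ 2 else 0) := by
          split_ifs <;> positivity
        exact mul_nonneg (mul_nonneg (hnud q) (hnud q')) h1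
      simpa using this
    · have h1 := nuS_sq E N K κ (al G j) R hκ (fun q hq h2 h3 => hR j h0 q hq h2 h3)
      have h2 := mul_le_mul_of_nonneg_left h1 (sq_nonneg ‖ω j * V j‖)
      refine h2.trans ?_
      have h3 : ‖ω j * V j‖ ^ 2 * (∑ q ∈ Icc 1 K, ∑ q' ∈ Icc 1 K,
          (if OO (1 / κ) (al G j) q q' then nud E N K q * nud E N K q' else 0)) ≤
          ∑ q ∈ Icc 1 K, ∑ q' ∈ Icc 1 K, nud E N K q * nud E N K q' *
            (if OO (1 / κ) (al G j) q q' then ‖V j‖ ^ 2 else 0) := by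
        rw [Finset.mul_sum]
        refine Finset.sum_le_sum fun q _ => ?_
        rw [Finset.mul_sum]
        refine Finset.sum_le_sum fun q' _ => ?_
        split_ifs
        · rw [mul_comm]
          exact mul_le_mul_of_nonneg_left (hWV j) (mul_nonneg (hnud q) (hnud q'))
        · simp
      calc ‖ω j * V j‖ ^ 2 * (R * nuS E N K κ (al G j) + ∑ q ∈ Icc 1 K, ∑ q' ∈ Icc 1 K,
            (if OO (1 / κ) (al G j) q q' then nud E N K q * nud E N K q' else 0))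
          = R * (‖ω j * V j‖ ^ 2 * nuS E N K κ (al G j)) + ‖ω j * V j‖ ^ 2 *
            (∑ q ∈ Icc 1 K, ∑ q' ∈ Icc 1 K,
            (if OO (1 / κ) (al G j) q q' then nud E N K q * nud E N K q' else 0)) := by ring
        _ ≤ _ := by linarith
  -- the sum
  have hS2 : (1 / (G : ℝ)) * ∑ j : ZMod G, ‖ω j * V j‖ ^ 2 * nuS E N K κ (al G j) ^ 2 ≤
      R * ((1 / (G : ℝ)) * ∑ j : ZMod G, ‖ω j * V j‖ ^ 2 * nuS E N K κ (al G j)) +
        (∑ q ∈ Icc 1 K, nud E N K q) ^ 2 * D := by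
    have h1 := mul_le_mul_of_nonneg_left (Finset.sum_le_sum fun j (_ : j ∈ (univ :
      Finset (ZMod G))) => hpt j) (show (0 : ℝ) ≤ 1 / G by positivity)
    refine h1.trans ?_
    rw [Finset.sum_add_distrib, ← Finset.mul_sum, mul_add]
    have h2 : (1 / (G : ℝ)) * ∑ j : ZMod G, ∑ q ∈ Icc 1 K, ∑ q' ∈ Icc 1 K,
        nud E N K q * nud E N K q' * (if OO (1 / κ) (al G j) q q' then ‖V j‖ ^ 2 else 0) =
        ∑ q ∈ Icc 1 K, ∑ q' ∈ Icc 1 K, nud E N K q * nud E N K q' * ((1 / (G : ℝ)) *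
          ∑ j ∈ (univ : Finset (ZMod G)).filter (fun j => OO (1 / κ) (al G j) q q'),
            ‖V j‖ ^ 2) := by
      rw [Finset.sum_comm, Finset.mul_sum]
      refine Finset.sum_congr rfl fun q _ => ?_
      rw [Finset.sum_comm, Finset.mul_sum]
      refine Finset.sum_congr rfl fun q' _ => ?_
      rw [← Finset.mul_sum, Finset.sum_filter]
      ring
    have h3 : ∑ q ∈ Icc 1 K, ∑ q' ∈ Icc 1 K, nud E N K q * nud E N K q' * ((1 / (G : ℝ)) *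
          ∑ j ∈ (univ : Finset (ZMod G)).filter (fun j => OO (1 / κ) (al G j) q q'),
            ‖V j‖ ^ 2) ≤ (∑ q ∈ Icc 1 K, nud E N K q) ^ 2 * D := by
      rw [sq, Finset.sum_mul_sum, Finset.sum_mul]
      refine Finset.sum_le_sum fun q hq => ?_
      rw [Finset.sum_mul]
      refine Finset.sum_le_sum fun q' hq' => ?_
      exact mul_le_mul_of_nonneg_left (hM q hq q' hq') (mul_nonneg (hnud q) (hnud q'))
    rw [h2]
    have h4 : (1 / (G : ℝ)) * (R * ∑ j : ZMod G, ‖ω j * V j‖ ^ 2 * nuS E N K κ (al G j)) =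
        R * ((1 / (G : ℝ)) * ∑ j : ZMod G, ‖ω j * V j‖ ^ 2 * nuS E N K κ (al G j)) := by ring
    rw [h4]
    linarith
  -- Cauchy-Schwarz
  have hCS : (∑ j : ZMod G, ‖ω j * V j‖ ^ 2 * nuS E N K κ (al G j)) ^ 2 ≤
      (∑ j : ZMod G, ‖ω j * V j‖ ^ 2) *
        (∑ j : ZMod G, ‖ω j * V j‖ ^ 2 * nuS E N K κ (al G j) ^ 2) := by
    have h1 := Finset.sum_mul_sq_le_sq_mul_sq (univ : Finset (ZMod G))
      (fun j => ‖ω j * V j‖) (fun j => ‖ω j * V j‖ * nuS E N K κ (al G j))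
    have e1 : ∀ j : ZMod G, ‖ω j * V j‖ * (‖ω j * V j‖ * nuS E N K κ (al G j)) =
        ‖ω j * V j‖ ^ 2 * nuS E N K κ (al G j) := fun j => by ring
    have e2 : ∀ j : ZMod G, (‖ω j * V j‖ * nuS E N K κ (al G j)) ^ 2 =
        ‖ω j * V j‖ ^ 2 * nuS E N K κ (al G j) ^ 2 := fun j => by ring
    rw [Finset.sum_congr rfl fun j _ => e1 j, Finset.sum_congr rfl fun j _ => e2 j] at h1
    exact h1
  have hS1' : (1 / (G : ℝ)) * ∑ j : ZMod G, ‖ω j * V j‖ ^ 2 ≤ S1 := by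
    refine le_trans ?_ hS1
    unfold nm2
    exact mul_le_mul_of_nonneg_left (Finset.sum_le_sum fun j _ => hWV j) (by positivity)
  have hS20 : 0 ≤ (1 / (G : ℝ)) * ∑ j : ZMod G, ‖ω j * V j‖ ^ 2 *
      nuS E N K κ (al G j) ^ 2 := by positivity
  have hS10 : 0 ≤ S1 := le_trans (by positivity) hS1'
  calc ((1 / (G : ℝ)) * ∑ j : ZMod G, ‖ω j * V j‖ ^ 2 * nuS E N K κ (al G j)) ^ 2
      = (1 / (G : ℝ)) ^ 2 * (∑ j : ZMod G, ‖ω j * V j‖ ^ 2 * nuS E N K κ (al G j)) ^ 2 := by ring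
    _ ≤ (1 / (G : ℝ)) ^ 2 * ((∑ j : ZMod G, ‖ω j * V j‖ ^ 2) *
        (∑ j : ZMod G, ‖ω j * V j‖ ^ 2 * nuS E N K κ (al G j) ^ 2)) :=
        mul_le_mul_of_nonneg_left hCS (by positivity)
    _ = ((1 / (G : ℝ)) * ∑ j : ZMod G, ‖ω j * V j‖ ^ 2) * ((1 / (G : ℝ)) *
        ∑ j : ZMod G, ‖ω j * V j‖ ^ 2 * nuS E N K κ (al G j) ^ 2) := by ring
    _ ≤ S1 * ((1 / (G : ℝ)) *
        ∑ j : ZMod G, ‖ω j * V j‖ ^ 2 * nuS E N K κ (al G j) ^ 2) :=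
        mul_le_mul_of_nonneg_right hS1' hS20
    _ ≤ _ := mul_le_mul_of_nonneg_left hS2 hS10

/-- the final collection of the exponents -/
private theorem res_fin {x L Q F Cd C0 η τ : ℝ} (C CV : ℕ) (hx : 1 ≤ x) (hL : 1 ≤ L) (hη : 0 < η)
    (hτ : 1000 * η ≤ τ) (hCd : 1 ≤ Cd) (hC0 : 0 < C0) (hQ : Q = L ^ C)
    (h1 : 130 * Cd * L ^ CV ≤ x ^ (6 * η / 25))
    (h2 : 64 * (Cd ^ 5 * C0) * L ^ (CV + 4 * C + 1) ≤ x ^ η) :
    x * L ^ CV * (Cd * x ^ (η / 100) * (65 * x ^ (η / 2 - η) * F ^ 2)) +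
      Real.sqrt (x * L ^ CV * ((((Cd * x ^ (η / 100)) ^ 2 * F ^ 2) ^ 2) *
        (C0 * Q ^ 4 * (Cd * x ^ (η / 100)) * (4 * x ^ η) * (2 * x ^ (1 - τ)) * (1 + L)))) ≤
      x ^ (1 - η / 4) * F ^ 2 := by
  have hx0 : 0 < x := by linarith
  have hrp : ∀ u v : ℝ, x ^ u * x ^ v = x ^ (u + v) := fun u v => (Real.rpow_add hx0 u v).symm
  have hp : ∀ u : ℝ, 0 < x ^ u := fun u => Real.rpow_pos_of_pos hx0 u
  have a1 : x * L ^ CV * (Cd * x ^ (η / 100) * (65 * x ^ (η / 2 - η) * F ^ 2)) ≤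
      (1 / 2) * (x ^ (1 - η / 4) * F ^ 2) := by
    have e1 : x * L ^ CV * (Cd * x ^ (η / 100) * (65 * x ^ (η / 2 - η) * F ^ 2)) =
        (1 / 2) * ((130 * Cd * L ^ CV) * (x ^ (1 : ℝ) * x ^ (η / 100) * x ^ (η / 2 - η)) *
          F ^ 2) := by
      rw [Real.rpow_one]
      ring
    rw [e1, hrp, hrp]
    refine mul_le_mul_of_nonneg_left (mul_le_mul_of_nonneg_right ?_ (sq_nonneg F)) (by norm_num)
    calc 130 * Cd * L ^ CV * x ^ (1 + η / 100 + (η / 2 - η))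
        ≤ x ^ (6 * η / 25) * x ^ (1 + η / 100 + (η / 2 - η)) :=
          mul_le_mul_of_nonneg_right h1 (hp _).le
      _ = x ^ (1 - η / 4) := by
          rw [hrp]
          congr 1
          ring
  have a2 : Real.sqrt (x * L ^ CV * ((((Cd * x ^ (η / 100)) ^ 2 * F ^ 2) ^ 2) *
        (C0 * Q ^ 4 * (Cd * x ^ (η / 100)) * (4 * x ^ η) * (2 * x ^ (1 - τ)) * (1 + L)))) ≤
      (1 / 2) * (x ^ (1 - η / 4) * F ^ 2) := by
    rw [Real.sqrt_le_left (by positivity)]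
    have e1 : x * L ^ CV * ((((Cd * x ^ (η / 100)) ^ 2 * F ^ 2) ^ 2) *
        (C0 * Q ^ 4 * (Cd * x ^ (η / 100)) * (4 * x ^ η) * (2 * x ^ (1 - τ)) * (1 + L))) ≤
        (64 * (Cd ^ 5 * C0) * L ^ (CV + 4 * C + 1)) * (1 / 4 * F ^ 4) *
          (x ^ (1 : ℝ) * (x ^ (η / 100)) ^ 5 * x ^ η * x ^ (1 - τ)) := by
      have e2 : 1 + L ≤ 2 * L := by linarith
      have e3 : x * L ^ CV * ((((Cd * x ^ (η / 100)) ^ 2 * F ^ 2) ^ 2) *
          (C0 * Q ^ 4 * (Cd * x ^ (η / 100)) * (4 * x ^ η) * (2 * x ^ (1 - τ)) * (1 + L))) =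
          (x * L ^ CV * ((((Cd * x ^ (η / 100)) ^ 2 * F ^ 2) ^ 2) *
          (C0 * Q ^ 4 * (Cd * x ^ (η / 100)) * (4 * x ^ η) * (2 * x ^ (1 - τ))))) * (1 + L) := by
        ring
      rw [e3]
      have e4 : 0 ≤ x * L ^ CV * ((((Cd * x ^ (η / 100)) ^ 2 * F ^ 2) ^ 2) *
          (C0 * Q ^ 4 * (Cd * x ^ (η / 100)) * (4 * x ^ η) * (2 * x ^ (1 - τ)))) := by
        rw [hQ]
        have := hp (η / 100)
        have := hp η
        have := hp (1 - τ)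
        positivity
      refine (mul_le_mul_of_nonneg_left e2 e4).trans (le_of_eq ?_)
      rw [hQ, Real.rpow_one, pow_add, pow_add, pow_mul']
      ring
    refine e1.trans ?_
    have e5 : (x ^ (η / 100)) ^ 5 = x ^ (η / 20) := by
      rw [← Real.rpow_natCast, ← Real.rpow_mul hx0.le]
      congr 1
      push_cast
      ring
    rw [e5, hrp, hrp, hrp]
    have e6 : (64 * (Cd ^ 5 * C0) * L ^ (CV + 4 * C + 1)) *
        x ^ (1 + η / 20 + η + (1 - τ)) ≤ x ^ (2 - η / 2) := by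
      calc (64 * (Cd ^ 5 * C0) * L ^ (CV + 4 * C + 1)) * x ^ (1 + η / 20 + η + (1 - τ))
          ≤ x ^ η * x ^ (1 + η / 20 + η + (1 - τ)) :=
            mul_le_mul_of_nonneg_right h2 (hp _).le
        _ = x ^ (η + (1 + η / 20 + η + (1 - τ))) := hrp _ _
        _ ≤ x ^ (2 - η / 2) := Real.rpow_le_rpow_of_exponent_le hx (by linarith)
    have e7 : (x ^ (1 - η / 4)) ^ 2 = x ^ (2 - η / 2) := by
      rw [← Real.rpow_natCast, ← Real.rpow_mul hx0.le]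
      congr 1
      push_cast
      ring
    calc 64 * (Cd ^ 5 * C0) * L ^ (CV + 4 * C + 1) * (1 / 4 * F ^ 4) *
          x ^ (1 + η / 20 + η + (1 - τ))
        = (64 * (Cd ^ 5 * C0) * L ^ (CV + 4 * C + 1) * x ^ (1 + η / 20 + η + (1 - τ))) *
          (1 / 4 * F ^ 4) := by ring
      _ ≤ x ^ (2 - η / 2) * (1 / 4 * F ^ 4) := mul_le_mul_of_nonneg_right e6 (by positivity)
      _ = (1 / 2 * (x ^ (1 - η / 4) * F ^ 2)) ^ 2 := by
          rw [← e7]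
          ring
  linarith

theorem res_j (C : ℕ) (th e τ η : ℝ) (hA : Adm th e τ) (hη : 0 < η) (hη' : η ≤ e) :
    ∃ X0 : ℕ, ∀ X : ℕ, X0 ≤ X → ∀ (G : ℕ) [NeZero G], 4 * X ^ 2 ≤ G →
    ∀ (N N' K' K : ℕ) (a c : ℕ → ℝ), Ok2 ((Real.log X) ^ C) th e τ X N' K' a c → N' ≤ N →
    (N : ℝ) ≤ yB th e X → K ≤ X → ∀ ω : ZMod G → ℂ, (∀ j, ‖ω j‖ ≤ 1) →
    ∀ E : Finset ℕ, E ⊆ Icc 1 X → (X : ℝ) ^ (th - e) ≤ E.card →
    NoAPH G (dl th e) X ω E ((X : ℝ) ^ (-η)) →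
    (1 / (G : ℝ)) * ∑ j : ZMod G, ‖ω j * tr G X (ty2 K' a c) j‖ ^ 2 *
      nuS E N K ((N : ℝ) * (X : ℝ) ^ (-(η / 2))) (al G j) ≤
      (X : ℝ) ^ (1 - η / 4) * (E.card : ℝ) ^ 2 := by
  classical
  obtain ⟨hA1, hA2, hA3, hA4, hA5⟩ := hA
  have hA : Adm th e τ := ⟨hA1, hA2, hA3, hA4, hA5⟩
  have hτη : 1000 * η ≤ τ := by linarith
  obtain ⟨C0, hC0, hvl⟩ := vlem_bl
  obtain ⟨Cd, hCd, hdiv⟩ := GX.div_pow (η / 100) (by positivity)
  obtain ⟨CV, X1, hV⟩ := vbh_tau (2 * C)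
  obtain ⟨X2, hX2⟩ := MP_log_pow (130 * Cd) CV (ε := 6 * η / 25) (by positivity)
  obtain ⟨X3, hX3⟩ := MP_log_pow (64 * (Cd ^ 5 * C0)) (CV + 4 * C + 1) (ε := η) hη
  obtain ⟨X4, hX4⟩ := MP_log_pow 5 0 (ε := τ - η / 2) (by linarith)
  refine ⟨max (max (max X1 X2) (max X3 X4)) (2 ^ 40), fun X hX => ?_⟩
  simp only [max_le_iff] at hX
  obtain ⟨⟨⟨hX1, hX2'⟩, hX3', hX4'⟩, hX24⟩ := hX
  intro G _ hG N N' K' K a c hOk hNN hNy hKX ω hω E hE hEc hAP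
  have hXr : (1 : ℝ) ≤ X := by
    have : 1 ≤ X := le_trans (by norm_num) hX24
    exact_mod_cast this
  have hX0 : (0 : ℝ) < X := by linarith
  have hX1n : 1 ≤ X := le_trans (by norm_num) hX24
  have hL : 1 ≤ Real.log X := by
    have h3 : (3 : ℝ) ≤ X := by
      have : 3 ≤ X := le_trans (by norm_num) hX24
      exact_mod_cast this
    have h1 : Real.exp 1 ≤ X := by
      have := Real.exp_one_lt_d9
      linarith
    have h2 := Real.log_le_log (Real.exp_pos 1) h1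
    rwa [Real.log_exp] at h2
  set L := Real.log X with hLdef
  obtain ⟨hac, ⟨hN1, hN2, hN3⟩, hsup⟩ := hOk
  have hOk : Ok2 (L ^ C) th e τ X N' K' a c := ⟨hac, ⟨hN1, hN2, hN3⟩, hsup⟩
  have hp : ∀ u : ℝ, 0 < (X : ℝ) ^ u := fun u => Real.rpow_pos_of_pos hX0 u
  have hrp : ∀ u v : ℝ, (X : ℝ) ^ u * (X : ℝ) ^ v = (X : ℝ) ^ (u + v) := fun u v =>
    (Real.rpow_add hX0 u v).symm
  -- sizes
  have hN'0 : (0 : ℝ) < N' := lt_of_lt_of_le (by have := hp τ; positivity) hN1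
  have hN'1 : 1 ≤ N' := by exact_mod_cast hN'0
  have hNr : (N' : ℝ) ≤ N := by exact_mod_cast hNN
  have hN0 : (0 : ℝ) < N := lt_of_lt_of_le hN'0 hNr
  have hNX : N ≤ X := by
    have h1 : (N : ℝ) ≤ X := by
      refine hNy.trans ?_
      unfold yB
      calc (X : ℝ) ^ (th - 3 * e) ≤ (X : ℝ) ^ (1 : ℝ) :=
            Real.rpow_le_rpow_of_exponent_le hXr (by linarith)
        _ = X := Real.rpow_one _
    exact_mod_cast h1
  have hN'X : N' ≤ X := hNN.trans hNX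
  have hK'X : K' ≤ X := by
    calc K' ≤ K' * N' := Nat.le_mul_of_pos_right K' hN'1
      _ ≤ X := hN3
  have hK'r : (K' : ℝ) ≤ 2 * (X : ℝ) ^ (1 - τ) := by
    have h1 : (K' : ℝ) * N' ≤ X := by exact_mod_cast hN3
    have h2 : (K' : ℝ) * ((X : ℝ) ^ τ / 2) ≤ X :=
      (mul_le_mul_of_nonneg_left hN1 (Nat.cast_nonneg _)).trans h1
    have h3 : (X : ℝ) ^ (1 - τ) * (X : ℝ) ^ τ = X := by
      rw [hrp]
      conv_rhs => rw [← Real.rpow_one (X : ℝ)]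
      congr 1
      ring
    by_contra hcon
    push Not at hcon
    have h4 : 2 * (X : ℝ) ^ (1 - τ) * ((X : ℝ) ^ τ / 2) < K' * ((X : ℝ) ^ τ / 2) :=
      mul_lt_mul_of_pos_right hcon (by have := hp τ; positivity)
    have h5 : 2 * (X : ℝ) ^ (1 - τ) * ((X : ℝ) ^ τ / 2) = X := by
      calc 2 * (X : ℝ) ^ (1 - τ) * ((X : ℝ) ^ τ / 2) = (X : ℝ) ^ (1 - τ) * (X : ℝ) ^ τ := by ring
        _ = X := h3
    linarith
  set κ : ℝ := (N : ℝ) * (X : ℝ) ^ (-(η / 2)) with hκdef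
  have hκ0 : 0 < κ := by have := hp (-(η / 2)); positivity
  have hκ2 : 2 < κ := by
    have h1 := hX4 X hX4'
    rw [pow_zero, mul_one] at h1
    have h2 : (X : ℝ) ^ τ / 2 * (X : ℝ) ^ (-(η / 2)) ≤ κ := by
      rw [hκdef]
      exact mul_le_mul_of_nonneg_right (hN1.trans hNr) (hp _).le
    have h3 : (X : ℝ) ^ τ / 2 * (X : ℝ) ^ (-(η / 2)) = (X : ℝ) ^ (τ - η / 2) / 2 := by
      rw [div_mul_eq_mul_div, hrp]
      congr 2
    rw [h3] at h2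
    linarith
  have hNκ : (N : ℝ) ≤ (X : ℝ) ^ (η / 2) * κ := by
    rw [hκdef]
    have h1 : (X : ℝ) ^ (η / 2) * ((N : ℝ) * (X : ℝ) ^ (-(η / 2))) = N := by
      have h2 : (X : ℝ) ^ (η / 2) * (X : ℝ) ^ (-(η / 2)) = 1 := by
        rw [hrp, add_neg_cancel, Real.rpow_zero]
      calc (X : ℝ) ^ (η / 2) * ((N : ℝ) * (X : ℝ) ^ (-(η / 2)))
          = N * ((X : ℝ) ^ (η / 2) * (X : ℝ) ^ (-(η / 2))) := by ring
        _ = N := by rw [h2, mul_one]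
    rw [h1]
  set T : ℝ := Cd * (X : ℝ) ^ (η / 100) with hTdef
  have hT0 : 0 ≤ T := by have := hp (η / 100); positivity
  have hT : ∀ m : ℕ, 1 ≤ m → m ≤ X → (m.divisors.card : ℝ) ≤ T := by
    intro m hm hmX
    refine (hdiv m hm).trans ?_
    refine mul_le_mul_of_nonneg_left ?_ (by linarith)
    exact Real.rpow_le_rpow (Nat.cast_nonneg _) (by exact_mod_cast hmX) (by positivity)
  set F : ℝ := (E.card : ℝ) with hF
  set V : ZMod G → ℂ := fun j => tr G X (ty2 K' a c) j with hVdef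
  have hbl : ∀ j, V j = bl G N' K' (fun m => ((a m : ℝ) : ℂ)) (fun k => ((c k : ℝ) : ℂ)) j := by
    intro j
    exact tr_ty2 G X N' K' a c (fun m hm => ⟨(hsup m hm).1, (hsup m hm).2.1, (hsup m hm).2.2.2⟩) j
  have hS1 : nm2 G V ≤ X * L ^ CV := by
    have h1 := hV X hX1 G (by nlinarith) (ty2 K' a c) (fun n _ => by
      have h2 := ty2_tau (L ^ C) th e τ X N' K' a c hOk n
      refine h2.trans (le_of_eq ?_)
      rw [← pow_mul, mul_comm C 2])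
    exact h1.1
  set D : ℝ := C0 * (L ^ C) ^ 4 * T * (4 * (X : ℝ) ^ η) * (2 * (X : ℝ) ^ (1 - τ)) * (1 + L)
    with hDdef
  have hD0 : 0 ≤ D := by
    have := hp η
    have := hp (1 - τ)
    positivity
  have hM : ∀ q ∈ Icc 1 K, ∀ q' ∈ Icc 1 K, (1 / (G : ℝ)) * ∑ j ∈ (univ : Finset (ZMod G)).filter
      (fun j => OO (1 / κ) (al G j) q q'), ‖V j‖ ^ 2 ≤ D := by
    intro q hq q' hq'
    rw [Finset.mem_Icc] at hq hq'
    have hδ : 1 / κ ≤ 1 / 2 := one_div_le_one_div_of_le (by norm_num) hκ2.le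
    have h1 := hvl X G N' K' q q' hG hN'1 hN'X hK'X hq.1 (hq.2.trans hKX) hq'.1
      (hq'.2.trans hKX) (1 / κ) (L ^ C) T (by positivity) hδ (by positivity)
      (fun m => ((a m : ℝ) : ℂ)) (fun k => ((c k : ℝ) : ℂ)) (fun n => by
        rw [Complex.norm_real, Complex.norm_real, Real.norm_eq_abs, Real.norm_eq_abs]
        exact hac n) hT
      ((univ : Finset (ZMod G)).filter (fun j => OO (1 / κ) (al G j) q q'))
      (fun j hj => (Finset.mem_filter.1 hj).2)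
    have h2 : ∑ j ∈ (univ : Finset (ZMod G)).filter (fun j => OO (1 / κ) (al G j) q q'),
        ‖V j‖ ^ 2 = ∑ j ∈ (univ : Finset (ZMod G)).filter (fun j => OO (1 / κ) (al G j) q q'),
        ‖bl G N' K' (fun m => ((a m : ℝ) : ℂ)) (fun k => ((c k : ℝ) : ℂ)) j‖ ^ 2 :=
      Finset.sum_congr rfl fun j _ => by rw [hbl j]
    rw [h2]
    refine h1.trans ?_
    have h3 : (1 + (N' : ℝ) * (1 / κ)) ^ 2 ≤ 4 * (X : ℝ) ^ η := by
      have h4 : (N' : ℝ) * (1 / κ) ≤ (X : ℝ) ^ (η / 2) := by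
        rw [mul_one_div, div_le_iff₀ hκ0]
        exact hNr.trans hNκ
      have h5 : (1 : ℝ) ≤ (X : ℝ) ^ (η / 2) := Real.one_le_rpow hXr (by positivity)
      have h6 : (X : ℝ) ^ η = ((X : ℝ) ^ (η / 2)) ^ 2 := by
        rw [← Real.rpow_natCast, ← Real.rpow_mul hX0.le]
        congr 1
        push_cast
        ring
      rw [h6]
      have h7 : 0 ≤ (N' : ℝ) * (1 / κ) := by positivity
      nlinarith
    rw [hDdef]
    have h8 : 0 ≤ 1 + L := by linarith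
    refine mul_le_mul_of_nonneg_right ?_ h8
    refine mul_le_mul ?_ hK'r (Nat.cast_nonneg _) (by have := hp η; positivity)
    exact mul_le_mul_of_nonneg_left h3 (by positivity)
  have hR : ∀ j, ω j ≠ 0 → ∀ q ∈ Icc 1 K, nrm ((q : ℝ) * al G j) ≤ 1 / κ →
      Int.gcd (round ((q : ℝ) * al G j)) q = 1 →
      nuq E N K κ (al G j) q ≤ T * (65 * (X : ℝ) ^ (η / 2 - η) * F ^ 2) := by
    intro j hj q hq _ hg
    rw [Finset.mem_Icc] at hq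
    refine (nuq_le X E hE N K κ (al G j) hκ0 q hq.1 T hT0 hT).trans ?_
    refine mul_le_mul_of_nonneg_left ?_ hT0
    exact prq_bd th e τ η hA hη hη' X hX24 G ω E hE hEc hAP N (η / 2) κ (by positivity) hκ0 hNκ j hj
      q hq.1 hg
  have hcore := res_core G N K E V ω κ (T * (65 * (X : ℝ) ^ (η / 2 - η) * F ^ 2)) D
    (X * L ^ CV) hω hκ2 hR hS1 hM
  set I : ℝ := (1 / (G : ℝ)) * ∑ j : ZMod G, ‖ω j * V j‖ ^ 2 * nuS E N K κ (al G j) with hI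
  have hI0 : 0 ≤ I := by
    rw [hI]
    refine mul_nonneg (by positivity) (Finset.sum_nonneg fun j _ => mul_nonneg (by positivity) ?_)
    exact Finset.sum_nonneg fun _ _ => Nat.cast_nonneg _
  have hnd : ∑ q ∈ Icc 1 K, nud E N K q ≤ T ^ 2 * F ^ 2 := nu_dvd X E hE N K K T hT0 hT
  have hnd0 : 0 ≤ ∑ q ∈ Icc 1 K, nud E N K q :=
    Finset.sum_nonneg fun q _ => Finset.sum_nonneg fun _ _ => Nat.cast_nonneg _
  have hXL : 0 ≤ (X : ℝ) * L ^ CV := by positivity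
  have hquad : I ^ 2 ≤ (X * L ^ CV * (T * (65 * (X : ℝ) ^ (η / 2 - η) * F ^ 2))) * I +
      X * L ^ CV * ((T ^ 2 * F ^ 2) ^ 2 * D) := by
    refine hcore.trans ?_
    have h1 : (∑ q ∈ Icc 1 K, nud E N K q) ^ 2 * D ≤ (T ^ 2 * F ^ 2) ^ 2 * D :=
      mul_le_mul_of_nonneg_right (pow_le_pow_left₀ hnd0 hnd 2) hD0
    have h2 := mul_le_mul_of_nonneg_left h1 hXL
    calc (X : ℝ) * L ^ CV * (T * (65 * (X : ℝ) ^ (η / 2 - η) * F ^ 2) * I +
          (∑ q ∈ Icc 1 K, nud E N K q) ^ 2 * D)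
        = (X * L ^ CV * (T * (65 * (X : ℝ) ^ (η / 2 - η) * F ^ 2))) * I +
          X * L ^ CV * ((∑ q ∈ Icc 1 K, nud E N K q) ^ 2 * D) := by ring
      _ ≤ _ := by linarith
  have hfin := res_quad hI0 (by have := hp (η / 2 - η); positivity) (by positivity) hquad
  refine hfin.trans ?_
  have h2 := hX2 X hX2'
  have h3 := hX3 X hX3'
  exact res_fin C CV hXr hL hη hτη hCd hC0 rfl h2 h3

end Pool.MP_dd84fd_nt.JX
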