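import Pool.Agent.Lib.MP_dd84fd_nt.JX.STII
import Pool.Agent.Lib.MP_dd84fd_nt.JX.STI
import Pool.Agent.Lib.MP_dd84fd_nt.JX.SPc

/-!
# JX-SSt (1.1 h): the structure theorem

`L = log X`, `Q = L^C`. By `str_ok` `u = Σ_{i<I} t_i + Σ_{i<I} b_i`, `v = Σ_{k<I'} t'_k + Σ_{k<I'} b'_k` on `Icc 1 X`; `S(f, g) := Σ_{n ∈ E} ph n PhJ G X f g ω n` is symmetric (`phj_comm`) and additive (`phj_sum`, with `ι = ℕ ⊕ ℕ` or in two steps).
* `S(t_i, v)`: `pair_j`, `ti_j` with `V = tr v` (`VBH` by `vbh_tau (3C+1)`, `str_tau`), `ty1_sum`: `≤ 2 Q² X^(1-η/4) #E`.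
* `S(b_i, t'_k) = S(t'_k, b_i)`: the same with `V = tr b_i` (`VBH` by `ty2_tau`, `vbh_tau (2C)`).
* `S(b_i, b'_k)`, sizes `M_i, M'_k`: by symmetry `M'_k ≤ M_i`: `pair_j`, `tii_j` (`N = M_i`, `N' = M'_k`, `V = tr b'_k`), `ty2_sum` with `B2 = X^(1-η/10) #E`, `B4 = L^CV √(X #E)` (`GX.ff_sup`, `HX.norms_h`): `√X B4 ≤ L^CV X #E^(1/2) ≤ L^CV X^(1-(th-e)/2) #E`.
 So `≤ Q² (2L+2) 2 L^CV X^(1-η/10) #E` (`(th-e)/2 ≥ η/10`).
Number of terms `≤ I + I' I + I I' ≤ 3 L^(2C)`. Total `≤ X^(1-η/100) #E` for large `X` (`MP_log_pow`). `X^5 ≥ 4X²` for `X ≥ 2`.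
-/

set_option autoImplicit false

namespace Pool.MP_dd84fd_nt.JX

open Finset Pool.MP_67663b_nt.Odd Pool.MP_dd84fd_nt.En Pool.MP_dd84fd_nt.E2 Pool.MP_dd84fd_nt.LS
open Pool.MP_dd84fd_nt.L2G (nrm)
open Pool.MP_dd84fd_nt.GX Pool.MP_dd84fd_nt.HX
open Pool.MP_dd84fd_nt.IX (dl yB wSI SSI y3_dl y2_dl)

/-- the pairing -/
private noncomputable def Sp (G : ℕ) [NeZero G] (X : ℕ) (ω : ZMod G → ℂ) (E : Finset ℕ)
    (ph : ℕ → ℂ) (f g : ℕ → ℝ) : ℂ := ∑ n ∈ E, ph n * PhJ G X f g ω n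

private theorem sp_comm (G : ℕ) [NeZero G] (X : ℕ) (ω : ZMod G → ℂ) (E : Finset ℕ)
    (ph : ℕ → ℂ) (f g : ℕ → ℝ) : Sp G X ω E ph f g = Sp G X ω E ph g f := by
  unfold Sp
  exact Finset.sum_congr rfl fun n _ => by rw [phj_comm]

private theorem sp_split (G : ℕ) [NeZero G] (X : ℕ) (ω : ZMod G → ℂ) (E : Finset ℕ)
    (ph : ℕ → ℂ) (u v : ℕ → ℝ) (I : ℕ) (f g : ℕ → ℕ → ℝ)
    (h : ∀ n ∈ Icc 1 X, u n = ∑ i ∈ range I, f i n + ∑ i ∈ range I, g i n) :
    Sp G X ω E ph u v = ∑ i ∈ range I, Sp G X ω E ph (f i) v +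
      ∑ i ∈ range I, Sp G X ω E ph (g i) v := by
  have h1 : ∀ n, PhJ G X u v ω n = ∑ i ∈ range I, PhJ G X (f i) v ω n +
      ∑ i ∈ range I, PhJ G X (g i) v ω n := by
    intro n
    have h2 := phj_sum X G ((range I).disjSum (range I)) (Sum.elim f g) v u (fun n hn => by
      rw [h n hn, Finset.sum_disjSum]
      rfl) ω n
    rw [h2, Finset.sum_disjSum]
    rfl
  unfold Sp
  rw [Finset.sum_comm, Finset.sum_comm (s := range I), ← Finset.sum_add_distrib]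
  refine Finset.sum_congr rfl fun n _ => ?_
  rw [h1 n, mul_add, Finset.mul_sum, Finset.mul_sum]

/-- type I against anything -/
private theorem sp_one (G : ℕ) [NeZero G] (X : ℕ) (hX : 1 ≤ X) (th e : ℝ) (ω : ZMod G → ℂ)
    (E : Finset ℕ) (ph : ℕ → ℂ) (v : ℕ → ℝ) (B1 : ℝ)
    (hB : TIJ1 th e X (FF G (xx G (tr G X v) ω E ph)) B1) (γ α : ℕ → ℝ) (Q : ℝ)
    (h : Ok1 Q th e X γ α) : ‖Sp G X ω E ph (ty1 γ α) v‖ ≤ 2 * Q ^ 2 * B1 := by
  unfold Sp
  rw [pair_j]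
  exact ty1_sum th e X hX _ B1 hB γ α Q h

private theorem sp_two (G : ℕ) [NeZero G] (X : ℕ) (hX : 3 ≤ X) (th e τ : ℝ) (hA : Adm th e τ)
    (ω : ZMod G → ℂ) (E : Finset ℕ) (ph : ℕ → ℂ) (v : ℕ → ℝ) (B2 B4 : ℝ) (M K : ℕ) (hM : 1 ≤ M)
    (hB : TIJ2 X M (FF G (xx G (tr G X v) ω E ph)) B2)
    (h4 : ∀ n, ‖FF G (xx G (tr G X v) ω E ph) n‖ ≤ B4) (a c : ℕ → ℝ) (Q : ℝ)
    (h : Ok2 Q th e τ X M K a c) :
    ‖Sp G X ω E ph (ty2 K a c) v‖ ≤ Q ^ 2 * (2 * Real.log X + 2) * (B2 + Real.sqrt X * B4) := by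
  unfold Sp
  rw [pair_j]
  exact ty2_sum th e τ hA X hX _ B2 B4 h4 M K hM hB a c Q h

theorem st_j : StJ := by
  intro C th e τ η hA hη hη'
  obtain ⟨ht1, ht2, he0, hτ1, hτ2⟩ := id hA
  obtain ⟨CVa, X1, hV1⟩ := vbh_tau (3 * C + 1)
  obtain ⟨CVb, X2, hV2⟩ := vbh_tau (2 * C)
  obtain ⟨X3, hT1⟩ := ti_j CVa th e τ η hA hη hη'
  obtain ⟨X4, hT2⟩ := ti_j CVb th e τ η hA hη hη'
  obtain ⟨X5, hT3⟩ := tii_j C th e τ η hA hη hη'
  obtain ⟨X6, hX6⟩ := MP_log_pow 12 (4 * C + CVb + 1) (ε := η / 20) (by linarith)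
  obtain ⟨X7, hX7⟩ := MP_log_pow 2 0 (ε := τ) (by linarith)
  refine ⟨X1 + X2 + X3 + X4 + X5 + X6 + X7 + 8, ?_⟩
  intro X hX G _ hG u v hu hv ω hω E hE hcard ph hph hN
  have hX8 : 8 ≤ X := by omega
  have hX1 : 1 ≤ X := by omega
  have hX0 : (0 : ℝ) < X := by exact_mod_cast hX1
  have hX1r : (1 : ℝ) ≤ X := by exact_mod_cast hX1
  have hG4 : 4 * X ^ 2 ≤ G := by
    have h1 : 4 * X ^ 2 ≤ X ^ 5 := by
      have h2 : X ^ 5 = X ^ 3 * X ^ 2 := by ring
      rw [h2]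
      have h3 : 4 ≤ X ^ 3 := by
        calc 4 ≤ 8 ^ 3 := by norm_num
          _ ≤ X ^ 3 := Nat.pow_le_pow_left hX8 3
      exact Nat.mul_le_mul_right _ h3
    exact h1.trans hG
  have hG3 : 3 * X ≤ G := by
    have h1 : 3 * X ≤ 4 * X ^ 2 := by nlinarith
    exact h1.trans hG4
  set L : ℝ := Real.log X with hLdef
  have hL2 : 2 ≤ L := by
    have h1 : Real.log 8 ≤ L := Real.log_le_log (by norm_num) (by exact_mod_cast hX8)
    have h2 : Real.log 8 = 3 * Real.log 2 := by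
      rw [show (8 : ℝ) = 2 ^ 3 by norm_num, Real.log_pow]
      norm_num
    have h3 := Real.log_two_gt_d9
    linarith
  have hL1 : 1 ≤ L := by linarith
  have hL0 : 0 < L := by linarith
  have hE1 : 1 ≤ (E.card : ℝ) := by
    refine le_trans ?_ hcard
    exact Real.one_le_rpow hX1r (by linarith)
  have hE0 : (0 : ℝ) < E.card := by linarith
  have hτX : 2 ≤ (X : ℝ) ^ τ := by
    have := hX7 X (by omega)
    simpa using this
  -- the pieces
  obtain ⟨I, γ, α, M, K, a, c, hI, hk1, hk2, hu'⟩ := str_ok C th e τ X u hu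
  obtain ⟨I', γ', α', M', K', a', c', hI', hk1', hk2', hv'⟩ := str_ok C th e τ X v hv
  have hVv : VBH G X CVa (tr G X v) := hV1 X (by omega) G hG3 v
    (str_tau C th e τ X hX8 v hv)
  have hVb : ∀ (M K : ℕ) (a c : ℕ → ℝ), Ok2 (L ^ C) th e τ X M K a c →
      VBH G X CVb (tr G X (ty2 K a c)) := by
    intro M K a c h
    refine hV2 X (by omega) G hG3 _ (fun n _ => ?_)
    have h1 := ty2_tau (L ^ C) th e τ X M K a c h n
    rwa [← pow_mul, mul_comm C 2] at h1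
  set Y : ℝ := (X : ℝ) ^ (1 - η / 10) * E.card with hY
  have hY0 : 0 ≤ Y := by positivity
  have hYa : (X : ℝ) ^ (1 - η / 4) * E.card ≤ Y := by
    refine mul_le_mul_of_nonneg_right ?_ hE0.le
    exact Real.rpow_le_rpow_of_exponent_le hX1r (by linarith)
  set Q : ℝ := L ^ C with hQdef
  have hQ1 : 1 ≤ Q := one_le_pow₀ hL1
  have hQ0 : 0 ≤ Q := by linarith
  have hCV1 : 1 ≤ L ^ CVb := one_le_pow₀ hL1
  -- type I of u against v
  have hone : ∀ i, ‖Sp G X ω E ph (ty1 (γ i) (α i)) v‖ ≤ 2 * Q ^ 2 * Y := by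
    intro i
    refine (sp_one G X hX1 th e ω E ph v _ (hT1 X (by omega) G hG3 _ hVv ω hω E hE hcard ph hph hN)
      (γ i) (α i) Q (hk1 i)).trans ?_
    exact mul_le_mul_of_nonneg_left hYa (by positivity)
  -- block against type I
  have htwo : ∀ i k, ‖Sp G X ω E ph (ty2 (K i) (a i) (c i)) (ty1 (γ' k) (α' k))‖ ≤
      2 * Q ^ 2 * Y := by
    intro i k
    rw [sp_comm]
    refine (sp_one G X hX1 th e ω E ph _ _ (hT2 X (by omega) G hG3 _
      (hVb (M i) (K i) (a i) (c i) (hk2 i)) ω hω E hE hcard ph hph hN)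
      (γ' k) (α' k) Q (hk1' k)).trans ?_
    exact mul_le_mul_of_nonneg_left hYa (by positivity)
  -- the square root terms
  have hsE : Real.sqrt X * (L ^ CVb * Real.sqrt ((X : ℝ) * E.card)) ≤ L ^ CVb * Y := by
    have hsX : Real.sqrt X * Real.sqrt X = X := Real.mul_self_sqrt hX0.le
    have h1 : Real.sqrt ((X : ℝ) * E.card) = Real.sqrt X * Real.sqrt E.card :=
      Real.sqrt_mul hX0.le _
    have h2 : (X : ℝ) ^ ((th - e) / 2) ≤ Real.sqrt E.card := by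
      apply Real.le_sqrt_of_sq_le
      refine le_trans (le_of_eq ?_) hcard
      rw [← Real.rpow_natCast, ← Real.rpow_mul hX0.le]
      congr 1
      push_cast
      ring
    have h3 : Real.sqrt E.card * Real.sqrt E.card = E.card := Real.mul_self_sqrt hE0.le
    have h4 : (X : ℝ) = (X : ℝ) ^ (1 - (th - e) / 2) * (X : ℝ) ^ ((th - e) / 2) := by
      rw [← Real.rpow_add hX0]
      have : 1 - (th - e) / 2 + ((th - e) / 2) = 1 := by ring
      rw [this, Real.rpow_one]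
    have h5 : (X : ℝ) ^ (1 - (th - e) / 2) ≤ (X : ℝ) ^ (1 - η / 10) :=
      Real.rpow_le_rpow_of_exponent_le hX1r (by linarith)
    have h6 : Real.sqrt X * Real.sqrt ((X : ℝ) * E.card) ≤ Y := by
      calc Real.sqrt X * Real.sqrt ((X : ℝ) * E.card)
          = X * Real.sqrt E.card := by rw [h1, ← mul_assoc, hsX]
        _ = (X : ℝ) ^ (1 - (th - e) / 2) * ((X : ℝ) ^ ((th - e) / 2) * Real.sqrt E.card) := by
            rw [← mul_assoc, ← h4]
        _ ≤ (X : ℝ) ^ (1 - (th - e) / 2) * (Real.sqrt E.card * Real.sqrt E.card) :=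
            mul_le_mul_of_nonneg_left (mul_le_mul_of_nonneg_right h2 (Real.sqrt_nonneg _))
              (Real.rpow_nonneg hX0.le _)
        _ = (X : ℝ) ^ (1 - (th - e) / 2) * E.card := by rw [h3]
        _ ≤ _ := mul_le_mul_of_nonneg_right h5 hE0.le
    calc Real.sqrt X * (L ^ CVb * Real.sqrt ((X : ℝ) * E.card))
        = L ^ CVb * (Real.sqrt X * Real.sqrt ((X : ℝ) * E.card)) := by ring
      _ ≤ _ := mul_le_mul_of_nonneg_left h6 (by positivity)
  -- block against block, the second one smaller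
  have hbb : ∀ (M K : ℕ) (a c : ℕ → ℝ) (M' K' : ℕ) (a' c' : ℕ → ℝ),
      Ok2 Q th e τ X M K a c → Ok2 Q th e τ X M' K' a' c' → M' ≤ M →
      ‖Sp G X ω E ph (ty2 K a c) (ty2 K' a' c')‖ ≤ 8 * L ^ (2 * C + CVb + 1) * Y := by
    intro M K a c M' K' a' c' h h' hMM
    have hM1 : 1 ≤ M := by
      have h1 := h.2.1.1
      have h2 : (1 : ℝ) ≤ M := by linarith
      exact_mod_cast h2
    have hB := hT3 X (by omega) G hG4 M M' K' a' c' h' hMM h.2.1.2.1 ω hω E hE hcard ph hph hN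
    have hVB := hVb M' K' a' c' h'
    have hB4 : ∀ n, ‖FF G (xx G (tr G X (ty2 K' a' c')) ω E ph) n‖ ≤
        L ^ CVb * Real.sqrt ((X : ℝ) * E.card) := fun n =>
      (ff_sup G _ n).trans (norms_h X G CVb (by omega) hG3 _ ω hVB hω E hE ph hph).1
    refine (sp_two G X (by omega) th e τ hA ω E ph _ _ _ M K hM1 hB hB4 a c Q h).trans ?_
    have h1 : (X : ℝ) ^ (1 - η / 10) * (E.card : ℝ) +
        Real.sqrt X * (L ^ CVb * Real.sqrt ((X : ℝ) * E.card)) ≤ 2 * (L ^ CVb * Y) := by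
      have h2 : Y ≤ L ^ CVb * Y := le_mul_of_one_le_left hY0 hCV1
      linarith
    have h3 : 2 * L + 2 ≤ 4 * L := by linarith
    calc Q ^ 2 * (2 * L + 2) * ((X : ℝ) ^ (1 - η / 10) * (E.card : ℝ) +
          Real.sqrt X * (L ^ CVb * Real.sqrt ((X : ℝ) * E.card)))
        ≤ Q ^ 2 * (4 * L) * (2 * (L ^ CVb * Y)) :=
          mul_le_mul (mul_le_mul_of_nonneg_left h3 (by positivity)) h1 (by positivity)
            (by positivity)
      _ = 8 * L ^ (2 * C + CVb + 1) * Y := by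
          rw [hQdef, pow_add, pow_add, pow_mul, pow_one]
          ring
  have hbb' : ∀ i k, ‖Sp G X ω E ph (ty2 (K i) (a i) (c i)) (ty2 (K' k) (a' k) (c' k))‖ ≤
      8 * L ^ (2 * C + CVb + 1) * Y := by
    intro i k
    rcases le_total (M' k) (M i) with h | h
    · exact hbb _ _ _ _ _ _ _ _ (hk2 i) (hk2' k) h
    · rw [sp_comm]
      exact hbb _ _ _ _ _ _ _ _ (hk2' k) (hk2 i) h
  -- sum up
  have hsum : ‖Sp G X ω E ph u v‖ ≤ I * (2 * Q ^ 2 * Y) +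
      I * (I' * (2 * Q ^ 2 * Y) + I' * (8 * L ^ (2 * C + CVb + 1) * Y)) := by
    rw [sp_split G X ω E ph u v I (fun i => ty1 (γ i) (α i)) (fun i => ty2 (K i) (a i) (c i)) hu']
    refine (norm_add_le _ _).trans (add_le_add ?_ ?_)
    · refine (norm_sum_le _ _).trans ((Finset.sum_le_sum fun i _ => hone i).trans (le_of_eq ?_))
      rw [Finset.sum_const, Finset.card_range, nsmul_eq_mul]
    · refine (norm_sum_le _ _).trans ?_
      have h1 : ∀ i ∈ range I, ‖Sp G X ω E ph (ty2 (K i) (a i) (c i)) v‖ ≤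
          I' * (2 * Q ^ 2 * Y) + I' * (8 * L ^ (2 * C + CVb + 1) * Y) := by
        intro i _
        rw [sp_comm, sp_split G X ω E ph v _ I' (fun k => ty1 (γ' k) (α' k))
          (fun k => ty2 (K' k) (a' k) (c' k)) hv']
        refine (norm_add_le _ _).trans (add_le_add ?_ ?_)
        · have h2 : ∀ k ∈ range I', ‖Sp G X ω E ph (ty1 (γ' k) (α' k))
              (ty2 (K i) (a i) (c i))‖ ≤ 2 * Q ^ 2 * Y := by
            intro k _
            rw [sp_comm]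
            exact htwo i k
          refine (norm_sum_le _ _).trans ((Finset.sum_le_sum h2).trans (le_of_eq ?_))
          rw [Finset.sum_const, Finset.card_range, nsmul_eq_mul]
        · have h2 : ∀ k ∈ range I', ‖Sp G X ω E ph (ty2 (K' k) (a' k) (c' k))
              (ty2 (K i) (a i) (c i))‖ ≤ 8 * L ^ (2 * C + CVb + 1) * Y := by
            intro k _
            rw [sp_comm]
            exact hbb' i k
          refine (norm_sum_le _ _).trans ((Finset.sum_le_sum h2).trans (le_of_eq ?_))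
          rw [Finset.sum_const, Finset.card_range, nsmul_eq_mul]
      refine (Finset.sum_le_sum h1).trans (le_of_eq ?_)
      rw [Finset.sum_const, Finset.card_range, nsmul_eq_mul]
  have hfin : ‖Sp G X ω E ph u v‖ ≤ 12 * L ^ (4 * C + CVb + 1) * Y := by
    refine hsum.trans ?_
    have hI0 : (0 : ℝ) ≤ I := Nat.cast_nonneg _
    have hI0' : (0 : ℝ) ≤ I' := Nat.cast_nonneg _
    have hII : (I : ℝ) * I' ≤ Q * Q := mul_le_mul hI hI' hI0' hQ0
    have hI2 : (I : ℝ) ≤ Q * Q := hI.trans (by nlinarith)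
    have e1 : (2 : ℝ) * Q ^ 2 * Y ≤ 2 * L ^ (2 * C + CVb + 1) * Y := by
      have h1 : Q ^ 2 ≤ L ^ (2 * C + CVb + 1) := by
        rw [hQdef, ← pow_mul, mul_comm C 2]
        exact pow_le_pow_right₀ hL1 (by omega)
      nlinarith
    set P : ℝ := L ^ (2 * C + CVb + 1) * Y with hP
    have hP0 : 0 ≤ P := by positivity
    have e1' : (2 : ℝ) * Q ^ 2 * Y ≤ 2 * P := by
      have h5 : 2 * P = 2 * L ^ (2 * C + CVb + 1) * Y := by rw [hP]; ring
      rw [h5]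
      exact e1
    have e2 : 8 * L ^ (2 * C + CVb + 1) * Y = 8 * P := by rw [hP]; ring
    rw [e2]
    calc (I : ℝ) * (2 * Q ^ 2 * Y) + I * (I' * (2 * Q ^ 2 * Y) + I' * (8 * P))
        ≤ (I : ℝ) * (2 * P) + I * (I' * (2 * P) + I' * (8 * P)) := by gcongr
      _ = I * (2 * P) + (I * I') * (10 * P) := by ring
      _ ≤ (Q * Q) * (2 * P) + (Q * Q) * (10 * P) := by gcongr
      _ = 12 * L ^ (4 * C + CVb + 1) * Y := by
          have h4 : 4 * C + CVb + 1 = C + C + (2 * C + CVb + 1) := by ring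
          rw [hP, hQdef, h4, pow_add L (C + C), pow_add L C C]
          ring
  have hq := hX6 X (by omega)
  have hgoal : ‖Sp G X ω E ph u v‖ ≤ (X : ℝ) ^ (1 - η / 100) * E.card := by
    refine hfin.trans ?_
    have h1 : (X : ℝ) ^ (η / 20) * (X : ℝ) ^ (1 - η / 10) ≤ (X : ℝ) ^ (1 - η / 100) := by
      rw [← Real.rpow_add hX0]
      exact Real.rpow_le_rpow_of_exponent_le hX1r (by linarith)
    calc 12 * L ^ (4 * C + CVb + 1) * Y ≤ (X : ℝ) ^ (η / 20) * Y :=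
          mul_le_mul_of_nonneg_right hq hY0
      _ = ((X : ℝ) ^ (η / 20) * (X : ℝ) ^ (1 - η / 10)) * E.card := by rw [hY]; ring
      _ ≤ _ := mul_le_mul_of_nonneg_right h1 hE0.le
  exact hgoal

end Pool.MP_dd84fd_nt.JX
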