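import Pool.Agent.Lib.MP_dd84fd_nt.JX.SRes
import Pool.Agent.Lib.MP_dd84fd_nt.JX.KFej
import Pool.Agent.Lib.MP_dd84fd_nt.GX.TIIexp

/-!
# JX-STII (0.9 h): the type II bound

`F = FF G (xx G V ω E ph)`, `V = tr G X (ty2 K' a c)`, `W_j = ‖ω_j V_j‖²`, `nmw = nm2 G (ω V) ≤ nm2 G V ≤ X L^CV` (`vbh_tau`, `ty2_tau`). `GX.typeII_exp` and `ker_j` (`5X < 4X² ≤ G`; `N ≥ N' ≥ X^τ/2`, so `N ≥ 2` for large `X`, `2M ≤ X`):
`‖.‖² ≤ M 5 (log_2 (2M) + 1) (N² #E nmw + 2 Σ_{r < 2M} ν(r) (1/G) Σ_j W_j mn N (r al_j))`. With `κ = N X^(-η/2)`: `mn N t ≤ N` if `nrm t ≤ 1/κ` and `≤ 1/(2 nrm t) ≤ κ/2` otherwise. So the last sum is `≤ N I + (κ/2) T #E² nmw`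
(`nu_sum`, `T = Cd X^(η/100)`), `I` = the left side of `res_j` with `K = 2M` (`Ico 1 (2M) ⊆ Icc 1 (2M)`). `M N ≤ X`, `N ≤ yB = X^(th-3e)`, `#E ≥ X^(th-e)`:
`M N² #E nmw ≤ X X^(th-3e) #E X L^CV ≤ X^(2-2e) L^CV #E²`; `M N I ≤ X^(2-η/4) #E²`; `M κ T #E² nmw ≤ X^(2-η/2+η/100) L^CV Cd #E²`. Total `≤ X^(2-η/5) #E²` hence the root `≤ X^(1-η/10) #E`.
-/

set_option autoImplicit false

namespace Pool.MP_dd84fd_nt.JX

open Finset Pool.MP_67663b_nt.Odd Pool.MP_dd84fd_nt.En Pool.MP_dd84fd_nt.E2 Pool.MP_dd84fd_nt.LS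
open Pool.MP_dd84fd_nt.L2G (nrm)
open Pool.MP_dd84fd_nt.GX Pool.MP_dd84fd_nt.HX
open Pool.MP_dd84fd_nt.IX (dl yB wSI SSI y3_dl y2_dl)

private theorem mn_split (N : ℕ) (κ t : ℝ) (hN : 0 < (N : ℝ)) (hκ : 0 < κ) (hκN : κ ≤ N) :
    L2G.mn N t ≤ N * (if nrm t ≤ 1 / κ then 1 else 0) + κ / 2 := by
  unfold L2G.mn
  by_cases h : nrm t ≤ 1 / κ
  · rw [if_pos h, mul_one]
    split_ifs with h1
    · linarith
    · have h2 : 1 < 2 * nrm t * N := not_le.1 h1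
      have h3 : 0 < 2 * nrm t := by
        by_contra h4
        have h5 : 2 * nrm t * N ≤ 0 := mul_nonpos_of_nonpos_of_nonneg (not_lt.1 h4) hN.le
        linarith
      have h6 : 1 / (2 * nrm t) ≤ N := by
        rw [div_le_iff₀ h3]
        linarith
      linarith
  · rw [if_neg h, mul_zero, zero_add]
    have h1 : 1 / κ < nrm t := not_le.1 h
    have h0 : 0 < 1 / κ := by positivity
    have h3 : 0 < 2 * nrm t := by linarith
    have h4 : ¬ (2 * nrm t * N ≤ 1) := by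
      rw [not_le]
      have h5 : 1 < nrm t * κ := by
        rwa [div_lt_iff₀ hκ] at h1
      have h6 : nrm t * κ ≤ nrm t * N := mul_le_mul_of_nonneg_left hκN (by linarith)
      nlinarith
    rw [if_neg h4, div_le_iff₀ h3]
    have h5 : 1 < nrm t * κ := by
      rwa [div_lt_iff₀ hκ] at h1
    linarith

open Classical in
private theorem sum_split (G : ℕ) [NeZero G] (W : ZMod G → ℝ) (hW : ∀ j, 0 ≤ W j) (E : Finset ℕ)
    (N M : ℕ) (κ : ℝ) (hN : 0 < (N : ℝ)) (hκ : 0 < κ) (hκN : κ ≤ N) :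
    ∑ r ∈ Ico 1 (2 * M), (nuJ E N r : ℝ) *
        ((1 / (G : ℝ)) * ∑ j : ZMod G, W j * L2G.mn N ((r : ℝ) * al G j)) ≤
      N * ((1 / (G : ℝ)) * ∑ j : ZMod G, W j * nuS E N (2 * M) κ (al G j)) +
        κ / 2 * (∑ r ∈ Icc 1 (2 * M), (nuJ E N r : ℝ)) * ((1 / (G : ℝ)) * ∑ j : ZMod G, W j) := by
  have hsub : Ico 1 (2 * M) ⊆ Icc 1 (2 * M) := Finset.Ico_subset_Icc_self
  have hG0 : (0 : ℝ) ≤ 1 / (G : ℝ) := by positivity
  have h1 : ∑ r ∈ Ico 1 (2 * M), (nuJ E N r : ℝ) *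
      ((1 / (G : ℝ)) * ∑ j : ZMod G, W j * L2G.mn N ((r : ℝ) * al G j)) ≤
      ∑ r ∈ Icc 1 (2 * M), (nuJ E N r : ℝ) * ((1 / (G : ℝ)) * ∑ j : ZMod G,
        W j * (N * (if nrm ((r : ℝ) * al G j) ≤ 1 / κ then 1 else 0) + κ / 2)) := by
    have h0 : ∀ r ∈ Ico 1 (2 * M), (nuJ E N r : ℝ) *
        ((1 / (G : ℝ)) * ∑ j : ZMod G, W j * L2G.mn N ((r : ℝ) * al G j)) ≤
        (nuJ E N r : ℝ) * ((1 / (G : ℝ)) * ∑ j : ZMod G,
        W j * (N * (if nrm ((r : ℝ) * al G j) ≤ 1 / κ then 1 else 0) + κ / 2)) := by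
      intro r _
      refine mul_le_mul_of_nonneg_left (mul_le_mul_of_nonneg_left ?_ hG0) (Nat.cast_nonneg _)
      exact Finset.sum_le_sum fun j _ => mul_le_mul_of_nonneg_left
        (mn_split N κ ((r : ℝ) * al G j) hN hκ hκN) (hW j)
    refine (Finset.sum_le_sum h0).trans ?_
    refine Finset.sum_le_sum_of_subset_of_nonneg hsub fun r _ _ => ?_
    refine mul_nonneg (Nat.cast_nonneg _) (mul_nonneg hG0 (Finset.sum_nonneg fun j _ => ?_))
    refine mul_nonneg (hW j) (add_nonneg (mul_nonneg hN.le ?_) (by positivity))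
    split_ifs <;> norm_num
  refine h1.trans (le_of_eq ?_)
  have h2 : ∀ j : ZMod G, nuS E N (2 * M) κ (al G j) = ∑ r ∈ Icc 1 (2 * M),
      (nuJ E N r : ℝ) * (if nrm ((r : ℝ) * al G j) ≤ 1 / κ then 1 else 0) := by
    intro j
    unfold nuS
    rw [Finset.sum_filter]
    refine Finset.sum_congr rfl fun r _ => ?_
    split_ifs <;> simp
  simp only [h2]
  have h3 : ∀ r : ℕ, (nuJ E N r : ℝ) * ((1 / (G : ℝ)) * ∑ j : ZMod G,
        W j * (N * (if nrm ((r : ℝ) * al G j) ≤ 1 / κ then 1 else 0) + κ / 2)) =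
      N * ((1 / (G : ℝ)) * ∑ j : ZMod G, W j * ((nuJ E N r : ℝ) *
        (if nrm ((r : ℝ) * al G j) ≤ 1 / κ then 1 else 0))) +
        κ / 2 * (nuJ E N r : ℝ) * ((1 / (G : ℝ)) * ∑ j : ZMod G, W j) := by
    intro r
    have h4 : ∑ j : ZMod G, W j * (N * (if nrm ((r : ℝ) * al G j) ≤ 1 / κ then (1 : ℝ) else 0) +
        κ / 2) = N * ∑ j : ZMod G, W j * (if nrm ((r : ℝ) * al G j) ≤ 1 / κ then (1 : ℝ) else 0) +
        κ / 2 * ∑ j : ZMod G, W j := by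
      rw [Finset.mul_sum, Finset.mul_sum, ← Finset.sum_add_distrib]
      exact Finset.sum_congr rfl fun j _ => by ring
    have h5 : ∑ j : ZMod G, W j * ((nuJ E N r : ℝ) *
        (if nrm ((r : ℝ) * al G j) ≤ 1 / κ then (1 : ℝ) else 0)) = (nuJ E N r : ℝ) *
        ∑ j : ZMod G, W j * (if nrm ((r : ℝ) * al G j) ≤ 1 / κ then (1 : ℝ) else 0) := by
      rw [Finset.mul_sum]
      exact Finset.sum_congr rfl fun j _ => by ring
    rw [h4, h5]
    ring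
  rw [Finset.sum_congr rfl fun r _ => h3 r, Finset.sum_add_distrib, ← Finset.mul_sum,
    ← Finset.mul_sum, ← Finset.sum_mul, ← Finset.mul_sum]
  congr 3
  rw [Finset.sum_comm]
  exact Finset.sum_congr rfl fun j _ => by rw [Finset.mul_sum]

theorem tii_j (C : ℕ) (th e τ η : ℝ) (hA : Adm th e τ) (hη : 0 < η) (hη' : η ≤ e) :
    ∃ X0 : ℕ, ∀ X : ℕ, X0 ≤ X → ∀ (G : ℕ) [NeZero G], 4 * X ^ 2 ≤ G →
    ∀ (N N' K' : ℕ) (a c : ℕ → ℝ), Ok2 ((Real.log X) ^ C) th e τ X N' K' a c → N' ≤ N →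
    (N : ℝ) ≤ yB th e X → ∀ ω : ZMod G → ℂ, (∀ j, ‖ω j‖ ≤ 1) →
    ∀ E : Finset ℕ, E ⊆ Icc 1 X → (X : ℝ) ^ (th - e) ≤ E.card → ∀ ph : ℕ → ℂ,
    (∀ n, ‖ph n‖ ≤ 1) → NoAPH G (dl th e) X ω E ((X : ℝ) ^ (-η)) →
    TIJ2 X N (FF G (xx G (tr G X (ty2 K' a c)) ω E ph)) ((X : ℝ) ^ (1 - η / 10) * E.card) := by
  obtain ⟨CV, X1, hvbh⟩ := vbh_tau (2 * C)
  obtain ⟨X2, hres⟩ := res_j C th e τ η hA hη hη'
  obtain ⟨Cd, hCd1, hCd⟩ := div_pow (η / 100) (by positivity)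
  obtain ⟨X3, hlog⟩ := E2.MP_log_pow (15 * (3 + Cd)) (CV + 1) (ε := η / 20) (by positivity)
  obtain ⟨ht1, ht2, he0, hτ1, hτ2⟩ := id hA
  have hτ0 : 0 < τ := by linarith
  obtain ⟨X4, hX4⟩ := E2.MP_log_pow 4 0 (ε := τ) hτ0
  refine ⟨max (max X1 X2) (max X3 (max X4 8)), ?_⟩
  intro X hX G _ hG N N' K' a c hok hNN hNy ω hω E hE hEc ph hph hNo M t u v ht hu hv hM hMN
  have hXX1 : X1 ≤ X := by omega
  have hXX2 : X2 ≤ X := by omega
  have hXX3 : X3 ≤ X := by omega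
  have hXX4 : X4 ≤ X := by omega
  have hX8 : 8 ≤ X := by omega
  have hXr : (8 : ℝ) ≤ X := by exact_mod_cast hX8
  have hX0 : (0 : ℝ) < X := by linarith
  have hX1' : (1 : ℝ) ≤ X := by linarith
  set L : ℝ := Real.log X with hL
  have hL1 : 1 ≤ L := by
    rw [hL, Real.le_log_iff_exp_le hX0]
    have := Real.exp_one_lt_d9
    linarith
  have hL0 : 0 < L := by linarith
  -- `G`
  have hG3 : 3 * X ≤ G := by nlinarith
  have hG5 : 5 * X < G := by nlinarith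
  have hG0 : (0 : ℝ) ≤ 1 / (G : ℝ) := by positivity
  -- `N ≥ 2`
  have hN'2 : (X : ℝ) ^ τ / 2 ≤ N' := hok.2.1.1
  have hN2r : (2 : ℝ) ≤ N := by
    have h1 := hX4 X hXX4
    rw [pow_zero, mul_one] at h1
    have h2 : (N' : ℝ) ≤ N := by exact_mod_cast hNN
    linarith
  have hN2 : 2 ≤ N := by exact_mod_cast hN2r
  have hN0 : (0 : ℝ) < N := by linarith
  have h2M : 2 * M ≤ X := by
    calc 2 * M = M * 2 := by ring
      _ ≤ M * N := Nat.mul_le_mul_left M hN2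
      _ ≤ X := hMN
  have hM0 : (0 : ℝ) < M := by exact_mod_cast hM
  have hMNr : (M : ℝ) * N ≤ X := by exact_mod_cast hMN
  -- `V`
  set V := tr G X (ty2 K' a c) with hV
  have hVB : VBH G X CV V := hvbh X hXX1 G hG3 _ fun n _ => by
    have h1 := ty2_tau (L ^ C) th e τ X N' K' a c hok n
    rw [← pow_mul, mul_comm C 2] at h1
    exact h1
  set nmw := nm2 G (fun j => ω j * V j) with hnmw
  have hnmw0 : 0 ≤ nmw := mul_nonneg hG0 (Finset.sum_nonneg fun j _ => by positivity)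
  have hnmwle : nmw ≤ X * L ^ CV := by
    refine le_trans ?_ hVB.1
    rw [hnmw]
    unfold nm2
    refine mul_le_mul_of_nonneg_left (Finset.sum_le_sum fun j _ => ?_) hG0
    rw [norm_mul]
    refine pow_le_pow_left₀ (by positivity) ?_ 2
    exact mul_le_of_le_one_left (norm_nonneg _) (hω j)
  -- `κ`, `T`
  set κ : ℝ := (N : ℝ) * (X : ℝ) ^ (-(η / 2)) with hκ
  have hκ0 : 0 < κ := mul_pos hN0 (Real.rpow_pos_of_pos hX0 _)
  have hκN : κ ≤ N := by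
    rw [hκ]
    refine mul_le_of_le_one_right hN0.le ?_
    exact Real.rpow_le_one_of_one_le_of_nonpos hX1' (by linarith)
  set T : ℝ := Cd * (X : ℝ) ^ (η / 100) with hT
  have hCd0 : 0 < Cd := by linarith
  have hT0 : 0 ≤ T := by positivity
  have hTd : ∀ m : ℕ, 1 ≤ m → m ≤ X → (m.divisors.card : ℝ) ≤ T := by
    intro m hm hmX
    refine (hCd m hm).trans ?_
    refine mul_le_mul_of_nonneg_left ?_ hCd0.le
    exact Real.rpow_le_rpow (Nat.cast_nonneg _) (by exact_mod_cast hmX) (by positivity)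
  have hE0 : (0 : ℝ) ≤ E.card := Nat.cast_nonneg _
  -- the kernel
  have hexp := typeII_exp G (xx G V ω E ph) M N t u v hu hv
  have hker := ker_j X G M N hM (by omega) hMN hG5 ω V hω E hE ph hph
  have hI := hres X hXX2 G hG N N' K' (2 * M) a c hok hNN hNy h2M ω hω E hE hEc hNo
  have hsp := sum_split G (fun j => ‖ω j * V j‖ ^ 2) (fun j => by positivity) E N M κ hN0 hκ0 hκN
  have hnu := nu_sum X E hE N (2 * M) T hT0 hTd
  set I : ℝ := (1 / (G : ℝ)) * ∑ j : ZMod G, ‖ω j * V j‖ ^ 2 * nuS E N (2 * M) κ (al G j)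
    with hIdef
  have hI' : I ≤ (X : ℝ) ^ (1 - η / 4) * (E.card : ℝ) ^ 2 := hI
  have hS : ∑ r ∈ Ico 1 (2 * M), (nuJ E N r : ℝ) *
      ((1 / (G : ℝ)) * ∑ j : ZMod G, ‖ω j * V j‖ ^ 2 * L2G.mn N ((r : ℝ) * al G j)) ≤
      N * I + κ / 2 * (T * (E.card : ℝ) ^ 2) * nmw := by
    refine hsp.trans (add_le_add le_rfl ?_)
    refine mul_le_mul_of_nonneg_right (mul_le_mul_of_nonneg_left hnu (by positivity)) hnmw0
  -- the logarithm
  have hlog2 : (Nat.log 2 (2 * M) : ℝ) + 1 ≤ 3 * L := by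
    have h0 : Nat.log 2 (2 * M) ≤ Nat.log 2 X := Nat.log_mono_right h2M
    have h0' : (Nat.log 2 (2 * M) : ℝ) ≤ (Nat.log 2 X : ℝ) := by exact_mod_cast h0
    have h1 : (2 : ℝ) ^ Nat.log 2 X ≤ X := by
      have : 2 ^ Nat.log 2 X ≤ X := Nat.pow_log_le_self 2 (by omega)
      exact_mod_cast this
    have h2 : (Nat.log 2 X : ℝ) * Real.log 2 ≤ L := by
      have := Real.log_le_log (by positivity) h1
      rw [Real.log_pow] at this
      exact this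
    have h3 : (1 / 2 : ℝ) ≤ Real.log 2 := by
      have := Real.log_two_gt_d9
      linarith
    have h4 : (0 : ℝ) ≤ (Nat.log 2 X : ℝ) := Nat.cast_nonneg _
    nlinarith
  -- the three terms
  set Z : ℝ := (X : ℝ) ^ (2 - η / 4) * (E.card : ℝ) ^ 2 with hZ
  have hZ0 : 0 ≤ Z := by rw [hZ]; positivity
  have hLC : 1 ≤ L ^ CV := one_le_pow₀ hL1
  have hT1 : (M : ℝ) * ((N : ℝ) ^ 2 * E.card * nmw) ≤ L ^ CV * Z := by
    calc (M : ℝ) * ((N : ℝ) ^ 2 * E.card * nmw) = (M * N) * N * E.card * nmw := by ring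
      _ ≤ X * (X : ℝ) ^ (th - 3 * e) * E.card * (X * L ^ CV) := by
          refine mul_le_mul (mul_le_mul_of_nonneg_right (mul_le_mul hMNr hNy hN0.le hX0.le) hE0)
            hnmwle hnmw0 (by positivity)
      _ = L ^ CV * ((X : ℝ) ^ (2 : ℝ) * (X : ℝ) ^ (th - 3 * e) * E.card) := by
          rw [Real.rpow_two]; ring
      _ = L ^ CV * ((X : ℝ) ^ (2 - 2 * e) * (X : ℝ) ^ (th - e) * E.card) := by
          rw [← Real.rpow_add hX0, ← Real.rpow_add hX0]; congr 3; ring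
      _ ≤ L ^ CV * ((X : ℝ) ^ (2 - η / 4) * E.card * E.card) := by
          refine mul_le_mul_of_nonneg_left (mul_le_mul_of_nonneg_right (mul_le_mul
            (Real.rpow_le_rpow_of_exponent_le hX1' (by linarith)) hEc (by positivity)
            (by positivity)) hE0) (by positivity)
      _ = L ^ CV * Z := by rw [hZ]; ring
  have hT2 : (M : ℝ) * (N * I) ≤ Z := by
    have hI0 : 0 ≤ (X : ℝ) ^ (1 - η / 4) * (E.card : ℝ) ^ 2 := by positivity
    calc (M : ℝ) * (N * I) = (M * N) * I := by ring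
      _ ≤ (M * N) * ((X : ℝ) ^ (1 - η / 4) * (E.card : ℝ) ^ 2) :=
          mul_le_mul_of_nonneg_left hI' (by positivity)
      _ ≤ X * ((X : ℝ) ^ (1 - η / 4) * (E.card : ℝ) ^ 2) := mul_le_mul_of_nonneg_right hMNr hI0
      _ = (X : ℝ) ^ (1 : ℝ) * (X : ℝ) ^ (1 - η / 4) * (E.card : ℝ) ^ 2 := by
          rw [Real.rpow_one]; ring
      _ = Z := by rw [hZ, ← Real.rpow_add hX0]; congr 2; ring
  have hT3 : (M : ℝ) * (κ * (T * (E.card : ℝ) ^ 2) * nmw) ≤ Cd * (L ^ CV * Z) := by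
    calc (M : ℝ) * (κ * (T * (E.card : ℝ) ^ 2) * nmw)
        = (M * N) * ((X : ℝ) ^ (-(η / 2)) * (T * (E.card : ℝ) ^ 2)) * nmw := by
          rw [hκ]; ring
      _ ≤ X * ((X : ℝ) ^ (-(η / 2)) * (T * (E.card : ℝ) ^ 2)) * (X * L ^ CV) := by
          refine mul_le_mul (mul_le_mul_of_nonneg_right hMNr (by positivity)) hnmwle hnmw0
            (by positivity)
      _ = Cd * (L ^ CV * (((X : ℝ) ^ (2 : ℝ) * (X : ℝ) ^ (-(η / 2)) * (X : ℝ) ^ (η / 100)) *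
          (E.card : ℝ) ^ 2)) := by
          rw [hT, Real.rpow_two]; ring
      _ ≤ Cd * (L ^ CV * ((X : ℝ) ^ (2 - η / 4) * (E.card : ℝ) ^ 2)) := by
          rw [← Real.rpow_add hX0, ← Real.rpow_add hX0]
          refine mul_le_mul_of_nonneg_left (mul_le_mul_of_nonneg_left
            (mul_le_mul_of_nonneg_right (Real.rpow_le_rpow_of_exponent_le hX1' (by linarith))
              (by positivity)) (by positivity)) hCd0.le
      _ = Cd * (L ^ CV * Z) := by rw [hZ]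
  have hfin : ‖∑ l ∈ Ioc M (2 * M), ∑ s ∈ (Ioc N (2 * N)).filter (fun s => l * s ≤ t),
      u l * v s * FF G (xx G V ω E ph) (l * s)‖ ^ 2 ≤ ((X : ℝ) ^ (1 - η / 10) * E.card) ^ 2 := by
    have hS0 : 0 ≤ (N : ℝ) ^ 2 * E.card * nmw + 2 * (N * I + κ / 2 * (T * (E.card : ℝ) ^ 2) * nmw) := by
      have hI0 : 0 ≤ I := by
        refine mul_nonneg hG0 (Finset.sum_nonneg fun j _ => mul_nonneg (by positivity) ?_)
        unfold nuS
        exact Finset.sum_nonneg fun r _ => Nat.cast_nonneg _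
      positivity
    calc ‖∑ l ∈ Ioc M (2 * M), ∑ s ∈ (Ioc N (2 * N)).filter (fun s => l * s ≤ t),
          u l * v s * FF G (xx G V ω E ph) (l * s)‖ ^ 2
        ≤ M * (5 * ((Nat.log 2 (2 * M) : ℝ) + 1) * ((N : ℝ) ^ 2 * E.card * nmw +
          2 * (N * I + κ / 2 * (T * (E.card : ℝ) ^ 2) * nmw))) := by
          refine hexp.trans (mul_le_mul_of_nonneg_left (hker.trans ?_) hM0.le)
          refine mul_le_mul_of_nonneg_left (add_le_add le_rfl
            (mul_le_mul_of_nonneg_left hS (by norm_num))) (by positivity)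
      _ ≤ M * (5 * (3 * L) * ((N : ℝ) ^ 2 * E.card * nmw +
          2 * (N * I + κ / 2 * (T * (E.card : ℝ) ^ 2) * nmw))) := by
          refine mul_le_mul_of_nonneg_left (mul_le_mul_of_nonneg_right
            (mul_le_mul_of_nonneg_left hlog2 (by norm_num)) hS0) hM0.le
      _ = 15 * L * ((M : ℝ) * ((N : ℝ) ^ 2 * E.card * nmw) + 2 * ((M : ℝ) * (N * I)) +
          (M : ℝ) * (κ * (T * (E.card : ℝ) ^ 2) * nmw)) := by ring
      _ ≤ 15 * L * (L ^ CV * Z + 2 * (L ^ CV * Z) + Cd * (L ^ CV * Z)) := by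
          have h1 : Z ≤ L ^ CV * Z := by
            calc Z = 1 * Z := (one_mul _).symm
              _ ≤ L ^ CV * Z := mul_le_mul_of_nonneg_right hLC hZ0
          refine mul_le_mul_of_nonneg_left ?_ (by positivity)
          linarith
      _ = 15 * (3 + Cd) * L ^ (CV + 1) * Z := by rw [pow_succ]; ring
      _ ≤ (X : ℝ) ^ (η / 20) * Z := mul_le_mul_of_nonneg_right (hlog X hXX3) hZ0
      _ = (X : ℝ) ^ (2 - η / 5) * (E.card : ℝ) ^ 2 := by
          rw [hZ, ← mul_assoc, ← Real.rpow_add hX0]; congr 2; ring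
      _ = ((X : ℝ) ^ (1 - η / 10) * E.card) ^ 2 := by
          rw [mul_pow, ← Real.rpow_natCast ((X : ℝ) ^ (1 - η / 10)) 2, ← Real.rpow_mul hX0.le]
          congr 2
          push_cast
          ring
  exact le_of_sq_le_sq hfin (by positivity)

end Pool.MP_dd84fd_nt.JX
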