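import Pool.Agent.Lib.MP_dd84fd_nt.GX.Ker
import Pool.Agent.Lib.MP_dd84fd_nt.GX.RelCnt

/-!
# JX-VlA: the linear congruences of the V-lemma
-/

set_option autoImplicit false

namespace Pool.MP_dd84fd_nt.JX

open Finset

/-- the number of solutions of `v z ≡ 0 mod n` is at most `gcd (v, n)` -/
theorem vl_ker (n v : ℕ) (hn : 0 < n) :
    ((range n).filter (fun z => n ∣ v * z)).card ≤ Nat.gcd v n := by
  have hg : 0 < Nat.gcd v n := Nat.gcd_pos_of_pos_right _ hn
  obtain ⟨v1, hv1⟩ := Nat.gcd_dvd_left v n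
  obtain ⟨n1, hn1⟩ := Nat.gcd_dvd_right v n
  set g := Nat.gcd v n with hgd
  have hcop : Nat.Coprime v1 n1 := by
    have h1 := Nat.coprime_div_gcd_div_gcd (m := v) (n := n) (by rw [← hgd]; exact hg)
    rw [← hgd] at h1
    have h2 : v / g = v1 := by
      conv_lhs => rw [hv1]
      exact Nat.mul_div_cancel_left _ hg
    have h3 : n / g = n1 := by
      conv_lhs => rw [hn1]
      exact Nat.mul_div_cancel_left _ hg
    rwa [h2, h3] at h1
  have hn1p : 0 < n1 := by
    rcases Nat.eq_zero_or_pos n1 with h | h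
    · rw [h, mul_zero] at hn1
      omega
    · exact h
  have hd : ∀ z ∈ (range n).filter (fun z => n ∣ v * z), n1 ∣ z := by
    intro z hz
    have h1 := (Finset.mem_filter.1 hz).2
    have h2 : g * n1 ∣ g * (v1 * z) := by
      rw [← mul_assoc, ← hv1, ← hn1]
      exact h1
    have h3 := Nat.dvd_of_mul_dvd_mul_left hg h2
    exact (Nat.Coprime.dvd_of_dvd_mul_left hcop.symm h3)
  have h1 : ((range n).filter (fun z => n ∣ v * z)).card ≤ (range g).card := by
    refine Finset.card_le_card_of_injOn (fun z => z / n1) ?_ ?_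
    · intro z hz
      have hz' : z ∈ (range n).filter (fun z => n ∣ v * z) := by exact_mod_cast hz
      have h2 := Finset.mem_range.1 (Finset.mem_filter.1 hz').1
      rw [Finset.mem_coe, Finset.mem_range]
      rw [Nat.div_lt_iff_lt_mul hn1p, ← hn1]
      exact h2
    · intro z hz z' hz' h
      simp only at h
      have hz1 : z ∈ (range n).filter (fun z => n ∣ v * z) := by exact_mod_cast hz
      have hz2 : z' ∈ (range n).filter (fun z => n ∣ v * z) := by exact_mod_cast hz'
      have h2 := Nat.div_mul_cancel (hd z hz1)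
      have h3 := Nat.div_mul_cancel (hd z' hz2)
      rw [← h2, ← h3, h]
  rwa [Finset.card_range] at h1

/-- the number of solutions `(m, c)` of two linear congruences mod `n > N`, `m ∈ (N, 2N]`, `c` in an
interval of `n + 1` integers depending on `m` -/
theorem vl_P (n N : ℕ) (hN : N < n) (b q b' q' s s' : ℤ) (hbq : Int.gcd b q = 1)
    (lo : ℕ → ℤ) (P : Finset (ℕ × ℤ))
    (hP : ∀ p ∈ P, p.1 ∈ Ioc N (2 * N) ∧ (n : ℤ) ∣ p.1 * b - q * p.2 - s ∧
      (n : ℤ) ∣ p.1 * b' - q' * p.2 - s' ∧ lo p.1 ≤ p.2 ∧ p.2 ≤ lo p.1 + n) :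
    P.card ≤ 2 * Nat.gcd (b * q' - b' * q).natAbs n := by
  have hn : 0 < n := by omega
  have hnz : (n : ℤ) ≠ 0 := by exact_mod_cast hn.ne'
  rcases P.eq_empty_or_nonempty with he | ⟨p0, hp0⟩
  · rw [he]
    simp
  have hbez : b * Int.gcdA b q + q * Int.gcdB b q = 1 := by
    have h := Int.gcd_eq_gcd_ab b q
    rw [hbq] at h
    simpa using h.symm
  set r := Int.gcdA b q with hr
  set t := Int.gcdB b q with ht
  obtain ⟨_, h01, h02, _, _⟩ := hP p0 hp0
  set v := b * q' - b' * q with hv
  let zz : ℕ × ℤ → ℤ := fun p => r * (p.2 - p0.2) + t * ((p.1 : ℤ) - p0.1)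
  have hD1 : ∀ p ∈ P, (n : ℤ) ∣ b * ((p.1 : ℤ) - p0.1) - q * (p.2 - p0.2) := by
    intro p hp
    obtain ⟨_, h1, h2, _, _⟩ := hP p hp
    have h3 := dvd_sub h1 h01
    have e : (p.1 : ℤ) * b - q * p.2 - s - ((p0.1 : ℤ) * b - q * p0.2 - s) =
      b * ((p.1 : ℤ) - p0.1) - q * (p.2 - p0.2) := by ring
    rwa [e] at h3
  have hD2 : ∀ p ∈ P, (n : ℤ) ∣ b' * ((p.1 : ℤ) - p0.1) - q' * (p.2 - p0.2) := by
    intro p hp
    obtain ⟨_, h1, h2, _, _⟩ := hP p hp
    have h3 := dvd_sub h2 h02
    have e : (p.1 : ℤ) * b' - q' * p.2 - s' - ((p0.1 : ℤ) * b' - q' * p0.2 - s') =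
      b' * ((p.1 : ℤ) - p0.1) - q' * (p.2 - p0.2) := by ring
    rwa [e] at h3
  have hx : ∀ p ∈ P, (n : ℤ) ∣ ((p.1 : ℤ) - p0.1) - q * zz p := by
    intro p hp
    have h1 := dvd_mul_of_dvd_right (hD1 p hp) r
    have e : r * (b * ((p.1 : ℤ) - p0.1) - q * (p.2 - p0.2)) =
        ((p.1 : ℤ) - p0.1) - q * zz p := by
      show _ = ((p.1 : ℤ) - p0.1) - q * (r * (p.2 - p0.2) + t * ((p.1 : ℤ) - p0.1))
      linear_combination ((p.1 : ℤ) - p0.1) * hbez
    rwa [e] at h1
  have hy : ∀ p ∈ P, (n : ℤ) ∣ (p.2 - p0.2) - b * zz p := by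
    intro p hp
    have h1 := dvd_mul_of_dvd_right (hD1 p hp) (-t)
    have e : -t * (b * ((p.1 : ℤ) - p0.1) - q * (p.2 - p0.2)) =
        (p.2 - p0.2) - b * zz p := by
      show _ = (p.2 - p0.2) - b * (r * (p.2 - p0.2) + t * ((p.1 : ℤ) - p0.1))
      linear_combination (p.2 - p0.2) * hbez
    rwa [e] at h1
  have hvz : ∀ p ∈ P, (n : ℤ) ∣ v * zz p := by
    intro p hp
    have e : v * zz p = -(q' * ((p.2 - p0.2) - b * zz p)) + b' * (((p.1 : ℤ) - p0.1) - q * zz p) -
        (b' * ((p.1 : ℤ) - p0.1) - q' * (p.2 - p0.2)) := by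
      rw [hv]
      ring
    rw [e]
    exact dvd_sub (dvd_add ((dvd_neg).2 (dvd_mul_of_dvd_right (hy p hp) _))
      (dvd_mul_of_dvd_right (hx p hp) _)) (hD2 p hp)
  let f : ℕ × ℤ → ℕ × ℕ := fun p => ((zz p % n).toNat, if p.2 = lo p.1 + n then 1 else 0)
  have hzt : ∀ p : ℕ × ℤ, (((zz p % n).toNat : ℕ) : ℤ) = zz p % n := fun p =>
    Int.toNat_of_nonneg (Int.emod_nonneg _ hnz)
  have hcard : P.card ≤ (((range n).filter (fun z => n ∣ v.natAbs * z)) ×ˢ range 2).card := by
    refine Finset.card_le_card_of_injOn f ?_ ?_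
    · intro p hp
      have hp' : p ∈ P := by exact_mod_cast hp
      rw [Finset.mem_coe, Finset.mem_product, Finset.mem_filter, Finset.mem_range,
        Finset.mem_range]
      refine ⟨⟨?_, ?_⟩, ?_⟩
      · have h1 := Int.emod_lt_of_pos (zz p) (show (0 : ℤ) < n by exact_mod_cast hn)
        show (zz p % n).toNat < n
        have h2 := hzt p
        omega
      · show n ∣ v.natAbs * (zz p % n).toNat
        have h1 : (n : ℤ) ∣ v * (zz p % n) := by
          have e : v * (zz p % n) = v * zz p - n * (v * (zz p / n)) := by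
            have := Int.emod_add_mul_ediv (zz p) n
            linear_combination v * this
          rw [e]
          exact dvd_sub (hvz p hp') (dvd_mul_right _ _)
        have h2 : ((n : ℤ)).natAbs ∣ (v * (zz p % n)).natAbs := Int.natAbs_dvd_natAbs.2 h1
        rw [Int.natAbs_mul, Int.natAbs_natCast] at h2
        have h3 : (zz p % n).natAbs = (zz p % n).toNat := by
          have := hzt p
          have h4 := Int.emod_nonneg (zz p) hnz
          omega
        rwa [h3] at h2
      · show (if p.2 = lo p.1 + n then 1 else 0) < 2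
        split_ifs <;> norm_num
    · intro p hp p' hp' h
      have hp1 : p ∈ P := by exact_mod_cast hp
      have hp2 : p' ∈ P := by exact_mod_cast hp'
      have hf1 : (zz p % n).toNat = (zz p' % n).toNat := congrArg Prod.fst h
      have hf2 : (if p.2 = lo p.1 + n then 1 else 0) = (if p'.2 = lo p'.1 + n then 1 else 0) :=
        congrArg Prod.snd h
      have hz : (n : ℤ) ∣ zz p - zz p' := by
        have h1 : zz p % n = zz p' % n := by rw [← hzt p, ← hzt p', hf1]
        exact Int.ModEq.dvd (Int.ModEq.symm h1)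
      have hm : (n : ℤ) ∣ (p.1 : ℤ) - p'.1 := by
        have h1 := dvd_add (dvd_sub (hx p hp1) (hx p' hp2)) (dvd_mul_of_dvd_right hz q)
        have e : ((p.1 : ℤ) - p0.1) - q * zz p - (((p'.1 : ℤ) - p0.1) - q * zz p') +
            q * (zz p - zz p') = (p.1 : ℤ) - p'.1 := by ring
        rwa [e] at h1
      have hc : (n : ℤ) ∣ p.2 - p'.2 := by
        have h1 := dvd_add (dvd_sub (hy p hp1) (hy p' hp2)) (dvd_mul_of_dvd_right hz b)
        have e : (p.2 - p0.2) - b * zz p - ((p'.2 - p0.2) - b * zz p') +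
            b * (zz p - zz p') = p.2 - p'.2 := by ring
        rwa [e] at h1
      obtain ⟨g1, _, _, g4, g5⟩ := hP p hp1
      obtain ⟨k1, _, _, k4, k5⟩ := hP p' hp2
      rw [Finset.mem_Ioc] at g1 k1
      have em : p.1 = p'.1 := by
        have h1 : |(p.1 : ℤ) - p'.1| < n := by
          rw [abs_lt]
          constructor <;> omega
        have h2 := Int.eq_zero_of_abs_lt_dvd hm h1
        omega
      have ec : p.2 = p'.2 := by
        rw [← em] at k4 k5 hf2
        by_cases hA : p.2 = lo p.1 + n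
        · rw [if_pos hA] at hf2
          by_cases hB : p'.2 = lo p.1 + n
          · rw [hA, hB]
          · rw [if_neg hB] at hf2
            omega
        · rw [if_neg hA] at hf2
          by_cases hB : p'.2 = lo p.1 + n
          · rw [if_pos hB] at hf2
            omega
          · have h1 : |p.2 - p'.2| < n := by
              rw [abs_lt]
              constructor <;> omega
            have h2 := Int.eq_zero_of_abs_lt_dvd hc h1
            omega
      exact Prod.ext em ec
  rw [Finset.card_product, Finset.card_range] at hcard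
  have := vl_ker n v.natAbs hn
  calc P.card ≤ _ := hcard
    _ ≤ Nat.gcd v.natAbs n * 2 := Nat.mul_le_mul_right _ this
    _ = _ := by ring

end Pool.MP_dd84fd_nt.JX
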