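import Pool.Agent.Lib.MP_dd84fd_nt.JX.VlA

/-!
# JX-VlB: the V-lemma, counting for one denominator and the sum over the denominators
-/

set_option autoImplicit false

namespace Pool.MP_dd84fd_nt.JX

open Finset
open Pool.MP_dd84fd_nt.L2G (nrm)
open Pool.MP_dd84fd_nt.GX

theorem vl_biUnion {ι β : Type*} [DecidableEq β] (s : Finset ι) (f : ι → Finset β) (r : ℝ)
    (h : ∀ a ∈ s, ((f a).card : ℝ) ≤ r) : ((s.biUnion f).card : ℝ) ≤ s.card * r := by
  have h1 : ((s.biUnion f).card : ℝ) ≤ ((∑ a ∈ s, (f a).card : ℕ) : ℝ) := by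
    exact_mod_cast Finset.card_biUnion_le
  refine h1.trans ?_
  push_cast
  refine (Finset.sum_le_sum h).trans ?_
  rw [Finset.sum_const, nsmul_eq_mul]

/-- a point with its integer data: `t = m α - n α'`, `c = round t`, `u = ⌊2 X (t - c)⌋` -/
theorem vl_pt (X N n m : ℕ) (hX : 1 ≤ X) (hn2 : n ≤ 2 * N) (hm2 : m ≤ 2 * N) (q : ℕ) (hqX : q ≤ X)
    (δ : ℝ) (α α' : ℝ) (h1 : nrm (q * α) ≤ δ) (h2 : nrm (q * α') ≤ δ) :
    let t : ℝ := m * α - n * α'
    let u : ℤ := ⌊2 * (X : ℝ) * (t - round t)⌋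
    let s : ℤ := m * round (q * α) - q * round t - n * round (q * α')
    (q : ℝ) * u / (2 * X) - 4 * N * δ ≤ s ∧ (s : ℝ) ≤ q * u / (2 * X) + 1 / 2 + 4 * N * δ := by
  intro t u s
  have hX0 : (0 : ℝ) < X := by exact_mod_cast hX
  have hδ : 0 ≤ δ := (abs_nonneg _).trans h1
  set γ : ℝ := t - round t with hγ
  have hu1 : (u : ℝ) ≤ 2 * X * γ := Int.floor_le _
  have hu2 : 2 * X * γ < u + 1 := Int.lt_floor_add_one _
  set ε : ℝ := q * α - round (q * α) with hε
  set ε1 : ℝ := q * α' - round (q * α') with hε1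
  have he : |ε| ≤ δ := h1
  have he1 : |ε1| ≤ δ := h2
  have hs : (s : ℝ) = q * γ - m * ε + n * ε1 := by
    show ((m * round (q * α) - q * round t - n * round (q * α') : ℤ) : ℝ) = _
    push_cast
    rw [hγ, hε, hε1]
    show (m : ℝ) * round ((q : ℝ) * α) - q * round t - n * round ((q : ℝ) * α') =
      q * ((m * α - n * α') - round t) - m * (q * α - round ((q : ℝ) * α)) +
        n * (q * α' - round ((q : ℝ) * α'))
    ring
  have hm2' : (m : ℝ) ≤ 2 * N := by exact_mod_cast hm2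
  have hn2' : (n : ℝ) ≤ 2 * N := by exact_mod_cast hn2
  have hm0 : (0 : ℝ) ≤ m := Nat.cast_nonneg _
  have hn0 : (0 : ℝ) ≤ n := Nat.cast_nonneg _
  have b1 : |(m : ℝ) * ε| ≤ 2 * N * δ := by
    rw [abs_mul, abs_of_nonneg hm0]
    exact mul_le_mul hm2' he (abs_nonneg _) (by positivity)
  have b2 : |(n : ℝ) * ε1| ≤ 2 * N * δ := by
    rw [abs_mul, abs_of_nonneg hn0]
    exact mul_le_mul hn2' he1 (abs_nonneg _) (by positivity)
  obtain ⟨b3, b4⟩ := abs_le.1 b1
  obtain ⟨b5, b6⟩ := abs_le.1 b2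
  have hq0 : (0 : ℝ) ≤ q := Nat.cast_nonneg _
  have hqX' : (q : ℝ) ≤ X := by exact_mod_cast hqX
  have c1 : (q : ℝ) * u / (2 * X) ≤ q * γ := by
    rw [div_le_iff₀ (by positivity)]
    nlinarith [mul_le_mul_of_nonneg_left hu1 hq0]
  have c2 : (q : ℝ) * γ ≤ q * u / (2 * X) + 1 / 2 := by
    have c3 : (q : ℝ) * γ ≤ q * (u + 1) / (2 * X) := by
      rw [le_div_iff₀ (by positivity)]
      nlinarith [mul_le_mul_of_nonneg_left hu2.le hq0]
    have c4 : (q : ℝ) * (u + 1) / (2 * X) = q * u / (2 * X) + q / (2 * X) := by ring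
    have c5 : (q : ℝ) / (2 * X) ≤ 1 / 2 := by
      rw [div_le_iff₀ (by positivity)]
      linarith
    linarith
  rw [hs]
  constructor <;> linarith

/-- counting for one denominator `n` -/
theorem vl_fix (X G N n : ℕ) [NeZero G] (hX : 1 ≤ X) (hG : 4 * X ^ 2 ≤ G) (hNX : N ≤ X)
    (hNn : N < n) (hn2 : n ≤ 2 * N) (q q' : ℕ) (hq : q ≤ X) (hq' : q' ≤ X) (δ : ℝ) (α ρ : ℝ)
    (hρ : 1 / (2 * (X : ℝ)) ≤ ρ) (h1 : nrm (q * α) ≤ δ) (h2 : nrm (q' * α) ≤ δ)
    (h3 : Int.gcd (round (q * α)) q = 1) (O : Finset (ZMod G))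
    (hO : ∀ j ∈ O, nrm (q * al G j) ≤ δ ∧ nrm (q' * al G j) ≤ δ) :
    ((((Ioc N (2 * N)) ×ˢ O).filter (fun z : ℕ × ZMod G =>
      nrm ((z.1 : ℝ) * α - (n : ℝ) * al G z.2) ≤ ρ)).card : ℝ) ≤
      16 * (8 * N * δ + 2) ^ 2 * ρ * G *
        ((Nat.gcd (round (q * α) * q' - round (q' * α) * q).natAbs n : ℝ) / n) := by
  classical
  have hδ : 0 ≤ δ := (abs_nonneg _).trans h1
  have hX0 : (0 : ℝ) < X := by exact_mod_cast hX
  have hXr : (1 : ℝ) ≤ X := by exact_mod_cast hX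
  have hG' : 4 * (X : ℝ) ^ 2 ≤ G := by exact_mod_cast hG
  have hG0 : (0 : ℝ) < G := lt_of_lt_of_le (by positivity) hG'
  have hn0 : (0 : ℝ) < n := by exact_mod_cast (show 0 < n by omega)
  have hρ0 : 0 < ρ := lt_of_lt_of_le (by positivity) hρ
  have hnX : (n : ℝ) ≤ 2 * X := by
    have : n ≤ 2 * X := by omega
    exact_mod_cast this
  set b := round ((q : ℝ) * α) with hb
  set b' := round ((q' : ℝ) * α) with hb'
  set g := Nat.gcd (b * q' - b' * q).natAbs n with hg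
  -- the ranges
  let lo : ℤ → ℕ → ℤ := fun u m => ⌊(m : ℝ) * α - ((u : ℝ) + 1) / (2 * X) - n⌋ + 1
  let S : ℕ → ℤ → Finset ℤ := fun q u =>
    Icc ⌈(q : ℝ) * u / (2 * X) - 4 * N * δ⌉ ⌊(q : ℝ) * u / (2 * X) + 1 / 2 + 4 * N * δ⌋
  let P : ℤ → ℤ → ℤ → Finset (ℕ × ℤ) := fun u s s' =>
    ((Ioc N (2 * N)).biUnion (fun m => (Icc (lo u m) (lo u m + n)).image (fun c => (m, c)))).filter
      (fun p => (n : ℤ) ∣ p.1 * b - q * p.2 - s ∧ (n : ℤ) ∣ p.1 * b' - q' * p.2 - s')
  let J : ℤ → ℕ × ℤ → Finset (ZMod G) := fun u p => univ.filter (fun j : ZMod G =>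
    (j.val : ℤ) ∈ Icc ⌈(p.1 * α - p.2 - ((u : ℝ) + 1) / (2 * X)) * (G / n)⌉
      ⌊(p.1 * α - p.2 - (u : ℝ) / (2 * X)) * (G / n)⌋)
  let U : Finset ℤ := Icc ⌈-(2 * X * ρ) - 1⌉ ⌊2 * X * ρ⌋
  have hsub : ((Ioc N (2 * N)) ×ˢ O).filter (fun z : ℕ × ZMod G =>
      nrm ((z.1 : ℝ) * α - (n : ℝ) * al G z.2) ≤ ρ) ⊆
      U.biUnion (fun u => (S q u).biUnion (fun s => (S q' u).biUnion (fun s' =>
        (P u s s').biUnion (fun p => (J u p).image (fun j => (p.1, j)))))) := by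
    intro z hz
    rw [Finset.mem_filter, Finset.mem_product] at hz
    obtain ⟨⟨hm, hj⟩, hz3⟩ := hz
    obtain ⟨hj1, hj2⟩ := hO z.2 hj
    have hm' := Finset.mem_Ioc.1 hm
    have p1 := vl_pt X N n z.1 hX hn2 hm'.2 q hq δ α (al G z.2) h1 hj1
    have p2 := vl_pt X N n z.1 hX hn2 hm'.2 q' hq' δ α (al G z.2) h2 hj2
    simp only at p1 p2
    set t : ℝ := (z.1 : ℝ) * α - n * al G z.2 with ht
    set c : ℤ := round t with hc
    set u : ℤ := ⌊2 * (X : ℝ) * (t - c)⌋ with hu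
    have hu1 : (u : ℝ) ≤ 2 * X * (t - c) := Int.floor_le _
    have hu2 : 2 * X * (t - c) < u + 1 := Int.lt_floor_add_one _
    have htc : |t - c| ≤ ρ := hz3
    obtain ⟨ht1, ht2⟩ := abs_le.1 htc
    have huU : u ∈ U := by
      show u ∈ Icc ⌈-(2 * X * ρ) - 1⌉ ⌊2 * X * ρ⌋
      rw [Finset.mem_Icc, Int.ceil_le, Int.le_floor]
      constructor
      · nlinarith
      · nlinarith
    have hj0 : (0 : ℝ) ≤ al G z.2 := by unfold al; positivity
    have hj1' : al G z.2 < 1 := by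
      unfold al
      rw [div_lt_one hG0]
      exact_mod_cast ZMod.val_lt z.2
    have hd1 : (u : ℝ) / (2 * X) ≤ t - c := by
      rw [div_le_iff₀ (by positivity)]
      linarith
    have hd2 : t - c < ((u : ℝ) + 1) / (2 * X) := by
      rw [lt_div_iff₀ (by positivity)]
      linarith
    rw [Finset.mem_biUnion]
    refine ⟨u, huU, ?_⟩
    rw [Finset.mem_biUnion]
    refine ⟨z.1 * b - q * c - n * round ((q : ℝ) * al G z.2), ?_, ?_⟩
    · show _ ∈ Icc _ _
      rw [Finset.mem_Icc, Int.ceil_le, Int.le_floor]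
      exact p1
    rw [Finset.mem_biUnion]
    refine ⟨z.1 * b' - q' * c - n * round ((q' : ℝ) * al G z.2), ?_, ?_⟩
    · show _ ∈ Icc _ _
      rw [Finset.mem_Icc, Int.ceil_le, Int.le_floor]
      exact p2
    rw [Finset.mem_biUnion]
    refine ⟨(z.1, c), ?_, ?_⟩
    · show _ ∈ Finset.filter _ _
      rw [Finset.mem_filter, Finset.mem_biUnion]
      refine ⟨⟨z.1, hm, ?_⟩, ?_, ?_⟩
      · rw [Finset.mem_image]
        refine ⟨c, ?_, rfl⟩
        rw [Finset.mem_Icc]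
        have hnj0 : 0 ≤ (n : ℝ) * al G z.2 := by positivity
        have hnj1 : (n : ℝ) * al G z.2 < n := by nlinarith
        have hct : (c : ℝ) = z.1 * α - n * al G z.2 - (t - c) := by rw [ht]; ring
        have hhalf : ((u : ℝ) + 1) / (2 * X) ≤ (u : ℝ) / (2 * X) + 1 / 2 := by
          rw [add_div]
          have : 1 / (2 * (X : ℝ)) ≤ 1 / 2 := by
            apply one_div_le_one_div_of_le (by norm_num)
            linarith
          linarith
        constructor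
        · show ⌊(z.1 : ℝ) * α - ((u : ℝ) + 1) / (2 * X) - n⌋ + 1 ≤ c
          have : ⌊(z.1 : ℝ) * α - ((u : ℝ) + 1) / (2 * X) - n⌋ < c := by
            rw [Int.floor_lt]
            linarith
          omega
        · show c ≤ ⌊(z.1 : ℝ) * α - ((u : ℝ) + 1) / (2 * X) - n⌋ + 1 + n
          have h5 := Int.lt_floor_add_one ((z.1 : ℝ) * α - ((u : ℝ) + 1) / (2 * X) - n)
          have h6 : (c : ℝ) < ((⌊(z.1 : ℝ) * α - ((u : ℝ) + 1) / (2 * X) - n⌋ + 1 + n + 1 : ℤ) : ℝ) := by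
            push_cast
            linarith
          have h7 : c < ⌊(z.1 : ℝ) * α - ((u : ℝ) + 1) / (2 * X) - n⌋ + 1 + n + 1 := by
            exact_mod_cast h6
          omega
      · show (n : ℤ) ∣ (z.1 : ℤ) * b - q * c - (z.1 * b - q * c - n * round ((q : ℝ) * al G z.2))
        exact ⟨round ((q : ℝ) * al G z.2), by ring⟩
      · show (n : ℤ) ∣ (z.1 : ℤ) * b' - q' * c -
          (z.1 * b' - q' * c - n * round ((q' : ℝ) * al G z.2))
        exact ⟨round ((q' : ℝ) * al G z.2), by ring⟩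
    · rw [Finset.mem_image]
      refine ⟨z.2, ?_, rfl⟩
      show _ ∈ Finset.filter _ _
      rw [Finset.mem_filter]
      refine ⟨Finset.mem_univ _, ?_⟩
      rw [Finset.mem_Icc, Int.ceil_le, Int.le_floor]
      have e1 : (((z.2.val : ℤ)) : ℝ) = (n * al G z.2) * (G / n) := by
        unfold al
        push_cast
        field_simp
      rw [e1]
      have hGn : (0 : ℝ) ≤ G / n := by positivity
      have e2 : (n : ℝ) * al G z.2 = z.1 * α - c - (t - c) := by rw [ht]; ring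
      constructor
      · apply mul_le_mul_of_nonneg_right _ hGn
        show (z.1 : ℝ) * α - c - ((u : ℝ) + 1) / (2 * X) ≤ n * al G z.2
        rw [e2]
        linarith
      · apply mul_le_mul_of_nonneg_right _ hGn
        show (n : ℝ) * al G z.2 ≤ (z.1 : ℝ) * α - c - (u : ℝ) / (2 * X)
        rw [e2]
        linarith
  have hU : (U.card : ℝ) ≤ 8 * X * ρ := by
    have h4 := relcnt_Icc (-(2 * X * ρ) - 1) (2 * X * ρ) (by nlinarith)
    have h5 : 1 ≤ 2 * X * ρ := by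
      have := mul_le_mul_of_nonneg_left hρ (show (0 : ℝ) ≤ 2 * X by positivity)
      rwa [mul_one_div_cancel (by positivity)] at this
    refine h4.trans ?_
    linarith
  have hS : ∀ (r : ℕ) (u : ℤ), ((S r u).card : ℝ) ≤ 8 * N * δ + 2 := by
    intro r u
    have h4 := relcnt_Icc ((r : ℝ) * u / (2 * X) - 4 * N * δ)
      ((r : ℝ) * u / (2 * X) + 1 / 2 + 4 * N * δ) (by
        have : 0 ≤ (N : ℝ) * δ := by positivity
        linarith)
    refine h4.trans ?_
    linarith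
  have hP : ∀ u s s', ((P u s s').card : ℝ) ≤ 2 * g := by
    intro u s s'
    have h4 := vl_P n N hNn b q b' q' s s' h3 (lo u) (P u s s') (by
      intro p hp
      have hp' := Finset.mem_filter.1 hp
      obtain ⟨hp1, hp2, hp3⟩ := hp'
      rw [Finset.mem_biUnion] at hp1
      obtain ⟨m, hm, hmc⟩ := hp1
      rw [Finset.mem_image] at hmc
      obtain ⟨c, hc, hcp⟩ := hmc
      rw [Finset.mem_Icc] at hc
      rw [← hcp] at hp2 hp3 ⊢
      exact ⟨hm, hp2, hp3, hc.1, hc.2⟩)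
    exact_mod_cast h4
  have hJ : ∀ u p, ((J u p).card : ℝ) ≤ G / (X * n) := by
    intro u p
    have h4 : (J u p).card ≤ (Icc ⌈(p.1 * α - p.2 - ((u : ℝ) + 1) / (2 * X)) * (G / n)⌉
      ⌊(p.1 * α - p.2 - (u : ℝ) / (2 * X)) * (G / n)⌋).card := by
      refine Finset.card_le_card_of_injOn (fun j : ZMod G => (j.val : ℤ)) ?_ ?_
      · intro j hj
        have hj' : j ∈ J u p := by exact_mod_cast hj
        have := (Finset.mem_filter.1 hj').2
        rw [Finset.mem_coe]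
        exact this
      · intro j _ j' _ h
        simp only at h
        exact ZMod.val_injective G (by exact_mod_cast h)
    have h5 : ((J u p).card : ℝ) ≤ ((Icc ⌈(p.1 * α - p.2 - ((u : ℝ) + 1) / (2 * X)) * (G / n)⌉
      ⌊(p.1 * α - p.2 - (u : ℝ) / (2 * X)) * (G / n)⌋).card : ℝ) := by exact_mod_cast h4
    have h6 : ((u : ℝ)) / (2 * X) ≤ ((u : ℝ) + 1) / (2 * X) := by
      apply div_le_div_of_nonneg_right _ (by positivity)
      linarith
    have hGn : (0 : ℝ) < G / n := by positivity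
    have h7 := relcnt_Icc ((p.1 * α - p.2 - ((u : ℝ) + 1) / (2 * X)) * (G / n))
      ((p.1 * α - p.2 - (u : ℝ) / (2 * X)) * (G / n))
      (mul_le_mul_of_nonneg_right (by linarith) hGn.le)
    refine h5.trans (h7.trans ?_)
    have h8 : (p.1 * α - p.2 - (u : ℝ) / (2 * X)) * (G / n) -
        (p.1 * α - p.2 - ((u : ℝ) + 1) / (2 * X)) * (G / n) + 1 = G / (2 * X * n) + 1 := by
      field_simp
      ring
    rw [h8]
    have h9 : (1 : ℝ) ≤ G / (2 * X * n) := by
      rw [le_div_iff₀ (by positivity)]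
      nlinarith
    have h10 : (G : ℝ) / (X * n) = 2 * (G / (2 * X * n)) := by
      field_simp
    rw [h10]
    linarith
  have hW0 : 0 ≤ 8 * (N : ℝ) * δ + 2 := by positivity
  have hcard : ((((Ioc N (2 * N)) ×ˢ O).filter (fun z : ℕ × ZMod G =>
      nrm ((z.1 : ℝ) * α - (n : ℝ) * al G z.2) ≤ ρ)).card : ℝ) ≤
      (8 * X * ρ) * ((8 * N * δ + 2) * ((8 * N * δ + 2) * ((2 * g) * (G / (X * n))))) := by
    have h4 : ((((Ioc N (2 * N)) ×ˢ O).filter (fun z : ℕ × ZMod G =>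
      nrm ((z.1 : ℝ) * α - (n : ℝ) * al G z.2) ≤ ρ)).card : ℝ) ≤
      ((U.biUnion (fun u => (S q u).biUnion (fun s => (S q' u).biUnion (fun s' =>
        (P u s s').biUnion (fun p => (J u p).image (fun j => (p.1, j))))))).card : ℝ) := by
      exact_mod_cast Finset.card_le_card hsub
    refine h4.trans ?_
    refine (vl_biUnion U _ ((8 * N * δ + 2) * ((8 * N * δ + 2) * ((2 * g) * (G / (X * n))))) ?_).trans
      (mul_le_mul_of_nonneg_right hU (by positivity))
    intro u _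
    refine (vl_biUnion (S q u) _ ((8 * N * δ + 2) * ((2 * g) * (G / (X * n)))) ?_).trans
      (mul_le_mul_of_nonneg_right (hS q u) (by positivity))
    intro s _
    refine (vl_biUnion (S q' u) _ ((2 * g) * (G / (X * n))) ?_).trans
      (mul_le_mul_of_nonneg_right (hS q' u) (by positivity))
    intro s' _
    refine (vl_biUnion (P u s s') _ (G / (X * n)) ?_).trans
      (mul_le_mul_of_nonneg_right (hP u s s') (by positivity))
    intro p _
    refine le_trans ?_ (hJ u p)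
    exact_mod_cast Finset.card_image_le
  refine hcard.trans (le_of_eq ?_)
  field_simp
  ring

/-- `Σ_{n ∈ (N, 2N]} gcd (v, n) / n ≤ 2 τ(v)` -/
theorem vl_gcd (N v : ℕ) (hN : 1 ≤ N) (hv : 0 < v) :
    ∑ n ∈ Ioc N (2 * N), (Nat.gcd v n : ℝ) / n ≤ 2 * (v.divisors.card : ℝ) := by
  have hN0 : (0 : ℝ) < N := by exact_mod_cast hN
  have h1 : ∀ n ∈ Ioc N (2 * N), Nat.gcd v n ≤ ∑ g ∈ v.divisors, if g ∣ n then g else 0 := by
    intro n _
    have h2 : Nat.gcd v n ∈ v.divisors := Nat.mem_divisors.2 ⟨Nat.gcd_dvd_left v n, hv.ne'⟩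
    have h3 : (if Nat.gcd v n ∣ n then Nat.gcd v n else 0) = Nat.gcd v n :=
      if_pos (Nat.gcd_dvd_right v n)
    calc Nat.gcd v n = (if Nat.gcd v n ∣ n then Nat.gcd v n else 0) := h3.symm
      _ ≤ ∑ g ∈ v.divisors, if g ∣ n then g else 0 :=
          Finset.single_le_sum (f := fun g => if g ∣ n then g else 0) (fun g _ => Nat.zero_le _) h2
  have h2 : ∑ n ∈ Ioc N (2 * N), Nat.gcd v n ≤ 2 * N * v.divisors.card := by
    refine (Finset.sum_le_sum h1).trans ?_
    rw [Finset.sum_comm]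
    calc ∑ g ∈ v.divisors, ∑ n ∈ Ioc N (2 * N), (if g ∣ n then g else 0)
        ≤ ∑ _g ∈ v.divisors, 2 * N := by
          refine Finset.sum_le_sum fun g _ => ?_
          rw [← Finset.sum_filter, Finset.sum_const, smul_eq_mul]
          have h4 : ((Ioc N (2 * N)).filter fun n => g ∣ n).card ≤ 2 * N / g := by
            rw [← Nat.Ioc_filter_dvd_card_eq_div (2 * N) g]
            apply Finset.card_le_card
            intro x hx
            rw [Finset.mem_filter, Finset.mem_Ioc] at hx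
            rw [Finset.mem_filter, Finset.mem_Ioc]
            refine ⟨⟨?_, hx.1.2⟩, hx.2⟩
            omega
          calc ((Ioc N (2 * N)).filter fun n => g ∣ n).card * g ≤ 2 * N / g * g :=
                Nat.mul_le_mul_right g h4
            _ ≤ 2 * N := Nat.div_mul_le_self _ _
      _ = 2 * N * v.divisors.card := by rw [Finset.sum_const, smul_eq_mul, mul_comm]
  have h3 : ∑ n ∈ Ioc N (2 * N), (Nat.gcd v n : ℝ) / n ≤
      ∑ n ∈ Ioc N (2 * N), (Nat.gcd v n : ℝ) / N := by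
    refine Finset.sum_le_sum fun n hn => ?_
    rw [Finset.mem_Ioc] at hn
    refine div_le_div_of_nonneg_left (Nat.cast_nonneg _) hN0 ?_
    exact_mod_cast hn.1.le
  refine h3.trans ?_
  rw [← Finset.sum_div, div_le_iff₀ hN0]
  have h4 : ((∑ n ∈ Ioc N (2 * N), Nat.gcd v n : ℕ) : ℝ) ≤ ((2 * N * v.divisors.card : ℕ) : ℝ) := by
    exact_mod_cast h2
  push_cast at h4
  linarith

end Pool.MP_dd84fd_nt.JX
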